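import Pool.Agent.Helper79_Real.Blocks

namespace Pool.Agent.Helper79_Real

open Finset

/-- weighted number of `q`-tuples of total size at most `m` -/
def S (N : ℕ → ℕ) : ℕ → ℕ → ℕ
  | 0, _ => 1
  | q + 1, m => ∑ a ∈ range (m + 1), N a * S N q (m - a)

/-- group elements represented by words of path length at most `n` (from `c` to `c`) -/
def NN (c : ℝ) (O : Finset ℝ) (n : ℕ) : Set (Equiv.Perm (List Bool)) :=
  {g | ∃ w, IsW c w ∧ val c w = g ∧ pl O c w c ≤ n}

/-- group elements whose total minimal length at level `m` is at most `n` -/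
def XX (c : ℝ) (O : Finset ℝ) (m : ℕ) (y y' : ℝ) (n : ℕ) : Set (Equiv.Perm (List Bool)) :=
  {g | ∃ w, IsW c w ∧ val c w = g ∧ X c O m y w y' ≤ n}

/-- `u` (read from the position `z`) is made of `k + 1` zero loss words separated by `k` letters -/
def Dec (c : ℝ) (O : Finset ℝ) (M : ℕ) : ℕ → ℝ → List ℝ → Prop
  | 0, z, u => ZL c O M z u (u.getLastD z)
  | k + 1, z, u => ∃ u1 a u2, u = u1 ++ a :: u2 ∧ ZL c O M z u1 (u1.getLastD z) ∧ Dec c O M k a u2

open Classical in
/-- group elements with `k + 1` zero loss pieces and at most `n` letters `c` -/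
def DD (c : ℝ) (O : Finset ℝ) (M k : ℕ) (z : ℝ) (n : ℕ) : Set (Equiv.Perm (List Bool)) :=
  {g | ∃ u, IsW c u ∧ (z :: u).IsChain (· ≠ ·) ∧ Dec c O M k z u ∧ u.count c ≤ n ∧ val c u = g}

open Classical in
/-- conclusion of the lemma `pieces`: boundedly many zero loss words with a given number of letters `c` -/
def PB (c : ℝ) (O : Finset ℝ) (M K : ℕ) : Prop :=
  ∀ z ∈ P c, ∀ s : ℕ,
    {g | ∃ u, IsW c u ∧ (z :: u).IsChain (· ≠ ·) ∧ ZL c O M z u (u.getLastD z) ∧ u.count c = s ∧
      val c u = g}.Finite ∧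
    {g | ∃ u, IsW c u ∧ (z :: u).IsChain (· ≠ ·) ∧ ZL c O M z u (u.getLastD z) ∧ u.count c = s ∧
      val c u = g}.ncard ≤ K

end Pool.Agent.Helper79_Real
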