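import Pool.Agent.Helper79_Real.Defs

namespace Pool.Agent.Helper79_Real

open Finset

/-- value of a word: the first letter acts first -/
noncomputable def val (c : ℝ) : List ℝ → Equiv.Perm (List Bool)
  | [] => 1
  | q :: w => val c w * gen c q

open Classical in
/-- side reached from side `b` after reading `w` -/
noncomputable def fin (c : ℝ) : Bool → List ℝ → Bool
  | b, [] => b
  | b, q :: w => if q = c then fin c (!b) w else fin c b w

open Classical in
/-- section of a word -/
noncomputable def sec (c : ℝ) : Bool → List ℝ → List ℝ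
  | _, [] => []
  | b, q :: w =>
    if q = c then sec c (!b) w
    else if pre c b q ∈ P c then pre c b q :: sec c b w
    else sec c b w

variable {c : ℝ}

@[simp] theorem gen_apply (q : ℝ) (l : List Bool) : gen c q l = act c q l := rfl

theorem gen_mul_self (q : ℝ) : gen c q * gen c q = 1 := by
  ext1 l; simp [act_act]

theorem gen_inv (q : ℝ) : (gen c q)⁻¹ = gen c q := by
  rw [inv_eq_iff_mul_eq_one]; exact gen_mul_self q

@[simp] theorem val_nil : val c [] = 1 := rfl

theorem val_cons (q : ℝ) (w : List ℝ) : val c (q :: w) = val c w * gen c q := rfl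

theorem val_append (u v : List ℝ) : val c (u ++ v) = val c v * val c u := by
  induction u with
  | nil => simp
  | cons q u ih => simp [val_cons, ih, mul_assoc]

theorem val_nil_apply (w : List ℝ) : val c w [] = [] := by
  induction w with
  | nil => rfl
  | cons q w ih => simp [val_cons, act, ih]

theorem val_apply_cons (b : Bool) (w : List ℝ) (l : List Bool) :
    val c w (b :: l) = fin c b w :: val c (sec c b w) l := by
  induction w generalizing b l with
  | nil => simp [fin, sec]
  | cons q w ih =>
    by_cases h : q = c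
    · simp [val_cons, act, h, ih, fin, sec]
    · by_cases h2 : pre c b q ∈ P c
      · simp [val_cons, act, h, h2, ih, fin, sec]
      · simp [val_cons, act, h, h2, ih, fin, sec]

theorem val_eq_iff (w w' : List ℝ) : val c w = val c w' ↔
    ∀ b, fin c b w = fin c b w' ∧ val c (sec c b w) = val c (sec c b w') := by
  constructor
  · intro h b
    have h1 : ∀ l, fin c b w :: val c (sec c b w) l = fin c b w' :: val c (sec c b w') l := by
      intro l; rw [← val_apply_cons, ← val_apply_cons, h]
    refine ⟨?_, ?_⟩
    · have := h1 []; simp only [List.cons.injEq] at this; exact this.1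
    · ext1 l; have := h1 l; simp only [List.cons.injEq] at this; exact this.2
  · intro h
    ext1 l
    cases l with
    | nil => rw [val_nil_apply, val_nil_apply]
    | cons b l => rw [val_apply_cons, val_apply_cons, (h b).1, (h b).2]

theorem fin_append (b : Bool) (u v : List ℝ) : fin c b (u ++ v) = fin c (fin c b u) v := by
  induction u generalizing b with
  | nil => simp [fin]
  | cons q u ih => by_cases h : q = c <;> simp [fin, h, ih]

theorem sec_append (b : Bool) (u v : List ℝ) :
    sec c b (u ++ v) = sec c b u ++ sec c (fin c b u) v := by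
  induction u generalizing b with
  | nil => simp [fin, sec]
  | cons q u ih =>
    by_cases h : q = c
    · simp [fin, sec, h, ih]
    · by_cases h2 : pre c b q ∈ P c <;> simp [fin, sec, h, h2, ih]

theorem fin_not (b : Bool) (w : List ℝ) : fin c (!b) w = !(fin c b w) := by
  induction w generalizing b with
  | nil => simp [fin]
  | cons q w ih => by_cases h : q = c <;> simp [fin, h, ih]

theorem mem_sec {b : Bool} {w : List ℝ} {q : ℝ} (h : q ∈ sec c b w) : q ∈ P c := by
  induction w generalizing b with
  | nil => simp [sec] at h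
  | cons a w ih =>
    by_cases h1 : a = c
    · simp only [sec, h1, if_true] at h; exact ih h
    · by_cases h2 : pre c b a ∈ P c
      · simp only [sec, h1, h2, if_true, if_false, List.mem_cons] at h
        rcases h with h | h
        · rw [h]; exact h2
        · exact ih h
      · simp only [sec, h1, h2, if_false] at h; exact ih h

/-- words over the post-critical set -/
def IsW (c : ℝ) (w : List ℝ) : Prop := ∀ q ∈ w, q ∈ P c

theorem isW_sec (b : Bool) (w : List ℝ) : IsW c (sec c b w) := fun _ h => mem_sec h

theorem isW_append {u v : List ℝ} : IsW c (u ++ v) ↔ IsW c u ∧ IsW c v := by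
  simp only [IsW, List.mem_append]
  constructor
  · intro h; exact ⟨fun q hq => h q (Or.inl hq), fun q hq => h q (Or.inr hq)⟩
  · rintro ⟨h1, h2⟩ q (hq | hq)
    · exact h1 q hq
    · exact h2 q hq

theorem isW_cons {q : ℝ} {w : List ℝ} : IsW c (q :: w) ↔ q ∈ P c ∧ IsW c w := by
  simp [IsW]

theorem isW_nil : IsW c [] := by simp [IsW]

/-! ### distances -/

/-- `x` lies strictly between `a` and `b` -/
def btw (x a b : ℝ) : Prop := (a < x ∧ x < b) ∨ (b < x ∧ x < a)

open Classical in
/-- number of points of `O` strictly between `a` and `b` -/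
noncomputable def d (O : Finset ℝ) (a b : ℝ) : ℕ := (O.filter (fun x => btw x a b)).card

theorem btw_comm (x a b : ℝ) : btw x a b ↔ btw x b a := by unfold btw; tauto

theorem d_comm (O : Finset ℝ) (a b : ℝ) : d O a b = d O b a := by
  unfold d; congr 1; ext x; simp [btw_comm x a b]

open Classical in
@[simp] theorem d_self (O : Finset ℝ) (a : ℝ) : d O a a = 0 := by
  unfold d; rw [Finset.card_eq_zero, Finset.filter_eq_empty_iff]
  intro x _ h; unfold btw at h; rcases h with ⟨h1, h2⟩ | ⟨h1, h2⟩ <;> linarith

open Classical in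
theorem d_le_card (O : Finset ℝ) (a b : ℝ) : d O a b ≤ O.card := Finset.card_filter_le _ _

open Classical in
theorem d_tri {O : Finset ℝ} {a b e : ℝ} (hb : b ∉ O) : d O a e ≤ d O a b + d O b e := by
  unfold d
  refine le_trans (Finset.card_le_card ?_) (Finset.card_union_le _ _)
  intro x hx
  simp only [Finset.mem_filter, Finset.mem_union] at hx ⊢
  obtain ⟨h1, h2⟩ := hx
  have hne : x ≠ b := fun h => hb (h ▸ h1)
  unfold btw at *
  rcases lt_or_gt_of_ne hne with h | h
  · rcases h2 with ⟨h3, h4⟩ | ⟨h3, h4⟩
    · left; exact ⟨h1, Or.inl ⟨h3, h⟩⟩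
    · right; exact ⟨h1, Or.inr ⟨h3, h⟩⟩
  · rcases h2 with ⟨h3, h4⟩ | ⟨h3, h4⟩
    · right; exact ⟨h1, Or.inl ⟨h, h4⟩⟩
    · left; exact ⟨h1, Or.inr ⟨h, h4⟩⟩

open Classical in
/-- additivity along the line -/
theorem d_add {O : Finset ℝ} {a b e : ℝ} (hb : b ∉ O) (h1 : a ≤ b) (h2 : b ≤ e) :
    d O a e = d O a b + d O b e := by
  unfold d
  rw [← Finset.card_union_of_disjoint]
  · congr 1; ext x
    simp only [Finset.mem_filter, Finset.mem_union]
    unfold btw
    constructor
    · rintro ⟨hx, h⟩
      have hne : x ≠ b := fun h => hb (h ▸ hx)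
      rcases lt_or_gt_of_ne hne with h' | h'
      · left; refine ⟨hx, ?_⟩; rcases h with ⟨h3, h4⟩ | ⟨h3, h4⟩
        · left; exact ⟨h3, h'⟩
        · exfalso; linarith
      · right; refine ⟨hx, ?_⟩; rcases h with ⟨h3, h4⟩ | ⟨h3, h4⟩
        · left; exact ⟨h', h4⟩
        · exfalso; linarith
    · rintro (⟨hx, h⟩ | ⟨hx, h⟩)
      · refine ⟨hx, ?_⟩; rcases h with ⟨h3, h4⟩ | ⟨h3, h4⟩
        · left; exact ⟨h3, lt_of_lt_of_le h4 h2⟩
        · exfalso; linarith
      · refine ⟨hx, ?_⟩; rcases h with ⟨h3, h4⟩ | ⟨h3, h4⟩
        · left; exact ⟨lt_of_le_of_lt h1 h3, h4⟩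
        · exfalso; linarith
  · rw [Finset.disjoint_left]
    intro x hx hx'
    simp only [Finset.mem_filter] at hx hx'
    unfold btw at hx hx'
    rcases hx.2 with ⟨h3, h4⟩ | ⟨h3, h4⟩ <;> rcases hx'.2 with ⟨h5, h6⟩ | ⟨h5, h6⟩ <;> linarith

/-- positions of the two lifts, clamped to the core interval -/
noncomputable def lam (c : ℝ) (b : Bool) (z : ℝ) : ℝ :=
  if b then -√(z - c) else min (√(z - c)) (c ^ 2 + c)

/-- `O` is a finite union of periodic orbits inside the open core interval, missing `0` -/
structure Orb (c : ℝ) (O : Finset ℝ) : Prop where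
  maps : ∀ x ∈ O, f c x ∈ O
  inj : ∀ x ∈ O, ∀ y ∈ O, f c x = f c y → x = y
  lo : ∀ x ∈ O, c < x
  hi : ∀ x ∈ O, x < c ^ 2 + c
  ne0 : (0:ℝ) ∉ O

theorem Orb.image {O : Finset ℝ} (h : Orb c O) [DecidableEq ℝ] : O.image (f c) = O := by
  apply Finset.eq_of_subset_of_card_le
  · intro y hy; rw [Finset.mem_image] at hy; obtain ⟨x, hx, rfl⟩ := hy; exact h.maps x hx
  · rw [Finset.card_image_of_injOn]
    intro x hx y hy hxy; exact h.inj x hx y hy hxy

theorem btw_lamA {x a b : ℝ} (hx : x < 0) (ha : c ≤ a) (hb : c ≤ b) :
    btw x (lam c true a) (lam c true b) ↔ btw (f c x) a b := by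
  have key : ∀ z, c ≤ z → (lam c true z < x ↔ f c x < z) ∧ (x < lam c true z ↔ z < f c x) := by
    intro z hz
    unfold lam f
    simp only [if_true]
    have h0 : (0:ℝ) ≤ z - c := by linarith
    constructor
    · constructor
      · intro h
        have h1 : -x < √(z - c) := by linarith
        have h2 : (-x)^2 < z - c := (Real.lt_sqrt (by linarith)).1 h1
        nlinarith
      · intro h
        have h2 : (-x)^2 < z - c := by nlinarith
        have h1 : -x < √(z - c) := (Real.lt_sqrt (by linarith)).2 h2
        linarith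
    · constructor
      · intro h
        have h1 : √(z - c) < -x := by linarith
        have h2 : z - c < (-x)^2 := (Real.sqrt_lt' (by linarith)).1 h1
        nlinarith
      · intro h
        have h2 : z - c < (-x)^2 := by nlinarith
        have h1 : √(z - c) < -x := (Real.sqrt_lt' (by linarith)).2 h2
        linarith
  unfold btw
  rw [(key a ha).1, (key b hb).2, (key b hb).1, (key a ha).2]
  tauto

theorem btw_lamB {x a b : ℝ} (hx : 0 < x) (hx2 : x < c ^ 2 + c) (ha : c ≤ a) (hb : c ≤ b) :
    btw x (lam c false a) (lam c false b) ↔ btw (f c x) a b := by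
  have key : ∀ z, c ≤ z → (lam c false z < x ↔ z < f c x) ∧ (x < lam c false z ↔ f c x < z) := by
    intro z hz
    unfold lam f
    simp only [Bool.false_eq_true, if_false]
    have h0 : (0:ℝ) ≤ z - c := by linarith
    constructor
    · rw [min_lt_iff]
      constructor
      · rintro (h | h)
        · have h2 : z - c < x^2 := (Real.sqrt_lt' hx).1 h
          linarith
        · exfalso; linarith
      · intro h; left
        exact (Real.sqrt_lt' hx).2 (by linarith)
    · rw [lt_min_iff]
      constructor
      · rintro ⟨h, _⟩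
        have h2 : x^2 < z - c := (Real.lt_sqrt hx.le).1 h
        linarith
      · intro h
        exact ⟨(Real.lt_sqrt hx.le).2 (by linarith), hx2⟩
  unfold btw
  rw [(key a ha).1, (key b hb).2, (key b hb).1, (key a ha).2]

theorem lamA_nonpos (z : ℝ) : lam c true z ≤ 0 := by
  unfold lam; simp

theorem lamB_nonneg (hc2 : 0 ≤ c ^ 2 + c) (z : ℝ) : 0 ≤ lam c false z := by
  unfold lam; simp only [Bool.false_eq_true, if_false]; exact le_min (Real.sqrt_nonneg _) hc2

theorem cons {O : Finset ℝ} (h : Orb c O) (hc2 : 0 ≤ c ^ 2 + c) {a b : ℝ} (ha : c ≤ a)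
    (hb : c ≤ b) :
    d O (lam c true a) (lam c true b) + d O (lam c false a) (lam c false b) = d O a b := by
  classical
  have e1 : d O a b = (O.filter (fun x => btw (f c x) a b)).card := by
    unfold d
    conv_lhs => rw [← h.image]
    rw [Finset.filter_image, Finset.card_image_of_injOn]
    intro x hx y hy hxy
    simp only [Finset.coe_filter, Set.mem_ofPred_eq] at hx hy
    exact h.inj x hx.1 y hy.1 hxy
  have e2 : d O (lam c true a) (lam c true b)
      = (O.filter (fun x => x < 0 ∧ btw (f c x) a b)).card := by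
    unfold d; congr 1; apply Finset.filter_congr
    intro x _
    constructor
    · intro hx
      have hx0 : x < 0 := by
        unfold btw at hx
        have := lamA_nonpos (c := c) a
        have := lamA_nonpos (c := c) b
        rcases hx with ⟨h1, h2⟩ | ⟨h1, h2⟩ <;> linarith
      exact ⟨hx0, (btw_lamA hx0 ha hb).1 hx⟩
    · rintro ⟨hx0, hx⟩; exact (btw_lamA hx0 ha hb).2 hx
  have e3 : d O (lam c false a) (lam c false b)
      = (O.filter (fun x => 0 < x ∧ btw (f c x) a b)).card := by
    unfold d; congr 1; apply Finset.filter_congr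
    intro x hxO
    constructor
    · intro hx
      have hx0 : 0 < x := by
        unfold btw at hx
        have := lamB_nonneg (c := c) hc2 a
        have := lamB_nonneg (c := c) hc2 b
        rcases hx with ⟨h1, h2⟩ | ⟨h1, h2⟩ <;> linarith
      exact ⟨hx0, (btw_lamB hx0 (h.hi x hxO) ha hb).1 hx⟩
    · rintro ⟨hx0, hx⟩; exact (btw_lamB hx0 (h.hi x hxO) ha hb).2 hx
  rw [e1, e2, e3, ← Finset.card_union_of_disjoint]
  · congr 1; ext x
    simp only [Finset.mem_union, Finset.mem_filter]
    constructor
    · rintro (⟨h1, _, h3⟩ | ⟨h1, _, h3⟩) <;> exact ⟨h1, h3⟩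
    · rintro ⟨h1, h3⟩
      rcases lt_trichotomy x 0 with hx | hx | hx
      · left; exact ⟨h1, hx, h3⟩
      · exfalso; rw [hx] at h1; exact h.ne0 h1
      · right; exact ⟨h1, hx, h3⟩
  · rw [Finset.disjoint_left]; intro x h1 h2
    simp only [Finset.mem_filter] at h1 h2
    linarith [h1.2.1, h2.2.1]

end Pool.Agent.Helper79_Real
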