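import Pool.Agent.Helper79_Real.Facts

namespace Pool.Agent.Helper79_Real

variable {c : ℝ}

open Classical in
/-- the post-critical set as a finite set -/
noncomputable def Pf (c : ℝ) : Finset ℝ := if hf : (P c).Finite then hf.toFinset else ∅

theorem mem_Pf (h : Hyp c) {q : ℝ} : q ∈ Pf c ↔ q ∈ P c := by
  simp [Pf, h.fin]

/-- positions reached from the post-critical set by at most `m` lifts -/
def Qs (c : ℝ) : ℕ → Set ℝ
  | 0 => P c
  | m + 1 => Qs c m ∪ lam c true '' Qs c m ∪ lam c false '' Qs c m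

/-- `O` separates the positions of level at most `M` -/
def Sep (c : ℝ) (O : Finset ℝ) (M : ℕ) : Prop :=
  ∀ a ∈ Qs c M, ∀ b ∈ Qs c M, a < b → ∃ x ∈ O, a < x ∧ x < b

/-- no turn at an interior letter -/
def NT (c : ℝ) (w : List ℝ) : Prop :=
  ∀ x a b e y, w = x ++ a :: b :: e :: y →
    b = c ∨ b = c ^ 2 + c ∨ (a < b ∧ b < e) ∨ (e < b ∧ b < a)

open Classical in
/-- increasing list of the post-critical points in `(c, 0)` -/
noncomputable def LA (c : ℝ) : List ℝ :=
  ((Pf c).filter (fun x => c < x ∧ x < 0)).sort (· ≤ ·)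

open Classical in
/-- increasing list of the post-critical points in `(0, c^2+c)` -/
noncomputable def LB (c : ℝ) : List ℝ :=
  ((Pf c).filter (fun x => 0 < x ∧ x < c ^ 2 + c)).sort (· ≤ ·)

open Classical in
/-- half traverse number `h`: `h ≡ 0`: from `c` up to `0`; `h ≡ 1`: from `0` up to `c^2+c`, turning there;
`h ≡ 2`: from `c^2+c` down to `0`; `h ≡ 3`: from `0` down to `c`, turning there (mod 4).
`S h` is the set of interior letters read on the way. -/
noncomputable def hw (c : ℝ) (S : ℕ → ℝ → Prop) (h : ℕ) : List ℝ :=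
  if h % 4 = 0 then (LA c).filter (fun q => decide (S h q))
  else if h % 4 = 1 then (LB c).filter (fun q => decide (S h q)) ++ [c ^ 2 + c]
  else if h % 4 = 2 then (LB c).reverse.filter (fun q => decide (S h q))
  else (LA c).reverse.filter (fun q => decide (S h q)) ++ [c]

/-- half traverses `a, ..., a + n - 1` -/
noncomputable def W (c : ℝ) (S : ℕ → ℝ → Prop) : ℕ → ℕ → List ℝ
  | _, 0 => []
  | a, n + 1 => hw c S a ++ W c S (a + 1) n

theorem W_add (S : ℕ → ℝ → Prop) (a m n : ℕ) :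
    W c S a (m + n) = W c S a m ++ W c S (a + m) n := by
  induction m generalizing a with
  | zero => simp [W]
  | succ m ih =>
    rw [show m + 1 + n = (m + n) + 1 by ring]
    simp only [W, ih, List.append_assoc]
    rw [show a + 1 + m = a + (m + 1) by ring]

/-- letters read on the full traverse `t` (`t` even: up, `t` odd: down) -/
def Tset (S : ℕ → ℝ → Prop) (t : ℕ) (q : ℝ) : Prop :=
  (q < 0 ∧ t % 2 = 0 ∧ S (2 * t) q) ∨ (q < 0 ∧ t % 2 = 1 ∧ S (2 * t + 1) q) ∨
  (0 ≤ q ∧ t % 2 = 0 ∧ S (2 * t + 1) q) ∨ (0 ≤ q ∧ t % 2 = 1 ∧ S (2 * t) q)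

/-- the sequence of post-critical points from the third one on -/
noncomputable def cs (c : ℝ) (i : ℕ) : ℝ := (f c)^[i] (f c (c ^ 2 + c))

/-- exactly one of the traverses `2i`, `2i+1` reads the third post-critical point -/
def CC (c : ℝ) (S : ℕ → ℝ → Prop) (i : ℕ) : Prop :=
  ¬ (Tset S (2 * i) (cs c 0) ↔ Tset S (2 * i + 1) (cs c 0))

/-- the half traverse sets of the core of the section number `j` (`j = 0, 1`) -/
def core (c : ℝ) (j : ℕ) (S : ℕ → ℝ → Prop) : ℕ → ℝ → Prop :=
  fun h p => Tset S (h + 1 + 2 * j) (f c p)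

/-- `CC` at all levels below `m` -/
def Good (c : ℝ) : ℕ → (ℕ → ℝ → Prop) → ℕ → Prop
  | 0, _, _ => True
  | m + 1, S, r => (∀ i < r, CC c S i) ∧ Good c m (core c 0 S) ((2 * r - 1) / 4)
      ∧ Good c m (core c 1 S) ((2 * r - 3) / 4)

/-- interior post-critical points -/
def Int (c q : ℝ) : Prop := q ∈ P c ∧ q ≠ c ∧ q ≠ c ^ 2 + c

theorem cs_mem (i : ℕ) : cs c i ∈ P c := by
  unfold cs
  induction i with
  | zero => exact P_f c2_mem
  | succ i ih => rw [Function.iterate_succ_apply']; exact P_f ih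

theorem cs_succ (i : ℕ) : cs c (i + 1) = f c (cs c i) := by
  unfold cs; rw [Function.iterate_succ_apply']

theorem cs_int (h : Hyp c) (i : ℕ) : Int c (cs c i) := by
  have hc2 : c ^ 2 + c ≠ c := (h.lt_c2).ne'
  cases i with
  | zero => exact ⟨cs_mem 0, h.ne_c c2_mem, h.f_ne_c2 c2_mem hc2⟩
  | succ i =>
    rw [cs_succ]
    have h1 := cs_mem (c := c) i
    refine ⟨P_f h1, h.ne_c h1, h.f_ne_c2 h1 ?_⟩
    cases i with
    | zero => exact h.ne_c c2_mem
    | succ i => rw [cs_succ]; exact h.ne_c (cs_mem i)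

theorem int_cs {q : ℝ} (hq : Int c q) : ∃ i, q = cs c i := by
  obtain ⟨⟨n, hn⟩, h1, h2⟩ := hq
  match n, hn with
  | 0, hn => exact absurd (by simp [hn, f]) h1
  | 1, hn => exact absurd (by simp [hn, f]) h2
  | (m + 2), hn =>
    refine ⟨m, ?_⟩
    rw [hn]; unfold cs
    rw [show m + 2 + 1 = m + 3 by ring, Function.iterate_add_apply]
    congr 1
    simp [f]

end Pool.Agent.Helper79_Real
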