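import Pool.Agent.Helper79_Real.Base

/-!
Lemma job D1 (periodic points of a real quadratic map that is locally eventually onto).

Plain-words proof.  Write `H = [c, c^2+c]`.  `f c` maps `H` into `H` (`hmap`).
(1) For `a < b` in `H` there is a periodic point `x` of `f c` with `a < x < b`, `x ∉ P c`: the set `P c` is finite,
so there is a closed interval `[a',b'] ⊆ (a,b)` with `a' < b'` disjoint from `P c`.  By exactness
`(f c)^[n] '' [a',b'] = [c, c^2+c] ⊇ [a',b']` for some `n`; we can take `n ≥ 1` (if `n = 0` then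
`[a',b'] = [c,c^2+c]`, impossible as `c ≤ a < a'`).  Then by the intermediate value theorem the
continuous function `(f c)^[n] x - x` vanishes somewhere on `[a',b']` (there are `u, v` in `[a',b']` with
`(f c)^[n] u = a' ≤ u` and `(f c)^[n] v = b' ≥ v`).
(2) The orbit `{(f c)^[j] x : j < n}` of such an `x` is finite, contained in `H`, mapped into itself, and
disjoint from `P c`: `P c` is forward invariant, so if `(f c)^[j] x ∈ P c` then
`x = (f c)^[n*j - j + j] x = (f c)^[n*j - j] ((f c)^[j] x) ∈ P c`.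
(3) Let `O` be the union of such orbits, one for each pair `a < b` in the finite set `Q`.
`maps` is clear; `inj`: every `x ∈ O` satisfies `(f c)^[m] x = x` for a common `m ≥ 1` (product of the
periods), so `f c x = f c y` implies `x = (f c)^[m-1] (f c x) = (f c)^[m-1] (f c y) = y`;
`lo`, `hi`: points of `O` lie in `H` and are different from `c` and `c^2+c`, which are in `P c`
(`c = f c 0`, `c^2+c = f c (f c 0)`); `ne0`: if `0 ∈ O` then `f c 0 = c ∈ O ∩ P c`, impossible.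
-/

namespace Pool.Agent.Helper79_Real.D1


theorem f_cont (c : ℝ) : Continuous (f c) := by
  unfold f
  fun_prop

theorem c_mem_P (c : ℝ) : c ∈ P c := ⟨0, by simp [f]⟩

theorem c2_mem_P (c : ℝ) : c ^ 2 + c ∈ P c := ⟨1, by simp [f]⟩

theorem P_iter (c : ℝ) {x : ℝ} (hx : x ∈ P c) (k : ℕ) : (f c)^[k] x ∈ P c := by
  obtain ⟨n, rfl⟩ := hx
  refine ⟨k + n, ?_⟩
  rw [← Function.iterate_add_apply]
  congr 1

theorem exists_per (c : ℝ) (hfin : (P c).Finite)
    (hex : ∀ a b : ℝ, c ≤ a → a < b → b ≤ c ^ 2 + c →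
      ∃ n : ℕ, (f c)^[n] '' Set.Icc a b = Set.Icc c (c ^ 2 + c))
    (a b : ℝ) (ha : c ≤ a) (hab : a < b) (hb : b ≤ c ^ 2 + c) :
    ∃ x : ℝ, ∃ n : ℕ, 0 < n ∧ (f c)^[n] x = x ∧ a < x ∧ x < b ∧ x ∉ P c := by
  have hopen : IsOpen (Set.Ioo a b \ P c) := isOpen_Ioo.sdiff hfin.isClosed
  have hne : (Set.Ioo a b \ P c).Nonempty := ((Set.Ioo_infinite hab).sdiff hfin).nonempty
  obtain ⟨y, hy⟩ := hne
  obtain ⟨ε, hε, hball⟩ := Metric.isOpen_iff.1 hopen y hy
  have hI : ∀ z ∈ Set.Icc (y - ε / 2) (y + ε / 2), z ∈ Set.Ioo a b \ P c := by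
    intro z hz
    apply hball
    rw [Metric.mem_ball, Real.dist_eq, abs_lt]
    constructor <;> linarith [hz.1, hz.2]
  have ha' := (hI (y - ε / 2) ⟨le_refl _, by linarith⟩).1
  have hb' := (hI (y + ε / 2) ⟨by linarith, le_refl _⟩).1
  obtain ⟨n, hn⟩ := hex (y - ε / 2) (y + ε / 2) (by linarith [ha'.1]) (by linarith)
    (by linarith [hb'.2])
  have hn0 : 0 < n := by
    rcases Nat.eq_zero_or_pos n with h0 | h0
    · exfalso
      subst h0
      rw [Function.iterate_zero, Set.image_id] at hn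
      have h1 : c ∈ Set.Icc (y - ε / 2) (y + ε / 2) := by
        rw [hn]
        exact ⟨le_refl _, by linarith⟩
      linarith [h1.1, ha'.1]
    · exact h0
  have hu : y - ε / 2 ∈ (f c)^[n] '' Set.Icc (y - ε / 2) (y + ε / 2) := by
    rw [hn]
    constructor <;> linarith [ha'.1, ha'.2]
  have hv : y + ε / 2 ∈ (f c)^[n] '' Set.Icc (y - ε / 2) (y + ε / 2) := by
    rw [hn]
    constructor <;> linarith [hb'.1, hb'.2]
  obtain ⟨u, hu, hfu⟩ := hu
  obtain ⟨v, hv, hfv⟩ := hv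
  have hcont : Continuous (fun x : ℝ => (f c)^[n] x - x) :=
    ((f_cont c).iterate n).sub continuous_id
  have hivt := intermediate_value_uIcc (a := u) (b := v)
    (f := fun x : ℝ => (f c)^[n] x - x) hcont.continuousOn
  have h0 : (0 : ℝ) ∈ Set.uIcc ((fun x : ℝ => (f c)^[n] x - x) u)
      ((fun x : ℝ => (f c)^[n] x - x) v) := by
    simp only [hfu, hfv]
    rw [Set.mem_uIcc]
    left
    constructor <;> linarith [hu.1, hv.2]
  obtain ⟨x, hx, hx0⟩ := hivt h0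
  have hxI : x ∈ Set.Icc (y - ε / 2) (y + ε / 2) := Set.uIcc_subset_Icc hu hv hx
  have hxx := hI x hxI
  exact ⟨x, n, hn0, by linarith [show (f c)^[n] x - x = 0 from hx0], hxx.1.1, hxx.1.2, hxx.2⟩

theorem H_iter (c : ℝ)
    (hmap : ∀ x, c ≤ x → x ≤ c ^ 2 + c → c ≤ f c x ∧ f c x ≤ c ^ 2 + c) {x : ℝ}
    (h1 : c ≤ x) (h2 : x ≤ c ^ 2 + c) (k : ℕ) : c ≤ (f c)^[k] x ∧ (f c)^[k] x ≤ c ^ 2 + c := by
  induction k with
  | zero => exact ⟨h1, h2⟩
  | succ k ih =>
    rw [Function.iterate_succ_apply']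
    exact hmap _ ih.1 ih.2

/-- TARGET -/
theorem exists_orb (c : ℝ) (hfin : (P c).Finite)
    (hmap : ∀ x, c ≤ x → x ≤ c ^ 2 + c → c ≤ f c x ∧ f c x ≤ c ^ 2 + c)
    (hex : ∀ a b : ℝ, c ≤ a → a < b → b ≤ c ^ 2 + c →
      ∃ n : ℕ, (f c)^[n] '' Set.Icc a b = Set.Icc c (c ^ 2 + c))
    (Q : Finset ℝ) (hQ : ∀ q ∈ Q, c ≤ q ∧ q ≤ c ^ 2 + c) :
    ∃ O : Finset ℝ, Orb c O ∧ (∀ q ∈ P c, q ∉ O) ∧
      ∀ a ∈ Q, ∀ b ∈ Q, a < b → ∃ x ∈ O, a < x ∧ x < b := by
  classical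
  have hpt : ∀ p : ℝ × ℝ, ∃ x : ℝ, ∃ n : ℕ, p ∈ (Q ×ˢ Q).filter (fun p => p.1 < p.2) →
      0 < n ∧ (f c)^[n] x = x ∧ p.1 < x ∧ x < p.2 ∧ x ∉ P c := by
    intro p
    by_cases hp : p ∈ (Q ×ˢ Q).filter (fun p => p.1 < p.2)
    · have hp' := hp
      rw [Finset.mem_filter, Finset.mem_product] at hp'
      obtain ⟨x, n, h⟩ := exists_per c hfin hex p.1 p.2 (hQ _ hp'.1.1).1 hp'.2 (hQ _ hp'.1.2).2
      exact ⟨x, n, fun _ => h⟩
    · exact ⟨0, 0, fun h => absurd h hp⟩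
  choose X n hX using hpt
  set R : Finset (ℝ × ℝ) := (Q ×ˢ Q).filter (fun p => p.1 < p.2) with hR
  set N : ℕ := ∏ p ∈ R, n p with hN
  have hN0 : 0 < N := Finset.prod_pos (fun p hp => (hX p hp).1)
  have hXN : ∀ p ∈ R, (f c)^[N] (X p) = X p := by
    intro p hp
    obtain ⟨k, hk⟩ := Finset.dvd_prod_of_mem n hp
    have h1 : Function.IsPeriodicPt (f c) (n p) (X p) := (hX p hp).2.1
    have h2 := h1.mul_const k
    rw [← hk] at h2
    exact h2
  set O : Finset ℝ := R.biUnion (fun p => (Finset.range N).image (fun j => (f c)^[j] (X p)))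
    with hO
  have hmem : ∀ y, y ∈ O ↔ ∃ p ∈ R, ∃ j < N, (f c)^[j] (X p) = y := by
    intro y
    simp only [hO, Finset.mem_biUnion, Finset.mem_image, Finset.mem_range]
  have hper : ∀ y ∈ O, (f c)^[N] y = y := by
    intro y hy
    obtain ⟨p, hp, j, hj, rfl⟩ := (hmem y).1 hy
    rw [← Function.iterate_add_apply, add_comm, Function.iterate_add_apply, hXN p hp]
  have hmaps : ∀ y ∈ O, f c y ∈ O := by
    intro y hy
    obtain ⟨p, hp, j, hj, rfl⟩ := (hmem y).1 hy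
    rw [hmem]
    rcases Nat.lt_or_ge (j + 1) N with h | h
    · exact ⟨p, hp, j + 1, h, Function.iterate_succ_apply' _ _ _⟩
    · refine ⟨p, hp, 0, hN0, ?_⟩
      have h1 : j + 1 = N := by omega
      rw [← Function.iterate_succ_apply' (f c) j (X p), Nat.succ_eq_add_one, h1, hXN p hp]
      rfl
  have hXH : ∀ p ∈ R, c ≤ X p ∧ X p ≤ c ^ 2 + c := by
    intro p hp
    have h1 := hX p hp
    have hp' := hp
    rw [hR, Finset.mem_filter, Finset.mem_product] at hp'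
    have h2 := hQ _ hp'.1.1
    have h3 := hQ _ hp'.1.2
    constructor <;> linarith [h1.2.2.1, h1.2.2.2.1]
  have hH : ∀ y ∈ O, c ≤ y ∧ y ≤ c ^ 2 + c := by
    intro y hy
    obtain ⟨p, hp, j, hj, rfl⟩ := (hmem y).1 hy
    exact H_iter c hmap (hXH p hp).1 (hXH p hp).2 j
  have hOP : ∀ y ∈ O, y ∉ P c := by
    intro y hy hyP
    obtain ⟨p, hp, j, hj, rfl⟩ := (hmem y).1 hy
    have h1 := P_iter c hyP (N - j)
    rw [← Function.iterate_add_apply, Nat.sub_add_cancel hj.le, hXN p hp] at h1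
    exact (hX p hp).2.2.2.2 h1
  refine ⟨O, ⟨hmaps, ?_, ?_, ?_, ?_⟩, fun q hq hqO => hOP q hqO hq, ?_⟩
  · intro x hx y hy hxy
    obtain ⟨m, hm⟩ : ∃ m, N = m + 1 := ⟨N - 1, by omega⟩
    rw [← hper x hx, ← hper y hy, hm, Function.iterate_succ_apply, Function.iterate_succ_apply,
      hxy]
  · intro x hx
    refine lt_of_le_of_ne (hH x hx).1 ?_
    rintro rfl
    exact hOP _ hx (c_mem_P _)
  · intro x hx
    refine lt_of_le_of_ne (hH x hx).2 ?_
    intro h
    exact hOP _ hx (h ▸ c2_mem_P c)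
  · intro h0
    have h1 := hmaps 0 h0
    have h2 : f c 0 = c := by simp [f]
    rw [h2] at h1
    exact hOP _ h1 (c_mem_P c)
  · intro a ha b hb hab
    have hp : (a, b) ∈ R := by
      rw [hR, Finset.mem_filter, Finset.mem_product]
      exact ⟨⟨ha, hb⟩, hab⟩
    refine ⟨X (a, b), (hmem _).2 ⟨(a, b), hp, 0, hN0, rfl⟩, (hX _ hp).2.2.1, (hX _ hp).2.2.2.1⟩

end Pool.Agent.Helper79_Real.D1
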