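import Mathlib

/-!
Definitions used by the statement: the kneading-automaton group of a real quadratic polynomial
whose critical point has a finite orbit, and intermediate growth.
-/

namespace Pool.Agent.Helper79_Real

open Filter

/-- The real quadratic polynomial `f_c(x) = x^2 + c`. -/
def f (c x : ℝ) : ℝ := x ^ 2 + c

/-- The post-critical set `{f_c^n(0) : n ≥ 1}`. -/
def P (c : ℝ) : Set ℝ := {x | ∃ n : ℕ, x = (f c)^[n + 1] 0}

/-- The preimage of `q` under `f_c` of sign given by `b` (`true` is the negative side). -/
noncomputable def pre (c : ℝ) (b : Bool) (q : ℝ) : ℝ := if b then -√(q - c) else √(q - c)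

open Classical in
/-- The action of the generator attached to the post-critical point `q` on the vertices of the
binary rooted tree (finite words over `Bool`): the generator of the critical value `c` exchanges
the two subtrees of the root; the generator of any other `q` fixes the first level and acts on the
subtree `b` by the generator of the preimage of `q` on the side `b` when that preimage is
post-critical, and trivially when it is not. -/
noncomputable def act (c : ℝ) : ℝ → List Bool → List Bool
  | _, [] => []
  | q, b :: l =>
    if q = c then (!b) :: l
    else if pre c b q ∈ P c then b :: act c (pre c b q) l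
    else b :: l

theorem act_act (c q : ℝ) (l : List Bool) : act c q (act c q l) = l := by
  induction l generalizing q with
  | nil => rfl
  | cons b l ih =>
    by_cases h : q = c
    · simp [act, h]
    · by_cases h2 : pre c b q ∈ P c
      · simp [act, h, h2, ih]
      · simp [act, h, h2]

/-- The generator attached to `q`, as a permutation of the vertices of the binary tree. -/
noncomputable def gen (c q : ℝ) : Equiv.Perm (List Bool) :=
  ⟨act c q, act c q, act_act c q, act_act c q⟩

/-- The kneading-automaton group of `f_c`: the group of permutations of the vertices of the binary
rooted tree generated by the `gen c q`, `q` post-critical. -/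
noncomputable def K (c : ℝ) : Subgroup (Equiv.Perm (List Bool)) :=
  Subgroup.closure (gen c '' P c)

/-- The ball of radius `n` for the generating set `S` (and inverses). -/
def ball {G : Type*} [Group G] (S : Finset G) (n : ℕ) : Set G :=
  {g | ∃ l : List G, l.length ≤ n ∧ (∀ x ∈ l, x ∈ S ∨ x⁻¹ ∈ S) ∧ l.prod = g}

/-- `G` has intermediate growth: it is finitely generated and, for every finite generating set,
the cardinality of balls grows faster than every polynomial and slower than every exponential. -/
def IntermediateGrowth (G : Type*) [Group G] : Prop :=
  (∃ S : Finset G, Subgroup.closure (S : Set G) = ⊤) ∧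
    ∀ S : Finset G, Subgroup.closure (S : Set G) = ⊤ →
      (∀ d : ℕ, ∀ᶠ n : ℕ in atTop, n ^ d < (ball S n).ncard) ∧
      (∀ ε : ℝ, 0 < ε → ∀ᶠ n : ℕ in atTop, ((ball S n).ncard : ℝ) < Real.exp (ε * n))

end Pool.Agent.Helper79_Real
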