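import Pool.Agent.Helper79_Real.Path

namespace Pool.Agent.Helper79_Real

variable {c : ℝ}

/-- standing dynamical hypotheses: finite post-critical set, critical point not periodic, the core
interval `[c, c^2+c]` is covered by an iterate of each of its nondegenerate subintervals -/
structure Hyp (c : ℝ) : Prop where
  fin : (P c).Finite
  nz : (0:ℝ) ∉ P c
  gt : -2 < c
  ex : ∀ a b : ℝ, c ≤ a → a < b → b ≤ c ^ 2 + c →
      ∃ n : ℕ, (f c)^[n] '' Set.Icc a b = Set.Icc c (c ^ 2 + c)

theorem P_f {q : ℝ} (hq : q ∈ P c) : f c q ∈ P c := by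
  obtain ⟨n, rfl⟩ := hq
  exact ⟨n + 1, by rw [← Function.iterate_succ_apply' (f c)]⟩

theorem c_mem : c ∈ P c := ⟨0, by simp [f]⟩

theorem f_c : f c c = c ^ 2 + c := by simp [f]

theorem c2_mem : c ^ 2 + c ∈ P c := by
  have := P_f (c_mem (c := c)); rwa [f_c] at this

theorem P_pre {q : ℝ} (hq : q ∈ P c) (hqc : q ≠ c) :
    pre c true q ∈ P c ∨ pre c false q ∈ P c := by
  obtain ⟨n, rfl⟩ := hq
  cases n with
  | zero => exact absurd (by simp [f]) hqc
  | succ n =>
    have hp : (f c)^[n + 1] 0 ∈ P c := ⟨n, rfl⟩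
    set p := (f c)^[n + 1] 0 with hpdef
    have hq : (f c)^[n + 1 + 1] 0 = p ^ 2 + c := by
      rw [Function.iterate_succ_apply', ← hpdef]; rfl
    rw [hq]
    rcases le_or_gt 0 p with h | h
    · right
      have : pre c false (p ^ 2 + c) = p := by
        simp only [pre, Bool.false_eq_true, if_false, add_sub_cancel_right]
        exact Real.sqrt_sq h
      rw [this]; exact hp
    · left
      have : pre c true (p ^ 2 + c) = p := by
        simp only [pre, if_true, add_sub_cancel_right]
        rw [Real.sqrt_sq_eq_abs, abs_of_neg h]; ring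
      rw [this]; exact hp

namespace Hyp

theorem ne_c (h : Hyp c) {q : ℝ} (hq : q ∈ P c) : f c q ≠ c := by
  intro he
  have : q = 0 := by
    unfold f at he; have : q ^ 2 = 0 := by linarith
    exact pow_eq_zero_iff (two_ne_zero) |>.1 this
  exact h.nz (this ▸ hq)

theorem neg (h : Hyp c) : c < 0 := by
  by_contra hc
  rw [not_lt] at hc
  rcases hc.eq_or_lt with hc | hc
  · apply h.nz; exact ⟨0, by simp [f, ← hc]⟩
  · have hmono : StrictMono (fun n : ℕ => (f c)^[n] 0) := by
      have h0 : ∀ n : ℕ, 0 ≤ (f c)^[n] 0 ∧ (f c)^[n] 0 < (f c)^[n + 1] 0 := by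
        intro n
        induction n with
        | zero => simp [f, hc]
        | succ n ih =>
          obtain ⟨h1, h2⟩ := ih
          refine ⟨by linarith, ?_⟩
          rw [Function.iterate_succ_apply' (f c) (n + 1), Function.iterate_succ_apply' (f c) n]
          rw [Function.iterate_succ_apply' (f c) n] at h2
          have key : ∀ x : ℝ, 0 ≤ x → x < f c x → f c x < f c (f c x) := by
            intro x hx hxf
            have : x ^ 2 < (f c x) ^ 2 := by nlinarith
            have e1 : f c x = x ^ 2 + c := rfl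
            have e2 : f c (f c x) = (f c x) ^ 2 + c := rfl
            rw [e2]; nlinarith
          exact key _ h1 h2
      exact strictMono_nat_of_lt_succ (fun n => (h0 n).2)
    have hinj : Function.Injective (fun n : ℕ => (f c)^[n + 1] 0) := by
      intro a b hab
      have := hmono.injective hab
      omega
    have : (Set.range (fun n : ℕ => (f c)^[n + 1] 0)).Infinite :=
      Set.infinite_range_of_injective hinj
    apply this
    apply h.fin.subset
    rintro _ ⟨n, rfl⟩; exact ⟨n, rfl⟩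

theorem maps (h : Hyp c) {x : ℝ} (h1 : c ≤ x) (h2 : x ≤ c ^ 2 + c) :
    c ≤ f c x ∧ f c x ≤ c ^ 2 + c := by
  have := h.neg
  have := h.gt
  unfold f
  refine ⟨by nlinarith, ?_⟩
  have h3 : x ≤ -c := by nlinarith
  nlinarith

theorem Pbd (h : Hyp c) {q : ℝ} (hq : q ∈ P c) : c ≤ q ∧ q ≤ c ^ 2 + c := by
  obtain ⟨n, rfl⟩ := hq
  induction n with
  | zero =>
    have := h.neg
    simp only [zero_add, Function.iterate_one, f]
    refine ⟨by nlinarith, by nlinarith⟩
  | succ n ih =>
    rw [Function.iterate_succ_apply']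
    exact h.maps ih.1 ih.2

theorem c2pos (h : Hyp c) : 0 < c ^ 2 + c := by
  by_contra hc
  rw [not_lt] at hc
  have hneg := h.neg
  -- f is injective on the core interval
  have hinj : ∀ x y : ℝ, x ≤ c ^ 2 + c → y ≤ c ^ 2 + c → f c x = f c y → x = y := by
    intro x y hx hy hxy
    unfold f at hxy
    nlinarith [sq_nonneg (x - y), sq_nonneg (x + y)]
  obtain ⟨n, hn⟩ := h.ex c (c / 2 + (c ^ 2 + c) / 2) le_rfl (by nlinarith) (by nlinarith)
  have hinjn : ∀ n : ℕ, ∀ x y : ℝ, c ≤ x → x ≤ c ^ 2 + c → c ≤ y → y ≤ c ^ 2 + c →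
      (f c)^[n] x = (f c)^[n] y → x = y := by
    intro n
    induction n with
    | zero => intro x y _ _ _ _ h; simpa using h
    | succ n ih =>
      intro x y h1 h2 h3 h4 h5
      rw [Function.iterate_succ_apply, Function.iterate_succ_apply] at h5
      have m1 := h.maps h1 h2
      have m2 := h.maps h3 h4
      exact hinj x y h2 h4 (ih _ _ m1.1 m1.2 m2.1 m2.2 h5)
  have hmem : (f c)^[n] (c ^ 2 + c) ∈ Set.Icc c (c ^ 2 + c) := by
    have : ∀ n : ℕ, (f c)^[n] (c ^ 2 + c) ∈ Set.Icc c (c ^ 2 + c) := by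
      intro n
      induction n with
      | zero => simp; nlinarith
      | succ n ih =>
        rw [Function.iterate_succ_apply']
        exact h.maps ih.1 ih.2
    exact this n
  rw [← hn] at hmem
  obtain ⟨z, hz, hz2⟩ := hmem
  have hzz := hinjn n z (c ^ 2 + c) hz.1 (by have := hz.2; nlinarith) (by nlinarith) le_rfl hz2
  have := hz.2
  rw [hzz] at this
  nlinarith

theorem lt_neg_one (h : Hyp c) : c < -1 := by
  have h1 := h.neg
  have h2 := h.c2pos
  nlinarith

/-- the third post-critical point -/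
theorem c3_mem : f c (c ^ 2 + c) ∈ P c := P_f c2_mem

theorem lt_c2 (h : Hyp c) : c < c ^ 2 + c := by have := h.neg; have := h.c2pos; linarith

theorem c2_lt (h : Hyp c) : c ^ 2 + c < -c := by have := h.neg; have := h.gt; nlinarith

/-- an image of a post-critical point different from `c` is neither `c` nor `c^2+c` -/
theorem f_ne_c2 (h : Hyp c) {q : ℝ} (hq : q ∈ P c) (hqc : q ≠ c) : f c q ≠ c ^ 2 + c := by
  intro he
  unfold f at he
  have : (q - c) * (q + c) = 0 := by ring_nf; linarith
  rcases mul_eq_zero.1 this with h1 | h1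
  · exact hqc (by linarith)
  · have := (h.Pbd hq).2
    have := h.c2_lt
    linarith

theorem f_lt_c2 (h : Hyp c) {q : ℝ} (hq : q ∈ P c) (hqc : q ≠ c) : f c q < c ^ 2 + c :=
  lt_of_le_of_ne (h.Pbd (P_f hq)).2 (h.f_ne_c2 hq hqc)

theorem c_lt_f (h : Hyp c) {q : ℝ} (hq : q ∈ P c) : c < f c q :=
  lt_of_le_of_ne (h.Pbd (P_f hq)).1 (Ne.symm (h.ne_c hq))

theorem ctx (h : Hyp c) {O : Finset ℝ} (ho : Orb c O) (hPO : ∀ q ∈ P c, q ∉ O) : Ctx c O :=
  ⟨h.neg, h.c2pos, ho, hPO, fun _ hq => (h.Pbd hq).1, fun _ hq => (h.Pbd hq).2⟩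

end Hyp

end Pool.Agent.Helper79_Real
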