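import Pool.Agent.Helper79_Real.Count

namespace Pool.Agent.Helper79_Real.G1

open Finset

theorem S_bound (N : ℕ → ℕ) (a D : ℝ) (ha : 0 ≤ a) (hD : 0 ≤ D)
    (h : ∀ n : ℕ, (N n : ℝ) ≤ D * Real.exp (a * n)) :
    ∀ q m : ℕ, (S N q m : ℝ) ≤ D ^ q * ((m : ℝ) + 1) ^ q * Real.exp (a * m) := by
  intro q
  induction q with
  | zero =>
    intro m
    simp only [S, Nat.cast_one, pow_zero, one_mul]
    exact Real.one_le_exp (by positivity)
  | succ q ih =>
    intro m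
    simp only [S, Nat.cast_sum, Nat.cast_mul]
    have hterm : ∀ b ∈ range (m + 1), (N b : ℝ) * (S N q (m - b) : ℝ)
        ≤ D ^ (q + 1) * ((m : ℝ) + 1) ^ q * Real.exp (a * m) := by
      intro b hb
      have hb' : b ≤ m := Nat.lt_succ_iff.mp (mem_range.mp hb)
      have h1 := h b
      have h2 := ih (m - b)
      have hcast : ((m - b : ℕ) : ℝ) = (m : ℝ) - b := by
        rw [Nat.cast_sub hb']
      have h3 : ((m - b : ℕ) : ℝ) + 1 ≤ (m : ℝ) + 1 := by
        rw [hcast]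
        have : (0 : ℝ) ≤ b := Nat.cast_nonneg b
        linarith
      have h4 : (((m - b : ℕ) : ℝ) + 1) ^ q ≤ ((m : ℝ) + 1) ^ q :=
        pow_le_pow_left₀ (by positivity) h3 q
      calc (N b : ℝ) * (S N q (m - b) : ℝ)
          ≤ (D * Real.exp (a * b)) * (D ^ q * (((m - b : ℕ) : ℝ) + 1) ^ q
              * Real.exp (a * ((m - b : ℕ) : ℝ))) := by
            apply mul_le_mul h1 h2 (Nat.cast_nonneg _) (by positivity)
        _ ≤ (D * Real.exp (a * b)) * (D ^ q * ((m : ℝ) + 1) ^ q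
              * Real.exp (a * ((m - b : ℕ) : ℝ))) := by
            gcongr
        _ = D ^ (q + 1) * ((m : ℝ) + 1) ^ q
              * (Real.exp (a * b) * Real.exp (a * ((m - b : ℕ) : ℝ))) := by ring
        _ = D ^ (q + 1) * ((m : ℝ) + 1) ^ q * Real.exp (a * m) := by
            rw [← Real.exp_add, hcast]
            congr 2
            ring
    calc ∑ b ∈ range (m + 1), (N b : ℝ) * (S N q (m - b) : ℝ)
        ≤ ∑ b ∈ range (m + 1), D ^ (q + 1) * ((m : ℝ) + 1) ^ q * Real.exp (a * m) :=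
          Finset.sum_le_sum hterm
      _ = D ^ (q + 1) * ((m : ℝ) + 1) ^ (q + 1) * Real.exp (a * m) := by
          rw [Finset.sum_const, card_range, nsmul_eq_mul]
          push_cast
          ring

theorem lin_bound (c η : ℝ) (hc : 0 ≤ c) (hη : 0 < η) :
    ∃ P : ℝ, 0 < P ∧ ∀ n : ℕ, (n : ℝ) + c ≤ P * Real.exp (η * n) := by
  refine ⟨1 / η + c, by positivity, fun n => ?_⟩
  have h1 : η * n + 1 ≤ Real.exp (η * n) := Real.add_one_le_exp _
  have h2 : (1 : ℝ) ≤ Real.exp (η * n) := Real.one_le_exp (by positivity)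
  have h3 : (n : ℝ) ≤ 1 / η * Real.exp (η * n) := by
    rw [one_div, ← div_eq_inv_mul, le_div_iff₀ hη]
    linarith [mul_comm (n : ℝ) η]
  nlinarith

theorem pow_bound (c η : ℝ) (hc : 0 ≤ c) (hη : 0 < η) (q : ℕ) :
    ∃ P : ℝ, 0 < P ∧ ∀ n : ℕ, ((n : ℝ) + c) ^ q ≤ P * Real.exp (η * n) := by
  obtain ⟨P, hP, h⟩ := lin_bound c (η / (q + 1)) hc (by positivity)
  refine ⟨P ^ q, by positivity, fun n => ?_⟩
  calc ((n : ℝ) + c) ^ q ≤ (P * Real.exp (η / (q + 1) * n)) ^ q :=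
        pow_le_pow_left₀ (by positivity) (h n) q
    _ = P ^ q * Real.exp (q * (η / (q + 1) * n)) := by
        rw [mul_pow, Real.exp_nat_mul]
    _ ≤ P ^ q * Real.exp (η * n) := by
        apply mul_le_mul_of_nonneg_left _ (by positivity)
        apply Real.exp_le_exp.mpr
        have : (q : ℝ) * (η / (q + 1) * n) = (q / (q + 1)) * (η * n) := by
          field_simp
        rw [this]
        have h1 : (q : ℝ) / (q + 1) ≤ 1 := by
          rw [div_le_one (by positivity)]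
          linarith
        have h2 : 0 ≤ η * (n : ℝ) := by positivity
        nlinarith

theorem choose_bound (x : ℝ) (hx : 0 < x) (M k : ℕ) :
    (Nat.choose M k : ℝ) * x ^ k ≤ Real.exp (x * M) := by
  have h1 : (Nat.choose M k : ℝ) * x ^ k ≤ (x + 1) ^ M := by
    rw [add_pow]
    by_cases hk : k ≤ M
    · have := Finset.single_le_sum (f := fun m => x ^ m * 1 ^ (M - m) * (M.choose m : ℝ))
        (s := range (M + 1)) (fun i _ => by positivity) (mem_range.mpr (Nat.lt_succ_of_le hk))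
      simp only [one_pow, mul_one] at this ⊢
      linarith [mul_comm (x ^ k) (M.choose k : ℝ)]
    · rw [Nat.choose_eq_zero_of_lt (not_le.mp hk)]
      simp only [Nat.cast_zero, zero_mul]
      exact Finset.sum_nonneg fun i _ => by positivity
  calc (Nat.choose M k : ℝ) * x ^ k ≤ (x + 1) ^ M := h1
    _ ≤ (Real.exp x) ^ M := pow_le_pow_left₀ (by positivity) (Real.add_one_le_exp x) M
    _ = Real.exp (x * M) := by
        rw [← Real.exp_nat_mul]
        congr 1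
        ring

theorem second_term (E K : ℕ) (η : ℝ) (hη : 0 < η) :
    ∃ δ : ℝ, 0 < δ ∧ δ < 1 ∧ ∃ D : ℝ, 0 < D ∧ ∀ n ℓ : ℕ, ℓ ≤ n → (ℓ : ℝ) ≤ δ * n →
      (((ℓ + 1) * K ^ (ℓ + 1) * Nat.choose (n + ℓ + E) (ℓ + 1) : ℕ) : ℝ)
        ≤ D * Real.exp (η * n) := by
  set x : ℝ := min 1 (η / 8) with hxdef
  have hx0 : 0 < x := lt_min one_pos (by positivity)
  have hx1 : x ≤ 1 := min_le_left _ _
  have hx2 : x ≤ η / 8 := min_le_right _ _
  set L : ℝ := Real.log (((K : ℝ) + 1) / x) with hLdef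
  have hKx : 1 ≤ ((K : ℝ) + 1) / x := by
    rw [one_le_div hx0]
    have : (0 : ℝ) ≤ K := Nat.cast_nonneg K
    linarith
  have hL : 0 ≤ L := Real.log_nonneg hKx
  have hexpL : Real.exp L = ((K : ℝ) + 1) / x := Real.exp_log (by positivity)
  obtain ⟨P, hP, hlin⟩ := lin_bound 1 (η / 4) zero_le_one (by positivity)
  refine ⟨min (1 / 2) (η / (4 * (L + 1))), lt_min (by norm_num) (by positivity),
    lt_of_le_of_lt (min_le_left _ _) (by norm_num),
    P * Real.exp L * Real.exp (x * E), by positivity, ?_⟩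
  intro n ℓ hℓ hℓδ
  have hδL : min (1 / 2) (η / (4 * (L + 1))) * L ≤ η / 4 := by
    have h1 : min (1 / 2) (η / (4 * (L + 1))) ≤ η / (4 * (L + 1)) := min_le_right _ _
    have h2 : min (1 / 2) (η / (4 * (L + 1))) * L ≤ η / (4 * (L + 1)) * L :=
      mul_le_mul_of_nonneg_right h1 hL
    have h3 : η / (4 * (L + 1)) * L ≤ η / 4 := by
      rw [div_mul_eq_mul_div, div_le_div_iff₀ (by positivity) (by positivity)]
      nlinarith
    linarith
  have hch := choose_bound x hx0 (n + ℓ + E) (ℓ + 1)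
  have hxk : 0 < x ^ (ℓ + 1) := by positivity
  have hch' : (Nat.choose (n + ℓ + E) (ℓ + 1) : ℝ)
      ≤ Real.exp (x * ((n + ℓ + E : ℕ) : ℝ)) / x ^ (ℓ + 1) := by
    rw [le_div_iff₀ hxk]
    exact hch
  have hnl : (n : ℝ) * 1 ≥ ℓ := by
    rw [mul_one]
    exact_mod_cast hℓ
  have hn0 : (0 : ℝ) ≤ n := Nat.cast_nonneg n
  have hℓ0 : (0 : ℝ) ≤ ℓ := Nat.cast_nonneg ℓ
  have hE0 : (0 : ℝ) ≤ E := Nat.cast_nonneg E
  have hexp1 : Real.exp (x * ((n + ℓ + E : ℕ) : ℝ)) ≤ Real.exp (η / 4 * n) * Real.exp (x * E) := by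
    rw [← Real.exp_add]
    apply Real.exp_le_exp.mpr
    push_cast
    have : x * ((n : ℝ) + ℓ) ≤ η / 8 * (2 * n) := by
      apply mul_le_mul hx2 (by linarith) (by positivity) (by positivity)
    nlinarith
  have hpow : ((K : ℝ)) ^ (ℓ + 1) / x ^ (ℓ + 1) ≤ Real.exp L * Real.exp (η / 4 * n) := by
    rw [← div_pow]
    calc ((K : ℝ) / x) ^ (ℓ + 1) ≤ (((K : ℝ) + 1) / x) ^ (ℓ + 1) := by
          apply pow_le_pow_left₀ (by positivity)
          gcongr
          linarith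
      _ = Real.exp (((ℓ + 1 : ℕ) : ℝ) * L) := by
          rw [Real.exp_nat_mul, hexpL]
      _ ≤ Real.exp (L + η / 4 * n) := by
          apply Real.exp_le_exp.mpr
          push_cast
          have h1 : (ℓ : ℝ) * L ≤ min (1 / 2) (η / (4 * (L + 1))) * n * L :=
            mul_le_mul_of_nonneg_right hℓδ hL
          have h2 : min (1 / 2) (η / (4 * (L + 1))) * n * L
              = (min (1 / 2) (η / (4 * (L + 1))) * L) * n := by ring
          have h3 : (min (1 / 2) (η / (4 * (L + 1))) * L) * n ≤ η / 4 * n :=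
            mul_le_mul_of_nonneg_right hδL hn0
          nlinarith
      _ = Real.exp L * Real.exp (η / 4 * n) := Real.exp_add _ _
  have hl1 : ((ℓ : ℝ) + 1) ≤ P * Real.exp (η / 4 * n) := by
    have := hlin n
    linarith
  push_cast
  calc ((ℓ : ℝ) + 1) * (K : ℝ) ^ (ℓ + 1) * (Nat.choose (n + ℓ + E) (ℓ + 1) : ℝ)
      ≤ ((ℓ : ℝ) + 1) * (K : ℝ) ^ (ℓ + 1)
          * (Real.exp (x * ((n + ℓ + E : ℕ) : ℝ)) / x ^ (ℓ + 1)) := by
        apply mul_le_mul_of_nonneg_left hch' (by positivity)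
    _ = ((ℓ : ℝ) + 1) * ((K : ℝ) ^ (ℓ + 1) / x ^ (ℓ + 1))
          * Real.exp (x * ((n + ℓ + E : ℕ) : ℝ)) := by ring
    _ ≤ (P * Real.exp (η / 4 * n)) * (Real.exp L * Real.exp (η / 4 * n))
          * (Real.exp (η / 4 * n) * Real.exp (x * E)) := by
        apply mul_le_mul _ hexp1 (by positivity) (by positivity)
        apply mul_le_mul hl1 hpow (by positivity) (by positivity)
    _ = P * Real.exp L * Real.exp (x * E)
          * (Real.exp (η / 4 * n) * Real.exp (η / 4 * n) * Real.exp (η / 4 * n)) := by ring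
    _ ≤ P * Real.exp L * Real.exp (x * E) * Real.exp (η * n) := by
        apply mul_le_mul_of_nonneg_left _ (by positivity)
        rw [← Real.exp_add, ← Real.exp_add]
        apply Real.exp_le_exp.mpr
        have : 0 ≤ η * (n : ℝ) := by positivity
        linarith

/-- one contraction step -/
theorem step (N : ℕ → ℕ) (B C E K q : ℕ)
    (h : ∀ n ℓ : ℕ, ℓ ≤ n → N n ≤ B * S N q (n - ℓ + C)
      + (ℓ + 1) * K ^ (ℓ + 1) * Nat.choose (n + ℓ + E) (ℓ + 1))
    (ε δ D : ℝ) (hε : 0 < ε) (hδ0 : 0 < δ) (hδ1 : δ < 1) (hD : 0 < D)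
    (h2 : ∀ n ℓ : ℕ, ℓ ≤ n → (ℓ : ℝ) ≤ δ * n →
      (((ℓ + 1) * K ^ (ℓ + 1) * Nat.choose (n + ℓ + E) (ℓ + 1) : ℕ) : ℝ)
        ≤ D * Real.exp (ε * n))
    (a : ℝ) (ha : ε ≤ a) (ham : ∃ C' : ℝ, 0 < C' ∧ ∀ n : ℕ, (N n : ℝ) ≤ C' * Real.exp (a * n)) :
    ∃ C' : ℝ, 0 < C' ∧ ∀ n : ℕ, (N n : ℝ)
      ≤ C' * Real.exp (max (a * (1 - δ / 2)) ε * n) := by
  obtain ⟨F, hF, hN⟩ := ham
  have ha0 : 0 < a := lt_of_lt_of_le hε ha
  obtain ⟨P, hP, hpow⟩ := pow_bound ((C : ℝ) + 1) (a * δ / 2) (by positivity) (by positivity) q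
  refine ⟨B * F ^ q * P * Real.exp (a * (C + 1)) + D, by positivity, fun n => ?_⟩
  set ℓ : ℕ := ⌊δ * n⌋₊ with hℓdef
  have hn0 : (0 : ℝ) ≤ n := Nat.cast_nonneg n
  have hℓδ : (ℓ : ℝ) ≤ δ * n := Nat.floor_le (by positivity)
  have hℓlt : δ * n < (ℓ : ℝ) + 1 := Nat.lt_floor_add_one _
  have hℓn : ℓ ≤ n := by
    have : (ℓ : ℝ) ≤ n := by nlinarith
    exact_mod_cast this
  have h1 := h n ℓ hℓn
  have h1' : (N n : ℝ) ≤ B * (S N q (n - ℓ + C) : ℝ)
      + (((ℓ + 1) * K ^ (ℓ + 1) * Nat.choose (n + ℓ + E) (ℓ + 1) : ℕ) : ℝ) := by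
    exact_mod_cast h1
  have h3 := h2 n ℓ hℓn hℓδ
  have hS := S_bound N a F ha0.le hF.le hN q (n - ℓ + C)
  have hcast : ((n - ℓ + C : ℕ) : ℝ) = (n : ℝ) - ℓ + C := by
    rw [Nat.cast_add, Nat.cast_sub hℓn]
  have hle1 : ((n - ℓ + C : ℕ) : ℝ) ≤ (1 - δ) * n + (C + 1) := by
    rw [hcast]; linarith
  have hle2 : ((n - ℓ + C : ℕ) : ℝ) + 1 ≤ (n : ℝ) + (C + 1) := by
    rw [hcast]
    have : (0 : ℝ) ≤ ℓ := Nat.cast_nonneg ℓ
    linarith
  have hS' : (S N q (n - ℓ + C) : ℝ)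
      ≤ F ^ q * P * Real.exp (a * (C + 1)) * Real.exp (a * (1 - δ / 2) * n) := by
    calc (S N q (n - ℓ + C) : ℝ)
        ≤ F ^ q * (((n - ℓ + C : ℕ) : ℝ) + 1) ^ q * Real.exp (a * ((n - ℓ + C : ℕ) : ℝ)) := hS
      _ ≤ F ^ q * (P * Real.exp (a * δ / 2 * n))
            * Real.exp (a * ((1 - δ) * n + (C + 1))) := by
          apply mul_le_mul _ _ (by positivity) (by positivity)
          · apply mul_le_mul_of_nonneg_left _ (by positivity)
            exact le_trans (pow_le_pow_left₀ (by positivity) hle2 q) (hpow n)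
          · apply Real.exp_le_exp.mpr
            exact mul_le_mul_of_nonneg_left hle1 ha0.le
      _ = F ^ q * P * (Real.exp (a * δ / 2 * n) * Real.exp (a * ((1 - δ) * n + (C + 1)))) := by
          ring
      _ = F ^ q * P * (Real.exp (a * (C + 1)) * Real.exp (a * (1 - δ / 2) * n)) := by
          rw [← Real.exp_add, ← Real.exp_add]
          congr 2
          ring
      _ = F ^ q * P * Real.exp (a * (C + 1)) * Real.exp (a * (1 - δ / 2) * n) := by ring
  have hm1 : Real.exp (a * (1 - δ / 2) * n) ≤ Real.exp (max (a * (1 - δ / 2)) ε * n) := by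
    apply Real.exp_le_exp.mpr
    exact mul_le_mul_of_nonneg_right (le_max_left _ _) hn0
  have hm2 : Real.exp (ε * n) ≤ Real.exp (max (a * (1 - δ / 2)) ε * n) := by
    apply Real.exp_le_exp.mpr
    exact mul_le_mul_of_nonneg_right (le_max_right _ _) hn0
  calc (N n : ℝ) ≤ B * (S N q (n - ℓ + C) : ℝ)
      + (((ℓ + 1) * K ^ (ℓ + 1) * Nat.choose (n + ℓ + E) (ℓ + 1) : ℕ) : ℝ) := h1'
    _ ≤ B * (F ^ q * P * Real.exp (a * (C + 1)) * Real.exp (a * (1 - δ / 2) * n))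
        + D * Real.exp (ε * n) := by
        apply add_le_add _ h3
        exact mul_le_mul_of_nonneg_left hS' (Nat.cast_nonneg _)
    _ ≤ B * (F ^ q * P * Real.exp (a * (C + 1)) * Real.exp (max (a * (1 - δ / 2)) ε * n))
        + D * Real.exp (max (a * (1 - δ / 2)) ε * n) := by
        apply add_le_add
        · apply mul_le_mul_of_nonneg_left _ (Nat.cast_nonneg _)
          exact mul_le_mul_of_nonneg_left hm1 (by positivity)
        · exact mul_le_mul_of_nonneg_left hm2 hD.le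
    _ = (B * F ^ q * P * Real.exp (a * (C + 1)) + D)
        * Real.exp (max (a * (1 - δ / 2)) ε * n) := by ring

/-- TARGET -/
theorem growth_core (N : ℕ → ℕ) (A B C E K q : ℕ) (hA : ∀ n, N n ≤ A ^ (n + 1))
    (h : ∀ n ℓ : ℕ, ℓ ≤ n → N n ≤ B * S N q (n - ℓ + C)
      + (ℓ + 1) * K ^ (ℓ + 1) * Nat.choose (n + ℓ + E) (ℓ + 1)) :
    ∀ ε : ℝ, 0 < ε → ∃ C' : ℝ, 0 < C' ∧ ∀ n : ℕ, (N n : ℝ) ≤ C' * Real.exp (ε * n) := by
  intro ε hε
  obtain ⟨δ, hδ0, hδ1, D, hD, h2⟩ := second_term E K ε hε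
  have hr0 : 0 < 1 - δ / 2 := by linarith
  have hr1 : 1 - δ / 2 < 1 := by linarith
  have key : ∀ k : ℕ, ∃ C' : ℝ, 0 < C' ∧ ∀ n : ℕ, (N n : ℝ)
      ≤ C' * Real.exp (max ((A : ℝ) * (1 - δ / 2) ^ k) ε * n) := by
    intro k
    induction k with
    | zero =>
      refine ⟨Real.exp A, Real.exp_pos _, fun n => ?_⟩
      have hA0 : (0 : ℝ) ≤ A := Nat.cast_nonneg A
      have h1 : (N n : ℝ) ≤ (A : ℝ) ^ (n + 1) := by exact_mod_cast hA n
      have h3 : (A : ℝ) ≤ Real.exp A := by linarith [Real.add_one_le_exp (A : ℝ)]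
      calc (N n : ℝ) ≤ (A : ℝ) ^ (n + 1) := h1
        _ ≤ (Real.exp A) ^ (n + 1) := pow_le_pow_left₀ hA0 h3 _
        _ = Real.exp A * Real.exp (A * n) := by
            rw [pow_succ, ← Real.exp_nat_mul, mul_comm, mul_comm (n : ℝ) (A : ℝ)]
        _ ≤ Real.exp A * Real.exp (max ((A : ℝ) * (1 - δ / 2) ^ 0) ε * n) := by
            apply mul_le_mul_of_nonneg_left _ (Real.exp_pos _).le
            apply Real.exp_le_exp.mpr
            apply mul_le_mul_of_nonneg_right _ (Nat.cast_nonneg n)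
            rw [pow_zero, mul_one]
            exact le_max_left _ _
    | succ k ih =>
      have hs := step N B C E K q h ε δ D hε hδ0 hδ1 hD h2 _ (le_max_right _ _) ih
      have heq : max (max ((A : ℝ) * (1 - δ / 2) ^ k) ε * (1 - δ / 2)) ε
          = max ((A : ℝ) * (1 - δ / 2) ^ (k + 1)) ε := by
        rw [max_mul_of_nonneg _ _ hr0.le, max_assoc, pow_succ, ← mul_assoc]
        congr 1
        apply max_eq_right
        nlinarith
      rw [heq] at hs
      exact hs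
  obtain ⟨k, hk⟩ : ∃ k : ℕ, (A : ℝ) * (1 - δ / 2) ^ k ≤ ε := by
    obtain ⟨k, hk⟩ := exists_pow_lt_of_lt_one (show (0 : ℝ) < ε / (A + 1) by positivity) hr1
    refine ⟨k, ?_⟩
    rw [lt_div_iff₀ (by positivity)] at hk
    have : 0 < (1 - δ / 2) ^ k := by positivity
    nlinarith
  obtain ⟨C', hC', h3⟩ := key k
  rw [max_eq_right hk] at h3
  exact ⟨C', hC', h3⟩

end Pool.Agent.Helper79_Real.G1
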