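import Pool.Agent.Helper79_Real.Defs

/-!
Lemma job G2 (independence of the generating set).

Plain-words proof.  Let `T` be any finite generating set.  Every element of `S0` is a product of
at most `k` elements of `T ∪ T⁻¹` for some `k ≥ 1` (finitely many elements, `T` generates), so
`ball S0 n ⊆ ball T (k * n)`; symmetrically `ball T n ⊆ ball S0 (k' * n)`.  Balls are finite sets
(images of finitely many words) so `ncard` is monotone.
Lower bound: given `d`, for large `m`, `m^(d+1) < (ball S0 m).ncard`; for `n` large take `m = n / k`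
(so `k * m ≤ n` and `m ≥ n/(2k)`): `(ball T n).ncard ≥ (ball S0 m).ncard > m^(d+1) ≥ (n/(2k))^(d+1) ≥ n^d` for
large `n`.
Upper bound: `(ball T n).ncard ≤ (ball S0 (k' n)).ncard < exp ((ε / k') * (k' n)) = exp (ε n)` for `n`
large.
-/

namespace Pool.Agent.Helper79_Real.G2

open Filter


theorem ball_finite {G : Type*} [Group G] (S : Finset G) (n : ℕ) : (ball S n).Finite := by
  classical
  induction n with
  | zero =>
    refine (Set.finite_singleton (1 : G)).subset ?_
    rintro g ⟨l, hl, _, rfl⟩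
    have : l = [] := List.length_eq_zero_iff.1 (Nat.le_zero.1 hl)
    subst this
    simp
  | succ n ih =>
    have hA : ({x : G | x ∈ S ∨ x⁻¹ ∈ S}).Finite := by
      refine (S.finite_toSet.union (S.finite_toSet.image (fun x : G => x⁻¹))).subset ?_
      rintro x (hx | hx)
      · exact Or.inl hx
      · exact Or.inr ⟨x⁻¹, hx, inv_inv x⟩
    refine (ih.union (Set.Finite.image2 (fun x y => x * y) hA ih)).subset ?_
    rintro g ⟨l, hl, hx, rfl⟩
    cases l with
    | nil => exact Or.inl ⟨[], by simp, by simp, rfl⟩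
    | cons x l =>
      refine Or.inr ⟨x, hx x (by simp), l.prod, ⟨l, ?_, fun y hy => hx y (by simp [hy]), rfl⟩, ?_⟩
      · simpa using hl
      · simp

theorem ball_mono {G : Type*} [Group G] (S : Finset G) {m n : ℕ} (h : m ≤ n) :
    ball S m ⊆ ball S n := by
  rintro g ⟨l, hl, hx, rfl⟩
  exact ⟨l, le_trans hl h, hx, rfl⟩

theorem ball_mul {G : Type*} [Group G] (S : Finset G) {m n : ℕ} {g h : G} (hg : g ∈ ball S m)
    (hh : h ∈ ball S n) : g * h ∈ ball S (m + n) := by
  obtain ⟨l, hl, hx, rfl⟩ := hg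
  obtain ⟨l', hl', hx', rfl⟩ := hh
  refine ⟨l ++ l', ?_, ?_, by simp⟩
  · rw [List.length_append]; omega
  · intro x hxl
    rcases List.mem_append.1 hxl with h | h
    · exact hx x h
    · exact hx' x h

theorem ball_inv {G : Type*} [Group G] (S : Finset G) {m : ℕ} {g : G} (hg : g ∈ ball S m) :
    g⁻¹ ∈ ball S m := by
  obtain ⟨l, hl, hx, rfl⟩ := hg
  refine ⟨(l.map (fun x => x⁻¹)).reverse, by simpa using hl, ?_, ?_⟩
  · intro x hxl
    rw [List.mem_reverse, List.mem_map] at hxl
    obtain ⟨y, hy, rfl⟩ := hxl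
    rcases hx y hy with h | h
    · exact Or.inr (by simpa using h)
    · exact Or.inl h
  · rw [List.prod_inv_reverse]

theorem ball_sub {G : Type*} [Group G] (S T : Finset G)
    (hT : Subgroup.closure (T : Set G) = ⊤) :
    ∃ k : ℕ, 1 ≤ k ∧ ∀ n, ball S n ⊆ ball T (k * n) := by
  classical
  have h1 : ∀ x : G, ∃ k : ℕ, x ∈ ball T k := by
    intro x
    have hx : x ∈ Subgroup.closure (T : Set G) := by rw [hT]; trivial
    rw [← Subgroup.mem_toSubmonoid, Subgroup.closure_toSubmonoid] at hx
    obtain ⟨l, hl, rfl⟩ := Submonoid.exists_list_of_mem_closure hx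
    refine ⟨l.length, l, le_rfl, fun y hy => ?_, rfl⟩
    rcases hl y hy with h | h
    · exact Or.inl h
    · exact Or.inr h
  choose f hf using h1
  refine ⟨S.sup f + 1, by omega, ?_⟩
  have hS : ∀ x ∈ S, x ∈ ball T (S.sup f + 1) := fun x hx =>
    ball_mono T (le_trans (Finset.le_sup (f := f) hx) (Nat.le_succ _)) (hf x)
  have key : ∀ l : List G, (∀ x ∈ l, x ∈ S ∨ x⁻¹ ∈ S) →
      l.prod ∈ ball T ((S.sup f + 1) * l.length) := by
    intro l
    induction l with
    | nil => intro _; exact ⟨[], by simp, by simp, rfl⟩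
    | cons x l ih =>
      intro hx
      have hx1 : x ∈ ball T (S.sup f + 1) := by
        rcases hx x (by simp) with h | h
        · exact hS x h
        · have := ball_inv T (hS _ h)
          rwa [inv_inv] at this
      have := ball_mul T hx1 (ih fun y hy => hx y (by simp [hy]))
      rw [List.prod_cons, List.length_cons]
      convert this using 1
      ring_nf
  rintro n g ⟨l, hl, hx, rfl⟩
  exact ball_mono T (Nat.mul_le_mul_left _ hl) (key l hx)

/-- TARGET (prove `ball_finite` above too) -/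
theorem intermediate_of {G : Type*} [Group G] (S0 : Finset G)
    (hgen : Subgroup.closure (S0 : Set G) = ⊤)
    (hlow : ∀ d : ℕ, ∀ᶠ n : ℕ in atTop, n ^ d < (ball S0 n).ncard)
    (hup : ∀ ε : ℝ, 0 < ε → ∀ᶠ n : ℕ in atTop, ((ball S0 n).ncard : ℝ) < Real.exp (ε * n)) :
    IntermediateGrowth G := by
  refine ⟨⟨S0, hgen⟩, fun T hT => ⟨fun d => ?_, fun ε hε => ?_⟩⟩
  · obtain ⟨k, hk, hsub⟩ := ball_sub S0 T hT
    obtain ⟨N0, hN0⟩ := eventually_atTop.1 (hlow (d + 1))
    refine eventually_atTop.2 ⟨k * (N0 + (2 * k) ^ d + 1), fun n hn => ?_⟩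
    have hm : N0 + (2 * k) ^ d + 1 ≤ n / k := (Nat.le_div_iff_mul_le (by omega)).2 (by
      rw [Nat.mul_comm]; exact hn)
    set m := n / k with hmdef
    have h1 : k * m ≤ n := Nat.mul_div_le n k
    have h2 : n < k * (m + 1) := by
      have := Nat.lt_mul_div_succ n (show 0 < k by omega)
      exact this
    have h3 : n ≤ 2 * k * m := by
      have h5 : k * 1 ≤ k * m := Nat.mul_le_mul_left k (by omega)
      nlinarith
    have h4 : n ^ d ≤ m ^ (d + 1) := by
      calc n ^ d ≤ (2 * k * m) ^ d := Nat.pow_le_pow_left h3 d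
        _ = (2 * k) ^ d * m ^ d := mul_pow _ _ _
        _ ≤ m * m ^ d := Nat.mul_le_mul_right _ (by omega)
        _ = m ^ (d + 1) := by ring
    calc n ^ d ≤ m ^ (d + 1) := h4
      _ < (ball S0 m).ncard := hN0 m (by omega)
      _ ≤ (ball T n).ncard :=
        Set.ncard_le_ncard ((hsub m).trans (ball_mono T h1)) (ball_finite T n)
  · obtain ⟨k, hk, hsub⟩ := ball_sub T S0 hgen
    have hk0 : (0 : ℝ) < k := by exact_mod_cast hk
    obtain ⟨N0, hN0⟩ := eventually_atTop.1 (hup (ε / k) (div_pos hε hk0))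
    refine eventually_atTop.2 ⟨N0, fun n hn => ?_⟩
    have h1 : N0 ≤ k * n := le_trans hn (Nat.le_mul_of_pos_left n (by omega))
    have h2 := hN0 (k * n) h1
    have h3 : ((ball T n).ncard : ℝ) ≤ (ball S0 (k * n)).ncard := by
      exact_mod_cast Set.ncard_le_ncard (hsub n) (ball_finite S0 (k * n))
    refine lt_of_le_of_lt h3 (lt_of_lt_of_eq h2 ?_)
    congr 1
    push_cast
    field_simp

end Pool.Agent.Helper79_Real.G2
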