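import Mathlib

/-!
Lemma job G3 (numeric superpolynomial growth).

Plain-words proof.  We may assume `D ≥ 1` (if `D = 0` then `γ n = 0` for all `n`, contradicting
`hunb`).  Pick `n0 ≥ 1` with `γ n0 ≥ 2 * D` and put `n_{j+1} = a * n_j + b`.  By induction
`γ (n_j) ≥ D * 2^(2^j)`: indeed `D * γ (n_{j+1}) ≥ γ (n_j)^2 ≥ D^2 * 2^(2^(j+1))`.  Also
`n_j ≤ (a + b + 1)^j * n0` (as `n_j ≥ 1`; monotonicity lets us replace `a` by `a+1` so that `n_j` tends
to infinity: `γ n ^ 2 ≤ D * γ (a*n+b) ≤ D * γ ((a+1)*n + b)`, better use `a+2` to be sure that it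
increases strictly).  For `n` with `n_j ≤ n < n_{j+1}`: `γ n ≥ D 2^(2^j)` while
`n^d < ((a+b+3)^(j+1) * n0)^d`; since `2^j` grows faster than any affine function of `j`,
`n^d < γ n` for `n` large.
-/

namespace Pool.Agent.Helper79_Real.G3

open Filter

theorem superpoly_aux (c1 c2 : ℕ) : ∃ J, ∀ j, J ≤ j → c1 * j + c2 < 2 ^ j := by
  refine ⟨4 * (c1 + c2) + 8, fun j hj => ?_⟩
  have h1 : j / 2 < 2 ^ (j / 2) := Nat.lt_two_pow_self
  have h2 : 2 ^ (j / 2) * 2 ^ (j / 2) ≤ 2 ^ j := by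
    rw [← pow_add]
    exact Nat.pow_le_pow_right (by norm_num) (by omega)
  have h3 : (j / 2 + 1) * (j / 2 + 1) ≤ 2 ^ (j / 2) * 2 ^ (j / 2) := Nat.mul_le_mul h1 h1
  have h4 : j ≤ 2 * (j / 2) + 1 := by omega
  have h5 : 2 * (c1 + c2) + 4 ≤ j / 2 := by omega
  have h6 : (j / 2 + 1) * (2 * (c1 + c2) + 4) ≤ (j / 2 + 1) * (j / 2 + 1) :=
    Nat.mul_le_mul le_rfl (by omega)
  have h7 : c1 * j ≤ c1 * (2 * (j / 2) + 1) := Nat.mul_le_mul le_rfl h4
  nlinarith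

/-- TARGET -/
theorem superpoly (γ : ℕ → ℕ) (mono : Monotone γ) (a b D : ℕ)
    (h : ∀ n, γ n ^ 2 ≤ D * γ (a * n + b)) (hunb : ∀ B, ∃ n, B < γ n) :
    ∀ d : ℕ, ∀ᶠ n : ℕ in atTop, n ^ d < γ n := by
  intro d
  have hD : 0 < D := by
    rcases Nat.eq_zero_or_pos D with h0 | h0
    · obtain ⟨n, hn⟩ := hunb 0
      have h1 := h n
      rw [h0, zero_mul] at h1
      have h2 : 0 < γ n ^ 2 := pow_pos hn 2
      omega
    · exact h0
  obtain ⟨m, hm⟩ := hunb (2 * D)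
  obtain ⟨n0, hn0, hγ0⟩ : ∃ n0, 1 ≤ n0 ∧ 2 * D ≤ γ n0 :=
    ⟨max m 1, le_max_right _ _, hm.le.trans (mono (le_max_left _ _))⟩
  set A := a + b + 2 with hA
  have hstep : ∀ n, 1 ≤ n → γ n ^ 2 ≤ D * γ (A * n) := by
    intro n hn
    refine (h n).trans (Nat.mul_le_mul le_rfl (mono ?_))
    rw [hA]
    nlinarith
  have hind : ∀ j, D * 2 ^ (2 ^ j) ≤ γ (A ^ j * n0) := by
    intro j
    induction j with
    | zero => simpa [mul_comm] using hγ0
    | succ j ih =>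
      have h1 : 1 ≤ A ^ j * n0 := Nat.one_le_iff_ne_zero.mpr
        (mul_ne_zero (pow_ne_zero _ (by omega)) (by omega))
      have h2 := hstep _ h1
      have h3 : (D * 2 ^ (2 ^ j)) ^ 2 ≤ γ (A ^ j * n0) ^ 2 := Nat.pow_le_pow_left ih 2
      have h4 : (D * 2 ^ (2 ^ j)) ^ 2 = D * (D * 2 ^ (2 ^ (j + 1))) := by
        rw [mul_pow, ← pow_mul, ← pow_succ]
        ring
      rw [h4] at h3
      have h5 := Nat.le_of_mul_le_mul_left (h3.trans h2) hD
      have h6 : A * (A ^ j * n0) = A ^ (j + 1) * n0 := by ring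
      rwa [h6] at h5
  obtain ⟨J, hJ⟩ := superpoly_aux (A * d) (A * d + n0 * d)
  rw [eventually_atTop]
  refine ⟨A ^ J * n0, fun n hn => ?_⟩
  have hA1 : 1 < A := by omega
  have hex : ∃ j, n < A ^ j * n0 := by
    refine ⟨n, ?_⟩
    have h1 : n < A ^ n := Nat.lt_pow_self hA1
    exact lt_of_lt_of_le h1 (Nat.le_mul_of_pos_right _ (by omega))
  classical
  set k := Nat.find hex with hk
  have hk1 : n < A ^ k * n0 := Nat.find_spec hex
  have hkJ : J < k := by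
    by_contra hcon
    have h1 : A ^ k * n0 ≤ A ^ J * n0 :=
      Nat.mul_le_mul (Nat.pow_le_pow_right (by omega) (by omega)) le_rfl
    omega
  obtain ⟨j, hj⟩ : ∃ j, k = j + 1 := ⟨k - 1, by omega⟩
  have hk2 : A ^ j * n0 ≤ n := by
    by_contra hcon
    have h1 := Nat.find_min' hex (show n < A ^ j * n0 by omega)
    omega
  have hjJ : J ≤ j := by omega
  have h1 := hJ j hjJ
  have h2 : n ^ d ≤ 2 ^ (A * d * j + (A * d + n0 * d)) := by
    have h3 : n ≤ 2 ^ (A * (j + 1) + n0) := by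
      refine hk1.le.trans ?_
      rw [hj, pow_add 2, pow_mul 2]
      exact Nat.mul_le_mul (Nat.pow_le_pow_left Nat.lt_two_pow_self.le _) Nat.lt_two_pow_self.le
    refine (Nat.pow_le_pow_left h3 d).trans ?_
    rw [← pow_mul]
    exact Nat.pow_le_pow_right (by norm_num) (le_of_eq (by ring))
  calc n ^ d ≤ 2 ^ (A * d * j + (A * d + n0 * d)) := h2
    _ < 2 ^ (2 ^ j) := Nat.pow_lt_pow_right (by norm_num) h1
    _ ≤ D * 2 ^ (2 ^ j) := Nat.le_mul_of_pos_left _ hD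
    _ ≤ γ (A ^ j * n0) := hind j
    _ ≤ γ n := mono hk2

end Pool.Agent.Helper79_Real.G3
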