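import Pool.Agent.Helper79_Real.L1

namespace Pool.Agent.Helper79_Real.L2

open L1 (two_pre_unique fin_order)

variable {c : ℝ}

/-- number of group elements represented by words of length at most `n` -/
noncomputable def cnt (c : ℝ) (n : ℕ) : ℕ :=
  {g | ∃ w, IsW c w ∧ w.length ≤ n ∧ val c w = g}.ncard

/-! ### lifting letters and words -/

open Classical in
/-- the lift of a letter -/
noncomputable def L1 (c p : ℝ) : List ℝ := if p < 0 then [f c p] else [c, f c p, c]

/-- the lift of a word -/
noncomputable def LL (c : ℝ) (w : List ℝ) : List ℝ := w.flatMap (L1 c)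

theorem LL_nil : LL c [] = [] := rfl

theorem LL_cons (p : ℝ) (w : List ℝ) : LL c (p :: w) = L1 c p ++ LL c w := rfl

theorem length_L1 (p : ℝ) : (L1 c p).length ≤ 3 := by
  unfold L1; split_ifs <;> simp

theorem length_LL (w : List ℝ) : (LL c w).length ≤ 3 * w.length := by
  induction w with
  | nil => simp [LL_nil]
  | cons p w ih =>
    rw [LL_cons, List.length_append, List.length_cons]
    have := length_L1 (c := c) p
    omega

theorem pre_true_f (p : ℝ) : pre c true (f c p) = -|p| := by
  simp only [pre, if_true, f, add_sub_cancel_right, Real.sqrt_sq_eq_abs]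

theorem pre_false_f (p : ℝ) : pre c false (f c p) = |p| := by
  simp only [pre, Bool.false_eq_true, if_false, f, add_sub_cancel_right, Real.sqrt_sq_eq_abs]

theorem isW_L1 {p : ℝ} (hp : p ∈ P c) : IsW c (L1 c p) := by
  unfold L1
  split_ifs
  · intro q hq
    rw [List.mem_singleton] at hq; rw [hq]; exact P_f hp
  · intro q hq
    simp only [List.mem_cons, List.not_mem_nil, or_false] at hq
    rcases hq with rfl | rfl | rfl
    · exact c_mem
    · exact P_f hp
    · exact c_mem

theorem isW_LL {w : List ℝ} (hw : IsW c w) : IsW c (LL c w) := by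
  induction w with
  | nil => exact isW_nil
  | cons p w ih =>
    rw [isW_cons] at hw
    rw [LL_cons, isW_append]
    exact ⟨isW_L1 hw.1, ih hw.2⟩

theorem fin_L1 (h : Hyp c) (b : Bool) {p : ℝ} (hp : p ∈ P c) : fin c b (L1 c p) = b := by
  have hne := h.ne_c hp
  unfold L1
  split_ifs
  · simp [fin, hne]
  · simp [fin, hne]

theorem sec_true_L1 (h : Hyp c) {p : ℝ} (hp : p ∈ P c) : sec c true (L1 c p) = [p] := by
  have hne := h.ne_c hp
  unfold L1
  split_ifs with hneg
  · have e : pre c true (f c p) = p := by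
      rw [pre_true_f, abs_of_neg hneg]; ring
    simp [sec, hne, e, hp]
  · have e : pre c false (f c p) = p := by
      rw [pre_false_f, abs_of_nonneg (not_lt.1 hneg)]
    simp [sec, hne, e, hp]

open Classical in
theorem sec_false_L1 (h : Hyp c) {p : ℝ} (hp : p ∈ P c) :
    sec c false (L1 c p) = if -p ∈ P c then [-p] else [] := by
  have hne := h.ne_c hp
  unfold L1
  split_ifs with hneg hm hm
  · have e : pre c false (f c p) = -p := by
      rw [pre_false_f, abs_of_neg hneg]
    simp [sec, hne, e, hm]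
  · have e : pre c false (f c p) = -p := by
      rw [pre_false_f, abs_of_neg hneg]
    simp [sec, hne, e, hm]
  · have e : pre c true (f c p) = -p := by
      rw [pre_true_f, abs_of_nonneg (not_lt.1 hneg)]
    simp [sec, hne, e, hm]
  · have e : pre c true (f c p) = -p := by
      rw [pre_true_f, abs_of_nonneg (not_lt.1 hneg)]
    simp [sec, hne, e, hm]

theorem fin_LL (h : Hyp c) (b : Bool) {w : List ℝ} (hw : IsW c w) : fin c b (LL c w) = b := by
  induction w with
  | nil => simp [LL_nil, fin]
  | cons p w ih =>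
    rw [isW_cons] at hw
    rw [LL_cons, fin_append, fin_L1 h b hw.1, ih hw.2]

theorem sec_true_LL (h : Hyp c) {w : List ℝ} (hw : IsW c w) : sec c true (LL c w) = w := by
  induction w with
  | nil => simp [LL_nil, sec]
  | cons p w ih =>
    rw [isW_cons] at hw
    rw [LL_cons, sec_append, fin_L1 h true hw.1, ih hw.2, sec_true_L1 h hw.1]
    rfl

/-- the letters of the second section come in opposite pairs of post-critical points -/
def Good (c : ℝ) (v : List ℝ) : Prop := ∀ x ∈ v, x ∈ P c ∧ -x ∈ P c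

theorem good_sec_false_LL (h : Hyp c) {w : List ℝ} (hw : IsW c w) :
    Good c (sec c false (LL c w)) := by
  induction w with
  | nil => simp [LL_nil, sec, Good]
  | cons p w ih =>
    rw [isW_cons] at hw
    rw [LL_cons, sec_append, fin_L1 h false hw.1, sec_false_L1 h hw.1]
    intro x hx
    rw [List.mem_append] at hx
    rcases hx with hx | hx
    · split_ifs at hx with hm
      · rw [List.mem_singleton] at hx
        rw [hx, neg_neg]; exact ⟨hm, hw.1⟩
      · simp at hx
    · exact ih hw.2 x hx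

theorem eq_or_neg (h : Hyp c) {x a : ℝ} (hx : x ∈ P c) (hx' : -x ∈ P c) (ha : a ∈ P c)
    (ha' : -a ∈ P c) : x = a ∨ x = -a := by
  have hh : ∀ y : ℝ, y ∈ P c → -y ∈ P c → pre c true (f c y) ∈ P c ∧ pre c false (f c y) ∈ P c := by
    intro y h1 h2
    rw [pre_true_f, pre_false_f]
    rcases abs_choice y with e | e <;> rw [e]
    · exact ⟨h2, h1⟩
    · rw [neg_neg]; exact ⟨h1, h2⟩
  have e := two_pre_unique h (P_f hx) (P_f ha) (hh x hx hx').1 (hh x hx hx').2
    (hh a ha ha').1 (hh a ha ha').2
  unfold f at e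
  have e2 : x ^ 2 = a ^ 2 := by linarith
  exact sq_eq_sq_iff_eq_or_eq_neg.1 e2

theorem finite_good (h : Hyp c) : {g | ∃ v, Good c v ∧ val c v = g}.Finite := by
  by_cases hA : ∃ a : ℝ, a ∈ P c ∧ -a ∈ P c
  · obtain ⟨a, ha, ha'⟩ := hA
    obtain ⟨n, hn, hr⟩ := fin_order h ha ha'
    set s := gen c a with hs
    set t := gen c (-a) with ht
    have hss : s * s = 1 := gen_mul_self _
    have htt : t * t = 1 := gen_mul_self _
    set r := s * t with hrdef
    have hfin : (Submonoid.powers r : Set (Equiv.Perm (List Bool))).Finite := by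
      rw [finite_powers]
      exact isOfFinOrder_iff_pow_eq_one.2 ⟨n, hn, hr⟩
    have hsub : {g | ∃ v, Good c v ∧ val c v = g} ⊆
        (Submonoid.powers r : Set (Equiv.Perm (List Bool))) ∪
          (fun g => g * s) '' (Submonoid.powers r : Set (Equiv.Perm (List Bool))) := by
      rintro g ⟨v, hv, rfl⟩
      induction v with
      | nil => left; exact ⟨0, by simp⟩
      | cons q v ih =>
        have hq := hv q List.mem_cons_self
        have hv' : Good c v := fun x hx => hv x (List.mem_cons_of_mem _ hx)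
        rw [val_cons]
        rcases eq_or_neg h hq.1 hq.2 ha ha' with rfl | rfl
        · rcases ih hv' with ⟨k, hk⟩ | ⟨g, ⟨k, hk⟩, hg⟩
          · right; exact ⟨r ^ k, ⟨k, rfl⟩, by simp only [hs]; rw [← hk]⟩
          · left
            refine ⟨k, ?_⟩
            simp only at hg hk ⊢
            rw [← hg, ← hk, mul_assoc, ← hs, hss, mul_one]
        · rcases ih hv' with ⟨k, hk⟩ | ⟨g, ⟨k, hk⟩, hg⟩
          · right
            refine ⟨r ^ (k + (n - 1)), ⟨k + (n - 1), rfl⟩, ?_⟩
            simp only at hk ⊢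
            rw [← hk, pow_add, mul_assoc, ← ht]
            congr 1
            have h1 : r ^ (n - 1) * r = 1 := by
              rw [← pow_succ, Nat.sub_add_cancel hn]; exact hr
            have h2 : r * (t * s) = 1 := by
              rw [hrdef, mul_assoc, ← mul_assoc t t s, htt, one_mul, hss]
            have h3 : r ^ (n - 1) = t * s := by
              calc r ^ (n - 1) = r ^ (n - 1) * (r * (t * s)) := by rw [h2, mul_one]
                _ = t * s := by rw [← mul_assoc, h1, one_mul]
            rw [h3, mul_assoc, hss, mul_one]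
          · left
            refine ⟨k + 1, ?_⟩
            simp only at hg hk ⊢
            rw [← hg, ← hk, pow_succ, mul_assoc, ← ht]
    exact (hfin.union (hfin.image _)).subset hsub
  · apply (Set.finite_singleton (1 : Equiv.Perm (List Bool))).subset
    rintro g ⟨v, hv, rfl⟩
    cases v with
    | nil => simp
    | cons q v => exact absurd ⟨q, hv q List.mem_cons_self⟩ hA

/-- the values of words of length at most `n` -/
def Bl (c : ℝ) (n : ℕ) : Set (Equiv.Perm (List Bool)) :=
  {g | ∃ w, IsW c w ∧ w.length ≤ n ∧ val c w = g}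

theorem finite_Bl (h : Hyp c) (n : ℕ) : (Bl c n).Finite := by
  induction n with
  | zero =>
    apply (Set.finite_singleton (1 : Equiv.Perm (List Bool))).subset
    rintro g ⟨w, _, hl, rfl⟩
    have : w = [] := by
      rw [← List.length_eq_zero_iff]; omega
    rw [this]; simp
  | succ n ih =>
    have : Bl c (n + 1) ⊆ {1} ∪ Set.image2 (fun g q => g * gen c q) (Bl c n) (P c) := by
      rintro g ⟨w, hw, hl, rfl⟩
      cases w with
      | nil => left; simp
      | cons q w =>
        rw [isW_cons] at hw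
        right
        refine ⟨val c w, ⟨w, hw.2, by simpa using hl, rfl⟩, q, hw.1, rfl⟩
    exact ((Set.finite_singleton _).union (Set.Finite.image2 _ ih h.fin)).subset this

theorem Bl_mono {m n : ℕ} (hmn : m ≤ n) : Bl c m ⊆ Bl c n := by
  rintro g ⟨w, hw, hl, rfl⟩
  exact ⟨w, hw, hl.trans hmn, rfl⟩

/-- the word used in the inequality -/
noncomputable def UU (c : ℝ) (w1 w2 : List ℝ) : List ℝ := LL c w1 ++ (c :: (LL c w2 ++ [c]))

theorem sec_true_UU (h : Hyp c) {w1 w2 : List ℝ} (h1 : IsW c w1) (h2 : IsW c w2) :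
    sec c true (UU c w1 w2) = w1 ++ sec c false (LL c w2) := by
  unfold UU
  rw [sec_append, sec_true_LL h h1, fin_LL h true h1]
  congr 1
  simp only [sec, if_true, Bool.not_true]
  rw [sec_append, fin_LL h false h2]
  simp [sec]

theorem sec_false_UU (h : Hyp c) {w1 w2 : List ℝ} (h1 : IsW c w1) (h2 : IsW c w2) :
    sec c false (UU c w1 w2) = sec c false (LL c w1) ++ w2 := by
  unfold UU
  rw [sec_append, fin_LL h false h1]
  congr 1
  simp only [sec, if_true, Bool.not_false]
  rw [sec_append, fin_LL h true h2, sec_true_LL h h2]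
  simp [sec]

theorem isW_UU {w1 w2 : List ℝ} (h1 : IsW c w1) (h2 : IsW c w2) : IsW c (UU c w1 w2) := by
  unfold UU
  rw [isW_append, isW_cons, isW_append, isW_cons]
  exact ⟨isW_LL h1, c_mem, isW_LL h2, c_mem, isW_nil⟩

theorem length_UU {w1 w2 : List ℝ} {n : ℕ} (h1 : w1.length ≤ n) (h2 : w2.length ≤ n) :
    (UU c w1 w2).length ≤ 6 * n + 2 := by
  unfold UU
  have e1 := length_LL (c := c) w1
  have e2 := length_LL (c := c) w2
  simp only [List.length_append, List.length_cons, List.length_nil]
  omega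

theorem cnt_sq (h : Hyp c) (n : ℕ) :
    cnt c n ^ 2 ≤ ({g | ∃ v, Good c v ∧ val c v = g}.ncard) ^ 2 * cnt c (6 * n + 2) := by
  classical
  set S := {g | ∃ v, Good c v ∧ val c v = g} with hS
  have hSf : S.Finite := finite_good h
  -- a word for each element
  have hw : ∀ g : Equiv.Perm (List Bool), ∃ w, g ∈ Bl c n → (IsW c w ∧ w.length ≤ n ∧ val c w = g) := by
    intro g
    by_cases hg : g ∈ Bl c n
    · obtain ⟨w, hw⟩ := hg; exact ⟨w, fun _ => hw⟩
    · exact ⟨[], fun hh => absurd hh hg⟩
  choose W hW using hw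
  let φ : Equiv.Perm (List Bool) × Equiv.Perm (List Bool) →
      (Equiv.Perm (List Bool) × Equiv.Perm (List Bool)) × Equiv.Perm (List Bool) :=
    fun x => ((val c (sec c false (LL c (W x.1))), val c (sec c false (LL c (W x.2)))),
      val c (UU c (W x.1) (W x.2)))
  have hmaps : ∀ x ∈ (Bl c n) ×ˢ (Bl c n), φ x ∈ (S ×ˢ S) ×ˢ (Bl c (6 * n + 2)) := by
    rintro ⟨g1, g2⟩ ⟨hg1, hg2⟩
    simp only at hg1 hg2
    obtain ⟨a1, a2, a3⟩ := hW g1 hg1
    obtain ⟨b1, b2, b3⟩ := hW g2 hg2
    refine ⟨⟨⟨_, good_sec_false_LL h a1, rfl⟩, ⟨_, good_sec_false_LL h b1, rfl⟩⟩,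
      ⟨_, isW_UU a1 b1, length_UU a2 b2, rfl⟩⟩
  have hinj : Set.InjOn φ ((Bl c n) ×ˢ (Bl c n)) := by
    rintro ⟨g1, g2⟩ ⟨hg1, hg2⟩ ⟨g1', g2'⟩ ⟨hg1', hg2'⟩ heq
    simp only at hg1 hg2 hg1' hg2'
    obtain ⟨a1, a2, a3⟩ := hW g1 hg1
    obtain ⟨b1, b2, b3⟩ := hW g2 hg2
    obtain ⟨a1', a2', a3'⟩ := hW g1' hg1'
    obtain ⟨b1', b2', b3'⟩ := hW g2' hg2'
    simp only [φ, Prod.mk.injEq] at heq
    obtain ⟨⟨e1, e2⟩, e3⟩ := heq
    have et := ((val_eq_iff _ _).1 e3 true).2
    have ef := ((val_eq_iff _ _).1 e3 false).2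
    rw [sec_true_UU h a1 b1, sec_true_UU h a1' b1', val_append, val_append, e2] at et
    rw [sec_false_UU h a1 b1, sec_false_UU h a1' b1', val_append, val_append, e1] at ef
    have r1 := mul_left_cancel et
    have r2 := mul_right_cancel ef
    rw [a3, a3'] at r1
    rw [b3, b3'] at r2
    rw [r1, r2]
  have key := Set.ncard_le_ncard_of_injOn φ hmaps hinj
    ((hSf.prod hSf).prod (finite_Bl h (6 * n + 2)))
  rw [Set.ncard_prod, Set.ncard_prod, Set.ncard_prod] at key
  have e1 : cnt c n = (Bl c n).ncard := rfl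
  have e2 : cnt c (6 * n + 2) = (Bl c (6 * n + 2)).ncard := rfl
  rw [e1, e2, sq, sq]
  exact key

theorem infinite_V (h : Hyp c) : {g | ∃ w, IsW c w ∧ val c w = g}.Infinite := by
  classical
  intro hV
  set V := {g | ∃ w, IsW c w ∧ val c w = g} with hVdef
  have hw : ∀ g : V, ∃ w, IsW c w ∧ val c w = g.1 := fun g => g.2
  choose W hW1 hW2 using hw
  let φ : V → V := fun g => ⟨val c (LL c (W g)), LL c (W g), isW_LL (hW1 g), rfl⟩
  have hinj : Function.Injective φ := by
    intro g g' hg
    have e : val c (LL c (W g)) = val c (LL c (W g')) := congrArg Subtype.val hg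
    have e2 := ((val_eq_iff _ _).1 e true).2
    rw [sec_true_LL h (hW1 g), sec_true_LL h (hW1 g'), hW2, hW2] at e2
    exact Subtype.ext e2
  haveI : Finite V := hV.to_subtype
  have hsurj := Finite.surjective_of_injective hinj
  obtain ⟨g, hg⟩ := hsurj ⟨val c [c], [c], by rw [isW_cons]; exact ⟨c_mem, isW_nil⟩, rfl⟩
  have e : val c (LL c (W g)) = val c [c] := congrArg Subtype.val hg
  have e2 := ((val_eq_iff _ _).1 e true).1
  rw [fin_LL h true (hW1 g)] at e2
  simp [fin] at e2

/-- TARGET -/
theorem cnt_lower (h : Hyp c) :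
    (∃ a b D : ℕ, ∀ n, cnt c n ^ 2 ≤ D * cnt c (a * n + b)) ∧ (∀ B, ∃ n, B < cnt c n) := by
  refine ⟨⟨6, 2, _, cnt_sq h⟩, ?_⟩
  intro B
  by_contra hB
  push Not at hB
  obtain ⟨t, ht, htf, htc⟩ := (infinite_V h).exists_subset_ncard_eq (B + 1)
  have : ∃ n, t ⊆ Bl c n := by
    clear htc
    induction t, htf using Set.Finite.induction_on with
    | empty => exact ⟨0, Set.empty_subset _⟩
    | @insert a s _ _ ih =>
      obtain ⟨n, hn⟩ := ih ((Set.subset_insert _ _).trans ht)
      obtain ⟨w, hw, hv⟩ := ht (Set.mem_insert a s)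
      refine ⟨max n w.length, ?_⟩
      rw [Set.insert_subset_iff]
      exact ⟨⟨w, hw, le_max_right _ _, hv⟩, hn.trans (Bl_mono (le_max_left _ _))⟩
  obtain ⟨n, hn⟩ := this
  have h1 := Set.ncard_le_ncard hn (finite_Bl h n)
  have h2 := hB n
  have h3 : cnt c n = (Bl c n).ncard := rfl
  omega

end Pool.Agent.Helper79_Real.L2
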