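import Pool.Agent.Helper79_Real.U4
import Pool.Agent.Helper79_Real.G1
import Pool.Agent.Helper79_Real.G2
import Pool.Agent.Helper79_Real.G3
import Pool.Agent.Helper79_Real.L2

namespace Pool.Agent.Helper79_Real

open Filter

variable {c : ℝ}

/-! ### the generators as elements of `K c` -/

/-- the generator attached to `q`, as an element of the group (trivial if `q` is not post-critical) -/
noncomputable def genK (c q : ℝ) : K c := by
  classical
  exact if h : q ∈ P c then ⟨gen c q, Subgroup.subset_closure ⟨q, h, rfl⟩⟩ else 1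

theorem genK_coe {q : ℝ} (h : q ∈ P c) : ((genK c q : K c) : Equiv.Perm (List Bool)) = gen c q := by
  simp [genK, h]

open Classical in
/-- the standard finite generating set -/
noncomputable def S0 (c : ℝ) (hfin : (P c).Finite) : Finset (K c) := hfin.toFinset.image (genK c)

theorem mem_S0 {hfin : (P c).Finite} {x : K c} :
    x ∈ S0 c hfin ↔ ∃ q ∈ P c, genK c q = x := by
  simp [S0]

theorem closure_S0 (hfin : (P c).Finite) : Subgroup.closure (S0 c hfin : Set (K c)) = ⊤ := by
  have key : Subgroup.map (K c).subtype (Subgroup.closure (S0 c hfin : Set (K c))) = K c := by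
    rw [MonoidHom.map_closure]
    unfold K
    congr 1
    ext g
    constructor
    · rintro ⟨x, hx, rfl⟩
      obtain ⟨q, hq, rfl⟩ := mem_S0.1 hx
      exact ⟨q, hq, (genK_coe hq).symm⟩
    · rintro ⟨q, hq, rfl⟩
      exact ⟨genK c q, mem_S0.2 ⟨q, hq, rfl⟩, genK_coe hq⟩
  rw [eq_top_iff]
  intro x _
  have hx : (x : Equiv.Perm (List Bool)) ∈
      Subgroup.map (K c).subtype (Subgroup.closure (S0 c hfin : Set (K c))) := by
    rw [key]; exact x.2
  obtain ⟨y, hy, hyx⟩ := hx
  have : y = x := Subtype.ext hyx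
  rwa [← this]

/-- elements represented by words of length at most `n` -/
def BB (c : ℝ) (n : ℕ) : Set (Equiv.Perm (List Bool)) :=
  {g | ∃ w, IsW c w ∧ w.length ≤ n ∧ val c w = g}

theorem image_ball (hfin : (P c).Finite) (n : ℕ) :
    (fun x : K c => (x : Equiv.Perm (List Bool))) '' (ball (S0 c hfin) n) = BB c n := by
  ext g
  constructor
  · rintro ⟨x, ⟨l, hl, hS, rfl⟩, rfl⟩
    have : ∀ l : List (K c), (∀ x ∈ l, x ∈ S0 c hfin ∨ x⁻¹ ∈ S0 c hfin) →
        ∃ w, IsW c w ∧ w.length = l.length ∧
          val c w = ((l.prod : K c) : Equiv.Perm (List Bool)) := by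
      intro l
      induction l with
      | nil => intro _; exact ⟨[], isW_nil, rfl, rfl⟩
      | cons x l ih =>
        intro hS
        obtain ⟨w, h1, h2, h3⟩ := ih (fun y hy => hS y (List.mem_cons_of_mem _ hy))
        have hx : ∃ q ∈ P c, gen c q = (x : Equiv.Perm (List Bool)) := by
          rcases hS x List.mem_cons_self with h | h
          · obtain ⟨q, hq, rfl⟩ := mem_S0.1 h
            exact ⟨q, hq, (genK_coe hq).symm⟩
          · obtain ⟨q, hq, hqx⟩ := mem_S0.1 h
            refine ⟨q, hq, ?_⟩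
            have e : x = (genK c q)⁻¹ := by rw [hqx, inv_inv]
            rw [e, Subgroup.coe_inv, genK_coe hq, gen_inv]
        obtain ⟨q, hq, hqx⟩ := hx
        refine ⟨w ++ [q], ?_, by simp [h2], ?_⟩
        · rw [isW_append]; exact ⟨h1, by simpa [IsW] using hq⟩
        · rw [val_append, h3, List.prod_cons, Subgroup.coe_mul, ← hqx]; simp [val_cons]
    obtain ⟨w, h1, h2, h3⟩ := this l hS
    exact ⟨w, h1, by omega, h3⟩
  · rintro ⟨w, hw, hn, rfl⟩
    have : ∀ w : List ℝ, IsW c w → ∃ l : List (K c), l.length = w.length ∧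
        (∀ x ∈ l, x ∈ S0 c hfin ∨ x⁻¹ ∈ S0 c hfin) ∧
        ((l.prod : K c) : Equiv.Perm (List Bool)) = val c w := by
      intro w
      induction w with
      | nil => intro _; exact ⟨[], rfl, by simp, rfl⟩
      | cons q w ih =>
        intro hw
        rw [isW_cons] at hw
        obtain ⟨l, h1, h2, h3⟩ := ih hw.2
        refine ⟨l ++ [genK c q], by simp [h1], ?_, ?_⟩
        · intro x hx
          rw [List.mem_append, List.mem_singleton] at hx
          rcases hx with hx | hx
          · exact h2 x hx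
          · exact Or.inl (mem_S0.2 ⟨q, hw.1, hx.symm⟩)
        · rw [List.prod_append, Subgroup.coe_mul, h3, List.prod_singleton, genK_coe hw.1, val_cons]
    obtain ⟨l, h1, h2, h3⟩ := this w hw
    exact ⟨l.prod, ⟨l, by omega, h2, rfl⟩, h3⟩

theorem ncard_ball (hfin : (P c).Finite) (n : ℕ) :
    (ball (S0 c hfin) n).ncard = (BB c n).ncard := by
  rw [← image_ball hfin n, Set.ncard_image_of_injective _ Subtype.coe_injective]

theorem BB_finite (hfin : (P c).Finite) (n : ℕ) : (BB c n).Finite := by
  rw [← image_ball hfin n]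
  exact (G2.ball_finite _ _).image _

theorem cnt_eq (n : ℕ) : L2.cnt c n = (BB c n).ncard := rfl

/-! ### the upper bound -/

theorem pl_le (O : Finset ℝ) (y y' : ℝ) (w : List ℝ) : pl O y w y' ≤ O.card * (w.length + 1) := by
  induction w generalizing y with
  | nil => simpa [pl] using d_le_card O y y'
  | cons q w ih =>
    simp only [pl, List.length_cons]
    have h1 := d_le_card O y q
    have h2 := ih q
    nlinarith

theorem upper (h : Hyp c) (ε : ℝ) (hε : 0 < ε) :
    ∀ᶠ n : ℕ in atTop, ((BB c n).ncard : ℝ) < Real.exp (ε * n) := by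
  obtain ⟨O, hO, hfin, A, B, C, E, K, q, hA, hrec⟩ := U4.recursion h
  set o : ℝ := (O.card : ℝ) with ho
  have ho0 : 0 ≤ o := Nat.cast_nonneg _
  obtain ⟨C', hC', hN⟩ := G1.growth_core (fun n => (NN c O n).ncard) A B C E K q hA hrec
    (ε / (2 * (o + 1))) (by positivity)
  have h1 : ∀ n : ℕ, ((BB c n).ncard : ℝ) ≤ C' * Real.exp (ε / 2 * (n + 1)) := by
    intro n
    have hsub : BB c n ⊆ NN c O (O.card * (n + 1)) := by
      rintro g ⟨w, hw, hn, rfl⟩
      refine ⟨w, hw, rfl, le_trans (pl_le O c c w) ?_⟩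
      exact Nat.mul_le_mul_left _ (by omega)
    have h2 : (BB c n).ncard ≤ (NN c O (O.card * (n + 1))).ncard :=
      Set.ncard_le_ncard hsub (hfin _)
    have h3 := hN (O.card * (n + 1))
    have h4 : ((BB c n).ncard : ℝ) ≤ ((NN c O (O.card * (n + 1))).ncard : ℝ) := by exact_mod_cast h2
    refine le_trans h4 (le_trans h3 ?_)
    apply mul_le_mul_of_nonneg_left _ hC'.le
    apply Real.exp_le_exp.2
    push_cast
    rw [← ho]
    have : ε / (2 * (o + 1)) * (o * (n + 1)) = ε / 2 * (n + 1) * (o / (o + 1)) := by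
      field_simp
    rw [this]
    have h5 : o / (o + 1) ≤ 1 := by
      rw [div_le_one (by linarith)]; linarith
    have h6 : 0 ≤ ε / 2 * ((n:ℝ) + 1) := by positivity
    nlinarith
  have h2 : ∀ᶠ n : ℕ in atTop, C' * Real.exp (ε / 2) < Real.exp (ε / 2 * n) := by
    have ht : Tendsto (fun n : ℕ => Real.exp (ε / 2 * (n : ℝ))) atTop atTop := by
      apply Real.tendsto_exp_atTop.comp
      exact Tendsto.const_mul_atTop (by positivity) tendsto_natCast_atTop_atTop
    exact ht.eventually_gt_atTop _
  filter_upwards [h2] with n hn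
  refine lt_of_le_of_lt (h1 n) ?_
  have e1 : Real.exp (ε / 2 * (n + 1)) = Real.exp (ε / 2) * Real.exp (ε / 2 * n) := by
    rw [← Real.exp_add]; congr 1; ring
  have e2 : Real.exp (ε * n) = Real.exp (ε / 2 * n) * Real.exp (ε / 2 * n) := by
    rw [← Real.exp_add]; congr 1; ring
  rw [e1, e2, ← mul_assoc]
  exact mul_lt_mul_of_pos_right hn (Real.exp_pos _)

theorem main (h : Hyp c) : IntermediateGrowth (K c) := by
  apply G2.intermediate_of (S0 c h.fin) (closure_S0 h.fin)
  · have mono : Monotone (L2.cnt c) := by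
      intro m n hmn
      rw [cnt_eq, cnt_eq]
      apply Set.ncard_le_ncard _ (BB_finite h.fin n)
      rintro g ⟨w, h1, h2, h3⟩
      exact ⟨w, h1, le_trans h2 hmn, h3⟩
    obtain ⟨⟨a, b, D, hrec⟩, hunb⟩ := L2.cnt_lower h
    intro d
    filter_upwards [G3.superpoly (L2.cnt c) mono a b D hrec hunb d] with n hn
    rw [ncard_ball, ← cnt_eq]; exact hn
  · intro ε hε
    filter_upwards [upper h ε hε] with n hn
    rw [ncard_ball]; exact hn

end Pool.Agent.Helper79_Real
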