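import Pool.Agent.Helper79_Real.HDefs
import Pool.Agent.Helper79_Real.Facts

namespace Pool.Agent.Helper79_Real

open Set

/-- principal square root on the complex plane -/
noncomputable def R (w : ℂ) : ℂ := w ^ (1 / 2 : ℂ)

/-- the preimage of `w` on the left (`true`) or on the right (`false`) -/
noncomputable def pb (c : ℝ) (b : Bool) (w : ℂ) : ℂ := if b then -R (w - c) else R (w - c)

/-- the preimage of `w` with label `l` -/
noncomputable def phi (c : ℝ) : ℂ → List Bool → ℂ
  | w, [] => w
  | w, b :: l => phi c (pb c b w) l

/-- the plane cut along the real axis outside the gap of `x` -/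
def Om (c x : ℝ) : Set ℂ := {z | z.im ≠ 0 ∨ ∀ p ∈ P c, p ≠ z.re ∧ (p < x ↔ p < z.re)}

open Classical in
/-- effect on labels of crossing the real axis at `x` -/
noncomputable def kap (c : ℝ) : ℝ → List Bool → List Bool
  | _, [] => []
  | x, b :: l => if x < c then (!b) :: l else b :: kap c (pre c b x) l

/-- effect on labels of crossing the real axis successively at the points of a list -/
noncomputable def kw (c : ℝ) : List ℝ → List Bool → List Bool
  | [], l => l
  | x :: w, l => kw c w (kap c x l)

open Classical in
/-- effect on labels of a loop around the post-critical point `q`, seen from above -/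
noncomputable def gk (c : ℝ) : ℝ → List Bool → List Bool
  | _, [] => []
  | q, b :: l =>
    if q = c then (!b) :: kap c 0 l
    else if pre c b q ∈ P c then b :: gk c (pre c b q) l
    else b :: l

/-- some lift of `γ` on `[a, b]` by `f^n` starts at `z` and ends at `z'` -/
def Lf (c : ℂ) (n : ℕ) (γ : ℝ → ℂ) (a b : ℝ) (z z' : ℂ) : Prop :=
  ∃ Γ : ℝ → ℂ, ContinuousOn Γ (Icc a b) ∧ Γ a = z ∧ Γ b = z' ∧
    ∀ s ∈ Icc a b, (fC c)^[n] (Γ s) = γ s

/-- hypotheses on the real parameter -/
structure HQ (c : ℝ) : Prop where
  fin : (P c).Finite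
  nz : (0:ℝ) ∉ P c
  neg : c < 0
  lo : ∀ q ∈ P c, c ≤ q

theorem kap_kap (c x : ℝ) (l : List Bool) : kap c x (kap c x l) = l := by
  induction l generalizing x with
  | nil => rfl
  | cons b l ih =>
    by_cases h : x < c
    · simp [kap, h]
    · simp [kap, h, ih]

theorem gk_gk (c q : ℝ) (l : List Bool) : gk c q (gk c q l) = l := by
  induction l generalizing q with
  | nil => rfl
  | cons b l ih =>
    by_cases h : q = c
    · simp [gk, h, kap_kap]
    · by_cases h2 : pre c b q ∈ P c
      · simp [gk, h, h2, ih]
      · simp [gk, h, h2]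

/-- `kap` as a permutation -/
noncomputable def kapP (c x : ℝ) : Equiv.Perm (List Bool) :=
  ⟨kap c x, kap c x, kap_kap c x, kap_kap c x⟩

/-- `gk` as a permutation -/
noncomputable def gkP (c q : ℝ) : Equiv.Perm (List Bool) :=
  ⟨gk c q, gk c q, gk_gk c q, gk_gk c q⟩

theorem length_kap (c x : ℝ) (l : List Bool) : (kap c x l).length = l.length := by
  induction l generalizing x with
  | nil => rfl
  | cons b l ih =>
    by_cases h : x < c
    · simp [kap, h]
    · simp [kap, h, ih]

theorem length_kw (c : ℝ) (w : List ℝ) (l : List Bool) : (kw c w l).length = l.length := by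
  induction w generalizing l with
  | nil => rfl
  | cons x w ih => simp [kw, ih, length_kap]

theorem kw_append (c : ℝ) (u v : List ℝ) (l : List Bool) : kw c (u ++ v) l = kw c v (kw c u l) := by
  induction u generalizing l with
  | nil => rfl
  | cons x u ih => simp [kw, ih]

theorem kw_reverse (c : ℝ) (w : List ℝ) (l : List Bool) : kw c w.reverse (kw c w l) = l := by
  induction w generalizing l with
  | nil => rfl
  | cons x w ih => simp [kw, kw_append, ih, kap_kap]

theorem phi_iter (c : ℝ) (hR : ∀ w : ℂ, R w ^ 2 = w) (w : ℂ) (l : List Bool) :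
    (fC c)^[l.length] (phi c w l) = w := by
  induction l generalizing w with
  | nil => rfl
  | cons b l ih =>
    rw [List.length_cons, Function.iterate_succ_apply', phi, ih]
    unfold fC pb
    cases b
    · simp [hR]
    · simp [hR]

/-- the closure of the products of two crossings -/
noncomputable def G0 (c : ℝ) : Subgroup (Equiv.Perm (List Bool)) :=
  Subgroup.closure {g | ∃ x y : ℝ, x ∉ P c ∧ y ∉ P c ∧ g = kapP c x * kapP c y}

end Pool.Agent.Helper79_Real
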