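import Pool.Agent.Helper79_Real.Defs

/-!
The iterated monodromy group of a quadratic polynomial `z^2 + c` on the complex plane, defined by
lifting loops.
-/

namespace Pool.Agent.Helper79_Real

/-- The quadratic polynomial `z^2 + c` on the complex plane. -/
def fC (c z : ℂ) : ℂ := z ^ 2 + c

/-- Its post-critical set `{f^n(0) : n ≥ 1}`. -/
def PC (c : ℂ) : Set ℂ := {z | ∃ n : ℕ, z = (fC c)^[n + 1] 0}

/-- The vertices of the tree of preimages of `t`: the pairs `(n, z)` with `f^n(z) = t`. -/
def Vert (c t : ℂ) : Type := Σ n : ℕ, {z : ℂ // (fC c)^[n] z = t}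

/-- Some lift of the path `γ` by `f^n` starts at `z` and ends at `z'`. -/
def IsLift (c : ℂ) (n : ℕ) (γ : C(unitInterval, ℂ)) (z z' : ℂ) : Prop :=
  ∃ Γ : C(unitInterval, ℂ), Γ 0 = z ∧ Γ 1 = z' ∧ ∀ s, (fC c)^[n] (Γ s) = γ s

/-- The permutation `g` of the vertices of the tree of preimages of `t` is induced by the loop `γ`:
it sends every vertex `(n, z)` to `(n, z')` where `z'` is the endpoint of the lift of `γ` by `f^n`
starting at `z`. -/
def Induces (c t : ℂ) (γ : C(unitInterval, ℂ)) (g : Equiv.Perm (Vert c t)) : Prop :=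
  ∀ v : Vert c t, (g v).1 = v.1 ∧ IsLift c v.1 γ v.2 (g v).2

/-- The iterated monodromy group of `z^2 + c` with base point `t`: the group of permutations of the
tree of preimages of `t` induced by the loops at `t` in the complement of the post-critical set. -/
def IMG (c t : ℂ) : Subgroup (Equiv.Perm (Vert c t)) :=
  Subgroup.closure {g | ∃ γ : C(unitInterval, ℂ), γ 0 = t ∧ γ 1 = t ∧ (∀ s, γ s ∉ PC c) ∧
    Induces c t γ g}

end Pool.Agent.Helper79_Real
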