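import Pool.Agent.Helper79_Real.Final

namespace Pool.Agent.Helper79_Real

open Filter

variable {c : ℝ}

/-! ### parameters outside the range -/

theorem P_infinite (hc : c < -2) : ¬ (P c).Finite := by
  have h0 : ∀ n : ℕ, c ^ 2 + c ≤ (f c)^[n + 2] 0 ∧ (f c)^[n + 2] 0 < (f c)^[n + 3] 0 := by
    intro n
    have key : ∀ x : ℝ, c ^ 2 + c ≤ x → x < f c x := by
      intro x hx
      unfold f
      have h1 : -c < x := by nlinarith
      nlinarith
    induction n with
    | zero =>
      have e2 : (f c)^[0 + 2] 0 = c ^ 2 + c := by simp [f]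
      have e3 : (f c)^[0 + 3] 0 = f c (c ^ 2 + c) := by simp [f]
      rw [e2, e3]
      exact ⟨le_rfl, key _ le_rfl⟩
    | succ n ih =>
      have e1 : (f c)^[n + 1 + 2] 0 = (f c)^[n + 3] 0 := rfl
      have h1 : c ^ 2 + c ≤ (f c)^[n + 1 + 2] 0 := by rw [e1]; linarith [ih.1, ih.2]
      refine ⟨h1, ?_⟩
      have := key _ h1
      rwa [← Function.iterate_succ_apply' (f c)] at this
  have hmono : StrictMono (fun n : ℕ => (f c)^[n + 2] 0) :=
    strictMono_nat_of_lt_succ (fun n => (h0 n).2)
  intro hfin
  have : (Set.range (fun n : ℕ => (f c)^[n + 2] 0)).Infinite :=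
    Set.infinite_range_of_injective hmono.injective
  apply this
  apply hfin.subset
  rintro _ ⟨n, rfl⟩; exact ⟨n + 1, rfl⟩

/-! ### the parameter `-2` -/

theorem P_neg_two : P (-2) = {-2, 2} := by
  have key : ∀ n : ℕ, (f (-2))^[n + 2] 0 = 2 := by
    intro n
    induction n with
    | zero => simp [f]; norm_num
    | succ n ih =>
      rw [Function.iterate_succ_apply' (f (-2)) (n + 2), ih]; norm_num [f]
  ext x
  constructor
  · rintro ⟨n, rfl⟩
    cases n with
    | zero => left; simp [f]
    | succ n => right; exact key n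
  · rintro (rfl | rfl)
    · exact ⟨0, by simp [f]⟩
    · exact ⟨1, (key 0).symm⟩

theorem dihedral {G : Type*} [Group G] (a b : G) (ha : a * a = 1) (hb : b * b = 1) (l : List G)
    (hl : ∀ x ∈ l, x = a ∨ x = b) :
    ∃ k : ℤ, ∃ e : Bool, k.natAbs ≤ l.length ∧ l.prod = (a * b) ^ k * (if e then a else 1) := by
  have ha' : a⁻¹ = a := by rw [inv_eq_iff_mul_eq_one]; exact ha
  have hb' : b⁻¹ = b := by rw [inv_eq_iff_mul_eq_one]; exact hb
  have hconj : ∀ k : ℤ, a * (a * b) ^ k = (a * b) ^ (-k) * a := by
    intro k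
    have h1 : a * (a * b) * a⁻¹ = (a * b)⁻¹ := by
      rw [mul_inv_rev, ha', hb', ← mul_assoc, ha, one_mul]
    have h2 : a * (a * b) ^ k * a⁻¹ = (a * b) ^ (-k) := by
      rw [← conj_zpow, h1, inv_zpow, zpow_neg]
    rw [← h2, inv_mul_cancel_right]
  induction l with
  | nil => exact ⟨0, false, by simp, by simp⟩
  | cons x l ih =>
    obtain ⟨k, e, hk, hp⟩ := ih (fun y hy => hl y (List.mem_cons_of_mem _ hy))
    have hae : a * (if e then a else 1) = (if !e then a else 1) := by cases e <;> simp [ha]
    rcases hl x List.mem_cons_self with h | h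
    · refine ⟨-k, !e, ?_, ?_⟩
      · simp only [List.length_cons, Int.natAbs_neg]; omega
      · rw [List.prod_cons, hp, h, ← mul_assoc, hconj, mul_assoc, hae]
    · refine ⟨-(k + 1), !e, ?_, ?_⟩
      · simp only [List.length_cons]; omega
      · have hb2 : b = a * (a * b) := by rw [← mul_assoc, ha, one_mul]
        rw [List.prod_cons, hp, h]
        calc b * ((a * b) ^ k * if e then a else 1)
            = a * ((a * b) * (a * b) ^ k) * (if e then a else 1) := by
              rw [← mul_assoc, ← mul_assoc, ← hb2]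
          _ = a * (a * b) ^ (k + 1) * (if e then a else 1) := by rw [add_comm, zpow_one_add]
          _ = (a * b) ^ (-(k + 1)) * (if !e then a else 1) := by rw [hconj, mul_assoc, hae]

theorem not_neg_two : ¬ IntermediateGrowth (K (-2)) := by
  classical
  intro hI
  have hfin : (P (-2)).Finite := by rw [P_neg_two]; exact Set.toFinite _
  have h2 := (hI.2 (S0 (-2) hfin) (closure_S0 hfin)).1 2
  obtain ⟨N, hN⟩ := eventually_atTop.1 h2
  set n := max N 5 with hn
  have h3 := hN n (le_max_left _ _)
  rw [ncard_ball] at h3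
  set a := gen (-2) (-2) with ha
  set b := gen (-2) 2 with hb
  have hsub : BB (-2) n ⊆ ((((Finset.Icc (-(n:ℤ)) n) ×ˢ (Finset.univ : Finset Bool)).image
      (fun p => (a * b) ^ p.1 * (if p.2 then a else 1)) : Finset (Equiv.Perm (List Bool))) :
        Set (Equiv.Perm (List Bool))) := by
    rintro g ⟨w, hw, hl, rfl⟩
    have hval : ∀ w : List ℝ, val (-2) w = ((w.map (gen (-2))).reverse).prod := by
      intro w
      induction w with
      | nil => rfl
      | cons q w ih => rw [val_cons, ih]; simp
    have hmem : ∀ x ∈ (w.map (gen (-2))).reverse, x = a ∨ x = b := by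
      intro x hx
      rw [List.mem_reverse, List.mem_map] at hx
      obtain ⟨q, hq, rfl⟩ := hx
      have := hw q hq
      rw [P_neg_two] at this
      rcases this with h | h
      · left; rw [h]
      · right
        have h' : q = 2 := h
        rw [h']
    obtain ⟨k, e, hk, hp⟩ := dihedral a b (gen_mul_self _) (gen_mul_self _) _ hmem
    rw [List.length_reverse, List.length_map] at hk
    rw [hval, hp]
    simp only [Finset.coe_image, Set.mem_image, Finset.mem_coe, Finset.mem_product,
      Finset.mem_Icc, Finset.mem_univ, and_true, Prod.exists]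
    exact ⟨k, e, ⟨by omega, by omega⟩, rfl⟩
  have h4 := Set.ncard_le_ncard hsub (Finset.finite_toSet _)
  rw [Set.ncard_coe_finset] at h4
  have h5 := le_trans h4 Finset.card_image_le
  rw [Finset.card_product, Int.card_Icc, Finset.card_univ, Fintype.card_bool] at h5
  have h6 : ((n:ℤ) + 1 - -(n:ℤ)).toNat = 2 * n + 1 := by omega
  rw [h6] at h5
  have h7 : 5 ≤ n := le_max_right _ _
  nlinarith

end Pool.Agent.Helper79_Real
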