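import Pool.Agent.Helper79_Real.Defs

namespace Pool.Agent.Helper79_Real.V11

theorem v11_ball_sub {G H : Type*} [Group G] [Group H] (e : G ≃* H) (S : Finset G) (n : ℕ) :
    e '' ball S n ⊆ ball (S.map e.toEquiv.toEmbedding) n := by
  rintro _ ⟨g, ⟨l, hl, hS, rfl⟩, rfl⟩
  refine ⟨l.map e, by simpa using hl, ?_, by simp [map_list_prod]⟩
  intro x hx
  obtain ⟨y, hy, rfl⟩ := List.mem_map.mp hx
  rcases hS y hy with h | h
  · left; simpa using h
  · right
    rw [← map_inv]
    simpa using h

theorem v11_ball {G H : Type*} [Group G] [Group H] (e : G ≃* H) (S : Finset G) (n : ℕ) :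
    ball (S.map e.toEquiv.toEmbedding) n = e '' ball S n := by
  refine Set.Subset.antisymm ?_ (v11_ball_sub e S n)
  intro x hx
  have h := v11_ball_sub e.symm (S.map e.toEquiv.toEmbedding) n ⟨x, hx, rfl⟩
  have h2 : (S.map e.toEquiv.toEmbedding).map e.symm.toEquiv.toEmbedding = S := by
    ext y
    simp
  rw [h2] at h
  exact ⟨e.symm x, h, by simp⟩

theorem v11_ncard {G H : Type*} [Group G] [Group H] (e : G ≃* H) (S : Finset G) (n : ℕ) :
    (ball (S.map e.toEquiv.toEmbedding) n).ncard = (ball S n).ncard := by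
  rw [v11_ball]
  exact Set.ncard_image_of_injective _ e.injective

theorem v11_closure {G H : Type*} [Group G] [Group H] (e : G ≃* H) (S : Finset G)
    (h : Subgroup.closure (S : Set G) = ⊤) :
    Subgroup.closure ((S.map e.toEquiv.toEmbedding : Finset H) : Set H) = ⊤ := by
  have h1 : ((S.map e.toEquiv.toEmbedding : Finset H) : Set H) = (e : G →* H) '' (S : Set G) := by
    ext x; simp
  rw [h1, ← MonoidHom.map_closure, h]
  exact Subgroup.map_top_of_surjective _ e.surjective

/-- TARGET -/
theorem growth_iso {G H : Type*} [Group G] [Group H] (e : G ≃* H) (h : IntermediateGrowth G) :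
    IntermediateGrowth H := by
  obtain ⟨⟨S, hS⟩, h2⟩ := h
  refine ⟨⟨_, v11_closure e S hS⟩, fun T hT => ?_⟩
  have h3 := h2 _ (v11_closure e.symm T hT)
  simpa only [v11_ncard] using h3

end Pool.Agent.Helper79_Real.V11
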