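import Pool.Agent.Helper79_Real.V1

/-!
Lemma job V5 (labels of the preimages of a non-real point).  Definitions: Pool/Agent/Helper79_Real/{HDefs,HBase}.lean on
origin/main (copy the folder to your working tree and `lake build Pool.Agent.Helper79_Real.HBase`).

Plain-words proof.  If `w.im ≠ 0` then `w - c ∈ slitPlane`, `(pb c b w).im ≠ 0` and `(pb c false w).re > 0 > (pb c true w).re`; the two solutions of `u^2 + c = w` are
`pb c false w`, `pb c true w`.
`phi_inj`: induction on the lengths (generalizing `w`): for `b :: l`, `b' :: l'` of the same length, apply `(fC c)^[l.length]` to `phi c (pb c b w) l = phi c (pb c b' w) l'`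
(`phi_iter`): `pb c b w = pb c b' w`, so `b = b'`, and then induction.
`phi_surj`: induction on `n` generalizing `w`: if `(fC c)^[n+1] z = w` then `u = (fC c)^[n] z` satisfies `fC c u = w`, so `u = pb c b w` for some `b`, and `u.im ≠ 0`;
induction for `u`.
`vert_equiv`: from these, with `phi_iter`.
-/

namespace Pool.Agent.Helper79_Real.V5

open V1 (R_sq R_re R_im_pos R_im_neg)

variable {c : ℝ}

theorem V5_slit {w : ℂ} (hw : w.im ≠ 0) : w - (c : ℂ) ∈ Complex.slitPlane := by
  rw [Complex.mem_slitPlane_iff]
  right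
  simpa using hw

theorem V5_pb_im {w : ℂ} (hw : w.im ≠ 0) (b : Bool) : (pb c b w).im ≠ 0 := by
  have h1 : (R (w - c)).im ≠ 0 := by
    rcases lt_or_gt_of_ne hw with h | h
    · exact (R_im_neg (w := w - c) (by simpa using h)).ne
    · exact (R_im_pos (w := w - c) (by simpa using h)).ne'
  cases b
  · simpa [pb] using h1
  · simpa [pb] using h1

theorem V5_pb_inj {w : ℂ} (hw : w.im ≠ 0) {b b' : Bool} (h : pb c b w = pb c b' w) : b = b' := by
  have h1 : 0 < (R (w - c)).re := R_re (V5_slit hw)
  have h2 := congrArg Complex.re h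
  cases b <;> cases b'
  · rfl
  · simp [pb] at h2
    linarith
  · simp [pb] at h2
    linarith
  · rfl

theorem V5_sol {w u : ℂ} (h : fC c u = w) : ∃ b, u = pb c b w := by
  have h1 : u ^ 2 = R (w - c) ^ 2 := by
    rw [R_sq, ← h]
    unfold fC
    ring
  rcases sq_eq_sq_iff_eq_or_eq_neg.1 h1 with h2 | h2
  · exact ⟨false, by simpa [pb] using h2⟩
  · exact ⟨true, by simpa [pb] using h2⟩

/-- TARGET 1 -/
theorem phi_inj {w : ℂ} (hw : w.im ≠ 0) {l l' : List Bool} (h : l.length = l'.length)
    (he : phi c w l = phi c w l') : l = l' := by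
  induction l generalizing w l' with
  | nil =>
    cases l' with
    | nil => rfl
    | cons b' l' => simp at h
  | cons b l ih =>
    cases l' with
    | nil => simp at h
    | cons b' l' =>
      have h1 : l.length = l'.length := by simpa using h
      simp only [phi] at he
      have h2 := phi_iter c R_sq (pb c b w) l
      have h3 := phi_iter c R_sq (pb c b' w) l'
      rw [he, h1, h3] at h2
      have h4 : b = b' := (V5_pb_inj hw h2).symm
      subst h4
      rw [ih (V5_pb_im hw b) h1 he]

/-- TARGET 2 -/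
theorem phi_surj {w : ℂ} (hw : w.im ≠ 0) (n : ℕ) {z : ℂ} (hz : (fC c)^[n] z = w) :
    ∃ l : List Bool, l.length = n ∧ phi c w l = z := by
  induction n generalizing w z with
  | zero => exact ⟨[], rfl, by simpa [phi] using hz.symm⟩
  | succ n ih =>
    rw [Function.iterate_succ_apply'] at hz
    obtain ⟨b, hb⟩ := V5_sol hz
    obtain ⟨l, h1, h2⟩ := ih (V5_pb_im hw b) hb
    exact ⟨b :: l, by simp [h1], by simpa [phi] using h2⟩

/-- TARGET 3 (prove all) -/
theorem vert_equiv {t : ℂ} (ht : t.im ≠ 0) : ∃ E : List Bool ≃ Vert c t,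
    ∀ l, (E l).1 = l.length ∧ ((E l).2 : ℂ) = phi c t l := by
  let F : List Bool → Vert c t := fun l => ⟨l.length, phi c t l, phi_iter c R_sq t l⟩
  have hF : Function.Bijective F := by
    constructor
    · intro l l' h
      have h1 : l.length = l'.length := congrArg Sigma.fst h
      have h2 : phi c t l = phi c t l' := congrArg (fun v : Vert c t => (v.2 : ℂ)) h
      exact phi_inj ht h1 h2
    · rintro ⟨n, z, hz⟩
      obtain ⟨l, rfl, rfl⟩ := phi_surj ht n hz
      exact ⟨l, rfl⟩
  exact ⟨Equiv.ofBijective F hF, fun l => ⟨rfl, rfl⟩⟩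

end Pool.Agent.Helper79_Real.V5
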