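import Pool.Agent.Helper79_Real.HBase

/-!
Lemma job V4 (uniqueness of lifts).  Definitions: Pool/Agent/Helper79_Real/{HDefs,HBase}.lean on origin/main (copy the folder
to your working tree and `lake build Pool.Agent.Helper79_Real.HBase`).

Plain-words proof.  `lift_unique`: induction on `n` generalizing `γ`.  `n = 0`: both are `γ`.  Step: `(fC c)^[n+1] = (fC c)^[n] ∘ fC c`, so `fC c ∘ Γ`, `fC c ∘ Γ'` are
lifts of `γ` by `(fC c)^[n]` with the same start, hence equal on `[a, b]`: `Γ s ^ 2 = Γ' s ^ 2`.  `Γ' s ≠ 0`: otherwise `γ s = (fC c)^[n+1] 0 ∈ PC c`.  So on `[a, b]`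
(connected) the continuous function `Γ / Γ'` takes values in `{1, -1}`, hence is constant, `= 1` at `a`.  The statement with equal ends is the same for the reversed
paths.  `PC_iff`: `fC (c:ℂ) (x:ℂ) = (f c x : ℂ)` for real `c, x`, so the iterates of `0` are the casts of the real ones.
-/

namespace Pool.Agent.Helper79_Real.V4

open Set

/-- TARGET 1 -/
theorem lift_unique (c : ℂ) (n : ℕ) (γ Γ Γ' : ℝ → ℂ) {a b : ℝ} (hP : ∀ s ∈ Icc a b, γ s ∉ PC c)
    (h1 : ContinuousOn Γ (Icc a b)) (h2 : ContinuousOn Γ' (Icc a b))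
    (h3 : ∀ s ∈ Icc a b, (fC c)^[n] (Γ s) = γ s) (h4 : ∀ s ∈ Icc a b, (fC c)^[n] (Γ' s) = γ s)
    {s0 : ℝ} (hs0 : s0 ∈ Icc a b) (h5 : Γ s0 = Γ' s0) : ∀ s ∈ Icc a b, Γ s = Γ' s := by
  induction n generalizing Γ Γ' with
  | zero =>
    intro s hs
    have e1 := h3 s hs
    have e2 := h4 s hs
    simp only [Function.iterate_zero, id] at e1 e2
    rw [e1, e2]
  | succ n ih =>
    have hcont : Continuous (fC c) := by unfold fC; fun_prop
    have key := ih (fun s => fC c (Γ s)) (fun s => fC c (Γ' s)) (hcont.comp_continuousOn h1)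
      (hcont.comp_continuousOn h2)
      (fun s hs => by rw [← Function.iterate_succ_apply]; exact h3 s hs)
      (fun s hs => by rw [← Function.iterate_succ_apply]; exact h4 s hs) (by simp only [h5])
    have hsq : EqOn (Γ ^ 2) (Γ' ^ 2) (Icc a b) := by
      intro s hs
      have := key s hs
      simp only [fC, add_left_inj] at this
      simpa using this
    have hne : ∀ {s}, s ∈ Icc a b → Γ' s ≠ 0 := by
      intro s hs h0
      apply hP s hs
      rw [← h4 s hs, h0]
      exact ⟨n, rfl⟩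
    exact isPreconnected_Icc.eq_of_sq_eq h1 h2 hsq hne hs0 h5

/-- TARGET 2 (prove both) -/
theorem PC_iff (c : ℝ) (z : ℂ) : z ∈ PC (c : ℂ) ↔ ∃ x ∈ P c, z = (x : ℂ) := by
  have h : ∀ n : ℕ, (fC (c : ℂ))^[n] 0 = (((f c)^[n] 0 : ℝ) : ℂ) := by
    intro n
    induction n with
    | zero => simp
    | succ n ih =>
      rw [Function.iterate_succ_apply', Function.iterate_succ_apply', ih]
      simp [fC, f]
  constructor
  · rintro ⟨n, rfl⟩
    exact ⟨_, ⟨n, rfl⟩, h _⟩
  · rintro ⟨_, ⟨n, rfl⟩, rfl⟩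
    exact ⟨n, (h _).symm⟩

end Pool.Agent.Helper79_Real.V4
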