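import Pool.Agent.Helper79_Real.V2
import Pool.Agent.Helper79_Real.V4

/-!
Lemma job V6 (every path between non-real points acts on labels as a product of crossings).  Definitions:
Pool/Agent/Helper79_Real/{HDefs,HBase}.lean on origin/main (copy the folder to your working tree and
`lake build Pool.Agent.Helper79_Real.HBase`).

Plain-words proof.  For `u ∈ ℂ` put `p u = u + I` if `u` is real, `p u = u` otherwise (so `(p u).im ≠ 0`), and `V_u s = u + s * (p u - u)`, `s ∈ [0, 1]`, a path from `u` to `p u`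
which stays in `Om c x` as soon as `u ∈ Om c x` (all its points but possibly `u` are non-real).  Say that `z` (with `(fC c)^[n] z = u`) has label `l`, `l.length = n`, if
`Lf c n V_u 0 1 z (phi c (p u) l)`.
(A) Let `γ` be continuous on `[a, b]` with values in `Om c x`, `x ∉ P c`, `u = γ a`, `u' = γ b`, and let `z` have label `l` over `u`.  Then there is `z'` over `u'` with
`Lf c n γ a b z z'` and `z'` has label `l` or `kap c x l` over `u'`, according to whether `p u`, `p u'` are on the same side of the real axis or not: let `η` be the path on `[a-1, b+1]`,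
`η s = V_u (a - s)` on `[a-1, a]`, `γ` on `[a, b]`, `V_u' (s - b)` on `[b, b+1]`; it stays in `Om c x`.  `lift_label` gives a lift `G` of `η` from `phi c (p u) l` to
`phi c (p u') l'`, `l'` as said.  By `lift_unique` on `[a-1, a]` (compare with the reversed lift of `V_u` from `z`; both start at `phi c (p u) l`), `G a = z`.  Take `z' = G b`.
(`Om c x` does not meet `PC c`: by `PC_iff`.)
(B) The sets `Om c x`, `x ∉ P c`, are open (the complement of the real axis plus an open interval: `P c` is finite) and cover the complement of `PC c` (a real `u ∉ P c` is in `Om c u`;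
a non-real `u` is in every `Om c x`, and there is some `x ∉ P c`).  By compactness of `[0, 1]` (Lebesgue number) there is a subdivision `0 = s_0 ≤ s_1 ≤ ... ≤ s_m = 1` with `γ [s_i, s_(i+1)] ⊆ Om c x_i`.
By induction on `i`, for every `l`: there are `z_i` and a word `w_i` (independent of `l`) with `Lf c l.length γ 0 s_i (phi c (γ 0) l) z_i` and `z_i` of label `kw c w_i l` over `γ s_i`, where
`w_i` has even length if and only if `p (γ s_i)` is on the same side of the real axis as `γ 0`.  (Glue the lifts on `[0, s_i]` and `[s_i, s_(i+1)]`; start: `γ 0` is not real, `V` is constant,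
its lifts are constant: `lift_unique`.)  At the end `γ 1` is not real, `p (γ 1) = γ 1`, and the lift of the constant path `V` is constant, so `z_m = phi c (γ 1) (kw c w_m l)`.
-/

namespace Pool.Agent.Helper79_Real.V6

open V1 (R_sq)

open V2 (lift_exists lift_label)

open V4 (lift_unique PC_iff)

open Set

variable {c : ℝ}

/-- a point off the real axis close to `u` -/
noncomputable def v6_p (u : ℂ) : ℂ := if u.im = 0 then u + Complex.I else u

/-- the path from `u` to `v6_p u` -/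
noncomputable def v6_V (u : ℂ) (s : ℝ) : ℂ := u + (s : ℂ) * (v6_p u - u)

theorem v6_p_im (u : ℂ) : (v6_p u).im ≠ 0 := by
  unfold v6_p
  split_ifs with h
  · simp [h]
  · exact h

theorem v6_p_of {u : ℂ} (h : u.im ≠ 0) : v6_p u = u := by
  unfold v6_p
  rw [if_neg h]

theorem v6_V_zero (u : ℂ) : v6_V u 0 = u := by simp [v6_V]

theorem v6_V_one (u : ℂ) : v6_V u 1 = v6_p u := by simp [v6_V]

theorem v6_V_of {u : ℂ} (h : u.im ≠ 0) (s : ℝ) : v6_V u s = u := by
  simp [v6_V, v6_p_of h]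

theorem v6_V_cont (u : ℂ) : Continuous (v6_V u) := by
  unfold v6_V
  fun_prop

theorem v6_V_Om {x : ℝ} {u : ℂ} (hu : u ∈ Om c x) (s : ℝ) : v6_V u s ∈ Om c x := by
  by_cases h : u.im = 0
  · by_cases hs : s = 0
    · rw [hs, v6_V_zero]; exact hu
    · left
      simp [v6_V, v6_p, h, hs]
  · rw [v6_V_of h]; exact hu

theorem v6_Om_PC {x : ℝ} {z : ℂ} (hz : z ∈ Om c x) : z ∉ PC (c : ℂ) := by
  intro h
  obtain ⟨y, hy, rfl⟩ := (PC_iff c z).mp h
  rcases hz with h1 | h1
  · exact h1 (Complex.ofReal_im y)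
  · exact (h1 y hy).1 (Complex.ofReal_re y).symm

theorem v6_glue {f : ℝ → ℂ} {a b d : ℝ} (hab : a ≤ b) (hbd : b ≤ d)
    (h1 : ContinuousOn f (Icc a b)) (h2 : ContinuousOn f (Icc b d)) : ContinuousOn f (Icc a d) := by
  rw [← Icc_union_Icc_eq_Icc hab hbd]
  exact h1.union_of_isClosed h2 isClosed_Icc isClosed_Icc

theorem v6_trans {c : ℂ} {n : ℕ} {γ : ℝ → ℂ} {a b d : ℝ} {z z' z'' : ℂ} (hab : a ≤ b) (hbd : b ≤ d)
    (h1 : Lf c n γ a b z z') (h2 : Lf c n γ b d z' z'') : Lf c n γ a d z z'' := by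
  obtain ⟨Γ, g1, g2, g3, g4⟩ := h1
  obtain ⟨Δ, d1, d2, d3, d4⟩ := h2
  have e1 : ∀ s ∈ Icc a b, (if s ≤ b then Γ s else Δ s) = Γ s := fun s hs => if_pos hs.2
  have e2 : ∀ s ∈ Icc b d, (if s ≤ b then Γ s else Δ s) = Δ s := by
    intro s hs
    by_cases h : s ≤ b
    · have : s = b := le_antisymm h hs.1
      rw [if_pos h, this, g3, d2]
    · rw [if_neg h]
  refine ⟨fun s => if s ≤ b then Γ s else Δ s, ?_, ?_, ?_, ?_⟩
  · apply v6_glue hab hbd
    · exact g1.congr e1
    · exact d1.congr e2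
  · show (if a ≤ b then Γ a else Δ a) = z
    rw [if_pos hab, g2]
  · have := e2 d ⟨hbd, le_rfl⟩
    show (if d ≤ b then Γ d else Δ d) = z''
    rw [this, d3]
  · intro s hs
    rcases le_total s b with h | h
    · have := e1 s ⟨hs.1, h⟩
      show (fC c)^[n] (if s ≤ b then Γ s else Δ s) = γ s
      rw [this]; exact g4 s ⟨hs.1, h⟩
    · have := e2 s ⟨h, hs.2⟩
      show (fC c)^[n] (if s ≤ b then Γ s else Δ s) = γ s
      rw [this]; exact d4 s ⟨h, hs.2⟩

theorem v6_congr {c : ℂ} {n : ℕ} {γ γ' : ℝ → ℂ} {a b : ℝ} {z z' : ℂ}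
    (h1 : Lf c n γ a b z z') (h : ∀ s ∈ Icc a b, γ' s = γ s) : Lf c n γ' a b z z' := by
  obtain ⟨Γ, g1, g2, g3, g4⟩ := h1
  exact ⟨Γ, g1, g2, g3, fun s hs => by rw [h s hs]; exact g4 s hs⟩

theorem v6_rev {c : ℂ} {n : ℕ} {γ : ℝ → ℂ} {a b : ℝ} {z z' : ℂ} (k : ℝ)
    (h1 : Lf c n γ a b z z') : Lf c n (fun s => γ (k - s)) (k - b) (k - a) z' z := by
  obtain ⟨Γ, g1, g2, g3, g4⟩ := h1
  refine ⟨fun s => Γ (k - s), ?_, ?_, ?_, ?_⟩
  · apply g1.comp (by fun_prop)
    intro s hs
    exact ⟨by linarith [hs.2], by linarith [hs.1]⟩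
  · show Γ (k - (k - b)) = z'
    rw [sub_sub_cancel, g3]
  · show Γ (k - (k - a)) = z
    rw [sub_sub_cancel, g2]
  · intro s hs
    exact g4 (k - s) ⟨by linarith [hs.2], by linarith [hs.1]⟩

theorem v6_shift {c : ℂ} {n : ℕ} {γ : ℝ → ℂ} {a b : ℝ} {z z' : ℂ} (k : ℝ)
    (h1 : Lf c n γ a b z z') : Lf c n (fun s => γ (s - k)) (a + k) (b + k) z z' := by
  obtain ⟨Γ, g1, g2, g3, g4⟩ := h1
  refine ⟨fun s => Γ (s - k), ?_, ?_, ?_, ?_⟩
  · apply g1.comp (by fun_prop)
    intro s hs
    exact ⟨by linarith [hs.1], by linarith [hs.2]⟩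
  · show Γ (a + k - k) = z
    rw [add_sub_cancel_right, g2]
  · show Γ (b + k - k) = z'
    rw [add_sub_cancel_right, g3]
  · intro s hs
    exact g4 (s - k) ⟨by linarith [hs.1], by linarith [hs.2]⟩

theorem v6_det {c : ℂ} {n : ℕ} {γ : ℝ → ℂ} {a b : ℝ} {z z' z'' : ℂ} (hab : a ≤ b)
    (hP : ∀ s ∈ Icc a b, γ s ∉ PC c)
    (h1 : Lf c n γ a b z z') (h2 : Lf c n γ a b z z'') : z' = z'' := by
  obtain ⟨Γ, g1, g2, g3, g4⟩ := h1
  obtain ⟨Δ, d1, d2, d3, d4⟩ := h2
  have := lift_unique c n γ Γ Δ hP g1 d1 g4 d4 (s0 := a) ⟨le_rfl, hab⟩ (by rw [g2, d2]) b ⟨hab, le_rfl⟩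
  rw [← g3, ← d3]; exact this

/-- step (A) -/
theorem v6_stepA {x : ℝ} (hx : x ∉ P c) (γ : ℝ → ℂ) {a b : ℝ} (hab : a ≤ b)
    (hγ : ContinuousOn γ (Icc a b)) (hO : ∀ s ∈ Icc a b, γ s ∈ Om c x) (l : List Bool) {z : ℂ}
    (hz : Lf c l.length (v6_V (γ a)) 0 1 z (phi c (v6_p (γ a)) l)) :
    (0 < (v6_p (γ a)).im * (v6_p (γ b)).im → ∃ z', Lf c l.length γ a b z z' ∧
      Lf c l.length (v6_V (γ b)) 0 1 z' (phi c (v6_p (γ b)) l)) ∧
    ((v6_p (γ a)).im * (v6_p (γ b)).im < 0 → ∃ z', Lf c l.length γ a b z z' ∧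
      Lf c l.length (v6_V (γ b)) 0 1 z' (phi c (v6_p (γ b)) (kap c x l))) := by
  have hfz : (fC c)^[l.length] z = γ a := by
    obtain ⟨Γ, g1, g2, g3, g4⟩ := hz
    have := g4 0 ⟨le_rfl, zero_le_one⟩
    rw [g2, v6_V_zero] at this
    exact this
  obtain ⟨z', hz'⟩ := lift_exists hx l.length γ hab hγ hO hfz
  have hfz' : (fC c)^[l.length] z' = γ b := by
    obtain ⟨Γ, g1, g2, g3, g4⟩ := hz'
    have := g4 b ⟨hab, le_rfl⟩
    rw [g3] at this
    exact this
  obtain ⟨z'', hz''⟩ := lift_exists hx l.length (v6_V (γ b)) zero_le_one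
    (v6_V_cont (γ b)).continuousOn (fun s _ => v6_V_Om (hO b ⟨hab, le_rfl⟩) s)
    (by rw [v6_V_zero]; exact hfz')
  set η : ℝ → ℂ := fun s => if s ≤ a then v6_V (γ a) (a - s) else if s ≤ b then γ s
    else v6_V (γ b) (s - b) with hη
  have e1 : ∀ s ∈ Icc (a - 1) a, η s = v6_V (γ a) (a - s) := fun s hs => if_pos hs.2
  have e2 : ∀ s ∈ Icc a b, η s = γ s := by
    intro s hs
    by_cases h : s ≤ a
    · have h' : s = a := le_antisymm h hs.1
      simp only [hη]
      rw [if_pos h, h', sub_self, v6_V_zero]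
    · simp only [hη]
      rw [if_neg h, if_pos hs.2]
  have e3 : ∀ s ∈ Icc b (b + 1), η s = v6_V (γ b) (s - b) := by
    intro s hs
    by_cases h : s ≤ b
    · have h' : s = b := le_antisymm h hs.1
      rw [e2 s ⟨by linarith [hs.1], h⟩, h', sub_self, v6_V_zero]
    · simp only [hη]
      rw [if_neg (fun h2 => h (h2.trans hab)), if_neg h]
  have hηc : ContinuousOn η (Icc (a - 1) (b + 1)) := by
    apply v6_glue (b := b) (by linarith) (by linarith)
    · apply v6_glue (b := a) (by linarith) hab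
      · exact (((v6_V_cont (γ a)).comp (continuous_const.sub continuous_id)).continuousOn).congr e1
      · exact hγ.congr e2
    · exact (((v6_V_cont (γ b)).comp (continuous_id.sub continuous_const)).continuousOn).congr e3
  have hηO : ∀ s ∈ Icc (a - 1) (b + 1), η s ∈ Om c x := by
    intro s hs
    rcases le_total s a with h | h
    · rw [e1 s ⟨hs.1, h⟩]; exact v6_V_Om (hO a ⟨le_rfl, hab⟩) _
    · rcases le_total s b with h2 | h2
      · rw [e2 s ⟨h, h2⟩]; exact hO s ⟨h, h2⟩
      · rw [e3 s ⟨h2, hs.2⟩]; exact v6_V_Om (hO b ⟨hab, le_rfl⟩) _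
  have hηa : η (a - 1) = v6_p (γ a) := by
    rw [e1 (a - 1) ⟨le_rfl, by linarith⟩, sub_sub_cancel, v6_V_one]
  have hηb : η (b + 1) = v6_p (γ b) := by
    rw [e3 (b + 1) ⟨by linarith, le_rfl⟩, add_sub_cancel_left, v6_V_one]
  have L1 : Lf c l.length η (a - 1) a (phi c (v6_p (γ a)) l) z := by
    have := v6_rev a hz
    rw [sub_zero] at this
    exact v6_congr this e1
  have L2 : Lf c l.length η a b z z' := v6_congr hz' e2
  have L3 : Lf c l.length η b (b + 1) z' z'' := by
    have := v6_shift b hz''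
    rw [zero_add, add_comm (1 : ℝ) b] at this
    exact v6_congr this e3
  have L : Lf c l.length η (a - 1) (b + 1) (phi c (v6_p (γ a)) l) z'' :=
    v6_trans (by linarith) (by linarith) (v6_trans (by linarith) hab L1 L2) L3
  have hll := lift_label hx l η (a := a - 1) (b := b + 1) (by linarith) hηc hηO
    (by rw [hηa]; exact v6_p_im _) (by rw [hηb]; exact v6_p_im _)
  rw [hηa, hηb] at hll
  have hav : ∀ s ∈ Icc (a - 1) (b + 1), η s ∉ PC (c : ℂ) := fun s hs => v6_Om_PC (hηO s hs)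
  refine ⟨fun hpos => ⟨z', hz', ?_⟩, fun hneg => ⟨z', hz', ?_⟩⟩
  · have := v6_det (by linarith) hav L (hll.1 hpos)
    rw [← this]; exact hz''
  · have := v6_det (by linarith) hav L (hll.2 hneg)
    rw [← this]; exact hz''

theorem v6_Om_open (hc : HQ c) (x : ℝ) : IsOpen (Om c x) := by
  have h1 : IsOpen {z : ℂ | z.im ≠ 0} := isOpen_ne_fun Complex.continuous_im continuous_const
  have h2 : IsOpen {z : ℂ | ∀ p ∈ P c, p ≠ z.re ∧ (p < x ↔ p < z.re)} := by
    have : {z : ℂ | ∀ p ∈ P c, p ≠ z.re ∧ (p < x ↔ p < z.re)}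
        = ⋂ p ∈ P c, {z : ℂ | p ≠ z.re ∧ (p < x ↔ p < z.re)} := by
      ext z; simp
    rw [this]
    apply hc.fin.isOpen_biInter
    intro p _
    by_cases hpx : p < x
    · have : {z : ℂ | p ≠ z.re ∧ (p < x ↔ p < z.re)} = {z : ℂ | p < z.re} := by
        ext z
        simp only [mem_ofPred_eq, hpx, true_iff]
        exact ⟨fun h => h.2, fun h => ⟨ne_of_lt h, h⟩⟩
      rw [this]
      exact isOpen_lt continuous_const Complex.continuous_re
    · have : {z : ℂ | p ≠ z.re ∧ (p < x ↔ p < z.re)} = {z : ℂ | z.re < p} := by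
        ext z
        simp only [mem_ofPred_eq, hpx, false_iff, not_lt]
        exact ⟨fun h => lt_of_le_of_ne h.2 (Ne.symm h.1), fun h => ⟨ne_of_gt h, h.le⟩⟩
      rw [this]
      exact isOpen_lt Complex.continuous_re continuous_const
  exact h1.union h2

theorem v6_const {u : ℂ} (hu : u.im ≠ 0) (l : List Bool) :
    Lf c l.length (v6_V u) 0 1 (phi c u l) (phi c (v6_p u) l) := by
  rw [v6_p_of hu]
  refine ⟨fun _ => phi c u l, continuousOn_const, rfl, rfl, ?_⟩
  intro s _
  rw [v6_V_of hu]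
  exact phi_iter c R_sq u l

/-- TARGET -/
theorem path_word (hc : HQ c) (γ : ℝ → ℂ) (hγ : ContinuousOn γ (Icc 0 1))
    (hP : ∀ s ∈ Icc (0:ℝ) 1, γ s ∉ PC (c : ℂ)) (h0 : (γ 0).im ≠ 0) (h1 : (γ 1).im ≠ 0) :
    ∃ w : List ℝ, (∀ x ∈ w, x ∉ P c) ∧ (Even w.length ↔ 0 < (γ 0).im * (γ 1).im) ∧
      ∀ l : List Bool, Lf c l.length γ 0 1 (phi c (γ 0) l) (phi c (γ 1) (kw c w l)) := by
  obtain ⟨t, ht0, htm, ⟨m, hm⟩, ht⟩ := exists_monotone_Icc_subset_open_cover_Icc
    (zero_le_one (α := ℝ)) (c := fun x : {x : ℝ // x ∉ P c} => {s : Icc (0:ℝ) 1 | γ s ∈ Om c x})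
    (by
      intro x
      have : Continuous (fun s : Icc (0:ℝ) 1 => γ s) := continuousOn_iff_continuous_domRestrict.mp hγ
      exact (v6_Om_open hc x).preimage this)
    (by
      intro s _
      have hs := hP s s.2
      rw [mem_iUnion]
      by_cases him : (γ s).im = 0
      · have hre : (γ s).re ∉ P c := by
          intro h
          apply hs
          rw [PC_iff]
          exact ⟨(γ s).re, h, Complex.ext (by simp) (by simp [him])⟩
        refine ⟨⟨(γ s).re, hre⟩, Or.inr ?_⟩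
        intro p hp
        exact ⟨fun h => hre (h ▸ hp), Iff.rfl⟩
      · obtain ⟨x, hx⟩ := hc.fin.exists_notMem
        exact ⟨⟨x, hx⟩, Or.inl him⟩)
  have hmain : ∀ k : ℕ, ∃ w : List ℝ, (∀ x ∈ w, x ∉ P c) ∧
      (Even w.length ↔ 0 < (γ 0).im * (v6_p (γ (t k))).im) ∧
      ∀ l : List Bool, ∃ z, Lf c l.length γ 0 (t k) (phi c (γ 0) l) z ∧
        Lf c l.length (v6_V (γ (t k))) 0 1 z (phi c (v6_p (γ (t k))) (kw c w l)) := by
    intro k
    induction k with
    | zero =>
      refine ⟨[], by simp, ?_, ?_⟩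
      · rw [ht0, v6_p_of h0]
        simp only [List.length_nil, Even.zero, true_iff]
        exact mul_self_pos.mpr h0
      · intro l
        refine ⟨phi c (γ 0) l, ?_, ?_⟩
        · rw [ht0]
          refine ⟨fun _ => phi c (γ 0) l, continuousOn_const, rfl, rfl, ?_⟩
          intro s hs
          have : s = 0 := le_antisymm hs.2 hs.1
          rw [this]
          exact phi_iter c R_sq _ l
        · rw [ht0]
          exact v6_const h0 l
    | succ k ih =>
      obtain ⟨w, hw1, hw2, hw3⟩ := ih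
      obtain ⟨⟨x, hx⟩, hsub⟩ := ht k
      have hle : ((t k : Icc (0:ℝ) 1) : ℝ) ≤ t (k + 1) := htm (Nat.le_succ k)
      have hin : ∀ s ∈ Icc ((t k : Icc (0:ℝ) 1) : ℝ) (t (k + 1)), γ s ∈ Om c x := by
        intro s hs
        have hs01 : s ∈ Icc (0:ℝ) 1 := ⟨(t k).2.1.trans hs.1, hs.2.trans (t (k + 1)).2.2⟩
        exact hsub (show (⟨s, hs01⟩ : Icc (0:ℝ) 1) ∈ Icc (t k) (t (k + 1)) from ⟨hs.1, hs.2⟩)
      have hcon : ContinuousOn γ (Icc ((t k : Icc (0:ℝ) 1) : ℝ) (t (k + 1))) :=
        hγ.mono (Icc_subset_Icc (t k).2.1 (t (k + 1)).2.2)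
      have hB := v6_p_im (γ (t k))
      have hC := v6_p_im (γ (t (k + 1)))
      rcases lt_trichotomy 0 ((v6_p (γ (t k))).im * (v6_p (γ (t (k + 1)))).im) with hpos | hz | hneg
      · refine ⟨w, hw1, ?_, ?_⟩
        · rw [hw2]
          constructor
          · intro h
            by_contra hcon2
            have h3 := mul_pos h hpos
            have h4 : 0 < (v6_p (γ (t k))).im ^ 2 := by positivity
            nlinarith
          · intro h
            by_contra hcon2
            have h3 := mul_pos h hpos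
            have h4 : 0 < (v6_p (γ (t (k + 1)))).im ^ 2 := by positivity
            nlinarith
        · intro l
          obtain ⟨z, hz1, hz2⟩ := hw3 l
          have hlen := length_kw c w l
          rw [← hlen] at hz1 hz2
          obtain ⟨z', hz3, hz4⟩ := (v6_stepA hx γ hle hcon hin (kw c w l) hz2).1 hpos
          rw [hlen] at hz1 hz3 hz4
          exact ⟨z', v6_trans (t k).2.1 hle hz1 hz3, hz4⟩
      · exact absurd hz.symm (mul_ne_zero hB hC)
      · refine ⟨w ++ [x], ?_, ?_, ?_⟩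
        · intro y hy
          rcases List.mem_append.mp hy with h | h
          · exact hw1 y h
          · rw [List.mem_singleton.mp h]; exact hx
        · rw [List.length_append, List.length_singleton, Nat.even_add_one, hw2]
          constructor
          · intro h
            by_contra hcon2
            have hA2 : 0 < (γ 0).im ^ 2 := by positivity
            have h5 : (γ 0).im * (v6_p (γ (t k))).im < 0 :=
              lt_of_le_of_ne (not_lt.mp h) (mul_ne_zero h0 hB)
            have h6 : (γ 0).im * (v6_p (γ (t (k + 1)))).im < 0 :=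
              lt_of_le_of_ne (not_lt.mp hcon2) (mul_ne_zero h0 hC)
            have h7 := mul_pos_of_neg_of_neg h5 h6
            nlinarith
          · intro h hcon2
            have hA2 : 0 < (γ 0).im ^ 2 := by positivity
            have h7 := mul_pos h hcon2
            nlinarith
        · intro l
          obtain ⟨z, hz1, hz2⟩ := hw3 l
          have hlen := length_kw c w l
          rw [← hlen] at hz1 hz2
          obtain ⟨z', hz3, hz4⟩ := (v6_stepA hx γ hle hcon hin (kw c w l) hz2).2 hneg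
          rw [hlen] at hz1 hz3 hz4
          refine ⟨z', v6_trans (t k).2.1 hle hz1 hz3, ?_⟩
          rw [kw_append]
          exact hz4
  obtain ⟨w, hw1, hw2, hw3⟩ := hmain m
  have htm1 : ((t m : Icc (0:ℝ) 1) : ℝ) = 1 := hm m le_rfl
  rw [htm1] at hw2 hw3
  rw [v6_p_of h1] at hw2
  refine ⟨w, hw1, hw2, ?_⟩
  intro l
  obtain ⟨z, hz1, hz2⟩ := hw3 l
  have hzz : z = phi c (v6_p (γ 1)) (kw c w l) := by
    have hcst : Lf c l.length (v6_V (γ 1)) 0 1 z z := by
      refine ⟨fun _ => z, continuousOn_const, rfl, rfl, ?_⟩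
      intro s _
      obtain ⟨Γ, g1, g2, g3, g4⟩ := hz1
      have := g4 1 ⟨zero_le_one, le_rfl⟩
      rw [g3] at this
      rw [v6_V_of h1]
      exact this
    refine v6_det zero_le_one ?_ hcst hz2
    intro s _
    rw [v6_V_of h1]
    exact hP 1 ⟨zero_le_one, le_rfl⟩
  rw [v6_p_of h1] at hzz
  rw [← hzz]
  exact hz1

end Pool.Agent.Helper79_Real.V6
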