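import Pool.Agent.Helper79_Real.V2
import Pool.Agent.Helper79_Real.V4

/-!
Lemma job V7 (the product of two crossings is induced by a loop).
-/

namespace Pool.Agent.Helper79_Real.V7

open V2 (lift_label)

open V4 (PC_iff)

open Set

variable {c : ℝ}

/-- half of the loop: from `t` through the real point `x` to the conjugate of `t` -/
noncomputable def hloop (t : ℂ) (x : ℝ) (u : ℝ) : ℂ :=
  ⟨x + (t.re - x) * (1 - 2 * u) ^ 2, (1 - 2 * u) * t.im⟩

theorem hloop_cont (t : ℂ) (x : ℝ) : Continuous (hloop t x) := by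
  have h : hloop t x = fun u : ℝ => ((x + (t.re - x) * (1 - 2 * u) ^ 2 : ℝ) : ℂ) +
      (((1 - 2 * u) * t.im : ℝ) : ℂ) * Complex.I := by
    funext u
    exact Complex.mk_eq_add_mul_I _ _
  rw [h]
  exact (Complex.continuous_ofReal.comp (by fun_prop)).add
    ((Complex.continuous_ofReal.comp (by fun_prop)).mul continuous_const)

theorem hloop_zero (t : ℂ) (x : ℝ) : hloop t x 0 = t := by
  apply Complex.ext <;> simp [hloop]

theorem hloop_one (t : ℂ) (x : ℝ) : hloop t x 1 = (starRingEnd ℂ) t := by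
  apply Complex.ext <;> simp [hloop] <;> ring

theorem hloop_im {t : ℂ} (ht : t.im ≠ 0) {x u : ℝ} (h : (hloop t x u).im = 0) :
    hloop t x u = (x : ℂ) := by
  have h1 : (1 - 2 * u) = 0 := by
    rcases mul_eq_zero.1 h with h | h
    · exact h
    · exact absurd h ht
  apply Complex.ext <;> simp [hloop, h1]

theorem hloop_Om {t : ℂ} (ht : t.im ≠ 0) {x : ℝ} (hx : x ∉ P c) (u : ℝ) :
    hloop t x u ∈ Om c x := by
  by_cases h : (hloop t x u).im = 0
  · right
    intro p hp
    rw [hloop_im ht h, Complex.ofReal_re]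
    exact ⟨fun h => hx (h ▸ hp), Iff.rfl⟩
  · exact Or.inl h

theorem hloop_PC {t : ℂ} (ht : t.im ≠ 0) {x : ℝ} (hx : x ∉ P c) (u : ℝ) :
    hloop t x u ∉ PC (c : ℂ) := by
  rw [PC_iff]
  rintro ⟨p, hp, h⟩
  have h0 : (hloop t x u).im = 0 := by rw [h, Complex.ofReal_im]
  have h1 := hloop_im ht h0
  rw [h1] at h
  exact hx (Complex.ofReal_injective h ▸ hp)

/-- half of the loop as a path -/
noncomputable def hpath (t : ℂ) (x : ℝ) : Path t ((starRingEnd ℂ) t) where
  toFun s := hloop t x s
  continuous_toFun := (hloop_cont t x).comp continuous_subtype_val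
  source' := by simp [hloop_zero]
  target' := by simp [hloop_one]

/-- lift of half of the loop -/
theorem hpath_lift {t : ℂ} (ht : t.im ≠ 0) {x : ℝ} (hx : x ∉ P c) (l : List Bool) :
    ∃ Γ : Path (phi c t l) (phi c ((starRingEnd ℂ) t) (kap c x l)),
      ∀ s, (fC c)^[l.length] (Γ s) = hpath t x s := by
  obtain ⟨Γ, h1, h2, h3, h4⟩ := (lift_label hx l (hloop t x) (a := 0) (b := 1) zero_le_one
    (hloop_cont t x).continuousOn (fun s _ => hloop_Om ht hx s)
    (by rw [hloop_zero]; exact ht) (by rw [hloop_one]; simpa using ht)).2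
    (by
      rw [hloop_zero, hloop_one]
      have : 0 < t.im * t.im := mul_self_pos.2 ht
      simp only [Complex.conj_im]
      linarith)
  rw [hloop_zero] at h2
  rw [hloop_one] at h3
  refine ⟨{ toFun := fun s => Γ s
            continuous_toFun := ?_
            source' := ?_
            target' := ?_ }, fun s => h4 s s.2⟩
  · exact continuousOn_iff_continuous_domRestrict.1 h1
  · simpa using h2
  · simpa using h3

/-- TARGET -/
theorem realize {t : ℂ} (ht : t.im ≠ 0) {x y : ℝ} (hx : x ∉ P c) (hy : y ∉ P c) :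
    ∃ γ : C(unitInterval, ℂ), γ 0 = t ∧ γ 1 = t ∧ (∀ s, γ s ∉ PC (c : ℂ)) ∧
      ∀ l : List Bool, IsLift c l.length γ (phi c t l) (phi c t (kap c y (kap c x l))) := by
  have ht' : ((starRingEnd ℂ) t).im ≠ 0 := by simpa using ht
  have hcc : (starRingEnd ℂ) ((starRingEnd ℂ) t) = t := Complex.conj_conj t
  let γ : Path t t := (hpath t x).trans ((hpath ((starRingEnd ℂ) t) y).cast rfl hcc.symm)
  refine ⟨γ.toContinuousMap, γ.source, γ.target, ?_, ?_⟩
  · intro s
    change γ s ∉ _
    simp only [γ, Path.trans_apply]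
    split_ifs with h
    · exact hloop_PC ht hx _
    · exact hloop_PC ht' hy _
  · intro l
    obtain ⟨Γ₁, h₁⟩ := hpath_lift ht hx l
    obtain ⟨Γ₂, h₂⟩ := hpath_lift ht' hy (kap c x l)
    rw [length_kap] at h₂
    let Γ : Path (phi c t l) (phi c t (kap c y (kap c x l))) :=
      Γ₁.trans (Γ₂.cast rfl (by rw [hcc]))
    refine ⟨Γ.toContinuousMap, Γ.source, Γ.target, ?_⟩
    intro s
    change (fC c)^[l.length] (Γ s) = γ s
    simp only [γ, Γ, Path.trans_apply]
    split_ifs with h
    · exact h₁ _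
    · exact h₂ _

end Pool.Agent.Helper79_Real.V7
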