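import Pool.Agent.Helper79_Real.HBase

/-! V8: conjugating the monodromy generators to the kneading automaton. -/

namespace Pool.Agent.Helper79_Real.V8

variable {c : ℝ}

namespace V8

/-- the positive preimages -/
noncomputable def pos (c : ℝ) (Y : List ℝ) : List ℝ :=
  (Y.filter (fun y => decide (c < y))).map fun y => √(y - c)

/-- the negative preimages -/
noncomputable def neg (c : ℝ) (Y : List ℝ) : List ℝ :=
  (Y.filter (fun y => decide (c < y))).map fun y => -√(y - c)

/-- the list of the preimages -/
noncomputable def Yp (c : ℝ) (Y : List ℝ) : List ℝ := pos c Y ++ ([0] ++ (neg c Y).reverse)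

/-- the conjugating map -/
noncomputable def hh (c : ℝ) : List ℝ → List Bool → List Bool
  | _, [] => []
  | Y, false :: l => false :: hh c (Yp c Y) l
  | Y, true :: l => true :: hh c (Yp c Y) (kw c (Yp c Y).reverse l)
termination_by _ l => l.length
decreasing_by
  · simp
  · simp [length_kw]

theorem hh_nil (Y : List ℝ) : hh c Y [] = [] := by rw [hh]
theorem hh_false (Y : List ℝ) (l : List Bool) : hh c Y (false :: l) = false :: hh c (Yp c Y) l := by
  rw [hh]
theorem hh_true (Y : List ℝ) (l : List Bool) :
    hh c Y (true :: l) = true :: hh c (Yp c Y) (kw c (Yp c Y).reverse l) := by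
  rw [hh]

theorem kw_reverse' (c : ℝ) (w : List ℝ) (l : List Bool) : kw c w (kw c w.reverse l) = l := by
  have := kw_reverse c w.reverse l
  rwa [List.reverse_reverse] at this

theorem hh_cons (Y : List ℝ) (b : Bool) (l : List Bool) : ∃ t, hh c Y (b :: l) = b :: t := by
  cases b
  · exact ⟨_, hh_false Y l⟩
  · exact ⟨_, hh_true Y l⟩

theorem hh_inj (n : ℕ) : ∀ (Y : List ℝ) (l l' : List Bool), l.length ≤ n → hh c Y l = hh c Y l' →
    l = l' := by
  induction n with
  | zero =>
    intro Y l l' hl h
    have : l = [] := List.length_eq_zero_iff.1 (Nat.le_zero.1 hl)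
    subst this
    cases l' with
    | nil => rfl
    | cons b m =>
      obtain ⟨t, ht⟩ := hh_cons (c := c) Y b m
      rw [hh_nil, ht] at h
      exact absurd h (by simp)
  | succ n ih =>
    intro Y l l' hl h
    cases l with
    | nil =>
      cases l' with
      | nil => rfl
      | cons b m =>
        obtain ⟨t, ht⟩ := hh_cons (c := c) Y b m
        rw [hh_nil, ht] at h
        exact absurd h (by simp)
    | cons b m =>
      cases l' with
      | nil =>
        obtain ⟨t, ht⟩ := hh_cons (c := c) Y b m
        rw [hh_nil, ht] at h
        exact absurd h (by simp)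
      | cons b' m' =>
        have hm : m.length ≤ n := by simpa using hl
        cases b <;> cases b'
        · rw [hh_false, hh_false] at h
          rw [ih _ m m' hm (List.cons.inj h).2]
        · rw [hh_false, hh_true] at h
          exact absurd (List.cons.inj h).1 (by simp)
        · rw [hh_true, hh_false] at h
          exact absurd (List.cons.inj h).1 (by simp)
        · rw [hh_true, hh_true] at h
          have h1 := ih _ _ _ (by rw [length_kw]; exact hm) (List.cons.inj h).2
          have h2 := congrArg (kw c (Yp c Y)) h1
          rw [kw_reverse', kw_reverse'] at h2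
          rw [h2]

theorem hh_surj (l : List Bool) : ∀ Y : List ℝ, ∃ m, hh c Y m = l := by
  induction l with
  | nil => exact fun Y => ⟨[], hh_nil Y⟩
  | cons b l ih =>
    intro Y
    obtain ⟨m, hm⟩ := ih (Yp c Y)
    cases b
    · exact ⟨false :: m, by rw [hh_false, hm]⟩
    · exact ⟨true :: kw c (Yp c Y) m, by rw [hh_true, kw_reverse, hm]⟩

theorem hh_bij (Y : List ℝ) : Function.Bijective (hh c Y) :=
  ⟨fun l l' h => hh_inj l.length Y l l' le_rfl h, fun l => hh_surj l Y⟩

theorem kw_cons (w : List ℝ) (hw : ∀ y ∈ w, ¬ y < c) (b : Bool) (l : List Bool) :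
    kw c w (b :: l) = b :: kw c (w.map (pre c b)) l := by
  induction w generalizing l with
  | nil => rfl
  | cons x w ih =>
    have hx : ¬ x < c := hw x (by simp)
    have h1 : kap c x (b :: l) = b :: kap c (pre c b x) l := by simp [kap, hx]
    rw [kw, h1, ih (fun y hy => hw y (by simp [hy]))]
    rfl

theorem f_mem {x : ℝ} (h : x ∈ P c) : f c x ∈ P c := by
  obtain ⟨n, rfl⟩ := h
  exact ⟨n + 1, by rw [Function.iterate_succ_apply' (f c) (n + 1)]⟩

theorem c_mem : c ∈ P c := ⟨0, by simp [f]⟩

/-- The lists that occur. -/
structure Good (c : ℝ) (Y : List ℝ) : Prop where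
  dec : Y.Pairwise (· > ·)
  out : ∀ y ∈ Y, y ∉ P c

theorem sqrt_lt {q y : ℝ} (hq : c ≤ q) (_hy : c ≤ y) : √(q - c) < √(y - c) ↔ q < y := by
  rw [Real.sqrt_lt_sqrt_iff (by linarith)]
  constructor <;> intro h <;> linarith

theorem mem_plus {Y : List ℝ} {y : ℝ} (h : y ∈ Y.filter (fun y => decide (c < y))) : y ∈ Y ∧ c < y := by
  simpa using h

theorem good_Yp (hc : HQ c) {Y : List ℝ} (hY : Good c Y) : Good c (Yp c Y) := by
  have hd : (Y.filter (fun y => decide (c < y))).Pairwise (· > ·) := hY.dec.filter _
  have hp : (pos c Y).Pairwise (· > ·) := by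
    unfold pos
    rw [List.pairwise_map]
    refine hd.imp_of_mem ?_
    intro a b ha hb hab
    exact (sqrt_lt (mem_plus hb).2.le (mem_plus ha).2.le).2 hab
  have hn : ((neg c Y).reverse).Pairwise (· > ·) := by
    unfold neg
    rw [List.pairwise_reverse, List.pairwise_map]
    refine hd.imp_of_mem ?_
    intro a b ha hb hab
    exact neg_lt_neg ((sqrt_lt (mem_plus hb).2.le (mem_plus ha).2.le).2 hab)
  have hp0 : ∀ x ∈ pos c Y, 0 < x := by
    intro x hx
    obtain ⟨y, hy, rfl⟩ := List.mem_map.1 hx
    exact Real.sqrt_pos.2 (by linarith [(mem_plus hy).2])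
  have hn0 : ∀ x ∈ (neg c Y).reverse, x < 0 := by
    intro x hx
    obtain ⟨y, hy, rfl⟩ := List.mem_map.1 (List.mem_reverse.1 hx)
    exact neg_lt_zero.2 (Real.sqrt_pos.2 (by linarith [(mem_plus hy).2]))
  refine ⟨?_, ?_⟩
  · unfold Yp
    rw [List.pairwise_append]
    refine ⟨hp, ?_, ?_⟩
    · rw [List.pairwise_append]
      refine ⟨by simp, hn, ?_⟩
      intro a ha b hb
      rw [List.mem_singleton.1 ha]
      exact hn0 b hb
    · intro a ha b hb
      rcases List.mem_append.1 hb with h | h
      · rw [List.mem_singleton.1 h]
        exact hp0 a ha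
      · exact (hn0 b h).trans (hp0 a ha)
  · intro x hx
    have key : ∀ y ∈ Y.filter (fun y => decide (c < y)), ∀ x : ℝ, x ^ 2 = y - c → x ∉ P c := by
      intro y hy x hx hP
      have h1 := f_mem hP
      unfold f at h1
      rw [hx, sub_add_cancel] at h1
      exact hY.out y (mem_plus hy).1 h1
    rcases List.mem_append.1 hx with h | h
    · obtain ⟨y, hy, rfl⟩ := List.mem_map.1 h
      exact key y hy _ (Real.sq_sqrt (by linarith [(mem_plus hy).2]))
    · rcases List.mem_append.1 h with h | h
      · rw [List.mem_singleton.1 h]
        exact hc.nz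
      · obtain ⟨y, hy, rfl⟩ := List.mem_map.1 (List.mem_reverse.1 h)
        refine key y hy _ ?_
        rw [neg_sq]
        exact Real.sq_sqrt (by linarith [(mem_plus hy).2])

theorem split_dec {Z : List ℝ} (hZ : Z.Pairwise (· > ·)) (p : ℝ) :
    Z = Z.filter (fun z => decide (p < z)) ++ Z.filter (fun z => decide (¬ p < z)) := by
  induction Z with
  | nil => rfl
  | cons x Z ih =>
    have h1 := List.pairwise_cons.1 hZ
    by_cases h : p < x
    · rw [List.filter_cons_of_pos (by simpa using h), List.filter_cons_of_neg (by simpa using h),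
        List.cons_append, ← ih h1.2]
    · have h2 : ∀ z ∈ x :: Z, ¬ p < z := by
        intro z hz
        rcases List.mem_cons.1 hz with rfl | hz
        · exact h
        · exact fun h3 => h (h3.trans (h1.1 z hz))
      have h3 : (x :: Z).filter (fun z => decide (p < z)) = [] :=
        List.filter_eq_nil_iff.2 fun z hz => by simpa using h2 z hz
      have h4 : (x :: Z).filter (fun z => decide (¬ p < z)) = x :: Z :=
        List.filter_eq_self.2 fun z hz => by simpa using h2 z hz
      rw [h3, h4, List.nil_append]

theorem filter_pos {Y : List ℝ} {q : ℝ} (hq : c < q) :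
    (Yp c Y).filter (fun z => decide (√(q - c) < z))
      = (Y.filter (fun y => decide (q < y))).map fun y => √(y - c) := by
  have hp : 0 ≤ √(q - c) := Real.sqrt_nonneg _
  unfold Yp
  rw [List.filter_append, List.filter_append]
  have h1 : [(0 : ℝ)].filter (fun z => decide (√(q - c) < z)) = [] :=
    List.filter_eq_nil_iff.2 fun z hz => by
      rw [List.mem_singleton.1 hz]
      simpa using hp
  have h2 : ((neg c Y).reverse).filter (fun z => decide (√(q - c) < z)) = [] :=
    List.filter_eq_nil_iff.2 fun z hz => by
      obtain ⟨y, hy, rfl⟩ := List.mem_map.1 (List.mem_reverse.1 hz)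
      have := Real.sqrt_nonneg (y - c)
      simp only [decide_eq_true_eq, not_lt]
      linarith
  rw [h1, h2, List.append_nil, List.append_nil]
  unfold pos
  rw [List.filter_map, List.filter_filter]
  congr 1
  apply List.filter_congr
  intro y _
  rw [Bool.eq_iff_iff]
  simp only [Function.comp, Bool.and_eq_true, decide_eq_true_eq]
  constructor
  · rintro ⟨h3, h4⟩
    exact (sqrt_lt hq.le h4.le).1 h3
  · intro h3
    exact ⟨(sqrt_lt hq.le (hq.trans h3).le).2 h3, hq.trans h3⟩

theorem filter_neg {Y : List ℝ} (hY : Good c Y) {q : ℝ} (hqP : q ∈ P c) (hq : c < q) :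
    (Yp c Y).filter (fun z => decide (¬ -√(q - c) < z))
      = ((Y.filter (fun y => decide (q < y))).map fun y => -√(y - c)).reverse := by
  have hp : 0 < √(q - c) := Real.sqrt_pos.2 (by linarith)
  unfold Yp
  rw [List.filter_append, List.filter_append]
  have h1 : [(0 : ℝ)].filter (fun z => decide (¬ -√(q - c) < z)) = [] :=
    List.filter_eq_nil_iff.2 fun z hz => by
      rw [List.mem_singleton.1 hz]
      simpa using hp
  have h2 : (pos c Y).filter (fun z => decide (¬ -√(q - c) < z)) = [] :=
    List.filter_eq_nil_iff.2 fun z hz => by
      obtain ⟨y, hy, rfl⟩ := List.mem_map.1 hz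
      have := Real.sqrt_nonneg (y - c)
      simp only [decide_eq_true_eq, not_not]
      linarith
  rw [h1, h2, List.nil_append, List.nil_append]
  unfold neg
  rw [List.filter_reverse, List.filter_map, List.filter_filter]
  congr 2
  apply List.filter_congr
  intro y hy
  rw [Bool.eq_iff_iff]
  simp only [Function.comp, Bool.and_eq_true, decide_eq_true_eq]
  constructor
  · rintro ⟨h3, h4⟩
    rcases lt_trichotomy q y with h5 | h5 | h5
    · exact h5
    · exact absurd (h5 ▸ hqP) (hY.out y hy)
    · exact absurd (neg_lt_neg ((sqrt_lt h4.le hq.le).2 h5)) h3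
  · intro h3
    refine ⟨fun h4 => ?_, hq.trans h3⟩
    have h5 := (sqrt_lt (hq.trans h3).le hq.le).1 (neg_lt_neg_iff.1 h4)
    exact absurd h5 (not_lt.2 h3.le)

theorem claim (hc : HQ c) (n : ℕ) : ∀ (l : List Bool), l.length ≤ n → ∀ Y : List ℝ, Good c Y →
    ∀ q ∈ P c, hh c Y (kw c (Y.filter (fun y => decide (q < y))).reverse
      (gk c q (kw c (Y.filter (fun y => decide (q < y))) l))) = act c q (hh c Y l) := by
  induction n with
  | zero =>
    intro l hl Y _ q _
    have hl0 : l = [] := List.length_eq_zero_iff.1 (Nat.le_zero.1 hl)
    subst hl0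
    have h1 : ∀ w : List ℝ, kw c w [] = [] := fun w =>
      List.length_eq_zero_iff.1 (by rw [length_kw]; rfl)
    rw [h1, gk, h1, hh_nil, act]
  | succ n ih =>
    intro l hl Y hY q hq
    cases l with
    | nil =>
      have h1 : ∀ w : List ℝ, kw c w [] = [] := fun w =>
        List.length_eq_zero_iff.1 (by rw [length_kw]; rfl)
      rw [h1, gk, h1, hh_nil, act]
    | cons b l =>
      have hl' : l.length ≤ n := by simpa using hl
      have hYp := good_Yp hc hY
      have hcq : c ≤ q := hc.lo q hq
      set w := Y.filter (fun y => decide (q < y)) with hw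
      have hwc : ∀ y ∈ w, ¬ y < c := by
        intro y hy
        have : y ∈ Y ∧ q < y := by simpa [hw] using hy
        exact not_lt.2 (hcq.trans this.2.le)
      have hwc' : ∀ y ∈ w.reverse, ¬ y < c := fun y hy => hwc y (List.mem_reverse.1 hy)
      rw [kw_cons w hwc]
      by_cases hqc : q = c
      · -- case 3
        have hwp : w.map (pre c false) = pos c Y := by
          rw [hw, hqc]; rfl
        have hwn : w.map (pre c true) = neg c Y := by
          rw [hw, hqc]; rfl
        have hg : gk c q (b :: kw c (w.map (pre c b)) l)
            = (!b) :: kap c 0 (kw c (w.map (pre c b)) l) := by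
          simp [gk, hqc]
        rw [hg, kw_cons _ hwc', List.map_reverse]
        cases b
        · have h1 : kw c (w.map (pre c true)).reverse (kap c 0 (kw c (w.map (pre c false)) l))
              = kw c (Yp c Y) l := by
            rw [hwp, hwn]
            unfold Yp
            rw [kw_append, kw_append]
            rfl
          show hh c Y (true :: kw c (w.map (pre c true)).reverse _) = _
          rw [h1, hh_true, kw_reverse, hh_false]
          simp [act, hqc]
        · have h1 : kw c (w.map (pre c false)).reverse (kap c 0 (kw c (w.map (pre c true)) l))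
              = kw c (Yp c Y).reverse l := by
            rw [hwp, hwn]
            unfold Yp
            rw [List.reverse_append, List.reverse_append, List.reverse_reverse, kw_append, kw_append]
            rfl
          show hh c Y (false :: kw c (w.map (pre c false)).reverse _) = _
          rw [h1, hh_false, hh_true]
          simp [act, hqc]
      · have hcq' : c < q := lt_of_le_of_ne hcq (Ne.symm hqc)
        by_cases hp : pre c b q ∈ P c
        · -- case 1
          have hg : gk c q (b :: kw c (w.map (pre c b)) l)
              = b :: gk c (pre c b q) (kw c (w.map (pre c b)) l) := by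
            simp [gk, hqc, hp]
          rw [hg, kw_cons _ hwc', List.map_reverse]
          cases b
          · have hw1 : w.map (pre c false)
                = (Yp c Y).filter (fun z => decide (pre c false q < z)) := by
              have := filter_pos (Y := Y) hcq'
              rw [hw]
              exact this.symm
            rw [hh_false, hh_false, hw1, ih l hl' _ hYp _ hp]
            simp [act, hqc, hp]
          · have hw1 : (w.map (pre c true)).reverse
                = (Yp c Y).filter (fun z => decide (¬ pre c true q < z)) := by
              have := filter_neg hY hq hcq'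
              rw [hw]
              exact this.symm
            have hw2 := split_dec hYp.dec (pre c true q)
            set u := (Yp c Y).filter (fun z => decide (pre c true q < z)) with hu
            rw [← hw1] at hw2
            have hw3 : (Yp c Y).reverse = w.map (pre c true) ++ u.reverse := by
              conv_lhs => rw [hw2]
              rw [List.reverse_append, List.reverse_reverse]
            have hk : ∀ k, kw c (Yp c Y).reverse k = kw c u.reverse (kw c (w.map (pre c true)) k) := by
              intro k
              rw [hw3, kw_append]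
            have hk2 : kw c (w.map (pre c true)) l = kw c u (kw c (Yp c Y).reverse l) := by
              rw [hk, kw_reverse']
            rw [hh_true, hh_true, hk, kw_reverse', hk2,
              ih _ (by rw [length_kw]; exact hl') _ hYp _ hp]
            simp [act, hqc, hp]
        · -- case 2
          have hg : ∀ m, gk c q (b :: m) = b :: m := by
            intro m
            simp [gk, hqc, hp]
          rw [hg, ← kw_cons w hwc, kw_reverse]
          obtain ⟨t, ht⟩ := hh_cons (c := c) Y b l
          rw [ht]
          simp [act, hqc, hp]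

end V8

/-- TARGET -/
theorem conj_gk (hc : HQ c) : ∃ θ : Equiv.Perm (List Bool),
    ∀ q ∈ P c, ∀ l, θ (gk c q l) = act c q (θ l) := by
  refine ⟨Equiv.ofBijective (V8.hh c []) (V8.hh_bij []), fun q hq l => ?_⟩
  exact V8.claim hc l.length l le_rfl [] ⟨List.Pairwise.nil, by simp⟩ q hq

end Pool.Agent.Helper79_Real.V8
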