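import Pool.Agent.Helper79_Real.HBase

namespace Pool.Agent.Helper79_Real.V9

open Set

variable {c : ℝ}

namespace V9

theorem f_pre {b : Bool} {q : ℝ} (h : c ≤ q) : f c (pre c b q) = q := by
  unfold f pre
  have h1 : √(q - c) ^ 2 = q - c := Real.sq_sqrt (by linarith)
  cases b
  · simp only [Bool.false_eq_true, if_false]
    linarith
  · simp only [if_true]
    rw [neg_sq, h1]
    ring

theorem pre_notMem {b : Bool} {x : ℝ} (hx : x ∉ P c) (h : c ≤ x) : pre c b x ∉ P c := fun h1 =>
  hx (by
    have h2 := P_f h1
    rwa [f_pre h] at h2)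

theorem lt_preF {x p : ℝ} : p < pre c false x ↔ p < 0 ∧ x ≤ c ∨ c < x ∧ (p < 0 ∨ f c p < x) := by
  unfold pre f
  simp only [Bool.false_eq_true, if_false]
  rcases le_or_gt x c with h | h
  · have h1 : √(x - c) = 0 := Real.sqrt_eq_zero_of_nonpos (by linarith)
    rw [h1]
    constructor
    · exact fun h2 => Or.inl ⟨h2, h⟩
    · rintro (h2 | ⟨h2, -⟩)
      · exact h2.1
      · linarith
  · rcases lt_or_ge p 0 with h2 | h2
    · constructor
      · exact fun _ => Or.inr ⟨h, Or.inl h2⟩
      · exact fun _ => lt_of_lt_of_le h2 (Real.sqrt_nonneg _)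
    · rw [Real.lt_sqrt h2]
      constructor
      · exact fun h3 => Or.inr ⟨h, Or.inr (by linarith)⟩
      · rintro (⟨-, h3⟩ | ⟨-, h3 | h3⟩)
        · linarith
        · linarith
        · linarith

/-- comparison with the positive preimage -/
theorem lt_pre_false {x p : ℝ} (h : c < x) : p < pre c false x ↔ p < 0 ∨ f c p < x := by
  rw [lt_preF]
  constructor
  · rintro (⟨-, h3⟩ | ⟨-, h3⟩)
    · linarith
    · exact h3
  · exact fun h3 => Or.inr ⟨h, h3⟩

/-- comparison with the negative preimage -/
theorem lt_pre_true {x p : ℝ} : p < pre c true x ↔ p < 0 ∧ x < f c p := by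
  unfold pre f
  simp only [if_true]
  rw [lt_neg]
  constructor
  · intro h
    have h1 : 0 < -p := lt_of_le_of_lt (Real.sqrt_nonneg _) h
    rw [Real.sqrt_lt' h1] at h
    exact ⟨by linarith, by nlinarith⟩
  · rintro ⟨h1, h2⟩
    rw [Real.sqrt_lt' (by linarith)]
    nlinarith

/-- a point with image `q` is one of the two preimages -/
theorem eq_preF {p q : ℝ} (hp : 0 ≤ p) (h : f c p = q) : pre c false q = p := by
  unfold pre
  unfold f at h
  simp only [Bool.false_eq_true, if_false]
  have h1 : q - c = p ^ 2 := by linarith
  rw [h1, Real.sqrt_sq hp]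

theorem eq_preT {p q : ℝ} (hp : p < 0) (h : f c p = q) : pre c true q = p := by
  unfold pre
  unfold f at h
  simp only [if_true]
  have h1 : q - c = (-p) ^ 2 := by nlinarith
  rw [h1, Real.sqrt_sq (by linarith), neg_neg]

theorem ne_of_nm {x p : ℝ} (hx : x ∉ P c) (hp : p ∈ P c) : p ≠ x := fun h => hx (h ▸ hp)

/-- the crossing depends only on the position -/
theorem same (l : List Bool) : ∀ x y : ℝ, x ∉ P c → y ∉ P c →
    (∀ p ∈ P c, p < x ↔ p < y) → kap c x l = kap c y l := by
  induction l with
  | nil => exact fun _ _ _ _ _ => rfl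
  | cons b l ih =>
    intro x y hx hy h
    have hcx : c ≠ x := ne_of_nm hx c_mem
    have hcy : c ≠ y := ne_of_nm hy c_mem
    by_cases h1 : x < c
    · have h2 : y < c := by
        by_contra h3
        have h4 : c < y := lt_of_le_of_ne (not_lt.1 h3) hcy
        have := (h c c_mem).2 h4
        linarith
      simp [kap, h1, h2]
    · have h1' : c < x := lt_of_le_of_ne (not_lt.1 h1) hcx
      have h2 : c < y := (h c c_mem).1 h1'
      have h2' : ¬ y < c := not_lt.2 h2.le
      have h3 : kap c (pre c b x) l = kap c (pre c b y) l := by
        refine ih _ _ (pre_notMem hx h1'.le) (pre_notMem hy h2.le) fun p hp => ?_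
        have hfp := P_f hp
        have h5 := h _ hfp
        cases b
        · rw [lt_pre_false h1', lt_pre_false h2, h5]
        · rw [lt_pre_true, lt_pre_true]
          have h6 : x < f c p ↔ y < f c p := by
            have h7 := ne_of_nm hx hfp
            have h8 := ne_of_nm hy hfp
            constructor
            · intro h9
              rcases lt_or_gt_of_ne h8 with h10 | h10
              · have := h5.2 h10
                linarith
              · exact h10
            · intro h9
              rcases lt_or_gt_of_ne h7 with h10 | h10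
              · have := h5.1 h10
                linarith
              · exact h10
          rw [h6]
      simp [kap, h1, h2', h3]

theorem f_eq_c {p : ℝ} (h : f c p = c) : p = 0 := by
  unfold f at h
  have : p ^ 2 = 0 := by linarith
  exact pow_eq_zero_iff (two_ne_zero) |>.1 this

/-- a loop is a product of two crossings -/
theorem cross (hc : HQ c) (l : List Bool) : ∀ q x y : ℝ, q ∈ P c → x < q → q < y → x ∉ P c →
    y ∉ P c → (∀ p ∈ P c, x < p → p < y → p = q) →
    gk c q l = kap c y (kap c x l) ∧ gk c q l = kap c x (kap c y l) := by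
  induction l with
  | nil => exact fun _ _ _ _ _ _ _ _ _ => ⟨rfl, rfl⟩
  | cons b l ih =>
    intro q x y hq hxq hqy hx hy huniq
    by_cases h : q = c
    · subst h
      have hy' : ¬ y < q := not_lt.2 hqy.le
      have h0 : ∀ b' : Bool, kap q (pre q b' y) l = kap q 0 l := by
        intro b'
        refine same l _ _ (pre_notMem hy hqy.le) hc.nz fun p hp => ?_
        have hfp := P_f hp
        have h1 : ¬ f q p < y := by
          intro h2
          have h3 := huniq _ hfp (lt_of_lt_of_le hxq (hc.lo _ hfp)) h2
          exact hc.nz (f_eq_c h3 ▸ hp)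
        cases b'
        · rw [lt_pre_false hqy]
          constructor
          · rintro (h2 | h2)
            · exact h2
            · exact absurd h2 h1
          · exact Or.inl
        · rw [lt_pre_true]
          constructor
          · exact fun h2 => h2.1
          · exact fun h2 => ⟨h2, lt_of_le_of_ne (not_lt.1 h1) (ne_of_nm hy hfp).symm⟩
      constructor
      · simp [gk, kap, hxq, hy', h0]
      · simp [gk, kap, hxq, hy', h0]
    · have hcq : c < q := lt_of_le_of_ne (hc.lo q hq) (Ne.symm h)
      have hcx : c < x := by
        by_contra h1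
        have h2 : x < c := lt_of_le_of_ne (not_lt.1 h1) (ne_of_nm hx c_mem).symm
        exact h (huniq c c_mem h2 (hcq.trans hqy)).symm
      have hcy : c < y := hcq.trans hqy
      have hx' : ¬ x < c := not_lt.2 hcx.le
      have hy' : ¬ y < c := not_lt.2 hcy.le
      -- a post-critical point between the preimages has image `q`
      have key : ∀ p ∈ P c, x < f c p → f c p < y → f c p = q := fun p hp h1 h2 =>
        huniq _ (P_f hp) h1 h2
      by_cases h2 : pre c b q ∈ P c
      · have h3 : gk c (pre c b q) l = kap c (pre c b y) (kap c (pre c b x) l) ∧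
            gk c (pre c b q) l = kap c (pre c b x) (kap c (pre c b y) l) := by
          cases b
          · refine ih _ _ _ h2 ?_ ?_ (pre_notMem hx hcx.le) (pre_notMem hy hcy.le) ?_
            · unfold pre
              simp only [Bool.false_eq_true, if_false]
              exact Real.sqrt_lt_sqrt (by linarith) (by linarith)
            · unfold pre
              simp only [Bool.false_eq_true, if_false]
              exact Real.sqrt_lt_sqrt (by linarith) (by linarith)
            · intro p hp h4 h5
              have hp0 : 0 ≤ p := by
                refine le_trans ?_ h4.le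
                unfold pre
                simp only [Bool.false_eq_true, if_false]
                exact Real.sqrt_nonneg _
              have h6 : ¬ p < pre c false x := not_lt.2 h4.le
              rw [lt_pre_false hcx, not_or] at h6
              rw [lt_pre_false hcy] at h5
              have h7 : f c p < y := h5.resolve_left (not_lt.2 hp0)
              have h8 : x < f c p := lt_of_le_of_ne (not_lt.1 h6.2) (ne_of_nm hx (P_f hp)).symm
              exact (eq_preF hp0 (key p hp h8 h7)).symm
          · have h3 := ih (pre c true q) (pre c true y) (pre c true x) h2 ?_ ?_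
              (pre_notMem hy hcy.le) (pre_notMem hx hcx.le) ?_
            · exact ⟨h3.2, h3.1⟩
            · unfold pre
              simp only [if_true]
              exact neg_lt_neg (Real.sqrt_lt_sqrt (by linarith) (by linarith))
            · unfold pre
              simp only [if_true]
              exact neg_lt_neg (Real.sqrt_lt_sqrt (by linarith) (by linarith))
            · intro p hp h4 h5
              rw [lt_pre_true] at h5
              have h6 : ¬ p < pre c true y := not_lt.2 h4.le
              rw [lt_pre_true, not_and] at h6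
              have h7 := h6 h5.1
              have h8 : f c p < y := lt_of_le_of_ne (not_lt.1 h7) (ne_of_nm hy (P_f hp))
              exact (eq_preT h5.1 (key p hp h5.2 h8)).symm
        constructor
        · simp [gk, kap, h, hx', hy', h2, ← h3.1]
        · simp [gk, kap, h, hx', hy', h2, ← h3.2]
      · have h3 : ∀ m : List Bool, kap c (pre c b x) m = kap c (pre c b y) m := by
          intro m
          refine same m _ _ (pre_notMem hx hcx.le) (pre_notMem hy hcy.le) fun p hp => ?_
          have hfx := ne_of_nm hx (P_f hp)
          have hfy := ne_of_nm hy (P_f hp)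
          cases b
          · rw [lt_pre_false hcx, lt_pre_false hcy]
            constructor
            · rintro (h4 | h4)
              · exact Or.inl h4
              · exact Or.inr (by linarith)
            · rintro (h4 | h4)
              · exact Or.inl h4
              · by_contra h5
                rw [not_or] at h5
                have h6 : x < f c p := lt_of_le_of_ne (not_lt.1 h5.2) hfx.symm
                exact h2 (eq_preF (not_lt.1 h5.1) (key p hp h6 h4) ▸ hp)
          · rw [lt_pre_true, lt_pre_true]
            constructor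
            · rintro ⟨h4, h5⟩
              refine ⟨h4, ?_⟩
              by_contra h6
              have h7 : f c p < y := lt_of_le_of_ne (not_lt.1 h6) hfy
              exact h2 (eq_preT h4 (key p hp h5 h7) ▸ hp)
            · rintro ⟨h4, h5⟩
              exact ⟨h4, by linarith⟩
        constructor
        · simp [gk, kap, h, hx', hy', h2, h3, kap_kap]
        · simp [gk, kap, h, hx', hy', h2, h3, kap_kap]

theorem gapR (hc : HQ c) {q u : ℝ} (h : q < u) : ∃ z, q < z ∧ z < u ∧ ∀ p ∈ P c, q < p → z < p := by
  have hfin : (insert u (P c ∩ Ioi q)).Finite := (hc.fin.inter_of_left _).insert u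
  obtain ⟨m, hm, hmin⟩ := Set.exists_min_image _ id hfin ⟨u, mem_insert _ _⟩
  have hqm : q < m := by
    rcases hm with rfl | hm
    · exact h
    · exact hm.2
  have hmu : m ≤ u := hmin u (mem_insert _ _)
  refine ⟨(q + m) / 2, by linarith, by linarith, fun p hp hqp => ?_⟩
  have := hmin p (mem_insert_of_mem _ ⟨hp, hqp⟩)
  simp only [id] at this
  linarith

theorem gapL (hc : HQ c) (q : ℝ) : ∃ z, z < q ∧ ∀ p ∈ P c, p < q → p < z := by
  have hfin : (insert (q - 1) (P c ∩ Iio q)).Finite := (hc.fin.inter_of_left _).insert _
  obtain ⟨m, hm, hmax⟩ := Set.exists_max_image _ id hfin ⟨q - 1, mem_insert _ _⟩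
  have hmq : m < q := by
    rcases hm with rfl | hm
    · linarith
    · exact hm.2
  refine ⟨(q + m) / 2, by linarith, fun p hp hpq => ?_⟩
  have := hmax p (mem_insert_of_mem _ ⟨hp, hpq⟩)
  simp only [id] at this
  linarith

theorem kapP_mul_self (x : ℝ) : kapP c x * kapP c x = 1 :=
  Equiv.ext fun l => kap_kap c x l

theorem kapP_inv (x : ℝ) : (kapP c x)⁻¹ = kapP c x := by
  rw [inv_eq_iff_mul_eq_one]
  exact kapP_mul_self x

theorem gkP_eq (hc : HQ c) {q x y : ℝ} (hq : q ∈ P c) (hxq : x < q) (hqy : q < y) (hx : x ∉ P c)
    (hy : y ∉ P c) (huniq : ∀ p ∈ P c, x < p → p < y → p = q) :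
    gkP c q = kapP c x * kapP c y :=
  Equiv.ext fun l => (cross hc l q x y hq hxq hqy hx hy huniq).2

theorem prod_mem (hc : HQ c) (n : ℕ) : ∀ x y : ℝ, x < y → x ∉ P c → y ∉ P c →
    (P c ∩ Ioo x y).ncard = n → kapP c x * kapP c y ∈ Subgroup.closure (gkP c '' P c) := by
  induction n using Nat.strong_induction_on with
  | _ n ih =>
    intro x y hxy hx hy hn
    have hfin : (P c ∩ Ioo x y).Finite := hc.fin.inter_of_left _
    rcases (P c ∩ Ioo x y).eq_empty_or_nonempty with he | hne
    · have h1 : kapP c x = kapP c y := by
        refine Equiv.ext fun l => same l x y hx hy fun p hp => ?_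
        constructor
        · exact fun h => h.trans hxy
        · intro h
          by_contra h2
          have h3 : p ∈ P c ∩ Ioo x y := ⟨hp, lt_of_le_of_ne (not_lt.1 h2) (ne_of_nm hx hp).symm, h⟩
          rw [he] at h3
          exact h3
      rw [h1, kapP_mul_self]
      exact Subgroup.one_mem _
    · obtain ⟨q, hq, hmin⟩ := Set.exists_min_image _ id hfin hne
      obtain ⟨z, hqz, hzy, hz⟩ := gapR hc hq.2.2
      have hzP : z ∉ P c := fun h => lt_irrefl z (hz z h hqz)
      have h1 : kapP c x * kapP c z ∈ Subgroup.closure (gkP c '' P c) := by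
        rw [← gkP_eq hc hq.1 hq.2.1 hqz hx hzP fun p hp h2 h3 => ?_]
        · exact Subgroup.subset_closure ⟨q, hq.1, rfl⟩
        · have h4 := hmin p ⟨hp, h2, h3.trans hzy⟩
          simp only [id] at h4
          by_contra h5
          have h6 := hz p hp (lt_of_le_of_ne h4 (Ne.symm h5))
          linarith
      have hss : P c ∩ Ioo z y ⊂ P c ∩ Ioo x y := by
        refine ⟨fun p hp => ⟨hp.1, (hq.2.1.trans hqz).trans hp.2.1, hp.2.2⟩, fun h => ?_⟩
        have := (h hq).2.1
        linarith
      have h2 : kapP c z * kapP c y ∈ Subgroup.closure (gkP c '' P c) := by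
        refine ih _ ?_ z y hzy hzP hy rfl
        rw [← hn]
        exact Set.ncard_lt_ncard hss hfin
      have h3 : kapP c x * kapP c y = (kapP c x * kapP c z) * (kapP c z * kapP c y) := by
        calc kapP c x * kapP c y = kapP c x * (kapP c z * kapP c z) * kapP c y := by
              rw [kapP_mul_self, mul_one]
          _ = _ := by simp only [mul_assoc]
      rw [h3]
      exact Subgroup.mul_mem _ h1 h2

end V9

/-- TARGET -/
theorem G0_eq (hc : HQ c) : G0 c = Subgroup.closure (gkP c '' P c) := by
  apply le_antisymm
  · rw [G0, Subgroup.closure_le]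
    rintro g ⟨x, y, hx, hy, rfl⟩
    rcases lt_trichotomy x y with h | rfl | h
    · exact V9.prod_mem hc _ x y h hx hy rfl
    · rw [SetLike.mem_coe, V9.kapP_mul_self]
      exact Subgroup.one_mem _
    · have h1 := Subgroup.inv_mem _ (V9.prod_mem hc _ y x h hy hx rfl)
      rwa [mul_inv_rev, V9.kapP_inv, V9.kapP_inv] at h1
  · rw [Subgroup.closure_le]
    rintro g ⟨q, hq, rfl⟩
    obtain ⟨x, hx, hx'⟩ := V9.gapL hc q
    obtain ⟨y, hy, -, hy'⟩ := V9.gapR hc (lt_add_one q)
    have hxP : x ∉ P c := fun h => lt_irrefl x (hx' x h hx)
    have hyP : y ∉ P c := fun h => lt_irrefl y (hy' y h hy)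
    refine Subgroup.subset_closure ⟨x, y, hxP, hyP, V9.gkP_eq hc hq hx hy hxP hyP ?_⟩
    intro p hp h1 h2
    rcases lt_trichotomy p q with h3 | h3 | h3
    · have := hx' p hp h3
      linarith
    · exact h3
    · have := hy' p hp h3
      linarith

end Pool.Agent.Helper79_Real.V9
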