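import Pool.Agent.Helper79_Real.V4
import Pool.Agent.Helper79_Real.V5
import Pool.Agent.Helper79_Real.V6
import Pool.Agent.Helper79_Real.V7
import Pool.Agent.Helper79_Real.V8
import Pool.Agent.Helper79_Real.V9

/-!
Lemma job V12 (identification of the monodromy group for a non-real base point).  Definitions:
Pool/Agent/Helper79_Real/{Defs,HDefs,HBase}.lean on origin/main (copy the folder to your working tree and
`lake build Pool.Agent.Helper79_Real.HBase`).

Plain-words proof.  Let `E : List Bool ≃ Vert c t` be the labelling (`vert_equiv`) and `Ψ : Equiv.Perm (List Bool) ≃* Equiv.Perm (Vert c t)` the conjugation by `E`.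
(1) `Ψ` maps `G0 c` onto `IMG c t`:
 * for `x, y ∉ P c`, `realize` gives a loop `γ` at `t` such that `Ψ (kapP c y * kapP c x)` is induced by `γ` (`(E l).1 = l.length`, `(E l).2 = phi c t l`, `length_kap`); so the generators of `G0 c` are mapped into
   `IMG c t`;
 * if `g` is induced by a loop `γ` at `t` avoiding `PC c`, extend `γ` to `ℝ` (`Set.IccExtend`) and apply `path_word` (`γ 0 = γ 1 = t`, so `0 < t.im * t.im` and the word `w` has even length): for every `l` there is
   a lift from `phi c t l` to `phi c t (kw c w l)`; by `lift_unique` (the lift given by `Induces` starts at the same point) `g (E l)` has level `l.length` and point `phi c t (kw c w l)`, i.e. `g (E l) = E (kw c w l)`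
   (elements of `Vert` with the same level and the same point are equal).  So `g = Ψ (kwP)`, where `l ↦ kw c w l` is a product of an even number of crossings, which is in `G0 c`.
(2) `θ` from `conj_gk`: conjugation by `θ` maps `gkP c q` to `gen c q` for all `q ∈ P c`, so it maps `closure (gkP c '' P c) = G0 c` (`G0_eq`) onto `K c = closure (gen c '' P c)`.
Hence `IMG c t ≃* G0 c ≃* K c`.
-/

namespace Pool.Agent.Helper79_Real.V12

open V4 (lift_unique)

open V5 (vert_equiv)

open V6 (path_word)

open V7 (realize)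

open V8 (conj_gk)

open V9 (G0_eq)

open Set

variable {c : ℝ}

theorem vert_ext {c t : ℂ} {u v : Vert c t} (h1 : u.1 = v.1) (h2 : (u.2 : ℂ) = v.2) : u = v := by
  obtain ⟨n, z, hz⟩ := u
  obtain ⟨m, w, hw⟩ := v
  dsimp only at h1
  subst h1
  dsimp only at h2
  subst h2
  rfl

theorem kw_mem_G0 : ∀ (w : List ℝ), (∀ x ∈ w, x ∉ P c) → Even w.length →
    ∃ g ∈ G0 c, ∀ l, g l = kw c w l
  | [], _, _ => ⟨1, (G0 c).one_mem, fun l => rfl⟩
  | [x], _, he => by
    simp at he
  | x :: y :: w, hw, he => by
    have he' : Even w.length := by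
      simp only [List.length_cons] at he
      rw [Nat.even_iff] at he ⊢
      omega
    obtain ⟨g, hg, hgl⟩ := kw_mem_G0 w (fun z hz => hw z (by simp [hz])) he'
    refine ⟨g * (kapP c y * kapP c x), (G0 c).mul_mem hg (Subgroup.subset_closure
      ⟨y, x, hw y (by simp), hw x (by simp), rfl⟩), fun l => ?_⟩
    rw [Equiv.Perm.mul_apply, Equiv.Perm.mul_apply, hgl]
    rfl

/-- TARGET -/
theorem img_iso (hc : HQ c) {t : ℂ} (ht : t.im ≠ 0) : Nonempty (IMG (c : ℂ) t ≃* K c) := by
  obtain ⟨E, hE⟩ := vert_equiv (c := c) ht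
  obtain ⟨θ, hθ⟩ := conj_gk hc
  have hE1 : ∀ l, (E l).1 = l.length := fun l => (hE l).1
  have hE2 : ∀ l, ((E l).2 : ℂ) = phi c t l := fun l => (hE l).2
  have h1 : (G0 c).map E.permCongrHom.toMonoidHom = IMG (c : ℂ) t := by
    apply le_antisymm
    · rw [Subgroup.map_le_iff_le_comap, G0, Subgroup.closure_le]
      rintro g ⟨x, y, hx, hy, rfl⟩
      show E.permCongrHom (kapP c x * kapP c y) ∈ IMG (c : ℂ) t
      obtain ⟨γ, h0, h1, hγ, hl⟩ := realize (c := c) ht hy hx
      refine Subgroup.subset_closure ⟨γ, h0, h1, hγ, ?_⟩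
      intro v
      obtain ⟨l, rfl⟩ := E.surjective v
      have e1 : E.permCongrHom (kapP c x * kapP c y) (E l) = E (kap c x (kap c y l)) := by
        show E ((kapP c x * kapP c y) (E.symm (E l))) = _
        rw [E.symm_apply_apply]
        rfl
      rw [e1]
      refine ⟨?_, ?_⟩
      · rw [hE1, hE1, length_kap, length_kap]
      · rw [hE2, hE2, hE1]
        exact hl l
    · rw [IMG, Subgroup.closure_le]
      rintro g ⟨γ, h0, h1, hγ, hg⟩
      set γ' : ℝ → ℂ := Set.IccExtend zero_le_one γ with hγ'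
      have hγc : Continuous γ' := γ.continuous.Icc_extend'
      have e0 : γ' 0 = t := by
        rw [hγ', Set.IccExtend_of_mem zero_le_one γ (Set.left_mem_Icc.2 zero_le_one)]
        exact h0
      have e1 : γ' 1 = t := by
        rw [hγ', Set.IccExtend_of_mem zero_le_one γ (Set.right_mem_Icc.2 zero_le_one)]
        exact h1
      have hav : ∀ s ∈ Icc (0:ℝ) 1, γ' s ∉ PC (c : ℂ) := by
        intro s hs
        rw [hγ', Set.IccExtend_of_mem zero_le_one γ hs]
        exact hγ _
      obtain ⟨w, hw, hev, hlf⟩ := path_word hc γ' hγc.continuousOn hav (by rw [e0]; exact ht) (by rw [e1]; exact ht)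
      rw [e0, e1] at hev
      have hev' : Even w.length := hev.2 (mul_self_pos.2 ht)
      obtain ⟨k, hk, hkl⟩ := kw_mem_G0 w hw hev'
      refine ⟨k, hk, ?_⟩
      apply Equiv.ext
      intro v
      obtain ⟨l, rfl⟩ := E.surjective v
      have e2 : (E.permCongrHom.toMonoidHom k) (E l) = E (kw c w l) := by
        show E (k (E.symm (E l))) = _
        rw [E.symm_apply_apply, hkl]
      rw [e2]
      obtain ⟨hg1, Γ2, hs, ht2, hΓ2⟩ := hg (E l)
      obtain ⟨Γ, hΓc, hΓ0, hΓ1, hΓ⟩ := hlf l
      rw [hE1] at hg1 hΓ2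
      rw [hE2] at hs
      set Γ' : ℝ → ℂ := Set.IccExtend zero_le_one Γ2 with hΓ'
      have hΓ'c : Continuous Γ' := Γ2.continuous.Icc_extend'
      have f0 : Γ' 0 = phi c t l := by
        rw [hΓ', Set.IccExtend_of_mem zero_le_one Γ2 (Set.left_mem_Icc.2 zero_le_one)]
        exact hs
      have f1 : Γ' 1 = (g (E l)).2 := by
        rw [hΓ', Set.IccExtend_of_mem zero_le_one Γ2 (Set.right_mem_Icc.2 zero_le_one)]
        exact ht2
      have f2 : ∀ s ∈ Icc (0:ℝ) 1, (fC c)^[l.length] (Γ' s) = γ' s := by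
        intro s hs
        rw [hΓ', Set.IccExtend_of_mem zero_le_one Γ2 hs, hγ', Set.IccExtend_of_mem zero_le_one γ hs]
        exact hΓ2 _
      have f3 := lift_unique c l.length γ' Γ Γ' hav hΓc hΓ'c.continuousOn hΓ f2
        (s0 := 0) (Set.left_mem_Icc.2 zero_le_one) (by rw [f0, hΓ0, e0]) 1 (Set.right_mem_Icc.2 zero_le_one)
      rw [hΓ1, f1, e1] at f3
      apply vert_ext
      · rw [hE1, length_kw, hg1]
      · rw [hE2, f3]
  have h2 : (G0 c).map (MulAut.conj θ).toMonoidHom = K c := by
    rw [G0_eq hc, MonoidHom.map_closure, K]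
    congr 1
    rw [Set.image_image]
    apply Set.image_congr
    intro q hq
    apply Equiv.ext
    intro l
    show θ (gk c q (θ⁻¹ l)) = act c q l
    rw [hθ q hq]
    congr 1
    exact θ.apply_symm_apply l
  have e1 := (G0 c).equivMapOfInjective E.permCongrHom.toMonoidHom E.permCongrHom.injective
  have e2 := (G0 c).equivMapOfInjective (MulAut.conj θ).toMonoidHom (MulAut.conj θ).injective
  exact ⟨(MulEquiv.subgroupCongr h1.symm).trans (e1.symm.trans (e2.trans (MulEquiv.subgroupCongr h2)))⟩

end Pool.Agent.Helper79_Real.V12
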