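import Pool.Agent.Helper79_Real.V10
import Pool.Agent.Helper79_Real.V11
import Pool.Agent.Helper79_Real.V12
import Pool.Agent.Helper79_Real.Range

namespace Pool.Agent.Helper79_Real

open Filter

variable {c : ℝ}

theorem P_infinite_pos (hc : 0 < c) : ¬ (P c).Finite := by
  have h0 : ∀ n : ℕ, 0 ≤ (f c)^[n] 0 ∧ (f c)^[n] 0 < (f c)^[n + 1] 0 := by
    intro n
    induction n with
    | zero => simp [f, hc]
    | succ n ih =>
      obtain ⟨h1, h2⟩ := ih
      refine ⟨by linarith, ?_⟩
      rw [Function.iterate_succ_apply' (f c) (n + 1), Function.iterate_succ_apply' (f c) n]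
      rw [Function.iterate_succ_apply' (f c) n] at h2
      have key : ∀ x : ℝ, 0 ≤ x → x < f c x → f c x < f c (f c x) := by
        intro x hx hxf
        have : x ^ 2 < (f c x) ^ 2 := by nlinarith
        have e1 : f c x = x ^ 2 + c := rfl
        have e2 : f c (f c x) = (f c x) ^ 2 + c := rfl
        rw [e2]; nlinarith
      exact key _ h1 h2
  have hmono : StrictMono (fun n : ℕ => (f c)^[n] 0) :=
    strictMono_nat_of_lt_succ (fun n => (h0 n).2)
  have hinj : Function.Injective (fun n : ℕ => (f c)^[n + 1] 0) := by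
    intro a b hab
    have := hmono.injective hab
    omega
  intro hfin
  have : (Set.range (fun n : ℕ => (f c)^[n + 1] 0)).Infinite :=
    Set.infinite_range_of_injective hinj
  apply this
  apply hfin.subset
  rintro _ ⟨n, rfl⟩; exact ⟨n, rfl⟩

theorem HQ_of (hfin : (P c).Finite) (h0 : (0:ℝ) ∉ P c) : HQ c := by
  have hpos : ¬ 0 < c := fun h => P_infinite_pos h hfin
  have hne : c ≠ 0 := by
    rintro rfl
    exact h0 ⟨0, by simp [f]⟩
  have hneg : c < 0 := lt_of_le_of_ne (not_lt.1 hpos) hne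
  have h2 : -2 ≤ c := by
    by_contra hlt
    exact P_infinite (not_le.1 hlt) hfin
  refine ⟨hfin, h0, hneg, ?_⟩
  have step : ∀ x : ℝ, c ≤ x → x ≤ -c → c ≤ f c x ∧ f c x ≤ -c := by
    intro x h3 h4
    have e : f c x = x ^ 2 + c := rfl
    have h5 : x ^ 2 ≤ (-c) ^ 2 := by
      apply sq_le_sq'
      · linarith
      · linarith
    have h6 : (-c) ^ 2 = c ^ 2 := by ring
    rw [h6] at h5
    rw [e]
    constructor
    · nlinarith [sq_nonneg x]
    · nlinarith
  have key : ∀ n : ℕ, c ≤ (f c)^[n + 1] 0 ∧ (f c)^[n + 1] 0 ≤ -c := by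
    intro n
    induction n with
    | zero => exact step 0 hneg.le (by linarith)
    | succ n ih =>
      rw [Function.iterate_succ_apply']
      exact step _ ih.1 ih.2
  rintro q ⟨n, rfl⟩
  exact (key n).1

theorem P_of_PC (hfin : (PC (c : ℂ)).Finite) : (P c).Finite := by
  have : P c ⊆ (fun x : ℝ => (x : ℂ)) ⁻¹' (PC (c : ℂ)) := by
    intro x hx
    exact (V4.PC_iff c _).2 ⟨x, hx, rfl⟩
  exact (hfin.preimage (Complex.ofReal_injective.injOn)).subset this

theorem img_growth (hc : HQ c) {t : ℂ} (ht : t ∉ PC (c : ℂ)) :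
    Nonempty (IMG (c : ℂ) t ≃* K c) := by
  by_cases h : t.im = 0
  · have e : t = ((t.re : ℝ) : ℂ) := by
      apply Complex.ext <;> simp [h]
    have hx : t.re ∉ P c := by
      intro hx; apply ht; rw [e]; exact (V4.PC_iff c _).2 ⟨_, hx, rfl⟩
    obtain ⟨e1⟩ := V10.base_change hx
    have him : (((t.re : ℝ) : ℂ) + Complex.I).im ≠ 0 := by simp
    obtain ⟨e2⟩ := V12.img_iso hc him
    rw [e]
    exact ⟨e1.trans e2⟩
  · exact V12.img_iso hc h

end Pool.Agent.Helper79_Real
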