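import Pool.Agent.Helper79_Real.RBase

/-!
Lemma job K0 (conformal disks are topological disks).  Definitions: Pool/Agent/Helper79_Real/{Defs,HDefs,RDefs,RBase}.lean on origin/main
(copy the folder to your working tree and `lake build Pool.Agent.Helper79_Real.RBase`).

Plain-words proof.  Let `φ` be differentiable and injective on the unit ball `B` with image `Q`.  `φ` is not locally constant at any point of `B` (injective), so by the open mapping theorem for
holomorphic functions (`AnalyticOnNhd`/`AnalyticAt.eventually_constant_or_nhds_le_map_nhds`, `AnalyticOnNhd.is_constant_or_isOpen`) the restriction of `φ` to `B` is an open map; so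
`Q = φ '' B` is open, and the bijection `B → Q` is a continuous open map, hence a homeomorphism (`Equiv.toHomeomorphOfContinuousOpen` or `Homeomorph.homeomorphOfContinuousOpen`).
-/

namespace Pool.Agent.Helper79_Real.K0

/-- TARGET -/
theorem BD_isDisk {Q : Set ℂ} (h : BD Q) : IsDisk Q := by
  obtain ⟨φ, hφ, hinj, rfl⟩ := h
  have han : AnalyticOnNhd ℂ φ (Metric.ball 0 1) := hφ.analyticOnNhd Metric.isOpen_ball
  have hopen : ∀ s ⊆ Metric.ball (0 : ℂ) 1, IsOpen s → IsOpen (φ '' s) := by
    rcases han.is_constant_or_isOpen (convex_ball (0 : ℂ) 1).isPreconnected with ⟨w, hw⟩ | h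
    · exfalso
      have h0 : (0 : ℂ) ∈ Metric.ball (0 : ℂ) 1 := by simp
      have h1 : (1 / 2 : ℂ) ∈ Metric.ball (0 : ℂ) 1 := by
        rw [mem_ball_zero_iff]
        norm_num
      have h2 := hinj h0 h1 ((hw _ h0).trans (hw _ h1).symm)
      norm_num at h2
    · exact h
  refine ⟨hopen _ (subset_refl _) Metric.isOpen_ball, ⟨?_⟩⟩
  have hcont : Continuous (Equiv.Set.imageOfInjOn φ (Metric.ball (0 : ℂ) 1) hinj) := by
    refine Continuous.subtype_mk ?_ _
    exact continuousOn_iff_continuous_domRestrict.1 hφ.continuousOn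
  have hop : IsOpenMap (Equiv.Set.imageOfInjOn φ (Metric.ball (0 : ℂ) 1) hinj) := by
    intro s hs
    have h1 : IsOpen (Subtype.val '' s : Set ℂ) := Metric.isOpen_ball.isOpenMap_subtype_val s hs
    have h2 : IsOpen (φ '' (Subtype.val '' s)) := hopen _ (by
      rintro _ ⟨x, _, rfl⟩
      exact x.2) h1
    have h3 : (Equiv.Set.imageOfInjOn φ (Metric.ball (0 : ℂ) 1) hinj) '' s =
        Subtype.val ⁻¹' (φ '' (Subtype.val '' s)) := by
      ext y
      constructor
      · rintro ⟨x, hx, rfl⟩
        exact ⟨x, ⟨x, hx, rfl⟩, rfl⟩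
      · rintro ⟨_, ⟨x, hx, rfl⟩, h⟩
        exact ⟨x, hx, Subtype.ext h⟩
    rw [h3]
    exact h2.preimage continuous_subtype_val
  exact ((Equiv.Set.imageOfInjOn φ (Metric.ball (0 : ℂ) 1) hinj).toHomeomorphOfContinuousOpen
    hcont hop).symm

end Pool.Agent.Helper79_Real.K0
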