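import Pool.Agent.Helper79_Real.RBase

namespace Pool.Agent.Helper79_Real.K1

open Set Metric Filter Topology

/-- an injective holomorphic function has nonzero derivative at the centre -/
theorem K1_deriv_ne {φ : ℂ → ℂ} {r : ℝ} (hr : 0 < r) (hd : DifferentiableOn ℂ φ (Metric.ball 0 r))
    (hi : InjOn φ (Metric.ball 0 r)) : deriv φ 0 ≠ 0 := by
  intro h0
  have hmem : Metric.ball (0:ℂ) r ∈ 𝓝 (0:ℂ) := ball_mem_nhds _ hr
  have han : AnalyticAt ℂ φ 0 := hd.analyticAt hmem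
  have han2 : AnalyticAt ℂ (fun z => φ z - φ 0) 0 := han.sub analyticAt_const
  -- not locally constant
  have hnc : ¬ ∀ᶠ z in 𝓝 (0:ℂ), φ z - φ 0 = 0 := by
    intro h
    have h2 : ∀ᶠ z in 𝓝 (0:ℂ), φ z - φ 0 = 0 ∧ z ∈ Metric.ball (0:ℂ) r := h.and hmem
    obtain ⟨e, he, hb⟩ := Metric.eventually_nhds_iff_ball.1 h2
    have hz : ((e/2 : ℝ) : ℂ) ∈ Metric.ball (0:ℂ) e := by
      rw [mem_ball_zero_iff, Complex.norm_real, Real.norm_of_nonneg (by linarith)]; linarith
    obtain ⟨h3, h4⟩ := hb _ hz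
    have h5 := hi h4 (mem_ball_self hr) (sub_eq_zero.1 h3)
    have : (e/2 : ℝ) = 0 := by exact_mod_cast h5
    linarith
  obtain ⟨n, g, hg, hg0, hfg⟩ := (han2.exists_eventuallyEq_pow_smul_nonzero_iff).2 hnc
  simp only [sub_zero, smul_eq_mul] at hfg
  -- n ≥ 2
  have hn0 : n ≠ 0 := by
    rintro rfl
    have := hfg.self_of_nhds
    simp at this
    exact hg0 this.symm
  have hn1 : n ≠ 1 := by
    rintro rfl
    have hder : HasDerivAt (fun z => φ z - φ 0) (g 0) 0 := by
      have h1 : HasDerivAt (fun z : ℂ => z ^ 1 * g z) (g 0) 0 := by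
        have := (hasDerivAt_pow 1 (0:ℂ)).fun_mul hg.differentiableAt.hasDerivAt
        simpa using this
      exact h1.congr_of_eventuallyEq hfg
    have h2 : deriv (fun z => φ z - φ 0) 0 = g 0 := hder.deriv
    rw [deriv_sub_const] at h2
    rw [h0] at h2
    exact hg0 h2.symm
  -- root of g
  have hn2 : 2 ≤ n := by omega
  -- local n-th root h of g near 0 : h = exp (log (g / g0) / n) * c,   c ^ n = g 0
  obtain ⟨c, hc⟩ : ∃ c : ℂ, c ^ n = g 0 := IsAlgClosed.exists_pow_nat_eq (g 0) (by omega)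
  have hc0 : c ≠ 0 := by
    rintro rfl
    rw [zero_pow hn0] at hc
    exact hg0 hc.symm
  set h : ℂ → ℂ := fun z => c * Complex.exp (Complex.log (g z / g 0) / n) with hh
  have hq : AnalyticAt ℂ (fun z => g z / g 0) 0 := hg.div_const
  have hlog : AnalyticAt ℂ (fun z => Complex.log (g z / g 0)) 0 := by
    apply hq.clog
    rw [div_self hg0]
    exact Complex.one_mem_slitPlane
  have hha : AnalyticAt ℂ h 0 := by
    have := (hlog.div_const (c := (n:ℂ))).cexp
    exact analyticAt_const.mul this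
  have hh0 : h 0 = c := by simp [hh, div_self hg0]
  have hhn : ∀ᶠ z in 𝓝 (0:ℂ), h z ^ n = g z := by
    have : ∀ᶠ z in 𝓝 (0:ℂ), g z ≠ 0 := hg.continuousAt.eventually_ne hg0
    filter_upwards [this] with z hz
    simp only [hh]
    rw [mul_pow, ← Complex.exp_nat_mul, mul_div_cancel₀ _ (by exact_mod_cast hn0),
      Complex.exp_log (div_ne_zero hz hg0), hc]
    field_simp
  -- u z = z * h z, strict derivative c at 0
  set u : ℂ → ℂ := fun z => z * h z with hu
  have hua : AnalyticAt ℂ u 0 := analyticAt_id.mul hha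
  have hud : HasDerivAt u c 0 := by
    have := (hasDerivAt_id (0:ℂ)).fun_mul hha.differentiableAt.hasDerivAt
    rw [hh0] at this
    simpa [hu] using this
  have hus : HasStrictDerivAt u c 0 := by
    have h1 := hua.hasStrictDerivAt
    rwa [hud.deriv] at h1
  have hu0 : u 0 = 0 := by simp [hu]
  have hmap : map u (𝓝 0) = 𝓝 (0:ℂ) := by
    have := hus.map_nhds_eq hc0
    rwa [hu0] at this
  have hev : ∀ᶠ z in 𝓝 (0:ℂ), φ z - φ 0 = u z ^ n ∧ z ∈ Metric.ball (0:ℂ) r := by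
    filter_upwards [hfg, hhn, hmem] with z h1 h2 h3
    refine ⟨?_, h3⟩
    rw [h1, hu]; simp only; rw [mul_pow, h2]
  have hset : u '' {z | φ z - φ 0 = u z ^ n ∧ z ∈ Metric.ball (0:ℂ) r} ∈ 𝓝 (0:ℂ) := by
    rw [← hmap]; exact image_mem_map hev
  obtain ⟨e, he, hb⟩ := Metric.mem_nhds_iff.1 hset
  set ζ : ℂ := Complex.exp (2 * Real.pi * Complex.I / n) with hζ
  have hprim : IsPrimitiveRoot ζ n := Complex.isPrimitiveRoot_exp n hn0
  have hw : ((e/2 : ℝ) : ℂ) ∈ Metric.ball (0:ℂ) e := by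
    rw [mem_ball_zero_iff, Complex.norm_real, Real.norm_of_nonneg (by linarith)]; linarith
  have hζn : ‖ζ‖ = 1 := hprim.norm'_eq_one hn0
  have hw2 : ζ * ((e/2 : ℝ) : ℂ) ∈ Metric.ball (0:ℂ) e := by
    rw [mem_ball_zero_iff, norm_mul, hζn, one_mul]
    rwa [mem_ball_zero_iff] at hw
  obtain ⟨z1, ⟨h11, h12⟩, h13⟩ := hb hw
  obtain ⟨z2, ⟨h21, h22⟩, h23⟩ := hb hw2
  have heq : φ z1 = φ z2 := by
    have : φ z1 - φ 0 = φ z2 - φ 0 := by
      rw [h11, h21, h13, h23, mul_pow, hprim.pow_eq_one, one_mul]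
    linear_combination this
  have h5 := hi h12 h22 heq
  rw [h5, h23] at h13
  have h6 : (ζ - 1) * ((e/2 : ℝ) : ℂ) = 0 := by linear_combination h13
  rcases mul_eq_zero.1 h6 with h7 | h7
  · exact hprim.ne_one (by omega) (sub_eq_zero.1 h7)
  · have : (e/2 : ℝ) = 0 := by exact_mod_cast h7
    linarith

/-- TARGET -/
theorem BD_double {Q : Set ℂ} (h : BD Q) {c : ℂ} (hc : c ∈ Q) : BD {z | z ^ 2 + c ∈ Q} := by
  obtain ⟨φ₀, hd₀, hi₀, him₀⟩ := h
  -- normalise: φ 0 = c
  obtain ⟨φ, hd, hi, him, h0⟩ : ∃ φ : ℂ → ℂ, DifferentiableOn ℂ φ (Metric.ball 0 1) ∧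
      InjOn φ (Metric.ball 0 1) ∧ φ '' Metric.ball 0 1 = Q ∧ φ 0 = c := by
    rw [← him₀] at hc
    obtain ⟨a, ha, hac⟩ := hc
    rw [mem_ball_zero_iff] at ha
    set M : ℂ → ℂ → ℂ := fun b ζ => (ζ + b) / (1 + (starRingEnd ℂ) b * ζ) with hM
    have key : ∀ b ζ : ℂ, ‖b‖ < 1 → ‖ζ‖ < 1 → 1 + (starRingEnd ℂ) b * ζ ≠ 0 := by
      intro b ζ hb hζ h
      have h1 : ‖(starRingEnd ℂ) b * ζ‖ < 1 := by
        rw [norm_mul, Complex.norm_conj]
        calc ‖b‖ * ‖ζ‖ ≤ ‖b‖ * 1 := mul_le_mul_of_nonneg_left hζ.le (norm_nonneg _)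
          _ < 1 := by linarith
      have h2 : (starRingEnd ℂ) b * ζ = -1 := by linear_combination h
      rw [h2, norm_neg, norm_one] at h1
      exact lt_irrefl _ h1
    have hmaps : ∀ b ζ : ℂ, ‖b‖ < 1 → ‖ζ‖ < 1 → ‖M b ζ‖ < 1 := by
      intro b ζ hb hζ
      have hk := key b ζ hb hζ
      rw [hM]; simp only
      rw [norm_div, div_lt_one (norm_pos_iff.2 hk)]
      have h1 : ‖ζ + b‖ ^ 2 < ‖1 + (starRingEnd ℂ) b * ζ‖ ^ 2 := by
        rw [← Complex.normSq_eq_norm_sq, ← Complex.normSq_eq_norm_sq]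
        have hb2 : Complex.normSq b < 1 := by
          rw [Complex.normSq_eq_norm_sq]; nlinarith [norm_nonneg b]
        have hz2 : Complex.normSq ζ < 1 := by
          rw [Complex.normSq_eq_norm_sq]; nlinarith [norm_nonneg ζ]
        simp only [Complex.normSq_apply, Complex.add_re, Complex.add_im, Complex.mul_re,
          Complex.mul_im, Complex.one_re, Complex.one_im, Complex.conj_re, Complex.conj_im] at hb2 hz2 ⊢
        nlinarith [mul_pos (sub_pos.2 hb2) (sub_pos.2 hz2)]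
      exact lt_of_pow_lt_pow_left₀ 2 (norm_nonneg _) h1
    have hinv : ∀ b ζ : ℂ, ‖b‖ < 1 → ‖ζ‖ < 1 → M (-b) (M b ζ) = ζ := by
      intro b ζ hb hζ
      have hk := key b ζ hb hζ
      have hk2 := key (-b) (M b ζ) (by rwa [norm_neg]) (hmaps b ζ hb hζ)
      rw [hM] at hk2 ⊢; simp only [map_neg] at hk2 ⊢
      rw [div_eq_iff hk2]
      generalize (starRingEnd ℂ) b = b' at *
      have e1 : (ζ + b) / (1 + b' * ζ) * (1 + b' * ζ) = ζ + b := div_mul_cancel₀ _ hk
      have e2 : (1 + b' * ζ) * (((ζ + b) / (1 + b' * ζ) + -b)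
          - ζ * (1 + -b' * ((ζ + b) / (1 + b' * ζ)))) = 0 := by
        linear_combination (1 + ζ * b') * e1
      rcases mul_eq_zero.1 e2 with h | h
      · exact absurd h hk
      · exact sub_eq_zero.1 h
    have hMd : ∀ ζ : ℂ, ‖ζ‖ < 1 → DifferentiableAt ℂ (M a) ζ := by
      intro ζ hζ
      have hk := key a ζ ha hζ
      rw [hM]; simp only
      exact ((differentiableAt_id.add_const a)).div
        ((differentiableAt_const _).add ((differentiableAt_const _).mul differentiableAt_id)) hk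
    refine ⟨fun ζ => φ₀ (M a ζ), ?_, ?_, ?_, ?_⟩
    · intro ζ hζ
      rw [mem_ball_zero_iff] at hζ
      have h1 : DifferentiableAt ℂ φ₀ (M a ζ) := by
        refine hd₀.differentiableAt (isOpen_ball.mem_nhds ?_)
        rw [mem_ball_zero_iff]; exact hmaps a ζ ha hζ
      exact (h1.comp ζ (hMd ζ hζ)).differentiableWithinAt
    · intro x hx y hy hxy
      rw [mem_ball_zero_iff] at hx hy
      have h1 := hi₀ (by rw [mem_ball_zero_iff]; exact hmaps a x ha hx)
        (by rw [mem_ball_zero_iff]; exact hmaps a y ha hy) hxy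
      rw [← hinv a x ha hx, ← hinv a y ha hy, h1]
    · rw [← him₀]
      ext w; constructor
      · rintro ⟨ζ, hζ, rfl⟩
        rw [mem_ball_zero_iff] at hζ
        exact ⟨M a ζ, by rw [mem_ball_zero_iff]; exact hmaps a ζ ha hζ, rfl⟩
      · rintro ⟨ζ, hζ, rfl⟩
        rw [mem_ball_zero_iff] at hζ
        have hna : ‖-a‖ < 1 := by rwa [norm_neg]
        refine ⟨M (-a) ζ, by rw [mem_ball_zero_iff]; exact hmaps (-a) ζ hna hζ, ?_⟩
        simp only
        have := hinv (-a) ζ hna hζ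
        rw [neg_neg] at this
        rw [this]
    · simp only [hM]
      rw [zero_add, mul_zero, add_zero, div_one, hac]
  have hB : Metric.ball (0:ℂ) 1 ∈ 𝓝 (0:ℂ) := ball_mem_nhds _ one_pos
  -- k
  set k : ℂ → ℂ := dslope φ 0 with hk
  have hkd : DifferentiableOn ℂ k (Metric.ball 0 1) :=
    (Complex.differentiableOn_dslope hB).2 hd
  have hkne : ∀ ζ ∈ Metric.ball (0:ℂ) 1, k ζ ≠ 0 := by
    intro ζ hζ h
    by_cases hz : ζ = 0
    · subst hz
      rw [hk, dslope_same] at h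
      exact K1_deriv_ne one_pos hd hi h
    · rw [hk, dslope_of_ne _ hz, slope_def_field, div_eq_zero_iff] at h
      rcases h with h | h
      · exact hz (hi hζ (mem_ball_self one_pos) (sub_eq_zero.1 h))
      · rw [sub_zero] at h; exact hz h
  have hkφ : ∀ ζ : ℂ, φ ζ - c = ζ * k ζ := by
    intro ζ
    have := sub_smul_dslope φ 0 ζ
    rw [smul_eq_mul, sub_zero, h0] at this
    rw [hk]; exact this.symm
  -- κ
  obtain ⟨κ, hκd, hκ2⟩ : ∃ κ : ℂ → ℂ, DifferentiableOn ℂ κ (Metric.ball 0 1) ∧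
      ∀ ζ ∈ Metric.ball (0:ℂ) 1, κ ζ ^ 2 = k ζ := by
    have hg : DifferentiableOn ℂ (fun z => deriv k z / k z) (Metric.ball 0 1) :=
      (hkd.deriv isOpen_ball).div hkd hkne
    obtain ⟨F, hF⟩ := hg.isExactOn_ball
    -- exp F / k is constant
    have hFd : DifferentiableOn ℂ F (Metric.ball 0 1) := fun z hz =>
      (hF z hz).differentiableAt.differentiableWithinAt
    set q : ℂ → ℂ := fun z => k z * Complex.exp (-F z) with hq
    have hqd : ∀ z ∈ Metric.ball (0:ℂ) 1, HasDerivAt q 0 z := by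
      intro z hz
      have h1 : HasDerivAt k (deriv k z) z :=
        (hkd.differentiableAt (isOpen_ball.mem_nhds hz)).hasDerivAt
      have h2 := h1.fun_mul ((hF z hz).neg.cexp)
      have h3 : deriv k z * Complex.exp (-F z) + k z * (Complex.exp (-F z) * -(deriv k z / k z)) = 0 := by
        have := hkne z hz
        field_simp
        ring
      simp only [Pi.neg_apply] at h2
      rw [h3] at h2
      exact h2
    have hqc : ∀ z ∈ Metric.ball (0:ℂ) 1, q z = q 0 := by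
      intro z hz
      refine (convex_ball (0:ℂ) 1).is_const_of_fderivWithin_eq_zero (𝕜 := ℂ) (f := q) ?_ ?_ hz
        (mem_ball_self one_pos)
      · exact fun w hw => (hqd w hw).differentiableAt.differentiableWithinAt
      · intro w hw
        rw [fderivWithin_of_isOpen isOpen_ball hw]
        have := (hqd w hw).hasFDerivAt.fderiv
        rw [this]; ext; simp
    obtain ⟨s, hs⟩ : ∃ s : ℂ, s ^ 2 = q 0 := IsAlgClosed.exists_pow_nat_eq (q 0) (by norm_num)
    refine ⟨fun z => s * Complex.exp (F z / 2), ?_, ?_⟩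
    · exact (differentiableOn_const _).mul ((hFd.div_const 2).cexp)
    · intro z hz
      simp only
      rw [mul_pow, ← Complex.exp_nat_mul, hs, ← hqc z hz, hq]
      simp only
      rw [mul_assoc, ← Complex.exp_add]
      have : -F z + ((2:ℕ):ℂ) * (F z / 2) = 0 := by push_cast; ring
      rw [this, Complex.exp_zero, mul_one]
  have hκne : ∀ ζ ∈ Metric.ball (0:ℂ) 1, κ ζ ≠ 0 := by
    intro ζ hζ h
    have := hκ2 ζ hζ
    rw [h] at this
    exact hkne ζ hζ (by rw [← this]; ring)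
  have hsq : ∀ g ∈ Metric.ball (0:ℂ) 1, g ^ 2 ∈ Metric.ball (0:ℂ) 1 := by
    intro g hg
    rw [mem_ball_zero_iff] at hg ⊢
    rw [norm_pow]; nlinarith [norm_nonneg g]
  have hψ2 : ∀ g ∈ Metric.ball (0:ℂ) 1, (g * κ (g ^ 2)) ^ 2 + c = φ (g ^ 2) := by
    intro g hg
    rw [mul_pow, hκ2 _ (hsq g hg)]
    linear_combination -(hkφ (g ^ 2))
  refine ⟨fun g => g * κ (g ^ 2), ?_, ?_, ?_⟩
  · have h1 : DifferentiableOn ℂ (fun g : ℂ => κ (g ^ 2)) (Metric.ball 0 1) :=
      hκd.comp (t := Metric.ball 0 1) (differentiableOn_pow 2) hsq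
    exact differentiableOn_id.mul h1
  · intro g hg g' hg' hgg
    simp only at hgg
    have h1 : φ (g ^ 2) = φ (g' ^ 2) := by rw [← hψ2 g hg, ← hψ2 g' hg', hgg]
    have h2 := hi (hsq g hg) (hsq g' hg') h1
    rcases sq_eq_sq_iff_eq_or_eq_neg.1 h2 with h3 | h3
    · exact h3
    · rw [h2] at hgg
      have h4 : (g - g') * κ (g' ^ 2) = 0 := by linear_combination hgg
      rcases mul_eq_zero.1 h4 with h5 | h5
      · exact sub_eq_zero.1 h5
      · exact absurd h5 (hκne _ (hsq g' hg'))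
  · ext z; constructor
    · rintro ⟨g, hg, rfl⟩
      simp only [Set.mem_ofPred_eq]
      rw [hψ2 g hg, ← him]
      exact ⟨g ^ 2, hsq g hg, rfl⟩
    · intro hz
      simp only [Set.mem_ofPred_eq] at hz
      rw [← him] at hz
      obtain ⟨ζ, hζ, hζz⟩ := hz
      obtain ⟨g, hg2⟩ : ∃ g : ℂ, g ^ 2 = ζ := IsAlgClosed.exists_pow_nat_eq ζ (by norm_num)
      have hg : g ∈ Metric.ball (0:ℂ) 1 := by
        rw [mem_ball_zero_iff] at hζ ⊢
        rw [← hg2, norm_pow] at hζ
        by_contra hcon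
        push Not at hcon
        nlinarith
      have h1 := hψ2 g hg
      rw [hg2, hζz] at h1
      have h2 : (g * κ (g ^ 2)) ^ 2 = z ^ 2 := by rw [hg2]; linear_combination h1
      rcases sq_eq_sq_iff_eq_or_eq_neg.1 h2 with h3 | h3
      · exact ⟨g, hg, h3⟩
      · refine ⟨-g, ?_, ?_⟩
        · rw [mem_ball_zero_iff] at hg ⊢
          rwa [norm_neg]
        · simp only
          rw [neg_sq, neg_mul, h3, neg_neg]

end Pool.Agent.Helper79_Real.K1
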