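import Pool.Agent.Helper79_Real.RBase

namespace Pool.Agent.Helper79_Real.K3

/-- membership in `Sd`, in terms of the parameter `ω` with `z (1 + ω^2) = 2 b ω` -/
theorem Sd_key {b δ r : ℝ} (hb : 0 < b) (hδ : 0 < δ) (hr : 0 < r) (hr1 : r < 1)
    (h1 : 1 - r ^ 2 = δ * r) (z ω : ℂ) (hω : ω ≠ 0) (hω1 : ‖ω‖ ≤ 1) (hD : 1 + ω ^ 2 ≠ 0)
    (hz : z * (1 + ω ^ 2) = 2 * (b : ℂ) * ω) :
    ‖ω‖ < r ↔ ‖z‖ ^ 4 < 4 * b ^ 2 * (z.re ^ 2 / (4 + δ ^ 2) + z.im ^ 2 / δ ^ 2) := by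
  have hre := congrArg Complex.re hz
  have him := congrArg Complex.im hz
  simp only [Complex.mul_re, Complex.mul_im, Complex.add_re, Complex.add_im, Complex.one_re,
    Complex.one_im, pow_two, Complex.ofReal_re, Complex.ofReal_im, Complex.re_ofNat,
    Complex.im_ofNat] at hre him
  set s := ω.re with hs
  set t := ω.im with ht
  set x := z.re with hx
  set y := z.im with hy
  set q := s ^ 2 + t ^ 2 with hq
  set d := (1 + s ^ 2 - t ^ 2) ^ 2 + (2 * s * t) ^ 2 with hd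
  have hnω : ‖ω‖ ^ 2 = q := by
    rw [← Complex.normSq_eq_norm_sq, Complex.normSq_apply, hq, hs, ht]; ring
  have hnz : ‖z‖ ^ 2 = x ^ 2 + y ^ 2 := by
    rw [← Complex.normSq_eq_norm_sq, Complex.normSq_apply, hx, hy]; ring
  have hdpos : 0 < d := by
    have h := Complex.normSq_pos.2 hD
    rw [Complex.normSq_apply] at h
    simp only [Complex.add_re, Complex.add_im, Complex.one_re, Complex.one_im, pow_two,
      Complex.mul_re, Complex.mul_im] at h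
    rw [← hs, ← ht] at h
    rw [hd]
    calc (0 : ℝ) < _ := h
      _ = _ := by ring
  have hqpos : 0 < q := by
    rw [← hnω]; have := norm_pos_iff.2 hω; positivity
  have hq1 : q ≤ 1 := by
    rw [← hnω]; nlinarith [norm_nonneg ω]
  have ex : x * d = 2 * b * s * (1 + q) := by
    rw [hd, hq]
    linear_combination (1 + s ^ 2 - t ^ 2) * hre + (2 * s * t) * him
  have ey : y * d = 2 * b * t * (1 - q) := by
    rw [hd, hq]
    linear_combination (-(2 * s * t)) * hre + (1 + s ^ 2 - t ^ 2) * him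
  have en : (x ^ 2 + y ^ 2) * d = 4 * b ^ 2 * q := by
    have e1 : x * (1 + s ^ 2 - t ^ 2) - y * (2 * s * t) = 2 * b * s := by linear_combination hre
    have e2 : x * (2 * s * t) + y * (1 + s ^ 2 - t ^ 2) = 2 * b * t := by linear_combination him
    calc (x ^ 2 + y ^ 2) * d = (x * (1 + s ^ 2 - t ^ 2) - y * (2 * s * t)) ^ 2 +
          (x * (2 * s * t) + y * (1 + s ^ 2 - t ^ 2)) ^ 2 := by rw [hd]; ring
      _ = 4 * b ^ 2 * q := by rw [e1, e2, hq]; ring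
  have hr2 : r ^ 2 < 1 := by nlinarith
  have hp1 : 0 < 1 + r ^ 2 := by positivity
  have hp2 : 0 < 1 - r ^ 2 := by linarith
  have hA : (4 + δ ^ 2)⁻¹ = r ^ 2 * ((1 + r ^ 2) ^ 2)⁻¹ := by
    have : (1 + r ^ 2) ^ 2 = (4 + δ ^ 2) * r ^ 2 := by
      have h2 : (1 + r ^ 2) ^ 2 = (1 - r ^ 2) ^ 2 + 4 * r ^ 2 := by ring
      rw [h2, h1]; ring
    rw [this]
    have h4 : 4 + δ ^ 2 ≠ 0 := by positivity
    have h5 : r ^ 2 ≠ 0 := by positivity
    field_simp
  have hB : (δ ^ 2)⁻¹ = r ^ 2 * ((1 - r ^ 2) ^ 2)⁻¹ := by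
    rw [h1]
    have h4 : δ ≠ 0 := hδ.ne'
    have h5 : r ≠ 0 := hr.ne'
    field_simp
  set A := ((1 + r ^ 2) ^ 2)⁻¹ with hAd
  set B := ((1 - r ^ 2) ^ 2)⁻¹ with hBd
  have hAA : (1 + r ^ 2) ^ 2 * A = 1 := by
    rw [hAd]; exact mul_inv_cancel₀ (by positivity)
  have hBB : (1 - r ^ 2) ^ 2 * B = 1 := by
    rw [hBd]; exact mul_inv_cancel₀ (by positivity)
  have hApos : 0 < A := by rw [hAd]; positivity
  have hBpos : 0 < B := by rw [hBd]; positivity
  have hkey : (4 * b ^ 2 * (x ^ 2 * (r ^ 2 * A) + y ^ 2 * (r ^ 2 * B)) - (x ^ 2 + y ^ 2) ^ 2) *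
      d ^ 2 = 16 * b ^ 4 * ((r ^ 2 - q) * (1 - q * r ^ 2) * (s ^ 2 * A + t ^ 2 * B)) := by
    have e1 : (x * d) ^ 2 = 4 * b ^ 2 * s ^ 2 * (1 + q) ^ 2 := by rw [ex]; ring
    have e2 : (y * d) ^ 2 = 4 * b ^ 2 * t ^ 2 * (1 - q) ^ 2 := by rw [ey]; ring
    have e3 : ((x ^ 2 + y ^ 2) * d) ^ 2 = 16 * b ^ 4 * q ^ 2 := by rw [en]; ring
    have e4 : (1 + q) ^ 2 * r ^ 2 * A = q + (r ^ 2 - q) * (1 - q * r ^ 2) * A := by
      linear_combination q * hAA
    have e5 : (1 - q) ^ 2 * r ^ 2 * B = q + (r ^ 2 - q) * (1 - q * r ^ 2) * B := by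
      linear_combination q * hBB
    have e6 : q ^ 2 = s ^ 2 * q + t ^ 2 * q := by rw [hq]; ring
    calc _ = 4 * b ^ 2 * ((x * d) ^ 2 * (r ^ 2 * A) + (y * d) ^ 2 * (r ^ 2 * B)) -
          ((x ^ 2 + y ^ 2) * d) ^ 2 := by ring
      _ = 16 * b ^ 4 * (s ^ 2 * ((1 + q) ^ 2 * r ^ 2 * A) + t ^ 2 * ((1 - q) ^ 2 * r ^ 2 * B) -
          q ^ 2) := by rw [e1, e2, e3]; ring
      _ = _ := by rw [e4, e5, e6]; ring
  have hn4 : ‖z‖ ^ 4 = (x ^ 2 + y ^ 2) ^ 2 := by rw [← hnz]; ring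
  rw [hn4, div_eq_mul_inv, div_eq_mul_inv, hA, hB]
  have hst : 0 < s ^ 2 * A + t ^ 2 * B := by
    rcases eq_or_ne s 0 with h0 | h0
    · have ht0 : t ≠ 0 := by
        intro h; rw [hq, h0, h] at hqpos; simp at hqpos
      have : 0 < t ^ 2 * B := by positivity
      have : 0 ≤ s ^ 2 * A := by positivity
      linarith
    · have : 0 < s ^ 2 * A := by positivity
      have : 0 ≤ t ^ 2 * B := by positivity
      linarith
  have hqr : 0 < 1 - q * r ^ 2 := by nlinarith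
  have hiff : ‖ω‖ < r ↔ q < r ^ 2 := by
    rw [← hnω]
    constructor
    · intro h; exact pow_lt_pow_left₀ h (norm_nonneg _) (by norm_num)
    · intro h; exact lt_of_pow_lt_pow_left₀ 2 hr.le h
  rw [hiff]
  constructor
  · intro h
    have h2 : 0 < 16 * b ^ 4 * ((r ^ 2 - q) * (1 - q * r ^ 2) * (s ^ 2 * A + t ^ 2 * B)) := by
      have : 0 < r ^ 2 - q := by linarith
      positivity
    rw [← hkey] at h2
    have h3 := pos_of_mul_pos_left h2 (by positivity : 0 ≤ d ^ 2)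
    linarith
  · intro h
    have h2 : 0 < (4 * b ^ 2 * (x ^ 2 * (r ^ 2 * A) + y ^ 2 * (r ^ 2 * B)) -
        (x ^ 2 + y ^ 2) ^ 2) * d ^ 2 := by
      have : 0 < 4 * b ^ 2 * (x ^ 2 * (r ^ 2 * A) + y ^ 2 * (r ^ 2 * B)) -
        (x ^ 2 + y ^ 2) ^ 2 := by linarith
      positivity
    rw [hkey] at h2
    by_contra hcon
    push Not at hcon
    have h4 : (r ^ 2 - q) * (1 - q * r ^ 2) * (s ^ 2 * A + t ^ 2 * B) ≤ 0 := by
      have : r ^ 2 - q ≤ 0 := by linarith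
      exact mul_nonpos_of_nonpos_of_nonneg (mul_nonpos_of_nonpos_of_nonneg this hqr.le) hst.le
    have h5 : 16 * b ^ 4 * ((r ^ 2 - q) * (1 - q * r ^ 2) * (s ^ 2 * A + t ^ 2 * B)) ≤ 0 :=
      mul_nonpos_of_nonneg_of_nonpos (by positivity) h4
    linarith

/-- the parameter `r` with `1/r - r = δ` -/
theorem exists_r_Sd {δ : ℝ} (hδ : 0 < δ) : ∃ r : ℝ, 0 < r ∧ r < 1 ∧ 1 - r ^ 2 = δ * r := by
  have h0 : 0 ≤ δ ^ 2 + 4 := by positivity
  have hs := Real.sq_sqrt h0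
  have hsn := Real.sqrt_nonneg (δ ^ 2 + 4)
  refine ⟨(Real.sqrt (δ ^ 2 + 4) - δ) / 2, ?_, ?_, ?_⟩
  · have : δ < Real.sqrt (δ ^ 2 + 4) := by
      apply Real.lt_sqrt_of_sq_lt; linarith
    linarith
  · have : Real.sqrt (δ ^ 2 + 4) < δ + 2 := by
      rw [Real.sqrt_lt' (by linarith)]
      nlinarith
    linarith
  · linear_combination (-(1 : ℝ) / 4) * hs

theorem one_add_sq_ne_Sd {w : ℂ} (hw : ‖w‖ < 1) : 1 + w ^ 2 ≠ 0 := by
  intro h
  have h1 : w ^ 2 = -1 := by linear_combination h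
  have h2 : ‖w‖ ^ 2 = 1 := by rw [← norm_pow, h1]; simp
  nlinarith [norm_nonneg w]

/-- TARGET (1) -/
theorem BD_Sd {b δ : ℝ} (hb : 0 < b) (hδ : 0 < δ) : BD (Sd b δ) := by
  obtain ⟨r, hr, hr1, h1⟩ := exists_r_Sd hδ
  have hbC : (b : ℂ) ≠ 0 := by exact_mod_cast hb.ne'
  have hrC : (r : ℂ) ≠ 0 := by exact_mod_cast hr.ne'
  have hnr : ‖(r : ℂ)‖ = r := by rw [Complex.norm_real, Real.norm_of_nonneg hr.le]
  have hlt : ∀ ζ : ℂ, ζ ∈ Metric.ball (0 : ℂ) 1 → ‖(r : ℂ) * ζ‖ < r := by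
    intro ζ hζ
    rw [mem_ball_zero_iff] at hζ
    rw [norm_mul, hnr]
    nlinarith [norm_nonneg ζ]
  have hne : ∀ ζ : ℂ, ζ ∈ Metric.ball (0 : ℂ) 1 → 1 + ((r : ℂ) * ζ) ^ 2 ≠ 0 := by
    intro ζ hζ
    exact one_add_sq_ne_Sd ((hlt ζ hζ).trans hr1)
  refine ⟨fun ζ => 2 * (b : ℂ) * ((r : ℂ) * ζ) / (1 + ((r : ℂ) * ζ) ^ 2), ?_, ?_, ?_⟩
  · intro ζ hζ
    have : DifferentiableAt ℂ (fun ζ : ℂ => 2 * (b : ℂ) * ((r : ℂ) * ζ) / (1 + ((r : ℂ) * ζ) ^ 2))
        ζ := by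
      apply DifferentiableAt.div
      · fun_prop
      · fun_prop
      · exact hne ζ hζ
    exact this.differentiableWithinAt
  · intro ζ hζ ζ' hζ' h
    simp only at h
    have e1 := hne ζ hζ
    have e2 := hne ζ' hζ'
    rw [div_eq_div_iff e1 e2] at h
    have h3 : 2 * (b : ℂ) * r * ((ζ - ζ') * (1 - ((r : ℂ) * ζ) * ((r : ℂ) * ζ'))) = 0 := by
      linear_combination h
    have h4 : (2 * (b : ℂ) * r) ≠ 0 := mul_ne_zero (mul_ne_zero two_ne_zero hbC) hrC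
    rcases mul_eq_zero.1 h3 with h5 | h5
    · exact absurd h5 h4
    · rcases mul_eq_zero.1 h5 with h6 | h6
      · linear_combination h6
      · exfalso
        have h7 : ((r : ℂ) * ζ) * ((r : ℂ) * ζ') = 1 := by linear_combination -h6
        have h8 : ‖(r : ℂ) * ζ‖ * ‖(r : ℂ) * ζ'‖ = 1 := by rw [← norm_mul, h7]; simp
        have h9 := (hlt ζ hζ).trans hr1
        have h10 := (hlt ζ' hζ').trans hr1
        nlinarith [norm_nonneg ((r : ℂ) * ζ), norm_nonneg ((r : ℂ) * ζ')]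
  · ext z
    constructor
    · rintro ⟨ζ, hζ, rfl⟩
      by_cases h0 : ζ = 0
      · left; simp [h0]
      · right
        have hω : (r : ℂ) * ζ ≠ 0 := mul_ne_zero hrC h0
        have hD := hne ζ hζ
        refine (Sd_key hb hδ hr hr1 h1 _ ((r : ℂ) * ζ) hω ((hlt ζ hζ).trans hr1).le hD ?_).1
          (hlt ζ hζ)
        exact div_mul_cancel₀ _ hD
    · intro hz
      by_cases h0 : z = 0
      · exact ⟨0, by simp, by simp [h0]⟩
      · have hz' : ‖z‖ ^ 4 < 4 * b ^ 2 * (z.re ^ 2 / (4 + δ ^ 2) + z.im ^ 2 / δ ^ 2) := by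
          rcases hz with h | h
          · exact absurd h h0
          · exact h
        -- a root of the quadratic equation
        obtain ⟨w, hw⟩ := IsAlgClosed.exists_pow_nat_eq ((2 * (b : ℂ) / z) ^ 2 - 4)
          (n := 2) (by norm_num)
        set u := 2 * (b : ℂ) / z with hu
        have hroot : ∃ ω : ℂ, ‖ω‖ ≤ 1 ∧ ω ^ 2 - u * ω + 1 = 0 := by
          have hp : ((u + w) / 2) * ((u - w) / 2) = 1 := by linear_combination (-(1 : ℂ) / 4) * hw
          have hpn : ‖(u + w) / 2‖ * ‖(u - w) / 2‖ = 1 := by rw [← norm_mul, hp]; simp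
          by_cases hc : ‖(u + w) / 2‖ ≤ 1
          · exact ⟨_, hc, by linear_combination (1 / 4 : ℂ) * hw⟩
          · push Not at hc
            refine ⟨(u - w) / 2, ?_, by linear_combination (1 / 4 : ℂ) * hw⟩
            by_contra hc2
            push Not at hc2
            nlinarith
        obtain ⟨ω, hω1, hωe⟩ := hroot
        have hω : ω ≠ 0 := by
          intro h; rw [h] at hωe; simp at hωe
        have hune : u ≠ 0 := div_ne_zero (mul_ne_zero two_ne_zero hbC) h0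
        have hDe : 1 + ω ^ 2 = u * ω := by linear_combination hωe
        have hD : 1 + ω ^ 2 ≠ 0 := by rw [hDe]; exact mul_ne_zero hune hω
        have huz : z * u = 2 * (b : ℂ) := by rw [hu]; field_simp
        have hzω : z * (1 + ω ^ 2) = 2 * (b : ℂ) * ω := by
          rw [hDe, ← mul_assoc, huz]
        have hlt2 := (Sd_key hb hδ hr hr1 h1 z ω hω hω1 hD hzω).2 hz'
        refine ⟨ω / r, ?_, ?_⟩
        · rw [mem_ball_zero_iff, norm_div, hnr, div_lt_one hr]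
          exact hlt2
        · have e : (r : ℂ) * (ω / r) = ω := by field_simp
          simp only [e]
          rw [div_eq_iff hD, hzω]

/-- TARGET (2) -/
theorem Sd_sub_slit {b δ : ℝ} (hb : 0 < b) (hδ : 0 < δ) : Sd b δ ⊆ Slit b := by
  intro z hz
  by_cases him : z.im = 0
  · right
    rcases hz with h | h
    · rw [h]; simpa using hb
    · have hn : ‖z‖ ^ 4 = z.re ^ 4 := by
        have : ‖z‖ ^ 2 = z.re ^ 2 := by
          rw [← Complex.normSq_eq_norm_sq, Complex.normSq_apply, him]; ring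
        calc ‖z‖ ^ 4 = (‖z‖ ^ 2) ^ 2 := by ring
          _ = z.re ^ 4 := by rw [this]; ring
      rw [hn, him] at h
      simp only [ne_eq, OfNat.ofNat_ne_zero, not_false_eq_true, zero_pow, zero_div, add_zero] at h
      by_contra hcon
      push Not at hcon
      have h2 : b ^ 2 ≤ z.re ^ 2 := by
        rw [← sq_abs z.re]; exact pow_le_pow_left₀ hb.le hcon 2
      have h4 : 0 < 4 + δ ^ 2 := by positivity
      have h5 : z.re ^ 2 / (4 + δ ^ 2) ≤ z.re ^ 2 / 4 := by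
        apply div_le_div_of_nonneg_left (by positivity) (by norm_num)
        nlinarith [sq_nonneg δ]
      have h6 : z.re ^ 4 < 4 * b ^ 2 * (z.re ^ 2 / 4) :=
        lt_of_lt_of_le h (mul_le_mul_of_nonneg_left h5 (by positivity))
      nlinarith [sq_nonneg z.re]
  · left; exact him

/-- TARGET (3) -/
theorem Sd_bdd {b δ : ℝ} (hb : 0 < b) (hδ : 0 < δ) : Bornology.IsBounded (Sd b δ) := by
  rw [isBounded_iff_forall_norm_le]
  refine ⟨4 * b ^ 2 * (1 / 4 + 1 / δ ^ 2) + 1, ?_⟩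
  intro z hz
  set C := 4 * b ^ 2 * (1 / 4 + 1 / δ ^ 2) with hC
  have hCpos : 0 < C := by rw [hC]; positivity
  rcases hz with h | h
  · rw [h]; simp; linarith
  · by_contra hcon
    push Not at hcon
    have hns : ‖z‖ ^ 2 = z.re ^ 2 + z.im ^ 2 := by
      rw [← Complex.normSq_eq_norm_sq, Complex.normSq_apply]; ring
    have h1 : z.re ^ 2 / (4 + δ ^ 2) ≤ ‖z‖ ^ 2 * (1 / 4) := by
      rw [div_le_iff₀ (by positivity)]
      nlinarith [sq_nonneg z.re, sq_nonneg z.im, sq_nonneg δ, mul_nonneg (sq_nonneg ‖z‖) (sq_nonneg δ)]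
    have h2 : z.im ^ 2 / δ ^ 2 ≤ ‖z‖ ^ 2 * (1 / δ ^ 2) := by
      rw [div_eq_mul_one_div]
      apply mul_le_mul_of_nonneg_right _ (by positivity)
      nlinarith [sq_nonneg z.re]
    have h3 : ‖z‖ ^ 4 < C * ‖z‖ ^ 2 := by
      calc ‖z‖ ^ 4 < _ := h
        _ ≤ 4 * b ^ 2 * (‖z‖ ^ 2 * (1 / 4) + ‖z‖ ^ 2 * (1 / δ ^ 2)) := by
          apply mul_le_mul_of_nonneg_left _ (by positivity); linarith
        _ = C * ‖z‖ ^ 2 := by rw [hC]; ring
    have h4 : 1 < ‖z‖ := by linarith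
    have h5 : 0 < ‖z‖ ^ 2 := by positivity
    have h6 : ‖z‖ ^ 2 < C := by
      have : ‖z‖ ^ 2 * ‖z‖ ^ 2 < C * ‖z‖ ^ 2 := by nlinarith
      exact lt_of_mul_lt_mul_right this h5.le
    nlinarith

/-- TARGET (4) -/
theorem Sdc_closed {b δ : ℝ} (hδ : 0 < δ) : IsClosed (Sdc b δ) := by
  unfold Sdc
  apply isClosed_le
  · fun_prop
  · have h1 : Continuous fun z : ℂ => z.re ^ 2 / (4 + δ ^ 2) :=
      (Complex.continuous_re.pow 2).div_const _
    have h2 : Continuous fun z : ℂ => z.im ^ 2 / δ ^ 2 :=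
      (Complex.continuous_im.pow 2).div_const _
    exact continuous_const.mul (h1.add h2)

/-- TARGET (5) -/
theorem Sd_sub_Sdc (b δ : ℝ) : Sd b δ ⊆ Sdc b δ := by
  intro z hz
  rcases hz with h | h
  · rw [h]; simp [Sdc]
  · exact h.le

end Pool.Agent.Helper79_Real.K3
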