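import Pool.Agent.Helper79_Real.RBase

/-!
Lemma job K4 (the inverse branch along the critical orbit).  Definitions: Pool/Agent/Helper79_Real/{Defs,HDefs,RDefs,RBase}.lean on origin/main
(copy the folder to your working tree and `lake build Pool.Agent.Helper79_Real.RBase`).  `f c x = x^2 + c` on the reals, `fC c z = z^2 + c` on `ℂ`, `Slit b = {z | Im z ≠ 0 or |Re z| < b}`.
For real `x`: `fC c (x : ℂ) = (f c x : ℂ)`, so `(fC c)^[k] (x:ℂ) = ((f c)^[k] x : ℂ)`.

Plain-words proof.  Write `e j = (f c)^[j] 0`.  By `RD.out` (finitely many `j`) choose `b` with `A < b < |e j|` for `0 < j < n`.  `S = Slit b` is open and symmetric under conjugation.  Claim, by induction on `k ≤ n-1`: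
there is `g_k`, differentiable on `S`, with (for all `s ∈ S`)
 (i) `f^k (g_k s) = s`,  (ii) `0 < e (n-k+i) * Re (f^i (g_k s))` for `i < k`,
 (iii) if `f^k w = s` and `0 < e (n-k+i) * Re (f^i w)` for all `i < k` then `w = g_k s`,
 (iv) `g_k (e n) = e (n-k)` (note `|e n| < A < b` by `RD.inn` with `m = 1`, so `e n ∈ S`).
`k = 0`: `g_0 = id`.  Step `k → k+1 ≤ n-1`: put `i0 = n-k-1 ≥ 1`.  For real `s`, `|s| < b`, `g_k s` is real: its conjugate satisfies the conditions of (iii) for the same `s`.  I claim that for `s ∈ S` the number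
`g_k s - c` is in the slit plane (`Complex.slitPlane`: not a real number `≤ 0`).  If `g_k s` is real, then `s = f^k(g_k s)` is real, `|s| < b`.  `s ↦ g_k s` is a continuous real function on `(-b, b)`, its value at `e n` is
`e (n-k) = (e i0)^2 + c > c`.  If it took a value `≤ c` then it would take the value `c` at some `s'` in `(-b,b)`, and then `s' = f^k(c) = e (k+1)`, `|e (k+1)| < b`, contradicting the
choice of `b` (`0 < k+1 < n`).  So define `g_{k+1} s = ε √(g_k s - c)` with the principal square root (`(·)^(1/2:ℂ)`, positive real part on the slit plane) and `ε = ±1` the sign of `e i0`.  It is differentiable on `S`,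
`f (g_{k+1} s) = g_k s`, and (i), (ii) hold.  (iii): if `w` is as in (iii) for `k+1` then `f w` is as in (iii) for `k`, so `w^2 = g_k s - c`, and `Re (ε w) > 0`, so `ε w = √(g_k s - c)`.
(iv): by (iii) applied to `w = e i0`, since `f^i(e i0) = e (i0 + i)` and `e(j)^2 > 0` for `0<j<n`.
Finally take `k = n-1`, `g = g_{n-1}`.
-/

namespace Pool.Agent.Helper79_Real.K4


theorem ib_conj (c : ℝ) (k : ℕ) : ∀ z : ℂ, (fC (c:ℂ))^[k] (starRingEnd ℂ z) =
    starRingEnd ℂ ((fC (c:ℂ))^[k] z) := by
  induction k with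
  | zero => intro z; rfl
  | succ k ih =>
    intro z
    rw [Function.iterate_succ_apply, Function.iterate_succ_apply, ← ih]
    congr 1
    simp [fC]

theorem ib_real (c : ℝ) (k : ℕ) : ∀ x : ℝ, (fC (c:ℂ))^[k] (x:ℂ) = (((f c)^[k] x : ℝ) : ℂ) := by
  induction k with
  | zero => intro x; rfl
  | succ k ih =>
    intro x
    rw [Function.iterate_succ_apply, Function.iterate_succ_apply, ← ih]
    congr 1
    simp [fC, f]

theorem ib_sq {z : ℂ} (hz : z ∈ Complex.slitPlane) : (Complex.exp (Complex.log z / 2)) ^ 2 = z := by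
  rw [← Complex.exp_nat_mul]
  have h1 : ((2 : ℕ) : ℂ) * (Complex.log z / 2) = Complex.log z := by
    push_cast
    ring
  rw [h1, Complex.exp_log (Complex.slitPlane_ne_zero hz)]

theorem ib_re {z : ℂ} (hz : z ∈ Complex.slitPlane) : 0 < (Complex.exp (Complex.log z / 2)).re := by
  rw [Complex.exp_re]
  refine mul_pos (Real.exp_pos _) ?_
  have h1 : (Complex.log z / 2).im = Complex.arg z / 2 := by
    have h2 : Complex.log z / 2 = Complex.log z / ((2 : ℝ) : ℂ) := by push_cast; rfl
    rw [h2, Complex.div_ofReal_im, Complex.log_im]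
  rw [h1]
  obtain ⟨h3, -⟩ := Complex.mem_slitPlane_iff_arg.1 hz
  have h4 := Complex.neg_pi_lt_arg z
  have h5 := lt_of_le_of_ne (Complex.arg_le_pi z) h3
  exact Real.cos_pos_of_mem_Ioo ⟨by linarith, by linarith⟩

theorem ib_uniq {z v : ℂ} (hz : z ∈ Complex.slitPlane) (hv : v ^ 2 = z) (hre : 0 < v.re) :
    v = Complex.exp (Complex.log z / 2) := by
  have h1 : v ^ 2 = (Complex.exp (Complex.log z / 2)) ^ 2 := by rw [hv, ib_sq hz]
  rcases sq_eq_sq_iff_eq_or_eq_neg.1 h1 with h2 | h2
  · exact h2
  · exfalso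
    have h3 := ib_re hz
    rw [h2, Complex.neg_re] at hre
    linarith

theorem ib_min {c : ℝ} {n : ℕ} {A : ℝ} (h : RD c n A) : ∃ b : ℝ, A < b ∧
    ∀ j, 0 < j → j < n → b ≤ |(f c)^[j] 0| := by
  have hn := h.hn
  obtain ⟨j0, hj0, hmin⟩ := Finset.exists_min_image (Finset.Ioo 0 n) (fun j => |(f c)^[j] 0|)
    ⟨1, Finset.mem_Ioo.2 ⟨one_pos, by omega⟩⟩
  rw [Finset.mem_Ioo] at hj0
  exact ⟨|(f c)^[j0] 0|, h.out j0 hj0.1 hj0.2, fun j h1 h2 => hmin j (Finset.mem_Ioo.2 ⟨h1, h2⟩)⟩

theorem ib_step {c : ℝ} {n : ℕ} {A : ℝ} (h : RD c n A) {b : ℝ} (hAb : A < b)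
    (hb : ∀ j, 0 < j → j < n → b ≤ |(f c)^[j] 0|) (k : ℕ) : k + 1 ≤ n → ∃ g : ℂ → ℂ,
    DifferentiableOn ℂ g (Slit b) ∧ (∀ s ∈ Slit b, (fC (c:ℂ))^[k] (g s) = s) ∧
    (∀ s ∈ Slit b, ∀ i < k, 0 < (f c)^[n - k + i] 0 * ((fC (c:ℂ))^[i] (g s)).re) ∧
    (∀ s ∈ Slit b, ∀ w, (fC (c:ℂ))^[k] w = s →
      (∀ i < k, 0 < (f c)^[n - k + i] 0 * ((fC (c:ℂ))^[i] w).re) → w = g s) ∧
    g (((f c)^[n] 0 : ℝ) : ℂ) = (((f c)^[n - k] 0 : ℝ) : ℂ) := by
  have hen : |(f c)^[n] 0| < b := by
    have h1 := h.inn 1
    rw [one_mul] at h1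
    linarith
  have henS : (((f c)^[n] 0 : ℝ) : ℂ) ∈ Slit b := Or.inr (by rw [Complex.ofReal_re]; exact hen)
  have hApos := h.pos
  induction k with
  | zero =>
    intro _
    refine ⟨id, differentiableOn_id, fun s _ => rfl, fun s _ i hi => absurd hi (Nat.not_lt_zero _),
      fun s _ w hw _ => hw, rfl⟩
  | succ k ih =>
    intro hk
    obtain ⟨g, hg1, hg2, hg3, hg4, hg5⟩ := ih (by omega)
    obtain ⟨i0, hi0⟩ : ∃ i0, i0 = n - (k + 1) := ⟨_, rfl⟩
    have hi0pos : 0 < i0 := by omega
    have hi0n : i0 < n := by omega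
    have hnk : n - k = i0 + 1 := by omega
    rw [← hi0]
    rw [hnk] at hg3 hg4 hg5
    have he0 : (f c)^[i0] 0 ≠ 0 := by
      intro h1
      have h2 := h.out i0 hi0pos hi0n
      rw [h1, abs_zero] at h2
      linarith
    -- real on the real points
    have hreal : ∀ t : ℝ, |t| < b → (g (t : ℂ)).im = 0 := by
      intro t ht
      have htS : (t : ℂ) ∈ Slit b := Or.inr (by rw [Complex.ofReal_re]; exact ht)
      have h1 : starRingEnd ℂ (g (t : ℂ)) = g (t : ℂ) := by
        refine hg4 (t : ℂ) htS _ ?_ ?_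
        · rw [ib_conj, hg2 _ htS, Complex.conj_ofReal]
        · intro i hi
          rw [ib_conj, Complex.conj_re]
          exact hg3 _ htS i hi
      exact Complex.conj_eq_iff_im.1 h1
    have hslit : ∀ s ∈ Slit b, g s - c ∈ Complex.slitPlane := by
      intro s hs
      by_contra hcon
      rw [Complex.mem_slitPlane_iff, not_or] at hcon
      obtain ⟨h1, h2⟩ := hcon
      rw [not_not] at h2
      rw [Complex.sub_re, Complex.ofReal_re] at h1
      rw [Complex.sub_im, Complex.ofReal_im, sub_zero] at h2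
      have h3 : g s = (((g s).re : ℝ) : ℂ) := by
        apply Complex.ext
        · rw [Complex.ofReal_re]
        · rw [Complex.ofReal_im, h2]
      have h4 := hg2 s hs
      rw [h3, ib_real] at h4
      have h5 : s.im = 0 := by rw [← h4, Complex.ofReal_im]
      have h6 : |s.re| < b := by
        rcases hs with h6 | h6
        · exact absurd h5 h6
        · exact h6
      have h7 : s = ((s.re : ℝ) : ℂ) := by
        apply Complex.ext
        · rw [Complex.ofReal_re]
        · rw [Complex.ofReal_im, h5]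
      have hcont : ContinuousOn (fun t : ℝ => (g (t : ℂ)).re) (Set.Ioo (-b) b) := by
        refine Complex.continuous_re.comp_continuousOn ?_
        refine hg1.continuousOn.comp Complex.continuous_ofReal.continuousOn ?_
        intro t ht
        exact Or.inr (by rw [Complex.ofReal_re]; exact abs_lt.2 ht)
      have hsub : Set.uIcc ((f c)^[n] 0) s.re ⊆ Set.Ioo (-b) b :=
        Set.ordConnected_Ioo.uIcc_subset (abs_lt.1 hen) (abs_lt.1 h6)
      have hivt := intermediate_value_uIcc (hcont.mono hsub)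
      have hmem : c ∈ Set.uIcc ((fun t : ℝ => (g (t : ℂ)).re) ((f c)^[n] 0))
          ((fun t : ℝ => (g (t : ℂ)).re) s.re) := by
        rw [Set.mem_uIcc]
        right
        constructor
        · show (g ((s.re : ℝ) : ℂ)).re ≤ c
          rw [← h7]
          linarith
        · show c ≤ (g (((f c)^[n] 0 : ℝ) : ℂ)).re
          rw [hg5, Complex.ofReal_re, Function.iterate_succ_apply']
          unfold f
          nlinarith [sq_nonneg ((f c)^[i0] 0)]
      obtain ⟨t, ht, htc⟩ := hivt hmem
      have ht' := hsub ht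
      have htb : |t| < b := abs_lt.2 ht'
      have htS : (t : ℂ) ∈ Slit b := Or.inr (by rw [Complex.ofReal_re]; exact htb)
      have h8 : g (t : ℂ) = (c : ℂ) := by
        apply Complex.ext
        · rw [Complex.ofReal_re]
          exact htc
        · rw [Complex.ofReal_im, hreal t htb]
      have h9 := hg2 (t : ℂ) htS
      rw [h8, ib_real] at h9
      have h10 : (f c)^[k] c = t := by exact_mod_cast h9
      have h11 : (f c)^[k + 1] 0 = t := by
        rw [Function.iterate_succ_apply, ← h10]
        congr 1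
        simp [f]
      have h12 := hb (k + 1) (by omega) (by omega)
      rw [h11] at h12
      linarith
    -- the sign
    obtain ⟨ε, hε2, hεpos⟩ : ∃ ε : ℝ, ε ^ 2 = 1 ∧ 0 < (f c)^[i0] 0 * ε := by
      rcases lt_or_gt_of_ne he0 with h1 | h1
      · exact ⟨-1, by norm_num, by linarith⟩
      · exact ⟨1, by norm_num, by linarith⟩
    have hεC : (ε : ℂ) ^ 2 = 1 := by exact_mod_cast hε2
    obtain ⟨G, hG⟩ : ∃ G : ℂ → ℂ, ∀ s, G s = (ε : ℂ) * Complex.exp (Complex.log (g s - c) / 2) :=
      ⟨fun s => (ε : ℂ) * Complex.exp (Complex.log (g s - c) / 2), fun _ => rfl⟩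
    have hfG : ∀ s ∈ Slit b, fC (c : ℂ) (G s) = g s := by
      intro s hs
      unfold fC
      rw [hG, mul_pow, hεC, ib_sq (hslit s hs)]
      ring
    have hu : ∀ s ∈ Slit b, ∀ w, (fC (c:ℂ))^[k + 1] w = s →
        (∀ i < k + 1, 0 < (f c)^[i0 + i] 0 * ((fC (c:ℂ))^[i] w).re) → w = G s := by
      intro s hs w hw hpos
      have h1 : fC (c : ℂ) w = g s := by
        refine hg4 s hs _ ?_ ?_
        · rw [← Function.iterate_succ_apply]
          exact hw
        · intro i hi
          rw [← Function.iterate_succ_apply]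
          have h2 := hpos (i + 1) (by omega)
          have h3 : i0 + 1 + i = i0 + (i + 1) := by omega
          rw [h3]
          exact h2
      have h2 : w ^ 2 = g s - c := by
        rw [← h1]
        unfold fC
        ring
      have h3 := hpos 0 (by omega)
      have h4 : 0 < (f c)^[i0] 0 * w.re := h3
      have h5 : 0 < ((ε : ℂ) * w).re := by
        rw [Complex.re_ofReal_mul]
        rcases lt_or_gt_of_ne he0 with h6 | h6
        · have h7 : ε < 0 := by
            by_contra h8
            push Not at h8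
            nlinarith
          have h9 : w.re < 0 := by
            by_contra h8
            push Not at h8
            nlinarith
          exact mul_pos_of_neg_of_neg h7 h9
        · have h7 : 0 < ε := by
            by_contra h8
            push Not at h8
            nlinarith
          have h9 : 0 < w.re := by
            by_contra h8
            push Not at h8
            nlinarith
          exact mul_pos h7 h9
      have h6 : ((ε : ℂ) * w) ^ 2 = g s - c := by rw [mul_pow, hεC, one_mul, h2]
      have h7 := ib_uniq (hslit s hs) h6 h5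
      rw [hG, ← h7, ← mul_assoc]
      have h8 : (ε : ℂ) * ε = 1 := by rw [← sq]; exact hεC
      rw [h8, one_mul]
    have hGre : ∀ s ∈ Slit b, 0 < (f c)^[i0] 0 * (G s).re := by
      intro s hs
      rw [hG, Complex.re_ofReal_mul, ← mul_assoc]
      exact mul_pos hεpos (ib_re (hslit s hs))
    refine ⟨G, ?_, ?_, ?_, hu, ?_⟩
    · have h1 : G = fun s => (ε : ℂ) * Complex.exp (Complex.log (g s - c) / 2) := funext hG
      rw [h1]
      refine DifferentiableOn.const_mul ?_ _
      refine DifferentiableOn.cexp ?_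
      refine DifferentiableOn.div_const ?_ _
      exact DifferentiableOn.clog (hg1.sub_const _) hslit
    · intro s hs
      rw [Function.iterate_succ_apply, hfG s hs, hg2 s hs]
    · intro s hs i hi
      rcases i with _ | i
      · exact hGre s hs
      · rw [Function.iterate_succ_apply, hfG s hs]
        have h3 : i0 + (i + 1) = i0 + 1 + i := by omega
        rw [h3]
        exact hg3 s hs i (by omega)
    · symm
      refine hu _ henS _ ?_ ?_
      · rw [ib_real, ← Function.iterate_add_apply]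
        have h3 : k + 1 + i0 = n := by omega
        rw [h3]
      · intro i hi
        rw [ib_real, Complex.ofReal_re, ← Function.iterate_add_apply, Nat.add_comm i i0]
        have h4 := h.out (i0 + i) (by omega) (by omega)
        have h5 : (f c)^[i0 + i] 0 ≠ 0 := by
          intro h6
          rw [h6, abs_zero] at h4
          linarith
        exact mul_self_pos.2 h5

/-- TARGET -/
theorem inv_branch {c : ℝ} {n : ℕ} {A : ℝ} (h : RD c n A) : ∃ b : ℝ, A < b ∧ ∃ g : ℂ → ℂ,
    DifferentiableOn ℂ g (Slit b) ∧ (∀ s ∈ Slit b, (fC (c:ℂ))^[n - 1] (g s) = s) ∧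
    (∀ s ∈ Slit b, ∀ j, 0 < j → j < n → 0 < (f c)^[j] 0 * ((fC (c:ℂ))^[j - 1] (g s)).re) ∧
    (∀ s ∈ Slit b, ∀ w, (fC (c:ℂ))^[n - 1] w = s →
      (∀ j, 0 < j → j < n → 0 < (f c)^[j] 0 * ((fC (c:ℂ))^[j - 1] w).re) → w = g s) := by
  obtain ⟨b, hAb, hb⟩ := ib_min h
  have hn := h.hn
  obtain ⟨g, hg1, hg2, hg3, hg4, -⟩ := ib_step h hAb hb (n - 1) (by omega)
  have hn1 : n - (n - 1) = 1 := by omega
  rw [hn1] at hg3 hg4
  refine ⟨b, hAb, g, hg1, hg2, ?_, ?_⟩
  · intro s hs j hj1 hj2
    have h1 := hg3 s hs (j - 1) (by omega)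
    have h2 : 1 + (j - 1) = j := by omega
    rw [h2] at h1
    exact h1
  · intro s hs w hw hpos
    refine hg4 s hs w hw ?_
    intro i hi
    have h1 := hpos (1 + i) (by omega) (by omega)
    have h2 : 1 + i - 1 = i := by omega
    rw [h2] at h1
    exact h1

end Pool.Agent.Helper79_Real.K4
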