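import Pool.Agent.Helper79_Real.RBase

/-!
Lemma job K6 (choice of `δ`).  Definitions: Pool/Agent/Helper79_Real/{Defs,HDefs,RDefs,RBase}.lean on origin/main
(copy the folder to your working tree and `lake build Pool.Agent.Helper79_Real.RBase`).  Notation: `F = (fC c)^[n]`, `z = x + i y`,
`Sd b δ = {z = 0 or |z|^4 < 4 b^2 (x^2/(4+δ^2) + y^2/δ^2)}`, `Sdc b δ` the same with `≤`; `Cp c n` = the set of `z` with `0 ≤ e_j * Re f^j(z)`, `0 < j < n`, `e_j = f^j(0)` real.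

Plain-words proof.
(a) Let `z ∈ Cp c n`, `|z| ≥ 8`, `0 < δ`, `F z ∈ Sdc b δ`.  Then `z ∈ Sd b δ`: for `|w| ≥ 8`, `|f w| ≥ |w|^2 - 2 ≥ |w|` (`|c| ≤ 2`), so `|F z| ≥ |f z| ≥ |z|^2 - 2 ≥ 4 |z|`.  From `F z ∈ Sdc`: with `u = F z`,
`|u|^4 ≤ 4 b^2 |u|^2/δ^2` (as `1/(4+δ^2) ≤ 1/δ^2`), so `|u| ≤ 2 b/δ` and `|z| ≤ b/(2δ)`.  The condition `j = 1` of `Cp` (`e_1 = c < 0`): `Re f(z) ≤ 0`, i.e. `x^2 - y^2 + c ≤ 0`, so
`2 y^2 ≥ |z|^2 + c ≥ |z|^2/2`, `y^2 ≥ |z|^2/4`.  So `4 b^2 y^2/δ^2 ≥ b^2 |z|^2/δ^2 ≥ 4 |z|^4 > |z|^4`.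
(b) There is `δ₁ > 0` such that for `0 < δ < δ₁` every `z ∈ Cp c n` with `|z| ≤ 8` is in `Sd b δ`.  Otherwise there are `δ_k → 0+`, `z_k ∈ Cp c n`, `|z_k| ≤ 8`, `z_k ∉ Sd b δ_k`; pass to a subsequence
converging to `z*` (compactness of the closed ball); `Cp c n` is closed, so `z* ∈ Cp c n`.  `z_k ∉ Sd`: `z_k ≠ 0` and `|z_k|^4 ≥ 4 b^2 (x_k^2/(4+δ_k^2) + y_k^2/δ_k^2)`.  So `y_k^2 ≤ 8^4 δ_k^2/(4 b^2) → 0`
and (since `1/δ_k^2 ≥ 1/(4+δ_k^2)`) `|z_k|^4 ≥ 4 b^2 |z_k|^2/(4+δ_k^2)`, `|z_k|^2 ≥ 4b^2/(4+δ_k^2)`.  In the limit `z* = x*` is real and `|x*| ≥ b > A`.  But `z* ∈ Cp c n` with `z*` real means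
`0 ≤ e_j * f^j(x*)` for `0<j<n` so `|x*| ≤ A` by `RD.clo`: contradiction.
(c) For real `x` with `|x| ≤ A`: `x = 0` or `x^4 < 4 b^2 x^2/(4+δ^2)`, which holds if `A^2 (4 + δ^2) < 4 b^2`; true for small `δ`.
Take `δ` small enough for (b) and (c).
-/

namespace Pool.Agent.Helper79_Real.K6

theorem k6_cont (c : ℂ) (j : ℕ) : Continuous (fC c)^[j] := by
  apply Continuous.iterate
  unfold fC
  fun_prop

theorem k6_real (c x : ℝ) (j : ℕ) : (fC (c : ℂ))^[j] (x : ℂ) = (((f c)^[j] x : ℝ) : ℂ) := by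
  induction j with
  | zero => rfl
  | succ j ih =>
    rw [Function.iterate_succ_apply', Function.iterate_succ_apply', ih]
    unfold fC f
    push_cast
    rfl

theorem k6_sq (z : ℂ) : ‖z‖ ^ 2 = z.re ^ 2 + z.im ^ 2 := by
  rw [← Complex.normSq_eq_norm_sq, Complex.normSq_apply]
  ring

theorem k6_grow {c : ℝ} (h1 : c < -1) (h2 : -2 ≤ c) {w : ℂ} (hw : 8 ≤ ‖w‖) :
    ‖w‖ ^ 2 - 2 ≤ ‖fC c w‖ ∧ ‖w‖ ≤ ‖fC c w‖ := by
  have hc : ‖(c : ℂ)‖ ≤ 2 := by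
    rw [Complex.norm_real, Real.norm_eq_abs, abs_le]
    constructor <;> linarith
  have h3 : ‖w ^ 2‖ - ‖(c : ℂ)‖ ≤ ‖w ^ 2 + c‖ := by
    have := norm_sub_norm_le (w ^ 2) (-(c : ℂ))
    rw [norm_neg, sub_neg_eq_add] at this
    exact this
  rw [norm_pow] at h3
  unfold fC
  constructor
  · linarith
  · nlinarith

theorem k6_iter {c : ℝ} (h1 : c < -1) (h2 : -2 ≤ c) {z : ℂ} (hz : 8 ≤ ‖z‖) (m : ℕ) :
    ‖z‖ ^ 2 - 2 ≤ ‖(fC (c : ℂ))^[m + 1] z‖ := by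
  induction m with
  | zero => exact (k6_grow h1 h2 hz).1
  | succ m ih =>
    rw [Function.iterate_succ_apply']
    have h3 : 8 ≤ ‖(fC (c : ℂ))^[m + 1] z‖ := by nlinarith
    exact ih.trans (k6_grow h1 h2 h3).2

theorem k6_small {b b' δ : ℝ} (hb' : 0 < b') (hδ : 0 < δ) (h : b' ^ 2 * (4 + δ ^ 2) ≤ 4 * b ^ 2)
    {z : ℂ} (hz : ‖z‖ < b') : z ∈ Sd b δ := by
  by_cases h0 : z = 0
  · exact Or.inl h0
  · right
    have hn : 0 < ‖z‖ := norm_pos_iff.2 h0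
    have hs := k6_sq z
    have h1 : (z.re ^ 2 + z.im ^ 2) / (4 + δ ^ 2) ≤ z.re ^ 2 / (4 + δ ^ 2) + z.im ^ 2 / δ ^ 2 := by
      rw [add_div]
      gcongr
      linarith
    rw [← hs] at h1
    have hb2 : 0 ≤ 4 * b ^ 2 := by positivity
    have h2 : 4 * b ^ 2 * (‖z‖ ^ 2 / (4 + δ ^ 2)) ≤
        4 * b ^ 2 * (z.re ^ 2 / (4 + δ ^ 2) + z.im ^ 2 / δ ^ 2) :=
      mul_le_mul_of_nonneg_left h1 hb2
    refine lt_of_lt_of_le ?_ h2
    have hq : 0 < 4 + δ ^ 2 := by positivity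
    rw [← mul_div_assoc, lt_div_iff₀ hq]
    have h3 : ‖z‖ ^ 2 < b' ^ 2 := by nlinarith
    have h4 : ‖z‖ ^ 2 * (4 + δ ^ 2) < 4 * b ^ 2 := by nlinarith
    have h5 : 0 < ‖z‖ ^ 2 := by positivity
    nlinarith

theorem k6_big {c : ℝ} {n : ℕ} {A : ℝ} (h : RD c n A) {b δ : ℝ} (hδ : 0 < δ) {z : ℂ}
    (hz : z ∈ Cp c n) (h8 : 8 ≤ ‖z‖) (hF : (fC (c : ℂ))^[n] z ∈ Sdc b δ) : z ∈ Sd b δ := by
  right
  obtain ⟨m, rfl⟩ : ∃ m, n = m + 1 := ⟨n - 1, by have := h.hn; omega⟩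
  have hu := k6_iter h.hc h.hc2 h8 m
  set u := (fC (c : ℂ))^[m + 1] z with hudef
  have hu4 : 4 * ‖z‖ ≤ ‖u‖ := by nlinarith
  have hupos : 0 < ‖u‖ := by linarith
  have hsu := k6_sq u
  have hsz := k6_sq z
  have hδ2 : 0 < δ ^ 2 := by positivity
  -- bound for u
  have h1 : ‖u‖ ^ 4 ≤ 4 * b ^ 2 * (u.re ^ 2 / (4 + δ ^ 2) + u.im ^ 2 / δ ^ 2) := hF
  have h2 : u.re ^ 2 / (4 + δ ^ 2) + u.im ^ 2 / δ ^ 2 ≤ ‖u‖ ^ 2 / δ ^ 2 := by
    rw [hsu, add_div]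
    gcongr
    linarith
  have h3 : ‖u‖ ^ 4 ≤ 4 * b ^ 2 * (‖u‖ ^ 2 / δ ^ 2) :=
    h1.trans (mul_le_mul_of_nonneg_left h2 (by positivity))
  have h4 : ‖u‖ ^ 2 * δ ^ 2 ≤ 4 * b ^ 2 := by
    rw [← mul_div_assoc, le_div_iff₀ hδ2] at h3
    have : 0 < ‖u‖ ^ 2 := by positivity
    by_contra hcon
    push Not at hcon
    nlinarith
  have h5 : 16 * ‖z‖ ^ 2 ≤ ‖u‖ ^ 2 := by nlinarith [norm_nonneg z]
  have h6 : 4 * ‖z‖ ^ 2 * δ ^ 2 ≤ b ^ 2 := by nlinarith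
  -- the sign condition
  have hc1 : 0 ≤ (f c)^[1] 0 * ((fC (c : ℂ))^[1] z).re := hz 1 one_pos (by have := h.hn; omega)
  have e1 : (f c)^[1] 0 = c := by
    show f c 0 = c
    unfold f
    ring
  have e2 : ((fC (c : ℂ))^[1] z).re = z.re ^ 2 - z.im ^ 2 + c := by
    show (fC (c : ℂ) z).re = _
    unfold fC
    simp [pow_two]
  rw [e1, e2] at hc1
  have hcneg := h.hc
  have hc2 := h.hc2
  have h7 : z.re ^ 2 - z.im ^ 2 + c ≤ 0 := by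
    by_contra hcon
    push Not at hcon
    nlinarith
  have h8' : 64 ≤ ‖z‖ ^ 2 := by nlinarith
  have h9 : ‖z‖ ^ 2 ≤ 4 * z.im ^ 2 := by nlinarith
  have h10 : z.im ^ 2 / δ ^ 2 ≤ z.re ^ 2 / (4 + δ ^ 2) + z.im ^ 2 / δ ^ 2 := by
    have : 0 ≤ z.re ^ 2 / (4 + δ ^ 2) := by positivity
    linarith
  have h11 : 4 * b ^ 2 * (z.im ^ 2 / δ ^ 2) ≤
      4 * b ^ 2 * (z.re ^ 2 / (4 + δ ^ 2) + z.im ^ 2 / δ ^ 2) :=
    mul_le_mul_of_nonneg_left h10 (by positivity)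
  refine lt_of_lt_of_le ?_ h11
  rw [← mul_div_assoc, lt_div_iff₀ hδ2]
  have hb2 : 0 ≤ b ^ 2 := by positivity
  have hz4 : ‖z‖ ^ 4 = ‖z‖ ^ 2 * ‖z‖ ^ 2 := by ring
  have h12 : 4 * (‖z‖ ^ 4 * δ ^ 2) ≤ b ^ 2 * ‖z‖ ^ 2 := by
    rw [hz4]
    nlinarith
  have h13 : b ^ 2 * ‖z‖ ^ 2 ≤ 4 * b ^ 2 * z.im ^ 2 := by nlinarith
  have h14 : 0 < ‖z‖ ^ 4 * δ ^ 2 := by positivity
  linarith

/-- TARGET (1) -/
theorem Cp_closed (c : ℝ) (n : ℕ) : IsClosed (Cp c n) := by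
  have : Cp c n = ⋂ (j : ℕ) (_ : 0 < j) (_ : j < n),
      {z : ℂ | 0 ≤ (f c)^[j] 0 * ((fC (c : ℂ))^[j] z).re} := by
    ext z
    simp only [Cp, Set.mem_ofPred_eq, Set.mem_iInter]
  rw [this]
  refine isClosed_iInter fun j => isClosed_iInter fun _ => isClosed_iInter fun _ => ?_
  apply isClosed_le continuous_const
  exact continuous_const.mul (Complex.continuous_re.comp (k6_cont _ _))

/-- TARGET (2) -/
theorem exists_delta {c : ℝ} {n : ℕ} {A : ℝ} (h : RD c n A) {b : ℝ} (hb : A < b) : ∃ δ : ℝ, 0 < δ ∧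
    (∀ x : ℝ, |x| ≤ A → (x : ℂ) ∈ Sd b δ) ∧
    ∀ z ∈ Cp c n, (fC (c:ℂ))^[n] z ∈ Sdc b δ → z ∈ Sd b δ := by
  have hA := h.pos
  obtain ⟨b', hb1, hb2⟩ := exists_between hb
  have hb'pos : 0 < b' := hA.trans hb1
  -- points of modulus at least b' are away from the real axis
  have key : ∃ η : ℝ, 0 < η ∧ ∀ z ∈ Cp c n, ‖z‖ ≤ 8 → b' ≤ ‖z‖ → η ≤ |z.im| := by
    by_cases hne : (Cp c n ∩ {z : ℂ | ‖z‖ ≤ 8} ∩ {z : ℂ | b' ≤ ‖z‖}).Nonempty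
    · have hcomp : IsCompact (Cp c n ∩ {z : ℂ | ‖z‖ ≤ 8} ∩ {z : ℂ | b' ≤ ‖z‖}) := by
        have h1 : IsCompact (Metric.closedBall (0 : ℂ) 8) := isCompact_closedBall 0 8
        have h2 : IsClosed (Cp c n ∩ {z : ℂ | ‖z‖ ≤ 8} ∩ {z : ℂ | b' ≤ ‖z‖}) :=
          ((Cp_closed c n).inter (isClosed_le continuous_norm continuous_const)).inter
            (isClosed_le continuous_const continuous_norm)
        apply h1.of_isClosed_subset h2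
        rintro z ⟨⟨_, h3⟩, _⟩
        rw [Metric.mem_closedBall, dist_zero_right]
        exact h3
      obtain ⟨z0, hz0, hmin⟩ := hcomp.exists_isMinOn hne
        (f := fun z : ℂ => |z.im|) (Complex.continuous_im.abs.continuousOn)
      refine ⟨|z0.im|, ?_, ?_⟩
      · rw [abs_pos]
        intro him
        have hz0r : z0 = (z0.re : ℂ) := by
          apply Complex.ext
          · simp
          · simp [him]
        have hle : |z0.re| ≤ A := by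
          apply h.clo
          intro j hj hjn
          have := hz0.1.1 j hj hjn
          rw [hz0r, k6_real, Complex.ofReal_re] at this
          exact this
        have hb'' : b' ≤ ‖z0‖ := hz0.2
        rw [hz0r, Complex.norm_real, Real.norm_eq_abs] at hb''
        linarith
      · intro z hz h8 hbz
        exact hmin ⟨⟨hz, h8⟩, hbz⟩
    · refine ⟨1, one_pos, ?_⟩
      intro z hz h8 hbz
      exact absurd ⟨z, ⟨hz, h8⟩, hbz⟩ hne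
  obtain ⟨η, hη, hkey⟩ := key
  -- choice of delta
  set ε1 := 4 * (b ^ 2 - b' ^ 2) / b' ^ 2 with hε1
  set ε2 := 4 * b ^ 2 * η ^ 2 / 8 ^ 4 with hε2
  have hbb : b' ^ 2 < b ^ 2 := by nlinarith
  have hbpos : 0 < b := hb'pos.trans hb2
  have hp1 : 0 < ε1 := by
    rw [hε1]
    apply div_pos _ (by positivity)
    linarith
  have hp2 : 0 < ε2 := by positivity
  set δ := min 1 (min (ε1 / 2) (ε2 / 2)) with hδdef
  have hδ : 0 < δ := lt_min one_pos (lt_min (by linarith) (by linarith))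
  have hd1 : δ ≤ 1 := min_le_left _ _
  have hd2 : δ ≤ ε1 / 2 := (min_le_right _ _).trans (min_le_left _ _)
  have hd3 : δ ≤ ε2 / 2 := (min_le_right _ _).trans (min_le_right _ _)
  have hdd : δ ^ 2 ≤ δ := by nlinarith
  have hs1 : δ ^ 2 < ε1 := by linarith
  have hs2 : δ ^ 2 < ε2 := by linarith
  have hcond : b' ^ 2 * (4 + δ ^ 2) ≤ 4 * b ^ 2 := by
    rw [hε1, lt_div_iff₀ (by positivity)] at hs1
    linarith
  refine ⟨δ, hδ, ?_, ?_⟩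
  · intro x hx
    apply k6_small hb'pos hδ hcond
    rw [Complex.norm_real, Real.norm_eq_abs]
    linarith
  · intro z hz hF
    by_cases h8 : 8 ≤ ‖z‖
    · exact k6_big h hδ hz h8 hF
    · push Not at h8
      by_cases hb' : ‖z‖ < b'
      · exact k6_small hb'pos hδ hcond hb'
      · push Not at hb'
        have him := hkey z hz h8.le hb'
        right
        have hδ2 : 0 < δ ^ 2 := by positivity
        have h10 : z.im ^ 2 / δ ^ 2 ≤ z.re ^ 2 / (4 + δ ^ 2) + z.im ^ 2 / δ ^ 2 := by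
          have : 0 ≤ z.re ^ 2 / (4 + δ ^ 2) := by positivity
          linarith
        have h11 : 4 * b ^ 2 * (z.im ^ 2 / δ ^ 2) ≤
            4 * b ^ 2 * (z.re ^ 2 / (4 + δ ^ 2) + z.im ^ 2 / δ ^ 2) :=
          mul_le_mul_of_nonneg_left h10 (by positivity)
        refine lt_of_lt_of_le ?_ h11
        rw [← mul_div_assoc, lt_div_iff₀ hδ2]
        have h12 : ‖z‖ ^ 4 ≤ 8 ^ 4 := by
          gcongr
        have h13 : η ^ 2 ≤ z.im ^ 2 := by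
          rw [← sq_abs z.im]
          gcongr
        rw [hε2, lt_div_iff₀ (by norm_num)] at hs2
        have h14 : 4 * b ^ 2 * η ^ 2 ≤ 4 * b ^ 2 * z.im ^ 2 :=
          mul_le_mul_of_nonneg_left h13 (by positivity)
        calc ‖z‖ ^ 4 * δ ^ 2 ≤ 8 ^ 4 * δ ^ 2 := mul_le_mul_of_nonneg_right h12 hδ2.le
          _ = δ ^ 2 * 8 ^ 4 := by ring
          _ < 4 * b ^ 2 * η ^ 2 := hs2
          _ ≤ 4 * b ^ 2 * z.im ^ 2 := h14

end Pool.Agent.Helper79_Real.K6
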