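import Pool.Agent.Helper79_Real.K0
import Pool.Agent.Helper79_Real.K1

/-!
Lemma job K7 (from an inverse branch to a renormalization).  Definitions: Pool/Agent/Helper79_Real/{Defs,HDefs,RDefs,RBase}.lean on origin/main
(copy the folder to your working tree and `lake build Pool.Agent.Helper79_Real.RBase`).

Setting: `F = f^n`, `f = fC c`.  `h` is holomorphic on `S` with `f^(n-1)(h s) = s` for `s ∈ S`; hence `h` is injective on `S`.  For `Q ⊆ S` put `Ψ Q = {z | z^2 + c ∈ h '' Q}`.  Note
`z ∈ Ψ Q` iff `F z ∈ Q` and `z^2 + c = h (F z)` (because `F z = f^(n-1)(z^2+c)`).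

Plain-words proof.
1. If `BD Q`, `Q ⊆ S` then `BD (h '' Q)` (compose the conformal map with `h`), and if moreover `c ∈ h '' Q` then `BD (Ψ Q)` (`BD_double`).  Put `U_0 = S`, `U_{k+1} = Ψ (U_k)`.  By `hcl` `U_1 ⊆ S = U_0`,
   and `Ψ` is monotone, so the `U_k` decrease and are all contained in `S`.
2. `F^m(0) ∈ U_k` for all `m, k` (for `m = 0` and `k = 0`: see below): `F^m(0) = f^(m n)(0)`.  For `m ≥ 1`, `F^m(0) ∈ S = U_0` by `hcrit` and, if `F^(m+1)(0) ∈ U_k`, then `F^m(0) ∈ U_{k+1}`, because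
   `(F^m(0))^2 + c = f^(m n + 1)(0) = h (F^(m+1)(0))` by `hcrit` (true for `m = 0` too).  So `F^m(0) ∈ U_k` for `m ≥ 1` and all `k`, by induction on `k`, and `0 ∈ U_{k+1}` for all `k`; so
   `0 ∈ U_1 ⊆ S` as well.  In particular `c = f(0) = h(F 0) ∈ h '' U_k` for all `k`.  So all `U_k` are `BD`.
3. `closure U_{k+1} ⊆ U_k`, and these closures are compact (`S` is bounded).  For `k = 0` this is `hcl`.  If `closure U_k ⊆ U_{k-1}` then `closure U_k` is a compact subset of `S`, `h` is continuous on it, so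
   `{z | z^2 + c ∈ h '' closure U_k}` is closed, contains `Ψ U_k = U_{k+1}`, and is contained in `Ψ U_{k-1} = U_k`.
4. Take `V = U_1`, `U = U_2`.  Both are disks (`BD_isDisk`), `0 ∈ U`, `closure U` is compact and contained in `V`.  `F` maps `U = Ψ V` into `V`.  For compact `K ⊆ V`:
   `U ∩ F⁻¹(K) = {z | z^2 + c ∈ h '' K}` is closed (compact image, continuity) and bounded (contained in `U`), so compact.  For `w ∈ V` : `{z ∈ U | F z = w} = {z | z^2 + c = h w}` has at most two elements,
   and exactly two if `h w ≠ c`; as `h` is injective and `V` is an infinite set (image of a ball), there is such a `w`.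
5. `{z | ∀ k, F^k(z) ∈ U} = ⋂ k, U_k`: if `F^k(z) ∈ U = U_2` for all `k` then `F^k(z) ∈ U_j` for all `k` and `j`, by induction on `j`, because `F^k(z) ∈ U_2` gives
   `(F^k z)^2 + c = h (F^(k+1) z)`.  Conversely `F` maps `U_{j+1}` into `U_j`.  And `⋂ U_k = ⋂ closure U_{k+1}` is a decreasing intersection of compact connected sets (closures of connected
   sets; `BD` sets are connected as images of the ball), so it is compact and connected (if it were contained in the union of two disjoint open sets `A ∪ B`, then some `closure U_k ⊆ A ∪ B` by compactness);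
   it contains `0`.
-/

namespace Pool.Agent.Helper79_Real.K7

open K0 (BD_isDisk)

open K1 (BD_double)

open Set Topology

theorem k7_conn {C : ℕ → Set ℂ} (hanti : Antitone C) (hc : ∀ k, IsCompact (C k))
    (hp : ∀ k, IsPreconnected (C k)) : IsPreconnected (⋂ k, C k) := by
  have hcl : IsClosed (⋂ k, C k) := isClosed_iInter fun k => (hc k).isClosed
  rw [isPreconnected_iff_subset_of_fully_disjoint_closed hcl]
  intro u v hu hv huv hd
  obtain ⟨A, B, hA, hB, huA, hvB, hAB⟩ := normal_separation hu hv hd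
  obtain ⟨k, hk⟩ := exists_subset_nhds_of_isCompact' (V := C) (directed_of_isDirected_le
    (fun i j hij => hanti hij)) hc (fun k => (hc k).isClosed) (U := A ∪ B) (fun x hx => by
      refine (hA.union hB).mem_nhds ?_
      rcases huv hx with h | h
      · exact Or.inl (huA h)
      · exact Or.inr (hvB h))
  rcases (hp k).subset_or_subset hA hB hAB hk with h | h
  · left
    intro x hx
    rcases huv hx with h1 | h1
    · exact h1
    · exact absurd (hvB h1) (Set.disjoint_left.1 hAB (h (mem_iInter.1 hx k)))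
  · right
    intro x hx
    rcases huv hx with h1 | h1
    · exact absurd (h (mem_iInter.1 hx k)) (Set.disjoint_left.1 hAB (huA h1))
    · exact h1

/-- preimage of `h '' Q` under `z ↦ z^2 + c` -/
def k7_Psi (c : ℂ) (h : ℂ → ℂ) (Q : Set ℂ) : Set ℂ := {z | z ^ 2 + c ∈ h '' Q}

/-- the nested sets -/
def k7_U (c : ℂ) (h : ℂ → ℂ) (S : Set ℂ) : ℕ → Set ℂ
  | 0 => S
  | k + 1 => k7_Psi c h (k7_U c h S k)

theorem k7_BD_image {S Q : Set ℂ} {h : ℂ → ℂ} (hd : DifferentiableOn ℂ h S)
    (hinj : InjOn h S) (hQ : BD Q) (hQS : Q ⊆ S) : BD (h '' Q) := by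
  obtain ⟨φ, h1, h2, h3⟩ := hQ
  have hm : MapsTo φ (Metric.ball 0 1) S := fun z hz => hQS (h3 ▸ mem_image_of_mem φ hz)
  refine ⟨h ∘ φ, hd.comp h1 hm, hinj.comp h2 hm, ?_⟩
  rw [image_comp, h3]

theorem k7_roots (c w : ℂ) : ∃ r : ℂ, {z : ℂ | z ^ 2 + c = w} = {r, -r} ∧ r ^ 2 + c = w := by
  obtain ⟨r, hr⟩ := IsAlgClosed.exists_pow_nat_eq (w - c) (n := 2) (by norm_num)
  refine ⟨r, ?_, by rw [hr]; ring⟩
  ext z
  simp only [mem_ofPred_eq, mem_insert_iff, mem_singleton_iff]
  constructor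
  · intro hz
    have h1 : z ^ 2 = r ^ 2 := by rw [hr, ← hz]; ring
    exact sq_eq_sq_iff_eq_or_eq_neg.1 h1
  · rintro (rfl | rfl)
    · rw [hr]; ring
    · rw [neg_sq, hr]; ring

/-- TARGET -/
theorem renorm_of {c : ℂ} {n : ℕ} (hn : 2 ≤ n) {S : Set ℂ} {h : ℂ → ℂ} (hS : BD S)
    (hSb : Bornology.IsBounded S) (hd : DifferentiableOn ℂ h S)
    (hinv : ∀ s ∈ S, (fC c)^[n - 1] (h s) = s) (hcl : closure {z : ℂ | z ^ 2 + c ∈ h '' S} ⊆ S)
    (hcrit : ∀ m : ℕ, (fC c)^[(m + 1) * n] 0 ∈ S ∧
      h ((fC c)^[(m + 1) * n] 0) = (fC c)^[m * n + 1] 0) : Renormalizable c := by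
  have hinj : InjOn h S := by
    intro s hs s' hs' he
    rw [← hinv s hs, ← hinv s' hs', he]
  have hF : ∀ z : ℂ, (fC c)^[n] z = (fC c)^[n - 1] (z ^ 2 + c) := by
    intro z
    obtain ⟨j, rfl⟩ : ∃ j, n = j + 1 := ⟨n - 1, by omega⟩
    rw [Function.iterate_succ_apply]
    rfl
  -- description of `Psi`
  have hPsi : ∀ Q ⊆ S, ∀ z, z ∈ k7_Psi c h Q ↔ (fC c)^[n] z ∈ Q ∧ z ^ 2 + c = h ((fC c)^[n] z) := by
    intro Q hQ z
    constructor
    · rintro ⟨s, hs, hsz⟩
      have e : (fC c)^[n] z = s := by rw [hF, ← hsz, hinv s (hQ hs)]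
      rw [e]
      exact ⟨hs, hsz.symm⟩
    · rintro ⟨h1, h2⟩
      exact ⟨_, h1, h2.symm⟩
  obtain ⟨U, hU⟩ : ∃ U, U = k7_U c h S := ⟨_, rfl⟩
  have hU0 : U 0 = S := by rw [hU]; rfl
  have hUs : ∀ k, U (k + 1) = k7_Psi c h (U k) := fun k => by rw [hU]; rfl
  have hmono : ∀ Q Q' : Set ℂ, Q ⊆ Q' → k7_Psi c h Q ⊆ k7_Psi c h Q' := fun Q Q' hQ z hz =>
    image_mono hQ hz
  have hU1 : U 1 ⊆ U 0 := by
    rw [hUs, hU0]
    exact subset_closure.trans hcl
  have hstep : ∀ k, U (k + 1) ⊆ U k := by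
    intro k
    induction k with
    | zero => exact hU1
    | succ k ih =>
      rw [hUs (k + 1), hUs k]
      rw [hUs k] at ih
      exact hmono _ _ (by rw [← hUs k] at ih ⊢; exact ih)
  have hanti : Antitone U := antitone_nat_of_succ_le hstep
  have hUS : ∀ k, U k ⊆ S := fun k => by rw [← hU0]; exact hanti (Nat.zero_le k)
  have hmem : ∀ k z, z ∈ U (k + 1) ↔ (fC c)^[n] z ∈ U k ∧ z ^ 2 + c = h ((fC c)^[n] z) :=
    fun k z => by rw [hUs]; exact hPsi _ (hUS k) z
  -- the critical orbit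
  have horb : ∀ k m, (fC c)^[(m + 1) * n] 0 ∈ U k := by
    intro k
    induction k with
    | zero => intro m; rw [hU0]; exact (hcrit m).1
    | succ k ih =>
      intro m
      rw [hmem, ← Function.iterate_add_apply]
      have e : n + (m + 1) * n = (m + 1 + 1) * n := by ring
      rw [e]
      refine ⟨ih (m + 1), ?_⟩
      rw [(hcrit (m + 1)).2, Function.iterate_succ_apply']
      rfl
  have hF0 : h ((fC c)^[n] 0) = c := by
    have := (hcrit 0).2
    rw [Nat.zero_add, one_mul, Nat.zero_mul, Nat.zero_add] at this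
    rw [this]
    show (0 : ℂ) ^ 2 + c = c
    ring
  have hF0U : ∀ k, (fC c)^[n] 0 ∈ U k := fun k => by
    have := horb k 0
    rwa [Nat.zero_add, one_mul] at this
  have h0 : ∀ k, (0 : ℂ) ∈ U (k + 1) := fun k => by
    rw [hmem, hF0]
    exact ⟨hF0U k, by ring⟩
  have hBD : ∀ k, BD (U k) := by
    intro k
    induction k with
    | zero => rw [hU0]; exact hS
    | succ k ih =>
      rw [hUs]
      exact BD_double (k7_BD_image hd hinj ih (hUS k)) ⟨_, hF0U k, hF0⟩
  -- closures
  have hcpt : ∀ k, IsCompact (closure (U k)) := fun k =>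
    Metric.isCompact_of_isClosed_isBounded isClosed_closure (hSb.subset (hUS k)).closure
  have hcont : ContinuousOn h S := hd.continuousOn
  have hclosed : ∀ K ⊆ S, IsCompact K → IsClosed {z : ℂ | z ^ 2 + c ∈ h '' K} := by
    intro K hK hKc
    have h1 : IsClosed (h '' K) := (hKc.image_of_continuousOn (hcont.mono hK)).isClosed
    exact h1.preimage (by fun_prop : Continuous fun z : ℂ => z ^ 2 + c)
  have hclos : ∀ k, closure (U (k + 1)) ⊆ U k := by
    intro k
    induction k with
    | zero => rw [hUs, hU0]; exact hcl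
    | succ k ih =>
      have h1 : closure (U (k + 1)) ⊆ S := ih.trans (hUS k)
      have h2 : U (k + 1 + 1) ⊆ {z : ℂ | z ^ 2 + c ∈ h '' closure (U (k + 1))} := by
        rw [hUs (k + 1)]
        exact hmono _ _ subset_closure
      have h4 := hmono _ _ ih
      rw [← hUs k] at h4
      exact (closure_minimal h2 (hclosed _ h1 (hcpt _))).trans h4
  refine ⟨n, hn, U 2, U 1, BD_isDisk (hBD 2), BD_isDisk (hBD 1), h0 1, hcpt 2, hclos 1,
    ⟨?_, ?_, ?_, ?_⟩, ?_⟩
  · intro z hz
    exact ((hmem 1 z).1 hz).1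
  · intro K hK hKc
    have e : U 2 ∩ (fC c)^[n] ⁻¹' K = {z : ℂ | z ^ 2 + c ∈ h '' K} := by
      ext z
      constructor
      · rintro ⟨h1, h2⟩
        exact ⟨_, h2, ((hmem 1 z).1 h1).2.symm⟩
      · intro hz
        have h1 := (hPsi K (hK.trans (hUS 1)) z).1 hz
        exact ⟨(hmem 1 z).2 ⟨hK h1.1, h1.2⟩, h1.1⟩
    rw [e]
    refine Metric.isCompact_of_isClosed_isBounded (hclosed K (hK.trans (hUS 1)) hKc) ?_
    rw [← e]
    exact hSb.subset (inter_subset_left.trans (hUS 2))
  · intro w hw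
    obtain ⟨r, hr, -⟩ := k7_roots c (h w)
    have h1 : {z | z ∈ U 2 ∧ (fC c)^[n] z = w} ⊆ {r, -r} := by
      rw [← hr]
      rintro z ⟨h1, h2⟩
      have h3 := ((hmem 1 z).1 h1).2
      rw [h2] at h3
      exact h3
    refine (encard_le_encard h1).trans ?_
    exact (encard_insert_le _ _).trans (by rw [encard_singleton]; norm_num)
  · obtain ⟨φ, f1, f2, f3⟩ := hBD 1
    have hb0 : (0 : ℂ) ∈ Metric.ball (0 : ℂ) 1 := by simp
    have hb1 : (1 / 2 : ℂ) ∈ Metric.ball (0 : ℂ) 1 := by
      rw [mem_ball_zero_iff]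
      norm_num
    have hw0 : φ 0 ∈ U 1 := f3 ▸ mem_image_of_mem φ hb0
    have hw1 : φ (1 / 2) ∈ U 1 := f3 ▸ mem_image_of_mem φ hb1
    have hne : φ 0 ≠ φ (1 / 2) := fun h => by
      have := f2 hb0 hb1 h
      norm_num at this
    have hne' : h (φ 0) ≠ h (φ (1 / 2)) := fun he => hne (hinj (hUS 1 hw0) (hUS 1 hw1) he)
    have hex : ∃ w ∈ U 1, h w ≠ c := by
      by_cases h1 : h (φ 0) = c
      · exact ⟨_, hw1, fun h2 => hne' (h1.trans h2.symm)⟩
      · exact ⟨_, hw0, h1⟩
    obtain ⟨w, hw, hwc⟩ := hex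
    refine ⟨w, hw, ?_⟩
    obtain ⟨r, hr, hr2⟩ := k7_roots c (h w)
    have e : {z | z ∈ U 2 ∧ (fC c)^[n] z = w} = {r, -r} := by
      rw [← hr]
      ext z
      constructor
      · rintro ⟨h1, h2⟩
        have h3 := ((hmem 1 z).1 h1).2
        rw [h2] at h3
        exact h3
      · intro hz
        have h3 : z ^ 2 + c = h w := hz
        have h4 : (fC c)^[n] z = w := by rw [hF, h3, hinv w (hUS 1 hw)]
        refine ⟨(hmem 1 z).2 ?_, h4⟩
        rw [h4]
        exact ⟨hw, h3⟩
    rw [e]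
    refine encard_pair ?_
    intro hrr
    have h5 : r = 0 := by
      have : (2 : ℂ) * r = 0 := by linear_combination hrr
      simpa using this
    rw [h5] at hr2
    apply hwc
    rw [← hr2]
    ring
  · have e : {z | ∀ k : ℕ, ((fC c)^[n])^[k] z ∈ U 2} = ⋂ k, closure (U k) := by
      apply Subset.antisymm
      · intro z hz
        have h1 : ∀ j k, ((fC c)^[n])^[k] z ∈ U j := by
          intro j
          induction j with
          | zero => intro k; exact hanti (Nat.zero_le 2) (hz k)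
          | succ j ih =>
            intro k
            rw [hmem, ← Function.iterate_succ_apply' ((fC c)^[n]) k z]
            refine ⟨ih (k + 1), ?_⟩
            have := ((hmem 1 _).1 (hz k)).2
            rw [← Function.iterate_succ_apply' ((fC c)^[n]) k z] at this
            exact this
        exact mem_iInter.2 fun j => subset_closure (h1 j 0)
      · intro z hz
        have h1 : ∀ j, z ∈ U j := fun j => hclos j (mem_iInter.1 hz (j + 1))
        have h2 : ∀ k j, ((fC c)^[n])^[k] z ∈ U j := by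
          intro k
          induction k with
          | zero => exact h1
          | succ k ih =>
            intro j
            rw [Function.iterate_succ_apply']
            exact ((hmem j _).1 (ih (j + 1))).1
        intro k
        exact h2 k 2
    rw [e]
    refine ⟨⟨0, mem_iInter.2 fun k => subset_closure (hanti (Nat.le_succ k) (h0 k))⟩, ?_⟩
    refine k7_conn (fun i j hij => closure_mono (hanti hij)) hcpt fun k => ?_
    obtain ⟨φ, f1, f2, f3⟩ := hBD k
    rw [← f3]
    exact ((convex_ball (0 : ℂ) 1).isPreconnected.image φ f1.continuousOn).closure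

end Pool.Agent.Helper79_Real.K7
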