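import Pool.Agent.Helper79_Real.K7

/-!
Lemma job K8 (`z^2 - 1` is renormalizable).  Definitions: Pool/Agent/Helper79_Real/{Defs,HDefs,RDefs,RBase}.lean on origin/main
(copy the folder to your working tree and `lake build Pool.Agent.Helper79_Real.RBase`).

Plain-words proof.  Use `renorm_of` with `c = -1`, `n = 2`, `S` the open ball of radius `4/5` about `0`, `h s = -√(s+1)` (principal square root, e.g. `-(s+1)^(1/2 : ℂ)`), which is differentiable on `S` because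
`Re (s+1) > 0` there, and `Re h(s) < 0`.  `BD S`: scale the unit ball.  `f(h s) = (s+1) - 1 = s`.
`hcl`: let `T = {z | z^2 - 1 ∈ h '' S}`.  For `z ∈ T`, `w = z^2 - 1 = h(s)`: `Re w ≤ 0` and `|w^2 - 1| = |s| ≤ 4/5`.  These are closed conditions, so they hold for `z` in the closure of `T`.  So
`|w - 1| |w + 1| ≤ 4/5`, `|w - 1| ≥ 1` (as `Re w ≤ 0`), `w + 1 = z^2`, so `t = |z|^2 ≤ 4/5`; `|w - 1| = |z^2 - 2| ≥ 2 - t`, so `t (2 - t) ≤ 4/5` with `t ≤ 4/5 ≤ 1`, hence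
`(1-t)^2 ≥ 1/5`, `t ≤ 1 - 1/√5 < 0.56 < (4/5)^2 = 0.64` (if `t ≥ 0.56` then `t(2-t) ≥ 0.56 * 1.44 > 0.8` because `t(2-t)` is increasing on `[0,1]`).  So `|z| < 4/5`.
`hcrit`: `f^(2m)(0) = 0 ∈ S` (`f(0) = -1`, `f(-1) = 0`), `f^(2m+1)(0) = -1 = h(0)`.
-/

namespace Pool.Agent.Helper79_Real.K8

open K7 (renorm_of)

theorem k8_sq (x : ℂ) : (x ^ (((2 : ℕ) : ℂ)⁻¹)) ^ 2 = x := Complex.cpow_nat_inv_pow x (by norm_num)

theorem k8_re (x : ℂ) : 0 ≤ (x ^ (((2 : ℕ) : ℂ)⁻¹)).re := by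
  by_cases hx : x = 0
  · rw [hx, Complex.zero_cpow (by norm_num)]; simp
  · rw [Complex.cpow_def_of_ne_zero hx, Complex.exp_re]
    refine mul_nonneg (Real.exp_pos _).le (Real.cos_nonneg_of_mem_Icc ?_)
    have e : (Complex.log x * (((2 : ℕ) : ℂ)⁻¹)).im = x.arg / 2 := by
      have : (((2 : ℕ) : ℂ)⁻¹) = (((2 : ℝ)⁻¹ : ℝ) : ℂ) := by push_cast; rfl
      rw [this, Complex.im_mul_ofReal, Complex.log_im]; ring
    rw [e]
    have h1 := Complex.neg_pi_lt_arg x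
    have h2 := Complex.arg_le_pi x
    constructor <;> linarith

theorem k8_two : (fC (-1))^[2] 0 = 0 := by
  simp [fC]

theorem k8_it (m : ℕ) : (fC (-1))^[m * 2] 0 = 0 := by
  rw [Nat.mul_comm, Function.iterate_mul]
  exact Function.iterate_fixed k8_two m

/-- TARGET -/
theorem renorm_neg_one : Renormalizable (-1) := by
  refine renorm_of (c := -1) (n := 2) le_rfl (S := Metric.ball 0 (4 / 5))
    (h := fun s => -((s + 1) ^ (((2 : ℕ) : ℂ)⁻¹))) ?_ Metric.isBounded_ball ?_ ?_ ?_ ?_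
  · refine ⟨fun z => (4 / 5 : ℂ) * z, by fun_prop, ?_, ?_⟩
    · intro a _ b _ hab
      exact mul_left_cancel₀ (by norm_num) hab
    · ext z
      constructor
      · rintro ⟨w, hw, rfl⟩
        rw [mem_ball_zero_iff] at hw ⊢
        rw [norm_mul]
        have : ‖(4 / 5 : ℂ)‖ = 4 / 5 := by norm_num
        rw [this]; linarith
      · intro hz
        rw [mem_ball_zero_iff] at hz
        refine ⟨(5 / 4 : ℂ) * z, ?_, by ring⟩
        rw [mem_ball_zero_iff, norm_mul]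
        have : ‖(5 / 4 : ℂ)‖ = 5 / 4 := by norm_num
        rw [this]; linarith
  · intro s hs
    rw [mem_ball_zero_iff] at hs
    have hre : 0 < (s + 1).re := by
      have h1 := (abs_le.1 (Complex.abs_re_le_norm s)).1
      rw [Complex.add_re, Complex.one_re]; linarith
    have hd : DifferentiableAt ℂ (fun s : ℂ => -((s + 1) ^ (((2 : ℕ) : ℂ)⁻¹))) s := by
      refine DifferentiableAt.neg ?_
      refine DifferentiableAt.cpow (by fun_prop) (by fun_prop) (Or.inl hre)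
    exact hd.differentiableWithinAt
  · intro s _
    change (fC (-1)) (-((s + 1) ^ (((2 : ℕ) : ℂ)⁻¹))) = s
    unfold fC
    rw [neg_sq, k8_sq]; ring
  · have hsub : {z : ℂ | z ^ 2 + -1 ∈ (fun s : ℂ => -((s + 1) ^ (((2 : ℕ) : ℂ)⁻¹))) ''
        Metric.ball 0 (4 / 5)} ⊆ {z : ℂ | (z ^ 2 - 1).re ≤ 0 ∧ ‖(z ^ 2 - 1) ^ 2 - 1‖ ≤ 4 / 5} := by
      rintro z ⟨s, hs, hsz⟩
      rw [mem_ball_zero_iff] at hs
      have e : z ^ 2 - 1 = -((s + 1) ^ (((2 : ℕ) : ℂ)⁻¹)) := by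
        rw [sub_eq_add_neg]; exact hsz.symm
      constructor
      · rw [e, Complex.neg_re]
        have := k8_re (s + 1)
        linarith
      · rw [e, neg_sq, k8_sq, add_sub_cancel_right]
        exact hs.le
    have hclosed : IsClosed {z : ℂ | (z ^ 2 - 1).re ≤ 0 ∧ ‖(z ^ 2 - 1) ^ 2 - 1‖ ≤ 4 / 5} := by
      refine IsClosed.inter ?_ ?_
      · exact isClosed_le (Complex.continuous_re.comp
          (by fun_prop : Continuous fun z : ℂ => z ^ 2 - 1)) continuous_const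
      · exact isClosed_le (by fun_prop : Continuous fun z : ℂ => ‖(z ^ 2 - 1) ^ 2 - 1‖)
          continuous_const
    refine (closure_minimal hsub hclosed).trans ?_
    rintro z ⟨h1, h2⟩
    rw [mem_ball_zero_iff]
    have h3 : (z ^ 2 - 1) ^ 2 - 1 = (z ^ 2 - 2) * z ^ 2 := by ring
    rw [h3, norm_mul, norm_pow] at h2
    have h4 : 1 ≤ ‖z ^ 2 - 2‖ := by
      have h5 := (abs_le.1 (Complex.abs_re_le_norm (z ^ 2 - 2))).1
      have h6 : (z ^ 2 - 2).re = (z ^ 2 - 1).re - 1 := by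
        simp only [Complex.sub_re, Complex.one_re]; norm_num; ring
      linarith
    have h7 : 2 - ‖z‖ ^ 2 ≤ ‖z ^ 2 - 2‖ := by
      have h8 := norm_sub_norm_le (2 : ℂ) (z ^ 2)
      rw [norm_pow, norm_sub_rev] at h8
      have : ‖(2 : ℂ)‖ = 2 := by norm_num
      linarith
    have h9 : 0 ≤ ‖z‖ := norm_nonneg z
    by_contra hcon
    rw [not_lt] at hcon
    have h10 : (16 : ℝ) / 25 ≤ ‖z‖ ^ 2 := by nlinarith
    have h11 : ‖z‖ ^ 2 ≤ 4 / 5 := by nlinarith
    nlinarith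
  · intro m
    rw [k8_it (m + 1), Function.iterate_succ_apply', k8_it m]
    refine ⟨by simp, ?_⟩
    simp [fC]

end Pool.Agent.Helper79_Real.K8
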