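import Pool.Agent.Helper79_Real.Facts

/-!
Lemma job L1 (finite order).  The definitions are in Pool/Agent/Helper79_Real/{Defs,Base,Path,Facts}.lean
on origin/main (copy the folder to your working tree, then `lake build Pool.Agent.Helper79_Real.Facts`).
`gen c q` is the generator attached to `q`, `pre c b q` the preimage of `q` of sign `b`
(`true` = negative), `P c` the post-critical set.

Plain-words proof.  For `a b ∈ P c` write `FO a b` for: some positive power of `gen c a * gen c b` is `1`.
`FO` is symmetric (take inverses; `gen` is an involution) and `FO a a` holds.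
(ii) if `a ≠ c`, `b ≠ c` and `FO (pre c s a) (pre c s b)` holds for each side `s` such that both
  `pre c s a ∈ P c` and `pre c s b ∈ P c`, then `FO a b`: `gen c a * gen c b` fixes the first letter `s` of a word
  and acts on the rest by `gen (pre s a) * gen (pre s b)`, or by a single generator (of order 2) or
  trivially if one or both are not in `P c`; take the exponent `2 * n_true * n_false`.
(iii) if `b ≠ c` and not both `pre c true b`, `pre c false b` are in `P c`, then
  `(gen c c * gen c b)^4 = 1`: its square fixes the first letter and acts on the rest, on either side,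
  by the (at most one) nontrivial section of `gen c b`, an involution.
(iv) uniqueness: there is at most one `q ∈ P c` with `pre c true q ∈ P c` and `pre c false q ∈ P c`:
  `f c` maps the finite set `P c` onto `P c \ {c}` (`P_f`, `Hyp.ne_c`, `P_pre`), which has one element less, so
  only one fibre has two elements.
(v) Suppose `FO p (-p)` fails.  Put `a_0 = p`, `b_0 = -p`.  As long as `a_i, b_i ≠ c` and `¬ FO a_i b_i`, (ii)
  gives a side `s` such that `a_{i+1} = pre c s a_i ∈ P c`, `b_{i+1} = pre c s b_i ∈ P c` and `¬ FO a_{i+1} b_{i+1}`.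
  If this never stopped, finiteness of `P c` would give `i < j` with `(a_i,b_i) = (a_j,b_j)`; as
  `f c a_{i+1} = a_i`, `f c b_{i+1} = b_i`, the points `a_j, b_j` and then `a_0 = p`, `b_0 = -p` are periodic
  under `f c`; but `f c p = f c (-p)` and `f c` is injective on periodic points, so `p = -p`, `p = 0`,
  contradicting `0 ∉ P c`.
  So it stops at some `i` with `a_i = c` or `b_i = c` (not both, as `a_i ≠ b_i`); call the other one `b`.
  By (iii) both preimages of `b` are in `P c`, and by (iv) `b = q := f c p`.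
  For each `j` the points `a_{j+1}, b_{j+1}` lie on the same side of `0`, so
  `f c '' uIcc a_{j+1} b_{j+1} = uIcc a_j b_j`.  Hence `(f c)^[i] '' [c,q] = uIcc p (-p)` and
  `(f c)^[i+1] '' [c,q] = f c '' uIcc p (-p) = [c,q]`.  By `Hyp.ex` some iterate of `[c,q]` is
  `[c, c^2+c]`, and `f c '' [c,c^2+c] = [c,c^2+c]`, so all later iterates are too; comparing with
  the multiples of `i+1`, `q = c^2+c`.  But `f c p ≠ c^2+c` by `Hyp.f_ne_c2` (`p ≠ c` because `-c > c^2+c`
  is not in `P c`, `Hyp.c2_lt`).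
-/

namespace Pool.Agent.Helper79_Real.L1

variable {c : ℝ}

/-! ### auxiliary facts for L1 -/

/-- some positive power of `gen c a * gen c b` is trivial -/
def l1_FO (c a b : ℝ) : Prop := ∃ n : ℕ, 0 < n ∧ (gen c a * gen c b) ^ n = 1

theorem l1_FO_symm {a b : ℝ} (h : l1_FO c a b) : l1_FO c b a := by
  obtain ⟨n, hn, h⟩ := h
  refine ⟨n, hn, ?_⟩
  have e : gen c b * gen c a = (gen c a * gen c b)⁻¹ := by
    rw [mul_inv_rev, gen_inv, gen_inv]
  rw [e, inv_pow, h, inv_one]

open Classical in
/-- the section of `gen c a` at `s` -/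
noncomputable def l1_sc (c : ℝ) (s : Bool) (a : ℝ) : Equiv.Perm (List Bool) :=
  if pre c s a ∈ P c then gen c (pre c s a) else 1

theorem l1_sc_sq (s : Bool) (a : ℝ) : l1_sc c s a * l1_sc c s a = 1 := by
  unfold l1_sc
  split_ifs
  · exact gen_mul_self _
  · simp

theorem l1_gen_nil (a : ℝ) : gen c a [] = [] := rfl

theorem l1_gen_cons {a : ℝ} (ha : a ≠ c) (s : Bool) (l : List Bool) :
    gen c a (s :: l) = s :: l1_sc c s a l := by
  unfold l1_sc
  by_cases h : pre c s a ∈ P c
  · simp [act, ha, h]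
  · simp [act, ha, h]

theorem l1_gen_c (s : Bool) (l : List Bool) : gen c c (s :: l) = (!s) :: l := by
  simp [act]

theorem l1_pow_cons {g : Equiv.Perm (List Bool)} {k : Bool → Equiv.Perm (List Bool)}
    (hg : ∀ s l, g (s :: l) = s :: k s l) (n : ℕ) (s : Bool) (l : List Bool) :
    (g ^ n) (s :: l) = s :: (k s ^ n) l := by
  induction n generalizing l with
  | zero => simp
  | succ n ih => rw [pow_succ, pow_succ, Equiv.Perm.mul_apply, hg, ih, Equiv.Perm.mul_apply]

theorem l1_pow_nil {g : Equiv.Perm (List Bool)} (hg : g [] = []) (n : ℕ) : (g ^ n) [] = [] := by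
  induction n with
  | zero => simp
  | succ n ih => rw [pow_succ, Equiv.Perm.mul_apply, hg, ih]

theorem l1_pow_one {g : Equiv.Perm (List Bool)} {k : Bool → Equiv.Perm (List Bool)}
    (hg0 : g [] = []) (hg : ∀ s l, g (s :: l) = s :: k s l) {n : ℕ} (hk : ∀ s, k s ^ n = 1) :
    g ^ n = 1 := by
  ext1 l
  cases l with
  | nil => rw [l1_pow_nil hg0]; rfl
  | cons s l => rw [l1_pow_cons hg, hk]; rfl

/-- (ii) -/
theorem l1_FO_of {a b : ℝ} (ha : a ≠ c) (hb : b ≠ c)
    (h : ∀ s, pre c s a ∈ P c → pre c s b ∈ P c → l1_FO c (pre c s a) (pre c s b)) :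
    l1_FO c a b := by
  have key : ∀ s, ∃ n : ℕ, 0 < n ∧ (l1_sc c s a * l1_sc c s b) ^ n = 1 := by
    intro s
    by_cases h1 : pre c s a ∈ P c
    · by_cases h2 : pre c s b ∈ P c
      · obtain ⟨n, hn, e⟩ := h s h1 h2
        refine ⟨n, hn, ?_⟩
        unfold l1_sc
        rw [if_pos h1, if_pos h2]
        exact e
      · refine ⟨2, by norm_num, ?_⟩
        have e : l1_sc c s b = 1 := by unfold l1_sc; rw [if_neg h2]
        rw [e, mul_one, pow_two, l1_sc_sq]
    · refine ⟨2, by norm_num, ?_⟩
      have e : l1_sc c s a = 1 := by unfold l1_sc; rw [if_neg h1]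
      rw [e, one_mul, pow_two, l1_sc_sq]
  obtain ⟨n1, h1, e1⟩ := key true
  obtain ⟨n2, h2, e2⟩ := key false
  refine ⟨n1 * n2, Nat.mul_pos h1 h2, ?_⟩
  refine l1_pow_one (k := fun s => l1_sc c s a * l1_sc c s b) rfl ?_ ?_
  · intro s l
    rw [Equiv.Perm.mul_apply, l1_gen_cons hb, l1_gen_cons ha, Equiv.Perm.mul_apply]
  · intro s
    cases s
    · show (l1_sc c false a * l1_sc c false b) ^ (n1 * n2) = 1
      rw [mul_comm n1 n2, pow_mul, e2, one_pow]
    · show (l1_sc c true a * l1_sc c true b) ^ (n1 * n2) = 1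
      rw [pow_mul, e1, one_pow]

/-- (iii) -/
theorem l1_FO_c {b : ℝ} (hb : b ≠ c) (h : ¬ (pre c true b ∈ P c ∧ pre c false b ∈ P c)) :
    l1_FO c c b := by
  refine ⟨4, by norm_num, ?_⟩
  have e : (gen c c * gen c b) ^ 4 = ((gen c c * gen c b) ^ 2) ^ 2 := by rw [← pow_mul]
  rw [e]
  refine l1_pow_one (k := fun s => l1_sc c (!s) b * l1_sc c s b) rfl ?_ ?_
  · intro s l
    rw [pow_two, Equiv.Perm.mul_apply, Equiv.Perm.mul_apply, Equiv.Perm.mul_apply,
      l1_gen_cons hb, l1_gen_c, l1_gen_cons hb, l1_gen_c, Bool.not_not, Equiv.Perm.mul_apply]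
  · have h1 : l1_sc c true b = 1 ∨ l1_sc c false b = 1 := by
      unfold l1_sc
      by_cases h2 : pre c true b ∈ P c
      · right
        rw [if_neg (fun h3 => h ⟨h2, h3⟩)]
      · left
        rw [if_neg h2]
    intro s
    rcases h1 with h1 | h1
    · cases s
      · show (l1_sc c true b * l1_sc c false b) ^ 2 = 1
        rw [h1, one_mul, pow_two, l1_sc_sq]
      · show (l1_sc c false b * l1_sc c true b) ^ 2 = 1
        rw [h1, mul_one, pow_two, l1_sc_sq]
    · cases s
      · show (l1_sc c true b * l1_sc c false b) ^ 2 = 1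
        rw [h1, mul_one, pow_two, l1_sc_sq]
      · show (l1_sc c false b * l1_sc c true b) ^ 2 = 1
        rw [h1, one_mul, pow_two, l1_sc_sq]

/-- there is at most one point of the post-critical set with two post-critical preimages -/
theorem two_pre_unique (h : Hyp c) {q q' : ℝ} (hq : q ∈ P c) (hq' : q' ∈ P c)
    (h1 : pre c true q ∈ P c) (h2 : pre c false q ∈ P c)
    (h3 : pre c true q' ∈ P c) (h4 : pre c false q' ∈ P c) : q = q' := by
  classical
  by_contra hne
  set F : Finset ℝ := h.fin.toFinset with hF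
  have hmem : ∀ x, x ∈ F ↔ x ∈ P c := fun x => by rw [hF, Set.Finite.mem_toFinset]
  have hlo : ∀ x ∈ F, c ≤ x := fun x hx => (h.Pbd ((hmem x).1 hx)).1
  set g : ℝ → ℝ := fun x => if pre c true x ∈ P c then pre c true x else pre c false x with hg
  have hfg : ∀ x ∈ F, f c (g x) = x := by
    intro x hx
    rw [hg]
    dsimp only
    split_ifs
    · exact f_pre (hlo x hx)
    · exact f_pre (hlo x hx)
  have hgF : ∀ x ∈ F.erase c, g x ∈ F := by
    intro x hx
    rw [Finset.mem_erase] at hx
    rw [hmem, hg]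
    dsimp only
    split_ifs with h5
    · exact h5
    · exact (P_pre ((hmem x).1 hx.2) hx.1).resolve_left h5
  have hqF := (hmem q).2 hq
  have hq'F := (hmem q').2 hq'
  have hnotim : ∀ x, x ∈ F → pre c true x ∈ P c → pre c false x ∈ P c →
      pre c false x ∉ (F.erase c).image g := by
    intro x hx h5 h6 h7
    rw [Finset.mem_image] at h7
    obtain ⟨z, hz, hzx⟩ := h7
    have hzF := Finset.mem_of_mem_erase hz
    have e1 : z = x := by
      have := hfg z hzF
      rw [hzx, f_pre (hlo x hx)] at this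
      exact this.symm
    rw [e1] at hzx
    rw [hg] at hzx
    dsimp only at hzx
    rw [if_pos h5] at hzx
    have e2 : pre c false x = 0 := by
      simp only [pre, if_true, Bool.false_eq_true, if_false] at hzx ⊢
      linarith
    rw [e2] at h6
    exact h.nz h6
  have hn1 := hnotim q hqF h1 h2
  have hn2 := hnotim q' hq'F h3 h4
  have hnn : pre c false q ≠ pre c false q' := by
    intro e
    apply hne
    rw [← f_pre (b := false) (hlo q hqF), e, f_pre (hlo q' hq'F)]
  have hsub : insert (pre c false q) (insert (pre c false q') ((F.erase c).image g)) ⊆ F := by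
    intro x hx
    rw [Finset.mem_insert, Finset.mem_insert, Finset.mem_image] at hx
    rcases hx with rfl | rfl | ⟨z, hz, rfl⟩
    · exact (hmem _).2 h2
    · exact (hmem _).2 h4
    · exact hgF z hz
  have hcard := Finset.card_le_card hsub
  rw [Finset.card_insert_of_notMem (by
      rw [Finset.mem_insert, not_or]; exact ⟨hnn, hn1⟩),
    Finset.card_insert_of_notMem hn2, Finset.card_image_of_injOn (by
      intro x hx y hy hxy
      rw [← hfg x (Finset.mem_of_mem_erase hx), ← hfg y (Finset.mem_of_mem_erase hy), hxy]),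
    Finset.card_erase_of_mem ((hmem c).2 c_mem)] at hcard
  have : 0 < F.card := Finset.card_pos.2 ⟨c, (hmem c).2 c_mem⟩
  omega

/-- the two preimages on one side bound an interval which is mapped onto the interval -/
theorem l1_image_pre {a b : ℝ} (ha : c ≤ a) (hb : c ≤ b) (s : Bool) :
    f c '' Set.uIcc (pre c s a) (pre c s b) = Set.uIcc a b := by
  wlog hab : a ≤ b generalizing a b with H
  · rw [Set.uIcc_comm, H hb ha (le_of_not_ge hab), Set.uIcc_comm]
  have hs := Real.sqrt_le_sqrt (show a - c ≤ b - c by linarith)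
  have ha0 := Real.sqrt_nonneg (a - c)
  have hsa := Real.sq_sqrt (show 0 ≤ a - c by linarith)
  have hsb := Real.sq_sqrt (show 0 ≤ b - c by linarith)
  rw [Set.uIcc_of_le hab]
  cases s
  · simp only [pre, Bool.false_eq_true, if_false]
    rw [Set.uIcc_of_le hs]
    ext y
    simp only [Set.mem_image, Set.mem_Icc, f]
    constructor
    · rintro ⟨x, ⟨h1, h2⟩, rfl⟩
      constructor <;> nlinarith
    · rintro ⟨h1, h2⟩
      refine ⟨√(y - c), ⟨Real.sqrt_le_sqrt (by linarith), Real.sqrt_le_sqrt (by linarith)⟩, ?_⟩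
      rw [Real.sq_sqrt (by linarith)]
      ring
  · simp only [pre, if_true]
    rw [Set.uIcc_of_ge (by linarith)]
    ext y
    simp only [Set.mem_image, Set.mem_Icc, f]
    constructor
    · rintro ⟨x, ⟨h1, h2⟩, rfl⟩
      constructor <;> nlinarith
    · rintro ⟨h1, h2⟩
      have h3 := Real.sqrt_le_sqrt (show a - c ≤ y - c by linarith)
      have h4 := Real.sqrt_le_sqrt (show y - c ≤ b - c by linarith)
      refine ⟨-√(y - c), ⟨by linarith, by linarith⟩, ?_⟩
      rw [neg_sq, Real.sq_sqrt (by linarith)]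
      ring

theorem l1_image_neg (p : ℝ) : f c '' Set.uIcc p (-p) = Set.Icc c (f c p) := by
  ext y
  simp only [Set.mem_image, Set.mem_Icc, f]
  constructor
  · rintro ⟨x, hx, rfl⟩
    refine ⟨by nlinarith [sq_nonneg x], ?_⟩
    rw [Set.mem_uIcc] at hx
    rcases hx with ⟨h1, h2⟩ | ⟨h1, h2⟩ <;> nlinarith
  · rintro ⟨h1, h2⟩
    refine ⟨√(y - c), ?_, ?_⟩
    · have h3 : √(y - c) ≤ |p| := by
        rw [← Real.sqrt_sq_eq_abs]
        exact Real.sqrt_le_sqrt (by linarith)
      have h4 := Real.sqrt_nonneg (y - c)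
      rw [Set.mem_uIcc]
      rcases le_or_gt 0 p with h5 | h5
      · right
        rw [abs_of_nonneg h5] at h3
        constructor <;> linarith
      · left
        rw [abs_of_neg h5] at h3
        constructor <;> linarith
    · rw [Real.sq_sqrt (by linarith)]
      ring

theorem l1_core (h : Hyp c) :
    f c '' Set.Icc c (c ^ 2 + c) = Set.Icc c (c ^ 2 + c) := by
  apply Set.Subset.antisymm
  · rintro _ ⟨x, hx, rfl⟩
    exact h.maps hx.1 hx.2
  · intro y hy
    have h1 := hy.1
    have h2 := hy.2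
    have hneg := h.neg
    have h0 := h.c2pos
    have h3 := Real.sqrt_nonneg (y - c)
    have h4 : √(y - c) ≤ -c := by
      rw [show -c = √(c ^ 2) by rw [Real.sqrt_sq_eq_abs, abs_of_neg hneg]]
      exact Real.sqrt_le_sqrt (by linarith)
    refine ⟨-√(y - c), ⟨by linarith, by linarith⟩, ?_⟩
    unfold f
    rw [neg_sq, Real.sq_sqrt (by linarith)]
    ring

theorem l1_core_iter (h : Hyp c) (n : ℕ) :
    (f c)^[n] '' Set.Icc c (c ^ 2 + c) = Set.Icc c (c ^ 2 + c) := by
  induction n with
  | zero => simp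
  | succ n ih => rw [Function.iterate_succ, Set.image_comp, l1_core h, ih]

/-- the intervals `[c, q]`, `q = f p`, cannot return to themselves -/
theorem l1_no_return (h : Hyp c) {q : ℝ} (h1 : c < q) (h2 : q < c ^ 2 + c) {k : ℕ} (hk : 0 < k)
    (hi : (f c)^[k] '' Set.Icc c q = Set.Icc c q) : False := by
  obtain ⟨n, hn⟩ := h.ex c q le_rfl h1 h2.le
  have h3 : ∀ m : ℕ, (f c)^[k * m] '' Set.Icc c q = Set.Icc c q := by
    intro m
    induction m with
    | zero => simp
    | succ m ih => rw [Nat.mul_succ, Function.iterate_add, Set.image_comp, hi, ih]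
  have h4 : (f c)^[k * n] '' Set.Icc c q = Set.Icc c (c ^ 2 + c) := by
    have e : k * n = (k * n - n) + n := by
      have : n ≤ k * n := Nat.le_mul_of_pos_left n hk
      omega
    rw [e, Function.iterate_add, Set.image_comp, hn, l1_core_iter h]
  rw [h3] at h4
  have h5 : c ^ 2 + c ∈ Set.Icc c q := by
    rw [h4]
    exact ⟨h.lt_c2.le, le_rfl⟩
  exact absurd h5.2 (not_le.2 h2)

/-- pairs obtained from `(p, -p)` by `i` steps back -/
structure l1_Ch (c p : ℝ) (i : ℕ) (a b : ℝ) : Prop where
  ha : a ∈ P c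
  hb : b ∈ P c
  hn : ¬ l1_FO c a b
  fa : (f c)^[i] a = p
  fb : (f c)^[i] b = -p
  im : (f c)^[i] '' Set.uIcc a b = Set.uIcc p (-p)

theorem l1_step (h : Hyp c) {p : ℝ} {i : ℕ} {a b : ℝ} (hch : l1_Ch c p i a b) (ha : a ≠ c)
    (hb : b ≠ c) : ∃ a' b', l1_Ch c p (i + 1) a' b' := by
  obtain ⟨s, h1, h2, h3⟩ : ∃ s, pre c s a ∈ P c ∧ pre c s b ∈ P c ∧
      ¬ l1_FO c (pre c s a) (pre c s b) := by
    by_contra hcon
    push Not at hcon
    exact hch.hn (l1_FO_of ha hb hcon)
  have hac := (h.Pbd hch.ha).1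
  have hbc := (h.Pbd hch.hb).1
  refine ⟨pre c s a, pre c s b, h1, h2, h3, ?_, ?_, ?_⟩
  · rw [Function.iterate_succ_apply, f_pre hac, hch.fa]
  · rw [Function.iterate_succ_apply, f_pre hbc, hch.fb]
  · rw [Function.iterate_succ, Set.image_comp, l1_image_pre hac hbc, hch.im]

theorem l1_iter_mem {q : ℝ} (hq : q ∈ P c) (n : ℕ) : (f c)^[n] q ∈ P c := by
  induction n with
  | zero => exact hq
  | succ n ih => rw [Function.iterate_succ_apply']; exact P_f ih

theorem l1_stop (h : Hyp c) {p : ℝ} (hp : p ∈ P c) (hm : -p ∈ P c) (hn : ¬ l1_FO c p (-p)) :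
    ∃ i a b, l1_Ch c p i a b ∧ (a = c ∨ b = c) := by
  classical
  by_contra hcon
  push Not at hcon
  have hall : ∀ i, ∃ a b, l1_Ch c p i a b := by
    intro i
    induction i with
    | zero => exact ⟨p, -p, hp, hm, hn, rfl, rfl, by simp⟩
    | succ i ih =>
      obtain ⟨a, b, hch⟩ := ih
      exact l1_step h hch (hcon i a b hch).1 (hcon i a b hch).2
  set F : Finset ℝ := h.fin.toFinset with hF
  have hmem : ∀ x, x ∈ F ↔ x ∈ P c := fun x => by rw [hF, Set.Finite.mem_toFinset]
  obtain ⟨a, b, hch⟩ := hall (F ×ˢ F).card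
  obtain ⟨m, hm1, n, hn1, hmn, he⟩ := Finset.exists_ne_map_eq_of_card_lt_of_maps_to
    (s := Finset.range ((F ×ˢ F).card + 1)) (t := F ×ˢ F)
    (f := fun m => ((f c)^[m] a, (f c)^[m] b)) (by simp) (by
      intro m _
      rw [Finset.mem_coe, Finset.mem_product]
      exact ⟨(hmem _).2 (l1_iter_mem hch.ha m), (hmem _).2 (l1_iter_mem hch.hb m)⟩)
  have key : ∀ m n : ℕ, m < n → n ≤ (F ×ˢ F).card → (f c)^[m] a = (f c)^[n] a →
      (f c)^[m] b = (f c)^[n] b → False := by
    intro m n hmn hn2 e1 e2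
    have ea : (f c)^[n - m] p = p := by
      have h1 : (f c)^[(F ×ˢ F).card - m] ((f c)^[m] a) = p := by
        rw [← Function.iterate_add_apply, Nat.sub_add_cancel (by omega), hch.fa]
      have h2 : (f c)^[(F ×ˢ F).card - m] ((f c)^[n] a) = (f c)^[n - m] p := by
        rw [← hch.fa, ← Function.iterate_add_apply, ← Function.iterate_add_apply]
        have e3 : (F ×ˢ F).card - m + n = n - m + (F ×ˢ F).card := by omega
        rw [e3]
      rw [← h2, ← e1, h1]
    have eb : (f c)^[n - m] (-p) = -p := by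
      have h1 : (f c)^[(F ×ˢ F).card - m] ((f c)^[m] b) = -p := by
        rw [← Function.iterate_add_apply, Nat.sub_add_cancel (by omega), hch.fb]
      have h2 : (f c)^[(F ×ˢ F).card - m] ((f c)^[n] b) = (f c)^[n - m] (-p) := by
        rw [← hch.fb, ← Function.iterate_add_apply, ← Function.iterate_add_apply]
        have e3 : (F ×ˢ F).card - m + n = n - m + (F ×ˢ F).card := by omega
        rw [e3]
      rw [← h2, ← e2, h1]
    obtain ⟨k, hk⟩ : ∃ k, n - m = k + 1 := ⟨n - m - 1, by omega⟩
    rw [hk, Function.iterate_succ_apply] at ea eb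
    have e3 : f c (-p) = f c p := by simp [f]
    rw [e3, ea] at eb
    have : p = 0 := by linarith
    exact h.nz (this ▸ hp)
  rw [Finset.mem_range] at hm1 hn1
  rw [Prod.mk.injEq] at he
  rcases lt_or_gt_of_ne hmn with h1 | h1
  · exact key m n h1 (by omega) he.1 he.2
  · exact key n m h1 (by omega) he.1.symm he.2.symm

/-- TARGET (prove `two_pre_unique` above too) -/
theorem fin_order (h : Hyp c) {p : ℝ} (hp : p ∈ P c) (hm : -p ∈ P c) :
    ∃ n : ℕ, 0 < n ∧ (gen c p * gen c (-p)) ^ n = 1 := by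
  by_contra hcon
  obtain ⟨i, a, b, hch, hab⟩ := l1_stop h hp hm hcon
  have hpc : p ≠ c := by
    intro e
    have h1 := (h.Pbd hm).2
    have h2 := h.c2_lt
    rw [e] at h1
    linarith
  obtain ⟨b', hb', hn', him⟩ : ∃ b' ∈ P c, ¬ l1_FO c c b' ∧
      (f c)^[i] '' Set.uIcc c b' = Set.uIcc p (-p) := by
    rcases hab with rfl | rfl
    · exact ⟨b, hch.hb, hch.hn, hch.im⟩
    · exact ⟨a, hch.ha, fun h5 => hch.hn (l1_FO_symm h5), by rw [Set.uIcc_comm]; exact hch.im⟩
  have hb'c : b' ≠ c := by
    rintro rfl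
    apply hn'
    exact ⟨1, by norm_num, by rw [pow_one, gen_mul_self]⟩
  have hboth : pre c true b' ∈ P c ∧ pre c false b' ∈ P c := by
    by_contra h5
    exact hn' (l1_FO_c hb'c h5)
  have hq : f c p ∈ P c := P_f hp
  have hqp : pre c true (f c p) ∈ P c ∧ pre c false (f c p) ∈ P c := by
    have e1 : pre c true (f c p) = -|p| := by
      simp only [pre, if_true, f, add_sub_cancel_right, Real.sqrt_sq_eq_abs]
    have e2 : pre c false (f c p) = |p| := by
      simp only [pre, Bool.false_eq_true, if_false, f, add_sub_cancel_right, Real.sqrt_sq_eq_abs]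
    rw [e1, e2]
    rcases le_or_gt 0 p with h5 | h5
    · rw [abs_of_nonneg h5]; exact ⟨hm, hp⟩
    · rw [abs_of_neg h5, neg_neg]; exact ⟨hp, hm⟩
  have hbq : b' = f c p := two_pre_unique h hb' hq hboth.1 hboth.2 hqp.1 hqp.2
  rw [hbq] at him
  have hcq := h.c_lt_f hp
  rw [Set.uIcc_of_le hcq.le] at him
  refine l1_no_return h hcq (h.f_lt_c2 hp hpc) (k := i + 1) (Nat.succ_pos i) ?_
  rw [Function.iterate_succ', Set.image_comp, him, l1_image_neg]

end Pool.Agent.Helper79_Real.L1
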