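import Pool.Agent.Helper79_Real.RBase

/-!
Lemma job N1 (parameters -1 < c < 0).  Definitions: Pool/Agent/Helper79_Real/{Defs,HDefs,RDefs,RBase}.lean on origin/main (copy
the folder to your working tree and `lake build Pool.Agent.Helper79_Real.RBase`).  `f c x = x^2 + c`, `P c = {f^(n+1)(0)}`.

Plain-words proof.  `f` maps `[c, 0]` into itself (for `c ≤ x ≤ 0`: `c ≤ x^2+c ≤ c^2+c ≤ 0`) and is strictly decreasing, hence injective, there; so all `f^n(0)` lie in
`[c, 0]` and `f ∘ f` is strictly increasing on `[c, 0]`.  `f(f(0)) = c^2 + c < 0`.  Hence, by induction, the sequence `a_k = (f∘f)^k (0)` is strictly decreasing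
(`a_1 < a_0`, apply the strictly increasing `f ∘ f`), so it takes infinitely many values; all `a_k`, `k ≥ 1`, are in `P c`.
-/

namespace Pool.Agent.Helper79_Real.N1

/-- TARGET -/
theorem P_infinite_mid {c : ℝ} (h1 : -1 < c) (h2 : c < 0) : ¬ (P c).Finite := by
  -- invariance of `[c, 0]`
  have hinv : ∀ n : ℕ, c ≤ (f c)^[n] 0 ∧ (f c)^[n] 0 ≤ 0 := by
    intro n
    induction n with
    | zero => exact ⟨by simpa using h2.le, by simp⟩
    | succ n ih =>
      rw [Function.iterate_succ_apply']
      obtain ⟨ha, hb⟩ := ih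
      set x := (f c)^[n] 0
      refine ⟨?_, ?_⟩
      · unfold f; nlinarith [sq_nonneg x]
      · unfold f; nlinarith
  -- `f ∘ f` is strictly increasing on `[c, 0]`
  have hmono : ∀ x y : ℝ, c ≤ x → x < y → y ≤ 0 → f c (f c x) < f c (f c y) := by
    intro x y hx hxy hy
    have h3 : f c y < f c x := by unfold f; nlinarith
    have h4 : f c x ≤ 0 := by
      unfold f; nlinarith
    have h5 : f c y < 0 := lt_of_lt_of_le h3 h4
    have h6 : (f c x) ^ 2 < (f c y) ^ 2 := by nlinarith
    show (f c x) ^ 2 + c < (f c y) ^ 2 + c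
    linarith
  have hstep : ∀ k : ℕ, (f c)^[2 * (k + 1)] 0 < (f c)^[2 * k] 0 := by
    intro k
    induction k with
    | zero =>
      have : (f c)^[2 * (0 + 1)] 0 = c ^ 2 + c := by
        simp [f]
      rw [this]
      simp only [Nat.mul_zero, Function.iterate_zero, id]
      nlinarith
    | succ k ih =>
      have e1 : (f c)^[2 * (k + 1 + 1)] 0 = f c (f c ((f c)^[2 * (k + 1)] 0)) := by
        rw [show 2 * (k + 1 + 1) = (2 * (k + 1)) + 1 + 1 by ring, Function.iterate_succ_apply',
          Function.iterate_succ_apply']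
      have e2 : (f c)^[2 * (k + 1)] 0 = f c (f c ((f c)^[2 * k] 0)) := by
        rw [show 2 * (k + 1) = (2 * k) + 1 + 1 by ring, Function.iterate_succ_apply',
          Function.iterate_succ_apply']
      rw [e1]
      conv_rhs => rw [e2]
      exact hmono _ _ (hinv _).1 ih (hinv _).2
  have hanti : StrictAnti (fun k : ℕ => (f c)^[2 * k] 0) := strictAnti_nat_of_succ_lt hstep
  intro hfin
  have hinj : Function.Injective (fun k : ℕ => (f c)^[2 * (k + 1)] 0) := by
    intro a b hab
    have := hanti.injective hab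
    omega
  refine Set.infinite_of_injective_forall_mem hinj (s := P c) (fun k => ?_) hfin
  exact ⟨2 * k + 1, by rw [show 2 * k + 1 + 1 = 2 * (k + 1) by ring]⟩

end Pool.Agent.Helper79_Real.N1
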