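import Pool.Agent.Helper79_Real.RBase

/-!
Lemma job N2 (quadratic maps expand cross ratios).  Definitions: Pool/Agent/Helper79_Real/{Defs,HDefs,RDefs,RBase}.lean on origin/main
(copy the folder to your working tree and `lake build Pool.Agent.Helper79_Real.RBase`).
`M4 p x y q` : `p, x, y, q` in this strict order or the reverse one.  `CR p x y q = |y-p| |q-x| / (|x-p| |q-y|)`.

Plain-words proof.
* `CR_gt_one`: for `p<x<y<q`, `(y-p)(q-x) - (x-p)(q-y) = (y-x)(q-p) > 0`.  Reverse order the same by symmetry (negate everything).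
* `CR_expand`: let `p<x<y<q` with `0 ≤ p`.  Then `f p<f x<f y<f q` and `|f u - f v| = |u-v| |u+v|`, so
  `CR (f p)(f x)(f y)(f q) = CR p x y q * ((y+p)(q+x)) / ((x+p)(q+y))` and `(y+p)(q+x) - (x+p)(q+y) = (y-x)(q-p) > 0` (all factors positive: `x+p>0` as `x>p≥0`).
  The other cases (`q ≤ 0`, or the reverse order with all four points on one side of `0`) follow by the symmetries `u ↦ -u` and reversal (`CR p x y q = CR q y x p`).
  The hypothesis says that all four are `≥ 0` or all four are `≤ 0`.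
* `CR_mono`: if `p,x,y,q` are ordered and `p'` lies in `[p, x)` and `q'` in `(y, q]` (in the order sense) then `CR p x y q ≤ CR p' x y q'`: since
  `|y-p|/|x-p| = 1 + |y-x|/|x-p|` decreases in `|x-p|`, similarly for `q`.
-/

namespace Pool.Agent.Helper79_Real.N2

/-- distances of ordered points -/
theorem CR_aux {p x y q : ℝ} (h : M4 p x y q) :
    0 < |x - p| ∧ 0 < |q - y| ∧ 0 < |y - x| ∧ |y - p| = |x - p| + |y - x| ∧
      |q - x| = |q - y| + |y - x| := by
  rcases h with ⟨h1, h2, h3⟩ | ⟨h1, h2, h3⟩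
  · rw [abs_of_pos (by linarith : 0 < x - p), abs_of_pos (by linarith : 0 < q - y),
      abs_of_pos (by linarith : 0 < y - x), abs_of_pos (by linarith : 0 < y - p),
      abs_of_pos (by linarith : 0 < q - x)]
    refine ⟨by linarith, by linarith, by linarith, by ring, by ring⟩
  · rw [abs_of_neg (by linarith : x - p < 0), abs_of_neg (by linarith : q - y < 0),
      abs_of_neg (by linarith : y - x < 0), abs_of_neg (by linarith : y - p < 0),
      abs_of_neg (by linarith : q - x < 0)]
    refine ⟨by linarith, by linarith, by linarith, by ring, by ring⟩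

/-- TARGET (5): `CR` as a product; used to show that it is near `1` when `x, y` are close to each other compared with their
distances to `p, q`. -/
theorem CR_eq {p x y q : ℝ} (h : M4 p x y q) :
    CR p x y q = (1 + |y - x| / |x - p|) * (1 + |y - x| / |q - y|) := by
  obtain ⟨h1, h2, h3, h4, h5⟩ := CR_aux h
  unfold CR
  rw [h4, h5]
  have h1' := h1.ne'
  have h2' := h2.ne'
  field_simp

/-- TARGET (1) -/
theorem CR_gt_one {p x y q : ℝ} (h : M4 p x y q) : 1 < CR p x y q := by
  obtain ⟨h1, h2, h3, -, -⟩ := CR_aux h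
  rw [CR_eq h]
  have h4 : 0 < |y - x| / |x - p| := div_pos h3 h1
  have h5 : 0 < |y - x| / |q - y| := div_pos h3 h2
  nlinarith [mul_pos h4 h5]

/-- TARGET (2) -/
theorem M4_f {c p x y q : ℝ} (h : M4 p x y q) (hs : (0 ≤ p ∧ 0 ≤ q) ∨ (p ≤ 0 ∧ q ≤ 0)) :
    M4 (f c p) (f c x) (f c y) (f c q) := by
  unfold f
  rcases h with ⟨h1, h2, h3⟩ | ⟨h1, h2, h3⟩ <;> rcases hs with ⟨h4, h5⟩ | ⟨h4, h5⟩
  · left
    refine ⟨?_, ?_, ?_⟩ <;> nlinarith
  · right
    refine ⟨?_, ?_, ?_⟩ <;> nlinarith
  · right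
    refine ⟨?_, ?_, ?_⟩ <;> nlinarith
  · left
    refine ⟨?_, ?_, ?_⟩ <;> nlinarith

/-- TARGET (3) -/
theorem CR_expand {c p x y q : ℝ} (h : M4 p x y q) (hs : (0 ≤ p ∧ 0 ≤ q) ∨ (p ≤ 0 ∧ q ≤ 0)) :
    CR p x y q < CR (f c p) (f c x) (f c y) (f c q) := by
  obtain ⟨h1, h2, h3, h4, h5⟩ := CR_aux h
  have e : ∀ u v : ℝ, |f c u - f c v| = |u - v| * |u + v| := by
    intro u v
    rw [← abs_mul]
    congr 1
    unfold f
    ring
  have key : 0 < |x + p| ∧ 0 < |q + y| ∧ |x + p| * |q + y| < |y + p| * |q + x| := by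
    rcases h with ⟨a1, a2, a3⟩ | ⟨a1, a2, a3⟩ <;> rcases hs with ⟨a4, a5⟩ | ⟨a4, a5⟩
    · rw [abs_of_pos (by linarith : 0 < x + p), abs_of_pos (by linarith : 0 < q + y),
        abs_of_pos (by linarith : 0 < y + p), abs_of_pos (by linarith : 0 < q + x)]
      refine ⟨by linarith, by linarith, ?_⟩
      have := mul_pos (by linarith : 0 < y - x) (by linarith : 0 < q - p)
      nlinarith
    · rw [abs_of_neg (by linarith : x + p < 0), abs_of_neg (by linarith : q + y < 0),
        abs_of_neg (by linarith : y + p < 0), abs_of_neg (by linarith : q + x < 0)]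
      refine ⟨by linarith, by linarith, ?_⟩
      have := mul_pos (by linarith : 0 < y - x) (by linarith : 0 < q - p)
      nlinarith
    · rw [abs_of_pos (by linarith : 0 < x + p), abs_of_pos (by linarith : 0 < q + y),
        abs_of_pos (by linarith : 0 < y + p), abs_of_pos (by linarith : 0 < q + x)]
      refine ⟨by linarith, by linarith, ?_⟩
      have := mul_pos (by linarith : 0 < x - y) (by linarith : 0 < p - q)
      nlinarith
    · rw [abs_of_neg (by linarith : x + p < 0), abs_of_neg (by linarith : q + y < 0),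
        abs_of_neg (by linarith : y + p < 0), abs_of_neg (by linarith : q + x < 0)]
      refine ⟨by linarith, by linarith, ?_⟩
      have := mul_pos (by linarith : 0 < x - y) (by linarith : 0 < p - q)
      nlinarith
  obtain ⟨k1, k2, k3⟩ := key
  unfold CR
  rw [e, e, e, e]
  have hN : 0 < |y - p| * |q - x| := by
    rw [h4, h5]
    positivity
  have hD : 0 < |x - p| * |q - y| := mul_pos h1 h2
  have hD' : 0 < |x + p| * |q + y| := mul_pos k1 k2
  rw [div_lt_div_iff₀ hD (by positivity)]
  have := mul_lt_mul_of_pos_left k3 (mul_pos hN hD)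
  nlinarith

/-- TARGET (4) -/
theorem CR_mono {p x y q p' q' : ℝ} (h : M4 p x y q) (h' : M4 p' x y q')
    (hp : |x - p'| ≤ |x - p|) (hq : |q' - y| ≤ |q - y|) : CR p x y q ≤ CR p' x y q' := by
  obtain ⟨h1, h2, h3, -, -⟩ := CR_aux h
  obtain ⟨h1', h2', -, -, -⟩ := CR_aux h'
  rw [CR_eq h, CR_eq h']
  have e1 : |y - x| / |x - p| ≤ |y - x| / |x - p'| := div_le_div_of_nonneg_left h3.le h1' hp
  have e2 : |y - x| / |q - y| ≤ |y - x| / |q' - y| := div_le_div_of_nonneg_left h3.le h2' hq
  have e3 : 0 < |y - x| / |q - y| := div_pos h3 h2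
  have e4 : 0 < |y - x| / |x - p'| := div_pos h3 h1'
  exact mul_le_mul (by linarith) (by linarith) (by linarith) (by linarith)

end Pool.Agent.Helper79_Real.N2
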