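import Pool.Agent.Helper79_Real.N2

namespace Pool.Agent.Helper79_Real.N2b

open N2 (CR_gt_one M4_f CR_expand CR_mono)

/-- a pair of points of `Q` around `x, y` is weaker than a tight one -/
theorem CR_cmp_tight {Q : Set ℝ} {p x y q p' q' : ℝ} (hp : p ∈ Q) (hq : q ∈ Q) (h : M4 p x y q)
    (h' : M4 p' x y q') (ht : ∀ z ∈ Q, ¬ ((p' < z ∧ z < q') ∨ (q' < z ∧ z < p'))) :
    CR p x y q ≤ CR p' x y q' := by
  have hp1 := ht p hp
  have hq1 := ht q hq
  rcases h with ⟨h1, h2, h3⟩ | ⟨h1, h2, h3⟩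
  · rcases h' with ⟨g1, g2, g3⟩ | ⟨g1, g2, g3⟩
    · have hpp : p ≤ p' := by
        by_contra hc
        exact hp1 (Or.inl ⟨not_le.mp hc, by linarith⟩)
      have hqq : q' ≤ q := by
        by_contra hc
        exact hq1 (Or.inl ⟨by linarith, not_le.mp hc⟩)
      apply CR_mono (Or.inl ⟨h1, h2, h3⟩) (Or.inl ⟨g1, g2, g3⟩)
      · rw [abs_of_pos (by linarith), abs_of_pos (by linarith)]; linarith
      · rw [abs_of_pos (by linarith), abs_of_pos (by linarith)]; linarith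
    · exact absurd g2 (by linarith)
  · rcases h' with ⟨g1, g2, g3⟩ | ⟨g1, g2, g3⟩
    · exact absurd g2 (by linarith)
    · have hpp : p' ≤ p := by
        by_contra hc
        exact hp1 (Or.inr ⟨by linarith, not_le.mp hc⟩)
      have hqq : q ≤ q' := by
        by_contra hc
        exact hq1 (Or.inr ⟨not_le.mp hc, by linarith⟩)
      apply CR_mono (Or.inr ⟨h1, h2, h3⟩) (Or.inr ⟨g1, g2, g3⟩)
      · rw [abs_of_neg (by linarith), abs_of_neg (by linarith)]; linarith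
      · rw [abs_of_neg (by linarith), abs_of_neg (by linarith)]; linarith

/-- a tight pair exists -/
theorem exists_tight {Q : Set ℝ} (hfin : Q.Finite) {x y : ℝ}
    (hbr : ∃ p ∈ Q, ∃ q ∈ Q, M4 p x y q) (hgap : ∀ z ∈ Q, z ∉ Set.uIcc x y) :
    ∃ p ∈ Q, ∃ q ∈ Q, M4 p x y q ∧ (∀ z ∈ Q, ¬ ((p < z ∧ z < q) ∨ (q < z ∧ z < p))) := by
  -- the case x < y, for any pair of reals
  have key : ∀ a b p q : ℝ, p ∈ Q → q ∈ Q → p < a → a < b → b < q → (∀ z ∈ Q, z ∉ Set.uIcc a b) →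
      ∃ p' ∈ Q, ∃ q' ∈ Q, p' < a ∧ b < q' ∧ ∀ z ∈ Q, ¬ (p' < z ∧ z < q') := by
    intro a b p q hp hq h1 h2 h3 hg
    have hA : (Q ∩ {z | z < a}).Finite := hfin.subset Set.inter_subset_left
    have hB : (Q ∩ {z | b < z}).Finite := hfin.subset Set.inter_subset_left
    obtain ⟨p', hp', hp'm⟩ := Set.exists_max_image _ id hA ⟨p, hp, h1⟩
    obtain ⟨q', hq', hq'm⟩ := Set.exists_min_image _ id hB ⟨q, hq, h3⟩
    refine ⟨p', hp'.1, q', hq'.1, hp'.2, hq'.2, ?_⟩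
    rintro z hz ⟨hz1, hz2⟩
    rcases lt_or_ge z a with h | h
    · have := hp'm z ⟨hz, h⟩
      simp only [id] at this
      linarith
    · rcases lt_or_ge b z with h' | h'
      · have := hq'm z ⟨hz, h'⟩
        simp only [id] at this
        linarith
      · apply hg z hz
        rw [Set.uIcc_of_le h2.le]
        exact ⟨h, h'⟩
  obtain ⟨p, hp, q, hq, h⟩ := hbr
  rcases h with ⟨h1, h2, h3⟩ | ⟨h1, h2, h3⟩
  · obtain ⟨p', hp', q', hq', g1, g2, g3⟩ := key x y p q hp hq h1 h2 h3 hgap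
    refine ⟨p', hp', q', hq', Or.inl ⟨g1, h2, g2⟩, ?_⟩
    rintro z hz (hh | hh)
    · exact g3 z hz hh
    · linarith [hh.1, hh.2]
  · obtain ⟨p', hp', q', hq', g1, g2, g3⟩ := key y x q p hq hp h1 h2 h3
      (by intro z hz; rw [Set.uIcc_comm]; exact hgap z hz)
    refine ⟨q', hq', p', hp', Or.inr ⟨g1, h2, g2⟩, ?_⟩
    rintro z hz (hh | hh)
    · linarith [hh.1, hh.2]
    · exact g3 z hz hh

/-- TARGET -/
theorem gap_bound {c : ℝ} {Q : Set ℝ} (hfin : Q.Finite) (h0 : (0:ℝ) ∈ Q) (hQ : ∀ q ∈ Q, f c q ∈ Q) {x y : ℝ}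
    (hbr : ∀ n : ℕ, ∃ p ∈ Q, ∃ q ∈ Q, M4 p ((f c)^[n] x) ((f c)^[n] y) q)
    (hgap : ∀ n : ℕ, ∀ z ∈ Q, z ∉ Set.uIcc ((f c)^[n] x) ((f c)^[n] y)) :
    ∃ κ : ℝ, 1 < κ ∧ ∀ n : ℕ, ∀ p ∈ Q, ∀ q ∈ Q, M4 p ((f c)^[n] x) ((f c)^[n] y) q →
      (∀ z ∈ Q, ¬ ((p < z ∧ z < q) ∨ (q < z ∧ z < p))) →
      κ ≤ CR p ((f c)^[n] x) ((f c)^[n] y) q := by
  obtain ⟨p0, hp0, q0, hq0, hM0⟩ := hbr 0
  refine ⟨CR p0 ((f c)^[0] x) ((f c)^[0] y) q0, CR_gt_one hM0, ?_⟩
  intro n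
  induction n with
  | zero =>
    intro p hp q hq hM ht
    exact CR_cmp_tight hp0 hq0 hM0 hM ht
  | succ n ih =>
    intro p' hp' q' hq' hM' ht'
    obtain ⟨p, hp, q, hq, hM, ht⟩ := exists_tight hfin (hbr n) (hgap n)
    have h1 := ih p hp q hq hM ht
    have hs : (0 ≤ p ∧ 0 ≤ q) ∨ (p ≤ 0 ∧ q ≤ 0) := by
      have h00 := ht 0 h0
      rcases le_total 0 p with a | a
      · rcases le_total 0 q with b | b
        · exact Or.inl ⟨a, b⟩
        · rcases eq_or_lt_of_le a with a' | a'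
          · exact Or.inr ⟨a'.symm.le, b⟩
          · rcases eq_or_lt_of_le b with b' | b'
            · exact Or.inl ⟨a, b'.symm.le⟩
            · exact absurd (Or.inr ⟨b', a'⟩) h00
      · rcases le_total 0 q with b | b
        · rcases eq_or_lt_of_le a with a' | a'
          · exact Or.inl ⟨a'.symm.le, b⟩
          · rcases eq_or_lt_of_le b with b' | b'
            · exact Or.inr ⟨a, b'.symm.le⟩
            · exact absurd (Or.inl ⟨a', b'⟩) h00
        · exact Or.inr ⟨a, b⟩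
    have h2 := CR_expand (c := c) hM hs
    have h3 := M4_f (c := c) hM hs
    rw [← Function.iterate_succ_apply' (f c) n x, ← Function.iterate_succ_apply' (f c) n y] at h2 h3
    have h4 := CR_cmp_tight (hQ p hp) (hQ q hq) h3 hM' ht'
    exact le_trans h1 (le_trans h2.le h4)

end Pool.Agent.Helper79_Real.N2b
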