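import Pool.Agent.Helper79_Real.N2
import Pool.Agent.Helper79_Real.N2b

/-!
Lemma job N3 (no wandering intervals).
-/

namespace Pool.Agent.Helper79_Real.N3

open N2 (CR_eq)

open N2b (gap_bound)

open Set

/-! ### auxiliary lemmas -/

theorem n3_it_cont (c : ℝ) (n : ℕ) : Continuous (f c)^[n] := by
  have h : Continuous (f c) := by unfold f; fun_prop
  exact h.iterate n

theorem n3_sub_prod (c : ℝ) (n : ℕ) (w z : ℝ) : (f c)^[n] w - (f c)^[n] z =
    (w - z) * ∏ j ∈ Finset.range n, ((f c)^[j] w + (f c)^[j] z) := by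
  induction n with
  | zero => simp
  | succ n ih =>
    rw [Function.iterate_succ_apply', Function.iterate_succ_apply', Finset.prod_range_succ,
      ← mul_assoc, ← ih]
    simp only [f]
    ring

theorem n3_C {c : ℝ} (hc : c < -1) (hc2 : -2 ≤ c) {x : ℝ} (h1 : c ≤ x) (h2 : x ≤ c ^ 2 + c) :
    c ≤ f c x ∧ f c x ≤ c ^ 2 + c := by
  unfold f
  constructor
  · nlinarith [sq_nonneg x]
  · have h3 : x ≤ -c := by nlinarith
    nlinarith

theorem n3_C_it {c : ℝ} (hc : c < -1) (hc2 : -2 ≤ c) {x : ℝ} (h1 : c ≤ x) (h2 : x ≤ c ^ 2 + c)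
    (n : ℕ) : c ≤ (f c)^[n] x ∧ (f c)^[n] x ≤ c ^ 2 + c := by
  induction n with
  | zero => exact ⟨h1, h2⟩
  | succ n ih =>
    rw [Function.iterate_succ_apply']
    exact n3_C hc hc2 ih.1 ih.2

theorem n3_abs {c : ℝ} (hc : c < -1) (hc2 : -2 ≤ c) {x : ℝ} (h1 : c ≤ x) (h2 : x ≤ c ^ 2 + c) :
    |x| ≤ 2 := by
  rw [abs_le]
  constructor
  · linarith
  · nlinarith

theorem n3_f_mem {c x : ℝ} (h : x ∈ P c) : f c x ∈ P c := by
  obtain ⟨n, rfl⟩ := h
  exact ⟨n + 1, by rw [Function.iterate_succ_apply' (f c) (n + 1)]⟩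

theorem n3_c_mem (c : ℝ) : c ∈ P c := ⟨0, by simp [f]⟩

theorem n3_c2_mem (c : ℝ) : c ^ 2 + c ∈ P c := ⟨1, by simp [f]⟩

/-- strict monotonicity near a periodic point -/
theorem n3_local {c q : ℝ} {l : ℕ} (hq : (f c)^[l] q = q) (hne : ∀ j, (f c)^[j] q ≠ 0) :
    ∃ δ : ℝ, 0 < δ ∧ ∀ w z : ℝ, |w - q| ≤ δ → |z - q| ≤ δ →
      0 < ∏ j ∈ Finset.range (2 * l), ((f c)^[j] w + (f c)^[j] z) := by
  let F : ℝ × ℝ → ℝ := fun p => ∏ j ∈ Finset.range (2 * l), ((f c)^[j] p.1 + (f c)^[j] p.2)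
  have hF : Continuous F := by
    refine continuous_finsetProd _ fun j _ => ?_
    exact ((n3_it_cont c j).comp continuous_fst).add ((n3_it_cont c j).comp continuous_snd)
  have hFq : 0 < F (q, q) := by
    show 0 < ∏ j ∈ Finset.range (2 * l), ((f c)^[j] q + (f c)^[j] q)
    rw [two_mul, Finset.prod_range_add]
    have h1 : ∀ x, (f c)^[l + x] q = (f c)^[x] q := by
      intro x
      rw [add_comm, Function.iterate_add_apply, hq]
    simp only [h1]
    have h2 : (∏ j ∈ Finset.range l, ((f c)^[j] q + (f c)^[j] q)) ≠ 0 := by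
      rw [Finset.prod_ne_zero_iff]
      intro j _ h
      exact hne j (by linarith)
    exact mul_self_pos.2 h2
  obtain ⟨ε, hε, h⟩ := Metric.isOpen_iff.1 (isOpen_lt continuous_const hF) (q, q) hFq
  refine ⟨ε / 2, by positivity, fun w z hw hz => ?_⟩
  have : (w, z) ∈ Metric.ball (q, q) ε := by
    rw [Metric.mem_ball, Prod.dist_eq, max_lt_iff]
    simp only [Real.dist_eq]
    constructor <;> linarith
  exact h this

theorem n3_end {c q x : ℝ} {l N : ℕ} (hl : 0 < l) (hq : (f c)^[l] q = q)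
    (hne : ∀ j, (f c)^[j] q ≠ 0) (hx : ∀ n, (f c)^[n] x ≠ q)
    (hlim : Filter.Tendsto (fun k : ℕ => (f c)^[N + 2 * l * k] x) Filter.atTop (nhds q)) :
    ∃ n m : ℕ, n < m ∧ ZF c (uIcc ((f c)^[n] x) ((f c)^[m] x)) := by
  obtain ⟨δ, hδ, hF⟩ := n3_local hq hne
  set t : ℕ → ℝ := fun k => (f c)^[N + 2 * l * k] x with ht
  have htG : ∀ k, t (k + 1) = (f c)^[2 * l] (t k) := by
    intro k
    have e : N + 2 * l * (k + 1) = 2 * l + (N + 2 * l * k) := by ring
    simp only [ht]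
    rw [e, Function.iterate_add_apply]
  have hqG : (f c)^[2 * l] q = q := by
    rw [two_mul, Function.iterate_add_apply, hq, hq]
  have hev : ∀ᶠ k in Filter.atTop, |t k - q| ≤ δ := by
    filter_upwards [(Metric.tendsto_nhds.1 hlim) δ hδ] with k hk
    rw [Real.dist_eq] at hk
    exact hk.le
  obtain ⟨k0, hk0⟩ := Filter.eventually_atTop.1 hev
  -- a step that decreases the distance
  have hdec : ∃ k, k0 ≤ k ∧ |t (k + 1) - q| < |t k - q| := by
    by_contra hcon
    push Not at hcon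
    have hmono : ∀ i, |t k0 - q| ≤ |t (k0 + i) - q| := by
      intro i
      induction i with
      | zero => simp
      | succ i ih => exact ih.trans (hcon (k0 + i) (by omega))
    have hpos : 0 < |t k0 - q| := abs_pos.2 (sub_ne_zero.2 (hx _))
    obtain ⟨k1, hk1⟩ := Filter.eventually_atTop.1 ((Metric.tendsto_nhds.1 hlim) _ hpos)
    have h1 := hk1 (k0 + k1) (by omega)
    rw [Real.dist_eq] at h1
    exact absurd h1 (not_lt.2 (hmono k1))
  obtain ⟨k, hk, hdk⟩ := hdec
  refine ⟨N + 2 * l * k, N + 2 * l * (k + 1), by nlinarith, ?_⟩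
  show ZF c (uIcc (t k) (t (k + 1)))
  have hneq : t k - q ≠ 0 := sub_ne_zero.2 (hx _)
  -- the set K
  have hstep : ∀ z, 0 < (z - q) * (t k - q) → |z - q| ≤ |t k - q| →
      0 < ((f c)^[2 * l] z - q) * (t k - q) ∧ |(f c)^[2 * l] z - q| ≤ |t k - q| := by
    intro z hz1 hz2
    have hzδ : |z - q| ≤ δ := hz2.trans (hk0 k hk)
    have hqδ : |q - q| ≤ δ := by simp [hδ.le]
    have e1 := n3_sub_prod c (2 * l) z q
    have e2 := n3_sub_prod c (2 * l) (t k) z
    have e3 := n3_sub_prod c (2 * l) (t k) q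
    have p1 := hF z q hzδ hqδ
    have p2 := hF (t k) z (hk0 k hk) hzδ
    rw [hqG] at e1 e3
    rw [← htG] at e2 e3
    constructor
    · rw [e1]
      have : (z - q) * (∏ j ∈ Finset.range (2 * l), ((f c)^[j] z + (f c)^[j] q)) * (t k - q) =
          ((z - q) * (t k - q)) * ∏ j ∈ Finset.range (2 * l), ((f c)^[j] z + (f c)^[j] q) := by
        ring
      rw [this]
      exact mul_pos hz1 p1
    · refine le_trans ?_ hdk.le
      rcases lt_or_gt_of_ne hneq with h | h
      · -- t k < q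
        have hz3 : z - q < 0 := by
          by_contra hcon
          push Not at hcon
          nlinarith
        rw [abs_of_neg hz3, abs_of_neg h] at hz2
        have h4 : (f c)^[2 * l] z - q ≤ 0 := by
          rw [e1]; exact mul_nonpos_of_nonpos_of_nonneg hz3.le p1.le
        have h5 : t (k + 1) - (f c)^[2 * l] z ≤ 0 := by
          rw [e2]; exact mul_nonpos_of_nonpos_of_nonneg (by linarith) p2.le
        rw [abs_of_nonpos h4, abs_of_nonpos (by linarith)]
        linarith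
      · have hz3 : 0 < z - q := by
          by_contra hcon
          push Not at hcon
          nlinarith
        rw [abs_of_pos hz3, abs_of_pos h] at hz2
        have h4 : 0 ≤ (f c)^[2 * l] z - q := by
          rw [e1]; exact mul_nonneg hz3.le p1.le
        have h5 : 0 ≤ t (k + 1) - (f c)^[2 * l] z := by
          rw [e2]; exact mul_nonneg (by linarith) p2.le
        rw [abs_of_nonneg h4, abs_of_nonneg (by linarith)]
        linarith
  have hit : ∀ i z, 0 < (z - q) * (t k - q) → |z - q| ≤ |t k - q| →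
      0 < (((f c)^[2 * l])^[i] z - q) * (t k - q) ∧ |((f c)^[2 * l])^[i] z - q| ≤ |t k - q| := by
    intro i z hz1 hz2
    induction i with
    | zero => exact ⟨hz1, hz2⟩
    | succ i ih =>
      rw [Function.iterate_succ_apply']
      exact hstep _ ih.1 ih.2
  have hZF : ∀ z, 0 < (z - q) * (t k - q) → |z - q| ≤ |t k - q| → ∀ j : ℕ, (f c)^[j] z ≠ 0 := by
    intro z hz1 hz2 j h
    have h2l : 0 < 2 * l := by omega
    have h1 := hit (j / (2 * l)) z hz1 hz2
    rw [← Function.iterate_mul] at h1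
    have h3 : (f c)^[j] z = (f c)^[j % (2 * l)] ((f c)^[2 * l * (j / (2 * l))] z) := by
      rw [← Function.iterate_add_apply, Nat.mod_add_div]
    rw [h3] at h
    set u := (f c)^[2 * l * (j / (2 * l))] z with hu
    have h4 : |u - q| ≤ δ := h1.2.trans (hk0 k hk)
    have h5 := hF u u h4 h4
    have h6 : ∏ i ∈ Finset.range (2 * l), ((f c)^[i] u + (f c)^[i] u) = 0 := by
      apply Finset.prod_eq_zero (Finset.mem_range.2 (Nat.mod_lt j h2l))
      rw [h]; simp
    rw [h6] at h5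
    exact lt_irrefl _ h5
  intro z hz
  have hs : 0 < (t (k + 1) - q) * (t k - q) := by
    have := (hstep (t k) (mul_self_pos.2 hneq) le_rfl).1
    rwa [← htG] at this
  have hz' := Set.mem_uIcc.1 hz
  rcases lt_or_gt_of_ne hneq with h | h
  · have h1 : t (k + 1) - q < 0 := by
      by_contra hcon
      push Not at hcon
      nlinarith
    rw [abs_of_neg h, abs_of_neg h1] at hdk
    have h2 : t k ≤ z ∧ z ≤ t (k + 1) := by
      rcases hz' with h | h
      · exact h
      · constructor <;> linarith [h.1, h.2]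
    have h3 : z - q < 0 := by linarith [h2.2]
    refine hZF z (mul_pos_of_neg_of_neg h3 h) ?_
    rw [abs_of_neg h3, abs_of_neg h]
    linarith [h2.1]
  · have h1 : 0 < t (k + 1) - q := by
      by_contra hcon
      push Not at hcon
      nlinarith
    rw [abs_of_pos h, abs_of_pos h1] at hdk
    have h2 : t (k + 1) ≤ z ∧ z ≤ t k := by
      rcases hz' with h | h
      · constructor <;> linarith [h.1, h.2]
      · exact h
    have h3 : 0 < z - q := by linarith [h2.1]
    refine hZF z (mul_pos h3 h) ?_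
    rw [abs_of_pos h3, abs_of_pos h]
    linarith [h2.2]

theorem n3_evper {c : ℝ} {Q : Set ℝ} (hfin : Q.Finite) (hQ : ∀ q ∈ Q, f c q ∈ Q)
    (hb : ∀ q ∈ Q, |q| ≤ 2) {x : ℕ → ℝ} (hx : ∀ n, x (n + 1) = f c (x n)) (hxb : ∀ n, |x n| ≤ 2)
    {q : ℕ → ℝ} (hq : ∀ n, q n ∈ Q)
    (hlim : Filter.Tendsto (fun n => x n - q n) Filter.atTop (nhds 0)) :
    ∃ N, ∀ n ≥ N, q (n + 1) = f c (q n) := by
  have h1 : Filter.Tendsto (fun n => x (n + 1) - f c (q n)) Filter.atTop (nhds 0) := by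
    have h2 : Filter.Tendsto (fun n => 4 * |x n - q n|) Filter.atTop (nhds 0) := by
      have := (hlim.abs).const_mul 4
      simpa using this
    refine squeeze_zero_norm (fun n => ?_) h2
    have e : x (n + 1) - f c (q n) = (x n + q n) * (x n - q n) := by
      rw [hx]; unfold f; ring
    rw [e, Real.norm_eq_abs, abs_mul]
    refine mul_le_mul_of_nonneg_right ?_ (abs_nonneg _)
    calc |x n + q n| ≤ |x n| + |q n| := abs_add_le _ _
      _ ≤ 2 + 2 := add_le_add (hxb n) (hb _ (hq n))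
      _ = 4 := by norm_num
  have h3 : Filter.Tendsto (fun n => q (n + 1) - f c (q n)) Filter.atTop (nhds 0) := by
    have h4 := (Filter.tendsto_add_atTop_iff_nat 1).2 hlim
    have h5 := h1.sub h4
    simp only [sub_zero] at h5
    refine h5.congr fun n => ?_
    ring
  have hS : (Set.image2 (fun a b : ℝ => a - b) Q Q \ {0}).Finite :=
    (hfin.image2 _ hfin).subset Set.sdiff_subset
  have h6 : (Set.image2 (fun a b : ℝ => a - b) Q Q \ {0})ᶜ ∈ nhds (0 : ℝ) :=
    hS.isClosed.isOpen_compl.mem_nhds (by simp)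
  obtain ⟨N, hN⟩ := Filter.eventually_atTop.1 (h3 h6)
  refine ⟨N, fun n hn => ?_⟩
  have h7 := hN n hn
  by_contra hcon
  refine h7 ⟨⟨_, hq (n + 1), _, hQ _ (hq n), rfl⟩, ?_⟩
  simpa [sub_eq_zero] using hcon

theorem n3_len {x y : ℕ → ℝ} {A B : ℝ} (hx : ∀ n, x n ∈ Icc A B) (hy : ∀ n, y n ∈ Icc A B)
    (hd : Pairwise (Function.onFun Disjoint fun n => uIcc (x n) (y n))) :
    Filter.Tendsto (fun n => |y n - x n|) Filter.atTop (nhds 0) := by
  have h1 := MeasureTheory.measure_iUnion (μ := MeasureTheory.volume) hd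
    (fun n => measurableSet_uIcc)
  have h2 : MeasureTheory.volume (⋃ n, uIcc (x n) (y n)) ≤ MeasureTheory.volume (Icc A B) := by
    refine MeasureTheory.measure_mono (iUnion_subset fun n => ?_)
    exact Set.uIcc_subset_Icc (hx n) (hy n)
  have h3 : (∑' n, MeasureTheory.volume (uIcc (x n) (y n))) ≠ ⊤ := by
    rw [← h1]
    refine ne_top_of_le_ne_top ?_ h2
    rw [Real.volume_Icc]
    exact ENNReal.ofReal_ne_top
  have h4 := ENNReal.tendsto_atTop_zero_of_tsum_ne_top h3
  simp only [Real.volume_interval] at h4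
  have h5 := (ENNReal.tendsto_toReal ENNReal.zero_ne_top).comp h4
  simp only [ENNReal.toReal_zero] at h5
  refine h5.congr fun n => ?_
  simp [ENNReal.toReal_ofReal (abs_nonneg _)]

theorem n3_tight {Q : Set ℝ} (hfin : Q.Finite) {u v : ℝ} (_huv : u ≤ v) (h1 : ∃ p ∈ Q, p < u)
    (h2 : ∃ q ∈ Q, v < q) (hgap : ∀ z ∈ Q, ¬ (u ≤ z ∧ z ≤ v)) :
    ∃ p ∈ Q, ∃ q ∈ Q, p < u ∧ v < q ∧ ∀ z ∈ Q, ¬ (p < z ∧ z < q) := by
  have f1 : {z | z ∈ Q ∧ z < u}.Finite := hfin.subset fun z hz => hz.1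
  have f2 : {z | z ∈ Q ∧ v < z}.Finite := hfin.subset fun z hz => hz.1
  obtain ⟨p0, hp0, hp0'⟩ := h1
  obtain ⟨q0, hq0, hq0'⟩ := h2
  obtain ⟨p, hp, hpm⟩ := Set.exists_max_image _ (fun z => z) f1 ⟨p0, hp0, hp0'⟩
  obtain ⟨q, hq, hqm⟩ := Set.exists_min_image _ (fun z => z) f2 ⟨q0, hq0, hq0'⟩
  refine ⟨p, hp.1, q, hq.1, hp.2, hq.2, fun z hz hpz => ?_⟩
  by_cases h3 : z < u
  · exact absurd (hpm z ⟨hz, h3⟩) (not_le.2 hpz.1)
  · by_cases h4 : v < z
    · exact absurd (hqm z ⟨hz, h4⟩) (not_le.2 hpz.2)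
    · exact hgap z hz ⟨not_lt.1 h3, not_lt.1 h4⟩

theorem n3_near {p x y q κ : ℝ} (hM : M4 p x y q) (hκ : 1 < κ) (h : κ ≤ CR p x y q) :
    |x - p| ≤ (1 + 1 / (√κ - 1)) * |y - x| ∨ |x - q| ≤ (1 + 1 / (√κ - 1)) * |y - x| := by
  rw [CR_eq hM] at h
  have hs : 1 < √κ := by
    rw [Real.lt_sqrt (by norm_num)]
    simpa using hκ
  have hs' : 0 < √κ - 1 := by linarith
  have hxp : 0 < |x - p| := by
    refine abs_pos.2 (sub_ne_zero.2 ?_)
    rcases hM with h | h
    · exact h.1.ne'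
    · exact h.2.2.ne
  have hqy : 0 < |q - y| := by
    refine abs_pos.2 (sub_ne_zero.2 ?_)
    rcases hM with h | h
    · exact h.2.2.ne'
    · exact h.1.ne
  have hD : 0 ≤ |y - x| := abs_nonneg _
  have hor : √κ ≤ 1 + |y - x| / |x - p| ∨ √κ ≤ 1 + |y - x| / |q - y| := by
    by_contra hcon
    push Not at hcon
    have h1 : (1 + |y - x| / |x - p|) * (1 + |y - x| / |q - y|) < √κ * √κ := by
      refine mul_lt_mul'' hcon.1 hcon.2 (by positivity) (by positivity)
    rw [Real.mul_self_sqrt (by linarith)] at h1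
    linarith
  rcases hor with h1 | h1
  · left
    have h2 : (√κ - 1) * |x - p| ≤ |y - x| := by
      have h3 : √κ - 1 ≤ |y - x| / |x - p| := by linarith
      rwa [le_div_iff₀ hxp] at h3
    have h3 : |x - p| ≤ |y - x| / (√κ - 1) := by
      rw [le_div_iff₀ hs']; linarith
    calc |x - p| ≤ |y - x| / (√κ - 1) := h3
      _ = 1 / (√κ - 1) * |y - x| := by ring
      _ ≤ (1 + 1 / (√κ - 1)) * |y - x| := by nlinarith
  · right
    have h2 : (√κ - 1) * |q - y| ≤ |y - x| := by
      have h3 : √κ - 1 ≤ |y - x| / |q - y| := by linarith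
      rwa [le_div_iff₀ hqy] at h3
    have h3 : |q - y| ≤ |y - x| / (√κ - 1) := by
      rw [le_div_iff₀ hs']; linarith
    calc |x - q| ≤ |x - y| + |y - q| := abs_sub_le _ _ _
      _ = |y - x| + |q - y| := by rw [abs_sub_comm x y, abs_sub_comm y q]
      _ ≤ |y - x| + |y - x| / (√κ - 1) := by linarith
      _ = (1 + 1 / (√κ - 1)) * |y - x| := by ring

theorem n3_pigeon {Q : Set ℝ} (hfin : Q.Finite) (g : ℕ → ℝ) (hg : ∀ n, g n ∈ Q) :
    ∃ i j, i < j ∧ g i = g j := by
  have h : ¬ Function.Injective g := fun hinj =>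
    (Set.infinite_of_injective_forall_mem hinj hg) hfin
  unfold Function.Injective at h
  push Not at h
  obtain ⟨a, b, hab, hne⟩ := h
  rcases lt_or_gt_of_ne hne with h1 | h1
  · exact ⟨a, b, h1, hab⟩
  · exact ⟨b, a, h1, hab.symm⟩

/-- TARGET -/
theorem no_wandering {c : ℝ} (hc : c < -1) (hc2 : -2 ≤ c) (hP : (P c).Finite) (h0 : (0:ℝ) ∉ P c)
    {a b : ℝ} (ha : c ≤ a) (hab : a < b) (hb : b ≤ c ^ 2 + c) (hL : ZF c (Ioo a b)) :
    ∃ n m : ℕ, n < m ∧ ∃ x ∈ Ioo a b, ZF c (uIcc ((f c)^[n] x) ((f c)^[m] x)) := by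
  by_contra H
  push Not at H
  -- the images of the interval
  set I : ℕ → Set ℝ := fun n => (f c)^[n] '' Ioo a b with hI
  have hIconn : ∀ n, IsPreconnected (I n) := fun n =>
    isPreconnected_Ioo.image _ (n3_it_cont c n).continuousOn
  have hIZF : ∀ n, ZF c (I n) := by
    rintro n _ ⟨x, hx, rfl⟩ k h
    rw [← Function.iterate_add_apply] at h
    exact hL x hx _ h
  have hmem : ∀ n x, x ∈ Ioo a b → (f c)^[n] x ∈ I n := fun n x hx => ⟨x, hx, rfl⟩
  have hull : ∀ n x y, x ∈ Ioo a b → y ∈ Ioo a b → uIcc ((f c)^[n] x) ((f c)^[n] y) ⊆ I n :=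
    fun n x y hx hy => (hIconn n).ordConnected.uIcc_subset (hmem n x hx) (hmem n y hy)
  have hdisj : ∀ n m, n < m → Disjoint (I n) (I m) := by
    intro n m hnm
    rw [Set.disjoint_left]
    intro z hz1 hz2
    have hun : IsPreconnected (I n ∪ I m) := IsPreconnected.union z hz1 hz2 (hIconn n) (hIconn m)
    obtain ⟨x, hx, hxz⟩ := hz1
    refine H n m hnm x hx ?_
    have hsub : uIcc ((f c)^[n] x) ((f c)^[m] x) ⊆ I n ∪ I m :=
      hun.ordConnected.uIcc_subset (Or.inl (hmem n x hx)) (Or.inr (hmem m x hx))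
    intro w hw k
    rcases hsub hw with h | h
    · exact hIZF n w h k
    · exact hIZF m w h k
  -- orbits avoid Q
  set Q : Set ℝ := insert 0 (P c) with hQdef
  have hQfin : Q.Finite := hP.insert 0
  have h0Q : (0 : ℝ) ∈ Q := Set.mem_insert _ _
  have hQf' : ∀ q ∈ Q, f c q ∈ P c := by
    intro q hq
    rcases hq with rfl | hq
    · exact ⟨0, rfl⟩
    · exact n3_f_mem hq
  have hQf : ∀ q ∈ Q, f c q ∈ Q := fun q hq => Or.inr (hQf' q hq)
  have hinjorb : ∀ x ∈ Ioo a b, ∀ n m, n < m → (f c)^[n] x ≠ (f c)^[m] x := by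
    intro x hx n m hnm h
    exact Set.disjoint_left.1 (hdisj n m hnm) (hmem n x hx) (h ▸ hmem m x hx)
  have hPit : ∀ p ∈ P c, ∀ k, (f c)^[k] p ∈ P c := by
    intro p hp k
    induction k with
    | zero => exact hp
    | succ k ih => rw [Function.iterate_succ_apply']; exact n3_f_mem ih
  have havoid : ∀ n x, x ∈ Ioo a b → (f c)^[n] x ∉ Q := by
    intro n x hx h
    rcases h with h | h
    · exact hL x hx n h
    · obtain ⟨i, j, hij, he⟩ := n3_pigeon hP (fun k => (f c)^[k] ((f c)^[n] x)) (hPit _ h)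
      simp only [← Function.iterate_add_apply] at he
      exact hinjorb x hx (i + n) (j + n) (by omega) he
  have hIQ : ∀ n, ∀ z ∈ I n, z ∉ Q := by
    rintro n _ ⟨x, hx, rfl⟩
    exact havoid n x hx
  -- points x < y
  set x := (2 * a + b) / 3 with hxdef
  set y := (a + 2 * b) / 3 with hydef
  have hx : x ∈ Ioo a b := ⟨by rw [hxdef]; linarith, by rw [hxdef]; linarith⟩
  have hy : y ∈ Ioo a b := ⟨by rw [hydef]; linarith, by rw [hydef]; linarith⟩
  have hxy : x ≠ y := by
    intro h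
    rw [hxdef, hydef] at h
    linarith
  have hne : ∀ n, (f c)^[n] x ≠ (f c)^[n] y := by
    intro n
    induction n with
    | zero => exact hxy
    | succ n ih =>
      intro h
      rw [Function.iterate_succ_apply', Function.iterate_succ_apply'] at h
      unfold f at h
      have h1 : ((f c)^[n] x - (f c)^[n] y) * ((f c)^[n] x + (f c)^[n] y) = 0 := by
        unfold f; linarith
      rcases mul_eq_zero.1 h1 with h2 | h2
      · exact ih (sub_eq_zero.1 h2)
      · have h3 : (0 : ℝ) ∈ uIcc ((f c)^[n] x) ((f c)^[n] y) := by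
          rw [Set.mem_uIcc]
          rcases le_total ((f c)^[n] x) 0 with h4 | h4
          · left; constructor <;> linarith
          · right; constructor <;> linarith
        exact hIQ n 0 (hull n x y hx hy h3) h0Q
  have hCx : ∀ z ∈ Ioo a b, ∀ n, c ≤ (f c)^[n] z ∧ (f c)^[n] z ≤ c ^ 2 + c := fun z hz n =>
    n3_C_it hc hc2 (ha.trans hz.1.le) (hz.2.le.trans hb) n
  have hCx' : ∀ z ∈ Ioo a b, ∀ n, c < (f c)^[n] z ∧ (f c)^[n] z < c ^ 2 + c := by
    intro z hz n
    have h1 := hCx z hz n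
    have h2 := havoid n z hz
    constructor
    · refine lt_of_le_of_ne h1.1 fun h => h2 ?_
      rw [← h]; exact Or.inr (n3_c_mem c)
    · refine lt_of_le_of_ne h1.2 fun h => h2 ?_
      rw [h]; exact Or.inr (n3_c2_mem c)
  have hcQ : c ∈ Q := Or.inr (n3_c_mem c)
  have hc2Q : c ^ 2 + c ∈ Q := Or.inr (n3_c2_mem c)
  have hbr : ∀ n : ℕ, ∃ p ∈ Q, ∃ q ∈ Q, M4 p ((f c)^[n] x) ((f c)^[n] y) q := by
    intro n
    have h1 := hCx' x hx n
    have h2 := hCx' y hy n
    rcases lt_or_gt_of_ne (hne n) with h | h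
    · exact ⟨c, hcQ, c ^ 2 + c, hc2Q, Or.inl ⟨h1.1, h, h2.2⟩⟩
    · exact ⟨c ^ 2 + c, hc2Q, c, hcQ, Or.inr ⟨h2.1, h, h1.2⟩⟩
  have hgap : ∀ n : ℕ, ∀ z ∈ Q, z ∉ Set.uIcc ((f c)^[n] x) ((f c)^[n] y) :=
    fun n z hz hz' => hIQ n z (hull n x y hx hy hz') hz
  obtain ⟨κ, hκ, hκb⟩ := gap_bound hQfin h0Q hQf hbr hgap
  -- lengths tend to zero
  have hlen : Filter.Tendsto (fun n => |(f c)^[n] y - (f c)^[n] x|) Filter.atTop (nhds 0) := by
    refine n3_len (A := c) (B := c ^ 2 + c) (fun n => hCx x hx n) (fun n => hCx y hy n) ?_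
    intro n m hnm
    show Disjoint (uIcc ((f c)^[n] x) ((f c)^[n] y)) (uIcc ((f c)^[m] x) ((f c)^[m] y))
    rcases lt_or_gt_of_ne hnm with h | h
    · exact (hdisj n m h).mono (hull n x y hx hy) (hull m x y hx hy)
    · exact ((hdisj m n h).mono (hull m x y hx hy) (hull n x y hx hy)).symm
  -- nearby points of Q
  have hqn : ∀ n, ∃ q ∈ Q, |(f c)^[n] x - q| ≤
      (1 + 1 / (√κ - 1)) * |(f c)^[n] y - (f c)^[n] x| := by
    intro n
    have h1 := hCx' x hx n
    have h2 := hCx' y hy n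
    rcases lt_or_gt_of_ne (hne n) with h | h
    · obtain ⟨p, hp, q, hq, hpx, hyq, ht⟩ := n3_tight hQfin h.le ⟨c, hcQ, h1.1⟩
        ⟨c ^ 2 + c, hc2Q, h2.2⟩ (fun z hz hz' => hgap n z hz (by
          rw [Set.mem_uIcc]; exact Or.inl hz'))
      have hM : M4 p ((f c)^[n] x) ((f c)^[n] y) q := Or.inl ⟨hpx, h, hyq⟩
      have hCR := hκb n p hp q hq hM (by
        rintro z hz (hz' | hz')
        · exact ht z hz hz'
        · linarith [hz'.1, hz'.2])
      rcases n3_near hM hκ hCR with h3 | h3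
      · exact ⟨p, hp, h3⟩
      · exact ⟨q, hq, h3⟩
    · obtain ⟨p, hp, q, hq, hpx, hyq, ht⟩ := n3_tight hQfin h.le ⟨c, hcQ, h2.1⟩
        ⟨c ^ 2 + c, hc2Q, h1.2⟩ (fun z hz hz' => hgap n z hz (by
          rw [Set.mem_uIcc]; exact Or.inr hz'))
      have hM : M4 q ((f c)^[n] x) ((f c)^[n] y) p := Or.inr ⟨hpx, h, hyq⟩
      have hCR := hκb n q hq p hp hM (by
        rintro z hz (hz' | hz')
        · linarith [hz'.1, hz'.2]
        · exact ht z hz hz')
      rcases n3_near hM hκ hCR with h3 | h3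
      · exact ⟨q, hq, h3⟩
      · exact ⟨p, hp, h3⟩
  choose q hqQ hqb using hqn
  have hlim : Filter.Tendsto (fun n => (f c)^[n] x - q n) Filter.atTop (nhds 0) := by
    have h1 : Filter.Tendsto (fun n => (1 + 1 / (√κ - 1)) * |(f c)^[n] y - (f c)^[n] x|)
        Filter.atTop (nhds 0) := by
      have := hlen.const_mul (1 + 1 / (√κ - 1))
      simpa using this
    exact squeeze_zero_norm (fun n => hqb n) h1
  have h0C : c ≤ 0 ∧ (0 : ℝ) ≤ c ^ 2 + c := ⟨by linarith, by nlinarith⟩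
  have hQb : ∀ q ∈ Q, |q| ≤ 2 := by
    rintro q (rfl | ⟨n, rfl⟩)
    · simp
    · have := n3_C_it hc hc2 h0C.1 h0C.2 (n + 1)
      exact n3_abs hc hc2 this.1 this.2
  obtain ⟨N, hN⟩ := n3_evper hQfin hQf hQb (x := fun n => (f c)^[n] x)
    (fun n => Function.iterate_succ_apply' _ _ _)
    (fun n => n3_abs hc hc2 (hCx x hx n).1 (hCx x hx n).2) hqQ hlim
  have hqN : ∀ k, q (N + k) = (f c)^[k] (q N) := by
    intro k
    induction k with
    | zero => rfl
    | succ k ih =>
      rw [Function.iterate_succ_apply', ← ih]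
      exact hN (N + k) (by omega)
  obtain ⟨i, j, hij, he⟩ := n3_pigeon hQfin (fun k => q (N + k)) (fun k => hqQ _)
  -- the periodic point
  set r := q (N + i) with hr
  obtain ⟨l, hl, hjl⟩ : ∃ l, 0 < l ∧ j = l + i := ⟨j - i, by omega, by omega⟩
  have hrper : (f c)^[l] r = r := by
    have h1 : q (N + j) = (f c)^[l] r := by
      rw [hr, hqN j, hqN i, hjl, Function.iterate_add_apply]
    rw [← h1]
    exact he.symm
  have hrP : r ∈ P c := by
    obtain ⟨l', rfl⟩ : ∃ l', l = l' + 1 := ⟨l - 1, by omega⟩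
    rw [← hrper, Function.iterate_succ_apply]
    exact hPit _ (hQf' r (hqQ _)) _
  have hrne : ∀ k, (f c)^[k] r ≠ 0 := by
    intro k h
    exact h0 (h ▸ hPit r hrP k)
  have hrQ : r ∈ Q := Or.inr hrP
  have hxr : ∀ n, (f c)^[n] x ≠ r := fun n h => havoid n x hx (h ▸ hrQ)
  have hlim2 : Filter.Tendsto (fun k : ℕ => (f c)^[(N + i) + 2 * l * k] x) Filter.atTop
      (nhds r) := by
    have hsub : Filter.Tendsto (fun k : ℕ => (N + i) + 2 * l * k) Filter.atTop Filter.atTop := by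
      refine Filter.tendsto_atTop_mono (fun k => ?_) Filter.tendsto_id
      have : 1 * k ≤ 2 * l * k := Nat.mul_le_mul_right k (by omega)
      simp only [id]
      omega
    have h1 := hlim.comp hsub
    have h2 : ∀ k : ℕ, q ((N + i) + 2 * l * k) = r := by
      intro k
      have h3 : ∀ s : ℕ, (f c)^[l * s] r = r := by
        intro s
        rw [Function.iterate_mul]
        exact Function.iterate_fixed hrper s
      have h4 : (N + i) + 2 * l * k = N + (l * (2 * k) + i) := by ring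
      rw [h4, hqN, Function.iterate_add_apply, ← hqN i, ← hr, h3]
    have h5 : Filter.Tendsto (fun k : ℕ => (f c)^[(N + i) + 2 * l * k] x - r) Filter.atTop
        (nhds 0) := by
      refine h1.congr fun k => ?_
      simp only [Function.comp_apply]
      rw [h2]
    have h6 := h5.add_const r
    simp only [sub_add_cancel, zero_add] at h6
    exact h6
  obtain ⟨n, m, hnm, hZ⟩ := n3_end hl hrper hrne hxr hlim2
  exact H n m hnm x hx hZ

end Pool.Agent.Helper79_Real.N3
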