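import Pool.Agent.Helper79_Real.N2
import Pool.Agent.Helper79_Real.N2b

namespace Pool.Agent.Helper79_Real.N4

open N2 (CR_eq)

open N2b (gap_bound)

open Set

namespace N4

open Filter Topology

lemma cont_f (c : ℝ) : Continuous (f c) := by
  unfold f
  fun_prop

lemma cont_iter (c : ℝ) (j : ℕ) : Continuous (f c)^[j] := (cont_f c).iterate j

/-- on a zero-free interval the iterates are strictly monotone -/
lemma mono_iter {c : ℝ} {S : Set ℝ} (hS : IsPreconnected S) (hZ : ZF c S) :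
    ∀ j : ℕ, StrictMonoOn (f c)^[j] S ∨ StrictAntiOn (f c)^[j] S
  | 0 => Or.inl (fun x _ y _ h => by simpa using h)
  | j + 1 => by
    have himg : IsPreconnected ((f c)^[j] '' S) := hS.image _ (cont_iter c j).continuousOn
    have hord := himg.ordConnected
    have h0 : (0 : ℝ) ∉ (f c)^[j] '' S := by
      rintro ⟨z, hz, hz0⟩
      exact hZ z hz j hz0
    have hsame : ∀ x ∈ S, ∀ y ∈ S, 0 < (f c)^[j] x → 0 < (f c)^[j] y := by
      intro x hx y hy hpos
      by_contra hneg
      push Not at hneg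
      exact h0 (hord.out (mem_image_of_mem _ hy) (mem_image_of_mem _ hx) ⟨hneg, hpos.le⟩)
    have hit : ∀ x, (f c)^[j + 1] x = ((f c)^[j] x) ^ 2 + c := by
      intro x
      rw [Function.iterate_succ_apply']
      rfl
    by_cases hpos : ∃ x ∈ S, 0 < (f c)^[j] x
    · obtain ⟨x0, hx0, hp⟩ := hpos
      have hall : ∀ y ∈ S, 0 < (f c)^[j] y := fun y hy => hsame x0 hx0 y hy hp
      rcases mono_iter hS hZ j with h | h
      · left
        intro x hx y hy hxy
        rw [hit, hit]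
        have := h hx hy hxy
        have h1 := hall x hx
        nlinarith
      · right
        intro x hx y hy hxy
        rw [hit, hit]
        have := h hx hy hxy
        have h1 := hall y hy
        nlinarith
    · have hall : ∀ y ∈ S, (f c)^[j] y < 0 := by
        intro y hy
        have h1 : (f c)^[j] y ≠ 0 := hZ y hy j
        have h2 : ¬ 0 < (f c)^[j] y := fun h => hpos ⟨y, hy, h⟩
        exact lt_of_le_of_ne (not_lt.mp h2) h1
      rcases mono_iter hS hZ j with h | h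
      · right
        intro x hx y hy hxy
        rw [hit, hit]
        have := h hx hy hxy
        have h1 := hall y hy
        nlinarith
      · left
        intro x hx y hy hxy
        rw [hit, hit]
        have := h hx hy hxy
        have h1 := hall x hx
        nlinarith

lemma ZF_iter {c : ℝ} {S : Set ℝ} (hZ : ZF c S) (j : ℕ) : ZF c ((f c)^[j] '' S) := by
  rintro _ ⟨z, hz, rfl⟩ k
  rw [← Function.iterate_add_apply]
  exact hZ z hz (k + j)

/-- a strictly monotone convergent sequence eventually jumps over no given point -/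
lemma ev_not_mem {s : ℕ → ℝ} {l : ℝ} (hs : StrictMono s ∨ StrictAnti s)
    (hl : Tendsto s atTop (𝓝 l)) (r : ℝ) : ∀ᶠ k in atTop, r ∉ uIcc (s k) (s (k + 1)) := by
  by_cases hr : r = l
  · subst hr
    refine Eventually.of_forall fun k hk => ?_
    rcases hs with hs | hs
    · have h1 : s (k + 1) < s (k + 2) := hs (by omega)
      have h2 : s (k + 2) ≤ r := hs.monotone.ge_of_tendsto hl _
      have h3 : s k < s (k + 1) := hs (by omega)
      rw [uIcc_of_le h3.le] at hk
      linarith [hk.2]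
    · have h1 : s (k + 2) < s (k + 1) := hs (by omega)
      have h2 : r ≤ s (k + 2) := hs.antitone.le_of_tendsto hl _
      have h3 : s (k + 1) < s k := hs (by omega)
      rw [uIcc_of_ge h3.le] at hk
      linarith [hk.1]
  · have hpos : 0 < |r - l| := abs_pos.mpr (sub_ne_zero.mpr hr)
    have h1 : ∀ᶠ k in atTop, s k ∈ Metric.ball l |r - l| := hl (Metric.ball_mem_nhds l hpos)
    have h2 : ∀ᶠ k in atTop, s (k + 1) ∈ Metric.ball l |r - l| :=
      (tendsto_add_atTop_iff_nat 1).mpr hl (Metric.ball_mem_nhds l hpos)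
    filter_upwards [h1, h2] with k hk1 hk2 hk
    have hord : OrdConnected (Metric.ball l |r - l|) := by
      rw [Real.ball_eq_Ioo]; exact ordConnected_Ioo
    have h3 := hord.uIcc_subset hk1 hk2 hk
    rw [Metric.mem_ball, Real.dist_eq] at h3
    exact lt_irrefl _ h3

/-- existence of a tight pair -/
lemma tight {Q : Set ℝ} (hQ : Q.Finite) {p0 x y q0 : ℝ} (hp0 : p0 ∈ Q) (hq0 : q0 ∈ Q)
    (h : M4 p0 x y q0) (hgap : ∀ z ∈ Q, z ∉ uIcc x y) :
    ∃ p ∈ Q, ∃ q ∈ Q, M4 p x y q ∧ ∀ z ∈ Q, ¬ ((p < z ∧ z < q) ∨ (q < z ∧ z < p)) := by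
  rcases h with ⟨h1, h2, h3⟩ | ⟨h1, h2, h3⟩
  · obtain ⟨p, ⟨hpQ, hpx⟩, hp⟩ := Set.exists_max_image {z | z ∈ Q ∧ z < x} id
      (hQ.subset fun z hz => hz.1) ⟨p0, hp0, h1⟩
    obtain ⟨q, ⟨hqQ, hqy⟩, hq⟩ := Set.exists_min_image {z | z ∈ Q ∧ y < z} id
      (hQ.subset fun z hz => hz.1) ⟨q0, hq0, h3⟩
    refine ⟨p, hpQ, q, hqQ, Or.inl ⟨hpx, h2, hqy⟩, ?_⟩
    rintro z hz (⟨hz1, hz2⟩ | ⟨hz1, hz2⟩)
    · rcases lt_or_ge z x with h4 | h4
      · exact absurd (hp z ⟨hz, h4⟩) (not_le.mpr hz1)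
      · rcases lt_or_ge y z with h5 | h5
        · exact absurd (hq z ⟨hz, h5⟩) (not_le.mpr hz2)
        · exact hgap z hz (by rw [uIcc_of_le h2.le]; exact ⟨h4, h5⟩)
    · linarith
  · obtain ⟨q, ⟨hqQ, hqy⟩, hq⟩ := Set.exists_max_image {z | z ∈ Q ∧ z < y} id
      (hQ.subset fun z hz => hz.1) ⟨q0, hq0, h1⟩
    obtain ⟨p, ⟨hpQ, hpx⟩, hp⟩ := Set.exists_min_image {z | z ∈ Q ∧ x < z} id
      (hQ.subset fun z hz => hz.1) ⟨p0, hp0, h3⟩
    refine ⟨p, hpQ, q, hqQ, Or.inr ⟨hqy, h2, hpx⟩, ?_⟩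
    rintro z hz (⟨hz1, hz2⟩ | ⟨hz1, hz2⟩)
    · linarith
    · rcases lt_or_ge z y with h4 | h4
      · exact absurd (hq z ⟨hz, h4⟩) (not_le.mpr hz1)
      · rcases lt_or_ge x z with h5 | h5
        · exact absurd (hp z ⟨hz, h5⟩) (not_le.mpr hz2)
        · exact hgap z hz (by rw [uIcc_of_ge h2.le]; exact ⟨h4, h5⟩)

open Polynomial in
/-- the iterates as polynomials -/
noncomputable def Fp (c : ℝ) : ℕ → ℝ[X]
  | 0 => X
  | k + 1 => (Fp c k) ^ 2 + C c

lemma Fp_eval (c : ℝ) (z : ℝ) : ∀ k, (Fp c k).eval z = (f c)^[k] z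
  | 0 => by simp [Fp]
  | k + 1 => by
    rw [Function.iterate_succ_apply']
    simp [Fp, Fp_eval c z k, f]

lemma Fp_natDegree (c : ℝ) : ∀ k, (Fp c k).natDegree = 2 ^ k
  | 0 => by simp [Fp]
  | k + 1 => by
    rw [Fp, Polynomial.natDegree_add_C, Polynomial.natDegree_pow, Fp_natDegree c k, pow_succ,
      mul_comm]

lemma finite_fix (c : ℝ) {k : ℕ} (hk : 0 < k) : {z : ℝ | (f c)^[k] z = z}.Finite := by
  have hne : Fp c k - Polynomial.X ≠ 0 := by
    intro h
    have h1 : Fp c k = Polynomial.X := sub_eq_zero.mp h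
    have h2 := Fp_natDegree c k
    rw [h1, Polynomial.natDegree_X] at h2
    have h3 : 2 ≤ 2 ^ k := by
      calc 2 = 2 ^ 1 := by norm_num
        _ ≤ 2 ^ k := Nat.pow_le_pow_right (by norm_num) hk
    omega
  refine (Polynomial.finite_setOfPred_isRoot hne).subset ?_
  intro z hz
  show Polynomial.IsRoot _ z
  rw [Polynomial.IsRoot.def, Polynomial.eval_sub, Fp_eval, Polynomial.eval_X]
  exact sub_eq_zero.mpr hz

lemma core_map {c x : ℝ} (hc : c < -1) (hc2 : -2 ≤ c) (h1 : c ≤ x) (h2 : x ≤ c ^ 2 + c) :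
    c ≤ f c x ∧ f c x ≤ c ^ 2 + c := by
  unfold f
  constructor
  · nlinarith [sq_nonneg x]
  · have h3 : x ≤ -c := by nlinarith
    nlinarith

lemma core_iter {c x : ℝ} (hc : c < -1) (hc2 : -2 ≤ c) (h1 : c ≤ x) (h2 : x ≤ c ^ 2 + c) :
    ∀ j : ℕ, c ≤ (f c)^[j] x ∧ (f c)^[j] x ≤ c ^ 2 + c
  | 0 => ⟨h1, h2⟩
  | j + 1 => by
    rw [Function.iterate_succ_apply']
    obtain ⟨h3, h4⟩ := core_iter hc hc2 h1 h2 j
    exact core_map hc hc2 h3 h4

lemma seq_mono {c y : ℝ} {p : ℕ} (hZ : ZF c (uIcc y ((f c)^[p] y)))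
    (hne : (f c)^[p + p] y ≠ y) :
    ∀ i : ℕ, StrictMono (fun k : ℕ => (f c)^[i + (p + p) * k] y) ∨
      StrictAnti (fun k : ℕ => (f c)^[i + (p + p) * k] y) := by
  set ys : ℕ → ℝ := fun k => (f c)^[p * k] y with hys
  have hys0 : ys 0 = y := by simp [hys]
  have hsucc : ∀ k, ys (k + 1) = (f c)^[p] (ys k) := by
    intro k
    simp only [hys]
    rw [← Function.iterate_add_apply]
    congr 1
    ring_nf
  set Y : Set ℝ := ⋃ k, uIcc (ys k) (ys (k + 1)) with hY
  have hmem : ∀ k, ys k ∈ Y := fun k => mem_iUnion.mpr ⟨k, left_mem_uIcc⟩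
  have hpre : IsPreconnected Y := by
    apply IsPreconnected.iUnion_of_chain
    · intro k
      exact isPreconnected_uIcc
    · intro k
      exact ⟨ys (k + 1), right_mem_uIcc, left_mem_uIcc⟩
  have hZk : ∀ k, ZF c (uIcc (ys k) (ys (k + 1))) := by
    intro k
    induction k with
    | zero =>
      rw [hsucc, hys0]
      exact hZ
    | succ k ih =>
      have h1 : uIcc (ys (k + 1)) (ys (k + 1 + 1)) ⊆ (f c)^[p] '' uIcc (ys k) (ys (k + 1)) := by
        rw [hsucc (k + 1)]
        nth_rewrite 1 [hsucc k]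
        exact intermediate_value_uIcc (cont_iter c p).continuousOn
      intro z hz
      exact ZF_iter ih p z (h1 hz)
  have hZY : ZF c Y := by
    intro z hz
    obtain ⟨k, hk⟩ := mem_iUnion.mp hz
    exact hZk k z hk
  have hg := mono_iter hpre hZY p
  have up : ∀ k, ys k < ys (k + 2) → ys (k + 2) < ys (k + 4) := by
    intro k h
    rw [hsucc (k + 3), hsucc (k + 1), hsucc (k + 2), hsucc k]
    rcases hg with hg | hg
    · apply hg
      · rw [← hsucc]; exact hmem _
      · rw [← hsucc]; exact hmem _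
      · exact hg (hmem _) (hmem _) h
    · apply hg
      · rw [← hsucc]; exact hmem _
      · rw [← hsucc]; exact hmem _
      · exact hg (hmem _) (hmem _) h
  have down : ∀ k, ys (k + 2) < ys k → ys (k + 4) < ys (k + 2) := by
    intro k h
    rw [hsucc (k + 3), hsucc (k + 1), hsucc (k + 2), hsucc k]
    rcases hg with hg | hg
    · apply hg
      · rw [← hsucc]; exact hmem _
      · rw [← hsucc]; exact hmem _
      · exact hg (hmem _) (hmem _) h
    · apply hg
      · rw [← hsucc]; exact hmem _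
      · rw [← hsucc]; exact hmem _
      · exact hg (hmem _) (hmem _) h
  have h02 : ys 2 ≠ ys 0 := by
    rw [hys0]
    simp only [hys]
    rwa [show p * 2 = p + p by ring]
  have ht : StrictMono (fun k => ys (2 * k)) ∨ StrictAnti (fun k => ys (2 * k)) := by
    rcases lt_or_gt_of_ne h02 with h | h
    · right
      apply strictAnti_nat_of_succ_lt
      intro k
      induction k with
      | zero => exact h
      | succ k ih => exact down (2 * k) ih
    · left
      apply strictMono_nat_of_lt_succ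
      intro k
      induction k with
      | zero => exact h
      | succ k ih => exact up (2 * k) ih
  intro i
  have heq : (fun k : ℕ => (f c)^[i + (p + p) * k] y) = fun k => (f c)^[i] (ys (2 * k)) := by
    funext k
    simp only [hys]
    rw [← Function.iterate_add_apply]
    congr 1
    ring_nf
  rw [heq]
  rcases mono_iter hpre hZY i with h | h <;> rcases ht with h' | h'
  · left
    intro a b hab
    exact h (hmem _) (hmem _) (h' hab)
  · right
    intro a b hab
    exact h (hmem _) (hmem _) (h' hab)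
  · right
    intro a b hab
    exact h (hmem _) (hmem _) (h' hab)
  · left
    intro a b hab
    exact h (hmem _) (hmem _) (h' hab)

/-- a bounded strictly monotone sequence converges -/
lemma seq_conv {s : ℕ → ℝ} (hs : StrictMono s ∨ StrictAnti s) {a b : ℝ}
    (hb : ∀ k, a ≤ s k ∧ s k ≤ b) : ∃ l, Tendsto s atTop (𝓝 l) := by
  rcases hs with hs | hs
  · exact ⟨_, tendsto_atTop_ciSup hs.monotone ⟨b, by rintro _ ⟨k, rfl⟩; exact (hb k).2⟩⟩
  · exact ⟨_, tendsto_atTop_ciInf hs.antitone ⟨a, by rintro _ ⟨k, rfl⟩; exact (hb k).1⟩⟩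

lemma P_succ {c z : ℝ} (hz : z ∈ insert (0:ℝ) (P c)) : f c z ∈ insert (0:ℝ) (P c) := by
  right
  rcases hz with rfl | ⟨n, rfl⟩
  · exact ⟨0, rfl⟩
  · exact ⟨n + 1, by rw [← Function.iterate_succ_apply' (f c)]⟩

/-- the core of the argument: a point `y` of the core with `[y, f^p y]` zero-free and
`f^(2p) y ≠ y` -/
lemma core_arg {c : ℝ} (hc : c < -1) (hc2 : -2 ≤ c) (hP : (P c).Finite) (h0 : (0:ℝ) ∉ P c)
    {y : ℝ} {p : ℕ} (hp : 0 < p) (hy : c ≤ y ∧ y ≤ c ^ 2 + c)
    (hZ : ZF c (uIcc y ((f c)^[p] y))) (hne : (f c)^[p + p] y ≠ y) :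
    ∃ q ∈ P c, (f c)^[p + p] q = q ∧ |deriv (f c)^[p + p] q| < 1 := by
  have hmono := seq_mono hZ hne
  set M := p + p with hM
  have hMpos : 0 < M := by omega
  set t : ℕ → ℝ := fun k => (f c)^[M * k] y with htdef
  have hcore : ∀ j, c ≤ (f c)^[j] y ∧ (f c)^[j] y ≤ c ^ 2 + c := core_iter hc hc2 hy.1 hy.2
  have ht0 : StrictMono t ∨ StrictAnti t := by simpa [htdef] using hmono 0
  obtain ⟨q, hq⟩ := seq_conv ht0 (fun k => hcore (M * k))
  have htsucc : ∀ k, t (k + 1) = (f c)^[M] (t k) := by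
    intro k
    simp only [htdef]
    rw [← Function.iterate_add_apply]
    congr 1
    ring_nf
  have hq' : Tendsto (fun k => t (k + 1)) atTop (𝓝 q) := (tendsto_add_atTop_iff_nat 1).mpr hq
  have hfix : (f c)^[M] q = q := by
    have h1 : Tendsto (fun k => (f c)^[M] (t k)) atTop (𝓝 ((f c)^[M] q)) :=
      ((cont_iter c M).tendsto q).comp hq
    have h2 : (fun k => (f c)^[M] (t k)) = fun k => t (k + 1) := by
      funext k; rw [htsucc]
    rw [h2] at h1
    exact tendsto_nhds_unique h1 hq'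
  set Q : Set ℝ := insert (0:ℝ) (P c) with hQ
  have hQfin : Q.Finite := hP.insert 0
  -- eventually the hulls of consecutive points, and their images, avoid `Q`
  have hev : ∀ᶠ k in atTop, ∀ i ∈ Set.Iio M, ∀ r ∈ Q,
      r ∉ uIcc ((f c)^[i + M * k] y) ((f c)^[i + M * (k + 1)] y) := by
    rw [Filter.eventually_all_finite (Set.finite_Iio M)]
    intro i _
    rw [Filter.eventually_all_finite hQfin]
    intro r _
    have hl : Tendsto (fun k : ℕ => (f c)^[i + M * k] y) atTop (𝓝 ((f c)^[i] q)) := by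
      have h1 := ((cont_iter c i).tendsto q).comp hq
      have h2 : (fun k : ℕ => (f c)^[i + M * k] y) = (f c)^[i] ∘ t := by
        funext k
        simp only [htdef, Function.comp_apply]
        rw [← Function.iterate_add_apply]
      rw [h2]
      exact h1
    exact ev_not_mem (hmono i) hl r
  obtain ⟨K, hK⟩ := eventually_atTop.mp hev
  have hgap : ∀ n : ℕ, ∀ z ∈ Q, z ∉ uIcc ((f c)^[n] (t K)) ((f c)^[n] (t (K + 1))) := by
    intro n z hz
    have h1 := hK (K + n / M) (Nat.le_add_right _ _) (n % M) (Nat.mod_lt n hMpos) z hz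
    have h2 : (f c)^[n] (t K) = (f c)^[n % M + M * (K + n / M)] y := by
      simp only [htdef]
      rw [← Function.iterate_add_apply]
      congr 1
      have := Nat.mod_add_div n M
      rw [mul_add]
      omega
    have h3 : (f c)^[n] (t (K + 1)) = (f c)^[n % M + M * (K + n / M + 1)] y := by
      simp only [htdef]
      rw [← Function.iterate_add_apply]
      congr 1
      have := Nat.mod_add_div n M
      rw [mul_add, mul_add, mul_add]
      omega
    rw [h2, h3]
    exact h1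
  have hcQ : c ∈ Q := by
    right
    exact ⟨0, by simp [f]⟩
  have hc2Q : c ^ 2 + c ∈ Q := P_succ hcQ
  -- distinctness
  have hdist : ∀ n : ℕ, (f c)^[n] (t K) ≠ (f c)^[n] (t (K + 1)) := by
    intro n h
    have e1 : (f c)^[n] (t K) = (f c)^[n + M * K] y := by
      simp only [htdef]
      rw [← Function.iterate_add_apply]
    have e2 : (f c)^[n] (t (K + 1)) = (f c)^[n + M * (K + 1)] y := by
      simp only [htdef]
      rw [← Function.iterate_add_apply]
    rw [e1, e2] at h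
    rcases hmono n with h1 | h1
    · exact absurd h (h1 (Nat.lt_succ_self K)).ne
    · exact absurd h (h1 (Nat.lt_succ_self K)).ne'
  have hcoreK : ∀ n k : ℕ, c ≤ (f c)^[n] (t k) ∧ (f c)^[n] (t k) ≤ c ^ 2 + c := by
    intro n k
    simp only [htdef]
    rw [← Function.iterate_add_apply]
    exact hcore _
  have hstr : ∀ n : ℕ, (c < (f c)^[n] (t K) ∧ (f c)^[n] (t K) < c ^ 2 + c) ∧
      (c < (f c)^[n] (t (K + 1)) ∧ (f c)^[n] (t (K + 1)) < c ^ 2 + c) := by
    intro n
    obtain ⟨a1, a2⟩ := hcoreK n K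
    obtain ⟨b1, b2⟩ := hcoreK n (K + 1)
    refine ⟨⟨lt_of_le_of_ne a1 ?_, lt_of_le_of_ne a2 ?_⟩,
      ⟨lt_of_le_of_ne b1 ?_, lt_of_le_of_ne b2 ?_⟩⟩
    · intro h; exact hgap n c hcQ (h ▸ left_mem_uIcc)
    · intro h; exact hgap n _ hc2Q (h ▸ left_mem_uIcc)
    · intro h; exact hgap n c hcQ (h ▸ right_mem_uIcc)
    · intro h; exact hgap n _ hc2Q (h ▸ right_mem_uIcc)
  have hbr : ∀ n : ℕ, ∃ p ∈ Q, ∃ q ∈ Q, M4 p ((f c)^[n] (t K)) ((f c)^[n] (t (K + 1))) q := by
    intro n
    obtain ⟨⟨a1, a2⟩, ⟨b1, b2⟩⟩ := hstr n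
    rcases lt_or_gt_of_ne (hdist n) with h | h
    · exact ⟨c, hcQ, c ^ 2 + c, hc2Q, Or.inl ⟨a1, h, b2⟩⟩
    · exact ⟨c ^ 2 + c, hc2Q, c, hcQ, Or.inr ⟨b1, h, a2⟩⟩
  obtain ⟨κ, hκ, hgb⟩ := gap_bound hQfin (Set.mem_insert 0 _) (fun z hz => P_succ hz) hbr hgap
  -- translate to the sequence `t`
  have htn : ∀ k, t (K + k) = (f c)^[M * k] (t K) ∧ t (K + k + 1) = (f c)^[M * k] (t (K + 1)) := by
    intro k
    simp only [htdef]
    rw [← Function.iterate_add_apply, ← Function.iterate_add_apply]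
    constructor <;> (congr 1; ring_nf)
  have hpair : ∀ k, ∃ pq ∈ Q ×ˢ Q, M4 pq.1 (t (K + k)) (t (K + k + 1)) pq.2 ∧
      κ ≤ CR pq.1 (t (K + k)) (t (K + k + 1)) pq.2 := by
    intro k
    obtain ⟨p0, hp0, q0, hq0, h4⟩ := hbr (M * k)
    obtain ⟨p1, hp1, q1, hq1, h5, h6⟩ := tight hQfin hp0 hq0 h4 (hgap (M * k))
    refine ⟨(p1, q1), ⟨hp1, hq1⟩, ?_⟩
    rw [(htn k).1, (htn k).2]
    exact ⟨h5, hgb _ _ hp1 _ hq1 h5 h6⟩
  -- pigeonhole
  have hfreq : ∃ pq ∈ Q ×ˢ Q, ∃ᶠ k in atTop, M4 pq.1 (t k) (t (k + 1)) pq.2 ∧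
      κ ≤ CR pq.1 (t k) (t (k + 1)) pq.2 := by
    by_contra hcon
    push Not at hcon
    have h1 : ∀ᶠ k in atTop, ∀ pq ∈ Q ×ˢ Q, ¬ (M4 pq.1 (t k) (t (k + 1)) pq.2 ∧
        κ ≤ CR pq.1 (t k) (t (k + 1)) pq.2) := by
      rw [Filter.eventually_all_finite (hQfin.prod hQfin)]
      intro pq hpq
      have := hcon pq hpq
      simpa using this
    obtain ⟨K', hK'⟩ := eventually_atTop.mp h1
    obtain ⟨pq, hpq, h2⟩ := hpair K'
    exact hK' (K + K') (by omega) pq hpq h2
  obtain ⟨⟨ps, qs⟩, ⟨hps, hqs⟩, hfr⟩ := hfreq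
  simp only at hps hqs hfr
  -- the limit is not `ps`
  have hpne : q - ps ≠ 0 := by
    obtain ⟨k, h4, -⟩ := hfr.exists
    rcases ht0 with hm | hm
    · have h5 : t k < t (k + 1) := hm (Nat.lt_succ_self k)
      have h6 : t k ≤ q := hm.monotone.ge_of_tendsto hq k
      rcases h4 with ⟨h7, -, -⟩ | ⟨-, h7, -⟩ <;> intro h8 <;> linarith
    · have h5 : t (k + 1) < t k := hm (Nat.lt_succ_self k)
      have h6 : q ≤ t k := hm.antitone.le_of_tendsto hq k
      rcases h4 with ⟨-, h7, -⟩ | ⟨-, -, h7⟩ <;> intro h8 <;> linarith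
  have habs : 0 < |q - ps| := abs_pos.mpr hpne
  by_cases hqq : qs = q
  · subst hqq
    have hqP : qs ∈ P c := by
      rcases hqs with h | h
      · exfalso
        apply h0
        refine ⟨M - 1, ?_⟩
        rw [show M - 1 + 1 = M by omega, ← h, hfix]
      · exact h
    refine ⟨qs, hqP, hfix, ?_⟩
    have hdiff : DifferentiableAt ℝ (f c)^[M] qs := by
      have : Differentiable ℝ (f c) := by unfold f; fun_prop
      exact (this.iterate M) qs
    have htne : ∀ k, t k ≠ qs := by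
      intro k h
      rcases ht0 with hm | hm
      · have h5 : t k < t (k + 1) := hm (Nat.lt_succ_self k)
        have h6 : t (k + 1) ≤ qs := hm.monotone.ge_of_tendsto hq _
        linarith
      · have h5 : t (k + 1) < t k := hm (Nat.lt_succ_self k)
        have h6 : qs ≤ t (k + 1) := hm.antitone.le_of_tendsto hq _
        linarith
    have hslope : Tendsto (fun k => slope (f c)^[M] qs (t k)) atTop
        (𝓝 (deriv (f c)^[M] qs)) := by
      refine (hasDerivAt_iff_tendsto_slope.mp hdiff.hasDerivAt).comp ?_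
      rw [tendsto_nhdsWithin_iff]
      exact ⟨hq, Eventually.of_forall htne⟩
    have hsl : ∀ k, slope (f c)^[M] qs (t k) = (t (k + 1) - qs) / (t k - qs) := by
      intro k
      rw [slope_def_field, hfix, ← htsucc]
    have hlim : Tendsto (fun k => |t (k + 1) - ps| - κ * |t k - ps| *
        |slope (f c)^[M] qs (t k)|) atTop
        (𝓝 (|qs - ps| - κ * |qs - ps| * |deriv (f c)^[M] qs|)) := by
      refine Tendsto.sub ?_ (Tendsto.mul (Tendsto.mul tendsto_const_nhds ?_) hslope.abs)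
      · exact (hq'.sub_const ps).abs
      · exact (hq.sub_const ps).abs
    have hge : (0:ℝ) ≤ |qs - ps| - κ * |qs - ps| * |deriv (f c)^[M] qs| := by
      refine isClosed_Ici.mem_of_frequently_of_tendsto (s := Set.Ici (0:ℝ)) ?_ hlim
      refine hfr.mono ?_
      rintro k ⟨h4, h5⟩
      show (0:ℝ) ≤ _
      rw [hsl, abs_div]
      have hA : 0 < |t k - ps| := by
        apply abs_pos.mpr
        rcases h4 with ⟨h7, -, -⟩ | ⟨-, -, h7⟩
        · exact sub_ne_zero.mpr h7.ne'
        · exact sub_ne_zero.mpr h7.ne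
      have hB : 0 < |t (k + 1) - qs| := abs_pos.mpr (sub_ne_zero.mpr (htne _))
      have hD : 0 < |t k - qs| := abs_pos.mpr (sub_ne_zero.mpr (htne _))
      unfold CR at h5
      rw [abs_sub_comm qs (t k), abs_sub_comm qs (t (k + 1)), le_div_iff₀ (by positivity)] at h5
      rw [sub_nonneg, ← mul_div_assoc, div_le_iff₀ hD]
      linarith
    have h9 : κ * |deriv (f c)^[M] qs| ≤ 1 := by
      by_contra h10
      push Not at h10
      nlinarith
    by_contra h10
    push Not at h10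
    nlinarith
  · exfalso
    have hqne : qs - q ≠ 0 := sub_ne_zero.mpr hqq
    have hlim : Tendsto (fun k => CR ps (t k) (t (k + 1)) qs) atTop (𝓝 1) := by
      have h1 : Tendsto (fun k => (|t (k + 1) - ps| * |qs - t k|) / (|t k - ps| * |qs - t (k + 1)|))
          atTop (𝓝 ((|q - ps| * |qs - q|) / (|q - ps| * |qs - q|))) := by
        refine Tendsto.div (Tendsto.mul ?_ ?_) (Tendsto.mul ?_ ?_) ?_
        · exact (hq'.sub_const ps).abs
        · exact (hq.const_sub qs).abs
        · exact (hq.sub_const ps).abs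
        · exact (hq'.const_sub qs).abs
        · exact mul_ne_zero habs.ne' (abs_ne_zero.mpr hqne)
      rw [div_self (mul_ne_zero habs.ne' (abs_ne_zero.mpr hqne))] at h1
      exact h1
    have hge : κ ≤ 1 := by
      refine isClosed_Ici.mem_of_frequently_of_tendsto (s := Set.Ici κ) ?_ hlim
      exact hfr.mono fun k hk => hk.2
    linarith

end N4

/-- TARGET -/
theorem attracting_of {c : ℝ} (hc : c < -1) (hc2 : -2 ≤ c) (hP : (P c).Finite) (h0 : (0:ℝ) ∉ P c)
    {a b : ℝ} (ha : c ≤ a) (hab : a < b) (hb : b ≤ c ^ 2 + c) (hL : ZF c (Ioo a b)) {n m : ℕ}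
    (hnm : n < m) (hx : ∃ x ∈ Ioo a b, ZF c (uIcc ((f c)^[n] x) ((f c)^[m] x))) :
    ∃ q ∈ P c, ∃ M : ℕ, 0 < M ∧ (f c)^[M] q = q ∧ |deriv (f c)^[M] q| < 1 := by
  obtain ⟨x0, hx0, hZ0⟩ := hx
  -- step 1
  have h1 : ∀ x ∈ Ioo a b, ZF c (uIcc ((f c)^[n] x) ((f c)^[m] x)) := by
    intro x hx
    have e1 : IsPreconnected ((f c)^[n] '' Ioo a b) :=
      isPreconnected_Ioo.image _ (N4.cont_iter c n).continuousOn
    have e2 : IsPreconnected ((f c)^[m] '' Ioo a b) :=
      isPreconnected_Ioo.image _ (N4.cont_iter c m).continuousOn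
    have e3 : IsPreconnected ((f c)^[n] '' Ioo a b ∪ uIcc ((f c)^[n] x0) ((f c)^[m] x0)) :=
      IsPreconnected.union ((f c)^[n] x0) (mem_image_of_mem _ hx0) left_mem_uIcc e1
        isPreconnected_uIcc
    have e4 : IsPreconnected (((f c)^[n] '' Ioo a b ∪ uIcc ((f c)^[n] x0) ((f c)^[m] x0)) ∪
        (f c)^[m] '' Ioo a b) :=
      IsPreconnected.union ((f c)^[m] x0) (Or.inr right_mem_uIcc) (mem_image_of_mem _ hx0) e3 e2
    intro z hz
    have hz' := e4.ordConnected.uIcc_subset (Or.inl (Or.inl (mem_image_of_mem _ hx)))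
      (Or.inr (mem_image_of_mem _ hx)) hz
    rcases hz' with (hz' | hz') | hz'
    · exact N4.ZF_iter hL n z hz'
    · exact hZ0 z hz'
    · exact N4.ZF_iter hL m z hz'
  -- step 2
  set p := m - n with hp
  have hppos : 0 < p := by omega
  have h2 : ∃ x ∈ Ioo a b, (f c)^[p + p] ((f c)^[n] x) ≠ (f c)^[n] x := by
    by_contra hcon
    push Not at hcon
    have hinj : InjOn (f c)^[n] (Ioo a b) := by
      rcases N4.mono_iter isPreconnected_Ioo hL n with h | h
      · exact h.injOn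
      · exact h.injOn
    have hfin : ((f c)^[n] '' Ioo a b).Finite := by
      refine (N4.finite_fix c (k := p + p) (by omega)).subset ?_
      rintro _ ⟨x, hx, rfl⟩
      exact hcon x hx
    exact (Ioo_infinite hab) (Set.Finite.of_finite_image hfin hinj)
  obtain ⟨x, hx, hne⟩ := h2
  have h3 : (f c)^[p] ((f c)^[n] x) = (f c)^[m] x := by
    rw [← Function.iterate_add_apply]
    congr 1
    omega
  have hcore := N4.core_iter hc hc2 (ha.trans hx.1.le) (hx.2.le.trans hb) n
  obtain ⟨q, hq, hfix, hder⟩ := N4.core_arg hc hc2 hP h0 hppos hcore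
    (by rw [h3]; exact h1 x hx) hne
  exact ⟨q, hq, p + p, by omega, hfix, hder⟩

end Pool.Agent.Helper79_Real.N4
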