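import Pool.Agent.Helper79_Real.N2

/-!
Lemma job N5 (no attracting cycles).  Definitions: Pool/Agent/Helper79_Real/{Defs,HDefs,RDefs,RBase}.lean on origin/main
(copy the folder to your working tree and `lake build Pool.Agent.Helper79_Real.RBase`).  `f x = x^2+c`, `-2 ≤ c < -1`, `P c = {f^(k+1)(0)}` finite, `0 ∉ P c` (so `0` is not periodic and the orbit of `0` is finite).
`M4 p x y q`: `p,x,y,q` in this order or the reverse one; `CR` cross ratio.

Plain-words proof.  Let `m` be the exact period of `q`, `F = f^m`.  `F q = q`; `(f^M)'(q) = (F'(q))^(M/m)`, so `|F'(q)| < 1`.  (`|F'|` is the same at all points of the cycle: `F'(f^j q) = ∏_{i<m} 2 f^i(q)`.)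
1. Basin: `W_q = {x | F^k(x) → q}` is open (there is a neighbourhood of `q` contained in it, as `|F'(q)| < 1`, and `W_q` is the union of its preimages under the `F^k`), bounded (`|x| > 2` implies `|f x| ≥ x^2 - 2 > |x|`, so such an `x` cannot have a convergent `F`-orbit:
   the sequence `|f^k x|` increases, so its limit along `F^k` would be `> 2`, while `q`, in `P c`, is in `[-2,2]`), `F⁻¹(W_q) = W_q`, and `F`-fixed or `F^2`-fixed points in `W_q` are equal to `q`.  Let `B` be the connected component of `W_q` containing `q`: a bounded open interval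
   `(α,β)`, `α, β ∉ W_q`.  `F(B) ⊆ B` (connected, contains `q`, inside `W_q`).  `F(α), F(β) ∈ {α, β}`: `F(α) ∈ [α,β]` by continuity, and `F(α) ∈ (α,β)` would give `α ∈ W_q`.
2. There are `j < m` and `x ∈ B` with `f^j(x) = 0`.  Suppose not.  Then for all `j < m` the interval `f^j([α,β])` has no `0` in its interior (it is contained in the closure of `f^j(B)`, on one closed side of `0`) and `F` is strictly monotone on `[α,β]`, so it permutes `{α,β}`;
   `G = F ∘ F` is increasing, `G α = α`, `G β = β`, `G(B) ⊆ B`, and by `M4_f`, `CR_expand` applied `2m` times `CR α x y β < CR (G α)(G x)(G y)(G β) = CR α (G x)(G y) β` for `α<x<y<β`.  Iterating, `CR α (G^k x)(G^k y) β ≥ CR α x y β > 1` for all `k`, but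
   `G^k x, G^k y → q ∈ (α,β)`, so `CR → 1` (`CR_eq`): contradiction.
3. So, replacing `q` by `f^j(q)` (`f^j(B)` is connected, contains `f^j(q)` and is contained in the basin of `f^j(q)` under `F`, since `F^k(f^j x) = f^j(F^k x)`), we may assume `0 ∈ B`.  `q ≠ 0`.
4. `W_q` is symmetric under `x ↦ -x` (`F` is even), so `B = (-β, β)`.  For `0<j<m` `f^j` has no zero in `B`: if `f^j(x) = 0`, `x ∈ B`, then `F^k(0) → q` (as `0 ∈ B`) and `F^k(0) = f^j(F^k x) → f^j(q)`, so `f^j(q) = q`, contradicting the exact period.  So `F` is strictly monotone on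
   `[0,β]`, even, with `F(β) = τβ`, `τ = ±1`.  `F` has exactly one fixed point in `B`, namely `q`, and `F∘F` too.  Let `v = F(0) ∈ B`, `v ≠ 0` (`0 ∉ P c`), `s = ±1` its sign.
5. Let `E(y) = s F(y)` for `y ∈ [0,β]`, strictly monotone, `E(0) = |v| > 0`, `E(β) = sτβ`.
 Case `sτ = 1`: `E` is increasing, `E ≥ |v| > 0`; `t_k = |F^k(0)|` satisfies `t_(k+1) = E(t_k)`, `t_1 = |v| > 0 = t_0`, so it is strictly increasing: infinitely many points `F^k(0)`, `k ≥ 1`, of `P c`: contradiction.
 Case `sτ = -1`: `E` is decreasing from `|v|` to `-β`.  Let `E^(y) = E(|y|)` for `y ∈ (-β,β)` (conjugate to `F` by `y ↦ s y`: `E^(y) = s F(s y)`).  Its only fixed point in `B` is `q^ = s q`, and the only fixed point of `E^∘E^` is `q^`.  With `w = |v|`: `E^(0) = w > 0`,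
  `E^(w) < E^(0) = w`, so there is a fixed point in `(0,w)`: `q^ ∈ (0,w)`.
  - If `E^(w) ≥ 0`: `E^` maps `[0,w]` injectively into itself; the orbit of `0` under `E^` is finite (its points are `s F^k(0)`), so by injectivity `0` is `E^`-periodic, so `F^k(0) = 0` for some `k ≥ 1`, so `0 ∈ P c`: contradiction.
  - If `E^(w) < 0`: `H = E^∘E^` satisfies `H(0) = E^(w) < 0`, `H(q^) = q^`, `H'(q^) = F'(q)^2 < 1`, so `H(x) > x` for `x < q^` close to `q^`.  By the intermediate value theorem `H` has a fixed point in `(0, q^)`, different from `q^`: contradiction.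
-/

namespace Pool.Agent.Helper79_Real.N5

open N2 (CR_gt_one M4_f CR_expand CR_eq)

open Set

open Filter Topology

theorem n5_cont (c : ℝ) (n : ℕ) : Continuous ((f c)^[n]) := by
  apply Continuous.iterate
  unfold f
  fun_prop

theorem n5_even (c x : ℝ) {n : ℕ} (hn : 0 < n) : (f c)^[n] (-x) = (f c)^[n] x := by
  obtain ⟨k, rfl⟩ : ∃ k, n = k + 1 := ⟨n - 1, by omega⟩
  rw [Function.iterate_succ_apply, Function.iterate_succ_apply]
  simp [f]

theorem n5_hda (c z : ℝ) (n : ℕ) :
    HasDerivAt ((f c)^[n]) (∏ i ∈ Finset.range n, 2 * (f c)^[i] z) z := by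
  induction n with
  | zero => simpa using hasDerivAt_id z
  | succ n ih =>
    rw [Function.iterate_succ', Finset.prod_range_succ]
    have h1 : HasDerivAt (f c) (2 * (f c)^[n] z) ((f c)^[n] z) := by
      have h2 := ((hasDerivAt_id ((f c)^[n] z)).pow 2).add_const c
      have h3 : HasDerivAt (fun x : ℝ => x ^ 2 + c) (2 * (f c)^[n] z) ((f c)^[n] z) := by
        simpa using h2
      exact h3
    have := h1.comp z ih
    rwa [mul_comm] at this

theorem n5_P {c q : ℝ} (hq : q ∈ P c) : f c q ∈ P c := by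
  obtain ⟨n, rfl⟩ := hq
  exact ⟨n + 1, by rw [Function.iterate_succ_apply' _ (n + 1)]⟩

/-- attracting cycles in the postcritical set, exact period `m` -/
structure n5Att (c : ℝ) (m : ℕ) (q : ℝ) : Prop where
  hm : 0 < m
  hP : q ∈ P c
  fix : (f c)^[m] q = q
  mn : ∀ j, 0 < j → j < m → (f c)^[j] q ≠ q
  att : |∏ i ∈ Finset.range m, 2 * (f c)^[i] q| < 1

theorem n5Att.step {c : ℝ} {m : ℕ} {q : ℝ} (h0 : (0:ℝ) ∉ P c) (h : n5Att c m q) :
    n5Att c m (f c q) := by
  refine ⟨h.hm, n5_P h.hP, ?_, ?_, ?_⟩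
  · rw [← Function.iterate_succ_apply, Function.iterate_succ_apply', h.fix]
  · intro j hj hjm he
    have hmm := h.hm
    apply h.mn j hj hjm
    have h1 : (f c)^[m - 1] ((f c)^[j] (f c q)) = (f c)^[m - 1] (f c q) := by rw [he]
    have h2 : (f c)^[m - 1] (f c q) = q := by
      rw [← Function.iterate_succ_apply, Nat.succ_eq_add_one, Nat.sub_add_cancel h.hm, h.fix]
    rw [h2, ← Function.iterate_add_apply, ← Function.iterate_succ_apply,
      show Nat.succ (m - 1 + j) = j + m by omega, Function.iterate_add_apply, h.fix] at h1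
    exact h1
  · have hq0 : q ≠ 0 := fun h' => h0 (h' ▸ h.hP)
    have e : (∏ i ∈ Finset.range m, 2 * (f c)^[i] (f c q)) =
        ∏ i ∈ Finset.range m, 2 * (f c)^[i] q := by
      have h1 := Finset.prod_range_succ (fun i => 2 * (f c)^[i] q) m
      have h2 := Finset.prod_range_succ' (fun i => 2 * (f c)^[i] q) m
      rw [h1] at h2
      simp only [h.fix, Function.iterate_zero, id_eq] at h2
      have h3 : (2 * q) ≠ 0 := by simpa using hq0
      have h4 := mul_right_cancel₀ h3 h2
      rw [h4]
      apply Finset.prod_congr rfl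
      intro i _
      rw [Function.iterate_succ_apply]
    rw [e]
    exact h.att

theorem n5Att.iter {c : ℝ} {m : ℕ} {q : ℝ} (h0 : (0:ℝ) ∉ P c) (h : n5Att c m q) (j : ℕ) :
    n5Att c m ((f c)^[j] q) := by
  induction j with
  | zero => exact h
  | succ j ih => rw [Function.iterate_succ_apply']; exact ih.step h0

/-- the basin -/
def n5W (c : ℝ) (m : ℕ) (q : ℝ) : Set ℝ :=
  {x | Tendsto (fun k : ℕ => ((f c)^[m])^[k] x) atTop (𝓝 q)}

theorem n5W_q {c : ℝ} {m : ℕ} {q : ℝ} (h : n5Att c m q) : q ∈ n5W c m q := by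
  have : ∀ k : ℕ, ((f c)^[m])^[k] q = q := fun k => Function.iterate_fixed h.fix k
  simp [n5W, this]

theorem n5W_F {c : ℝ} {m : ℕ} {q x : ℝ} : (f c)^[m] x ∈ n5W c m q ↔ x ∈ n5W c m q := by
  have := tendsto_add_atTop_iff_nat (f := fun k : ℕ => ((f c)^[m])^[k] x) (l := 𝓝 q) 1
  simp only [Function.iterate_succ_apply] at this
  exact this

theorem n5W_iter {c : ℝ} {m : ℕ} {q x : ℝ} (hx : x ∈ n5W c m q) (j : ℕ) :
    (f c)^[j] x ∈ n5W c m ((f c)^[j] q) := by
  have h1 : Tendsto (fun k : ℕ => (f c)^[j] (((f c)^[m])^[k] x)) atTop (𝓝 ((f c)^[j] q)) :=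
    ((n5_cont c j).tendsto q).comp hx
  have h2 : ∀ k : ℕ, (f c)^[j] (((f c)^[m])^[k] x) = ((f c)^[m])^[k] ((f c)^[j] x) := by
    intro k
    rw [← Function.iterate_mul, ← Function.iterate_add_apply, ← Function.iterate_add_apply, add_comm]
  simpa [n5W, h2] using h1

theorem n5W_per {c : ℝ} {m : ℕ} {q x : ℝ} (hx : x ∈ n5W c m q) {k : ℕ} (hk : 0 < k)
    (he : ((f c)^[m])^[k] x = x) : x = q := by
  have h1 : Tendsto (fun n : ℕ => ((f c)^[m])^[k * n] x) atTop (𝓝 q) :=
    hx.comp (tendsto_id.const_mul_atTop' hk)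
  have h2 : ∀ n : ℕ, ((f c)^[m])^[k * n] x = x := by
    intro n
    rw [Function.iterate_mul]
    exact Function.iterate_fixed he n
  simp only [h2] at h1
  exact tendsto_nhds_unique tendsto_const_nhds h1

theorem n5W_open {c : ℝ} {m : ℕ} {q : ℝ} (h : n5Att c m q) : IsOpen (n5W c m q) := by
  set F := (f c)^[m] with hF
  obtain ⟨lam, hl1, hl2⟩ := exists_between h.att
  have hl0 : 0 ≤ lam := le_trans (abs_nonneg _) hl1.le
  have hd := n5_hda c q m
  have hev : ∀ᶠ x in 𝓝 q, |F x - q| ≤ lam * |x - q| := by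
    have h1 := hd.isLittleO
    rw [Asymptotics.isLittleO_iff] at h1
    have h2 := h1 (c := lam - |∏ i ∈ Finset.range m, 2 * (f c)^[i] q|) (by linarith)
    filter_upwards [h2] with x hx
    rw [← hF, show F q = q from h.fix] at hx
    simp only [smul_eq_mul, Real.norm_eq_abs] at hx
    have h3 : |F x - q| ≤ |F x - q - (x - q) * ∏ i ∈ Finset.range m, 2 * (f c)^[i] q| +
        |(x - q) * ∏ i ∈ Finset.range m, 2 * (f c)^[i] q| := by
      have := abs_add_le (F x - q - (x - q) * ∏ i ∈ Finset.range m, 2 * (f c)^[i] q)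
        ((x - q) * ∏ i ∈ Finset.range m, 2 * (f c)^[i] q)
      rwa [sub_add_cancel] at this
    rw [abs_mul (x - q)] at h3
    nlinarith [abs_nonneg (x - q)]
  rw [Metric.eventually_nhds_iff] at hev
  obtain ⟨ε, hε, hball⟩ := hev
  have key : ∀ x, dist x q < ε → x ∈ n5W c m q := by
    intro x hx
    have hk : ∀ k : ℕ, |F^[k] x - q| ≤ lam ^ k * |x - q| ∧ dist (F^[k] x) q < ε := by
      intro k
      induction k with
      | zero => exact ⟨by simp, by simpa using hx⟩
      | succ k ih =>
        obtain ⟨ih1, ih2⟩ := ih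
        have h4 := hball ih2
        rw [Function.iterate_succ_apply']
        constructor
        · calc |F (F^[k] x) - q| ≤ lam * |F^[k] x - q| := h4
            _ ≤ lam * (lam ^ k * |x - q|) := by gcongr
            _ = lam ^ (k + 1) * |x - q| := by ring
        · rw [Real.dist_eq] at ih2 ⊢
          nlinarith [abs_nonneg (F^[k] x - q)]
    have h5 : Tendsto (fun k : ℕ => lam ^ k * |x - q|) atTop (𝓝 0) := by
      have := (tendsto_pow_atTop_nhds_zero_of_lt_one hl0 hl2).mul_const |x - q|
      simpa using this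
    show Tendsto (fun k : ℕ => F^[k] x) atTop (𝓝 q)
    rw [tendsto_iff_dist_tendsto_zero]
    refine squeeze_zero (fun _ => dist_nonneg) (fun k => ?_) h5
    rw [Real.dist_eq]
    exact (hk k).1
  have e : n5W c m q = ⋃ k : ℕ, (F^[k]) ⁻¹' Metric.ball q ε := by
    ext x
    simp only [mem_iUnion, mem_preimage, Metric.mem_ball]
    constructor
    · intro hx
      have := (Metric.tendsto_atTop.1 hx) ε hε
      obtain ⟨N, hN⟩ := this
      exact ⟨N, hN N le_rfl⟩
    · rintro ⟨k, hk⟩
      have h6 := key _ hk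
      have h7 : ∀ j : ℕ, F^[j] x ∈ n5W c m q → x ∈ n5W c m q := by
        intro j
        induction j with
        | zero => exact fun h => h
        | succ j ih =>
          intro hh
          rw [Function.iterate_succ_apply'] at hh
          exact ih (n5W_F.1 hh)
      exact h7 k h6
  rw [e]
  apply isOpen_iUnion
  intro k
  exact Metric.isOpen_ball.preimage ((n5_cont c m).iterate k)

theorem n5W_bdd {c : ℝ} (hc2 : -2 ≤ c) {m : ℕ} (hm : 0 < m) {q x : ℝ} (hx : x ∈ n5W c m q) :
    |x| < 3 := by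
  by_contra hcon
  push Not at hcon
  have h1 : ∀ y : ℝ, 3 ≤ |y| → |y| + 1 ≤ |f c y| := by
    intro y hy
    have h2 : f c y = |y| ^ 2 + c := by simp [f]
    rw [h2]
    have := le_abs_self (|y| ^ 2 + c)
    nlinarith
  have h2 : ∀ n : ℕ, 3 ≤ |(f c)^[n] x| ∧ |x| + n ≤ |(f c)^[n] x| := by
    intro n
    induction n with
    | zero => exact ⟨by simpa using hcon, by simp⟩
    | succ n ih =>
      rw [Function.iterate_succ_apply']
      have := h1 _ ih.1
      push_cast
      exact ⟨by linarith [ih.1], by linarith [ih.2]⟩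
  have h3 : Tendsto (fun k : ℕ => |((f c)^[m])^[k] x|) atTop (𝓝 |q|) := hx.abs
  have h4 : Tendsto (fun k : ℕ => |((f c)^[m])^[k] x|) atTop atTop := by
    refine tendsto_atTop_mono (fun k => ?_) tendsto_natCast_atTop_atTop
    rw [← Function.iterate_mul]
    have h5 := (h2 (m * k)).2
    have h6 : (k:ℝ) ≤ ((m * k : ℕ) : ℝ) := by
      exact_mod_cast Nat.le_mul_of_pos_left k hm
    linarith [abs_nonneg x]
  exact not_tendsto_nhds_of_tendsto_atTop h4 _ h3

/-- right end of the immediate basin -/
theorem n5_right {W : Set ℝ} (hW : IsOpen W) (hb : ∀ x ∈ W, |x| < 3) {q : ℝ} (hq : q ∈ W) :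
    ∃ β, q < β ∧ β ∉ W ∧ ∀ x, q ≤ x → x < β → x ∈ W := by
  set S := {b : ℝ | q ≤ b ∧ ∀ x, q ≤ x → x ≤ b → x ∈ W} with hS
  have hqS : q ∈ S := ⟨le_rfl, fun x h1 h2 => by rwa [le_antisymm h2 h1]⟩
  have hbd : BddAbove S := ⟨3, fun b hbS => (le_abs_self b).trans (hb b (hbS.2 b hbS.1 le_rfl)).le⟩
  have hle : q ≤ sSup S := le_csSup hbd hqS
  have hin : ∀ x, q ≤ x → x < sSup S → x ∈ W := by
    intro x h1 h2
    obtain ⟨b, hbS, hxb⟩ := exists_lt_of_lt_csSup ⟨q, hqS⟩ h2
    exact hbS.2 x h1 hxb.le
  have hnot : sSup S ∉ W := by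
    intro hh
    obtain ⟨ε, hε, hball⟩ := Metric.isOpen_iff.1 hW _ hh
    have : sSup S + ε / 2 ∈ S := by
      refine ⟨by linarith, fun x h1 h2 => ?_⟩
      rcases lt_or_ge x (sSup S) with h3 | h3
      · exact hin x h1 h3
      · apply hball
        rw [Metric.mem_ball, Real.dist_eq, abs_lt]
        constructor <;> linarith
    have := le_csSup hbd this
    linarith
  refine ⟨sSup S, lt_of_le_of_ne hle ?_, hnot, hin⟩
  intro h
  exact hnot (h ▸ hq)

theorem n5_left {W : Set ℝ} (hW : IsOpen W) (hb : ∀ x ∈ W, |x| < 3) {q : ℝ} (hq : q ∈ W) :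
    ∃ α, α < q ∧ α ∉ W ∧ ∀ x, α < x → x ≤ q → x ∈ W := by
  have hW' : IsOpen ((fun x : ℝ => -x) ⁻¹' W) := hW.preimage continuous_neg
  obtain ⟨β, h1, h2, h3⟩ := n5_right hW' (q := -q) (fun x hx => by
    have := hb _ hx
    rwa [abs_neg] at this) (by simpa using hq)
  refine ⟨-β, by linarith, h2, fun x h4 h5 => ?_⟩
  have := h3 (-x) (by linarith) (by linarith)
  simpa using this

/-- `F` maps the immediate basin into itself, and each end to an end -/
theorem n5_img {c : ℝ} {m : ℕ} {q α β : ℝ} (h : n5Att c m q) (hα : α < q) (hβ : q < β)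
    (hαW : α ∉ n5W c m q) (hβW : β ∉ n5W c m q) (hI : ∀ x, α < x → x < β → x ∈ n5W c m q)
    {x : ℝ} (h1 : α < x) (h2 : x < β) : α < (f c)^[m] x ∧ (f c)^[m] x < β := by
  have hsub : uIcc q ((f c)^[m] x) ⊆ n5W c m q := by
    have h3 := intermediate_value_uIcc (f := (f c)^[m]) (a := q) (b := x) (n5_cont c m).continuousOn
    rw [h.fix] at h3
    refine h3.trans ?_
    rintro _ ⟨y, hy, rfl⟩
    rw [n5W_F]
    rw [mem_uIcc] at hy
    rcases hy with hy | hy
    · exact hI y (by linarith) (by linarith)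
    · exact hI y (by linarith) (by linarith)
  constructor
  · by_contra hc
    push Not at hc
    exact hαW (hsub (by rw [mem_uIcc]; right; constructor <;> linarith))
  · by_contra hc
    push Not at hc
    exact hβW (hsub (by rw [mem_uIcc]; left; constructor <;> linarith))

theorem n5_end {c : ℝ} {m : ℕ} {q α β : ℝ} (h : n5Att c m q) (hα : α < q) (hβ : q < β)
    (hαW : α ∉ n5W c m q) (hβW : β ∉ n5W c m q) (hI : ∀ x, α < x → x < β → x ∈ n5W c m q)
    {e : ℝ} (he : e = α ∨ e = β) : (f c)^[m] e = α ∨ (f c)^[m] e = β := by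
  have hmaps : MapsTo ((f c)^[m]) (Ioo α β) (Ioo α β) := fun x hx =>
    n5_img h hα hβ hαW hβW hI hx.1 hx.2
  have hcl := hmaps.closure (n5_cont c m)
  rw [closure_Ioo (by linarith)] at hcl
  have h1 : e ∈ Icc α β := by
    rcases he with rfl | rfl
    · exact ⟨le_rfl, by linarith⟩
    · exact ⟨by linarith, le_rfl⟩
  have h2 := hcl h1
  have h3 : (f c)^[m] e ∉ n5W c m q := by
    rw [n5W_F]
    rcases he with rfl | rfl
    · exact hαW
    · exact hβW
  by_contra hc
  push Not at hc
  exact h3 (hI _ (lt_of_le_of_ne h2.1 (Ne.symm hc.1)) (lt_of_le_of_ne h2.2 hc.2))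

/-- some iterate `f^j`, `j < m`, has a zero in the immediate basin -/
theorem n5_zero {c : ℝ} {m : ℕ} {q α β : ℝ} (h : n5Att c m q) (hα : α < q) (hβ : q < β)
    (hαW : α ∉ n5W c m q) (hβW : β ∉ n5W c m q) (hI : ∀ x, α < x → x < β → x ∈ n5W c m q) :
    ∃ j x, α < x ∧ x < β ∧ (f c)^[j] x = 0 := by
  by_contra hcon
  push Not at hcon
  -- constant signs
  have hsign : ∀ n : ℕ, (∀ x ∈ Ioo α β, 0 < (f c)^[n] x) ∨ (∀ x ∈ Ioo α β, (f c)^[n] x < 0) := by
    intro n
    rcases lt_or_gt_of_ne (hcon n q hα hβ) with h1 | h1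
    · right
      intro x hx
      by_contra h2
      push Not at h2
      have h3 := intermediate_value_uIcc (f := (f c)^[n]) (a := q) (b := x) (n5_cont c n).continuousOn
      have h4 : (0:ℝ) ∈ uIcc ((f c)^[n] q) ((f c)^[n] x) := by
        rw [mem_uIcc]; left; exact ⟨h1.le, h2⟩
      obtain ⟨y, hy, hy0⟩ := h3 h4
      rw [mem_uIcc] at hy
      rcases hy with hy | hy
      · exact hcon n y (by linarith) (by linarith [hx.2]) hy0
      · exact hcon n y (by linarith [hx.1]) (by linarith) hy0
    · left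
      intro x hx
      by_contra h2
      push Not at h2
      have h3 := intermediate_value_uIcc (f := (f c)^[n]) (a := q) (b := x) (n5_cont c n).continuousOn
      have h4 : (0:ℝ) ∈ uIcc ((f c)^[n] q) ((f c)^[n] x) := by
        rw [mem_uIcc]; right; exact ⟨h2, h1.le⟩
      obtain ⟨y, hy, hy0⟩ := h3 h4
      rw [mem_uIcc] at hy
      rcases hy with hy | hy
      · exact hcon n y (by linarith) (by linarith [hx.2]) hy0
      · exact hcon n y (by linarith [hx.1]) (by linarith) hy0
  have hab : α ≠ β := by linarith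
  have hsign2 : ∀ n : ℕ, (0 ≤ (f c)^[n] α ∧ 0 ≤ (f c)^[n] β) ∨ ((f c)^[n] α ≤ 0 ∧ (f c)^[n] β ≤ 0) := by
    intro n
    rcases hsign n with h1 | h1
    · left
      have hm1 : MapsTo ((f c)^[n]) (Ioo α β) (Ici 0) := fun x hx => (h1 x hx).le
      have hcl := hm1.closure (n5_cont c n)
      rw [closure_Ioo hab, isClosed_Ici.closure_eq] at hcl
      exact ⟨hcl ⟨le_rfl, by linarith⟩, hcl ⟨by linarith, le_rfl⟩⟩
    · right
      have hm1 : MapsTo ((f c)^[n]) (Ioo α β) (Iic 0) := fun x hx => (h1 x hx).le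
      have hcl := hm1.closure (n5_cont c n)
      rw [closure_Ioo hab, isClosed_Iic.closure_eq] at hcl
      exact ⟨hcl ⟨le_rfl, by linarith⟩, hcl ⟨by linarith, le_rfl⟩⟩
  obtain ⟨y, hy1, hy2⟩ := exists_between hβ
  have hch : ∀ n : ℕ, M4 ((f c)^[n] α) ((f c)^[n] q) ((f c)^[n] y) ((f c)^[n] β) ∧
      CR α q y β ≤ CR ((f c)^[n] α) ((f c)^[n] q) ((f c)^[n] y) ((f c)^[n] β) := by
    intro n
    induction n with
    | zero => exact ⟨Or.inl ⟨hα, hy1, hy2⟩, le_rfl⟩
    | succ n ih =>
      simp only [Function.iterate_succ_apply']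
      exact ⟨M4_f ih.1 (hsign2 n), ih.2.trans (CR_expand ih.1 (hsign2 n)).le⟩
  have hends : ∀ k : ℕ, (((f c)^[m])^[k] α = α ∨ ((f c)^[m])^[k] α = β) ∧
      (((f c)^[m])^[k] β = α ∨ ((f c)^[m])^[k] β = β) := by
    intro k
    induction k with
    | zero => exact ⟨Or.inl rfl, Or.inr rfl⟩
    | succ k ih =>
      rw [Function.iterate_succ_apply', Function.iterate_succ_apply']
      exact ⟨n5_end h hα hβ hαW hβW hI ih.1, n5_end h hα hβ hαW hβW hI ih.2⟩
  set d := min (q - α) (β - q) with hd
  have hdpos : 0 < d := lt_min (by linarith) (by linarith)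
  have hde : ∀ e, (e = α ∨ e = β) → d ≤ |e - q| := by
    rintro e (rfl | rfl)
    · rw [abs_sub_comm]; exact (min_le_left _ _).trans (le_abs_self _)
    · exact (min_le_right _ _).trans (le_abs_self _)
  have hyW : Tendsto (fun k : ℕ => ((f c)^[m])^[k] y) atTop (𝓝 q) := hI y (by linarith) hy2
  have hlim : Tendsto (fun k : ℕ => (1 + |((f c)^[m])^[k] y - q| / d) *
      (1 + |((f c)^[m])^[k] y - q| / (d / 2))) atTop (𝓝 ((1 + |q - q| / d) * (1 + |q - q| / (d / 2)))) := by
    apply Tendsto.mul
    · exact (((hyW.sub_const q).abs).div_const d).const_add 1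
    · exact (((hyW.sub_const q).abs).div_const (d / 2)).const_add 1
  simp only [sub_self, abs_zero, zero_div, add_zero, mul_one] at hlim
  have hC := CR_gt_one (h := (hch 0).1)
  simp only [Function.iterate_zero, id_eq] at hC
  have hev : ∀ᶠ k : ℕ in atTop, CR α q y β ≤ (1 + |((f c)^[m])^[k] y - q| / d) *
      (1 + |((f c)^[m])^[k] y - q| / (d / 2)) := by
    have h1 := (Metric.tendsto_nhds.1 hyW) (d / 2) (by linarith)
    filter_upwards [h1] with k hk
    have h2 := hch (m * k)
    rw [Function.iterate_mul] at h2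
    have h3 : ((f c)^[m])^[k] q = q := Function.iterate_fixed h.fix k
    rw [h3] at h2
    refine h2.2.trans ?_
    rw [CR_eq h2.1]
    rw [Real.dist_eq] at hk
    have h4 := hde _ (hends k).1
    have h5 := hde _ (hends k).2
    have h6 : d / 2 ≤ |((f c)^[m])^[k] β - ((f c)^[m])^[k] y| := by
      have := abs_sub_abs_le_abs_sub (((f c)^[m])^[k] β - q) (((f c)^[m])^[k] y - q)
      rw [sub_sub_sub_cancel_right] at this
      linarith
    rw [abs_sub_comm] at h4
    gcongr
  have := ge_of_tendsto hlim hev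
  linarith

/-- abstract end of the proof -/
theorem n5_abs {E : ℝ → ℝ} {B : Set ℝ} {q a : ℝ} (hE : Continuous E)
    (hev : ∀ x, E (-x) = E x) (hB : ∀ x ∈ B, ∀ y, |y| ≤ |x| → y ∈ B) (hBE : ∀ x ∈ B, E x ∈ B)
    (hmono : ∀ x ∈ B, ∀ y ∈ B, |x| < |y| → E x < E y) (hq : q ∈ B) (hfix : E q = q) (hq0 : q ≠ 0)
    (hder : HasDerivAt E a q) (ha : |a| < 1) (hper1 : ∀ x ∈ B, E x = x → x = q)
    (hper2 : ∀ x ∈ B, E (E x) = x → x = q) {k : ℕ} (hk : E^[k] 0 = -q) : False := by
  have h0B : (0:ℝ) ∈ B := hB q hq 0 (by simp)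
  have hkp : k ≠ 0 := by
    rintro rfl
    simp only [Function.iterate_zero, id_eq] at hk
    exact hq0 (by linarith)
  have horb : ∀ n : ℕ, E^[n] 0 ∈ B := by
    intro n
    induction n with
    | zero => exact h0B
    | succ n ih => rw [Function.iterate_succ_apply']; exact hBE _ ih
  have hv : E 0 < q := by
    rw [← hfix]
    exact hmono 0 h0B q hq (by simpa using hq0)
  rcases lt_or_gt_of_ne hq0 with hneg | hpos
  · -- q < 0
    have hvB := hBE 0 h0B
    rcases le_or_gt (E (E 0)) 0 with h1 | h1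
    · -- the orbit stays in [E 0, 0]
      have h2 : ∀ n : ℕ, E 0 ≤ E^[n] 0 ∧ E^[n] 0 ≤ 0 := by
        intro n
        induction n with
        | zero => exact ⟨by simp; linarith, by simp⟩
        | succ n ih =>
          rw [Function.iterate_succ_apply']
          constructor
          · rcases eq_or_ne (E^[n] 0) 0 with h3 | h3
            · rw [h3]
            · exact (hmono 0 h0B _ (horb n) (by simpa using h3)).le
          · rcases eq_or_ne (E^[n] 0) (E 0) with h3 | h3
            · rw [h3]; exact h1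
            · have h4 : |E^[n] 0| < |E 0| := by
                rw [abs_of_nonpos ih.2, abs_of_neg (by linarith)]
                have := lt_of_le_of_ne ih.1 (Ne.symm h3)
                linarith
              exact (hmono _ (horb n) _ hvB h4).le.trans h1
      have := (h2 k).2
      rw [hk] at this
      linarith
    · -- E∘E has a fixed point in (q, 0)
      have hd2 : HasDerivAt (fun x => E (E x)) (a * a) q := by
        have h3 : HasDerivAt E a (E q) := by rw [hfix]; exact hder
        exact h3.comp q hder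
      have haa : a * a < 1 := by
        have := abs_lt.1 ha
        nlinarith
      have hev2 : ∃ x, q < x ∧ x < 0 ∧ E (E x) < x := by
        have h4 := hd2.sub (hasDerivAt_id q)
        have h5 : a * a - 1 < 0 := by linarith
        have h6 := h4.tendsto_slope.mono_left (nhdsGT_le_nhdsNE q)
        have h7 := h6.eventually (gt_mem_nhds h5)
        have h8 : ∀ᶠ x in 𝓝[>] q, x < 0 := by
          have : ∀ᶠ x in 𝓝 q, x < 0 := gt_mem_nhds hneg
          exact this.filter_mono nhdsWithin_le_nhds
        obtain ⟨x, hx1, hx2, hx3⟩ := (h7.and (h8.and self_mem_nhdsWithin)).exists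
        refine ⟨x, hx3, hx2, ?_⟩
        have hx3' : q < x := hx3
        rw [slope_def_field] at hx1
        simp only [Pi.sub_apply, id_eq, hfix, sub_self, sub_zero] at hx1
        rw [div_neg_iff] at hx1
        rcases hx1 with hx1 | hx1
        · linarith [hx1.2]
        · linarith [hx1.1]
      obtain ⟨x, hx1, hx2, hx3⟩ := hev2
      have hcont : ContinuousOn (fun y => E (E y) - y) (Icc x 0) :=
        ((hE.comp hE).sub continuous_id).continuousOn
      have := intermediate_value_Icc hx2.le hcont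
      have h9 : (0:ℝ) ∈ Icc (E (E x) - x) (E (E 0) - 0) := ⟨by linarith, by linarith⟩
      obtain ⟨y, hy, hy0⟩ := this h9
      have hyB : y ∈ B := hB q hq y (by
        rw [abs_of_nonpos hy.2, abs_of_neg hneg]; linarith [hy.1])
      have := hper2 y hyB (by simpa [sub_eq_zero] using hy0)
      linarith [hy.1]
  · -- q > 0
    have hneg0 : E 0 < 0 := by
      obtain ⟨n, rfl⟩ : ∃ n, k = n + 1 := ⟨k - 1, by omega⟩
      rw [Function.iterate_succ_apply'] at hk
      rcases eq_or_ne (E^[n] 0) 0 with h3 | h3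
      · rw [h3] at hk; linarith
      · have := hmono 0 h0B _ (horb n) (by simpa using h3)
        linarith
    have hev2 : ∃ x, 0 < x ∧ x < q ∧ x < E x := by
      have h4 := hder.sub (hasDerivAt_id q)
      have h5 : a - 1 < 0 := by linarith [(abs_lt.1 ha).2]
      have h6 := h4.tendsto_slope.mono_left (nhdsLT_le_nhdsNE q)
      have h7 := h6.eventually (gt_mem_nhds h5)
      have h8 : ∀ᶠ x in 𝓝[<] q, 0 < x := by
        have : ∀ᶠ x in 𝓝 q, 0 < x := lt_mem_nhds hpos
        exact this.filter_mono nhdsWithin_le_nhds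
      obtain ⟨x, hx1, hx2, hx3⟩ := (h7.and (h8.and self_mem_nhdsWithin)).exists
      refine ⟨x, hx2, hx3, ?_⟩
      have hx3' : x < q := hx3
      rw [slope_def_field] at hx1
      simp only [Pi.sub_apply, id_eq, hfix, sub_self, sub_zero] at hx1
      rw [div_neg_iff] at hx1
      rcases hx1 with hx1 | hx1
      · linarith [hx1.1]
      · linarith [hx1.2]
    obtain ⟨x, hx1, hx2, hx3⟩ := hev2
    have hcont : ContinuousOn (fun y => E y - y) (Icc 0 x) :=
      (hE.sub continuous_id).continuousOn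
    have := intermediate_value_Icc hx1.le hcont
    have h9 : (0:ℝ) ∈ Icc (E 0 - 0) (E x - x) := ⟨by linarith, by linarith⟩
    obtain ⟨y, hy, hy0⟩ := this h9
    have hyB : y ∈ B := hB q hq y (by
      rw [abs_of_nonneg hy.1, abs_of_pos hpos]; linarith [hy.2])
    have := hper1 y hyB (by simpa [sub_eq_zero] using hy0)
    linarith [hy.2]

theorem n5_att {c : ℝ} {q : ℝ} (hq : q ∈ P c) {M : ℕ} (hM : 0 < M) (hM1 : (f c)^[M] q = q)
    (hM2 : |deriv (f c)^[M] q| < 1) : ∃ m, n5Att c m q := by
  have hper : Function.IsPeriodicPt (f c) M q := hM1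
  have hmp := hper.minimalPeriod_pos hM
  obtain ⟨t, ht⟩ := hper.minimalPeriod_dvd
  have hfix : (f c)^[Function.minimalPeriod (f c) q] q = q := Function.isPeriodicPt_minimalPeriod (f c) q
  refine ⟨Function.minimalPeriod (f c) q, hmp, hq, hfix, ?_, ?_⟩
  · intro j hj hjm hh
    exact Function.not_isPeriodicPt_of_pos_of_lt_minimalPeriod hj.ne' hjm hh
  · have h1 := n5_hda c q (Function.minimalPeriod (f c) q)
    have h2 := HasDerivAt.iterate _ h1 hfix t
    rw [← Function.iterate_mul, ← ht] at h2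
    rw [h2.deriv, abs_pow] at hM2
    by_contra hcon
    push Not at hcon
    have := one_le_pow₀ hcon (n := t)
    linarith

theorem n5_main {c : ℝ} (hP : (P c).Finite) (h0 : (0:ℝ) ∉ P c) {m : ℕ} {q : ℝ}
    (h : n5Att c m q) (hI : ∀ z ∈ uIcc q 0, z ∈ n5W c m q) : False := by
  have hm := h.hm
  have hq0 : q ≠ 0 := fun h' => h0 (h' ▸ h.hP)
  have hsym : ∀ x, -x ∈ n5W c m q → x ∈ n5W c m q := by
    intro x hx
    rw [← n5W_F, n5_even c x hm, n5W_F] at hx
    exact hx
  have h0W : (0:ℝ) ∈ n5W c m q := hI 0 (by simp)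
  set B : Set ℝ := {x | ∀ y, |y| ≤ |x| → y ∈ n5W c m q} with hBdef
  have hqB : q ∈ B := by
    intro y hy
    rcases le_total 0 q with h1 | h1
    · rw [abs_of_nonneg h1] at hy
      rcases le_total 0 y with h2 | h2
      · rw [abs_of_nonneg h2] at hy
        exact hI y (by rw [mem_uIcc]; right; exact ⟨h2, hy⟩)
      · rw [abs_of_nonpos h2] at hy
        exact hsym y (hI (-y) (by rw [mem_uIcc]; right; constructor <;> linarith))
    · rw [abs_of_nonpos h1] at hy
      rcases le_total 0 y with h2 | h2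
      · rw [abs_of_nonneg h2] at hy
        exact hsym y (hI (-y) (by rw [mem_uIcc]; left; constructor <;> linarith))
      · rw [abs_of_nonpos h2] at hy
        exact hI y (by rw [mem_uIcc]; left; constructor <;> linarith)
  have hB : ∀ x ∈ B, ∀ y, |y| ≤ |x| → y ∈ B := fun x hx y hy z hz => hx z (hz.trans hy)
  have hBW : ∀ x ∈ B, x ∈ n5W c m q := fun x hx => hx x le_rfl
  have hBneg : ∀ x ∈ B, -x ∈ B := fun x hx => hB x hx _ (by rw [abs_neg])
  have h0B : (0:ℝ) ∈ B := hB q hqB 0 (by simp)
  have hBconv : ∀ x ∈ B, ∀ y ∈ B, ∀ z ∈ uIcc x y, z ∈ B := by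
    intro x hx y hy z hz
    rw [mem_uIcc] at hz
    have h1 : |z| ≤ |x| ∨ |z| ≤ |y| := by
      rcases le_total 0 z with h2 | h2
      · rw [abs_of_nonneg h2]
        rcases hz with hz | hz
        · right; exact hz.2.trans (le_abs_self _)
        · left; exact hz.2.trans (le_abs_self _)
      · rw [abs_of_nonpos h2]
        rcases hz with hz | hz
        · left; exact (neg_le_neg hz.1).trans (neg_le_abs _)
        · right; exact (neg_le_neg hz.1).trans (neg_le_abs _)
    rcases h1 with h1 | h1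
    · exact hB x hx z h1
    · exact hB y hy z h1
  have hBE : ∀ x ∈ B, (f c)^[m] x ∈ B := by
    intro x hx
    have hsub : ∀ z ∈ uIcc q ((f c)^[m] x), z ∈ n5W c m q := by
      intro z hz
      have h3 := intermediate_value_uIcc (f := (f c)^[m]) (a := q) (b := x) (n5_cont c m).continuousOn
      rw [h.fix] at h3
      obtain ⟨y, hy, rfl⟩ := h3 hz
      rw [n5W_F]
      exact hBW y (hBconv q hqB x hx y hy)
    intro y hy
    rcases le_or_gt |y| |q| with h1 | h1
    · exact hqB y h1
    · have h2 : |y| ∈ n5W c m q := by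
        rcases le_total 0 ((f c)^[m] x) with h3 | h3
        · rw [abs_of_nonneg h3] at hy
          apply hsub
          rw [mem_uIcc]; left
          exact ⟨(le_abs_self q).trans h1.le, hy⟩
        · rw [abs_of_nonpos h3] at hy
          apply hsym
          apply hsub
          rw [mem_uIcc]; right
          exact ⟨by linarith, by linarith [neg_abs_le q]⟩
      rcases le_total 0 y with h4 | h4
      · rwa [abs_of_nonneg h4] at h2
      · rw [abs_of_nonpos h4] at h2
        exact hsym y h2
  -- no zeros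
  have hnz : ∀ n, 0 < n → n < m → ∀ x ∈ B, (f c)^[n] x ≠ 0 := by
    intro n hn hnm x hx he
    have h1 := n5W_iter (hBW x hx) n
    rw [he] at h1
    exact h.mn n hn hnm (tendsto_nhds_unique h1 h0W)
  have hmono : ∀ n, 0 < n → n ≤ m →
      (∀ x ∈ B, ∀ y ∈ B, |x| < |y| → (f c)^[n] x < (f c)^[n] y) ∨
      (∀ x ∈ B, ∀ y ∈ B, |x| < |y| → (f c)^[n] y < (f c)^[n] x) := by
    intro n
    induction n with
    | zero => intro h1; exact absurd h1 (lt_irrefl 0)
    | succ n ih =>
      intro _ hnm
      rcases Nat.eq_zero_or_pos n with h1 | h1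
      · subst h1
        left
        intro x _ y _ hxy
        simp only [zero_add, Function.iterate_one, f]
        have := sq_lt_sq.2 hxy
        linarith
      · have hz := hnz n h1 (by omega)
        have hs : (∀ x ∈ B, 0 < (f c)^[n] x) ∨ (∀ x ∈ B, (f c)^[n] x < 0) := by
          rcases lt_or_gt_of_ne (hz 0 h0B) with h2 | h2
          · right
            intro x hx
            by_contra h3
            push Not at h3
            have h4 := intermediate_value_uIcc (f := (f c)^[n]) (a := 0) (b := x) (n5_cont c n).continuousOn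
            obtain ⟨y, hy, hy0⟩ := h4 (show (0:ℝ) ∈ _ by rw [mem_uIcc]; left; exact ⟨h2.le, h3⟩)
            exact hz y (hBconv 0 h0B x hx y hy) hy0
          · left
            intro x hx
            by_contra h3
            push Not at h3
            have h4 := intermediate_value_uIcc (f := (f c)^[n]) (a := 0) (b := x) (n5_cont c n).continuousOn
            obtain ⟨y, hy, hy0⟩ := h4 (show (0:ℝ) ∈ _ by rw [mem_uIcc]; right; exact ⟨h3, h2.le⟩)
            exact hz y (hBconv 0 h0B x hx y hy) hy0
        have key : ∀ u v : ℝ, (0 < u ∧ 0 < v) ∨ (u < 0 ∧ v < 0) → u < v →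
            (0 < u → f c u < f c v) ∧ (u < 0 → f c v < f c u) := by
          intro u v _ huv
          constructor
          · intro hu; simp only [f]; nlinarith
          · intro hu
            rename_i hh
            rcases hh with hh | hh
            · linarith [hh.1]
            · simp only [f]; nlinarith [hh.2]
        rcases ih h1 (by omega) with h2 | h2 <;> rcases hs with h3 | h3
        · left
          intro x hx y hy hxy
          rw [Function.iterate_succ_apply', Function.iterate_succ_apply']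
          exact (key _ _ (Or.inl ⟨h3 x hx, h3 y hy⟩) (h2 x hx y hy hxy)).1 (h3 x hx)
        · right
          intro x hx y hy hxy
          rw [Function.iterate_succ_apply', Function.iterate_succ_apply']
          exact (key _ _ (Or.inr ⟨h3 x hx, h3 y hy⟩) (h2 x hx y hy hxy)).2 (h3 x hx)
        · right
          intro x hx y hy hxy
          rw [Function.iterate_succ_apply', Function.iterate_succ_apply']
          exact (key _ _ (Or.inl ⟨h3 y hy, h3 x hx⟩) (h2 x hx y hy hxy)).1 (h3 y hy)
        · left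
          intro x hx y hy hxy
          rw [Function.iterate_succ_apply', Function.iterate_succ_apply']
          exact (key _ _ (Or.inr ⟨h3 y hy, h3 x hx⟩) (h2 x hx y hy hxy)).2 (h3 y hy)
  have hmono' := hmono m hm le_rfl
  have horb : ∀ n : ℕ, ((f c)^[m])^[n] 0 ∈ B := by
    intro n
    induction n with
    | zero => exact h0B
    | succ n ih => rw [Function.iterate_succ_apply']; exact hBE _ ih
  -- the orbit of 0 reaches -q
  have hreach : ∃ k : ℕ, ((f c)^[m])^[k] 0 = -q := by
    have h1 : ∃ k : ℕ, ((f c)^[m])^[k] 0 = q := by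
      have h2 : (P c \ {q})ᶜ ∈ 𝓝 q := (hP.subset sdiff_subset).isClosed.isOpen_compl.mem_nhds (by simp)
      have h3 : Tendsto (fun k : ℕ => ((f c)^[m])^[k] 0) atTop (𝓝 q) := h0W
      obtain ⟨k, hk1, hk2⟩ := ((h3.eventually h2).and (eventually_ge_atTop 1)).exists
      refine ⟨k, ?_⟩
      by_contra hne
      apply hk1
      refine ⟨?_, hne⟩
      rw [← Function.iterate_mul]
      have : 0 < m * k := Nat.mul_pos hm hk2
      exact ⟨m * k - 1, by rw [Nat.sub_add_cancel this]⟩
    obtain ⟨k, hsp, hmin⟩ : ∃ k : ℕ, ((f c)^[m])^[k] 0 = q ∧ ∀ n, n < k → ((f c)^[m])^[n] 0 ≠ q := by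
      classical
      exact ⟨Nat.find h1, Nat.find_spec h1, fun n hn => Nat.find_min h1 hn⟩
    have hk0 : k ≠ 0 := by
      intro hk
      rw [hk] at hsp
      exact hq0 hsp.symm
    obtain ⟨n, hn⟩ : ∃ n, k = n + 1 := ⟨k - 1, by omega⟩
    rw [hn, Function.iterate_succ_apply'] at hsp
    have hzq : ((f c)^[m])^[n] 0 ≠ q := hmin n (by omega)
    refine ⟨n, ?_⟩
    have habs : |((f c)^[m])^[n] 0| = |q| := by
      rcases lt_trichotomy |((f c)^[m])^[n] 0| |q| with h4 | h4 | h4
      · exfalso
        rcases hmono' with h5 | h5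
        · have := h5 _ (horb n) q hqB h4
          rw [hsp, h.fix] at this; exact lt_irrefl _ this
        · have := h5 _ (horb n) q hqB h4
          rw [hsp, h.fix] at this; exact lt_irrefl _ this
      · exact h4
      · exfalso
        rcases hmono' with h5 | h5
        · have := h5 q hqB _ (horb n) h4
          rw [hsp, h.fix] at this; exact lt_irrefl _ this
        · have := h5 q hqB _ (horb n) h4
          rw [hsp, h.fix] at this; exact lt_irrefl _ this
    rcases abs_eq_abs.1 habs with h6 | h6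
    · exact absurd h6 hzq
    · exact h6
  obtain ⟨k, hk⟩ := hreach
  have hder := n5_hda c q m
  have hevn : ∀ x, (f c)^[m] (-x) = (f c)^[m] x := fun x => n5_even c x hm
  rcases hmono' with h5 | h5
  · refine n5_abs (n5_cont c m) hevn hB hBE h5 hqB h.fix hq0 hder h.att ?_ ?_ hk
    · intro x hx he
      exact n5W_per (k := 1) (hBW x hx) one_pos he
    · intro x hx he
      exact n5W_per (k := 2) (hBW x hx) two_pos he
  · have hder' : HasDerivAt (fun x => -(f c)^[m] x) (∏ i ∈ Finset.range m, 2 * (f c)^[i] q) (-q) := by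
      have h7 : HasDerivAt (f c)^[m] (∏ i ∈ Finset.range m, 2 * (f c)^[i] q) (-(-q)) := by
        rw [neg_neg]; exact hder
      have h8 := h7.comp (-q) (hasDerivAt_neg (-q))
      have h9 : ((f c)^[m] ∘ Neg.neg) = (f c)^[m] := by
        funext x; exact hevn x
      rw [h9] at h8
      have h12 := h8.neg
      rw [mul_neg, mul_one, neg_neg] at h12
      exact h12
    refine n5_abs (E := fun x => -(f c)^[m] x) (q := -q) (k := k) (n5_cont c m).neg (fun x => by simp [hevn]) hB
      (fun x hx => hBneg _ (hBE x hx)) (fun x hx y hy hxy => neg_lt_neg (h5 x hx y hy hxy))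
      (hBneg q hqB) (by simp [hevn, h.fix]) (by simpa using hq0) hder' h.att ?_ ?_ ?_
    · intro x hx he
      have h10 : ((f c)^[m])^[1] (-x) = -x := by
        simp only [Function.iterate_one, hevn]
        linarith
      have := n5W_per (k := 1) (hBW _ (hBneg x hx)) one_pos h10
      linarith
    · intro x hx he
      have h10 : ((f c)^[m])^[2] (-x) = -x := by
        simp only [Function.iterate_succ_apply, Function.iterate_zero, id_eq, hevn] at he ⊢
        linarith
      have := n5W_per (k := 2) (hBW _ (hBneg x hx)) two_pos h10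
      linarith
    · have h11 : ∀ n : ℕ, (fun x => -(f c)^[m] x)^[n] 0 = -((f c)^[m])^[n] 0 := by
        intro n
        induction n with
        | zero => simp
        | succ n ih =>
          rw [Function.iterate_succ_apply', Function.iterate_succ_apply', ih, hevn]
      rw [h11, hk]

/-- TARGET -/
theorem no_attracting {c : ℝ} (hc : c < -1) (hc2 : -2 ≤ c) (hP : (P c).Finite) (h0 : (0:ℝ) ∉ P c)
    {q : ℝ} (hq : q ∈ P c) {M : ℕ} (hM : 0 < M) (hM1 : (f c)^[M] q = q)
    (hM2 : |deriv (f c)^[M] q| < 1) : False := by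
  obtain ⟨m, h⟩ := n5_att hq hM hM1 hM2
  have hop := n5W_open h
  have hbd : ∀ x ∈ n5W c m q, |x| < 3 := fun x hx => n5W_bdd hc2 h.hm hx
  obtain ⟨β, hβ, hβW, hβI⟩ := n5_right hop hbd (n5W_q h)
  obtain ⟨α, hα, hαW, hαI⟩ := n5_left hop hbd (n5W_q h)
  have hI : ∀ x, α < x → x < β → x ∈ n5W c m q := by
    intro x h1 h2
    rcases le_total q x with h3 | h3
    · exact hβI x h3 h2
    · exact hαI x h1 h3
  obtain ⟨j, x, hx1, hx2, hx0⟩ := n5_zero h hα hβ hαW hβW hI
  refine n5_main hP h0 (h.iter h0 j) ?_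
  intro z hz
  have h3 := intermediate_value_uIcc (f := (f c)^[j]) (a := q) (b := x) (n5_cont c j).continuousOn
  rw [hx0] at h3
  obtain ⟨y, hy, rfl⟩ := h3 hz
  apply n5W_iter
  rw [mem_uIcc] at hy
  rcases hy with hy | hy
  · exact hI y (by linarith) (by linarith)
  · exact hI y (by linarith) (by linarith)

end Pool.Agent.Helper79_Real.N5
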