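import Pool.Agent.Helper79_Real.RBase

namespace Pool.Agent.Helper79_Real.N7

open Set

namespace N7

lemma f_cont (c : ℝ) : Continuous (f c) := by unfold f; fun_prop

lemma F_cont (c : ℝ) (n : ℕ) : Continuous ((f c)^[n]) := (f_cont c).iterate n

lemma f_abs (c x : ℝ) : f c |x| = f c x := by simp [f]

lemma F_abs (c : ℝ) (k : ℕ) (hk : 0 < k) (x : ℝ) : (f c)^[k] |x| = (f c)^[k] x := by
  obtain ⟨m, rfl⟩ : ∃ m, k = m + 1 := ⟨k - 1, by omega⟩
  rw [Function.iterate_succ_apply, Function.iterate_succ_apply, f_abs]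

lemma abs_F_abs (c : ℝ) (k : ℕ) (x : ℝ) : |(f c)^[k] (|x|)| = |(f c)^[k] x| := by
  rcases Nat.eq_zero_or_pos k with rfl | hk
  · simp
  · rw [F_abs c k hk]

/-- covering relation -/
def R (c y y' : ℝ) : Prop := ∃ N : ℕ, ∀ z ∈ Icc 0 y', ∃ x ∈ Icc 0 y, |(f c)^[N] x| = z

lemma R_mono {c y y' y'' : ℝ} (h : R c y y') (h2 : y'' ≤ y') : R c y y'' := by
  obtain ⟨N, hN⟩ := h
  exact ⟨N, fun z hz => hN z ⟨hz.1, le_trans hz.2 h2⟩⟩

lemma R_of_le {c y y' : ℝ} (h : y' ≤ y) : R c y y' :=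
  ⟨0, fun z hz => ⟨z, ⟨hz.1, le_trans hz.2 h⟩, by simp [abs_of_nonneg hz.1]⟩⟩

lemma R_trans {c y y' y'' : ℝ} (h : R c y y') (h2 : R c y' y'') : R c y y'' := by
  obtain ⟨N, hN⟩ := h
  obtain ⟨M, hM⟩ := h2
  refine ⟨M + N, fun z hz => ?_⟩
  obtain ⟨x', hx', hz'⟩ := hM z hz
  obtain ⟨x, hx, hxx⟩ := hN x' hx'
  refine ⟨x, hx, ?_⟩
  rw [Function.iterate_add_apply, ← abs_F_abs, hxx, hz']

/-- intermediate values in absolute value -/
lemma ivt_abs {g : ℝ → ℝ} (hg : Continuous g) {x0 x1 : ℝ} (h0 : g x0 = 0) {z : ℝ} (hz0 : 0 ≤ z)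
    (hz1 : z ≤ |g x1|) : ∃ x ∈ uIcc x0 x1, |g x| = z := by
  have h := intermediate_value_uIcc (f := fun x => |g x|) (a := x0) (b := x1) (hg.abs.continuousOn)
  have hz : z ∈ uIcc |g x0| |g x1| := by
    rw [h0, abs_zero, uIcc_of_le (abs_nonneg _)]
    exact ⟨hz0, hz1⟩
  obtain ⟨x, hx, hxz⟩ := h hz
  exact ⟨x, hx, hxz⟩

lemma R_of_zero {c y x0 x : ℝ} {m : ℕ} (hx0 : x0 ∈ Icc 0 y) (h0 : (f c)^[m] x0 = 0) (hx : x ∈ Icc 0 y) :
    R c y |(f c)^[m] x| := by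
  refine ⟨m, fun z hz => ?_⟩
  obtain ⟨w, hw, hwz⟩ := ivt_abs (F_cont c m) h0 hz.1 hz.2
  exact ⟨w, (uIcc_subset_Icc hx0 hx) hw, hwz⟩

lemma fiber_finite (c : ℝ) (k : ℕ) (w : ℝ) : {x | (f c)^[k] x = w}.Finite := by
  induction k generalizing w with
  | zero => simp
  | succ k ih =>
    have h : {x | (f c)^[k + 1] x = w} = f c ⁻¹' {u | (f c)^[k] u = w} := by
      ext x
      simp [Function.iterate_succ_apply]
    rw [h]
    refine (ih w).preimage' ?_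
    intro b _
    refine (Set.toFinite {√(b - c), -√(b - c)}).subset ?_
    intro x hx
    have hx2 : x ^ 2 = b - c := by
      have : x ^ 2 + c = b := hx
      linarith
    have : |x| = √(b - c) := by rw [← hx2, Real.sqrt_sq_eq_abs]
    rcases abs_choice x with h' | h'
    · left; rw [← this, h']
    · right
      show x = _
      rw [← this, h', neg_neg]

lemma R_sigma {c : ℝ} (hc : c < -1)
    (hNH : ∀ a b : ℝ, c ≤ a → a < b → b ≤ c ^ 2 + c → ∃ x ∈ Ioo a b, ∃ k : ℕ, (f c)^[k] x = 0)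
    (hnW : ∀ n b, ¬ WR c n b) {y : ℝ} (hy : 0 < y) : R c y (√(-c)) := by
  have hcn : (0 : ℝ) < -c := by linarith
  have hs2 : √(-c) ^ 2 = -c := Real.sq_sqrt hcn.le
  have hs1 : 1 < √(-c) := by
    rw [show (1 : ℝ) = √1 from Real.sqrt_one.symm]
    exact Real.sqrt_lt_sqrt (by norm_num) (by linarith)
  have hsc : √(-c) < -c := by nlinarith
  rcases le_or_gt (√(-c)) y with hle | hlt
  · exact R_of_le hle
  by_contra hR
  set S : Set ℝ := {y' | R c y y'} with hS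
  have hlts : ∀ y' ∈ S, y' < √(-c) := by
    intro y' hy'
    by_contra hcon
    push Not at hcon
    exact hR (R_mono hy' hcon)
  have hyS : y ∈ S := R_of_le le_rfl
  have hbdd : BddAbove S := ⟨√(-c), fun y' hy' => (hlts y' hy').le⟩
  have hle_s : ∀ y' ∈ S, y' ≤ sSup S := fun y' hy' => le_csSup hbdd hy'
  -- existence of zeros
  have hex : ∀ y', 0 < y' → y' < √(-c) → ∃ k : ℕ, 0 < k ∧ ∃ x ∈ Icc 0 y', (f c)^[k] x = 0 := by
    intro y' h0 h1
    obtain ⟨x, hx, k, hk⟩ := hNH (-y') 0 (by linarith) (by linarith) (by nlinarith)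
    have hk0 : 0 < k := by
      rcases Nat.eq_zero_or_pos k with rfl | h
      · simp at hk
        have := hx.2
        linarith
      · exact h
    refine ⟨k, hk0, |x|, ⟨abs_nonneg _, ?_⟩, ?_⟩
    · rw [abs_of_neg hx.2]; linarith [hx.1]
    · rw [F_abs c k hk0, hk]
  -- the minimal m
  have hexm : ∃ k : ℕ, 0 < k ∧ ∃ y' ∈ S, 0 < y' ∧ ∃ x ∈ Icc 0 y', (f c)^[k] x = 0 := by
    obtain ⟨k, hk, hx⟩ := hex y hy hlt
    exact ⟨k, hk, y, hyS, hy, hx⟩
  classical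
  obtain ⟨hm0, y1, hy1S, hy10, x0, hx0, hx00⟩ := Nat.find_spec hexm
  have hmin := fun k (hk : k < Nat.find hexm) => Nat.find_min hexm hk
  set m := Nat.find hexm with hm
  have hcov : ∀ x, |x| < sSup S → ∃ y' ∈ S, y1 ≤ y' ∧ |x| ≤ y' := by
    intro x hx
    obtain ⟨y2, hy2S, hy2⟩ := exists_lt_of_lt_csSup ⟨y, hyS⟩ hx
    rcases le_total y1 y2 with h | h
    · exact ⟨y2, hy2S, h, hy2.le⟩
    · exact ⟨y1, hy1S, le_rfl, le_trans hy2.le h⟩
  apply hnW m (sSup S)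
  refine ⟨?_, lt_of_lt_of_le hy (hle_s y hyS), ?_, ?_⟩
  · by_contra hcon
    have hm1 : m = 1 := by omega
    rw [hm1] at hx00
    have h1 : x0 ^ 2 + c = 0 := hx00
    have h2 : x0 = √(-c) := by
      rw [show -c = x0 ^ 2 by linarith, Real.sqrt_sq hx0.1]
    have := hlts y1 hy1S
    have := hx0.2
    linarith
  · intro k hk0 hkm x hx hzero
    obtain ⟨y', hy'S, hy'1, hxy'⟩ := hcov x hx
    exact hmin k hkm ⟨hk0, y', hy'S, lt_of_lt_of_le hy10 hy'1, |x|, ⟨abs_nonneg _, hxy'⟩, by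
      rw [F_abs c k hk0, hzero]⟩
  · have hopen : ∀ x, |x| < sSup S → |(f c)^[m] x| ≤ sSup S := by
      intro x hx
      obtain ⟨y', hy'S, hy'1, hxy'⟩ := hcov x hx
      have h1 : R c y' |(f c)^[m] (|x|)| :=
        R_of_zero (x0 := x0) ⟨hx0.1, le_trans hx0.2 hy'1⟩ hx00 ⟨abs_nonneg _, hxy'⟩
      rw [abs_F_abs] at h1
      exact hle_s _ (R_trans hy'S h1)
    have hclosed : IsClosed {x | |(f c)^[m] x| ≤ sSup S} :=
      isClosed_le ((F_cont c m).abs) continuous_const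
    have hpos : 0 < sSup S := lt_of_lt_of_le hy (hle_s y hyS)
    intro x hx
    have hsub : Ioo (-sSup S) (sSup S) ⊆ {x | |(f c)^[m] x| ≤ sSup S} := by
      intro x hx
      exact hopen x (abs_lt.mpr hx)
    have := closure_minimal hsub hclosed
    rw [closure_Ioo (by linarith)] at this
    exact this (abs_le.mp hx)

lemma f_maps {c : ℝ} (hc : c < -1) (hc2 : -2 ≤ c) {x : ℝ} (hx : x ∈ Icc c (c ^ 2 + c)) :
    f c x ∈ Icc c (c ^ 2 + c) := by
  unfold f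
  obtain ⟨h1, h2⟩ := hx
  refine ⟨by nlinarith [sq_nonneg x], ?_⟩
  have h3 : x ≤ -c := by nlinarith
  have : x ^ 2 ≤ c ^ 2 := sq_le_sq' (by linarith) h3 |>.trans (by nlinarith)
  linarith

end N7

open N7 in
/-- TARGET -/
theorem exact_of {c : ℝ} (hc : c < -1) (hc2 : -2 ≤ c)
    (hNH : ∀ a b : ℝ, c ≤ a → a < b → b ≤ c ^ 2 + c → ∃ x ∈ Ioo a b, ∃ k : ℕ, (f c)^[k] x = 0)
    (hnW : ∀ n b, ¬ WR c n b) {a b : ℝ} (ha : c ≤ a) (hab : a < b) (hb : b ≤ c ^ 2 + c) :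
    ∃ n : ℕ, (f c)^[n] '' Icc a b = Icc c (c ^ 2 + c) := by
  obtain ⟨x, hx, k, hk⟩ := hNH a b ha hab hb
  obtain ⟨x1, hx1, hx1n⟩ : ∃ x1 ∈ Icc a b, (f c)^[k] x1 ≠ 0 := by
    by_contra hcon
    push Not at hcon
    exact (Icc_infinite hab) ((fiber_finite c k 0).subset (fun x hx => hcon x hx))
  have hypos : 0 < |(f c)^[k] x1| := abs_pos.mpr hx1n
  obtain ⟨N, hN⟩ := R_sigma hc hNH hnW hypos
  refine ⟨2 + (N + k), Subset.antisymm ?_ ?_⟩
  · rintro _ ⟨u, hu, rfl⟩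
    have hall : ∀ n, (f c)^[n] u ∈ Icc c (c ^ 2 + c) := by
      intro n
      induction n with
      | zero => exact ⟨le_trans ha hu.1, le_trans hu.2 hb⟩
      | succ n ih => rw [Function.iterate_succ_apply']; exact f_maps hc hc2 ih
    exact hall _
  · intro w hw
    have hcn : (0 : ℝ) < -c := by linarith
    -- w = f v, v = f z
    set v : ℝ := -√(w - c) with hv
    have hwc : 0 ≤ w - c := by linarith [hw.1]
    have hfv : f c v = w := by
      unfold f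
      rw [hv, neg_sq, Real.sq_sqrt hwc]; ring
    have hvc : c ≤ v := by
      have : √(w - c) ≤ -c := by
        rw [show -c = √((-c) ^ 2) from (Real.sqrt_sq hcn.le).symm]
        exact Real.sqrt_le_sqrt (by have := hw.2; nlinarith)
      linarith
    have hv0 : v ≤ 0 := by
      have := Real.sqrt_nonneg (w - c)
      linarith
    set z : ℝ := √(v - c) with hz
    have hfz : f c z = v := by
      unfold f
      rw [hz, Real.sq_sqrt (by linarith)]; ring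
    have hz1 : z ≤ √(-c) := Real.sqrt_le_sqrt (by linarith)
    obtain ⟨u, hu, huz⟩ := hN z ⟨Real.sqrt_nonneg _, hz1⟩
    obtain ⟨x2, hx2, hx2u⟩ := ivt_abs (F_cont c k) (x0 := x) (x1 := x1) hk hu.1 hu.2
    have hx2' : x2 ∈ Icc a b := (uIcc_subset_Icc ⟨hx.1.le, hx.2.le⟩ hx1) hx2
    refine ⟨x2, hx2', ?_⟩
    have h1 : |(f c)^[N + k] x2| = z := by
      rw [Function.iterate_add_apply, ← abs_F_abs, hx2u, huz]
    rw [Function.iterate_add_apply]
    show f c (f c ((f c)^[N + k] x2)) = w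
    rw [← f_abs c ((f c)^[N + k] x2), h1, hfz, hfv]

end Pool.Agent.Helper79_Real.N7
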