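import Pool.Agent.Helper79_Real.RBase

namespace Pool.Agent.Helper79_Real.N8a

open Set

theorem j_cont (c : ℝ) (k : ℕ) : Continuous (f c)^[k] := by
  apply Continuous.iterate
  unfold f
  fun_prop

theorem j_even (c : ℝ) {k : ℕ} (hk : 0 < k) (x : ℝ) : (f c)^[k] |x| = (f c)^[k] x := by
  obtain ⟨m, rfl⟩ : ∃ m, k = m + 1 := ⟨k - 1, by omega⟩
  rw [Function.iterate_succ_apply, Function.iterate_succ_apply]
  congr 1
  unfold f
  rw [sq_abs]

theorem j_sign {c : ℝ} {k : ℕ} (hk : 0 < k) {B : ℝ}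
    (h : ∀ x : ℝ, |x| < B → (f c)^[k] x ≠ 0) :
    (∀ x ∈ Icc (0 : ℝ) B, 0 ≤ (f c)^[k] x) ∨ (∀ x ∈ Icc (0 : ℝ) B, (f c)^[k] x ≤ 0) := by
  rcases lt_trichotomy ((f c)^[k] 0) 0 with h0 | h0 | h0
  · right
    intro x hx
    by_contra hc
    push Not at hc
    have := intermediate_value_Icc hx.1 (j_cont c k).continuousOn
    obtain ⟨z, hz, hz0⟩ := this (show (0 : ℝ) ∈ Icc ((f c)^[k] 0) ((f c)^[k] x) from ⟨h0.le, hc.le⟩)
    have hzx : z ≠ x := by
      rintro rfl
      linarith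
    have hzx' : z < x := lt_of_le_of_ne hz.2 hzx
    exact h z (by rw [abs_of_nonneg hz.1]; linarith [hx.2]) hz0
  · left
    intro x hx
    have hB : B ≤ 0 := by
      by_contra hB
      push Not at hB
      exact h 0 (by rw [abs_zero]; exact hB) h0
    have : x = 0 := le_antisymm (hx.2.trans hB) hx.1
    rw [this, h0]
  · left
    intro x hx
    by_contra hc
    push Not at hc
    have := intermediate_value_Icc' hx.1 (j_cont c k).continuousOn
    obtain ⟨z, hz, hz0⟩ := this (show (0 : ℝ) ∈ Icc ((f c)^[k] x) ((f c)^[k] 0) from ⟨hc.le, h0.le⟩)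
    have hzx : z ≠ x := by
      rintro rfl
      linarith
    have hzx' : z < x := lt_of_le_of_ne hz.2 hzx
    exact h z (by rw [abs_of_nonneg hz.1]; linarith [hx.2]) hz0

theorem j_mono {c : ℝ} {B : ℝ} : ∀ k : ℕ, 0 < k →
    (∀ l, 0 < l → l < k → ∀ x : ℝ, |x| < B → (f c)^[l] x ≠ 0) →
    MonotoneOn (f c)^[k] (Icc 0 B) ∨ AntitoneOn (f c)^[k] (Icc 0 B) := by
  intro k
  induction k with
  | zero => intro h; omega
  | succ k ih =>
    intro _ h
    rcases Nat.eq_zero_or_pos k with rfl | hk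
    · left
      intro x hx y hy hxy
      simp only [zero_add, Function.iterate_one]
      unfold f
      have : x ^ 2 ≤ y ^ 2 := pow_le_pow_left₀ hx.1 hxy 2
      linarith
    · have h1 := ih hk (fun l hl hlk x hx => h l hl (by omega) x hx)
      have h2 := j_sign hk (fun x hx => h k hk (by omega) x hx)
      have e : ∀ x, (f c)^[k + 1] x = ((f c)^[k] x) ^ 2 + c := by
        intro x
        rw [Function.iterate_succ_apply']
        rfl
      rcases h2 with h2 | h2 <;> rcases h1 with h1 | h1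
      · left
        intro x hx y hy hxy
        rw [e, e]
        have a1 := h1 hx hy hxy
        have a2 := pow_le_pow_left₀ (h2 x hx) a1 2
        linarith
      · right
        intro x hx y hy hxy
        rw [e, e]
        have a1 := h1 hx hy hxy
        have a2 := pow_le_pow_left₀ (h2 y hy) a1 2
        linarith
      · right
        intro x hx y hy hxy
        rw [e, e]
        have a1 := h1 hx hy hxy
        have a2 := h2 x hx
        have a3 := h2 y hy
        nlinarith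
      · left
        intro x hx y hy hxy
        rw [e, e]
        have a1 := h1 hx hy hxy
        have a2 := h2 x hx
        have a3 := h2 y hy
        nlinarith

theorem j_bound {c : ℝ} {B : ℝ} {k : ℕ} (hk : 0 < k) (hB : 0 ≤ B)
    (h : ∀ l, 0 < l → l < k → ∀ x : ℝ, |x| < B → (f c)^[l] x ≠ 0) {x : ℝ} (hx : |x| ≤ B) :
    |(f c)^[k] x| ≤ max |(f c)^[k] 0| |(f c)^[k] B| := by
  rw [← j_even c hk x]
  have hm : |x| ∈ Icc (0 : ℝ) B := ⟨abs_nonneg x, hx⟩
  have h0 : (0 : ℝ) ∈ Icc (0 : ℝ) B := ⟨le_refl _, hB⟩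
  have h1 : B ∈ Icc (0 : ℝ) B := ⟨hB, le_refl _⟩
  rcases j_mono k hk h with hh | hh
  · exact abs_le_max_abs_abs (hh h0 hm (abs_nonneg x)) (hh hm h1 hx)
  · rw [max_comm]
    exact abs_le_max_abs_abs (hh hm h1 hx) (hh h0 hm (abs_nonneg x))

theorem j_le_sqrt {c : ℝ} (hc : c < -1) {b : ℝ}
    (h : ∀ x : ℝ, |x| < b → (f c)^[1] x ≠ 0) : b ≤ √(-c) := by
  by_contra hb
  push Not at hb
  refine h (√(-c)) (by rw [abs_of_nonneg (Real.sqrt_nonneg _)]; exact hb) ?_
  rw [Function.iterate_one]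
  unfold f
  rw [Real.sq_sqrt (by linarith)]
  ring

theorem j_sqrt_lt {c : ℝ} (hc : c < -1) : √(-c) < |c| := by
  rw [abs_of_neg (by linarith)]
  rw [Real.sqrt_lt' (by linarith)]
  nlinarith

theorem j_step1 {c : ℝ} (hc : c < -1) {n : ℕ} (hmin : ∀ k b', k < n → ¬ WR c k b') {b : ℝ}
    (hw : WR c n b) : ∀ k, 0 < k → k < n → (f c)^[k] b ≠ 0 := by
  intro k hk hkn hz
  have hb : b ≤ √(-c) := j_le_sqrt hc (hw.ne 1 one_pos (by have := hw.hn; omega))
  have hsq := j_sqrt_lt hc
  have hf0 : (f c)^[1] 0 = c := by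
    rw [Function.iterate_one]
    unfold f
    ring
  by_cases he : |(f c)^[k] 0| ≤ b
  · have hmaps : ∀ x : ℝ, |x| ≤ b → |(f c)^[k] x| ≤ b := by
      intro x hx
      refine (j_bound hk hw.pos.le (fun l hl hlk => hw.ne l hl (by omega)) hx).trans ?_
      rw [hz, abs_zero]
      exact max_le he hw.pos.le
    rcases Nat.lt_or_ge k 2 with h2 | h2
    · have : k = 1 := by omega
      subst this
      rw [hf0] at he
      linarith
    · exact hmin k b hkn ⟨h2, hw.pos, fun l hl hlk => hw.ne l hl (by omega), hmaps⟩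
  · push Not at he
    have hmaps : ∀ y : ℝ, |y| ≤ b → |(f c)^[n - k] y| ≤ b := by
      intro y hy
      have hc2 : ContinuousOn (fun x => |(f c)^[k] x|) (Icc 0 b) :=
        ((j_cont c k).abs).continuousOn
      have := intermediate_value_Icc' hw.pos.le hc2
      obtain ⟨x, hx, hxy⟩ := this (show |y| ∈ Icc (|(f c)^[k] b|) (|(f c)^[k] 0|) from
        ⟨by rw [hz, abs_zero]; exact abs_nonneg y, by linarith⟩)
      have e1 : (f c)^[n - k] y = (f c)^[n] x := by
        rw [← j_even c (by omega) y]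
        have hxy' : |(f c)^[k] x| = |y| := hxy
        rw [← hxy', j_even c (by omega), ← Function.iterate_add_apply]
        congr 1
        congr 1
        omega
      rw [e1]
      exact hw.maps x (by rw [abs_of_nonneg hx.1]; exact hx.2)
    rcases Nat.lt_or_ge (n - k) 2 with h2 | h2
    · have : n - k = 1 := by omega
      rw [this] at hmaps
      have := hmaps 0 (by rw [abs_zero]; exact hw.pos.le)
      rw [hf0] at this
      linarith
    · exact hmin (n - k) b (by omega) ⟨h2, hw.pos, fun l hl hlk => hw.ne l hl (by omega), hmaps⟩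

/-- TARGET -/
theorem min_wr {c : ℝ} (hc : c < -1) (h : ∃ n b, WR c n b) : ∃ n b A, WR c n b ∧
    (∀ k b', k < n → ¬ WR c k b') ∧ b < A ∧ A ≤ √(-c) ∧
    (∀ k, 0 < k → k < n → ∀ x : ℝ, |x| < A → (f c)^[k] x ≠ 0) ∧
    (∃ i, 0 < i ∧ i < n ∧ (f c)^[i] A = 0) ∧ A < |(f c)^[n] A| := by
  classical
  obtain ⟨b, hw⟩ := Nat.find_spec h
  obtain ⟨n, hn⟩ : ∃ n, n = Nat.find h := ⟨_, rfl⟩
  rw [← hn] at hw
  have hmin : ∀ k b', k < n → ¬ WR c k b' := by
    intro k b' hk hw'
    rw [hn] at hk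
    exact Nat.find_min h hk ⟨b', hw'⟩
  have hn2 := hw.hn
  let S : Set ℝ := {B | 0 < B ∧ ∀ k, 0 < k → k < n → ∀ x : ℝ, |x| < B → (f c)^[k] x ≠ 0}
  have hSb : b ∈ S := ⟨hw.pos, hw.ne⟩
  have hub : ∀ B ∈ S, B ≤ √(-c) := fun B hB => j_le_sqrt hc (hB.2 1 one_pos (by omega))
  have hbdd : BddAbove S := ⟨√(-c), hub⟩
  obtain ⟨A, hA⟩ : ∃ A, A = sSup S := ⟨_, rfl⟩
  have hAne : ∀ k, 0 < k → k < n → ∀ x : ℝ, |x| < A → (f c)^[k] x ≠ 0 := by
    intro k hk hkn x hx
    rw [hA] at hx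
    obtain ⟨B, hB, hxB⟩ := exists_lt_of_lt_csSup ⟨b, hSb⟩ hx
    exact hB.2 k hk hkn x hxB
  have hbA : b ≤ A := by
    rw [hA]
    exact le_csSup hbdd hSb
  have hApos : 0 < A := lt_of_lt_of_le hw.pos hbA
  have hAs : A ≤ √(-c) := by
    rw [hA]
    exact csSup_le ⟨b, hSb⟩ hub
  have hzero : ∃ i, 0 < i ∧ i < n ∧ (f c)^[i] A = 0 := by
    by_contra hno
    push Not at hno
    have hev : ∀ᶠ x in nhds A, ∀ i ∈ Finset.Ioo 0 n, (f c)^[i] x ≠ 0 := by
      rw [Filter.eventually_all_finset]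
      intro i hi
      rw [Finset.mem_Ioo] at hi
      exact (j_cont c i).continuousAt.eventually_ne (hno i hi.1 hi.2)
    obtain ⟨ε, hε, hball⟩ := Metric.eventually_nhds_iff.1 hev
    have : A + ε / 2 ∈ S := by
      refine ⟨by linarith, ?_⟩
      intro k hk hkn x hx
      rcases lt_or_ge |x| A with h1 | h1
      · exact hAne k hk hkn x h1
      · rw [← j_even c hk x]
        refine hball ?_ k (Finset.mem_Ioo.2 ⟨hk, hkn⟩)
        rw [Real.dist_eq, abs_of_nonneg (by linarith)]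
        linarith
    have := le_csSup hbdd this
    rw [← hA] at this
    linarith
  have hbA' : b < A := by
    refine lt_of_le_of_ne hbA ?_
    intro he
    obtain ⟨i, hi, hin, hz⟩ := hzero
    rw [← he] at hz
    exact j_step1 hc hmin hw i hi hin hz
  refine ⟨n, b, A, hw, hmin, hbA', hAs, hAne, hzero, ?_⟩
  by_contra hcon
  push Not at hcon
  have hWA : WR c n A := by
    refine ⟨hn2, hApos, hAne, ?_⟩
    intro x hx
    refine (j_bound (by omega) hApos.le hAne hx).trans (max_le ?_ hcon)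
    have := hw.maps 0 (by rw [abs_zero]; exact hw.pos.le)
    linarith
  obtain ⟨i, hi, hin, hz⟩ := hzero
  exact j_step1 hc hmin hWA i hi hin hz

end Pool.Agent.Helper79_Real.N8a
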