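import Pool.Agent.Helper79_Real.RBase

/-!
The minimal restrictive period: a restrictive interval of minimal period gives the data `RD`.
-/

namespace Pool.Agent.Helper79_Real.N8b

open Set

private lemma n8_even (c : ℝ) {k : ℕ} (hk : 0 < k) (x : ℝ) :
    (f c)^[k] (-x) = (f c)^[k] x := by
  obtain ⟨m, rfl⟩ := Nat.exists_eq_succ_of_ne_zero hk.ne'
  have : f c (-x) = f c x := by simp [f]
  rw [Nat.succ_eq_add_one, Function.iterate_succ_apply, Function.iterate_succ_apply, this]

private lemma n8_abs (c : ℝ) {k : ℕ} (hk : 0 < k) (x : ℝ) :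
    (f c)^[k] |x| = (f c)^[k] x := by
  rcases abs_choice x with h | h
  · rw [h]
  · rw [h, n8_even c hk]

private lemma n8_cont (c : ℝ) (k : ℕ) : Continuous (f c)^[k] := by
  refine Continuous.iterate ?_ k
  show Continuous (fun x : ℝ => x ^ 2 + c)
  fun_prop

private lemma n8_sm (c : ℝ) {X : ℝ} {K : ℕ}
    (h : ∀ j, 0 < j → j < K → 0 ≤ (f c)^[j] 0 * (f c)^[j] X) (hX : 0 < X) :
    ∀ k : ℕ, 0 < k → k ≤ K →
      StrictMonoOn (f c)^[k] (Icc 0 X) ∨ StrictAntiOn (f c)^[k] (Icc 0 X) := by
  intro k hk
  induction k, hk using Nat.le_induction with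
  | base =>
    intro _
    left
    intro x hx y hy hxy
    simp only [Nat.succ_eq_add_one, zero_add, Function.iterate_one, f]
    have := hx.1
    nlinarith
  | succ k hk ih =>
    intro hkK
    have hk' : 0 < k := hk
    have hprod := h k hk' (by omega)
    have h0 : (0 : ℝ) ∈ Icc (0 : ℝ) X := ⟨le_rfl, hX.le⟩
    have hXm : X ∈ Icc (0 : ℝ) X := ⟨hX.le, le_rfl⟩
    rcases ih (by omega) with hm | hm
    · have hlt := hm h0 hXm hX
      by_cases hs : 0 ≤ (f c)^[k] 0
      · left
        intro x hx y hy hxy
        rw [Function.iterate_succ_apply', Function.iterate_succ_apply']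
        have h1 := hm hx hy hxy
        have h2 := hm.monotoneOn h0 hx hx.1
        simp only [f]
        nlinarith
      · push Not at hs
        right
        intro x hx y hy hxy
        rw [Function.iterate_succ_apply', Function.iterate_succ_apply']
        have h1 := hm hx hy hxy
        have h2 := hm.monotoneOn hy hXm hy.2
        have h3 : (f c)^[k] X ≤ 0 := by
          by_contra hcon
          push Not at hcon
          nlinarith
        simp only [f]
        nlinarith
    · have hlt := hm h0 hXm hX
      by_cases hs : 0 ≤ (f c)^[k] X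
      · right
        intro x hx y hy hxy
        rw [Function.iterate_succ_apply', Function.iterate_succ_apply']
        have h1 := hm hx hy hxy
        have h2 := hm.antitoneOn hy hXm hy.2
        simp only [f]
        nlinarith
      · push Not at hs
        left
        intro x hx y hy hxy
        rw [Function.iterate_succ_apply', Function.iterate_succ_apply']
        have h1 := hm hx hy hxy
        have h2 := hm.antitoneOn h0 hx hx.1
        have h3 : (f c)^[k] 0 ≤ 0 := by
          by_contra hcon
          push Not at hcon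
          nlinarith
        simp only [f]
        nlinarith

/-- constant sign of a continuous function without zeros on `(-A, A)` -/
private lemma n8_sign {g : ℝ → ℝ} (hg : Continuous g) {A : ℝ} (hne : ∀ x, |x| < A → g x ≠ 0)
    {x : ℝ} (hx : |x| < A) : 0 < g 0 * g x := by
  have hA : 0 < A := lt_of_le_of_lt (abs_nonneg _) hx
  have h0 : |(0 : ℝ)| < A := by simpa using hA
  by_contra hcon
  push Not at hcon
  have hn0 := hne 0 h0
  have hnx := hne x hx
  have hmem : (0 : ℝ) ∈ uIcc (g 0) (g x) := by
    rw [mem_uIcc]
    rcases lt_or_gt_of_ne hn0 with h | h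
    · left
      refine ⟨h.le, ?_⟩
      by_contra h'
      push Not at h'
      nlinarith
    · right
      refine ⟨?_, h.le⟩
      by_contra h'
      push Not at h'
      nlinarith
  obtain ⟨y, hy, hy0⟩ := intermediate_value_uIcc (a := (0 : ℝ)) (b := x) hg.continuousOn hmem
  refine hne y ?_ hy0
  have := Set.abs_sub_left_of_mem_uIcc hy
  simp only [sub_zero] at this
  exact lt_of_le_of_lt this hx

/-- the sign is constant along nonzero residues: an arithmetic lemma -/
private lemma n8_resid {n j : ℕ} (hj : 0 < j) (hjn : j < n) (S : ℕ → Prop)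
    (hS : ∀ k, 0 < k → k < n → k + j ≠ n → (S k ↔ S ((k + j) % n))) :
    S j ↔ S (n - j) := by
  classical
  have hn : 0 < n := by omega
  -- least positive M with n ∣ M * j
  have hex : ∃ M : ℕ, 0 < M ∧ n ∣ M * j := ⟨n, hn, dvd_mul_right _ _⟩
  set M := Nat.find hex with hM
  have hM1 : 0 < M ∧ n ∣ M * j := Nat.find_spec hex
  have hMmin : ∀ m, 0 < m → m < M → ¬ n ∣ m * j := by
    intro m hm hmM hd
    exact Nat.find_min hex hmM ⟨hm, hd⟩
  have hM2 : 2 ≤ M := by
    by_contra hcon
    have : M = 1 := by omega
    rw [this, one_mul] at hM1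
    exact absurd (Nat.le_of_dvd hj hM1.2) (by omega)
  -- chain
  have hchain : ∀ m, 1 ≤ m → m < M → (S j ↔ S ((m * j) % n)) := by
    intro m hm
    induction m, hm using Nat.le_induction with
    | base =>
      intro _
      rw [one_mul, Nat.mod_eq_of_lt hjn]
    | succ m hm ih =>
      intro hmM
      rw [ih (by omega)]
      have h1 : ¬ n ∣ m * j := hMmin m (by omega) (by omega)
      have h2 : ¬ n ∣ (m + 1) * j := hMmin (m + 1) (by omega) hmM
      have hk0 : 0 < (m * j) % n := by
        rcases Nat.eq_zero_or_pos ((m * j) % n) with h | h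
        · exact absurd (Nat.dvd_of_mod_eq_zero h) h1
        · exact h
      have hkn : (m * j) % n < n := Nat.mod_lt _ hn
      have hne : (m * j) % n + j ≠ n := by
        intro h
        apply h2
        have : ((m + 1) * j) % n = 0 := by
          rw [add_mul, one_mul, Nat.add_mod, Nat.mod_eq_of_lt hjn, h, Nat.mod_self]
        exact Nat.dvd_of_mod_eq_zero this
      rw [hS _ hk0 hkn hne]
      have : ((m + 1) * j) % n = ((m * j) % n + j) % n := by
        rw [add_mul, one_mul, Nat.mod_add_mod]
      rw [this]
  have hlast := hchain (M - 1) (by omega) (by omega)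
  have hval : ((M - 1) * j) % n = n - j := by
    obtain ⟨q, hq⟩ := hM1.2
    have h1 : (M - 1) * j + j = n * q := by
      rw [← hq]
      conv_rhs => rw [show M = (M - 1) + 1 by omega]
      ring
    have hq0 : 0 < q := by
      rcases Nat.eq_zero_or_pos q with h | h
      · rw [h, mul_zero] at h1; omega
      · exact h
    have h2 : (M - 1) * j = (n - j) + n * (q - 1) := by
      obtain ⟨r, rfl⟩ : ∃ r, q = r + 1 := ⟨q - 1, by omega⟩
      have : n * (r + 1) = n * r + n := by ring
      rw [this] at h1
      simp only [Nat.add_sub_cancel]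
      omega
    rw [h2, Nat.add_mul_mod_self_left, Nat.mod_eq_of_lt (by omega)]
  rw [hval] at hlast
  exact hlast

/-- TARGET -/
theorem rd_of {c : ℝ} (hc : c < -1) (hc2 : -2 ≤ c) (hP : (P c).Finite) {n : ℕ} {b A : ℝ} (hW : WR c n b)
    (hmin : ∀ k b', k < n → ¬ WR c k b') (hbA : b < A) (hA1 : A ≤ √(-c))
    (hA2 : ∀ k, 0 < k → k < n → ∀ x : ℝ, |x| < A → (f c)^[k] x ≠ 0)
    (hi : ∃ i, 0 < i ∧ i < n ∧ (f c)^[i] A = 0) (hA3 : A < |(f c)^[n] A|) : RD c n A := by
  obtain ⟨hn2, hb, _, hmaps⟩ := hW
  have hA : 0 < A := hb.trans hbA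
  have hn0 : 0 < n := by omega
  -- (M) signs
  have hsig : ∀ x : ℝ, |x| < A → ∀ j, 0 < j → j < n → 0 < (f c)^[j] 0 * (f c)^[j] x := by
    intro x hx j hj hjn
    exact n8_sign (n8_cont c j) (fun y hy => hA2 j hj hjn y hy) hx
  -- closed version
  have hsigc : ∀ x : ℝ, |x| ≤ A → ∀ j, 0 < j → j < n → 0 ≤ (f c)^[j] 0 * (f c)^[j] x := by
    intro x hx j hj hjn
    have hcl : IsClosed {y : ℝ | 0 ≤ (f c)^[j] 0 * (f c)^[j] y} :=
      isClosed_le continuous_const (continuous_const.mul (n8_cont c j))
    have hsub : closure (Ioo (-A) A) ⊆ {y : ℝ | 0 ≤ (f c)^[j] 0 * (f c)^[j] y} := by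
      apply closure_minimal _ hcl
      intro y hy
      exact (hsig y (abs_lt.2 ⟨hy.1, hy.2⟩) j hj hjn).le
    rw [closure_Ioo (by linarith)] at hsub
    exact hsub ⟨(abs_le.1 hx).1, (abs_le.1 hx).2⟩
  have hAA : |A| ≤ A := by rw [abs_of_pos hA]
  have hsm := n8_sm c (X := A) (K := n) (fun j hj hjn => hsigc A hAA j hj hjn) hA
  have h0A : |(0 : ℝ)| < A := by simpa using hA
  have he0 : ∀ k, 0 < k → k < n → (f c)^[k] 0 ≠ 0 := fun k hk hkn => hA2 k hk hkn 0 h0A
  -- the orbit of 0 under F
  have hmn : ∀ m, |(f c)^[m * n] 0| ≤ b := by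
    intro m
    induction m with
    | zero => simpa using hb.le
    | succ m ih =>
      have : (m + 1) * n = n + m * n := by ring
      rw [this, Function.iterate_add_apply]
      exact hmaps _ ih
  have hmnA : ∀ m, |(f c)^[m * n] 0| < A := fun m => lt_of_le_of_lt (hmn m) hbA
  -- (1)
  have h1 : ∀ k, 0 < k → k < n → 0 < (f c)^[k] 0 * (f c)^[n + k] 0 := by
    intro k hk hkn
    have := hsig _ (hmnA 1) k hk hkn
    rw [one_mul] at this
    rw [add_comm, Function.iterate_add_apply]
    exact this
  -- (2)
  have h2 : (f c)^[n] 0 ≠ 0 → (f c)^[n] 0 * (f c)^[n] A < 0 := by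
    intro hen
    by_contra hcon
    push Not at hcon
    have hFA : (f c)^[n] A ≠ 0 := by
      intro h
      rw [h, abs_zero] at hA3
      linarith
    have hpos : 0 < (f c)^[n] 0 * (f c)^[n] A := lt_of_le_of_ne hcon (mul_ne_zero hen hFA).symm
    have hen1 : |(f c)^[n] 0| < A := by simpa using hmnA 1
    -- |F| strictly increasing on [0, A]
    have habs : ∀ x ∈ Icc (0 : ℝ) A, ∀ y ∈ Icc (0 : ℝ) A, x < y →
        |(f c)^[n] x| < |(f c)^[n] y| := by
      have hz : (0 : ℝ) ∈ Icc (0 : ℝ) A := ⟨le_rfl, hA.le⟩
      have hAm : A ∈ Icc (0 : ℝ) A := ⟨hA.le, le_rfl⟩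
      intro x hx y hy hxy
      rcases hsm n hn0 le_rfl with hm | hm
      · have hlt := hm hz hAm hA
        have hxy' := hm hx hy hxy
        have hx0 := hm.monotoneOn hz hx hx.1
        rcases lt_or_gt_of_ne hen with hneg | hp
        · exfalso
          have : (f c)^[n] A < 0 := by
            by_contra h'
            push Not at h'
            nlinarith
          rw [abs_of_neg hneg] at hen1
          rw [abs_of_neg this] at hA3
          linarith
        · rw [abs_of_pos (by linarith), abs_of_pos (by linarith)]
          exact hxy'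
      · have hlt := hm hz hAm hA
        have hxy' := hm hx hy hxy
        have hx0 := hm.antitoneOn hz hx hx.1
        rcases lt_or_gt_of_ne hen with hneg | hp
        · rw [abs_of_neg (by linarith), abs_of_neg (by linarith)]
          linarith
        · exfalso
          have : 0 < (f c)^[n] A := by
            by_contra h'
            push Not at h'
            nlinarith
          rw [abs_of_pos hp] at hen1
          rw [abs_of_pos this] at hA3
          linarith
    have hstep : ∀ m, |(f c)^[m * n] 0| < |(f c)^[(m + 1) * n] 0| := by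
      intro m
      induction m with
      | zero =>
        simpa using hen
      | succ m ih =>
        have e1 : (m + 1 + 1) * n = n + (m + 1) * n := by ring
        have e2 : (m + 1) * n = n + m * n := by ring
        have e3 : |(f c)^[(m + 1) * n] 0| = |(f c)^[n] (abs ((f c)^[m * n] 0))| := by
          rw [n8_abs c hn0, e2, Function.iterate_add_apply]
        have e4 : |(f c)^[(m + 1 + 1) * n] 0| = |(f c)^[n] (abs ((f c)^[(m + 1) * n] 0))| := by
          rw [n8_abs c hn0, e1, Function.iterate_add_apply]
        rw [e4]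
        conv_lhs => rw [e3]
        exact habs _ ⟨abs_nonneg _, (hmnA _).le⟩ _ ⟨abs_nonneg _, (hmnA _).le⟩ ih
    have hsmono : StrictMono (fun m : ℕ => |(f c)^[m * n] 0|) := strictMono_nat_of_lt_succ hstep
    have hinj : Function.Injective (fun m : ℕ => (f c)^[(m + 1) * n] 0) := by
      intro a d had
      have : |(f c)^[(a + 1) * n] 0| = |(f c)^[(d + 1) * n] 0| := by
        simp only at had
        rw [had]
      have := hsmono.injective this
      omega
    have hrange : Set.range (fun m : ℕ => (f c)^[(m + 1) * n] 0) ⊆ P c := by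
      rintro _ ⟨m, rfl⟩
      refine ⟨(m + 1) * n - 1, ?_⟩
      have : 0 < (m + 1) * n := by positivity
      rw [Nat.sub_add_cancel this]
    exact (Set.infinite_range_of_injective hinj) (hP.subset hrange)
  -- (3)
  have h3 : ∀ j, 0 < j → j < n → A < |(f c)^[j] 0| := by
    intro j hj hjn
    by_contra hcon
    push Not at hcon
    -- (3a)
    have hlt : |(f c)^[j] 0| < A := by
      refine lt_of_le_of_ne hcon ?_
      intro heq
      obtain ⟨i, hi0, hin, hiA⟩ := hi
      have h0 : (f c)^[i + j] 0 = 0 := by
        rw [Function.iterate_add_apply, ← n8_abs c hi0, heq, hiA]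
      rcases lt_trichotomy (i + j) n with h | h | h
      · exact he0 (i + j) (by omega) h h0
      · have : (f c)^[n] A = (f c)^[j] 0 := by
          rw [← h, add_comm, Function.iterate_add_apply, hiA]
        rw [this, heq] at hA3
        exact lt_irrefl _ hA3
      · have h1' := h1 (i + j - n) (by omega) (by omega)
        rw [show n + (i + j - n) = i + j by omega, h0, mul_zero] at h1'
        exact lt_irrefl _ h1'
    -- (3b)
    have h3b : ∀ k, 0 < k → k < n → 0 < (f c)^[k] 0 * (f c)^[k + j] 0 := by
      intro k hk hkn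
      rw [Function.iterate_add_apply]
      exact hsig _ hlt k hk hkn
    have hnj := h3b (n - j) (by omega) (by omega)
    rw [show n - j + j = n by omega] at hnj
    have hen : (f c)^[n] 0 ≠ 0 := by
      intro h
      rw [h, mul_zero] at hnj
      exact lt_irrefl _ hnj
    have hFA := h2 hen
    -- (3c)
    have hres : (0 < (f c)^[j] 0) ↔ (0 < (f c)^[n - j] 0) := by
      refine n8_resid hj hjn (fun k => 0 < (f c)^[k] 0) ?_
      intro k hk hkn hkj
      have hkb := h3b k hk hkn
      rcases lt_or_gt_of_ne hkj with h | h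
      · simp only [Nat.mod_eq_of_lt h]
        constructor
        · intro h'
          exact (pos_iff_pos_of_mul_pos hkb).1 h'
        · intro h'
          exact (pos_iff_pos_of_mul_pos hkb).2 h'
      · have hmod : (k + j) % n = k + j - n := by
          rw [Nat.mod_eq_sub_mod h.le, Nat.mod_eq_of_lt (by omega)]
        have h1' := h1 (k + j - n) (by omega) (by omega)
        rw [show n + (k + j - n) = k + j by omega] at h1'
        simp only [hmod]
        rw [pos_iff_pos_of_mul_pos hkb, pos_iff_pos_of_mul_pos h1']
    have hej : (f c)^[j] 0 ≠ 0 := he0 j hj hjn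
    have henj : (f c)^[n - j] 0 ≠ 0 := he0 (n - j) (by omega) (by omega)
    -- the common sign
    obtain ⟨s, hs, hsj, hsnj, hsn⟩ : ∃ s : ℝ, (s = 1 ∨ s = -1) ∧ 0 < s * (f c)^[j] 0 ∧
        0 < s * (f c)^[n - j] 0 ∧ 0 < s * (f c)^[n] 0 := by
      rcases lt_or_gt_of_ne hej with h | h
      · have h' : (f c)^[n - j] 0 < 0 := by
          rcases lt_or_gt_of_ne henj with h' | h'
          · exact h'
          · exact absurd (hres.2 h') (by linarith)
        have h'' : (f c)^[n] 0 < 0 := by
          by_contra hc'
          push Not at hc'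
          nlinarith
        exact ⟨-1, Or.inr rfl, by linarith, by linarith, by linarith⟩
      · have h' : 0 < (f c)^[n - j] 0 := hres.1 h
        have h'' : 0 < (f c)^[n] 0 := (pos_iff_pos_of_mul_pos hnj).1 h'
        exact ⟨1, Or.inl rfl, by linarith, by linarith, by linarith⟩
    have hsF : s * (f c)^[n] A < 0 := by
      rcases hs with rfl | rfl
      · have : 0 < (f c)^[n] 0 := by linarith
        by_contra hc'
        push Not at hc'
        nlinarith
      · have : (f c)^[n] 0 < 0 := by linarith
        by_contra hc'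
        push Not at hc'
        nlinarith
    have hss : s * s = 1 := by rcases hs with rfl | rfl <;> norm_num
    have habs_s : |s * A| = A := by
      rcases hs with rfl | rfl <;> simp [abs_of_pos hA]
    -- signs of f^j, f^(n-j) on [-A, A]
    have hsjx : ∀ x : ℝ, |x| ≤ A → 0 ≤ s * (f c)^[j] x := by
      intro x hx
      have := hsigc x hx j hj hjn
      rcases hs with rfl | rfl
      · have h' : 0 < (f c)^[j] 0 := by linarith
        by_contra hc'
        push Not at hc'
        nlinarith
      · have h' : (f c)^[j] 0 < 0 := by linarith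
        by_contra hc'
        push Not at hc'
        nlinarith
    have hsnjx : ∀ x : ℝ, |x| ≤ A → 0 ≤ s * (f c)^[n - j] x := by
      intro x hx
      have := hsigc x hx (n - j) (by omega) (by omega)
      rcases hs with rfl | rfl
      · have h' : 0 < (f c)^[n - j] 0 := by linarith
        by_contra hc'
        push Not at hc'
        nlinarith
      · have h' : (f c)^[n - j] 0 < 0 := by linarith
        by_contra hc'
        push Not at hc'
        nlinarith
    -- (3d)
    have hbig : A < |(f c)^[j] A| := by
      by_contra hc'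
      push Not at hc'
      rcases Nat.lt_or_ge j 2 with hj1 | hj2
      · have : j = 1 := by omega
        subst this
        simp only [Function.iterate_one, f] at hlt
        have h0' : |(0 : ℝ) ^ 2 + c| = -c := by
          rw [abs_of_neg (by simpa using by linarith)]
          ring
        rw [h0'] at hlt
        have h1' : √(-c) < -c := by
          rw [Real.sqrt_lt' (by linarith)]
          nlinarith
        linarith
      · refine hmin j A hjn ⟨hj2, hA, ?_, ?_⟩
        · intro k hk hkj x hx
          exact hA2 k hk (by omega) x hx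
        · intro x hx
          rw [← n8_abs c hj]
          have hxm : |x| ∈ Icc (0 : ℝ) A := ⟨abs_nonneg _, hx⟩
          have hz : (0 : ℝ) ∈ Icc (0 : ℝ) A := ⟨le_rfl, hA.le⟩
          have hAm : A ∈ Icc (0 : ℝ) A := ⟨hA.le, le_rfl⟩
          have b1 := abs_le.1 hlt.le
          have b2 := abs_le.1 hc'
          rcases hsm j hj hjn.le with hm | hm
          · have c1 := hm.monotoneOn hz hxm hxm.1
            have c2 := hm.monotoneOn hxm hAm hxm.2
            exact abs_le.2 ⟨by linarith, by linarith⟩
          · have c1 := hm.antitoneOn hz hxm hxm.1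
            have c2 := hm.antitoneOn hxm hAm hxm.2
            exact abs_le.2 ⟨by linarith, by linarith⟩
    have hsbig : A < s * (f c)^[j] A := by
      have := hsjx A hAA
      rcases hs with rfl | rfl
      · rw [one_mul] at this ⊢
        rwa [abs_of_nonneg this] at hbig
      · have h' : (f c)^[j] A ≤ 0 := by linarith
        rw [abs_of_nonpos h'] at hbig
        linarith
    have hssmall : s * (f c)^[j] 0 < A := by
      rcases hs with rfl | rfl
      · rw [one_mul]; exact lt_of_le_of_lt (le_abs_self _) hlt
      · have := neg_abs_le ((f c)^[j] 0)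
        linarith
    obtain ⟨x, hx, hxA⟩ : ∃ x ∈ Ioo (0 : ℝ) A, s * (f c)^[j] x = A := by
      have hcont : ContinuousOn (fun x : ℝ => s * (f c)^[j] x) (Icc 0 A) :=
        (continuous_const.mul (n8_cont c j)).continuousOn
      have := intermediate_value_Ioo hA.le hcont
      obtain ⟨x, hx, hxA⟩ := this ⟨hssmall, hsbig⟩
      exact ⟨x, hx, hxA⟩
    have hjx : (f c)^[j] x = s * A := by
      rw [← hxA, ← mul_assoc, hss, one_mul]
    have hFx : (f c)^[n] x = (f c)^[n - j] A := by
      have hnn : (f c)^[n] x = (f c)^[n - j] ((f c)^[j] x) := by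
        rw [← Function.iterate_add_apply, show n - j + j = n by omega]
      rw [hnn, hjx, ← n8_abs c (by omega), habs_s]
    have hjF : (f c)^[j] ((f c)^[n] x) = (f c)^[n] A := by
      rw [← Function.iterate_add_apply, add_comm, Function.iterate_add_apply, hjx,
        ← n8_abs c hn0, habs_s]
    -- (3e)
    by_cases hcase : |(f c)^[n] x| ≤ A
    · have := hsjx _ hcase
      rw [hjF] at this
      linarith
    · push Not at hcase
      have hpos := hsnjx A hAA
      rw [← hFx] at hpos
      have hgt : A < s * (f c)^[n] x := by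
        rcases hs with rfl | rfl
        · rw [one_mul] at hpos ⊢
          rwa [abs_of_nonneg hpos] at hcase
        · have h' : (f c)^[n] x ≤ 0 := by linarith
          rw [abs_of_nonpos h'] at hcase
          linarith
      have hen1 : s * (f c)^[n] 0 < A := by
        have hen1' : |(f c)^[n] 0| < A := by simpa using hmnA 1
        rcases hs with rfl | rfl
        · rw [one_mul]; exact lt_of_le_of_lt (le_abs_self _) hen1'
        · have := neg_abs_le ((f c)^[n] 0)
          linarith
      have hz : (0 : ℝ) ∈ Icc (0 : ℝ) A := ⟨le_rfl, hA.le⟩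
      have hAm : A ∈ Icc (0 : ℝ) A := ⟨hA.le, le_rfl⟩
      have hxm : x ∈ Icc (0 : ℝ) A := ⟨hx.1.le, hx.2.le⟩
      rcases hsm n hn0 le_rfl with hm | hm
      · have c1 := hm hz hxm hx.1
        have c2 := hm hxm hAm hx.2
        rcases hs with rfl | rfl
        · linarith
        · linarith
      · have c1 := hm hz hxm hx.1
        have c2 := hm hxm hAm hx.2
        rcases hs with rfl | rfl
        · linarith
        · linarith
  refine ⟨hc, hc2, hn2, hA, h3, hmnA, hsig, ?_⟩
  -- (4)
  intro x hx
  by_contra hcon
  push Not at hcon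
  have hsmx := n8_sm c (X := |x|) (K := n)
    (fun j hj hjn => by rw [n8_abs c hj]; exact hx j hj hjn) (hA.trans hcon)
  obtain ⟨i, hi0, hin, hiA⟩ := hi
  have hx' := hx i hi0 hin
  rw [← n8_abs c hi0 x] at hx'
  have hz : (0 : ℝ) ∈ Icc (0 : ℝ) |x| := ⟨le_rfl, abs_nonneg _⟩
  have hAm : A ∈ Icc (0 : ℝ) |x| := ⟨hA.le, hcon.le⟩
  have hxm : |x| ∈ Icc (0 : ℝ) |x| := ⟨abs_nonneg _, le_rfl⟩
  rcases hsmx i hi0 hin.le with hm | hm
  · have c1 := hm hz hAm hA
    have c2 := hm hAm hxm hcon
    rw [hiA] at c1 c2
    nlinarith
  · have c1 := hm hz hAm hA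
    have c2 := hm hAm hxm hcon
    rw [hiA] at c1 c2
    nlinarith

end Pool.Agent.Helper79_Real.N8b
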