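import Pool.Agent.Helper79_Real.RBase

/-!
Lemma job N8c (0 periodic gives a restrictive interval).  Definitions: Pool/Agent/Helper79_Real/{Defs,HDefs,RDefs,RBase}.lean on origin/main
(copy the folder to your working tree and `lake build Pool.Agent.Helper79_Real.RBase`).

Plain-words proof.  `0 ∈ P c` means `f^m(0) = 0` for some `m ≥ 1`; take the least such `m`.  `m ≠ 1` as `f(0) = c ≠ 0`.  So `m ≥ 2` and `f^k(0) ≠ 0` for `0 < k < m`.
By continuity there is `ε > 0` with `f^k(x) ≠ 0` for `|x| < ε`, `0 < k < m`.  `f^m` is differentiable with derivative `0` at `0` (chain rule: `f'(0) = 0`), and `f^m(0) = 0`, so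
there is `ε' > 0` with `|f^m(x)| ≤ |x|` for `|x| ≤ ε'`.  Take `b = min ε ε' ` (or half of it): `WR c m b`.
-/

namespace Pool.Agent.Helper79_Real.N8c

/-- TARGET -/
theorem wr_of_mem {c : ℝ} (hc : c < -1) (h0 : (0:ℝ) ∈ P c) : ∃ n b, WR c n b := by
  have h1 : ∃ m : ℕ, 1 ≤ m ∧ (f c)^[m] 0 = 0 := by
    obtain ⟨n, hn⟩ := h0
    exact ⟨n + 1, by omega, hn.symm⟩
  classical
  obtain ⟨hm1, hm0⟩ := Nat.find_spec h1
  have hmin : ∀ k, k < Nat.find h1 → ¬ (1 ≤ k ∧ (f c)^[k] 0 = 0) := fun k hk => Nat.find_min h1 hk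
  set m := Nat.find h1 with hmdef
  clear_value m
  have hm2 : 2 ≤ m := by
    by_contra hcon
    have hm : m = 1 := by omega
    rw [hm, Function.iterate_one] at hm0
    unfold f at hm0
    nlinarith
  have hdf : Differentiable ℝ (f c) := by
    unfold f
    fun_prop
  have hit : ∀ k : ℕ, Differentiable ℝ ((f c)^[k]) := fun k => hdf.iterate k
  have e1 : ∀ᶠ x in nhds (0 : ℝ), ∀ k ∈ Finset.Ioo 0 m, (f c)^[k] x ≠ 0 := by
    rw [Filter.eventually_all_finset]
    intro k hk
    rw [Finset.mem_Ioo] at hk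
    have hk0 : (f c)^[k] 0 ≠ 0 := fun h => hmin k hk.2 ⟨hk.1, h⟩
    exact (hit k).continuous.continuousAt.eventually_ne hk0
  have hder : HasDerivAt ((f c)^[m]) 0 0 := by
    obtain ⟨k, rfl⟩ : ∃ k, m = k + 1 := ⟨m - 1, by omega⟩
    rw [Function.iterate_succ]
    have hf0 : HasDerivAt (f c) 0 0 := by
      have h := (hasDerivAt_pow 2 (0 : ℝ)).add_const c
      unfold f
      simpa using h
    have h2 := ((hit k) (f c 0)).hasDerivAt
    have h3 := HasDerivAt.comp (0 : ℝ) h2 hf0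
    simpa using h3
  have e2 : ∀ᶠ x in nhds (0 : ℝ), |(f c)^[m] x| ≤ |x| := by
    have h2 := (hasDerivAt_iff_isLittleO.1 hder).def one_pos
    filter_upwards [h2] with x hx
    simpa [hm0] using hx
  obtain ⟨ε, hε, he⟩ := Metric.eventually_nhds_iff.1 (e1.and e2)
  refine ⟨m, ε / 2, hm2, by positivity, ?_, ?_⟩
  · intro k hk0 hkm x hx
    have hx' : dist x 0 < ε := by
      rw [Real.dist_eq, sub_zero]
      linarith
    exact (he hx').1 k (Finset.mem_Ioo.2 ⟨hk0, hkm⟩)
  · intro x hx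
    have hx' : dist x 0 < ε := by
      rw [Real.dist_eq, sub_zero]
      linarith
    exact ((he hx').2).trans hx

end Pool.Agent.Helper79_Real.N8c
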