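import Pool.Agent.Helper79_Real.Base

namespace Pool.Agent.Helper79_Real

variable {c : ℝ} {O : Finset ℝ}

/-- standing hypotheses on the parameter and on the periodic points -/
structure Ctx (c : ℝ) (O : Finset ℝ) : Prop where
  neg : c < 0
  c2pos : 0 < c ^ 2 + c
  orb : Orb c O
  PO : ∀ q ∈ P c, q ∉ O
  Plo : ∀ q ∈ P c, c ≤ q
  Phi : ∀ q ∈ P c, q ≤ c ^ 2 + c

/-- admissible positions -/
def Pos (c : ℝ) (O : Finset ℝ) (z : ℝ) : Prop := z ∉ O ∧ c ≤ z ∧ z ≤ c ^ 2 + c

theorem Ctx.posP (h : Ctx c O) {q : ℝ} (hq : q ∈ P c) : Pos c O q :=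
  ⟨h.PO q hq, h.Plo q hq, h.Phi q hq⟩

theorem f_pre {b : Bool} {z : ℝ} (hz : c ≤ z) : f c (pre c b z) = z := by
  unfold f pre
  cases b
  · simp only [Bool.false_eq_true, if_false]; rw [Real.sq_sqrt (by linarith)]; ring
  · simp only [if_true]; rw [neg_sq, Real.sq_sqrt (by linarith)]; ring

theorem lam_true (z : ℝ) : lam c true z = pre c true z := by simp [lam, pre]

theorem Ctx.pos_lam (h : Ctx c O) {z : ℝ} (hz : Pos c O z) (b : Bool) : Pos c O (lam c b z) := by
  obtain ⟨h1, h2, h3⟩ := hz
  have hneg := h.neg
  have hc2 := h.c2pos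
  cases b
  · refine ⟨?_, ?_, ?_⟩
    · intro hO
      by_cases hm : √(z - c) ≤ c ^ 2 + c
      · have e : lam c false z = √(z - c) := by simp [lam, hm]
        rw [e] at hO
        have := h.orb.maps _ hO
        unfold f at this
        rw [Real.sq_sqrt (by linarith)] at this
        apply h1; convert this using 1; ring
      · have e : lam c false z = c ^ 2 + c := by
          simp only [lam, Bool.false_eq_true, if_false]; exact min_eq_right (not_le.1 hm).le
        rw [e] at hO
        exact lt_irrefl _ (h.orb.hi _ hO)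
    · have := lamB_nonneg (c := c) hc2.le z; linarith
    · simp [lam]
  · refine ⟨?_, ?_, ?_⟩
    · intro hO
      have := h.orb.maps _ hO
      rw [lam_true, f_pre h2] at this
      exact h1 this
    · simp only [lam, if_true]
      have : √(z - c) ≤ -c := by
        rw [Real.sqrt_le_left (by linarith)]; nlinarith
      linarith
    · have := lamA_nonpos (c := c) z; linarith

/-- a visible lift is a letter and equals the clamped lift -/
theorem Ctx.lam_eq_pre (h : Ctx c O) {b : Bool} {q : ℝ} (hv : pre c b q ∈ P c) :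
    lam c b q = pre c b q := by
  cases b
  · have := h.Phi _ hv
    simp only [pre, Bool.false_eq_true, if_false] at this ⊢
    simp only [lam, Bool.false_eq_true, if_false]
    exact min_eq_left this
  · exact lam_true q

theorem lam_c (hc2 : 0 ≤ c ^ 2 + c) (b : Bool) : lam c b c = 0 := by
  cases b
  · simp only [lam, sub_self, Real.sqrt_zero, Bool.false_eq_true, if_false]; exact min_eq_left hc2
  · simp [lam]

/-- length of the path `y, u, y'` -/
noncomputable def pl (O : Finset ℝ) : ℝ → List ℝ → ℝ → ℕ
  | y, [], y' => d O y y'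
  | y, q :: u, y' => d O y q + pl O q u y'

theorem pl_head {y z y' : ℝ} (hz : z ∉ O) (v : List ℝ) :
    pl O y v y' ≤ d O y z + pl O z v y' := by
  cases v with
  | nil => exact d_tri hz
  | cons q v => simp only [pl]; have := d_tri (a := y) (e := q) hz; omega

theorem pl_append_le {y z y' : ℝ} (hz : z ∉ O) (u v : List ℝ) :
    pl O y (u ++ v) y' ≤ pl O y u z + pl O z v y' := by
  induction u generalizing y with
  | nil => exact pl_head hz v
  | cons q u ih => simp only [List.cons_append, pl]; have := @ih q; omega

theorem pl_split {y q y' : ℝ} (u v : List ℝ) :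
    pl O y (u ++ q :: v) y' = pl O y (u ++ [q]) q + pl O q v y' := by
  induction u generalizing y with
  | nil => simp [pl]
  | cons a u ih => simp only [List.cons_append, pl]; rw [ih]; omega

theorem pl_split' {y q y' : ℝ} (u v : List ℝ) :
    pl O y (u ++ q :: v) y' = pl O y u q + pl O q (q :: v) y' := by
  induction u generalizing y with
  | nil => simp [pl]
  | cons a u ih => simp only [List.cons_append, pl]; rw [ih]; simp [pl]; omega

theorem pl_snoc {y q y' : ℝ} (u : List ℝ) :
    pl O y (u ++ [q]) y' = pl O y u q + d O q y' := by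
  induction u generalizing y with
  | nil => simp [pl]
  | cons a u ih => simp only [List.cons_append, pl]; rw [ih]; omega

theorem Ctx.d_le_pl (h : Ctx c O) {y y' : ℝ} {u : List ℝ} (hu : IsW c u) :
    d O y y' ≤ pl O y u y' := by
  induction u generalizing y with
  | nil => exact le_rfl
  | cons q u ih =>
    rw [isW_cons] at hu
    simp only [pl]
    have h1 := d_tri (a := y) (e := y') (h.PO q hu.1)
    have h2 := @ih q hu.2
    omega

/-- the total length of the sections does not exceed the length -/
theorem Ctx.sec_le (h : Ctx c O) {y y' : ℝ} {u : List ℝ} (hy : Pos c O y) (hy' : Pos c O y')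
    (hu : IsW c u) :
    pl O (lam c true y) (sec c true u) (lam c (fin c true u) y')
      + pl O (lam c false y) (sec c false u) (lam c (fin c false u) y') ≤ pl O y u y' := by
  induction u generalizing y with
  | nil =>
    simp only [sec, fin, pl]
    exact (cons h.orb h.c2pos.le hy.2.1 hy'.2.1).le
  | cons q u ih =>
    rw [isW_cons] at hu
    have hq := h.posP hu.1
    have key := cons h.orb h.c2pos.le hy.2.1 hq.2.1
    have ih' := ih hq hu.2
    have pA : Pos c O (lam c true q) := h.pos_lam hq true
    have pB : Pos c O (lam c false q) := h.pos_lam hq false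
    by_cases hqc : q = c
    · simp only [sec, fin, pl, hqc, if_true, Bool.not_true, Bool.not_false]
      rw [hqc] at key ih'
      have e1 := lam_c (c := c) h.c2pos.le true
      have e2 := lam_c (c := c) h.c2pos.le false
      rw [e1, e2] at key ih'
      have h0 : (0:ℝ) ∉ O := h.orb.ne0
      have h1 := pl_head (y := lam c true y) (z := 0) (y' := lam c (fin c false u) y') h0
        (sec c false u)
      have h2 := pl_head (y := lam c false y) (z := 0) (y' := lam c (fin c true u) y') h0
        (sec c true u)
      omega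
    · simp only [fin, pl, hqc, if_false]
      have hs : ∀ b, pl O (lam c b y) (sec c b (q :: u)) (lam c (fin c b u) y')
          ≤ d O (lam c b y) (lam c b q) + pl O (lam c b q) (sec c b u) (lam c (fin c b u) y') := by
        intro b
        by_cases hv : pre c b q ∈ P c
        · simp only [sec, hqc, hv, if_true, if_false, pl]
          rw [h.lam_eq_pre hv]
        · simp only [sec, hqc, hv, if_false]
          exact pl_head (h.pos_lam hq b).1 _
      have h1 := hs true
      have h2 := hs false
      omega

/-- minimal length among the words with the same value -/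
noncomputable def mn (c : ℝ) (O : Finset ℝ) (y : ℝ) (u : List ℝ) (y' : ℝ) : ℕ :=
  sInf {n | ∃ u', IsW c u' ∧ val c u' = val c u ∧ pl O y u' y' = n}

theorem mn_le {y y' : ℝ} {u u' : List ℝ} (h1 : IsW c u') (h2 : val c u' = val c u) :
    mn c O y u y' ≤ pl O y u' y' := Nat.sInf_le ⟨u', h1, h2, rfl⟩

theorem mn_spec {y y' : ℝ} {u : List ℝ} (hu : IsW c u) :
    ∃ u', IsW c u' ∧ val c u' = val c u ∧ pl O y u' y' = mn c O y u y' :=
  Nat.sInf_mem (s := {n | ∃ u', IsW c u' ∧ val c u' = val c u ∧ pl O y u' y' = n})
    ⟨_, u, hu, rfl, rfl⟩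

theorem mn_congr {y y' : ℝ} {u u' : List ℝ} (h : val c u = val c u') :
    mn c O y u y' = mn c O y u' y' := by unfold mn; rw [h]

/-- total minimal length of the sections of level `m` -/
noncomputable def X (c : ℝ) (O : Finset ℝ) : ℕ → ℝ → List ℝ → ℝ → ℕ
  | 0, y, u, y' => mn c O y u y'
  | m + 1, y, u, y' => X c O m (lam c true y) (sec c true u) (lam c (fin c true u) y')
      + X c O m (lam c false y) (sec c false u) (lam c (fin c false u) y')

theorem X_congr {m : ℕ} {y y' : ℝ} {u u' : List ℝ} (h : val c u = val c u') :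
    X c O m y u y' = X c O m y u' y' := by
  induction m generalizing y u u' y' with
  | zero => exact mn_congr h
  | succ m ih =>
    have h' := (val_eq_iff u u').1 h
    simp only [X]
    rw [(h' true).1, (h' false).1, ih (h' true).2, ih (h' false).2]

theorem Ctx.X_le (h : Ctx c O) {m : ℕ} {y y' : ℝ} {u : List ℝ} (hy : Pos c O y)
    (hy' : Pos c O y') (hu : IsW c u) : X c O (m + 1) y u y' ≤ X c O m y u y' := by
  induction m generalizing y u y' with
  | zero =>
    obtain ⟨u', h1, h2, h3⟩ := mn_spec (O := O) (y := y) (y' := y') hu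
    rw [X_congr (m := 1) h2.symm]
    simp only [X]
    rw [← h3]
    refine le_trans (add_le_add (mn_le (isW_sec _ _) rfl) (mn_le (isW_sec _ _) rfl)) ?_
    exact h.sec_le hy hy' h1
  | succ m ih =>
    rw [X, X]
    exact add_le_add (ih (h.pos_lam hy _) (h.pos_lam hy' _) (isW_sec _ _))
      (ih (h.pos_lam hy _) (h.pos_lam hy' _) (isW_sec _ _))

theorem Ctx.X_le_pl (h : Ctx c O) {m : ℕ} {y y' : ℝ} {u : List ℝ} (hy : Pos c O y)
    (hy' : Pos c O y') (hu : IsW c u) : X c O m y u y' ≤ pl O y u y' := by
  induction m with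
  | zero => exact mn_le hu rfl
  | succ m ih => exact le_trans (h.X_le hy hy' hu) ih

theorem Ctx.X_anti (h : Ctx c O) {m n : ℕ} (hmn : m ≤ n) {y y' : ℝ} {u : List ℝ}
    (hy : Pos c O y) (hy' : Pos c O y') (hu : IsW c u) : X c O n y u y' ≤ X c O m y u y' := by
  induction hmn with
  | refl => exact le_rfl
  | step _ ih => exact le_trans (h.X_le hy hy' hu) ih

theorem Ctx.X_append (h : Ctx c O) {m : ℕ} {y z y' : ℝ} {u v : List ℝ} (hz : Pos c O z)
    (hu : IsW c u) (hv : IsW c v) :
    X c O m y (u ++ v) y' ≤ X c O m y u z + X c O m z v y' := by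
  induction m generalizing y u v z y' with
  | zero =>
    obtain ⟨u', h1, h2, h3⟩ := mn_spec (O := O) (y := y) (y' := z) hu
    obtain ⟨v', h4, h5, h6⟩ := mn_spec (O := O) (y := z) (y' := y') hv
    simp only [X]
    rw [← h3, ← h6]
    have e : val c (u' ++ v') = val c (u ++ v) := by rw [val_append, val_append, h2, h5]
    exact le_trans (mn_le (isW_append.2 ⟨h1, h4⟩) e) (pl_append_le hz.1 _ _)
  | succ m ih =>
    simp only [X, sec_append, fin_append]
    have a1 := ih (y := lam c true y) (y' := lam c (fin c (fin c true u) v) y')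
      (u := sec c true u) (v := sec c (fin c true u) v)
      (h.pos_lam hz (fin c true u)) (isW_sec _ _) (isW_sec _ _)
    have a2 := ih (y := lam c false y) (y' := lam c (fin c (fin c false u) v) y')
      (u := sec c false u) (v := sec c (fin c false u) v)
      (h.pos_lam hz (fin c false u)) (isW_sec _ _) (isW_sec _ _)
    have e : fin c false u = !(fin c true u) := by
      rw [← fin_not]; rfl
    rw [e] at a2 ⊢
    cases hb : fin c true u
    · rw [hb] at a1 a2; simp only [Bool.not_false] at *; omega
    · rw [hb] at a1 a2; simp only [Bool.not_true] at *; omega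

/-- zero loss up to level `m` -/
def ZL (c : ℝ) (O : Finset ℝ) (m : ℕ) (y : ℝ) (u : List ℝ) (y' : ℝ) : Prop :=
  pl O y u y' ≤ X c O m y u y'

theorem Ctx.zl_split (h : Ctx c O) {m : ℕ} {y z y' : ℝ} {u v : List ℝ} (hy : Pos c O y)
    (hy' : Pos c O y') (hz : Pos c O z)
    (hu : IsW c u) (hv : IsW c v) (hzl : ZL c O m y (u ++ v) y')
    (he : pl O y (u ++ v) y' = pl O y u z + pl O z v y') :
    ZL c O m y u z ∧ ZL c O m z v y' := by
  unfold ZL at *
  have h1 := h.X_append (m := m) (y := y) (y' := y') hz hu hv
  have h2 := h.X_le_pl (m := m) hy hz hu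
  have h3 := h.X_le_pl (m := m) hz hy' hv
  omega

theorem Ctx.zl_mono (h : Ctx c O) {m n : ℕ} (hmn : m ≤ n) {y y' : ℝ} {u : List ℝ}
    (hy : Pos c O y) (hy' : Pos c O y') (hu : IsW c u) (hz : ZL c O n y u y') :
    ZL c O m y u y' := le_trans hz (h.X_anti hmn hy hy' hu)

theorem Ctx.zl_sec (h : Ctx c O) {m : ℕ} {y y' : ℝ} {u : List ℝ} (hy : Pos c O y)
    (hy' : Pos c O y') (hu : IsW c u) (hz : ZL c O (m + 1) y u y') (b : Bool) :
    ZL c O m (lam c b y) (sec c b u) (lam c (fin c b u) y') := by
  unfold ZL at *
  simp only [X] at hz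
  have h1 := h.sec_le hy hy' hu
  have h2 := h.X_le_pl (m := m) (h.pos_lam hy true) (h.pos_lam hy' (fin c true u))
    (isW_sec true u)
  have h3 := h.X_le_pl (m := m) (h.pos_lam hy false) (h.pos_lam hy' (fin c false u))
    (isW_sec false u)
  cases b <;> omega

/-- in a zero loss word the lengths of the sections add up to the length -/
theorem Ctx.zl_sec_eq (h : Ctx c O) {m : ℕ} {y y' : ℝ} {u : List ℝ} (hy : Pos c O y)
    (hy' : Pos c O y') (hu : IsW c u) (hz : ZL c O (m + 1) y u y') :
    pl O (lam c true y) (sec c true u) (lam c (fin c true u) y')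
      + pl O (lam c false y) (sec c false u) (lam c (fin c false u) y') = pl O y u y' := by
  unfold ZL at *
  simp only [X] at hz
  have h1 := h.sec_le hy hy' hu
  have h2 := h.X_le_pl (m := m) (h.pos_lam hy true) (h.pos_lam hy' (fin c true u))
    (isW_sec true u)
  have h3 := h.X_le_pl (m := m) (h.pos_lam hy false) (h.pos_lam hy' (fin c false u))
    (isW_sec false u)
  omega

end Pool.Agent.Helper79_Real
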