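import Pool.Agent.Helper79_Real.RDefs

/-!
Auxiliary notions for the real non-renormalizable parameters.
-/

namespace Pool.Agent.Helper79_Real

open Set Metric

/-- conformal image of the unit disk -/
def BD (Q : Set ℂ) : Prop :=
  ∃ φ : ℂ → ℂ, DifferentiableOn ℂ φ (Metric.ball 0 1) ∧ InjOn φ (Metric.ball 0 1) ∧ φ '' Metric.ball 0 1 = Q

/-- restrictive symmetric interval `[-b, b]` of period `n` -/
structure WR (c : ℝ) (n : ℕ) (b : ℝ) : Prop where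
  hn : 2 ≤ n
  pos : 0 < b
  ne : ∀ k, 0 < k → k < n → ∀ x : ℝ, |x| < b → (f c)^[k] x ≠ 0
  maps : ∀ x : ℝ, |x| ≤ b → |(f c)^[n] x| ≤ b

/-- the data needed to renormalize in the complex plane -/
structure RD (c : ℝ) (n : ℕ) (A : ℝ) : Prop where
  hc : c < -1
  hc2 : -2 ≤ c
  hn : 2 ≤ n
  pos : 0 < A
  out : ∀ j, 0 < j → j < n → A < |(f c)^[j] 0|
  inn : ∀ m, |(f c)^[m * n] 0| < A
  int : ∀ x : ℝ, |x| < A → ∀ j, 0 < j → j < n → 0 < (f c)^[j] 0 * (f c)^[j] x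
  clo : ∀ x : ℝ, (∀ j, 0 < j → j < n → 0 ≤ (f c)^[j] 0 * (f c)^[j] x) → |x| ≤ A

/-- the closed puzzle piece of `0`: the signs of `Re f^j(z)` are those of `f^j(0)`, `0 < j < n` -/
def Cp (c : ℝ) (n : ℕ) : Set ℂ :=
  {z | ∀ j, 0 < j → j < n → 0 ≤ (f c)^[j] 0 * ((fC (c : ℂ))^[j] z).re}

/-- the region `|z|^4 < 4 b^2 (x^2/(4+δ^2) + y^2/δ^2)` (with the origin) -/
def Sd (b δ : ℝ) : Set ℂ :=
  {z | z = 0 ∨ ‖z‖ ^ 4 < 4 * b ^ 2 * (z.re ^ 2 / (4 + δ ^ 2) + z.im ^ 2 / δ ^ 2)}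

/-- the closed version of `Sd` -/
def Sdc (b δ : ℝ) : Set ℂ :=
  {z | ‖z‖ ^ 4 ≤ 4 * b ^ 2 * (z.re ^ 2 / (4 + δ ^ 2) + z.im ^ 2 / δ ^ 2)}

/-- the plane slit along the real `x` with `|x| ≥ b` -/
def Slit (b : ℝ) : Set ℂ := {z | z.im ≠ 0 ∨ |z.re| < b}

/-- `p, x, y, q` are in this order (or the reverse order) on the line -/
def M4 (p x y q : ℝ) : Prop := (p < x ∧ x < y ∧ y < q) ∨ (q < y ∧ y < x ∧ x < p)

/-- cross ratio of `x, y` in the interval with ends `p, q` -/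
noncomputable def CR (p x y q : ℝ) : ℝ := (|y - p| * |q - x|) / (|x - p| * |q - y|)

/-- no point of `s` is ever mapped to `0` -/
def ZF (c : ℝ) (s : Set ℝ) : Prop := ∀ z ∈ s, ∀ k : ℕ, (f c)^[k] z ≠ 0

end Pool.Agent.Helper79_Real
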