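import Pool.Agent.Helper79_Real.HDefs

/-!
Renormalizable quadratic polynomials.
-/

namespace Pool.Agent.Helper79_Real

/-- An open topological disk in the plane: an open set homeomorphic to the open unit disk. -/
def IsDisk (U : Set ℂ) : Prop := IsOpen U ∧ Nonempty (U ≃ₜ Metric.ball (0 : ℂ) 1)

/-- `g : U → V` is proper of degree two: it maps `U` into `V`, the preimage in `U` of every compact
subset of `V` is compact, every point of `V` has at most two preimages in `U`, and some point of `V`
has exactly two. -/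
def ProperDegTwo (g : ℂ → ℂ) (U V : Set ℂ) : Prop :=
  Set.MapsTo g U V ∧ (∀ K ⊆ V, IsCompact K → IsCompact (U ∩ g ⁻¹' K)) ∧
    (∀ w ∈ V, {z | z ∈ U ∧ g z = w}.encard ≤ 2) ∧ ∃ w ∈ V, {z | z ∈ U ∧ g z = w}.encard = 2

/-- `z^2 + c` is renormalizable: for some `n ≥ 2` there are open topological disks `U`, `V`
containing `0` with `U` compactly contained in `V` such that `f^n : U → V` is proper of degree two
and the set of the points of `U` whose orbit under `f^n` stays in `U` is connected. -/
def Renormalizable (c : ℂ) : Prop :=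
  ∃ n : ℕ, 2 ≤ n ∧ ∃ U V : Set ℂ, IsDisk U ∧ IsDisk V ∧ (0 : ℂ) ∈ U ∧ IsCompact (closure U) ∧
    closure U ⊆ V ∧ ProperDegTwo (fC c)^[n] U V ∧
    IsConnected {z | ∀ k : ℕ, ((fC c)^[n])^[k] z ∈ U}

end Pool.Agent.Helper79_Real
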