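import Pool.Agent.Helper79_Real.RBase

/-!
The iterated monodromy group of `z^2` is cyclic, so it does not have intermediate growth.
-/

namespace Pool.Agent.Helper79_Real.Z1

namespace Z1

theorem iter_zero (n : ℕ) (z : ℂ) : (fC 0)^[n] z = z ^ (2 ^ n) := by
  induction n generalizing z with
  | zero => simp
  | succ n ih =>
    rw [Function.iterate_succ_apply, ih, fC, add_zero, ← pow_mul, pow_succ']

theorem zero_mem_PC : (0 : ℂ) ∈ PC 0 := ⟨0, by simp [fC]⟩

theorem vert_ext {c t : ℂ} {v w : Vert c t} (h1 : v.1 = w.1) (h2 : (v.2 : ℂ) = w.2) : v = w := by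
  obtain ⟨n, z⟩ := v
  obtain ⟨m, z'⟩ := w
  dsimp only at h1
  subst h1
  exact congrArg (Sigma.mk n) (Subtype.ext h2)

/-- the factor -/
noncomputable def fac (k : ℤ) (n : ℕ) : ℂ := Complex.exp (2 * Real.pi * Complex.I * k / 2 ^ n)

theorem fac_pow (k : ℤ) (n : ℕ) : fac k n ^ (2 ^ n) = 1 := by
  unfold fac
  rw [← Complex.exp_nat_mul]
  have h2 : ((2 ^ n : ℕ) : ℂ) ≠ 0 := by
    exact_mod_cast (pow_pos (by norm_num : (0 : ℕ) < 2) n).ne'
  have : ((2 ^ n : ℕ) : ℂ) * (2 * Real.pi * Complex.I * k / 2 ^ n) =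
      k * (2 * Real.pi * Complex.I) := by
    push_cast at h2 ⊢
    field_simp
  rw [this]
  exact Complex.exp_int_mul_two_pi_mul_I k

theorem fac_add (k l : ℤ) (n : ℕ) : fac (k + l) n = fac l n * fac k n := by
  unfold fac
  rw [← Complex.exp_add]
  congr 1
  push_cast
  ring

theorem fac_zero (n : ℕ) : fac 0 n = 1 := by
  unfold fac
  simp

/-- the map on the vertices -/
noncomputable def rotf (t : ℂ) (k : ℤ) (v : Vert 0 t) : Vert 0 t :=
  ⟨v.1, ⟨(v.2 : ℂ) * fac k v.1, by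
    rw [iter_zero, mul_pow, fac_pow, mul_one, ← iter_zero]
    exact v.2.2⟩⟩

/-- the homomorphism to the permutations of the vertices -/
noncomputable def rot (t : ℂ) : Multiplicative ℤ →* Equiv.Perm (Vert 0 t) :=
  MonoidHom.toHomPerm
    { toFun := fun k => (rotf t k.toAdd : Function.End (Vert 0 t))
      map_one' := by
        funext v
        refine vert_ext rfl ?_
        show (v.2 : ℂ) * fac 0 v.1 = v.2
        rw [fac_zero, mul_one]
      map_mul' := by
        intro k l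
        funext v
        refine vert_ext rfl ?_
        show (v.2 : ℂ) * fac (k.toAdd + l.toAdd) v.1 = (v.2 : ℂ) * fac l.toAdd v.1 *
          fac k.toAdd v.1
        rw [fac_add, mul_assoc] }

theorem rot_apply (t : ℂ) (k : ℤ) (v : Vert 0 t) :
    rot t (Multiplicative.ofAdd k) v = rotf t k v := rfl

theorem exists_log (γ : C(unitInterval, ℂ)) (t : ℂ) (ht : t ≠ 0) (h0 : γ 0 = t)
    (hn : ∀ s, γ s ≠ 0) :
    ∃ ℓ : C(unitInterval, ℂ), ℓ 0 = 0 ∧ ∀ s, γ s = t * Complex.exp (ℓ s) := by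
  have hq : Continuous fun s => γ s / t := γ.continuous.div_const t
  have hq0 : ∀ s, γ s / t ≠ 0 := fun s => div_ne_zero (hn s) ht
  have hqn : ∀ s, ‖γ s / t‖ ≠ 0 := fun s => norm_ne_zero_iff.2 (hq0 s)
  let δ : C(unitInterval, Circle) := ⟨fun s => ⟨γ s / t / ‖γ s / t‖, by
    rw [Submonoid.unitSphere, ← SetLike.mem_coe]
    simp only [Submonoid.coe_set_mk, Subsemigroup.coe_set_mk, mem_sphere_zero_iff_norm]
    rw [norm_div, Complex.norm_real, norm_norm, div_self (hqn s)]⟩, by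
    refine Continuous.subtype_mk (hq.div ?_ fun s => ?_) _
    · exact Complex.continuous_ofReal.comp hq.norm
    · exact_mod_cast hqn s⟩
  have hδ0 : δ 0 = Circle.exp 0 := by
    apply Circle.ext
    show γ 0 / t / ‖γ 0 / t‖ = (Circle.exp 0 : ℂ)
    rw [h0, div_self ht]
    simp
  set θ := Circle.isCoveringMap_exp.liftPath δ 0 hδ0 with hθ
  have h1 : ∀ s, Circle.exp (θ s) = δ s := fun s =>
    congrFun (Circle.isCoveringMap_exp.liftPath_lifts δ 0 hδ0) s
  have h2 : θ 0 = 0 := Circle.isCoveringMap_exp.liftPath_zero δ 0 hδ0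
  refine ⟨⟨fun s => ((Real.log ‖γ s / t‖ : ℝ) : ℂ) + (θ s : ℂ) * Complex.I, ?_⟩, ?_, fun s => ?_⟩
  · refine Continuous.add ?_ ?_
    · exact Complex.continuous_ofReal.comp (hq.norm.log hqn)
    · exact (Complex.continuous_ofReal.comp θ.continuous).mul continuous_const
  · show ((Real.log ‖γ 0 / t‖ : ℝ) : ℂ) + (θ 0 : ℂ) * Complex.I = 0
    rw [h2, h0, div_self ht]
    simp
  · show γ s = t * Complex.exp (((Real.log ‖γ s / t‖ : ℝ) : ℂ) + (θ s : ℂ) * Complex.I)
    have h3 : Complex.exp ((θ s : ℂ) * Complex.I) = γ s / t / ‖γ s / t‖ := by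
      rw [← Circle.coe_exp, h1 s]
      rfl
    rw [Complex.exp_add, h3, ← Complex.ofReal_exp, Real.exp_log (norm_pos_iff.2 (hq0 s))]
    have h4 : ((‖γ s / t‖ : ℝ) : ℂ) ≠ 0 := by exact_mod_cast hqn s
    rw [mul_div_cancel₀ _ h4, mul_div_cancel₀ _ ht]

/-- lifts with the same start have the same end -/
theorem lift_end {n : ℕ} {γ : C(unitInterval, ℂ)} (hn : ∀ s, γ s ≠ 0)
    (Γ Λ : C(unitInterval, ℂ)) (h0 : Γ 0 = Λ 0) (hΓ : ∀ s, Γ s ^ (2 ^ n) = γ s)
    (hΛ : ∀ s, Λ s ^ (2 ^ n) = γ s) : Γ 1 = Λ 1 := by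
  have hΛ0 : ∀ s, Λ s ≠ 0 := by
    intro s hs
    apply hn s
    rw [← hΛ s, hs, zero_pow (pow_pos (by norm_num) n).ne']
  set T : Set ℂ := {z | z ^ (2 ^ n) = 1} with hT
  have hTf : T.Finite := by
    have : T = (Polynomial.nthRootsFinset (2 ^ n) (1 : ℂ) : Set ℂ) := by
      ext z
      rw [Finset.mem_coe, Polynomial.mem_nthRootsFinset (pow_pos (by norm_num) n)]
      rfl
    rw [this]
    exact Finset.finite_toSet _
  have : Finite T := hTf
  have hc : ContinuousOn (fun s => Γ s / Λ s) (Set.univ : Set unitInterval) :=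
    (Γ.continuous.div Λ.continuous hΛ0).continuousOn
  have hm : Set.MapsTo (fun s => Γ s / Λ s) (Set.univ : Set unitInterval) T := by
    intro s _
    show (Γ s / Λ s) ^ (2 ^ n) = 1
    rw [div_pow, hΓ, hΛ, div_self (hn s)]
  have h := isPreconnected_univ.constant_of_mapsTo hTf.isDiscrete hc hm (Set.mem_univ 0)
    (Set.mem_univ 1)
  have h1 : Γ 0 / Λ 0 = 1 := by rw [h0, div_self (hΛ0 0)]
  have h2 : Γ 1 / Λ 1 = 1 := by
    rw [← h1]
    exact h.symm
  exact (div_eq_one_iff_eq (hΛ0 1)).1 h2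

theorem gen_mem {t : ℂ} (ht : t ≠ 0) {γ : C(unitInterval, ℂ)} (h0 : γ 0 = t) (h1 : γ 1 = t)
    (hn : ∀ s, γ s ∉ PC 0) {g : Equiv.Perm (Vert 0 t)} (hg : Induces 0 t γ g) :
    g ∈ (rot t).range := by
  have hn' : ∀ s, γ s ≠ 0 := fun s hs => hn s (hs ▸ zero_mem_PC)
  obtain ⟨ℓ, hℓ0, hℓ⟩ := exists_log γ t ht h0 hn'
  have h2 : Complex.exp (ℓ 1) = 1 := by
    have := hℓ 1
    rw [h1] at this
    exact (mul_right_eq_self₀.1 this.symm).resolve_right ht
  obtain ⟨k, hk⟩ := Complex.exp_eq_one_iff.1 h2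
  refine ⟨Multiplicative.ofAdd k, ?_⟩
  ext1 v
  rw [rot_apply]
  obtain ⟨h3, Γ, hΓ0, hΓ1, hΓ⟩ := hg v
  refine vert_ext h3.symm ?_
  show (v.2 : ℂ) * fac k v.1 = (g v).2
  rw [← hΓ1]
  let Λ : C(unitInterval, ℂ) := ⟨fun s => (v.2 : ℂ) * Complex.exp (ℓ s / 2 ^ v.1), by fun_prop⟩
  have h4 := lift_end (n := v.1) hn' Γ Λ (by
    show Γ 0 = (v.2 : ℂ) * Complex.exp (ℓ 0 / 2 ^ v.1)
    rw [hΓ0, hℓ0]
    simp) (fun s => by rw [← iter_zero]; exact hΓ s) (fun s => by
    show ((v.2 : ℂ) * Complex.exp (ℓ s / 2 ^ v.1)) ^ (2 ^ v.1) = γ s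
    have h5 : (v.2 : ℂ) ^ (2 ^ v.1) = t := by
      rw [← iter_zero]
      exact v.2.2
    rw [mul_pow, h5, hℓ s, ← Complex.exp_nat_mul]
    congr 2
    push_cast
    field_simp)
  rw [h4]
  show (v.2 : ℂ) * fac k v.1 = (v.2 : ℂ) * Complex.exp (ℓ 1 / 2 ^ v.1)
  rw [hk]
  unfold fac
  congr 3
  ring

theorem ball_card {G : Type*} [Group G] (a : G) (n : ℕ) :
    (ball ({a} : Finset G) n).ncard ≤ 2 * n + 1 := by
  have h : ball ({a} : Finset G) n ⊆ (fun j : ℤ => a ^ j) '' Set.Icc (-(n : ℤ)) n := by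
    rintro g ⟨l, hl, hx, rfl⟩
    suffices h : ∃ j : ℤ, |j| ≤ l.length ∧ a ^ j = l.prod by
      obtain ⟨j, hj, hj2⟩ := h
      refine ⟨j, ?_, hj2⟩
      rw [abs_le] at hj
      constructor <;> omega
    clear hl
    induction l with
    | nil => exact ⟨0, by simp, by simp⟩
    | cons x l ih =>
      obtain ⟨j, hj, hj2⟩ := ih fun y hy => hx y (List.mem_cons_of_mem _ hy)
      rw [abs_le] at hj
      rcases hx x List.mem_cons_self with h | h
      · rw [Finset.mem_singleton] at h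
        refine ⟨1 + j, ?_, ?_⟩
        · rw [abs_le, List.length_cons]
          push_cast
          constructor <;> linarith
        · rw [List.prod_cons, ← hj2, h, zpow_add, zpow_one]
      · rw [Finset.mem_singleton] at h
        refine ⟨-1 + j, ?_, ?_⟩
        · rw [abs_le, List.length_cons]
          push_cast
          constructor <;> linarith
        · rw [List.prod_cons, ← hj2, ← h, zpow_add, zpow_neg_one, inv_inv]
  refine (Set.ncard_le_ncard h ((Set.finite_Icc _ _).image _)).trans ?_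
  refine (Set.ncard_image_le (Set.finite_Icc _ _)).trans ?_
  rw [Set.ncard_eq_toFinset_card', Set.toFinset_Icc, Int.card_Icc]
  omega

end Z1

open Z1 in
/-- TARGET -/
theorem IMG_zero (t : ℂ) (ht : t ≠ 0) : ¬ IntermediateGrowth (IMG 0 t) := by
  rintro ⟨-, h⟩
  have hle : IMG 0 t ≤ (rot t).range := by
    unfold IMG
    rw [Subgroup.closure_le]
    rintro g ⟨γ, h0, h1, hn, hg⟩
    exact gen_mem ht h0 h1 hn hg
  have hc : IsCyclic (rot t).range :=
    isCyclic_of_surjective (rot t).rangeRestrict (rot t).rangeRestrict_surjective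
  have hc2 : IsCyclic (IMG 0 t) :=
    isCyclic_of_injective (Subgroup.inclusion hle) (Subgroup.inclusion_injective hle)
  obtain ⟨a, ha⟩ := hc2.exists_generator
  have hS : Subgroup.closure ((({a} : Finset (IMG 0 t)) : Set (IMG 0 t))) = ⊤ := by
    rw [Finset.coe_singleton, ← Subgroup.zpowers_eq_closure, Subgroup.eq_top_iff']
    exact ha
  have h2 := (h {a} hS).1 2
  obtain ⟨n, hn3, hn⟩ := ((Filter.eventually_ge_atTop 3).and h2).exists
  have h3 := ball_card a n
  nlinarith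

end Pool.Agent.Helper79_Real.Z1
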