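import Pool.Agent.Helper79_Real.HFinal
import Pool.Agent.Helper79_Real.K3
import Pool.Agent.Helper79_Real.K4
import Pool.Agent.Helper79_Real.K6
import Pool.Agent.Helper79_Real.K7
import Pool.Agent.Helper79_Real.K8
import Pool.Agent.Helper79_Real.Z1
import Pool.Agent.Helper79_Real.N1
import Pool.Agent.Helper79_Real.N3
import Pool.Agent.Helper79_Real.N4
import Pool.Agent.Helper79_Real.N5
import Pool.Agent.Helper79_Real.N7
import Pool.Agent.Helper79_Real.N8a
import Pool.Agent.Helper79_Real.N8b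
import Pool.Agent.Helper79_Real.N8c

/-!
Assembly: for real parameters the exactness on the core can be replaced by non-renormalizability.
-/

namespace Pool.Agent.Helper79_Real

open Set


theorem fC_ofReal (c x : ℝ) (k : ℕ) :
    (fC (c : ℂ))^[k] (x : ℂ) = (((f c)^[k] x : ℝ) : ℂ) := by
  induction k generalizing x with
  | zero => rfl
  | succ k ih =>
    rw [Function.iterate_succ_apply, Function.iterate_succ_apply, ← ih]
    congr 1
    simp [fC, f]

theorem no_homterval {c : ℝ} (hc : c < -1) (hc2 : -2 ≤ c) (hP : (P c).Finite)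
    (h0 : (0:ℝ) ∉ P c) :
    ∀ a b : ℝ, c ≤ a → a < b → b ≤ c ^ 2 + c → ∃ x ∈ Ioo a b, ∃ k : ℕ, (f c)^[k] x = 0 := by
  intro a b ha hab hb
  by_contra hcon
  push Not at hcon
  have hL : ZF c (Ioo a b) := fun z hz k => hcon z hz k
  obtain ⟨n, m, hnm, hx⟩ := N3.no_wandering hc hc2 hP h0 ha hab hb hL
  obtain ⟨q, hq, M, hM, hM1, hM2⟩ := N4.attracting_of hc hc2 hP h0 ha hab hb hL hnm hx
  exact N5.no_attracting hc hc2 hP h0 hq hM hM1 hM2

theorem renorm_of_RD {c : ℝ} {n : ℕ} {A : ℝ} (h : RD c n A) : Renormalizable (c : ℂ) := by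
  obtain ⟨b, hAb, g, hgd, hginv, hgs, hgu⟩ := K4.inv_branch h
  obtain ⟨δ, hδ, hreal, hδ2⟩ := K6.exists_delta h hAb
  have hb : 0 < b := lt_trans h.pos hAb
  have hn := h.hn
  have hsub := K3.Sd_sub_slit hb hδ
  obtain ⟨k, rfl⟩ : ∃ k, n = k + 1 := ⟨n - 1, by omega⟩
  simp only [Nat.add_sub_cancel] at hginv hgu
  apply K7.renorm_of hn (K3.BD_Sd hb hδ) (K3.Sd_bdd hb hδ) (hgd.mono hsub)
    (fun s hs => hginv s (hsub hs))
  · have h1 : {z : ℂ | z ^ 2 + (c : ℂ) ∈ g '' Sd b δ} ⊆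
        Cp c (k + 1) ∩ (fC (c : ℂ))^[k + 1] ⁻¹' (Sdc b δ) := by
      rintro z ⟨s, hs, hsz⟩
      have e1 : ∀ j, (fC (c : ℂ))^[j + 1] z = (fC (c : ℂ))^[j] (g s) := by
        intro j
        rw [Function.iterate_succ_apply, hsz]; rfl
      constructor
      · intro j hj0 hj
        have := hgs s (hsub hs) j hj0 hj
        obtain ⟨j, rfl⟩ : ∃ i, j = i + 1 := ⟨j - 1, by omega⟩
        rw [e1]
        simpa using this.le
      · change (fC (c : ℂ))^[k + 1] z ∈ Sdc b δ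
        rw [e1, hginv s (hsub hs)]
        exact K3.Sd_sub_Sdc b δ hs
    have hfc : Continuous (fC (c : ℂ)) := by unfold fC; fun_prop
    have h2 : IsClosed (Cp c (k + 1) ∩ (fC (c : ℂ))^[k + 1] ⁻¹' (Sdc b δ)) :=
      (K6.Cp_closed c _).inter ((K3.Sdc_closed hδ).preimage (hfc.iterate _))
    intro z hz
    have h3 := closure_minimal h1 h2 hz
    exact hδ2 z h3.1 h3.2
  · intro m
    have e0 : ((0:ℝ):ℂ) = 0 := by simp
    have e1 : (fC (c : ℂ))^[(m + 1) * (k + 1)] 0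
        = (((f c)^[(m + 1) * (k + 1)] 0 : ℝ) : ℂ) := by rw [← e0, fC_ofReal]
    have e2 : (fC (c : ℂ))^[m * (k + 1) + 1] 0
        = (((f c)^[m * (k + 1) + 1] 0 : ℝ) : ℂ) := by rw [← e0, fC_ofReal]
    have hmem : (fC (c : ℂ))^[(m + 1) * (k + 1)] 0 ∈ Sd b δ := by
      rw [e1]; exact hreal _ (h.inn (m + 1)).le
    refine ⟨hmem, ?_⟩
    symm
    apply hgu _ (hsub hmem)
    · have e3 : k + (m * (k + 1) + 1) = (m + 1) * (k + 1) := by ring
      rw [← Function.iterate_add_apply, e3]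
    · intro j hj0 hj
      rw [e2, fC_ofReal, ← Function.iterate_add_apply, Complex.ofReal_re]
      have := h.int _ (h.inn m) j hj0 hj
      rw [← Function.iterate_add_apply] at this
      have e3 : j - 1 + (m * (k + 1) + 1) = j + m * (k + 1) := by omega
      rw [e3]; exact this

theorem exact_of_not_renorm {c : ℝ} (hc : c < -1) (hc2 : -2 ≤ c) (hP : (P c).Finite)
    (hnr : ¬ Renormalizable (c : ℂ)) : (0:ℝ) ∉ P c ∧
    ∀ a b : ℝ, c ≤ a → a < b → b ≤ c ^ 2 + c →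
      ∃ n : ℕ, (f c)^[n] '' Icc a b = Icc c (c ^ 2 + c) := by
  have hnW : ∀ n b, ¬ WR c n b := by
    intro n b hW
    obtain ⟨n, b, A, h1, h2, h3, h4, h5, h6, h7⟩ := N8a.min_wr hc ⟨n, b, hW⟩
    exact hnr (renorm_of_RD (N8b.rd_of hc hc2 hP h1 h2 h3 h4 h5 h6 h7))
  have h0 : (0:ℝ) ∉ P c := by
    intro h0
    obtain ⟨n, b, h⟩ := N8c.wr_of_mem hc h0
    exact hnW n b h
  exact ⟨h0, fun a b ha hab hb => N7.exact_of hc hc2 (no_homterval hc hc2 hP h0) hnW ha hab hb⟩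

theorem real_IMG (c : ℝ) (t : ℂ) (hfin : (PC (c : ℂ)).Finite) (hnr : ¬ Renormalizable (c : ℂ))
    (ht : t ∉ PC (c : ℂ)) : IntermediateGrowth (IMG (c : ℂ) t) ↔ c ≠ 0 ∧ c ≠ -2 := by
  have hP := P_of_PC hfin
  have hpos : ¬ 0 < c := fun h => P_infinite_pos h hP
  have h2 : -2 ≤ c := by
    by_contra hlt
    exact P_infinite (not_le.1 hlt) hP
  by_cases hc0 : c = 0
  · subst hc0
    have ht0 : t ≠ 0 := by
      rintro rfl
      exact ht ⟨0, by simp [fC]⟩
    constructor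
    · intro h
      exact absurd (by simpa using h) (Z1.IMG_zero t ht0)
    · rintro ⟨h, _⟩; exact absurd rfl h
  have hneg : c < 0 := lt_of_le_of_ne (not_lt.1 hpos) hc0
  have h1 : c < -1 := by
    rcases lt_trichotomy c (-1) with h | h | h
    · exact h
    · exfalso; apply hnr; rw [h]; simpa using K8.renorm_neg_one
    · exact absurd hP (N1.P_infinite_mid h hneg)
  obtain ⟨h0, hex⟩ := exact_of_not_renorm h1 h2 hP hnr
  have hc := HQ_of hP h0
  obtain ⟨e⟩ := img_growth hc ht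
  constructor
  · intro hI
    refine ⟨hc0, ?_⟩
    rintro rfl
    exact not_neg_two (V11.growth_iso e hI)
  · rintro ⟨_, hne⟩
    exact V11.growth_iso e.symm (main ⟨hP, h0, lt_of_le_of_ne h2 (Ne.symm hne), hex⟩)


end Pool.Agent.Helper79_Real
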