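import Pool.Agent.Helper79_Real.Blocks

namespace Pool.Agent.Helper79_Real.T1

variable {c : ℝ}

namespace T1

/-- strictly on the same side -/
def SS (y b y' : ℝ) : Prop := (y < b ∧ y' < b) ∨ (b < y ∧ b < y')

theorem SS.symm {y b y' : ℝ} (h : SS y b y') : SS y' b y := by unfold SS at *; tauto

theorem d_pos {O : Finset ℝ} {a b : ℝ} (h : ∃ x ∈ O, btw x a b) : 0 < d O a b := by
  classical
  obtain ⟨x, hx, hb⟩ := h
  unfold d
  exact Finset.card_pos.2 ⟨x, Finset.mem_filter.2 ⟨hx, hb⟩⟩

/-- (0) -/
theorem turn_lt {O : Finset ℝ} {u w v : ℝ} (hu : u ∉ O) (hv : v ∉ O)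
    (hs : SS u w v) (h1 : ∃ x ∈ O, btw x u w) (h2 : ∃ x ∈ O, btw x v w) :
    d O u v < d O u w + d O w v := by
  have p1 := d_pos h1
  have p2 := d_pos h2
  have c2 := d_comm O w v
  have c3 := d_comm O u v
  have c4 := d_comm O u w
  rcases hs with ⟨a1, a2⟩ | ⟨a1, a2⟩
  · rcases le_total u v with h | h
    · have := d_add hv h a2.le
      omega
    · have := d_add hu h a1.le
      omega
  · rcases le_total u v with h | h
    · have := d_add hu a1.le h
      omega
    · have := d_add hv a2.le h
      omega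

theorem Qs_mono (c : ℝ) {i j : ℕ} (hij : i ≤ j) : Qs c i ⊆ Qs c j := by
  induction hij with
  | refl => exact subset_rfl
  | step _ ih => exact fun x hx => Or.inl (Or.inl (ih hx))

theorem pos_Qs {O : Finset ℝ} (h : Ctx c O) (i : ℕ) : ∀ y ∈ Qs c i, Pos c O y := by
  induction i with
  | zero => exact fun y hy => h.posP hy
  | succ i ih =>
    rintro y ((hy | ⟨z, hz, rfl⟩) | ⟨z, hz, rfl⟩)
    · exact ih y hy
    · exact h.pos_lam (ih z hz) true
    · exact h.pos_lam (ih z hz) false

theorem lam_mem {i : ℕ} {y : ℝ} (hy : y ∈ Qs c i) (b : Bool) : lam c b y ∈ Qs c (i + 1) := by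
  cases b
  · exact Or.inr ⟨y, hy, rfl⟩
  · exact Or.inl (Or.inr ⟨y, hy, rfl⟩)

theorem sep_btw {O : Finset ℝ} {M : ℕ} (hS : Sep c O M) {a b : ℝ} (ha : a ∈ Qs c M)
    (hb : b ∈ Qs c M) (hab : a ≠ b) : ∃ x ∈ O, btw x a b := by
  rcases lt_or_gt_of_ne hab with h | h
  · obtain ⟨x, hx, h1, h2⟩ := hS a ha b hb h
    exact ⟨x, hx, Or.inl ⟨h1, h2⟩⟩
  · obtain ⟨x, hx, h1, h2⟩ := hS b hb a ha h
    exact ⟨x, hx, Or.inr ⟨h1, h2⟩⟩

theorem fin_one {b : ℝ} (hb : b ≠ c) (t : Bool) : fin c t [b] = t := by
  simp [fin, hb]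

theorem pl_sec_le {O : Finset ℝ} (h : Ctx c O) {y y' b : ℝ} (hb : b ∈ P c) (hbc : b ≠ c) (t : Bool) :
    pl O (lam c t y) (sec c t [b]) (lam c t y') ≤
      d O (lam c t y) (lam c t b) + d O (lam c t b) (lam c t y') := by
  by_cases hv : pre c t b ∈ P c
  · have e : sec c t [b] = [pre c t b] := by simp [sec, hbc, hv]
    rw [e, h.lam_eq_pre hv]
    exact le_rfl
  · have e : sec c t [b] = [] := by simp [sec, hbc, hv]
    rw [e]
    exact d_tri (h.pos_lam (h.posP hb) t).1

/-- the step -/
theorem step {O : Finset ℝ} (h : Ctx c O) {m : ℕ} {y y' b : ℝ} (hy : Pos c O y) (hy' : Pos c O y')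
    (hb : b ∈ P c) (hbc : b ≠ c) (hz : ZL c O (m + 1) y [b] y') (t : Bool)
    (hss : SS (lam c t y) (lam c t b) (lam c t y'))
    (h1 : ∃ x ∈ O, btw x (lam c t y) (lam c t b)) (h2 : ∃ x ∈ O, btw x (lam c t y') (lam c t b)) :
    pre c t b ∈ P c ∧ ZL c O m (lam c t y) [lam c t b] (lam c t y') := by
  have hw : IsW c [b] := by intro q hq; simp at hq; rw [hq]; exact hb
  have hpb := h.posP hb
  have hv : pre c t b ∈ P c := by
    by_contra hv
    have hsum := h.zl_sec_eq hy hy' hw hz
    rw [fin_one hbc, fin_one hbc] at hsum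
    have c1 := cons h.orb h.c2pos.le hy.2.1 hpb.2.1
    have c2 := cons h.orb h.c2pos.le hpb.2.1 hy'.2.1
    have e : sec c t [b] = [] := by simp [sec, hbc, hv]
    have lt := turn_lt (h.pos_lam hy t).1 (h.pos_lam hy' t).1 hss h1 h2
    have l1 := pl_sec_le h (y := y) (y' := y') hb hbc (!t)
    have e2 : pl O (lam c t y) (sec c t [b]) (lam c t y') = d O (lam c t y) (lam c t y') := by
      rw [e]; rfl
    have e3 : pl O y [b] y' = d O y b + d O b y' := rfl
    rw [e3] at hsum
    cases t
    · rw [e2] at hsum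
      simp only [Bool.not_false] at l1
      omega
    · rw [e2] at hsum
      simp only [Bool.not_true] at l1
      omega
  refine ⟨hv, ?_⟩
  have := h.zl_sec hy hy' hw hz t
  rw [fin_one hbc] at this
  have e : sec c t [b] = [pre c t b] := by simp [sec, hbc, hv]
  rw [e, ← h.lam_eq_pre hv] at this
  exact this

theorem g_lt {x y : ℝ} (hx : c ≤ x) (hxy : x < y) : lam c true y < lam c true x := by
  unfold lam
  simp only [if_true]
  have := Real.sqrt_lt_sqrt (by linarith : 0 ≤ x - c) (by linarith : x - c < y - c)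
  linarith

theorem g_core (h : Hyp c) {b : ℝ} (h1 : c < b) (h2 : b < c ^ 2 + c) :
    c < lam c true b ∧ lam c true b < 0 := by
  unfold lam
  simp only [if_true]
  have := h.neg
  have h3 : 0 < √(b - c) := Real.sqrt_pos.2 (by linarith)
  have h4 : √(b - c) < -c := by
    rw [Real.sqrt_lt' (by linarith)]
    nlinarith
  constructor <;> linarith

theorem key (h : Hyp c) {O : Finset ℝ} (hO : Ctx c O) {M : ℕ} (hS : Sep c O M) (m : ℕ) :
    ∀ (i : ℕ) (y y' b : ℝ), i + m ≤ M → y ∈ Qs c i → y' ∈ Qs c i → b ∈ P c → c < b →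
      b < c ^ 2 + c → SS y b y' → ZL c O m y [b] y' → ∀ j ≤ m, (lam c true)^[j] b ∈ P c := by
  induction m with
  | zero =>
    intro i y y' b _ _ _ hb _ _ _ _ j hj
    have : j = 0 := by omega
    subst this
    exact hb
  | succ m ih =>
    intro i y y' b hi hy hy' hb hcb hb2 hss hz j hj
    have py := pos_Qs hO i y hy
    have py' := pos_Qs hO i y' hy'
    have gss : SS (lam c true y) (lam c true b) (lam c true y') := by
      rcases hss with ⟨a1, a2⟩ | ⟨a1, a2⟩
      · exact Or.inr ⟨g_lt py.2.1 a1, g_lt py'.2.1 a2⟩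
      · exact Or.inl ⟨g_lt hcb.le a1, g_lt hcb.le a2⟩
    have mb : lam c true b ∈ Qs c (i + 1) := lam_mem (Qs_mono c (Nat.zero_le i) hb) true
    have hle : Qs c (i + 1) ⊆ Qs c M := Qs_mono c (by omega)
    have n1 : lam c true y ≠ lam c true b := by
      rcases gss with h | h
      · exact h.1.ne
      · exact h.1.ne'
    have n2 : lam c true y' ≠ lam c true b := by
      rcases gss with h | h
      · exact h.2.ne
      · exact h.2.ne'
    obtain ⟨s1, s2⟩ := step hO py py' hb hcb.ne' hz true gss
      (sep_btw hS (hle (lam_mem hy true)) (hle mb) n1)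
      (sep_btw hS (hle (lam_mem hy' true)) (hle mb) n2)
    have hgb : lam c true b ∈ P c := by rw [hO.lam_eq_pre s1]; exact s1
    obtain ⟨g1, g2⟩ := g_core h hcb hb2
    cases j with
    | zero => exact hb
    | succ j =>
      rw [Function.iterate_succ_apply]
      exact ih (i + 1) _ _ _ (by omega) (lam_mem hy true) (lam_mem hy' true) hgb g1
        (by linarith [h.c2pos]) gss s2 j (by omega)

theorem lam_le_zero (z : ℝ) : lam c true z ≤ 0 := lamA_nonpos z

theorem g_inj {x y : ℝ} (hx : c ≤ x) (hy : c ≤ y) (hxy : lam c true x = lam c true y) : x = y := by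
  rcases lt_trichotomy x y with h | h | h
  · exact absurd hxy (g_lt hx h).ne'
  · exact h
  · exact absurd hxy (g_lt hy h).ne

theorem f_lam {z : ℝ} (hz : c ≤ z) : f c (lam c true z) = z := by
  rw [lam_true, f_pre hz]

/-- (2) -/
theorem fixed (h : Hyp c) {b : ℝ} (hcb : c < b) (hall : ∀ j ≤ (Pf c).card, (lam c true)^[j] b ∈ P c) :
    b < 0 ∧ lam c true b = b := by
  classical
  have hlo : ∀ j ≤ (Pf c).card, c ≤ (lam c true)^[j] b := fun j hj => (h.Pbd (hall j hj)).1
  -- pigeonhole
  obtain ⟨i, hi, j, hj, hij, he⟩ : ∃ i ∈ Finset.range ((Pf c).card + 1),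
      ∃ j ∈ Finset.range ((Pf c).card + 1), i ≠ j ∧ (lam c true)^[i] b = (lam c true)^[j] b := by
    apply Finset.exists_ne_map_eq_of_card_lt_of_maps_to (t := Pf c)
    · rw [Finset.card_range]; omega
    · intro j hj
      have : j ≤ (Pf c).card := by simpa using Nat.lt_succ_iff.1 (Finset.mem_range.1 hj)
      exact (mem_Pf h).2 (hall j this)
  rw [Finset.mem_range, Nat.lt_succ_iff] at hi hj
  have hcancel : ∀ i k : ℕ, i + k ≤ (Pf c).card → (lam c true)^[i] b = (lam c true)^[i + k] b →
      b = (lam c true)^[k] b := by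
    intro i
    induction i with
    | zero => intro k _ h; simpa using h
    | succ i ih =>
      intro k hk he
      apply ih k (by omega)
      have e : i + 1 + k = i + k + 1 := by ring
      rw [e, Function.iterate_succ_apply', Function.iterate_succ_apply'] at he
      exact g_inj (hlo i (by omega)) (hlo (i + k) (by omega)) he
  obtain ⟨k, hk1, hkc, hk⟩ : ∃ k, 1 ≤ k ∧ k ≤ (Pf c).card ∧ b = (lam c true)^[k] b := by
    rcases lt_or_gt_of_ne hij with hlt | hlt
    · exact ⟨j - i, by omega, by omega, hcancel i (j - i) (by omega) (by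
        rw [he]; congr 1; omega)⟩
    · exact ⟨i - j, by omega, by omega, hcancel j (i - j) (by omega) (by
        rw [← he]; congr 1; omega)⟩
  have hb0 : b < 0 := by
    have h1 : b ≤ 0 := by
      obtain ⟨k, rfl⟩ := Nat.exists_eq_add_of_le' hk1
      rw [hk, Function.iterate_succ_apply']
      exact lam_le_zero _
    refine lt_of_le_of_ne h1 fun h2 => ?_
    have h3 := hall 0 (Nat.zero_le _)
    simp only [Function.iterate_zero, id] at h3
    exact h.nz (h2 ▸ h3)
  -- all iterates are in the orbit
  have hper : ∀ n, (lam c true)^[n] b ∈ P c := by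
    intro n
    have h1 : Function.IsPeriodicPt (lam c true) k b := hk.symm
    have h2 := h1.iterate_mod_apply n
    rw [← h2]
    exact hall _ (by have := Nat.mod_lt n (by omega : k > 0); omega)
  have hge : ∀ n, c ≤ (lam c true)^[n] b := fun n => (h.Pbd (hper n)).1
  -- `g (g b) = b`
  have hgg : lam c true (lam c true b) = b := by
    by_contra hne
    have two : ∀ n, (lam c true)^[2 * (n + 1)] b =
        lam c true (lam c true ((lam c true)^[2 * n] b)) := by
      intro n
      rw [show 2 * (n + 1) = 2 * n + 1 + 1 by ring, Function.iterate_succ_apply',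
        Function.iterate_succ_apply']
    have hmono : ∀ x y, c ≤ x → c ≤ y → c ≤ lam c true x → c ≤ lam c true y → x < y →
        lam c true (lam c true x) < lam c true (lam c true y) := by
      intro x y hx _ _ hgy hxy
      exact g_lt hgy (g_lt hx hxy)
    have h2k : (lam c true)^[2 * k] b = b := by
      rw [two_mul, Function.iterate_add_apply, ← hk, ← hk]
    rcases lt_or_gt_of_ne hne with hlt | hlt
    · have hs : ∀ n, (lam c true)^[2 * (n + 1)] b < (lam c true)^[2 * n] b := by
        intro n
        induction n with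
        | zero => simpa using hlt
        | succ n ih =>
          rw [two (n + 1), two n]
          have e1 := hge (2 * n)
          have e2 := hge (2 * (n + 1))
          have e3 := hge (2 * n + 1)
          have e4 := hge (2 * (n + 1) + 1)
          rw [Function.iterate_succ_apply'] at e3 e4
          have := hmono _ _ e2 e1 e4 e3 ih
          rwa [two n] at this
      have hd : ∀ n, 1 ≤ n → (lam c true)^[2 * n] b < b := by
        intro n hn
        induction hn with
        | refl => simpa using hs 0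
        | step _ ih => exact (hs _).trans ih
      exact absurd h2k (hd k hk1).ne
    · have hs : ∀ n, (lam c true)^[2 * n] b < (lam c true)^[2 * (n + 1)] b := by
        intro n
        induction n with
        | zero => simpa using hlt
        | succ n ih =>
          rw [two (n + 1), two n]
          have e1 := hge (2 * n)
          have e2 := hge (2 * (n + 1))
          have e3 := hge (2 * n + 1)
          have e4 := hge (2 * (n + 1) + 1)
          rw [Function.iterate_succ_apply'] at e3 e4
          have := hmono _ _ e1 e2 e3 e4 ih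
          rwa [two n] at this
      have hd : ∀ n, 1 ≤ n → b < (lam c true)^[2 * n] b := by
        intro n hn
        induction hn with
        | refl => simpa using hs 0
        | step _ ih => exact ih.trans (hs _)
      exact absurd h2k (hd k hk1).ne'
  refine ⟨hb0, ?_⟩
  set b' := lam c true b with hb'
  have hb'c : c ≤ b' := by
    have := hge 1
    simpa using this
  have e1 : f c b' = b := f_lam hcb.le
  have e2 : f c b = b' := by
    have := f_lam (c := c) hb'c
    rwa [hgg] at this
  have hb'0 : b' < 0 := by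
    rw [hb']
    unfold lam
    simp only [if_true]
    have : 0 < √(b - c) := Real.sqrt_pos.2 (by linarith)
    linarith
  unfold f at e1 e2
  have hprod : (b - b') * (b + b' + 1) = 0 := by ring_nf; linarith
  rcases mul_eq_zero.1 hprod with h1 | h1
  · linarith
  · exfalso
    have h2 := h.lt_neg_one
    have h3 : b * b' = c + 1 := by
      have : b' = -1 - b := by linarith
      rw [this] at e2 ⊢
      nlinarith
    nlinarith [mul_pos (neg_pos.2 hb0) (neg_pos.2 hb'0)]

/-- (3) -/
theorem neg_lt (h : Hyp c) {b : ℝ} (hcb : c < b) (hb0 : b < 0) (hf : f c b = b) :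
    -b < c ^ 2 + c := by
  by_contra hcon
  push Not at hcon
  have hc2 := h.c2pos
  obtain ⟨n, hn⟩ := h.ex b (c ^ 2 + c) hcb.le (by linarith) le_rfl
  have hJ : ∀ x ∈ Set.Icc b (c ^ 2 + c), f c x ∈ Set.Icc c b := by
    rintro x ⟨h1, h2⟩
    refine ⟨by unfold f; nlinarith, ?_⟩
    have h3 : x ^ 2 ≤ b ^ 2 := by nlinarith
    unfold f at hf ⊢
    linarith
  have hK : ∀ x ∈ Set.Icc c b, f c x ∈ Set.Icc b (c ^ 2 + c) := by
    rintro x ⟨h1, h2⟩
    refine ⟨?_, (h.maps h1 (by linarith)).2⟩
    have h3 : b ^ 2 ≤ x ^ 2 := by nlinarith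
    unfold f at hf ⊢
    linarith
  have hall : ∀ n : ℕ, (∀ x ∈ Set.Icc b (c ^ 2 + c), (f c)^[n] x ∈ Set.Icc b (c ^ 2 + c)) ∨
      (∀ x ∈ Set.Icc b (c ^ 2 + c), (f c)^[n] x ∈ Set.Icc c b) := by
    intro n
    induction n with
    | zero => left; exact fun x hx => hx
    | succ n ih =>
      rcases ih with ih | ih
      · right
        intro x hx
        rw [Function.iterate_succ_apply']
        exact hJ _ (ih x hx)
      · left
        intro x hx
        rw [Function.iterate_succ_apply']
        exact hK _ (ih x hx)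
  rcases hall n with h1 | h1
  · have : c ∈ (f c)^[n] '' Set.Icc b (c ^ 2 + c) := by
      rw [hn]; exact ⟨le_rfl, by linarith⟩
    obtain ⟨x, hx, hxe⟩ := this
    have := (h1 x hx).1
    rw [hxe] at this
    linarith
  · have : c ^ 2 + c ∈ (f c)^[n] '' Set.Icc b (c ^ 2 + c) := by
      rw [hn]; exact ⟨by linarith, le_rfl⟩
    obtain ⟨x, hx, hxe⟩ := this
    have := (h1 x hx).2
    rw [hxe] at this
    linarith

theorem B_side {b y : ℝ} (hy : c ≤ y) (hb : c < b) (hs : √(b - c) < c ^ 2 + c) :
    (y < b → lam c false y < lam c false b) ∧ (b < y → lam c false b < lam c false y) := by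
  unfold lam
  simp only [Bool.false_eq_true, if_false]
  rw [min_eq_left hs.le]
  constructor
  · intro h
    have := Real.sqrt_lt_sqrt (by linarith : 0 ≤ y - c) (by linarith : y - c < b - c)
    exact lt_of_le_of_lt (min_le_left _ _) this
  · intro h
    have := Real.sqrt_lt_sqrt (by linarith : 0 ≤ b - c) (by linarith : b - c < y - c)
    exact lt_min this hs

end T1

open T1 in
/-- TARGET -/
theorem no_turn (h : Hyp c) : ∃ M : ℕ, ∀ O : Finset ℝ, Ctx c O → Sep c O M →
    ∀ a ∈ P c, ∀ b ∈ P c, ∀ e ∈ P c, b ≠ c → b ≠ c ^ 2 + c →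
      ((a < b ∧ e < b) ∨ (b < a ∧ b < e)) → ¬ ZL c O M a [b] e := by
  refine ⟨(Pf c).card + 2, ?_⟩
  intro O hO hS a ha b hb e he hbc hbc2 hss hz
  have hcb : c < b := lt_of_le_of_ne (h.Pbd hb).1 (Ne.symm hbc)
  have hb2 : b < c ^ 2 + c := lt_of_le_of_ne (h.Pbd hb).2 hbc2
  have hall := key h hO hS ((Pf c).card + 2) 0 a e b (by omega) ha he hb hcb hb2 hss hz
  obtain ⟨hb0, hgb⟩ := fixed h hcb (fun j hj => hall j (by omega))
  have hfb : f c b = b := by
    have := f_lam (c := c) hcb.le
    rwa [hgb] at this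
  have hneg := neg_lt h hcb hb0 hfb
  have hsq : √(b - c) = -b := by
    have h1 : lam c true b = -√(b - c) := by simp [lam]
    rw [hgb] at h1
    linarith
  have hs : √(b - c) < c ^ 2 + c := by rw [hsq]; exact hneg
  have hB : lam c false b = -b := by
    unfold lam
    simp only [Bool.false_eq_true, if_false]
    rw [min_eq_left hs.le, hsq]
  have pa := hO.posP ha
  have pe := hO.posP he
  have sa := B_side pa.2.1 hcb hs
  have se := B_side pe.2.1 hcb hs
  have gss : SS (lam c false a) (lam c false b) (lam c false e) := by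
    rcases hss with ⟨a1, a2⟩ | ⟨a1, a2⟩
    · exact Or.inl ⟨sa.1 a1, se.1 a2⟩
    · exact Or.inr ⟨sa.2 a1, se.2 a2⟩
  have hle : Qs c 1 ⊆ Qs c ((Pf c).card + 2) := Qs_mono c (by omega)
  have n1 : lam c false a ≠ lam c false b := by
    rcases gss with h | h
    · exact h.1.ne
    · exact h.1.ne'
  have n2 : lam c false e ≠ lam c false b := by
    rcases gss with h | h
    · exact h.2.ne
    · exact h.2.ne'
  have ma : lam c false a ∈ Qs c (0 + 1) := lam_mem (i := 0) ha false
  have mb : lam c false b ∈ Qs c (0 + 1) := lam_mem (i := 0) hb false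
  have me : lam c false e ∈ Qs c (0 + 1) := lam_mem (i := 0) he false
  obtain ⟨s1, s2⟩ := step hO pa pe hb hbc (m := (Pf c).card + 1) hz false gss
    (sep_btw hS (hle ma) (hle mb) n1) (sep_btw hS (hle me) (hle mb) n2)
  have hgb' : lam c false b ∈ P c := by rw [hO.lam_eq_pre s1]; exact s1
  have hall' := key h hO hS ((Pf c).card + 1) 1 _ _ _ (by omega) ma me hgb'
    (by rw [hB]; linarith [h.neg]) (by rw [hB]; exact hneg) gss s2
  have := (fixed h (b := lam c false b) (by rw [hB]; linarith [h.neg])
    (fun j hj => hall' j (by omega))).1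
  rw [hB] at this
  linarith

end Pool.Agent.Helper79_Real.T1
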