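import Pool.Agent.Helper79_Real.Blocks

namespace Pool.Agent.Helper79_Real.T2

variable {c : ℝ} {O : Finset ℝ}

namespace TopOdd

theorem pl_lift (h : Orb c O) (hc2 : 0 ≤ c ^ 2 + c) {y' : ℝ} (hy' : c ≤ y') :
    ∀ {u : List ℝ} {y : ℝ}, c ≤ y → (∀ q ∈ u, c ≤ q) →
    pl O (lam c true y) (u.map (lam c true)) (lam c true y') +
      pl O (lam c false y) (u.map (lam c false)) (lam c false y') = pl O y u y'
  | [], y, hy, _ => by
    simp only [List.map_nil, pl]
    exact cons h hc2 hy hy'
  | q :: u, y, hy, hu => by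
    simp only [List.map_cons, pl]
    have h1 := cons h hc2 hy (hu q (by simp))
    have h2 := pl_lift h hc2 hy' (u := u) (hu q (by simp)) (fun a ha => hu a (List.mem_cons_of_mem _ ha))
    omega

theorem sec_map_le (h : Ctx c O) (b : Bool) {z' : ℝ} :
    ∀ {u : List ℝ} {z : ℝ}, IsW c u → (∀ q ∈ u, q ≠ c) →
    pl O z (sec c b u) z' ≤ pl O z (u.map (lam c b)) z'
  | [], z, _, _ => le_rfl
  | q :: u, z, hu, hc => by
    rw [isW_cons] at hu
    have hqc : q ≠ c := hc q (by simp)
    have ih := fun {w : ℝ} => sec_map_le h b (z' := z') (u := u) (z := w) hu.2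
      (fun a ha => hc a (List.mem_cons_of_mem _ ha))
    simp only [List.map_cons, pl]
    by_cases hv : pre c b q ∈ P c
    · simp only [sec, hqc, hv, if_true, if_false, pl]
      rw [h.lam_eq_pre hv]
      exact Nat.add_le_add_left ih _
    · simp only [sec, hqc, hv, if_false]
      exact le_trans (pl_head (h.pos_lam (h.posP hu.1) b).1 _) (Nat.add_le_add_left ih _)

theorem pl_rep0 (a z' : ℝ) : ∀ n : ℕ, pl O a (List.replicate n a) z' = d O a z'
  | 0 => rfl
  | n + 1 => by
    simp only [List.replicate_succ, pl]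
    rw [pl_rep0 a z' n, d_self, zero_add]

theorem pl_rep (a z z' : ℝ) (n : ℕ) : pl O z (List.replicate (n + 1) a) z' = d O z a + d O a z' := by
  simp only [List.replicate_succ, pl]
  rw [pl_rep0]

theorem fin_of_ne (b : Bool) : ∀ {u : List ℝ}, (∀ q ∈ u, q ≠ c) → fin c b u = b
  | [], _ => rfl
  | q :: u, hc => by
    simp only [fin, hc q (by simp), if_false]
    exact fin_of_ne b (fun a ha => hc a (List.mem_cons_of_mem _ ha))

theorem cs0 : cs c 0 = (c ^ 2 + c) ^ 2 + c := by simp [cs, f]

theorem val_rep (a : ℝ) : ∀ n : ℕ, val c (List.replicate n a) = gen c a ^ n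
  | 0 => rfl
  | n + 1 => by
    rw [List.replicate_succ, val_cons, val_rep a n, pow_succ]

open Classical in
theorem sec_false (h : Hyp c) : ∀ {v : List ℝ}, (∀ q ∈ v, cs c 0 ≤ q) →
    sec c false v = List.replicate (v.count (cs c 0)) (c ^ 2 + c)
  | [], _ => rfl
  | q :: v, h1 => by
    have hc2 := h.c2pos
    have hq := h1 q (by simp)
    have ih := sec_false h (v := v) (fun a ha => h1 a (List.mem_cons_of_mem _ ha))
    have e0 := cs0 (c := c)
    have hqc : q ≠ c := by
      intro h2
      rw [h2, e0] at hq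
      nlinarith
    simp only [sec, hqc, if_false]
    by_cases h3 : q = cs c 0
    · have e1 : pre c false q = c ^ 2 + c := by
        simp only [pre, Bool.false_eq_true, if_false]
        rw [h3, e0, add_sub_cancel_right, Real.sqrt_sq hc2.le]
      rw [e1, if_pos c2_mem, ih, h3, List.count_cons_self, List.replicate_succ]
    · have h4 : cs c 0 < q := lt_of_le_of_ne hq (Ne.symm h3)
      have h5 : pre c false q ∉ P c := by
        intro h6
        have h7 := (h.Pbd h6).2
        simp only [pre, Bool.false_eq_true, if_false] at h7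
        have h8 : c ^ 2 + c < √(q - c) := by
          rw [Real.lt_sqrt hc2.le]
          rw [e0] at h4
          linarith
        linarith
      rw [if_neg h5, ih, List.count_cons_of_ne h3]

theorem lamB_top (h : Hyp c) {q : ℝ} (hq : cs c 0 ≤ q) : lam c false q = c ^ 2 + c := by
  have hc2 := h.c2pos
  rw [cs0] at hq
  simp only [lam, Bool.false_eq_true, if_false]
  refine min_eq_right ?_
  rw [Real.le_sqrt' hc2]
  linarith

theorem lamB_lt (h : Hyp c) {q : ℝ} (hq : q < cs c 0) : lam c false q < c ^ 2 + c := by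
  have hc2 := h.c2pos
  rw [cs0] at hq
  simp only [lam, Bool.false_eq_true, if_false]
  refine lt_of_le_of_lt (min_le_left _ _) ?_
  rw [Real.sqrt_lt' hc2]
  linarith

end TopOdd

open TopOdd

open Classical in
/-- TARGET -/
theorem top_odd (h : Hyp c) (hO : Ctx c O) (hs : Sep c O 1) {v : List ℝ} {y y' : ℝ}
    (hy : y ∈ P c) (hy' : y' ∈ P c) (hv : IsW c v) (h1 : ∀ q ∈ v, cs c 0 ≤ q) (hne : v ≠ [])
    (hy3 : y < cs c 0) (hy3' : y' < cs c 0) (hz : ZL c O 1 y v y') :
    Odd (v.count (cs c 0)) := by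
  by_contra hodd
  rw [Nat.not_odd_iff_even] at hodd
  have hc2 := h.c2pos
  have hlo : ∀ q ∈ v, c ≤ q := fun q hq => (h.Pbd (hv q hq)).1
  have hnc : ∀ q ∈ v, q ≠ c := by
    intro q hq h2
    have h3 := h1 q hq
    rw [h2, cs0] at h3
    nlinarith
  have e1 := pl_lift hO.orb hc2.le (h.Pbd hy').1 (h.Pbd hy).1 hlo
  have e2 : v.map (lam c false) = List.replicate v.length (c ^ 2 + c) := by
    rw [List.eq_replicate_iff]
    refine ⟨by simp, fun b hb => ?_⟩
    obtain ⟨q, hq, rfl⟩ := List.mem_map.1 hb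
    exact lamB_top h (h1 q hq)
  obtain ⟨n, hn⟩ : ∃ n, v.length = n + 1 := ⟨v.length - 1, by have := List.length_pos_of_ne_nil hne; omega⟩
  rw [e2, hn, pl_rep] at e1
  have e3 : val c ([] : List ℝ) = val c (sec c false v) := by
    rw [sec_false h h1, val_rep, val_nil]
    obtain ⟨k, hk⟩ := hodd
    rw [hk, ← two_mul, pow_mul, pow_two, gen_mul_self, one_pow]
  unfold ZL at hz
  simp only [X, fin_of_ne _ hnc] at hz
  have e4 : mn c O (lam c false y) (sec c false v) (lam c false y') ≤
      d O (lam c false y) (lam c false y') := mn_le isW_nil e3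
  have e5 : mn c O (lam c true y) (sec c true v) (lam c true y') ≤
      pl O (lam c true y) (sec c true v) (lam c true y') := mn_le (isW_sec _ _) rfl
  have e6 := sec_map_le hO true (z' := lam c true y') (z := lam c true y) hv hnc
  have b1 := lamB_lt h hy3
  have b2 := lamB_lt h hy3'
  have p1 := (hO.pos_lam (hO.posP hy) false).1
  have p2 := (hO.pos_lam (hO.posP hy') false).1
  have hc2m : c ^ 2 + c ∈ Qs c 1 := Or.inl (Or.inl c2_mem)
  have pos : ∀ {z : ℝ}, z ∈ P c → lam c false z < c ^ 2 + c → 1 ≤ d O (lam c false z) (c ^ 2 + c) := by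
    intro z hz hlt
    obtain ⟨x, hx, hx1, hx2⟩ := hs _ (Or.inr ⟨z, hz, rfl⟩) _ hc2m hlt
    unfold d
    refine Finset.card_pos.2 ⟨x, ?_⟩
    rw [Finset.mem_filter]
    exact ⟨hx, Or.inl ⟨hx1, hx2⟩⟩
  have q1 := pos hy b1
  have q2 := pos hy' b2
  have c1 := d_comm O (c ^ 2 + c) (lam c false y')
  rcases le_total (lam c false y) (lam c false y') with hle | hle
  · have := d_add p2 hle b2.le
    omega
  · have := d_add p1 hle b1.le
    have c2 := d_comm O (lam c false y') (lam c false y)
    omega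

end Pool.Agent.Helper79_Real.T2
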