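import Pool.Agent.Helper79_Real.Blocks

namespace Pool.Agent.Helper79_Real.T3

variable {c : ℝ}

namespace T3

theorem eq_of_pw {l₁ l₂ : List ℝ} (h₁ : l₁.Pairwise (· < ·)) (h₂ : l₂.Pairwise (· < ·))
    (h : ∀ x, x ∈ l₁ ↔ x ∈ l₂) : l₁ = l₂ := by
  have n1 : l₁.Nodup := h₁.imp (fun hab => hab.ne)
  have n2 : l₂.Nodup := h₂.imp (fun hab => hab.ne)
  have hp : l₁.Perm l₂ := (List.perm_ext_iff_of_nodup n1 n2).2 h
  exact List.Perm.eq_of_pairwise (fun a b _ _ h1 h2 => absurd h2 (lt_asymm h1)) h₁ h₂ hp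

open Classical in
theorem sec_noc (b : Bool) (w : List ℝ) (hw : ∀ q ∈ w, q ≠ c) :
    sec c b w = (w.map (pre c b)).filter (fun p => decide (p ∈ P c)) ∧ fin c b w = b := by
  induction w with
  | nil => simp [sec, fin]
  | cons a w ih =>
    have ha : a ≠ c := hw a (by simp)
    obtain ⟨e1, e2⟩ := ih (fun q hq => hw q (by simp [hq]))
    refine ⟨?_, ?_⟩
    · by_cases hv : pre c b a ∈ P c
      · simp only [sec, ha, hv, if_true, if_false, e1, List.map_cons]
        rw [List.filter_cons_of_pos (by simpa using hv)]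
      · simp only [sec, ha, hv, if_false, e1, List.map_cons]
        rw [List.filter_cons_of_neg (by simpa using hv)]
    · simp only [fin, ha, if_false, e2]

theorem sec_rev (b : Bool) (w : List ℝ) (hw : ∀ q ∈ w, q ≠ c) :
    sec c b w.reverse = (sec c b w).reverse := by
  rw [(sec_noc b w.reverse (fun q hq => hw q (List.mem_reverse.1 hq))).1, (sec_noc b w hw).1,
    List.map_reverse, List.filter_reverse]

theorem mem_LA (h : Hyp c) {q : ℝ} : q ∈ LA c ↔ q ∈ P c ∧ c < q ∧ q < 0 := by
  classical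
  unfold LA
  rw [Finset.mem_sort, Finset.mem_filter, mem_Pf h]

theorem mem_LB (h : Hyp c) {q : ℝ} : q ∈ LB c ↔ q ∈ P c ∧ 0 < q ∧ q < c ^ 2 + c := by
  classical
  unfold LB
  rw [Finset.mem_sort, Finset.mem_filter, mem_Pf h]

theorem pw_LA : (LA c).Pairwise (· < ·) := (Finset.sortedLT_sort _).pairwise

theorem pw_LB : (LB c).Pairwise (· < ·) := (Finset.sortedLT_sort _).pairwise

open Classical in
/-- the increasing word -/
noncomputable def U (c : ℝ) (T : ℝ → Prop) : List ℝ :=
  (LA c ++ LB c).filter (fun q => decide (T q))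

theorem pw_AB (h : Hyp c) : (LA c ++ LB c).Pairwise (· < ·) := by
  rw [List.pairwise_append]
  refine ⟨pw_LA, pw_LB, ?_⟩
  intro a ha b hb
  have h1 := (mem_LA h).1 ha
  have h2 := (mem_LB h).1 hb
  linarith

theorem pw_U (h : Hyp c) (T : ℝ → Prop) : (U c T).Pairwise (· < ·) :=
  (pw_AB h).filter _

theorem mem_U (h : Hyp c) {T : ℝ → Prop} {q : ℝ} :
    q ∈ U c T ↔ q ∈ P c ∧ c < q ∧ q < c ^ 2 + c ∧ T q := by
  classical
  unfold U
  have hn := h.neg
  have hc := h.c2pos
  rw [List.mem_filter, List.mem_append, mem_LA h, mem_LB h, decide_eq_true_iff]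
  constructor
  · rintro ⟨(⟨h1, h2, h3⟩ | ⟨h1, h2, h3⟩), h4⟩
    · exact ⟨h1, h2, by linarith, h4⟩
    · exact ⟨h1, by linarith, h3, h4⟩
  · rintro ⟨h1, h2, h3, h4⟩
    refine ⟨?_, h4⟩
    have h0 : q ≠ 0 := fun h0 => h.nz (h0 ▸ h1)
    rcases lt_or_gt_of_ne h0 with h5 | h5
    · exact Or.inl ⟨h1, h2, h5⟩
    · exact Or.inr ⟨h1, h5, h3⟩

theorem U_ne_c (h : Hyp c) {T : ℝ → Prop} : ∀ q ∈ U c T, q ≠ c := by
  intro q hq
  exact ((mem_U h).1 hq).2.1.ne'

theorem pre_false_f {p : ℝ} (hp : 0 ≤ p) : pre c false (f c p) = p := by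
  simp only [pre, f, Bool.false_eq_true, if_false, add_sub_cancel_right]
  exact Real.sqrt_sq hp

theorem pre_true_f {p : ℝ} (hp : p ≤ 0) : pre c true (f c p) = p := by
  simp only [pre, f, if_true, add_sub_cancel_right]
  rw [Real.sqrt_sq_eq_abs, abs_of_nonpos hp]; ring

open Classical in
theorem sec_U_false (h : Hyp c) (T : ℝ → Prop) :
    sec c false (U c T) = (LB c).filter (fun p => decide (T (f c p))) ++
      (if T (f c (c ^ 2 + c)) then [c ^ 2 + c] else []) := by
  have hn := h.neg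
  have hc := h.c2pos
  apply eq_of_pw
  · rw [(sec_noc false _ (U_ne_c h)).1]
    refine List.Pairwise.filter _ ?_
    rw [List.pairwise_map]
    refine (pw_U h T).imp_of_mem ?_
    intro a b ha hb hab
    have h1 := ((mem_U h).1 ha).2.1
    simp only [pre, Bool.false_eq_true, if_false]
    exact Real.sqrt_lt_sqrt (by linarith) (by linarith)
  · rw [List.pairwise_append]
    refine ⟨pw_LB.filter _, ?_, ?_⟩
    · split_ifs
      · exact List.pairwise_singleton _ _
      · exact List.Pairwise.nil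
    · intro a ha b hb
      have h1 := (mem_LB h).1 (List.mem_of_mem_filter ha)
      split_ifs at hb
      · rw [List.mem_singleton] at hb
        rw [hb]; exact h1.2.2
      · exact absurd hb (by simp)
  · intro p
    rw [(sec_noc false _ (U_ne_c h)).1, List.mem_filter, List.mem_map, List.mem_append,
      List.mem_filter, mem_LB h, decide_eq_true_iff, decide_eq_true_iff]
    constructor
    · rintro ⟨⟨q, hq, rfl⟩, hp⟩
      obtain ⟨h1, h2, h3, h4⟩ := (mem_U h).1 hq
      have hf : f c (pre c false q) = q := f_pre h2.le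
      have hpos : 0 ≤ pre c false q := by
        simp only [pre, Bool.false_eq_true, if_false]; exact Real.sqrt_nonneg _
      have hpos' : 0 < pre c false q := lt_of_le_of_ne hpos (fun h0 => h.nz (h0 ▸ hp))
      rcases (h.Pbd hp).2.lt_or_eq with h5 | h5
      · left
        exact ⟨⟨hp, hpos', h5⟩, by rw [hf]; exact h4⟩
      · right
        rw [h5] at hf
        rw [if_pos (by rw [hf]; exact h4), List.mem_singleton, h5]
    · rintro (⟨⟨h1, h2, h3⟩, h4⟩ | h1)
      · refine ⟨⟨f c p, ?_, pre_false_f h2.le⟩, h1⟩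
        rw [mem_U h]
        have hpc : p ≠ c := by intro h5; linarith
        exact ⟨P_f h1, h.c_lt_f h1, h.f_lt_c2 h1 hpc, h4⟩
      · split_ifs at h1 with h4
        · rw [List.mem_singleton] at h1
          rw [h1]
          refine ⟨⟨f c (c ^ 2 + c), ?_, pre_false_f hc.le⟩, c2_mem⟩
          rw [mem_U h]
          have hpc : c ^ 2 + c ≠ c := (h.lt_c2).ne'
          exact ⟨P_f c2_mem, h.c_lt_f c2_mem, h.f_lt_c2 c2_mem hpc, h4⟩
        · exact absurd h1 (by simp)

open Classical in
theorem sec_U_true (h : Hyp c) (T : ℝ → Prop) :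
    sec c true (U c T) = (LA c).reverse.filter (fun p => decide (T (f c p))) := by
  have hn := h.neg
  have hc := h.c2pos
  rw [List.filter_reverse, ← List.reverse_inj, List.reverse_reverse]
  apply eq_of_pw
  · rw [List.pairwise_reverse, (sec_noc true _ (U_ne_c h)).1]
    refine List.Pairwise.filter _ ?_
    rw [List.pairwise_map]
    refine (pw_U h T).imp_of_mem ?_
    intro a b ha hb hab
    have h1 := ((mem_U h).1 ha).2.1
    simp only [pre, if_true]
    exact neg_lt_neg (Real.sqrt_lt_sqrt (by linarith) (by linarith))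
  · exact pw_LA.filter _
  · intro p
    rw [List.mem_reverse, (sec_noc true _ (U_ne_c h)).1, List.mem_filter, List.mem_map,
      List.mem_filter, mem_LA h, decide_eq_true_iff, decide_eq_true_iff]
    constructor
    · rintro ⟨⟨q, hq, rfl⟩, hp⟩
      obtain ⟨h1, h2, h3, h4⟩ := (mem_U h).1 hq
      have hf : f c (pre c true q) = q := f_pre h2.le
      have hpos : pre c true q ≤ 0 := by
        simp only [pre, if_true]; exact neg_nonpos.2 (Real.sqrt_nonneg _)
      have hpos' : pre c true q < 0 := lt_of_le_of_ne hpos (fun h0 => h.nz (h0 ▸ hp))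
      refine ⟨⟨hp, lt_of_le_of_ne (h.Pbd hp).1 ?_, hpos'⟩, by rw [hf]; exact h4⟩
      intro h5
      rw [← h5, f_c] at hf
      linarith
    · rintro ⟨⟨h1, h2, h3⟩, h4⟩
      refine ⟨⟨f c p, ?_, pre_true_f h3.le⟩, h1⟩
      rw [mem_U h]
      exact ⟨P_f h1, h.c_lt_f h1, h.f_lt_c2 h1 h2.ne', h4⟩

theorem sec_c (b : Bool) : sec c b [c] = [] ∧ fin c b [c] = !b := by
  simp [sec, fin]

theorem sec_c2_false (h : Hyp c) : sec c false [c ^ 2 + c] = [] := by
  have hpc : c ^ 2 + c ≠ c := (h.lt_c2).ne'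
  have hn := h.neg
  have e : pre c false (c ^ 2 + c) = -c := by
    simp only [pre, Bool.false_eq_true, if_false, add_sub_cancel_right]
    rw [Real.sqrt_sq_eq_abs, abs_of_neg hn]
  have hnot : pre c false (c ^ 2 + c) ∉ P c := by
    intro hp
    have h1 := (h.Pbd hp).2
    rw [e] at h1
    have := h.c2_lt
    linarith
  simp only [sec, hpc, hnot, if_false]

theorem sec_c2_true (h : Hyp c) : sec c true [c ^ 2 + c] = [c] := by
  have hpc : c ^ 2 + c ≠ c := (h.lt_c2).ne'
  have hn := h.neg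
  have e : pre c true (c ^ 2 + c) = c := by
    simp only [pre, if_true, add_sub_cancel_right]
    rw [Real.sqrt_sq_eq_abs, abs_of_neg hn]; ring
  have hp : pre c true (c ^ 2 + c) ∈ P c := by rw [e]; exact c_mem
  simp only [sec, hpc, hp, if_true, if_false]
  rw [e]

theorem fin_c2 (h : Hyp c) (b : Bool) : fin c b [c ^ 2 + c] = b := by
  have hpc : c ^ 2 + c ≠ c := (h.lt_c2).ne'
  simp only [fin, hpc, if_false]

/-- a block of four half traverses -/
theorem W_four (h : Hyp c) (S : ℕ → ℝ → Prop) (i : ℕ) :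
    W c S (4 * i) 4 = (U c (Tset S (2 * i)) ++ [c ^ 2 + c]) ++
      ((U c (Tset S (2 * i + 1))).reverse ++ [c]) := by
  classical
  have m0 : (4 * i) % 4 = 0 := by omega
  have m1 : (4 * i + 1) % 4 = 1 := by omega
  have m2 : (4 * i + 1 + 1) % 4 = 2 := by omega
  have m3 : (4 * i + 1 + 1 + 1) % 4 = 3 := by omega
  have w : W c S (4 * i) 4 = hw c S (4 * i) ++ (hw c S (4 * i + 1) ++ (hw c S (4 * i + 1 + 1) ++
      (hw c S (4 * i + 1 + 1 + 1) ++ []))) := rfl
  rw [w]
  unfold hw U
  rw [m0, m1, m2, m3]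
  simp only [if_true, one_ne_zero, if_false, OfNat.ofNat_ne_zero, OfNat.ofNat_ne_one,
    Nat.reduceEqDiff]
  rw [← List.filter_reverse, List.reverse_append, List.filter_append, List.filter_append]
  have e0 : (LA c).filter (fun q => decide (S (4 * i) q)) =
      (LA c).filter (fun q => decide (Tset S (2 * i) q)) := by
    apply List.filter_congr
    intro q hq
    have hq0 := ((mem_LA h).1 hq).2.2
    rw [decide_eq_decide]
    unfold Tset
    have e : 2 * (2 * i) = 4 * i := by ring
    rw [e]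
    constructor
    · intro h1; left; exact ⟨hq0, by omega, h1⟩
    · rintro (⟨_, _, h1⟩ | ⟨_, h1, _⟩ | ⟨h1, _⟩ | ⟨h1, _⟩)
      · exact h1
      · omega
      · exact absurd h1 (not_le.2 hq0)
      · exact absurd h1 (not_le.2 hq0)
  have e1 : (LB c).filter (fun q => decide (S (4 * i + 1) q)) =
      (LB c).filter (fun q => decide (Tset S (2 * i) q)) := by
    apply List.filter_congr
    intro q hq
    have hq0 := ((mem_LB h).1 hq).2.1
    rw [decide_eq_decide]
    unfold Tset
    have e : 2 * (2 * i) = 4 * i := by ring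
    rw [e]
    constructor
    · intro h1; right; right; left; exact ⟨hq0.le, by omega, h1⟩
    · rintro (⟨h1, _⟩ | ⟨h1, _⟩ | ⟨_, _, h1⟩ | ⟨_, h1, _⟩)
      · exact absurd h1 (not_lt.2 hq0.le)
      · exact absurd h1 (not_lt.2 hq0.le)
      · exact h1
      · omega
  have e2 : (LB c).reverse.filter (fun q => decide (S (4 * i + 1 + 1) q)) =
      (LB c).reverse.filter (fun q => decide (Tset S (2 * i + 1) q)) := by
    apply List.filter_congr
    intro q hq
    have hq0 := ((mem_LB h).1 (List.mem_reverse.1 hq)).2.1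
    rw [decide_eq_decide]
    unfold Tset
    have e : 2 * (2 * i + 1) = 4 * i + 1 + 1 := by ring
    rw [e]
    constructor
    · intro h1; right; right; right; exact ⟨hq0.le, by omega, h1⟩
    · rintro (⟨h1, _⟩ | ⟨h1, _⟩ | ⟨_, h1, _⟩ | ⟨_, _, h1⟩)
      · exact absurd h1 (not_lt.2 hq0.le)
      · exact absurd h1 (not_lt.2 hq0.le)
      · omega
      · exact h1
  have e3 : (LA c).reverse.filter (fun q => decide (S (4 * i + 1 + 1 + 1) q)) =
      (LA c).reverse.filter (fun q => decide (Tset S (2 * i + 1) q)) := by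
    apply List.filter_congr
    intro q hq
    have hq0 := ((mem_LA h).1 (List.mem_reverse.1 hq)).2.2
    rw [decide_eq_decide]
    unfold Tset
    have e : 2 * (2 * i + 1) = 4 * i + 1 + 1 := by ring
    rw [e]
    constructor
    · intro h1; right; left; exact ⟨hq0, by omega, h1⟩
    · rintro (⟨_, h1, _⟩ | ⟨_, _, h1⟩ | ⟨h1, _⟩ | ⟨h1, _⟩)
      · omega
      · exact h1
      · exact absurd h1 (not_le.2 hq0)
      · exact absurd h1 (not_le.2 hq0)
  rw [e0, e1, e2, e3]
  simp only [List.append_assoc, List.append_nil]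

/-- the sections of one block -/
theorem block (h : Hyp c) (S S' : ℕ → ℝ → Prop) (i h0 : ℕ) (hC : CC c S i)
    (hS0 : ∀ p, S' h0 p ↔ Tset S (2 * i) (f c p))
    (hS1 : ∀ p, S' (h0 + 1) p ↔ Tset S (2 * i + 1) (f c p)) (b : Bool)
    (hb : (b = false ∧ h0 % 4 = 1) ∨ (b = true ∧ h0 % 4 = 3)) :
    sec c b (W c S (4 * i) 4) = W c S' h0 2 ∧ fin c b (W c S (4 * i) 4) = !b := by
  classical
  have w : W c S' h0 2 = hw c S' h0 ++ (hw c S' (h0 + 1) ++ []) := rfl
  have hT : ∀ T : ℝ → Prop, fin c b (U c T) = b := fun T => (sec_noc b _ (U_ne_c h)).2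
  have hT' : ∀ T : ℝ → Prop, fin c b (U c T).reverse = b := fun T =>
    (sec_noc b _ (fun q hq => U_ne_c h q (List.mem_reverse.1 hq))).2
  have e0 : (fun q => decide (S' h0 q)) = fun q => decide (Tset S (2 * i) (f c q)) := by
    funext q; rw [decide_eq_decide]; exact hS0 q
  have e1 : (fun q => decide (S' (h0 + 1) q)) =
      fun q => decide (Tset S (2 * i + 1) (f c q)) := by
    funext q; rw [decide_eq_decide]; exact hS1 q
  rw [W_four h, w]
  refine ⟨?_, ?_⟩
  · rw [sec_append, fin_append, hT, fin_c2 h, sec_append, sec_append, hT', (sec_c b).1,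
      sec_rev b _ (U_ne_c h), hT]
    rcases hb with ⟨rfl, h4⟩ | ⟨rfl, h4⟩
    · have h5 : (h0 + 1) % 4 = 2 := by omega
      unfold hw
      rw [h4, h5, sec_U_false h, sec_U_false h, sec_c2_false h, e0, e1]
      simp only [if_true, one_ne_zero, if_false, OfNat.ofNat_ne_zero, OfNat.ofNat_ne_one,
        List.append_nil]
      have hC' : ¬ (Tset S (2 * i) (f c (c ^ 2 + c)) ↔ Tset S (2 * i + 1) (f c (c ^ 2 + c))) := hC
      rw [List.reverse_append, ← List.filter_reverse]
      by_cases hc1 : Tset S (2 * i) (f c (c ^ 2 + c))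
      · have hc2 : ¬ Tset S (2 * i + 1) (f c (c ^ 2 + c)) := fun hx => hC' (by tauto)
        simp [hc1, hc2]
      · have hc2 : Tset S (2 * i + 1) (f c (c ^ 2 + c)) := by
          by_contra hx; exact hC' (by tauto)
        simp [hc1, hc2]
    · have h5 : (h0 + 1) % 4 = 0 := by omega
      unfold hw
      rw [h4, h5, sec_U_true h, sec_U_true h, sec_c2_true h, e0, e1]
      rw [List.filter_reverse (l := LA c) (p := fun q => decide (Tset S (2 * i + 1) (f c q))),
        List.reverse_reverse]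
      simp
  · rw [fin_append, fin_append, fin_append, hT, fin_c2 h, hT', (sec_c b).2]

theorem gen (h : Hyp c) (S S' : ℕ → ℝ → Prop) (r : ℕ) : ∀ (i h0 : ℕ) (b : Bool),
    (∀ j, i ≤ j → j < i + r → CC c S j) →
    (∀ j p, j < r → (S' (h0 + 2 * j) p ↔ Tset S (2 * (i + j)) (f c p))) →
    (∀ j p, j < r → (S' (h0 + 2 * j + 1) p ↔ Tset S (2 * (i + j) + 1) (f c p))) →
    ((b = false ∧ h0 % 4 = 1) ∨ (b = true ∧ h0 % 4 = 3)) →
    sec c b (W c S (4 * i) (4 * r)) = W c S' h0 (2 * r) := by
  induction r with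
  | zero => intro i h0 b _ _ _ _; simp [W, sec]
  | succ r ih =>
    intro i h0 b hC h0' h1' hb
    have e1 : 4 * (r + 1) = 4 + 4 * r := by ring
    have e2 : 2 * (r + 1) = 2 + 2 * r := by ring
    have e3 : 4 * i + 4 = 4 * (i + 1) := by ring
    obtain ⟨b1, b2⟩ := block h S S' i h0 (hC i le_rfl (by omega))
      (fun p => by simpa using h0' 0 p (by omega)) (fun p => by simpa using h1' 0 p (by omega)) b hb
    rw [e1, e2, W_add, W_add, e3, sec_append, b1, b2]
    congr 1
    apply ih (i + 1) (h0 + 2) (!b)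
    · intro j hj1 hj2; exact hC j (by omega) (by omega)
    · intro j p hj
      have := h0' (j + 1) p (by omega)
      have e4 : h0 + 2 * (j + 1) = h0 + 2 + 2 * j := by ring
      have e5 : i + (j + 1) = i + 1 + j := by ring
      rw [e4, e5] at this
      exact this
    · intro j p hj
      have := h1' (j + 1) p (by omega)
      have e4 : h0 + 2 * (j + 1) = h0 + 2 + 2 * j := by ring
      have e5 : i + (j + 1) = i + 1 + j := by ring
      rw [e4, e5] at this
      exact this
    · rcases hb with ⟨rfl, h4⟩ | ⟨rfl, h4⟩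
      · right; exact ⟨rfl, by omega⟩
      · left; exact ⟨rfl, by omega⟩

end T3

/-- TARGET part 1 -/
theorem sec_W (h : Hyp c) (S : ℕ → ℝ → Prop) (i r : ℕ)
    (hC : ∀ j, i ≤ j → j < i + r → CC c S j) (b : Bool) (hb : b = decide (i % 2 = 1)) :
    sec c b (W c S (4 * i) (4 * r)) = W c (fun h p => Tset S (h - 1) (f c p)) (2 * i + 1) (2 * r) := by
  apply T3.gen h S _ r i (2 * i + 1) b hC
  · intro j p _
    have e : 2 * i + 1 + 2 * j - 1 = 2 * (i + j) := by omega
    change Tset S (2 * i + 1 + 2 * j - 1) (f c p) ↔ _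
    rw [e]
  · intro j p _
    have e : 2 * i + 1 + 2 * j + 1 - 1 = 2 * (i + j) + 1 := by omega
    change Tset S (2 * i + 1 + 2 * j + 1 - 1) (f c p) ↔ _
    rw [e]
  · rcases Nat.mod_two_eq_zero_or_one i with h1 | h1
    · left; refine ⟨by rw [hb, h1]; rfl, by omega⟩
    · right; refine ⟨by rw [hb, h1]; rfl, by omega⟩

/-- TARGET part 2 (prove both) -/
theorem sec_W' (h : Hyp c) (S : ℕ → ℝ → Prop) (i r : ℕ)
    (hC : ∀ j, i ≤ j → j < i + r → CC c S j) (b : Bool) (hb : b = decide (i % 2 = 0)) :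
    sec c b (W c S (4 * i) (4 * r)) = W c (fun h p => Tset S (h - 3) (f c p)) (2 * i + 3) (2 * r) := by
  apply T3.gen h S _ r i (2 * i + 3) b hC
  · intro j p _
    have e : 2 * i + 3 + 2 * j - 3 = 2 * (i + j) := by omega
    change Tset S (2 * i + 3 + 2 * j - 3) (f c p) ↔ _
    rw [e]
  · intro j p _
    have e : 2 * i + 3 + 2 * j + 1 - 3 = 2 * (i + j) + 1 := by omega
    change Tset S (2 * i + 3 + 2 * j + 1 - 3) (f c p) ↔ _
    rw [e]
  · rcases Nat.mod_two_eq_zero_or_one i with h1 | h1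
    · right; refine ⟨by rw [hb, h1]; rfl, by omega⟩
    · left; refine ⟨by rw [hb, h1]; rfl, by omega⟩

end Pool.Agent.Helper79_Real.T3
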