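import Pool.Agent.Helper79_Real.T2
import Pool.Agent.Helper79_Real.T3

namespace Pool.Agent.Helper79_Real.T4

open T2 (top_odd)

open T3 (sec_W sec_W')

variable {c : ℝ} {O : Finset ℝ}

theorem T4_mem_LA (h : Hyp c) {q : ℝ} : q ∈ LA c ↔ q ∈ P c ∧ c < q ∧ q < 0 := by
  classical
  unfold LA
  rw [Finset.mem_sort, Finset.mem_filter, mem_Pf h]

theorem T4_mem_LB (h : Hyp c) {q : ℝ} : q ∈ LB c ↔ q ∈ P c ∧ 0 < q ∧ q < c ^ 2 + c := by
  classical
  unfold LB
  rw [Finset.mem_sort, Finset.mem_filter, mem_Pf h]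

theorem T4_LA_lt : (LA c).Pairwise (· < ·) := by
  classical
  unfold LA
  exact (Finset.sortedLT_sort _).pairwise

theorem T4_LB_lt : (LB c).Pairwise (· < ·) := by
  classical
  unfold LB
  exact (Finset.sortedLT_sort _).pairwise

theorem T4_hw_isW (h : Hyp c) (S : ℕ → ℝ → Prop) (a : ℕ) : IsW c (hw c S a) := by
  classical
  intro q hq
  unfold hw at hq
  split_ifs at hq
  · rw [List.mem_filter] at hq; exact ((T4_mem_LA h).1 hq.1).1
  · rw [List.mem_append, List.mem_filter, List.mem_singleton] at hq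
    rcases hq with hq | hq
    · exact ((T4_mem_LB h).1 hq.1).1
    · rw [hq]; exact c2_mem
  · rw [List.mem_filter, List.mem_reverse] at hq; exact ((T4_mem_LB h).1 hq.1).1
  · rw [List.mem_append, List.mem_filter, List.mem_singleton, List.mem_reverse] at hq
    rcases hq with hq | hq
    · exact ((T4_mem_LA h).1 hq.1).1
    · rw [hq]; exact c_mem

theorem T4_W_isW (h : Hyp c) (S : ℕ → ℝ → Prop) (a n : ℕ) : IsW c (W c S a n) := by
  induction n generalizing a with
  | zero => exact isW_nil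
  | succ n ih => rw [W, isW_append]; exact ⟨T4_hw_isW h S a, ih _⟩

theorem T4_hw_shift (S : ℕ → ℝ → Prop) (k a : ℕ) :
    hw c S (4 * k + a) = hw c (fun h => S (h + 4 * k)) a := by
  unfold hw
  have e : (4 * k + a) % 4 = a % 4 := by omega
  have e2 : 4 * k + a = a + 4 * k := by omega
  rw [e, e2]

theorem T4_W_shift (S : ℕ → ℝ → Prop) (k a n : ℕ) :
    W c S (4 * k + a) n = W c (fun h => S (h + 4 * k)) a n := by
  induction n generalizing a with
  | zero => rfl
  | succ n ih => rw [W, W, T4_hw_shift, show 4 * k + a + 1 = 4 * k + (a + 1) by omega, ih]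

theorem T4_hw_last (S : ℕ → ℝ → Prop) (a : ℕ) (ha : a % 4 = 3) :
    ∃ u, hw c S a = u ++ [c] := by
  unfold hw
  rw [if_neg (by omega), if_neg (by omega), if_neg (by omega)]
  exact ⟨_, rfl⟩

theorem T4_W_last (S : ℕ → ℝ → Prop) (a n : ℕ) (ha : (a + n) % 4 = 3) :
    ∃ u, W c S a (n + 1) = u ++ [c] := by
  obtain ⟨u, hu⟩ := T4_hw_last (c := c) S (a + n) ha
  refine ⟨W c S a n ++ u, ?_⟩
  rw [W_add, W, W, hu]; simp

theorem T4_good_zero (m : ℕ) (S : ℕ → ℝ → Prop) : Good c m S 0 := by
  induction m generalizing S with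
  | zero => trivial
  | succ m ih =>
    refine ⟨fun i hi => absurd hi (by omega), ?_, ?_⟩
    · exact ih _
    · exact ih _

theorem T4_zl_nil (m : ℕ) : ZL c O m c [] c := by
  unfold ZL; simp [pl]

/-- cut on the left after a letter -/
theorem T4_cutL (hO : Ctx c O) {m : ℕ} {y q y' : ℝ} {u v : List ℝ} (hy : Pos c O y)
    (hy' : Pos c O y') (hw : IsW c (u ++ q :: v)) (hz : ZL c O m y (u ++ q :: v) y') :
    ZL c O m q v y' := by
  rw [isW_append, isW_cons] at hw
  have hq := hO.posP hw.2.1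
  have e : u ++ q :: v = (u ++ [q]) ++ v := by simp
  have hp : pl O y ((u ++ [q]) ++ v) y' = pl O y (u ++ [q]) q + pl O q v y' := by
    rw [← e]; exact pl_split u v
  refine (hO.zl_split (u := u ++ [q]) hy hy' hq ?_ hw.2.2 (by rw [← e]; exact hz) hp).2
  rw [isW_append, isW_cons]; exact ⟨hw.1, hw.2.1, isW_nil⟩

/-- cut on the right after a letter -/
theorem T4_cutR (hO : Ctx c O) {m : ℕ} {y q y' : ℝ} {u v : List ℝ} (hy : Pos c O y)
    (hy' : Pos c O y') (hw : IsW c (u ++ q :: v)) (hz : ZL c O m y (u ++ q :: v) y') :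
    ZL c O m y (u ++ [q]) q := by
  rw [isW_append, isW_cons] at hw
  have hq := hO.posP hw.2.1
  have e : u ++ q :: v = (u ++ [q]) ++ v := by simp
  have hp : pl O y ((u ++ [q]) ++ v) y' = pl O y (u ++ [q]) q + pl O q v y' := by
    rw [← e]; exact pl_split u v
  refine (hO.zl_split (u := u ++ [q]) hy hy' hq ?_ hw.2.2 (by rw [← e]; exact hz) hp).1
  rw [isW_append, isW_cons]; exact ⟨hw.1, hw.2.1, isW_nil⟩

/-- cut on the right before a letter -/
theorem T4_cutR' (hO : Ctx c O) {m : ℕ} {y q y' : ℝ} {u v : List ℝ} (hy : Pos c O y)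
    (hy' : Pos c O y') (hw : IsW c (u ++ q :: v)) (hz : ZL c O m y (u ++ q :: v) y') :
    ZL c O m y u q := by
  rw [isW_append] at hw
  have hq := hO.posP (isW_cons.1 hw.2).1
  exact (hO.zl_split hy hy' hq hw.1 hw.2 hz (pl_split' u v)).1

/-- cutting a factor which is preceded by `c` and is empty or ends with `c` -/
theorem T4_cut (hO : Ctx c O) {m : ℕ} {y y' : ℝ} {x v t : List ℝ} (hy : Pos c O y)
    (hy' : Pos c O y') (hx : ∃ x', x = x' ++ [c]) (hv : v = [] ∨ ∃ v', v = v' ++ [c])
    (hw : IsW c (x ++ v ++ t)) (hz : ZL c O m y (x ++ v ++ t) y') :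
    ZL c O m c v c := by
  obtain ⟨x', rfl⟩ := hx
  rcases hv with rfl | ⟨v', rfl⟩
  · exact T4_zl_nil m
  · have e1 : x' ++ [c] ++ (v' ++ [c]) ++ t = x' ++ c :: (v' ++ c :: t) := by simp
    rw [e1] at hw hz
    have h1 := T4_cutL hO hy hy' hw hz
    rw [isW_append, isW_cons] at hw
    exact T4_cutR hO (hO.posP hw.2.1) hy' hw.2.2 h1

/-- same, with nothing cut on the left -/
theorem T4_cut0 (hO : Ctx c O) {m : ℕ} {y' : ℝ} {v t : List ℝ} 
    (hy' : Pos c O y') (hc : c ∈ P c) (hv : v = [] ∨ ∃ v', v = v' ++ [c])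
    (hw : IsW c (v ++ t)) (hz : ZL c O m c (v ++ t) y') :
    ZL c O m c v c := by
  rcases hv with rfl | ⟨v', rfl⟩
  · exact T4_zl_nil m
  · have e1 : v' ++ [c] ++ t = v' ++ c :: t := by simp
    rw [e1] at hw hz
    exact T4_cutR hO (hO.posP hc) hy' hw hz

theorem T4_split_lt (a : ℝ) (l : List ℝ) (hl : l.Pairwise (· < ·)) :
    l = l.filter (fun q => decide (q < a)) ++ l.filter (fun q => decide (a ≤ q)) := by
  induction l with
  | nil => simp
  | cons b l ih =>
    rw [List.pairwise_cons] at hl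
    by_cases hb : b < a
    · rw [List.filter_cons_of_pos (by simpa using hb), List.filter_cons_of_neg (by simpa using hb)]
      rw [List.cons_append, ← ih hl.2]
    · rw [not_lt] at hb
      have h1 : (b :: l).filter (fun q => decide (q < a)) = [] := by
        rw [List.filter_eq_nil_iff]
        intro q hq
        rw [List.mem_cons] at hq
        rcases hq with rfl | hq
        · simpa using hb
        · have := hl.1 q hq
          simp; linarith
      have h2 : (b :: l).filter (fun q => decide (a ≤ q)) = b :: l := by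
        rw [List.filter_eq_self]
        intro q hq
        rw [List.mem_cons] at hq
        rcases hq with rfl | hq
        · simpa using hb
        · have := hl.1 q hq
          simp; linarith
      rw [h1, h2, List.nil_append]

theorem T4_split_gt (a : ℝ) (l : List ℝ) (hl : l.Pairwise (· > ·)) :
    l = l.filter (fun q => decide (a ≤ q)) ++ l.filter (fun q => decide (q < a)) := by
  induction l with
  | nil => simp
  | cons b l ih =>
    rw [List.pairwise_cons] at hl
    by_cases hb : b < a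
    · have h1 : (b :: l).filter (fun q => decide (a ≤ q)) = [] := by
        rw [List.filter_eq_nil_iff]
        intro q hq
        rw [List.mem_cons] at hq
        rcases hq with rfl | hq
        · simpa using hb
        · have := hl.1 q hq
          simp; linarith
      have h2 : (b :: l).filter (fun q => decide (q < a)) = b :: l := by
        rw [List.filter_eq_self]
        intro q hq
        rw [List.mem_cons] at hq
        rcases hq with rfl | hq
        · simpa using hb
        · have := hl.1 q hq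
          simp; linarith
      rw [h1, h2, List.nil_append]
    · rw [not_lt] at hb
      rw [List.filter_cons_of_pos (by simpa using hb), List.filter_cons_of_neg (by simpa using hb)]
      rw [List.cons_append, ← ih hl.2]

theorem T4_left (hO : Ctx c O) {m : ℕ} {y' : ℝ} {u v : List ℝ} (hc : c ∈ P c)
    (hy' : Pos c O y') (hw : IsW c (u ++ v)) (hz : ZL c O m c (u ++ v) y') :
    ∃ y ∈ P c, (y = c ∨ y ∈ u) ∧ ZL c O m y v y' := by
  rcases List.eq_nil_or_concat u with rfl | ⟨u', q, rfl⟩
  · exact ⟨c, hc, Or.inl rfl, by simpa using hz⟩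
  · have e : u'.concat q ++ v = u' ++ q :: v := by simp
    rw [e] at hw hz
    refine ⟨q, (isW_cons.1 (isW_append.1 hw).2).1, Or.inr (by simp), ?_⟩
    exact T4_cutL hO (hO.posP hc) hy' hw hz

theorem T4_right (hO : Ctx c O) {m : ℕ} {y : ℝ} {u v : List ℝ} (hc : c ∈ P c)
    (hy : Pos c O y) (hw : IsW c (u ++ (v ++ [c]))) (hz : ZL c O m y (u ++ (v ++ [c])) c) :
    ∃ y' ∈ P c, (y' = c ∨ y' ∈ v) ∧ ZL c O m y u y' := by
  cases v with
  | nil =>
    exact ⟨c, hc, Or.inl rfl, T4_cutR' hO hy (hO.posP hc) hw hz⟩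
  | cons q v =>
    rw [List.cons_append] at hw hz
    refine ⟨q, (isW_cons.1 (isW_append.1 hw).2).1, Or.inr (by simp), ?_⟩
    exact T4_cutR' hO hy (hO.posP hc) hw hz

open Classical in
theorem T4_count {l : List ℝ} (a : ℝ) (hl : l.Nodup) :
    (l.filter (fun q => decide (a ≤ q))).count a = if a ∈ l then 1 else 0 := by
  rw [(hl.filter _).count]
  simp

open Classical in
/-- `CC` for one block with zero loss at level one -/
theorem T4_cc (h : Hyp c) (hO : Ctx c O) (hs : Sep c O 1) (S : ℕ → ℝ → Prop) (i : ℕ)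
    (hz : ZL c O 1 c (W c S (4 * i) 4) c) : CC c S i := by
  have hc : c ∈ P c := c_mem
  have h3 := cs_int h 0
  have hc3 : c < cs c 0 := lt_of_le_of_ne (h.Pbd h3.1).1 (Ne.symm h3.2.1)
  have h3c : cs c 0 < c ^ 2 + c := lt_of_le_of_ne (h.Pbd h3.1).2 h3.2.2
  have h30 : cs c 0 ≠ 0 := fun e => h.nz (e ▸ h3.1)
  have hWW := T4_W_isW h S (4 * i) 4
  obtain ⟨U, hU⟩ : ∃ U, U = (LA c).filter (fun q => decide (S (4 * i) q)) ++
      (LB c).filter (fun q => decide (S (4 * i + 1) q)) := ⟨_, rfl⟩
  obtain ⟨D, hD⟩ : ∃ D, D = (LB c).reverse.filter (fun q => decide (S (4 * i + 2) q)) ++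
      (LA c).reverse.filter (fun q => decide (S (4 * i + 3) q)) := ⟨_, rfl⟩
  have hW : W c S (4 * i) 4 = U ++ [c ^ 2 + c] ++ D ++ [c] := by
    have e0 : hw c S (4 * i) = (LA c).filter (fun q => decide (S (4 * i) q)) := by
      unfold hw; rw [if_pos (by omega)]
    have e1 : hw c S (4 * i + 1) = (LB c).filter (fun q => decide (S (4 * i + 1) q)) ++ [c ^ 2 + c] := by
      unfold hw; rw [if_neg (by omega), if_pos (by omega)]
    have e2 : hw c S (4 * i + 1 + 1) = (LB c).reverse.filter (fun q => decide (S (4 * i + 2) q)) := by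
      unfold hw; rw [if_neg (by omega), if_neg (by omega), if_pos (by omega)]
    have e3 : hw c S (4 * i + 1 + 1 + 1) =
        (LA c).reverse.filter (fun q => decide (S (4 * i + 3) q)) ++ [c] := by
      unfold hw; rw [if_neg (by omega), if_neg (by omega), if_neg (by omega)]
    simp only [W]
    rw [e0, e1, e2, e3, hU, hD]
    simp
  have hUs : U.Pairwise (· < ·) := by
    rw [hU, List.pairwise_append]
    refine ⟨T4_LA_lt.filter _, T4_LB_lt.filter _, ?_⟩
    intro a ha b hb
    have h1 := (T4_mem_LA h).1 (List.mem_filter.1 ha).1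
    have h2 := (T4_mem_LB h).1 (List.mem_filter.1 hb).1
    linarith [h1.2.2, h2.2.1]
  have hDs : D.Pairwise (· > ·) := by
    rw [hD, List.pairwise_append]
    refine ⟨(List.pairwise_reverse.2 T4_LB_lt).filter _, (List.pairwise_reverse.2 T4_LA_lt).filter _, ?_⟩
    intro a ha b hb
    have h1 := (T4_mem_LB h).1 (List.mem_reverse.1 (List.mem_filter.1 ha).1)
    have h2 := (T4_mem_LA h).1 (List.mem_reverse.1 (List.mem_filter.1 hb).1)
    show b < a
    linarith [h1.2.1, h2.2.2]
  have hUn : U.Nodup := hUs.imp (fun h => ne_of_lt h)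
  have hDn : D.Nodup := hDs.imp (fun h => ne_of_gt h)
  have memU : cs c 0 ∈ U ↔ Tset S (2 * i) (cs c 0) := by
    rw [hU, List.mem_append, List.mem_filter, List.mem_filter, T4_mem_LA h, T4_mem_LB h]
    unfold Tset
    rw [show 2 * (2 * i) = 4 * i by ring]
    have ei : (2 * i) % 2 = 0 := by omega
    simp only [decide_eq_true_eq, ei]
    rcases lt_or_gt_of_ne h30 with hlt | hgt
    · have hn : ¬ (0 < cs c 0) := by linarith
      have hn' : ¬ (0 ≤ cs c 0) := by linarith
      simp [hlt, hn, hn', h3.1, hc3]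
    · have hn : ¬ (cs c 0 < 0) := by linarith
      have hn' : (0 ≤ cs c 0) := by linarith
      simp [hgt, hn, hn', h3.1, h3c]
  have memD : cs c 0 ∈ D ↔ Tset S (2 * i + 1) (cs c 0) := by
    rw [hD, List.mem_append, List.mem_filter, List.mem_filter, List.mem_reverse, List.mem_reverse,
      T4_mem_LA h, T4_mem_LB h]
    unfold Tset
    rw [show 2 * (2 * i + 1) = 4 * i + 2 by ring]
    have ei : (2 * i + 1) % 2 = 1 := by omega
    simp only [decide_eq_true_eq, ei]
    rcases lt_or_gt_of_ne h30 with hlt | hgt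
    · have hn : ¬ (0 < cs c 0) := by linarith
      have hn' : ¬ (0 ≤ cs c 0) := by linarith
      simp [hlt, hn, hn', h3.1, hc3]
    · have hn : ¬ (cs c 0 < 0) := by linarith
      have hn' : (0 ≤ cs c 0) := by linarith
      simp [hgt, hn, hn', h3.1, h3c]
  -- the split
  obtain ⟨U1, hU1⟩ : ∃ U1, U1 = U.filter (fun q => decide (q < cs c 0)) := ⟨_, rfl⟩
  obtain ⟨U2, hU2⟩ : ∃ U2, U2 = U.filter (fun q => decide (cs c 0 ≤ q)) := ⟨_, rfl⟩
  obtain ⟨D1, hD1⟩ : ∃ D1, D1 = D.filter (fun q => decide (cs c 0 ≤ q)) := ⟨_, rfl⟩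
  obtain ⟨D2, hD2⟩ : ∃ D2, D2 = D.filter (fun q => decide (q < cs c 0)) := ⟨_, rfl⟩
  have sU : U = U1 ++ U2 := by rw [hU1, hU2]; exact T4_split_lt _ _ hUs
  have sD : D = D1 ++ D2 := by rw [hD1, hD2]; exact T4_split_gt _ _ hDs
  have hW2 : W c S (4 * i) 4 = U1 ++ ((U2 ++ [c ^ 2 + c] ++ D1) ++ (D2 ++ [c])) := by
    rw [hW, sU, sD]; simp
  rw [hW2] at hz hWW
  obtain ⟨y, hyP, hy, hz1⟩ := T4_left hO hc (hO.posP hc) hWW hz
  have hWW1 := (isW_append.1 hWW).2
  obtain ⟨y', hyP', hy', hz2⟩ := T4_right hO hc (hO.posP hyP) hWW1 hz1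
  have hv := (isW_append.1 hWW1).1
  have hodd := top_odd h hO hs hyP hyP' hv ?_ ?_ ?_ ?_ hz2
  · rw [List.count_append, List.count_append, hU2, hD1, T4_count _ hUn, T4_count _ hDn] at hodd
    have e0 : List.count (cs c 0) [c ^ 2 + c] = 0 := by
      rw [List.count_eq_zero]; simp; exact h3c.ne
    rw [e0] at hodd
    unfold CC
    rw [← memU, ← memD]
    intro hiff
    by_cases hm : cs c 0 ∈ U
    · have hm' := hiff.1 hm
      rw [if_pos hm, if_pos hm'] at hodd
      revert hodd; decide
    · have hm' : cs c 0 ∉ D := fun hx => hm (hiff.2 hx)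
      rw [if_neg hm, if_neg hm'] at hodd
      revert hodd; decide
  · intro q hq
    rw [List.mem_append, List.mem_append, List.mem_singleton, hU2, hD1, List.mem_filter,
      List.mem_filter] at hq
    rcases hq with (hq | hq) | hq
    · simpa using hq.2
    · rw [hq]; exact h3c.le
    · simpa using hq.2
  · simp
  · rcases hy with rfl | hy
    · exact hc3
    · rw [hU1, List.mem_filter] at hy; simpa using hy.2
  · rcases hy' with rfl | hy'
    · exact hc3
    · rw [hD2, List.mem_filter] at hy'; simpa using hy'.2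

/-- TARGET -/
theorem zl_good (h : Hyp c) (hO : Ctx c O) (hs : Sep c O 1) (m : ℕ) (S : ℕ → ℝ → Prop) (r : ℕ)
    (hz : ZL c O m c (W c S 0 (4 * r)) c) : Good c m S r := by
  induction m generalizing S r with
  | zero => trivial
  | succ m ih =>
    rcases Nat.eq_zero_or_pos r with rfl | hr
    · exact T4_good_zero _ _
    have hc : c ∈ P c := c_mem
    have pc : Pos c O c := hO.posP hc
    have p0 : Pos c O 0 := ⟨hO.orb.ne0, h.neg.le, h.c2pos.le⟩
    have hWW := T4_W_isW h S 0 (4 * r)
    have hCC : ∀ i < r, CC c S i := by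
      intro i hi
      apply T4_cc h hO hs
      have hz1 := hO.zl_mono (m := 1) (n := m + 1) (by omega) pc pc hWW hz
      obtain ⟨e, he⟩ : ∃ e, 4 * r = 4 * i + (4 + e) := ⟨4 * r - 4 * i - 4, by omega⟩
      rw [he, W_add, W_add, ← List.append_assoc] at hz1 hWW
      rw [Nat.zero_add] at hz1 hWW
      have hl : ∃ v', W c S (4 * i) 4 = v' ++ [c] := T4_W_last S (4 * i) 3 (by omega)
      rcases Nat.eq_zero_or_pos i with rfl | hi0
      · simp only [Nat.mul_zero, W, List.nil_append] at hz1 hWW hl ⊢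
        exact T4_cut0 hO pc hc (Or.inr hl) hWW hz1
      · have hx : ∃ x', W c S 0 (4 * i) = x' ++ [c] := by
          have := T4_W_last (c := c) S 0 (4 * i - 1) (by omega)
          rwa [show 4 * i - 1 + 1 = 4 * i by omega] at this
        exact T4_cut hO pc pc hx (Or.inr hl) hWW hz1
    have hC0 : ∀ j, 0 ≤ j → j < 0 + r → CC c S j := fun j _ hj => hCC j (by omega)
    refine ⟨hCC, ?_, ?_⟩
    · -- core 0, side true
      apply ih
      have h1 := hO.zl_sec pc pc hWW hz true
      rw [lam_c h.c2pos.le, lam_c h.c2pos.le] at h1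
      have h2 := sec_W' h S 0 r hC0 true (by decide)
      simp only [Nat.mul_zero, Nat.zero_add] at h2
      rw [h2] at h1
      obtain ⟨k, e, hk, he⟩ : ∃ k e, k = (2 * r - 1) / 4 ∧ 2 * r = 1 + (4 * k + e) :=
        ⟨(2 * r - 1) / 4, (2 * r - 1) % 4, rfl, by omega⟩
      rw [← hk]
      have hWW2 := T4_W_isW h (fun h p => Tset S (h - 3) (f c p)) 3 (2 * r)
      rw [he, W_add, W_add, ← List.append_assoc] at h1 hWW2
      have hx : ∃ x', W c (fun h p => Tset S (h - 3) (f c p)) 3 1 = x' ++ [c] :=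
        T4_W_last _ 3 0 (by omega)
      have e4 : W c (fun h p => Tset S (h - 3) (f c p)) (3 + 1) (4 * k) = W c (core c 0 S) 0 (4 * k) := by
        have := T4_W_shift (c := c) (fun h p => Tset S (h - 3) (f c p)) 1 0 (4 * k)
        rw [show 3 + 1 = 4 * 1 + 0 by omega, this]
        congr 1
      rw [e4] at h1 hWW2
      have hv : W c (core c 0 S) 0 (4 * k) = [] ∨ ∃ v', W c (core c 0 S) 0 (4 * k) = v' ++ [c] := by
        rcases Nat.eq_zero_or_pos k with hk0 | hk0
        · left; rw [hk0]; rfl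
        · right
          have := T4_W_last (c := c) (core c 0 S) 0 (4 * k - 1) (by omega)
          rwa [show 4 * k - 1 + 1 = 4 * k by omega] at this
      exact T4_cut hO p0 p0 hx hv hWW2 h1
    · -- core 1, side false
      rcases Nat.lt_or_ge (2 * r) 3 with hr3 | hr3
      · rw [show (2 * r - 3) / 4 = 0 by omega]; exact T4_good_zero _ _
      apply ih
      have h1 := hO.zl_sec pc pc hWW hz false
      rw [lam_c h.c2pos.le, lam_c h.c2pos.le] at h1
      have h2 := sec_W h S 0 r hC0 false (by decide)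
      simp only [Nat.mul_zero, Nat.zero_add] at h2
      rw [h2] at h1
      obtain ⟨k, e, hk, he⟩ : ∃ k e, k = (2 * r - 3) / 4 ∧ 2 * r = 3 + (4 * k + e) :=
        ⟨(2 * r - 3) / 4, (2 * r - 3) % 4, rfl, by omega⟩
      rw [← hk]
      have hWW2 := T4_W_isW h (fun h p => Tset S (h - 1) (f c p)) 1 (2 * r)
      rw [he, W_add, W_add, ← List.append_assoc] at h1 hWW2
      have hx : ∃ x', W c (fun h p => Tset S (h - 1) (f c p)) 1 3 = x' ++ [c] :=
        T4_W_last _ 1 2 (by omega)
      have e4 : W c (fun h p => Tset S (h - 1) (f c p)) (1 + 3) (4 * k) = W c (core c 1 S) 0 (4 * k) := by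
        have := T4_W_shift (c := c) (fun h p => Tset S (h - 1) (f c p)) 1 0 (4 * k)
        rw [show 1 + 3 = 4 * 1 + 0 by omega, this]
        congr 1
      rw [e4] at h1 hWW2
      have hv : W c (core c 1 S) 0 (4 * k) = [] ∨ ∃ v', W c (core c 1 S) 0 (4 * k) = v' ++ [c] := by
        rcases Nat.eq_zero_or_pos k with hk0 | hk0
        · left; rw [hk0]; rfl
        · right
          have := T4_W_last (c := c) (core c 1 S) 0 (4 * k - 1) (by omega)
          rwa [show 4 * k - 1 + 1 = 4 * k by omega] at this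
      exact T4_cut hO p0 p0 hx hv hWW2 h1

end Pool.Agent.Helper79_Real.T4
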