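import Pool.Agent.Helper79_Real.Blocks

/-!
Lemma job T5 (the bits of a periodic letter are periodic).
-/

namespace Pool.Agent.Helper79_Real.T5

variable {c : ℝ}

theorem good_mono : ∀ {m m' : ℕ} {S : ℕ → ℝ → Prop} {r : ℕ},
    Good c m S r → m' ≤ m → Good c m' S r := by
  intro m
  induction m with
  | zero => intro m' S r h hm; obtain rfl : m' = 0 := by omega
            exact h
  | succ m ih =>
    intro m' S r h hm
    cases m' with
    | zero => trivial
    | succ m' => exact ⟨h.1, ih h.2.1 (by omega), ih h.2.2 (by omega)⟩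

theorem good_core {m : ℕ} {S : ℕ → ℝ → Prop} {r : ℕ} (h : Good c (m + 1) S r) {j : ℕ}
    (hj : j < 2) : Good c m (core c j S) ((2 * r - 1 - 2 * j) / 4) := by
  have hj' : j = 0 ∨ j = 1 := by omega
  rcases hj' with rfl | rfl
  · exact h.2.1
  · have e : 2 * r - 1 - 2 * 1 = 2 * r - 3 := by omega
    rw [e]; exact h.2.2

theorem T_ne (R : ℕ → ℝ → Prop) {t : ℕ} {p : ℝ} (hp : p < 0) (ht : t % 2 = 0) :
    Tset R t p ↔ R (2 * t) p := by
  simp [Tset, hp, ht, not_le.2 hp]

theorem T_no (R : ℕ → ℝ → Prop) {t : ℕ} {p : ℝ} (hp : p < 0) (ht : t % 2 = 1) :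
    Tset R t p ↔ R (2 * t + 1) p := by
  simp [Tset, hp, ht, not_le.2 hp]

theorem T_pe (R : ℕ → ℝ → Prop) {t : ℕ} {p : ℝ} (hp : 0 < p) (ht : t % 2 = 0) :
    Tset R t p ↔ R (2 * t + 1) p := by
  simp [Tset, hp.le, ht, not_lt.2 hp.le]

theorem T_po (R : ℕ → ℝ → Prop) {t : ℕ} {p : ℝ} (hp : 0 < p) (ht : t % 2 = 1) :
    Tset R t p ↔ R (2 * t) p := by
  simp [Tset, hp.le, ht, not_lt.2 hp.le]

open Classical in
/-- the shift of the letter `cs c i` -/
noncomputable def gam (c : ℝ) : ℕ → ℤ
  | 0 => 1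
  | i + 1 => if 0 < cs c i then 2 * gam c i - 1 else -(2 * gam c i + 1)

/-- the bound -/
def Bd : ℕ → ℕ
  | 0 => 0
  | i + 1 => 2 * Bd i + 4

theorem gam_odd (i : ℕ) : gam c i % 2 = 1 := by
  induction i with
  | zero => simp [gam]
  | succ i ih =>
    unfold gam
    split_ifs <;> omega

theorem comp (h : Hyp c) (i : ℕ) : ∀ (S : ℕ → ℝ → Prop) (r : ℕ), Good c (i + 1) S r →
    ∀ t s : ℕ, t % 2 = 0 → (s : ℤ) = t + gam c i → Bd i ≤ t → Bd i ≤ s → t + Bd i < 2 * r →
    s + Bd i < 2 * r → ¬ (Tset S t (cs c i) ↔ Tset S s (cs c i)) := by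
  induction i with
  | zero =>
    intro S r hG t s ht hs _ _ h3 h4
    simp only [gam] at hs
    obtain ⟨k, rfl⟩ : ∃ k, t = 2 * k := ⟨t / 2, by omega⟩
    obtain rfl : s = 2 * k + 1 := by omega
    simp only [Bd] at h3
    exact hG.1 k (by omega)
  | succ i ih =>
    intro S r hG t s ht hs h1 h2 h3 h4
    have hne : cs c i ≠ 0 := fun h0 => h.nz (h0 ▸ cs_mem i)
    have hodd := gam_odd (c := c) i
    rw [cs_succ]
    simp only [Bd] at h1 h2 h3 h4
    rcases lt_or_gt_of_ne hne with hp | hp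
    · -- negative
      have hg : gam c (i + 1) = -(2 * gam c i + 1) := by
        simp [gam, not_lt.2 hp.le]
      rw [hg] at hs
      obtain ⟨j, hj, a, ha, hsa⟩ : ∃ j, j < 2 ∧ ∃ a, a % 2 = 0 ∧ s = 2 * a + 1 + 2 * j := by
        refine ⟨((s - 1) / 2) % 2, by omega, (s - 1) / 2 - ((s - 1) / 2) % 2, by omega, by omega⟩
      obtain ⟨s', hs'⟩ : ∃ s' : ℕ, (s' : ℤ) = a + gam c i := by
        refine ⟨(a + gam c i).toNat, ?_⟩
        rw [Int.toNat_of_nonneg]; omega
      have hs'odd : s' % 2 = 1 := by omega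
      have hta : t = 2 * s' + 1 + 1 + 2 * j - 0 := by omega
      have hG' := good_core hG hj
      have key := ih (core c j S) _ hG' a s' ha hs' (by omega) (by omega) (by omega) (by omega)
      rw [T_ne _ hp ha, T_no _ hp hs'odd] at key
      have e1 : core c j S (2 * a) (cs c i) ↔ Tset S s (f c (cs c i)) := by
        rw [hsa]; exact Iff.rfl
      have e2 : core c j S (2 * s' + 1) (cs c i) ↔ Tset S t (f c (cs c i)) := by
        rw [hta]; exact Iff.rfl
      rw [e1, e2] at key
      exact fun hh => key hh.symm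
    · have hg : gam c (i + 1) = 2 * gam c i - 1 := by
        simp [gam, hp]
      rw [hg] at hs
      obtain ⟨j, hj, a, ha, hsa⟩ : ∃ j, j < 2 ∧ ∃ a, a % 2 = 0 ∧ t = 2 * a + 1 + 1 + 2 * j := by
        refine ⟨(t / 2 - 1) % 2, by omega, (t / 2 - 1) - (t / 2 - 1) % 2, by omega, by omega⟩
      obtain ⟨s', hs'⟩ : ∃ s' : ℕ, (s' : ℤ) = a + gam c i := by
        refine ⟨(a + gam c i).toNat, ?_⟩
        rw [Int.toNat_of_nonneg]; omega
      have hs'odd : s' % 2 = 1 := by omega
      have hta : s = 2 * s' + 1 + 2 * j := by omega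
      have hG' := good_core hG hj
      have key := ih (core c j S) _ hG' a s' ha hs' (by omega) (by omega) (by omega) (by omega)
      rw [T_pe _ hp ha, T_po _ hp hs'odd] at key
      have e1 : core c j S (2 * a + 1) (cs c i) ↔ Tset S t (f c (cs c i)) := by
        rw [hsa]; exact Iff.rfl
      have e2 : core c j S (2 * s') (cs c i) ↔ Tset S s (f c (cs c i)) := by
        rw [hta]; exact Iff.rfl
      rw [e1, e2] at key
      exact key

/-- a safe margin -/
noncomputable def Km (c : ℝ) (i i' : ℕ) : ℕ :=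
  Bd i + Bd i' + (gam c i).natAbs + (gam c i').natAbs

theorem iff_of_not {A B C : Prop} (h1 : ¬ (A ↔ C)) (h2 : ¬ (B ↔ C)) : A ↔ B := by tauto

theorem iff_of_not' {A B C : Prop} (h1 : ¬ (C ↔ A)) (h2 : ¬ (C ↔ B)) : A ↔ B := by tauto

theorem shift (h : Hyp c) {i i' : ℕ} (hii : cs c i' = cs c i) {S : ℕ → ℝ → Prop} {r : ℕ}
    (hG : Good c (i + 1) S r) (hG' : Good c (i' + 1) S r) {a b : ℕ}
    (hab : (b : ℤ) = a + (gam c i' - gam c i)) (h1 : Km c i i' ≤ a) (h2 : Km c i i' ≤ b)
    (h3 : a + Km c i i' < 2 * r) (h4 : b + Km c i i' < 2 * r) :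
    Tset S a (cs c i) ↔ Tset S b (cs c i) := by
  have o1 := gam_odd (c := c) i
  have o2 := gam_odd (c := c) i'
  have c1 := comp h i S r hG
  have c2 := comp h i' S r hG'
  rw [hii] at c2
  unfold Km at *
  have a1 : gam c i ≤ (gam c i).natAbs := by omega
  have a2 : -((gam c i).natAbs : ℤ) ≤ gam c i := by omega
  have a3 : gam c i' ≤ (gam c i').natAbs := by omega
  have a4 : -((gam c i').natAbs : ℤ) ≤ gam c i' := by omega
  generalize (gam c i).natAbs = X at *
  generalize (gam c i').natAbs = Y at *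
  generalize gam c i = x at *
  generalize gam c i' = y at *
  generalize Bd i = P at *
  generalize Bd i' = Q at *
  clear hii hG hG'
  rcases Nat.mod_two_eq_zero_or_one a with ha | ha
  · obtain ⟨s, hs⟩ : ∃ s : ℕ, (s : ℤ) = a + y := by
      refine ⟨(a + y).toNat, ?_⟩
      rw [Int.toNat_of_nonneg]; omega
    have k1 := c2 a s ha hs (by omega) (by omega) (by omega) (by omega)
    have k2 := c1 b s (by omega) (by omega) (by omega) (by omega) (by omega)
      (by omega)
    exact iff_of_not k1 k2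
  · obtain ⟨t, ht⟩ : ∃ t : ℕ, (t : ℤ) = a - x := by
      refine ⟨(a - x).toNat, ?_⟩
      rw [Int.toNat_of_nonneg]; omega
    have k1 := c1 t a (by omega) (by omega) (by omega) (by omega) (by omega)
      (by omega)
    have k2 := c2 t b (by omega) (by omega) (by omega) (by omega) (by omega)
      (by omega)
    exact iff_of_not' k1 k2

theorem shift_nat (h : Hyp c) {i i' : ℕ} (hii : cs c i' = cs c i) {S : ℕ → ℝ → Prop} {r : ℕ}
    (hG : Good c (i + 1) S r) (hG' : Good c (i' + 1) S r) {a : ℕ} (h1 : Km c i i' ≤ a)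
    (h4 : a + (gam c i' - gam c i).natAbs + Km c i i' < 2 * r) :
    Tset S a (cs c i) ↔ Tset S (a + (gam c i' - gam c i).natAbs) (cs c i) := by
  rcases le_total 0 (gam c i' - gam c i) with h0 | h0
  · exact shift h hii hG hG' (by omega) (by omega) (by omega) (by omega) (by omega)
  · exact (shift h hii hG hG' (by omega) (by omega) (by omega) (by omega) (by omega)).symm

theorem shift_mul (h : Hyp c) {i i' : ℕ} (hii : cs c i' = cs c i) {S : ℕ → ℝ → Prop} {r : ℕ}
    (hG : Good c (i + 1) S r) (hG' : Good c (i' + 1) S r) {a : ℕ} (h1 : Km c i i' ≤ a) (k : ℕ)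
    (h4 : a + k * (gam c i' - gam c i).natAbs + Km c i i' < 2 * r) :
    Tset S a (cs c i) ↔ Tset S (a + k * (gam c i' - gam c i).natAbs) (cs c i) := by
  induction k with
  | zero => simp
  | succ k ih =>
    have e : (k + 1) * (gam c i' - gam c i).natAbs
        = k * (gam c i' - gam c i).natAbs + (gam c i' - gam c i).natAbs := by ring
    rw [e] at h4 ⊢
    rw [ih (by omega), ← add_assoc]
    exact shift_nat h hii hG hG' (by omega) (by omega)

theorem gam_dich (i : ℕ) : gam c i = 1 ∨ 3 ≤ (gam c i).natAbs := by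
  induction i with
  | zero => left; rfl
  | succ i ih =>
    unfold gam
    split_ifs <;> omega

theorem gam_lt {i : ℕ} (h3 : 3 ≤ (gam c i).natAbs) :
    (gam c i).natAbs < (gam c (i + 1)).natAbs := by
  rw [gam]
  split_ifs <;> omega

theorem gam_ge {j0 : ℕ} (hj : cs c j0 < 0) (k : ℕ) : 3 ≤ (gam c (j0 + 1 + k)).natAbs := by
  induction k with
  | zero =>
    have := gam_dich (c := c) j0
    have e : gam c (j0 + 1 + 0) = -(2 * gam c j0 + 1) := by
      simp [gam, not_lt.2 hj.le]
    rw [e]; omega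
  | succ k ih =>
    have := gam_lt ih
    rw [← add_assoc]; omega

theorem gam_mono {j0 : ℕ} (hj : cs c j0 < 0) {i : ℕ} (hi : j0 + 1 ≤ i) (n : ℕ) :
    (gam c i).natAbs + n ≤ (gam c (i + n)).natAbs := by
  obtain ⟨k, rfl⟩ := Nat.exists_eq_add_of_le hi
  induction n with
  | zero => simp
  | succ n ih =>
    have := gam_lt (gam_ge hj (k + n))
    have e : j0 + 1 + (k + n) = j0 + 1 + k + n := by ring
    rw [e] at this
    rw [← add_assoc (j0 + 1 + k) n 1]; omega

theorem exists_neg (h : Hyp c) : ∃ j0, cs c j0 < 0 := by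
  by_contra hcon
  push Not at hcon
  have hpos : ∀ i, 0 < cs c i := fun i =>
    lt_of_le_of_ne (hcon i) (fun h0 => h.nz (h0 ▸ cs_mem i))
  have hanti : StrictAnti (cs c) := by
    apply strictAnti_nat_of_succ_lt
    intro n
    rw [cs_succ]
    have h1 := hpos n
    have h2 := (h.Pbd (cs_mem n)).2
    have h3 := h.c2_lt
    have h4 := h.gt
    have h5 := h.lt_neg_one
    unfold f
    rcases le_or_gt (cs c n) 1 with h6 | h6
    · nlinarith
    · nlinarith
  have : (Set.range (cs c)).Infinite := Set.infinite_range_of_injective hanti.injective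
  apply this
  apply h.fin.subset
  rintro _ ⟨n, rfl⟩; exact cs_mem n

theorem exists_per (h : Hyp c) : ∃ i0 n, 0 < n ∧ ∀ k, i0 ≤ k → cs c (k + n) = cs c k := by
  have : ¬ Function.Injective (cs c) := by
    intro hinj
    have : (Set.range (cs c)).Infinite := Set.infinite_range_of_injective hinj
    apply this
    apply h.fin.subset
    rintro _ ⟨n, rfl⟩; exact cs_mem n
  unfold Function.Injective at this
  push Not at this
  obtain ⟨a, b, hab, hne⟩ := this
  wlog hlt : a < b generalizing a b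
  · exact this b a hab.symm hne.symm (by omega)
  refine ⟨a, b - a, by omega, ?_⟩
  intro k hk
  obtain ⟨m, rfl⟩ := Nat.exists_eq_add_of_le hk
  induction m with
  | zero =>
    have e : a + 0 + (b - a) = b := by omega
    rw [e, ← hab]; rfl
  | succ m ih =>
    have e : a + (m + 1) + (b - a) = (a + m + (b - a)) + 1 := by omega
    rw [e, cs_succ, ih (by omega), ← cs_succ]; rfl

/-- TARGET -/
theorem periodic_bits (h : Hyp c) : ∃ J m0 B Δ : ℕ, 0 < Δ ∧ ∀ (S : ℕ → ℝ → Prop) (r : ℕ), Good c m0 S r →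
    ∀ i, J ≤ i → ∀ t, B ≤ t → t + Δ + B ≤ 2 * r → (Tset S t (cs c i) ↔ Tset S (t + Δ) (cs c i)) := by
  obtain ⟨j0, hj0⟩ := exists_neg h
  obtain ⟨i0, n, hn, hper⟩ := exists_per h
  set J := max i0 (j0 + 1) with hJ
  have hJ1 : i0 ≤ J := le_max_left _ _
  have hJ2 : j0 + 1 ≤ J := le_max_right _ _
  have hper' : ∀ m a, cs c (J + a + n * m) = cs c (J + a) := by
    intro m a
    induction m with
    | zero => simp
    | succ m ih =>
      have e : J + a + n * (m + 1) = (J + a + n * m) + n := by ring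
      rw [e, hper _ (by nlinarith), ih]
  let D : ℕ → ℕ := fun a => (gam c (J + a + n) - gam c (J + a)).natAbs
  have hD : ∀ a, 0 < D a := by
    intro a
    have := gam_mono hj0 (i := J + a) (by omega) n
    simp only [D]; omega
  refine ⟨J, J + 2 * n + 1, (∑ a ∈ Finset.range n, Km c (J + a) (J + a + n)) + 1,
    ∏ a ∈ Finset.range n, D a, Finset.prod_pos (fun a _ => hD a), ?_⟩
  intro S r hG i hi t ht1 ht2
  obtain ⟨k, rfl⟩ := Nat.exists_eq_add_of_le hi
  have hk : J + k = J + k % n + n * (k / n) := by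
    have := Nat.mod_add_div k n; omega
  rw [hk, hper' (k / n) (k % n)]
  have hlt : k % n < n := Nat.mod_lt _ hn
  have hmem : k % n ∈ Finset.range n := Finset.mem_range.2 hlt
  have hK : Km c (J + k % n) (J + k % n + n) ≤ ∑ a ∈ Finset.range n, Km c (J + a) (J + a + n) :=
    Finset.single_le_sum (f := fun a => Km c (J + a) (J + a + n)) (fun _ _ => Nat.zero_le _) hmem
  obtain ⟨q, hq⟩ : D (k % n) ∣ ∏ a ∈ Finset.range n, D a := Finset.dvd_prod_of_mem D hmem
  rw [mul_comm] at hq
  rw [hq] at ht2 ⊢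
  have hii : cs c (J + k % n + n) = cs c (J + k % n) := hper _ (by omega)
  exact shift_mul h hii (good_mono hG (by omega)) (good_mono hG (by omega)) (by omega) q (by
    have : q * D (k % n) = q * (gam c (J + k % n + n) - gam c (J + k % n)).natAbs := rfl
    omega)

end Pool.Agent.Helper79_Real.T5
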