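import Pool.Agent.Helper79_Real.T3

/-!
Lemma job T6 (the value of a good block word is determined by its boundary bits and the bits of the deep letters).
Definitions: Pool/Agent/Helper79_Real/{Defs,Base,Path,Facts,Blocks}.lean on origin/main (copy the folder to your working tree
and `lake build Pool.Agent.Helper79_Real.Blocks`).

Plain-words proof.  Induction on `j`.
(0) The list `hw c S h` only depends on the truth of `S h q` for the letters `q` of `LA c` (`h % 4 = 0, 3`) or `LB c` (`h % 4 = 1, 2`); all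
    of them are interior post-critical points (`Int`, hence `q = cs c i` for some `i` by `int_cs`), negative for `LA`, positive for `LB`; and
    `S h q ↔ Tset S (h/2) q` for those.  So `W c S a n` is determined by the bits `Tset S t (cs c i)`, `a/2 ≤ t ≤ (a+n-1)/2`.
    `j = 0`: all the bits with `t < 2r` agree, so the two words are equal.  (`β = 0` works.)
(1) Step `j → j+1`, `β (j+1) = 2 β j + 6`.  Use `val_eq_iff`.  `fin`: the letter `c` occurs exactly once in each block `W c S (4i) 4`, so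
    `fin c b (W c S 0 (4r))` only depends on `b` and `r` (induction on `r`, `W_add`, `fin_append`; letters of `LA`, `LB` and `c^2+c` are `≠ c`).
    Sections: `Good c (j+1) S r` gives `CC c S i` for `i < r`.  By `sec_W` (`i = 0`, `b = false`):
    `sec c false (W c S 0 (4r)) = W c S1 1 (2r)`, `S1 h p = Tset S (h-1) (f c p)`; by `sec_W'` (`b = true`):
    `sec c true (W c S 0 (4r)) = W c S3 3 (2r)`, `S3 h p = Tset S (h-3) (f c p)`.  Same for `S'`.
    If `2r ≥ 3` write `2r = 3 + 4k + e`, `k = (2r-3)/4`, `e < 4`: `W c S1 1 (2r) = W c S1 1 3 ++ W c S1 4 (4k) ++ W c S1 (4+4k) e`, and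
    `W c S1 4 (4k) = W c (fun h => S1 (h+4)) 0 (4k) = W c (core c 1 S) 0 (4k)` (shift by 4 does not change `h % 4`).  The first and the last factor are equal
    for `S` and `S'`, as they only involve bits `Tset S (h-1) (f c p)` with `f c p` interior (`p ∈ P c`, `p ≠ c`; so `f c p = cs c i`) and
    `h - 1 < β (j+1)` resp. `2r ≤ (h-1) + β (j+1)`; the middle ones have equal values by induction applied to `core c 1 S`, `core c 1 S'`, `k`:
    `Tset (core c 1 S) t' (cs c i) ↔ Tset S k' (cs c (i+1))` with `k' = 2t'+3` or `2t'+4` (`k' < 2r` for `t' < 2k`; near the ends if `t'` is).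
    Use `val_append`.  If `2r < 3` all bits are near the ends.
    Likewise on side `true`: `2r = 1 + 4k + e`, `k = (2r-1)/4`, `W c S3 3 (2r) = W c S3 3 1 ++ W c (core c 0 S) 0 (4k) ++ W c S3 (4+4k) e`,
    `Tset (core c 0 S) t' (cs c i) ↔ Tset S k' (cs c (i+1))` with `k' = 2t'+1` or `2t'+2`.
-/

namespace Pool.Agent.Helper79_Real.T6

open T3 (sec_W sec_W')

variable {c : ℝ}

theorem t6_mem_LA (h : Hyp c) {q : ℝ} : q ∈ LA c ↔ q ∈ P c ∧ c < q ∧ q < 0 := by
  classical
  unfold LA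
  rw [Finset.mem_sort, Finset.mem_filter, mem_Pf h]

theorem t6_mem_LB (h : Hyp c) {q : ℝ} : q ∈ LB c ↔ q ∈ P c ∧ 0 < q ∧ q < c ^ 2 + c := by
  classical
  unfold LB
  rw [Finset.mem_sort, Finset.mem_filter, mem_Pf h]

/-- the letter `q` belongs to the side of the half traverse `k` -/
def t6_Sg (k : ℕ) (q : ℝ) : Prop := ((k % 4 = 0 ∨ k % 4 = 3) ∧ q < 0) ∨ ((k % 4 = 1 ∨ k % 4 = 2) ∧ 0 < q)

theorem t6_hw (h : Hyp c) {S S' : ℕ → ℝ → Prop} {k k' : ℕ} (hk : k % 4 = k' % 4)
    (hS : ∀ i, t6_Sg k (cs c i) → (S k (cs c i) ↔ S' k' (cs c i))) : hw c S k = hw c S' k' := by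
  classical
  have hA : (k % 4 = 0 ∨ k % 4 = 3) → ∀ q ∈ LA c, (S k q ↔ S' k' q) := by
    intro h4 q hq
    rw [t6_mem_LA h] at hq
    have hc2 := h.c2pos
    obtain ⟨i, rfl⟩ := int_cs (c := c) (q := q) ⟨hq.1, hq.2.1.ne', by have := hq.2.2; linarith⟩
    exact hS i (Or.inl ⟨h4, hq.2.2⟩)
  have hB : (k % 4 = 1 ∨ k % 4 = 2) → ∀ q ∈ LB c, (S k q ↔ S' k' q) := by
    intro h4 q hq
    rw [t6_mem_LB h] at hq
    have hc := h.neg
    obtain ⟨i, rfl⟩ := int_cs (c := c) (q := q) ⟨hq.1, by have := hq.2.1; linarith, hq.2.2.ne⟩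
    exact hS i (Or.inr ⟨h4, hq.2.1⟩)
  unfold hw
  rw [← hk]
  split_ifs with h0 h1 h2
  · exact List.filter_congr fun q hq => decide_eq_decide.2 (hA (Or.inl h0) q hq)
  · rw [List.filter_congr fun q hq => decide_eq_decide.2 (hB (Or.inl h1) q hq)]
  · exact List.filter_congr fun q hq => decide_eq_decide.2 (hB (Or.inr h2) q (List.mem_reverse.1 hq))
  · rw [List.filter_congr fun q hq => decide_eq_decide.2 (hA (Or.inr (by omega)) q (List.mem_reverse.1 hq))]

theorem t6_W (h : Hyp c) {S S' : ℕ → ℝ → Prop} {n : ℕ} : ∀ {a a' : ℕ}, a % 4 = a' % 4 →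
    (∀ m < n, ∀ i, t6_Sg (a + m) (cs c i) → (S (a + m) (cs c i) ↔ S' (a' + m) (cs c i))) →
    W c S a n = W c S' a' n := by
  induction n with
  | zero => intro a a' _ _; rfl
  | succ n ih =>
    intro a a' ha hS
    rw [W, W]
    congr 1
    · exact t6_hw h ha (fun i => hS 0 (Nat.succ_pos n) i)
    · refine ih (by omega) ?_
      intro m hm i
      have := hS (m + 1) (by omega) i
      rw [show a + 1 + m = a + (m + 1) by ring, show a' + 1 + m = a' + (m + 1) by ring]
      exact this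

theorem t6_s (t : ℕ) (q : ℝ) : ∃ s, (s = 2 * t ∨ s = 2 * t + 1) ∧
    ∀ S : ℕ → ℝ → Prop, (Tset S t q ↔ S s q) := by
  rcases lt_or_ge q 0 with hq | hq <;> rcases Nat.mod_two_eq_zero_or_one t with ht | ht
  · exact ⟨2 * t, Or.inl rfl, fun S => by simp [Tset, hq, ht, not_le.2 hq]⟩
  · exact ⟨2 * t + 1, Or.inr rfl, fun S => by simp [Tset, hq, ht, not_le.2 hq]⟩
  · exact ⟨2 * t + 1, Or.inr rfl, fun S => by simp [Tset, hq, ht, not_lt.2 hq]⟩
  · exact ⟨2 * t, Or.inl rfl, fun S => by simp [Tset, hq, ht, not_lt.2 hq]⟩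

theorem t6_T (S : ℕ → ℝ → Prop) {k : ℕ} {q : ℝ} (hk : t6_Sg k q) : S k q ↔ Tset S (k / 2) q := by
  obtain ⟨m, hm⟩ : ∃ m, k = 4 * m + k % 4 := ⟨k / 4, by omega⟩
  rcases hk with ⟨h4, hq⟩ | ⟨h4, hq⟩ <;> rcases h4 with h4 | h4
  · have e1 : k / 2 % 2 = 0 := by omega
    have e2 : 2 * (k / 2) = k := by omega
    simp [Tset, hq, not_le.2 hq, e1, e2]
  · have e1 : k / 2 % 2 = 1 := by omega
    have e2 : 2 * (k / 2) + 1 = k := by omega
    simp [Tset, hq, not_le.2 hq, e1, e2]
  · have e1 : k / 2 % 2 = 0 := by omega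
    have e2 : 2 * (k / 2) + 1 = k := by omega
    simp [Tset, hq.le, not_lt.2 hq.le, e1, e2]
  · have e1 : k / 2 % 2 = 1 := by omega
    have e2 : 2 * (k / 2) = k := by omega
    simp [Tset, hq.le, not_lt.2 hq.le, e1, e2]

/-! ### final sides -/

theorem t6_fin_ne {w : List ℝ} (hw : c ∉ w) (b : Bool) : fin c b w = b := by
  induction w with
  | nil => rfl
  | cons q w ih =>
    rw [List.mem_cons, not_or] at hw
    rw [fin, if_neg (Ne.symm hw.1)]
    exact ih hw.2

theorem t6_fin_hw (h : Hyp c) (S : ℕ → ℝ → Prop) (k : ℕ) (b : Bool) :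
    fin c b (hw c S k) = if k % 4 = 3 then !b else b := by
  classical
  have hA : c ∉ LA c := fun hc => lt_irrefl _ ((t6_mem_LA h).1 hc).2.1
  have hB : c ∉ LB c := fun hc => by
    have := ((t6_mem_LB h).1 hc).2.1
    have := h.neg
    linarith
  unfold hw
  split_ifs with h0 h3 h1 h3 h2 h3 h3
  · omega
  · exact t6_fin_ne (fun hc => hA (List.mem_filter.1 hc).1) b
  · omega
  · rw [fin_append, t6_fin_ne (fun hc => hB (List.mem_filter.1 hc).1) b]
    refine t6_fin_ne (fun hc => ?_) b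
    rw [List.mem_singleton] at hc
    exact h.lt_c2.ne hc
  · omega
  · exact t6_fin_ne (fun hc => hB (List.mem_reverse.1 (List.mem_filter.1 hc).1)) b
  · rw [fin_append, t6_fin_ne (fun hc => hA (List.mem_reverse.1 (List.mem_filter.1 hc).1)) b]
    simp [fin]
  · omega

theorem t6_fin_W (h : Hyp c) (S S' : ℕ → ℝ → Prop) (n : ℕ) : ∀ (a : ℕ) (b : Bool),
    fin c b (W c S a n) = fin c b (W c S' a n) := by
  induction n with
  | zero => intro a b; rfl
  | succ n ih =>
    intro a b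
    rw [W, W, fin_append, fin_append, t6_fin_hw h, t6_fin_hw h]
    exact ih _ _

/-- the inductive step for one side; `o = 1` or `3` -/
theorem t6_side (h : Hyp c) {j β : ℕ} {o k r e j' : ℕ} (ho : (o = 1 ∧ j' = 1) ∨ (o = 3 ∧ j' = 0))
    (hr : o + 2 * r = 4 + 4 * k + e) (he : e < 4)
    (ih : ∀ (S S' : ℕ → ℝ → Prop) (r : ℕ), Good c j S r → Good c j S' r →
      (∀ i, j ≤ i → ∀ t, t < 2 * r → (Tset S t (cs c i) ↔ Tset S' t (cs c i))) →
      (∀ i t, t < 2 * r → (t < β ∨ 2 * r ≤ t + β) → (Tset S t (cs c i) ↔ Tset S' t (cs c i))) →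
      val c (W c S 0 (4 * r)) = val c (W c S' 0 (4 * r)))
    (S S' : ℕ → ℝ → Prop) (hG : Good c j (core c j' S) k) (hG' : Good c j (core c j' S') k)
    (h1 : ∀ i, j + 1 ≤ i → ∀ t, t < 2 * r → (Tset S t (cs c i) ↔ Tset S' t (cs c i)))
    (h2 : ∀ i t, t < 2 * r → (t < 2 * β + 6 ∨ 2 * r ≤ t + (2 * β + 6)) →
      (Tset S t (cs c i) ↔ Tset S' t (cs c i))) :
    val c (W c (fun h p => Tset S (h - o) (f c p)) o (2 * r)) =
      val c (W c (fun h p => Tset S' (h - o) (f c p)) o (2 * r)) := by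
  have e1 : 2 * r = (4 - o) + 4 * k + e := by omega
  rw [e1, W_add, W_add, W_add, W_add, val_append, val_append, val_append, val_append]
  congr 1
  · -- the end
    congr 1
    refine t6_W h rfl ?_
    intro m hm i _
    show Tset S (o + (4 - o + 4 * k) + m - o) (f c (cs c i)) ↔ Tset S' (o + (4 - o + 4 * k) + m - o) (f c (cs c i))
    rw [← cs_succ]
    exact h2 _ _ (by omega) (Or.inr (by omega))
  congr 1
  · -- the middle
    have key : ∀ S : ℕ → ℝ → Prop, W c (fun h p => Tset S (h - o) (f c p)) (o + (4 - o)) (4 * k) =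
        W c (core c j' S) 0 (4 * k) := by
      intro S
      refine t6_W h (by omega) ?_
      intro m hm i _
      show Tset S (o + (4 - o) + m - o) (f c (cs c i)) ↔ Tset S (0 + m + 1 + 2 * j') (f c (cs c i))
      rw [show o + (4 - o) + m - o = 0 + m + 1 + 2 * j' by omega]
    rw [key, key]
    refine ih _ _ k hG hG' ?_ ?_
    · intro i hi t ht
      obtain ⟨s, hs, hsT⟩ := t6_s t (cs c i)
      rw [hsT, hsT]
      show Tset S (s + 1 + 2 * j') (f c (cs c i)) ↔ Tset S' (s + 1 + 2 * j') (f c (cs c i))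
      rw [← cs_succ]
      exact h1 _ (by omega) _ (by omega)
    · intro i t ht hte
      obtain ⟨s, hs, hsT⟩ := t6_s t (cs c i)
      rw [hsT, hsT]
      show Tset S (s + 1 + 2 * j') (f c (cs c i)) ↔ Tset S' (s + 1 + 2 * j') (f c (cs c i))
      rw [← cs_succ]
      exact h2 _ _ (by omega) (by omega)
  · -- the beginning
    congr 1
    refine t6_W h rfl ?_
    intro m hm i _
    show Tset S (o + m - o) (f c (cs c i)) ↔ Tset S' (o + m - o) (f c (cs c i))
    rw [← cs_succ]
    exact h2 _ _ (by omega) (Or.inl (by omega))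

/-- short words: all the bits are near the ends -/
theorem t6_short (h : Hyp c) {o r : ℕ} (S S' : ℕ → ℝ → Prop)
    (h2 : ∀ i t, t < 2 * r → (Tset S t (cs c i) ↔ Tset S' t (cs c i))) :
    W c (fun h p => Tset S (h - o) (f c p)) o (2 * r) =
      W c (fun h p => Tset S' (h - o) (f c p)) o (2 * r) := by
  refine t6_W h rfl ?_
  intro m hm i _
  show Tset S (o + m - o) (f c (cs c i)) ↔ Tset S' (o + m - o) (f c (cs c i))
  rw [← cs_succ]
  exact h2 _ _ (by omega)

/-- TARGET -/
theorem eq_W (h : Hyp c) : ∀ j : ℕ, ∃ β : ℕ, ∀ (S S' : ℕ → ℝ → Prop) (r : ℕ), Good c j S r → Good c j S' r →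
    (∀ i, j ≤ i → ∀ t, t < 2 * r → (Tset S t (cs c i) ↔ Tset S' t (cs c i))) →
    (∀ i t, t < 2 * r → (t < β ∨ 2 * r ≤ t + β) → (Tset S t (cs c i) ↔ Tset S' t (cs c i))) →
    val c (W c S 0 (4 * r)) = val c (W c S' 0 (4 * r)) := by
  intro j
  induction j with
  | zero =>
    refine ⟨0, fun S S' r _ _ h1 _ => ?_⟩
    congr 1
    refine t6_W h rfl ?_
    intro m hm i hi
    rw [t6_T S hi, t6_T S' hi]
    exact h1 i (Nat.zero_le _) _ (by omega)
  | succ j ih =>
    obtain ⟨β, ih⟩ := ih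
    refine ⟨2 * β + 6, fun S S' r hG hG' h1 h2 => ?_⟩
    obtain ⟨c1, g0, g1⟩ := hG
    obtain ⟨c1', g0', g1'⟩ := hG'
    rw [val_eq_iff]
    have eF : ∀ S : ℕ → ℝ → Prop, (∀ i < r, CC c S i) → sec c false (W c S 0 (4 * r)) =
        W c (fun h p => Tset S (h - 1) (f c p)) 1 (2 * r) := by
      intro S hC
      have := sec_W h S 0 r (fun j _ hj => hC j (by omega)) false (by simp)
      simpa using this
    have eT : ∀ S : ℕ → ℝ → Prop, (∀ i < r, CC c S i) → sec c true (W c S 0 (4 * r)) =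
        W c (fun h p => Tset S (h - 3) (f c p)) 3 (2 * r) := by
      intro S hC
      have := sec_W' h S 0 r (fun j _ hj => hC j (by omega)) true (by simp)
      simpa using this
    intro b
    refine ⟨t6_fin_W h S S' _ _ _, ?_⟩
    cases b with
    | false =>
      rw [eF S c1, eF S' c1']
      by_cases hr : 2 * r < 3
      · rw [t6_short h S S' (fun i t ht => h2 i t ht (by omega))]
      · exact t6_side h (j := j) (β := β) (o := 1) (k := (2 * r - 3) / 4) (e := (2 * r - 3) % 4) (j' := 1)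
          (Or.inl ⟨rfl, rfl⟩) (by omega) (by omega) ih S S' g1 g1' h1 h2
    | true =>
      rw [eT S c1, eT S' c1']
      by_cases hr : 2 * r < 1
      · rw [t6_short h S S' (fun i t ht => h2 i t ht (by omega))]
      · exact t6_side h (j := j) (β := β) (o := 3) (k := (2 * r - 1) / 4) (e := (2 * r - 1) % 4) (j' := 0)
          (Or.inr ⟨rfl, rfl⟩) (by omega) (by omega) ih S S' g0 g0' h1 h2

end Pool.Agent.Helper79_Real.T6
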