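import Pool.Agent.Helper79_Real.T5
import Pool.Agent.Helper79_Real.T6

/-!
Lemma job T7 (boundedly many values of good block words with a given number of blocks).
Definitions: Pool/Agent/Helper79_Real/{Defs,Base,Path,Facts,Blocks}.lean on origin/main (copy the folder to your working tree
and `lake build Pool.Agent.Helper79_Real.Blocks`).

Plain-words proof.  First: `Good c m S r → m' ≤ m → Good c m' S r` (induction on the level).
Take `J, m0, B, Δ` from `periodic_bits`, `β` from `eq_W J`, `m1 = max m0 J`, `b = max β (B + Δ)`.  The signature of `S` for the given `r` is the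
function on `Pf c × Fin b × Bool` sending `(q, t, false)` to the truth value of `Tset S t q` and `(q, t, true)` to the truth value of
`t < 2r ∧ Tset S (2r - 1 - t) q`.  There are at most `K = 2 ^ (|Pf c| * b * 2)` signatures, whatever `r` is.  If `S, S'` are both good (level `m1`)
and have the same signature then `val c (W c S 0 (4r)) = val c (W c S' 0 (4r))` by `eq_W`: the bits `t < β` and `2r ≤ t + β` agree for all `cs c i` (in
`P c` by `cs_mem`) by the signature; for `i ≥ J` and `t < 2r` show by strong induction on `t` that the bits of `cs c i` agree: if `t < b`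
signature; if `2r ≤ t + b` signature; otherwise `t ≥ B + Δ`, so with `t' = t - Δ ≥ B`, `t' + Δ + B = t + B ≤ 2r`, `periodic_bits` gives
`Tset S t' ↔ Tset S t` and the same for `S'`; use the induction hypothesis at `t'`.
So the set is the image of a set of at most `K` signatures (choose a representative), finite with `ncard ≤ K`.
-/

namespace Pool.Agent.Helper79_Real.T7

open T5 (periodic_bits)

open T6 (eq_W)

variable {c : ℝ}

theorem good_mono {m m' : ℕ} (hm : m' ≤ m) {S : ℕ → ℝ → Prop} {r : ℕ} (h : Good c m S r) :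
    Good c m' S r := by
  induction m generalizing m' S r with
  | zero =>
    have : m' = 0 := by omega
    subst this
    exact h
  | succ m ih =>
    cases m' with
    | zero => trivial
    | succ m' =>
      obtain ⟨h1, h2, h3⟩ := h
      exact ⟨h1, ih (by omega) h2, ih (by omega) h3⟩

/-- TARGET -/
theorem count_W (h : Hyp c) : ∃ m1 K : ℕ, ∀ r : ℕ,
    {g | ∃ S, Good c m1 S r ∧ val c (W c S 0 (4 * r)) = g}.Finite ∧
    {g | ∃ S, Good c m1 S r ∧ val c (W c S 0 (4 * r)) = g}.ncard ≤ K := by
  classical
  obtain ⟨J, m0, B, Δ, hΔ, hper⟩ := periodic_bits h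
  obtain ⟨β, hβ⟩ := eq_W h J
  obtain ⟨b, hb1, hb2⟩ : ∃ b : ℕ, β ≤ b ∧ B + Δ ≤ b := ⟨max β (B + Δ), le_max_left _ _, le_max_right _ _⟩
  refine ⟨max m0 J, Nat.card (↥(Pf c) × Fin b × Bool → Prop), fun r => ?_⟩
  let sig : (ℕ → ℝ → Prop) → (↥(Pf c) × Fin b × Bool → Prop) := fun S x =>
    if x.2.2 = true then (x.2.1 : ℕ) < 2 * r ∧ Tset S (2 * r - 1 - x.2.1) x.1 else
      Tset S x.2.1 x.1
  have key : ∀ S S' : ℕ → ℝ → Prop, Good c (max m0 J) S r → Good c (max m0 J) S' r →
      sig S = sig S' → val c (W c S 0 (4 * r)) = val c (W c S' 0 (4 * r)) := by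
    intro S S' hS hS' hsig
    have s1 : ∀ q ∈ P c, ∀ t, t < b → (Tset S t q ↔ Tset S' t q) := by
      intro q hq t ht
      have := congrFun hsig (⟨q, (mem_Pf h).2 hq⟩, ⟨t, ht⟩, false)
      simpa [sig] using this
    have s2 : ∀ q ∈ P c, ∀ t, t < 2 * r → 2 * r ≤ t + b → (Tset S t q ↔ Tset S' t q) := by
      intro q hq t ht htb
      have := congrFun hsig (⟨q, (mem_Pf h).2 hq⟩, ⟨2 * r - 1 - t, by omega⟩, true)
      simp only [sig, if_true] at this
      have e : 2 * r - 1 - (2 * r - 1 - t) = t := by omega
      rw [e] at this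
      have hlt : 2 * r - 1 - t < 2 * r := by omega
      simpa [hlt] using this
    refine hβ S S' r (good_mono (le_max_right _ _) hS) (good_mono (le_max_right _ _) hS') ?_ ?_
    · intro i hi t
      induction t using Nat.strong_induction_on with
      | _ t ih =>
        intro ht
        by_cases h1 : t < b
        · exact s1 _ (cs_mem i) t h1
        by_cases h2 : 2 * r ≤ t + b
        · exact s2 _ (cs_mem i) t ht h2
        have e : t - Δ + Δ = t := by omega
        have p1 := hper S r (good_mono (le_max_left _ _) hS) i hi (t - Δ) (by omega) (by omega)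
        have p2 := hper S' r (good_mono (le_max_left _ _) hS') i hi (t - Δ) (by omega) (by omega)
        rw [e] at p1 p2
        rw [← p1, ← p2]
        exact ih (t - Δ) (by omega) (by omega)
    · intro i t ht hor
      rcases hor with h1 | h1
      · exact s1 _ (cs_mem i) t (by omega)
      · exact s2 _ (cs_mem i) t ht (by omega)
  let F : Equiv.Perm (List Bool) → (↥(Pf c) × Fin b × Bool → Prop) := fun g =>
    if hg : ∃ S, Good c (max m0 J) S r ∧ val c (W c S 0 (4 * r)) = g then sig hg.choose else
      fun _ => False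
  have hinj : Set.InjOn F {g | ∃ S, Good c (max m0 J) S r ∧ val c (W c S 0 (4 * r)) = g} := by
    intro g hg g' hg' he
    have hg1 : ∃ S, Good c (max m0 J) S r ∧ val c (W c S 0 (4 * r)) = g := hg
    have hg2 : ∃ S, Good c (max m0 J) S r ∧ val c (W c S 0 (4 * r)) = g' := hg'
    have e1 : F g = sig hg1.choose := dif_pos hg1
    have e2 : F g' = sig hg2.choose := dif_pos hg2
    rw [e1, e2] at he
    have := key _ _ hg1.choose_spec.1 hg2.choose_spec.1 he
    rw [hg1.choose_spec.2, hg2.choose_spec.2] at this
    exact this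
  refine ⟨Set.Finite.of_injOn (f := F) (t := Set.univ) (fun _ _ => Set.mem_univ _) hinj
    (Set.toFinite _), ?_⟩
  rw [← Set.ncard_univ]
  exact Set.ncard_le_ncard_of_injOn F (fun _ _ => Set.mem_univ _) hinj (Set.toFinite _)

end Pool.Agent.Helper79_Real.T7
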