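import Pool.Agent.Helper79_Real.Blocks

/-!
Lemma job T8 (words without interior turns are block words).  Definitions: Pool/Agent/Helper79_Real/{Defs,Base,Path,
Facts,Blocks}.lean on origin/main (copy the folder to your working tree and `lake build Pool.Agent.Helper79_Real.Blocks`).

Plain-words proof.  Let `c2 = c^2+c`.  All letters lie in `[c, c2]` (`Hyp.Pbd`), `0` is not a letter (`Hyp.nz`).
(1) `rep_pre`: `z ∈ P c`, `u` over `P c`, adjacent letters of `z :: u` differ, `NT c (z :: u)`, `c ∉ u`.  Then `z :: u` is first strictly increasing,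
    then (only after reaching `c2`) strictly decreasing; or strictly decreasing from the start: if a step goes down, `a > b`, and there is a next
    letter `e`, then `b ≠ c` (as `c ∉ u`), `b ≠ c2` (`b < a ≤ c2`), so `NT` gives `e < b`.  If a step goes up, `a < b`, and `b ≠ c2`, the next one goes up.
    A strictly monotone list of letters is at most as long as `Pf c` has elements.  Hence `u.length ≤ 2 * (Pf c).card`: first prove that if the first step of
    `z :: u` goes down then `z :: u` is strictly decreasing (so `u.length ≤ |Pf|`), then by induction: if the first step goes up, `z :: u = U ++ D` with `U`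
    strictly increasing, `D` strictly decreasing.
(2) `rep`: strong induction on `u.length`.  If `c ∉ u` take `r = 0`, `y = u`, any `S`, and (1) for `z = c`.
    If `c ∈ u` write `u = v ++ c :: u'`, `c ∉ v` (first occurrence).  By (1)-type arguments for the word `c :: v ++ [c]` (`v ≠ []` as adjacent letters
    differ): the first step goes up (from `c`, the smallest letter), the last step goes down to `c`; so `v = U ++ [c2] ++ D`, `U` strictly increasing in
    `(c, c2)`, `D` strictly decreasing in `(c, c2)`.  Induction hypothesis for `u'` (again `c :: u'` is a chain with `NT`): `S'`, `r'`, `y`.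
    Put `S h q := if h < 2 then q ∈ U else if h < 4 then q ∈ D else S' (h-4) q`.  Then `W c S 0 4 = v ++ [c]`: a strictly increasing list of elements of `P c` in
    `(c, c2)` equals `(LA c).filter (· ∈ U) ++ (LB c).filter (· ∈ U)` (two strictly sorted lists with the same elements), the same for `D` reversed; and
    `W c S 0 (4(r'+1)) = W c S 0 4 ++ W c S 4 (4r')` (`W_add`), `W c S (4+a) n = W c S' a n` (shift by 4 does not change `h % 4`).
-/

namespace Pool.Agent.Helper79_Real.T8

variable {c : ℝ}

theorem j5138_sub {w l : List ℝ} (h : NT c (l ++ w)) : NT c w := by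
  intro x a b e y hw
  exact h (l ++ x) a b e y (by rw [hw, List.append_assoc])

theorem j5138_pre {w l : List ℝ} (h : NT c (w ++ l)) : NT c w := by
  intro x a b e y hw
  exact h x a b e (y ++ l) (by rw [hw]; simp)

/-- once the word goes down it goes down -/
theorem j5138_down (h : Hyp c) (a b : ℝ) (t : List ℝ) (hw : IsW c (a :: b :: t)) (hnt : NT c (a :: b :: t))
    (hc : c ∉ b :: t) (hab : b < a) : (a :: b :: t).Pairwise (· > ·) := by
  induction t generalizing a b with
  | nil => simp [hab]
  | cons e t ih =>
    have ha : a ∈ P c := hw a (by simp)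
    have hbc : b ≠ c := fun hb => hc (by rw [hb]; simp)
    have hb2 : b ≠ c ^ 2 + c := by
      have := (h.Pbd ha).2
      intro hb
      linarith
    have h1 : e < b := by
      rcases hnt [] a b e t rfl with h2 | h2 | h2 | h2
      · exact absurd h2 hbc
      · exact absurd h2 hb2
      · linarith [h2.1]
      · exact h2.1
    have h3 := ih b e (fun q hq => hw q (List.mem_cons_of_mem _ hq))
      (j5138_sub (l := [a]) hnt) (fun hq => hc (List.mem_cons_of_mem _ hq)) h1
    rw [List.pairwise_cons]
    refine ⟨?_, h3⟩
    intro q hq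
    rcases List.mem_cons.1 hq with rfl | hq
    · exact hab
    · have := (List.pairwise_cons.1 h3).1 q hq
      exact lt_trans this hab

/-- up, then down -/
theorem j5138_ud (h : Hyp c) (z : ℝ) (u : List ℝ) (hw : IsW c (z :: u)) (hnt : NT c (z :: u))
    (hch : (z :: u).IsChain (· ≠ ·)) (hc : c ∉ u) :
    ∃ U D : List ℝ, z :: u = U ++ D ∧ U ≠ [] ∧ U.Pairwise (· < ·) ∧ D.Pairwise (· > ·) := by
  induction u generalizing z with
  | nil => exact ⟨[z], [], rfl, by simp, by simp, by simp⟩
  | cons b t ih =>
    have hne : z ≠ b := (List.isChain_cons_cons.1 hch).1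
    rcases lt_or_gt_of_ne hne with h1 | h1
    · cases t with
      | nil => exact ⟨[z, b], [], rfl, by simp, by simp [h1], by simp⟩
      | cons e t' =>
        have hch' := (List.isChain_cons_cons.1 hch).2
        have hbe : b ≠ e := (List.isChain_cons_cons.1 hch').1
        have hbP : b ∈ P c := hw b (by simp)
        have heP : e ∈ P c := hw e (by simp)
        rcases lt_or_gt_of_ne hbe with h2 | h2
        · obtain ⟨U, D, hUD, hU, hU1, hD1⟩ := ih b (fun q hq => hw q (List.mem_cons_of_mem _ hq))
            (j5138_sub (l := [z]) hnt) hch' (fun hq => hc (List.mem_cons_of_mem _ hq))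
          obtain ⟨b', U', rfl⟩ := List.exists_cons_of_ne_nil hU
          simp only [List.cons_append, List.cons.injEq] at hUD
          obtain ⟨rfl, hUD⟩ := hUD
          refine ⟨z :: b :: U', D, by simp [hUD], by simp, ?_, hD1⟩
          rw [List.pairwise_cons]
          refine ⟨?_, hU1⟩
          intro q hq
          rcases List.mem_cons.1 hq with rfl | hq
          · exact h1
          · exact lt_trans h1 ((List.pairwise_cons.1 hU1).1 q hq)
        · have h3 := j5138_down h b e t' (fun q hq => hw q (List.mem_cons_of_mem _ hq))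
            (j5138_sub (l := [z]) hnt) (fun hq => hc (List.mem_cons_of_mem _ hq)) h2
          exact ⟨[z], b :: e :: t', rfl, by simp, by simp, h3⟩
    · have h3 := j5138_down h z b t hw hnt hc h1
      refine ⟨[z], b :: t, rfl, by simp, by simp, (List.pairwise_cons.1 h3).2⟩

theorem j5138_len (h : Hyp c) (l : List ℝ) (hw : IsW c l) (hl : l.Nodup) : l.length ≤ (Pf c).card := by
  classical
  rw [← List.toFinset_card_of_nodup hl]
  apply Finset.card_le_card
  intro q hq
  rw [mem_Pf h]
  exact hw q (List.mem_toFinset.1 hq)

theorem j5138_rep_pre (h : Hyp c) {z : ℝ} (hz : z ∈ P c) (u : List ℝ) (hu : IsW c u)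
    (hch : (z :: u).IsChain (· ≠ ·)) (hnt : NT c (z :: u)) (hc : c ∉ u) :
    u.length ≤ 2 * (Pf c).card := by
  have hw : IsW c (z :: u) := isW_cons.2 ⟨hz, hu⟩
  obtain ⟨U, D, hUD, -, hU, hD⟩ := j5138_ud h z u hw hnt hch hc
  have hUw : IsW c U := fun q hq => hw q (by rw [hUD]; simp [hq])
  have hDw : IsW c D := fun q hq => hw q (by rw [hUD]; simp [hq])
  have h1 := j5138_len h U hUw (hU.imp (fun h => ne_of_lt h))
  have h2 := j5138_len h D hDw (hD.imp (fun h => ne_of_gt h))
  have h3 : (z :: u).length = U.length + D.length := by rw [hUD, List.length_append]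
  rw [List.length_cons] at h3
  omega

/-- the shape of a block -/
theorem j5138_seg (h : Hyp c) (z b : ℝ) (w : List ℝ) (hw : IsW c (z :: b :: w)) (hc : c ∉ b :: w) (hzb : z < b)
    (hch : (z :: b :: w).IsChain (· ≠ ·)) (hnt : NT c (z :: b :: w ++ [c])) :
    ∃ U D : List ℝ, b :: w = U ++ (c ^ 2 + c) :: D ∧ (z :: U).Pairwise (· < ·) ∧ (∀ q ∈ U, q < c ^ 2 + c) ∧
      D.Pairwise (· > ·) ∧ (∀ q ∈ D, q < c ^ 2 + c) := by
  induction w generalizing z b with
  | nil =>
    have hbP : b ∈ P c := hw b (by simp)
    have hbc : b ≠ c := fun hb => hc (by rw [hb]; simp)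
    have hcb := (h.Pbd hbP).1
    rcases hnt [] z b c [] rfl with h2 | h2 | h2 | h2
    · exact absurd h2 hbc
    · refine ⟨[], [], by simp [h2], by simp, by simp, by simp, by simp⟩
    · linarith [h2.2]
    · linarith [h2.2]
  | cons e t ih =>
    have hbP : b ∈ P c := hw b (by simp)
    have heP : e ∈ P c := hw e (by simp)
    have hbc : b ≠ c := fun hb => hc (by rw [hb]; simp)
    have hch' := (List.isChain_cons_cons.1 hch).2
    have hbe : b ≠ e := (List.isChain_cons_cons.1 hch').1
    rcases hnt [] z b e (t ++ [c]) rfl with h2 | h2 | h2 | h2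
    · exact absurd h2 hbc
    · have hnt' : NT c (b :: e :: t) := j5138_pre (l := [c]) (j5138_sub (l := [z]) (by simpa using hnt))
      have heb : e < b := by
        have := (h.Pbd heP).2
        rw [h2] at hbe ⊢
        exact lt_of_le_of_ne this (Ne.symm hbe)
      have h3 := j5138_down h b e t (fun q hq => hw q (List.mem_cons_of_mem _ hq)) hnt'
        (fun hq => hc (List.mem_cons_of_mem _ hq)) heb
      rw [List.pairwise_cons] at h3
      refine ⟨[], e :: t, by simp [h2], by simp, by simp, h3.2, fun q hq => ?_⟩
      have := h3.1 q hq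
      rw [← h2]
      exact this
    · have hnt' : NT c (b :: e :: t ++ [c]) := j5138_sub (l := [z]) (by simpa using hnt)
      obtain ⟨U, D, hUD, hU, hU2, hD, hD2⟩ := ih b e (fun q hq => hw q (List.mem_cons_of_mem _ hq))
        (fun hq => hc (List.mem_cons_of_mem _ hq)) h2.2 hch' hnt'
      refine ⟨b :: U, D, by rw [hUD]; simp, ?_, ?_, hD, hD2⟩
      · rw [List.pairwise_cons]
        refine ⟨?_, hU⟩
        intro q hq
        rcases List.mem_cons.1 hq with rfl | hq
        · exact hzb
        · exact lt_trans hzb ((List.pairwise_cons.1 hU).1 q hq)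
      · intro q hq
        rcases List.mem_cons.1 hq with rfl | hq
        · exact lt_of_lt_of_le h2.2 (h.Pbd heP).2
        · exact hU2 q hq
    · linarith [h2.2]

open Classical in
/-- an increasing list of interior letters is the list read off the two halves -/
theorem j5138_list (h : Hyp c) (U : List ℝ) (hU : U.Pairwise (· < ·)) (hw : IsW c U)
    (h1 : ∀ q ∈ U, c < q) (h2 : ∀ q ∈ U, q < c ^ 2 + c) :
    (LA c).filter (fun q => decide (q ∈ U)) ++ (LB c).filter (fun q => decide (q ∈ U)) = U := by
  have hA : (LA c).Pairwise (· < ·) := (Finset.sortedLT_sort _).pairwise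
  have hB : (LB c).Pairwise (· < ·) := (Finset.sortedLT_sort _).pairwise
  have hAm : ∀ q, q ∈ LA c ↔ q ∈ P c ∧ c < q ∧ q < 0 := by
    intro q
    unfold LA
    rw [Finset.mem_sort, Finset.mem_filter, mem_Pf h]
  have hBm : ∀ q, q ∈ LB c ↔ q ∈ P c ∧ 0 < q ∧ q < c ^ 2 + c := by
    intro q
    unfold LB
    rw [Finset.mem_sort, Finset.mem_filter, mem_Pf h]
  apply List.Pairwise.eq_of_mem_iff (r := (· < ·))
  · rw [List.pairwise_append]
    refine ⟨hA.filter _, hB.filter _, ?_⟩
    intro x hx y hy
    have hx' := (hAm x).1 (List.mem_filter.1 hx).1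
    have hy' := (hBm y).1 (List.mem_filter.1 hy).1
    linarith [hx'.2.2, hy'.2.1]
  · exact hU
  · intro q
    rw [List.mem_append, List.mem_filter, List.mem_filter, hAm, hBm]
    simp only [decide_eq_true_eq]
    constructor
    · rintro (h3 | h3)
      · exact h3.2
      · exact h3.2
    · intro hq
      have hqP := hw q hq
      have hq0 : q ≠ 0 := fun e => h.nz (e ▸ hqP)
      rcases lt_or_gt_of_ne hq0 with h3 | h3
      · exact Or.inl ⟨⟨hqP, h1 q hq, h3⟩, hq⟩
      · exact Or.inr ⟨⟨hqP, h3, h2 q hq⟩, hq⟩

theorem j5138_shift (S S' : ℕ → ℝ → Prop) (hS : ∀ k, S (4 + k) = S' k) (a n : ℕ) : W c S (4 + a) n = W c S' a n := by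
  induction n generalizing a with
  | zero => rfl
  | succ n ih =>
    have h1 : hw c S (4 + a) = hw c S' a := by
      unfold hw
      rw [hS a, Nat.add_mod_left]
    unfold W
    rw [h1, show 4 + a + 1 = 4 + (a + 1) by ring, ih (a + 1)]

open Classical in
theorem j5138_rep (h : Hyp c) (n : ℕ) (u : List ℝ) (hn : u.length ≤ n) (hu : IsW c u) (hch : (c :: u).IsChain (· ≠ ·))
    (hnt : NT c (c :: u)) :
    ∃ (S : ℕ → ℝ → Prop) (r : ℕ) (y : List ℝ), u = W c S 0 (4 * r) ++ y ∧ r = u.count c ∧ c ∉ y ∧
      y.length ≤ 2 * (Pf c).card := by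
  induction n generalizing u with
  | zero =>
    have : u = [] := List.eq_nil_of_length_eq_zero (by omega)
    subst this
    exact ⟨fun _ _ => False, 0, [], by simp [W], by simp, by simp, by simp⟩
  | succ n ih =>
    by_cases hc : c ∈ u
    · obtain ⟨v, u', hvu, hv⟩ := List.eq_append_cons_of_mem hc
      have hvu' : u = v ++ c :: u' := hvu
      subst hvu'
      have hvne : v ≠ [] := by
        rintro rfl
        simp at hch
      obtain ⟨b, w, rfl⟩ := List.exists_cons_of_ne_nil hvne
      have hbP : b ∈ P c := hu b (by simp)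
      have hbc : b ≠ c := fun e => hv (by rw [e]; simp)
      have hcb : c < b := lt_of_le_of_ne (h.Pbd hbP).1 (Ne.symm hbc)
      have hwW : IsW c (c :: b :: w) := by
        intro q hq
        rcases List.mem_cons.1 hq with rfl | hq
        · exact c_mem
        · exact hu q (by simp at hq ⊢; tauto)
      have hch1 : (c :: b :: w).IsChain (· ≠ ·) := by
        have e1 : c :: (b :: w ++ c :: u') = (c :: b :: w) ++ c :: u' := by simp
        rw [e1] at hch
        exact hch.left_of_append
      have hnt1 : NT c (c :: b :: w ++ [c]) := by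
        have e1 : c :: (b :: w ++ c :: u') = (c :: b :: w ++ [c]) ++ u' := by simp
        rw [e1] at hnt
        exact j5138_pre hnt
      obtain ⟨U, D, hUD, hU, hU2, hD, hD2⟩ := j5138_seg h c b w hwW hv hcb hch1 hnt1
      have hu'W : IsW c u' := fun q hq => hu q (by simp [hq])
      have hch2 : (c :: u').IsChain (· ≠ ·) := by
        have e1 : c :: (b :: w ++ c :: u') = (c :: b :: w) ++ c :: u' := by simp
        rw [e1] at hch
        exact hch.right_of_append
      have hnt2 : NT c (c :: u') := by
        have e1 : c :: (b :: w ++ c :: u') = (c :: b :: w) ++ c :: u' := by simp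
        rw [e1] at hnt
        exact j5138_sub hnt
      obtain ⟨S', r', y, h1, h2, h3, h4⟩ := ih u' (by simp at hn; omega) hu'W hch2 hnt2
      have hvW : IsW c (b :: w) := fun q hq => hwW q (List.mem_cons_of_mem _ hq)
      have hUW : IsW c U := fun q hq => hvW q (by rw [hUD]; simp [hq])
      have hDW : IsW c D := fun q hq => hvW q (by rw [hUD]; simp [hq])
      have hDc : ∀ q ∈ D, c < q := by
        intro q hq
        have hqc : q ≠ c := fun e => hv (by rw [hUD, ← e]; simp [hq])
        exact lt_of_le_of_ne (h.Pbd (hDW q hq)).1 (Ne.symm hqc)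
      have hLU := j5138_list h U (List.pairwise_cons.1 hU).2 hUW (fun q hq => (List.pairwise_cons.1 hU).1 q hq) hU2
      have hLD := j5138_list h D.reverse (by rw [List.pairwise_reverse]; exact hD)
        (fun q hq => hDW q (List.mem_reverse.1 hq)) (fun q hq => hDc q (List.mem_reverse.1 hq))
        (fun q hq => hD2 q (List.mem_reverse.1 hq))
      set S : ℕ → ℝ → Prop := fun k q => if k < 2 then q ∈ U else if k < 4 then q ∈ D else S' (k - 4) q with hSdef
      have hS : ∀ k, S (4 + k) = S' k := by
        intro k
        funext q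
        simp only [hSdef]
        rw [if_neg (by omega), if_neg (by omega)]
        simp
      have hS0 : S 0 = fun q => q ∈ U := by funext q; simp [hSdef]
      have hS1 : S 1 = fun q => q ∈ U := by funext q; simp [hSdef]
      have hS2 : S 2 = fun q => q ∈ D := by funext q; simp [hSdef]
      have hS3 : S 3 = fun q => q ∈ D := by funext q; simp [hSdef]
      have hW4 : W c S 0 4 = (b :: w) ++ [c] := by
        have e1 : W c S 0 4 = hw c S 0 ++ (hw c S 1 ++ (hw c S 2 ++ (hw c S 3 ++ []))) := rfl
        have e2 : hw c S 0 = (LA c).filter (fun q => decide (q ∈ U)) := by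
          unfold hw
          rw [if_pos (by norm_num), hS0]
          exact List.filter_congr (fun q _ => by simp)
        have e3 : hw c S 1 = (LB c).filter (fun q => decide (q ∈ U)) ++ [c ^ 2 + c] := by
          unfold hw
          rw [if_neg (by norm_num), if_pos (by norm_num), hS1]
          refine congrArg (fun l => l ++ [c ^ 2 + c]) (List.filter_congr (fun q _ => ?_))
          simp
        have e4 : hw c S 2 = ((LB c).filter (fun q => decide (q ∈ D))).reverse := by
          unfold hw
          rw [if_neg (by norm_num), if_neg (by norm_num), if_pos (by norm_num), hS2, List.filter_reverse]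
          refine congrArg List.reverse (List.filter_congr (fun q _ => ?_))
          simp
        have e5 : hw c S 3 = ((LA c).filter (fun q => decide (q ∈ D))).reverse ++ [c] := by
          unfold hw
          rw [if_neg (by norm_num), if_neg (by norm_num), if_neg (by norm_num), hS3, List.filter_reverse]
          refine congrArg (fun l => List.reverse l ++ [c]) (List.filter_congr (fun q _ => ?_))
          simp
        have e6 : ((LB c).filter (fun q => decide (q ∈ D))).reverse ++
            ((LA c).filter (fun q => decide (q ∈ D))).reverse = D := by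
          rw [← List.reverse_append]
          have e7 : (LA c).filter (fun q => decide (q ∈ D)) ++ (LB c).filter (fun q => decide (q ∈ D)) =
              D.reverse := by
            simp only [List.mem_reverse] at hLD
            exact hLD
          rw [e7, List.reverse_reverse]
        rw [e1, e2, e3, e4, e5, hUD]
        calc _ = ((LA c).filter (fun q => decide (q ∈ U)) ++ (LB c).filter (fun q => decide (q ∈ U))) ++
              ([c ^ 2 + c] ++ ((((LB c).filter (fun q => decide (q ∈ D))).reverse ++
            ((LA c).filter (fun q => decide (q ∈ D))).reverse) ++ [c])) := by simp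
          _ = _ := by rw [hLU, e6]; simp
      refine ⟨S, r' + 1, y, ?_, ?_, h3, h4⟩
      · rw [show 4 * (r' + 1) = 4 + 4 * r' by ring, W_add, hW4, Nat.zero_add]
        have h5 := j5138_shift (c := c) S S' hS 0 (4 * r')
        rw [Nat.add_zero] at h5
        rw [h5, List.append_assoc, List.append_assoc, ← h1]
        simp
      · rw [List.count_append, List.count_cons_self, ← h2, List.count_eq_zero_of_not_mem hv]
        omega
    · exact ⟨fun _ _ => False, 0, u, by simp [W], by rw [List.count_eq_zero_of_not_mem hc], hc,
        j5138_rep_pre h c_mem u hu hch hnt hc⟩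

open Classical in
/-- TARGET part 1 -/
theorem rep (h : Hyp c) (u : List ℝ) (hu : IsW c u) (hch : (c :: u).IsChain (· ≠ ·))
    (hnt : NT c (c :: u)) :
    ∃ (S : ℕ → ℝ → Prop) (r : ℕ) (y : List ℝ), u = W c S 0 (4 * r) ++ y ∧ r = u.count c ∧ c ∉ y ∧
      y.length ≤ 2 * (Pf c).card :=
  j5138_rep h u.length u le_rfl hu hch hnt

/-- TARGET part 2 (prove both) -/
theorem rep_pre (h : Hyp c) {z : ℝ} (hz : z ∈ P c) (u : List ℝ) (hu : IsW c u)
    (hch : (z :: u).IsChain (· ≠ ·)) (hnt : NT c (z :: u)) (hc : c ∉ u) :
    u.length ≤ 2 * (Pf c).card :=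
  j5138_rep_pre h hz u hu hch hnt hc

end Pool.Agent.Helper79_Real.T8
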