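import Pool.Agent.Helper79_Real.T1
import Pool.Agent.Helper79_Real.T4
import Pool.Agent.Helper79_Real.T7
import Pool.Agent.Helper79_Real.T8

namespace Pool.Agent.Helper79_Real.T9

open T1 (no_turn)

open T4 (zl_good)

open T7 (count_W)

open T8 (rep rep_pre)

variable {c : ℝ}

theorem T9_Qs_mono {m n : ℕ} (h : m ≤ n) : Qs c m ⊆ Qs c n := by
  induction h with
  | refl => exact subset_rfl
  | step _ ih => exact ih.trans (fun x hx => Or.inl (Or.inl hx))

theorem T9_Sep_mono {O : Finset ℝ} {m n : ℕ} (h : m ≤ n) (hs : Sep c O n) : Sep c O m :=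
  fun a ha b hb hab => hs a (T9_Qs_mono h ha) b (T9_Qs_mono h hb) hab

theorem T9_last (u : List ℝ) : ∀ z, z ∈ P c → IsW c u → u.getLastD z ∈ P c := by
  induction u with
  | nil => intro z hz _; simpa using hz
  | cons q u ih =>
    intro z _ hu
    rw [isW_cons] at hu
    rw [List.getLastD_cons]
    exact ih q hu.1 hu.2

/-- cut on the left after a letter -/
theorem T9_cutL {O : Finset ℝ} (hO : Ctx c O) {m : ℕ} {y q y' : ℝ} {u v : List ℝ} (hy : Pos c O y)
    (hy' : Pos c O y') (hw : IsW c (u ++ q :: v)) (hz : ZL c O m y (u ++ q :: v) y') :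
    ZL c O m q v y' := by
  rw [isW_append, isW_cons] at hw
  have hq := hO.posP hw.2.1
  have e : u ++ q :: v = (u ++ [q]) ++ v := by simp
  have hp : pl O y ((u ++ [q]) ++ v) y' = pl O y (u ++ [q]) q + pl O q v y' := by
    rw [← e]; exact pl_split u v
  refine (hO.zl_split (u := u ++ [q]) hy hy' hq ?_ hw.2.2 (by rw [← e]; exact hz) hp).2
  rw [isW_append, isW_cons]; exact ⟨hw.1, hw.2.1, isW_nil⟩

/-- cut on the right after a letter -/
theorem T9_cutR {O : Finset ℝ} (hO : Ctx c O) {m : ℕ} {y q y' : ℝ} {u v : List ℝ} (hy : Pos c O y)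
    (hy' : Pos c O y') (hw : IsW c (u ++ q :: v)) (hz : ZL c O m y (u ++ q :: v) y') :
    ZL c O m y (u ++ [q]) q := by
  rw [isW_append, isW_cons] at hw
  have hq := hO.posP hw.2.1
  have e : u ++ q :: v = (u ++ [q]) ++ v := by simp
  have hp : pl O y ((u ++ [q]) ++ v) y' = pl O y (u ++ [q]) q + pl O q v y' := by
    rw [← e]; exact pl_split u v
  refine (hO.zl_split (u := u ++ [q]) hy hy' hq ?_ hw.2.2 (by rw [← e]; exact hz) hp).1
  rw [isW_append, isW_cons]; exact ⟨hw.1, hw.2.1, isW_nil⟩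

/-- cut on the right before a letter -/
theorem T9_cutR' {O : Finset ℝ} (hO : Ctx c O) {m : ℕ} {y q y' : ℝ} {u v : List ℝ} (hy : Pos c O y)
    (hy' : Pos c O y') (hw : IsW c (u ++ q :: v)) (hz : ZL c O m y (u ++ q :: v) y') :
    ZL c O m y u q := by
  rw [isW_append] at hw
  have hq := hO.posP (isW_cons.1 hw.2).1
  exact (hO.zl_split hy hy' hq hw.1 hw.2 hz (pl_split' u v)).1

theorem T9_hw_last (S : ℕ → ℝ → Prop) (a : ℕ) (ha : a % 4 = 3) :
    ∃ u, hw c S a = u ++ [c] := by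
  unfold hw
  rw [if_neg (by omega), if_neg (by omega), if_neg (by omega)]
  exact ⟨_, rfl⟩

theorem T9_W_last (S : ℕ → ℝ → Prop) (r : ℕ) :
    W c S 0 (4 * r) = [] ∨ ∃ u, W c S 0 (4 * r) = u ++ [c] := by
  rcases Nat.eq_zero_or_pos r with rfl | hr
  · left; rfl
  · right
    obtain ⟨u, hu⟩ := T9_hw_last (c := c) S (4 * r - 1) (by omega)
    refine ⟨W c S 0 (4 * r - 1) ++ u, ?_⟩
    have key : ∀ n, W c S 0 (n + 1) = W c S 0 n ++ hw c S n := by
      intro n; rw [W_add, W, W, Nat.zero_add, List.append_nil]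
    have e := key (4 * r - 1)
    rw [hu, show 4 * r - 1 + 1 = 4 * r by omega] at e
    rw [e]; simp

/-- no turns -/
theorem T9_NT {O : Finset ℝ} (hO : Ctx c O) {M1 M : ℕ} (hM : M1 ≤ M)
    (hnt : ∀ a ∈ P c, ∀ b ∈ P c, ∀ e ∈ P c, b ≠ c → b ≠ c ^ 2 + c →
      ((a < b ∧ e < b) ∨ (b < a ∧ b < e)) → ¬ ZL c O M1 a [b] e)
    {z l : ℝ} (hz : z ∈ P c) (hl : l ∈ P c) {u : List ℝ} (hu : IsW c u)
    (hch : (z :: u).IsChain (· ≠ ·)) (hzl : ZL c O M z u l) : NT c (z :: u) := by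
  intro x a b e y hxy
  have hch2 := hch
  rw [hxy] at hch2
  have hab : a ≠ b ∧ b ≠ e := by
    have h1 := (List.isChain_append.1 hch2).2.1
    rw [List.isChain_cons_cons, List.isChain_cons_cons] at h1
    exact ⟨h1.1, h1.2.1⟩
  have hW : IsW c (x ++ a :: b :: e :: y) := by rw [← hxy, isW_cons]; exact ⟨hz, hu⟩
  rw [isW_append, isW_cons, isW_cons, isW_cons] at hW
  obtain ⟨-, haP, hbP, heP, hyP⟩ := hW
  have hcut : ZL c O M a (b :: e :: y) l := by
    cases x with
    | nil =>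
      rw [List.nil_append, List.cons.injEq] at hxy
      obtain ⟨rfl, rfl⟩ := hxy
      exact hzl
    | cons x0 x' =>
      rw [List.cons_append, List.cons.injEq] at hxy
      obtain ⟨rfl, rfl⟩ := hxy
      exact T9_cutL hO (hO.posP hz) (hO.posP hl) hu hzl
  have hW2 : IsW c ([b] ++ e :: y) := by
    rw [List.singleton_append, isW_cons, isW_cons]; exact ⟨hbP, heP, hyP⟩
  have hcut2 : ZL c O M a [b] e := T9_cutR' hO (hO.posP haP) (hO.posP hl) hW2 hcut
  have hW3 : IsW c [b] := by rw [isW_cons]; exact ⟨hbP, isW_nil⟩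
  have hcut3 := hO.zl_mono hM (hO.posP haP) (hO.posP heP) hW3 hcut2
  by_contra hcon
  push Not at hcon
  obtain ⟨h1, h2, h3, h4⟩ := hcon
  apply hnt a haP b hbP e heP h1 h2 _ hcut3
  rcases lt_or_gt_of_ne hab.1 with h5 | h5
  · left
    exact ⟨h5, lt_of_le_of_ne (h3 h5) (Ne.symm hab.2)⟩
  · right
    refine ⟨h5, ?_⟩
    by_contra h6
    rw [not_lt] at h6
    have h7 := lt_of_le_of_ne h6 (Ne.symm hab.2)
    exact absurd h5 (not_lt.2 (h4 h7))

theorem T9_finite (h : Hyp c) (n : ℕ) : {w : List ℝ | IsW c w ∧ w.length ≤ n}.Finite := by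
  have : Finite (P c) := h.fin.to_subtype
  refine ((List.finite_length_le (P c) n).image (List.map Subtype.val)).subset ?_
  rintro w ⟨hw, hn⟩
  lift w to List (P c) using hw
  exact ⟨w, by simpa using hn, rfl⟩

open Classical in
/-- TARGET -/
theorem pieces (h : Hyp c) : ∃ M K : ℕ, ∀ O : Finset ℝ, Ctx c O → Sep c O M → ∀ z ∈ P c, ∀ s : ℕ,
    {g | ∃ u, IsW c u ∧ (z :: u).IsChain (· ≠ ·) ∧ ZL c O M z u (u.getLastD z) ∧ u.count c = s ∧
      val c u = g}.Finite ∧
    {g | ∃ u, IsW c u ∧ (z :: u).IsChain (· ≠ ·) ∧ ZL c O M z u (u.getLastD z) ∧ u.count c = s ∧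
      val c u = g}.ncard ≤ K := by
  obtain ⟨M1, hM1⟩ := no_turn h
  obtain ⟨m1, K0, hK0⟩ := count_W h
  obtain ⟨V, hV⟩ : ∃ V, V = val c '' {w : List ℝ | IsW c w ∧ w.length ≤ 2 * (Pf c).card} := ⟨_, rfl⟩
  have hVf : V.Finite := by rw [hV]; exact (T9_finite h _).image _
  refine ⟨max (max M1 m1) 1, V.ncard + V.ncard * (K0 * V.ncard), ?_⟩
  intro O hO hs z hz s
  obtain ⟨GW, hGW⟩ : ∃ GW, GW = {g | ∃ S, Good c m1 S (s - 1) ∧ val c (W c S 0 (4 * (s - 1))) = g} :=
    ⟨_, rfl⟩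
  have hGf : GW.Finite := by rw [hGW]; exact (hK0 (s - 1)).1
  have hGn : GW.ncard ≤ K0 := by rw [hGW]; exact (hK0 (s - 1)).2
  obtain ⟨T, hT⟩ : ∃ T : Set (Equiv.Perm (List Bool)),
      T = (fun p : Equiv.Perm (List Bool) × Equiv.Perm (List Bool) × Equiv.Perm (List Bool) =>
        p.1 * p.2.1 * gen c c * p.2.2) '' (V ×ˢ GW ×ˢ V) := ⟨_, rfl⟩
  have hprod : (V ×ˢ GW ×ˢ V).Finite := hVf.prod (hGf.prod hVf)
  have hTf : T.Finite := by rw [hT]; exact hprod.image _
  have hTn : T.ncard ≤ V.ncard * (K0 * V.ncard) := by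
    rw [hT]
    refine le_trans (Set.ncard_image_le hprod) ?_
    rw [Set.ncard_prod, Set.ncard_prod]
    exact Nat.mul_le_mul le_rfl (Nat.mul_le_mul hGn le_rfl)
  have hsub : {g | ∃ u, IsW c u ∧ (z :: u).IsChain (· ≠ ·) ∧
      ZL c O (max (max M1 m1) 1) z u (u.getLastD z) ∧ u.count c = s ∧ val c u = g} ⊆ V ∪ T := by
    rintro g ⟨u, hu, hch, hzl, hcnt, rfl⟩
    have hl := T9_last u z hz hu
    have hNT : NT c (z :: u) := T9_NT hO (M1 := M1) (by omega)
      (hM1 O hO (T9_Sep_mono (by omega) hs)) hz hl hu hch hzl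
    by_cases hc : c ∈ u
    · right
      obtain ⟨u0, u1, rfl, hc0⟩ := List.eq_append_cons_of_mem hc
      have hu' := hu
      rw [isW_append, isW_cons] at hu'
      obtain ⟨hu0, hcP, hu1⟩ := hu'
      rw [show z :: (u0 ++ c :: u1) = (z :: u0) ++ c :: u1 by simp] at hch hNT
      have hch' := List.isChain_append.1 hch
      have hNT0 : NT c (z :: u0) := by
        intro x a b e y hxy
        exact hNT x a b e (y ++ c :: u1) (by rw [hxy]; simp)
      have hNT1 : NT c (c :: u1) := by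
        intro x a b e y hxy
        exact hNT ((z :: u0) ++ x) a b e y (by rw [hxy]; simp)
      have hlen := rep_pre h hz u0 hu0 hch'.1 hNT0 hc0
      obtain ⟨S, r, y, hy, hr, hcy, hylen⟩ := rep h u1 hu1 hch'.2.1 hNT1
      have hr1 : r = s - 1 := by
        rw [List.count_append, List.count_cons_self, List.count_eq_zero.2 hc0] at hcnt
        omega
      have hz1 := T9_cutL hO (hO.posP hz) (hO.posP hl) hu hzl
      have hz2 : ZL c O (max (max M1 m1) 1) c (W c S 0 (4 * r)) c := by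
        rcases T9_W_last (c := c) S r with h0 | ⟨w', h0⟩
        · rw [h0]; unfold ZL; simp [pl]
        · have e : u1 = w' ++ c :: y := by rw [hy, h0]; simp
          obtain ⟨l', hl'⟩ : ∃ l', l' = (u0 ++ c :: u1).getLastD z := ⟨_, rfl⟩
          rw [← hl'] at hz1 hl
          rw [e] at hz1 hu1
          rw [h0]
          exact T9_cutR hO (hO.posP hcP) (hO.posP hl) hu1 hz1
      have hWisW : IsW c (W c S 0 (4 * r)) := by
        rw [hy, isW_append] at hu1; exact hu1.1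
      have hyisW : IsW c y := by
        rw [hy, isW_append] at hu1; exact hu1.2
      have hz3 := hO.zl_mono (m := m1) (by omega) (hO.posP hcP) (hO.posP hcP) hWisW hz2
      have hgood := zl_good h hO (T9_Sep_mono (by omega) hs) m1 S r hz3
      rw [hT]
      refine ⟨(val c y, val c (W c S 0 (4 * r)), val c u0), ⟨?_, ?_, ?_⟩, ?_⟩
      · rw [hV]; exact ⟨y, ⟨hyisW, hylen⟩, rfl⟩
      · rw [hGW]; exact ⟨S, by rw [← hr1]; exact hgood, by rw [← hr1]⟩
      · rw [hV]; exact ⟨u0, ⟨hu0, hlen⟩, rfl⟩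
      · simp only []
        rw [val_append, val_cons, hy, val_append]
    · left
      rw [hV]
      exact ⟨u, ⟨hu, rep_pre h hz u hu hch hNT hc⟩, rfl⟩
  refine ⟨(hVf.union hTf).subset hsub, ?_⟩
  refine le_trans (Set.ncard_le_ncard hsub (hVf.union hTf)) ?_
  refine le_trans (Set.ncard_union_le _ _) ?_
  omega

end Pool.Agent.Helper79_Real.T9
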