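import Pool.Agent.Helper79_Real.Count

/-!
Lemma job U1 (counting the elements of small total length at level `M`).  Definitions: Pool/Agent/Helper79_Real/{Defs,
Base,Path,Facts,Blocks,Count}.lean on origin/main (copy the folder to your working tree and
`lake build Pool.Agent.Helper79_Real.Count`).

Plain-words proof.
`S_conv`: induction on `q`.  `q = 0`: `∑ a ≤ m, 1 * S N r (m-a) ≤ ∑ a ≤ m, N a * S N r (m-a) = S N (r+1) m`.
  `q+1`: `∑ a ≤ m, (∑ b ≤ a, N b * S N q (a-b)) * S N r (m-a) = ∑ b ≤ m, N b * ∑ a' ≤ m-b, S N q a' * S N r (m-b-a')`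
  `≤ ∑ b ≤ m, N b * S N (q+r+1) (m-b) = S N (q+r+2) m`.
`S N q` is monotone in `m` (induction on `q`), and `N m ≤ S N 1 m`.
`case1`: induction on `M`.  Write `N n = (NN c O n).ncard`; `N n ≥ 1` as the empty word is in `NN c O n`.
  `M = 0`: if `mn c O y w y' ≤ m` take `w'` from `mn_spec`: same value, `pl O y w' y' ≤ m`; then
    `pl O c w' c ≤ d O c y + pl O y w' y' + d O y' c ≤ m + 2 |O|` (`pl_append_le` with empty words, `d_le_card`; `y, y' ∉ O`),
    so `XX c O 0 y y' m ⊆ NN c O (m + 2|O|)`; `B = 1`, `C = 2|O|`, `q = 1`.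
  `M+1`: map `g = val c w` to `(fin c true w, val c (sec c true w), val c (sec c false w))`; well defined and injective on values of words by
    `val_eq_iff` (`fin c false w = !(fin c true w)` by `fin_not`).  `X c O (M+1) y w y' = x1 + x2` with `x1 = X c O M (lam c true y) (sec c true w) (lam c b y')`,
    `x2 = X c O M (lam c false y) (sec c false w) (lam c (!b) y')`, `b = fin c true w`; these only depend on the values (`X_congr`).  So for each of the two values of `b` the image is
    contained in the union over `a ≤ m` of `XX c O M .. .. a ×ˢ XX c O M .. .. (m - a)` (`a = x1`), hence (`Ctx.pos_lam`, `isW_sec`)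
    `ncard ≤ 2 * ∑ a ≤ m, B^2 * S N q (a + C) * S N q (m - a + C) ≤ 2 B^2 * ∑ a' ≤ m + 2C, S N q a' * S N q (m + 2C - a') ≤ 2 B^2 * S N (2q+1) (m + 2C)`.
-/

namespace Pool.Agent.Helper79_Real.U1

open Finset

variable {c : ℝ} {O : Finset ℝ}


theorem U1_S_mono (N : ℕ → ℕ) (q : ℕ) : Monotone (S N q) := by
  induction q with
  | zero => intro a b _; exact le_rfl
  | succ q ih =>
    intro a b hab
    simp only [S]
    calc ∑ x ∈ range (a + 1), N x * S N q (a - x)
        ≤ ∑ x ∈ range (a + 1), N x * S N q (b - x) :=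
          Finset.sum_le_sum fun x _ => Nat.mul_le_mul_left _ (ih (Nat.sub_le_sub_right hab x))
      _ ≤ ∑ x ∈ range (b + 1), N x * S N q (b - x) :=
          Finset.sum_le_sum_of_subset (Finset.range_mono (by omega))

theorem U1_S_one (N : ℕ → ℕ) (m : ℕ) : N m ≤ S N 1 m := by
  simp only [S, mul_one]
  exact Finset.single_le_sum (f := N) (fun _ _ => Nat.zero_le _) (Finset.mem_range.2 (by omega))

/-- TARGET 1 -/
theorem S_conv (N : ℕ → ℕ) (hN : ∀ a, 1 ≤ N a) (q r m : ℕ) :
    ∑ a ∈ range (m + 1), S N q a * S N r (m - a) ≤ S N (q + r + 1) m := by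
  induction q generalizing m with
  | zero =>
    have e : 0 + r + 1 = r + 1 := by ring
    rw [e]
    simp only [S]
    exact Finset.sum_le_sum fun a _ => Nat.mul_le_mul_right _ (hN a)
  | succ q ih =>
    have e : q + 1 + r + 1 = (q + r + 1) + 1 := by ring
    rw [e]
    simp only [S]
    calc ∑ a ∈ range (m + 1), (∑ b ∈ range (a + 1), N b * S N q (a - b)) * S N r (m - a)
        = ∑ b ∈ range (m + 1), ∑ a ∈ range (m - b + 1),
            N b * (S N q a * S N r (m - b - a)) := by
          simp only [Finset.sum_mul]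
          rw [Finset.sum_sigma', Finset.sum_sigma']
          refine Finset.sum_bij' (fun x _ => ⟨x.2, x.1 - x.2⟩) (fun x _ => ⟨x.2 + x.1, x.1⟩)
            ?_ ?_ ?_ ?_ ?_
          · rintro ⟨a, b⟩ hx
            simp only [Finset.mem_sigma, Finset.mem_range] at hx ⊢
            omega
          · rintro ⟨a, b⟩ hx
            simp only [Finset.mem_sigma, Finset.mem_range] at hx ⊢
            omega
          · rintro ⟨a, b⟩ hx
            simp only [Finset.mem_sigma, Finset.mem_range] at hx
            have e1 : a - b + b = a := by omega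
            simp only [e1]
          · rintro ⟨a, b⟩ hx
            have e1 : b + a - a = b := by omega
            simp only [e1]
          · rintro ⟨a, b⟩ hx
            simp only [Finset.mem_sigma, Finset.mem_range] at hx
            have e1 : m - b - (a - b) = m - a := by omega
            simp only [e1]
            ring
      _ ≤ ∑ b ∈ range (m + 1), N b * S N (q + r + 1) (m - b) := by
          refine Finset.sum_le_sum fun b _ => ?_
          rw [← Finset.mul_sum]
          exact Nat.mul_le_mul_left _ (ih (m - b))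


theorem U1_zero (h : Ctx c O) (m : ℕ) (y y' : ℝ) (hy : Pos c O y) (hy' : Pos c O y') :
    XX c O 0 y y' m ⊆ NN c O (m + 2 * O.card) := by
  rintro g ⟨w, hw, hg, hX⟩
  obtain ⟨w', h1, h2, h3⟩ := mn_spec (O := O) (y := y) (y' := y') hw
  refine ⟨w', h1, h2.trans hg, ?_⟩
  simp only [X] at hX
  have a1 := pl_head (O := O) (y := c) (z := y) (y' := c) hy.1 w'
  have a2 := pl_append_le (O := O) (y := y) (z := y') (y' := c) hy'.1 w' []
  rw [List.append_nil] at a2
  simp only [pl] at a2
  have a3 := d_le_card O c y
  have a4 := d_le_card O y' c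
  omega

open Classical in
/-- the element with given sections -/
noncomputable def U1_psi (c : ℝ) (b : Bool) (x : Equiv.Perm (List Bool) × Equiv.Perm (List Bool)) :
    Equiv.Perm (List Bool) :=
  if hx : ∃ w, fin c true w = b ∧ val c (sec c true w) = x.1 ∧ val c (sec c false w) = x.2 then
    val c hx.choose else 1

theorem U1_psi_eq (w : List ℝ) :
    U1_psi c (fin c true w) (val c (sec c true w), val c (sec c false w)) = val c w := by
  have hx : ∃ w', fin c true w' = fin c true w ∧ val c (sec c true w') = val c (sec c true w) ∧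
      val c (sec c false w') = val c (sec c false w) := ⟨w, rfl, rfl, rfl⟩
  unfold U1_psi
  rw [dif_pos hx]
  obtain ⟨h1, h2, h3⟩ := hx.choose_spec
  rw [val_eq_iff]
  intro b
  cases b
  · refine ⟨?_, h3⟩
    have e1 := fin_not (c := c) true hx.choose
    have e2 := fin_not (c := c) true w
    simp only [Bool.not_true] at e1 e2
    rw [e1, e2, h1]
  · exact ⟨h1, h2⟩

theorem U1_sub (M m : ℕ) (y y' : ℝ) :
    XX c O (M + 1) y y' m ⊆ ⋃ p ∈ (Finset.univ : Finset Bool) ×ˢ range (m + 1),
      U1_psi c p.1 '' (XX c O M (lam c true y) (lam c p.1 y') p.2 ×ˢ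
        XX c O M (lam c false y) (lam c (!p.1) y') (m - p.2)) := by
  rintro g ⟨w, _, hg, hX⟩
  simp only [X] at hX
  have e1 := fin_not (c := c) true w
  simp only [Bool.not_true] at e1
  rw [e1] at hX
  rw [Set.mem_iUnion₂]
  refine ⟨(fin c true w, X c O M (lam c true y) (sec c true w) (lam c (fin c true w) y')),
    ?_, (val c (sec c true w), val c (sec c false w)), ⟨?_, ?_⟩, ?_⟩
  · simp only [Finset.mem_product, Finset.mem_univ, true_and, Finset.mem_range]
    omega
  · exact ⟨_, isW_sec _ _, rfl, le_rfl⟩
  · refine ⟨_, isW_sec _ _, rfl, ?_⟩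
    simp only
    omega
  · simp only
    rw [U1_psi_eq, hg]

/-- TARGET 2 (prove both) -/
theorem case1 (h : Ctx c O) (hfin : ∀ n, (NN c O n).Finite) (M : ℕ) :
    ∃ B C q : ℕ, ∀ (m : ℕ) (y y' : ℝ), Pos c O y → Pos c O y' →
      (XX c O M y y' m).Finite ∧
      (XX c O M y y' m).ncard ≤ B * S (fun n => (NN c O n).ncard) q (m + C) := by
  set N : ℕ → ℕ := fun n => (NN c O n).ncard with hNdef
  have hN : ∀ a, 1 ≤ N a := by
    intro a
    have hne : (NN c O a).Nonempty := ⟨1, [], isW_nil, rfl, by simp [pl]⟩
    exact (Set.ncard_pos (hfin a)).2 hne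
  induction M with
  | zero =>
    refine ⟨1, 2 * O.card, 1, fun m y y' hy hy' => ?_⟩
    have hs := U1_zero h m y y' hy hy'
    refine ⟨(hfin _).subset hs, ?_⟩
    rw [one_mul]
    exact (Set.ncard_le_ncard hs (hfin _)).trans (U1_S_one N _)
  | succ M ih =>
    obtain ⟨B, C, q, hI⟩ := ih
    refine ⟨2 * B ^ 2, 2 * C, q + q + 1, fun m y y' hy hy' => ?_⟩
    have hsub := U1_sub (c := c) (O := O) M m y y'
    have hF : ∀ p : Bool × ℕ, (XX c O M (lam c true y) (lam c p.1 y') p.2 ×ˢ
        XX c O M (lam c false y) (lam c (!p.1) y') (m - p.2)).Finite := fun p =>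
      (hI p.2 _ _ (h.pos_lam hy true) (h.pos_lam hy' p.1)).1.prod
        (hI (m - p.2) _ _ (h.pos_lam hy false) (h.pos_lam hy' (!p.1))).1
    have hfinU : (⋃ p ∈ (Finset.univ : Finset Bool) ×ˢ range (m + 1),
      U1_psi c p.1 '' (XX c O M (lam c true y) (lam c p.1 y') p.2 ×ˢ
        XX c O M (lam c false y) (lam c (!p.1) y') (m - p.2))).Finite :=
      Set.Finite.biUnion (Finset.finite_toSet _) fun p _ => (hF p).image _
    refine ⟨hfinU.subset hsub, (Set.ncard_le_ncard hsub hfinU).trans ?_⟩
    refine (Finset.set_ncard_biUnion_le _ _).trans ?_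
    calc ∑ p ∈ (Finset.univ : Finset Bool) ×ˢ range (m + 1),
          (U1_psi c p.1 '' (XX c O M (lam c true y) (lam c p.1 y') p.2 ×ˢ
            XX c O M (lam c false y) (lam c (!p.1) y') (m - p.2))).ncard
        ≤ ∑ p ∈ (Finset.univ : Finset Bool) ×ˢ range (m + 1),
          (B * S N q (p.2 + C)) * (B * S N q (m - p.2 + C)) := by
          refine Finset.sum_le_sum fun p _ => ?_
          refine (Set.ncard_image_le (hF p)).trans ?_
          rw [Set.ncard_prod]
          exact Nat.mul_le_mul (hI p.2 _ _ (h.pos_lam hy true) (h.pos_lam hy' p.1)).2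
            (hI (m - p.2) _ _ (h.pos_lam hy false) (h.pos_lam hy' (!p.1))).2
      _ = 2 * B ^ 2 * ∑ a ∈ range (m + 1), S N q (a + C) * S N q (m - a + C) := by
          rw [Finset.sum_product]
          simp only [Finset.sum_const, Finset.card_univ, Fintype.card_bool, smul_eq_mul]
          rw [mul_assoc]
          congr 1
          rw [Finset.mul_sum]
          refine Finset.sum_congr rfl fun a _ => ?_
          ring
      _ ≤ 2 * B ^ 2 * ∑ a ∈ range (m + 2 * C + 1), S N q a * S N q (m + 2 * C - a) := by
          refine Nat.mul_le_mul_left _ ?_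
          have e1 : ∑ a ∈ range (m + 1), S N q (a + C) * S N q (m - a + C) =
              ∑ a ∈ (range (m + 1)).map (addRightEmbedding C),
                S N q a * S N q (m + 2 * C - a) := by
            rw [Finset.sum_map]
            refine Finset.sum_congr rfl fun a ha => ?_
            rw [Finset.mem_range] at ha
            simp only [addRightEmbedding_apply]
            have e2 : m + 2 * C - (a + C) = m - a + C := by omega
            rw [e2]
          rw [e1]
          refine Finset.sum_le_sum_of_subset ?_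
          intro x hx
          rw [Finset.mem_map] at hx
          obtain ⟨a, ha, rfl⟩ := hx
          rw [Finset.mem_range] at ha ⊢
          simp only [addRightEmbedding_apply]
          omega
      _ ≤ 2 * B ^ 2 * S N (q + q + 1) (m + 2 * C) :=
          Nat.mul_le_mul_left _ (S_conv N hN q q (m + 2 * C))

end Pool.Agent.Helper79_Real.U1
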