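import Pool.Agent.Helper79_Real.Count

/-!
Lemma job U2 (reduced words).  Definitions: Pool/Agent/Helper79_Real/{Defs,Base,Path,Facts,Blocks,Count}.lean on origin/main
(copy the folder to your working tree and `lake build Pool.Agent.Helper79_Real.Count`).

Plain-words proof.
`red`: strong induction on the length: if two adjacent letters of `w` are equal, `w = x ++ q :: q :: v`, remove both: `val` is unchanged (`gen_mul_self`,
  `val_append`), and `pl O y (x ++ v) y' ≤ pl O y w y'` (`pl_append_le` at the position `q ∉ O`, `Ctx.PO`; and `pl_split`, `d_self`).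
`len_le`: induction on `w` (generalizing `y`): for adjacent distinct `a, b ∈ P c = Qs c 0`, `Sep c O 0` gives a point of `O` strictly between them, so `d O a b ≥ 1`.
`NN_finite`: let `g = val c w`, `pl O c w c ≤ n`; by `red` assume `w` is a chain.  Either `c :: w` is a chain, and `w.length ≤ n`; or `w = c :: w''` with
  `c :: w''` a chain and `pl O c (c :: w'') c = pl O c w'' c` (`d_self`), so `w.length ≤ n + 1`.  So `NN c O n` is contained in the set of values of the words over `P c` of length
  `≤ n + 1`, of which there are at most `(|Pf c| + 1)^(n+1)` (`mem_Pf`; e.g. they inject into `Fin (n+1) → Option (Pf c)`).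
-/

namespace Pool.Agent.Helper79_Real.U2

variable {c : ℝ} {O : Finset ℝ}

theorem U2_not_chain : ∀ w : List ℝ, ¬ w.IsChain (· ≠ ·) → ∃ x q v, w = x ++ q :: q :: v
  | [], h => absurd List.isChain_nil h
  | [a], h => absurd (List.isChain_singleton a) h
  | a :: b :: w, h => by
    by_cases hab : a = b
    · subst hab
      exact ⟨[], a, w, rfl⟩
    · have h1 : ¬ (b :: w).IsChain (· ≠ ·) := fun h2 => h (List.isChain_cons_cons.2 ⟨hab, h2⟩)
      obtain ⟨x, q, v, hx⟩ := U2_not_chain (b :: w) h1
      exact ⟨a :: x, q, v, by rw [hx]; rfl⟩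

/-- TARGET 1 -/
theorem red (h : Ctx c O) (w : List ℝ) (hw : IsW c w) (y y' : ℝ) :
    ∃ w', IsW c w' ∧ val c w' = val c w ∧ pl O y w' y' ≤ pl O y w y' ∧ w'.IsChain (· ≠ ·) := by
  induction hn : w.length using Nat.strong_induction_on generalizing w with
  | _ n ih =>
    by_cases hch : w.IsChain (· ≠ ·)
    · exact ⟨w, hw, rfl, le_rfl, hch⟩
    · obtain ⟨x, q, v, rfl⟩ := U2_not_chain w hch
      rw [isW_append, isW_cons, isW_cons] at hw
      obtain ⟨hx, hq, -, hv⟩ := hw
      obtain ⟨w', h1, h2, h3, h4⟩ := ih (x ++ v).length (by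
        rw [← hn]
        simp only [List.length_append, List.length_cons]
        omega) (x ++ v) (isW_append.2 ⟨hx, hv⟩) rfl
      refine ⟨w', h1, ?_, ?_, h4⟩
      · rw [h2, val_append, val_append, val_cons, val_cons, mul_assoc (val c v) (gen c q) (gen c q),
          gen_mul_self, mul_one]
      · refine h3.trans ?_
        have h5 := pl_append_le (O := O) (y := y) (y' := y') (h.PO q hq) x v
        have h6 := pl_split (O := O) (y := y) (q := q) (y' := y') x (q :: v)
        have h7 := pl_snoc (O := O) (y := y) (q := q) (y' := q) x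
        have h8 : pl O q (q :: v) y' = d O q q + pl O q v y' := rfl
        rw [d_self] at h7 h8
        omega

theorem U2_d_pos (hs : Sep c O 0) {a b : ℝ} (ha : a ∈ P c) (hb : b ∈ P c) (hab : a ≠ b) :
    1 ≤ d O a b := by
  classical
  have key : ∀ a b : ℝ, a ∈ P c → b ∈ P c → a < b → 1 ≤ d O a b := by
    intro a b ha hb hab
    obtain ⟨x, hx, h1, h2⟩ := hs a ha b hb hab
    unfold d
    exact Finset.card_pos.2 ⟨x, Finset.mem_filter.2 ⟨hx, Or.inl ⟨h1, h2⟩⟩⟩
  rcases lt_or_gt_of_ne hab with h | h
  · exact key a b ha hb h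
  · rw [d_comm]
    exact key b a hb ha h

/-- TARGET 2 -/
theorem len_le (hs : Sep c O 0) {y : ℝ} (hy : y ∈ P c) {w : List ℝ} (hw : IsW c w)
    (hch : (y :: w).IsChain (· ≠ ·)) (y' : ℝ) : w.length ≤ pl O y w y' := by
  induction w generalizing y with
  | nil => exact Nat.zero_le _
  | cons a w ih =>
    rw [isW_cons] at hw
    obtain ⟨h1, h2⟩ := List.isChain_cons_cons.1 hch
    have h3 := ih hw.1 hw.2 h2
    have h4 := U2_d_pos hs hy hw.1 h1
    simp only [List.length_cons, pl]
    omega

open Classical in
/-- the words of length at most `n` -/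
noncomputable def U2_WW (c : ℝ) : ℕ → Finset (List ℝ)
  | 0 => {[]}
  | n + 1 => U2_WW c n ∪ (Pf c ×ˢ U2_WW c n).image fun p => p.1 :: p.2

theorem U2_card (n : ℕ) : (U2_WW c n).card ≤ ((Pf c).card + 1) ^ n := by
  classical
  induction n with
  | zero => simp [U2_WW]
  | succ n ih =>
    rw [U2_WW]
    refine (Finset.card_union_le _ _).trans ?_
    have h1 : ((Pf c ×ˢ U2_WW c n).image fun p => p.1 :: p.2).card ≤
        (Pf c).card * (U2_WW c n).card :=
      Finset.card_image_le.trans (Finset.card_product _ _).le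
    have h2 := Nat.mul_le_mul_left ((Pf c).card + 1) ih
    rw [pow_succ, mul_comm (((Pf c).card + 1) ^ n)]
    nlinarith

theorem U2_mem (hf : Hyp c) (n : ℕ) (w : List ℝ) (hw : IsW c w) (hn : w.length ≤ n) :
    w ∈ U2_WW c n := by
  classical
  induction n generalizing w with
  | zero =>
    have : w = [] := List.length_eq_zero_iff.1 (by omega)
    simp [U2_WW, this]
  | succ n ih =>
    rw [U2_WW, Finset.mem_union]
    cases w with
    | nil => exact Or.inl (ih [] isW_nil (Nat.zero_le _))
    | cons a w =>
      rw [isW_cons] at hw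
      right
      refine Finset.mem_image.2 ⟨(a, w), Finset.mem_product.2 ⟨(mem_Pf hf).2 hw.1, ?_⟩, rfl⟩
      refine ih w hw.2 ?_
      simp only [List.length_cons] at hn
      omega

/-- TARGET 3 (prove all) -/
theorem NN_finite (hf : Hyp c) (h : Ctx c O) (hs : Sep c O 0) (n : ℕ) :
    (NN c O n).Finite ∧ (NN c O n).ncard ≤ ((Pf c).card + 1) ^ (n + 1) := by
  classical
  have hsub : NN c O n ⊆ ((U2_WW c (n + 1)).image (val c) : Finset (Equiv.Perm (List Bool))) := by
    rintro g ⟨w, hw, rfl, hn⟩
    obtain ⟨w', h1, h2, h3, h4⟩ := red h w hw c c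
    rw [Finset.coe_image]
    refine ⟨w', ?_, h2⟩
    refine U2_mem hf _ _ h1 ?_
    by_cases h5 : (c :: w').IsChain (· ≠ ·)
    · have := len_le hs c_mem h1 h5 c
      omega
    · cases w' with
      | nil => exact Nat.zero_le _
      | cons a w'' =>
        have h6 : c = a := by
          by_contra h7
          exact h5 (List.isChain_cons_cons.2 ⟨h7, h4⟩)
        subst h6
        rw [isW_cons] at h1
        have h8 := len_le hs c_mem h1.2 h4 c
        have h9 : pl O c (c :: w'') c = d O c c + pl O c w'' c := rfl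
        rw [d_self] at h9
        simp only [List.length_cons]
        omega
  refine ⟨(Finset.finite_toSet _).subset hsub, ?_⟩
  refine (Set.ncard_le_ncard hsub (Finset.finite_toSet _)).trans ?_
  rw [Set.ncard_coe_finset]
  exact Finset.card_image_le.trans (U2_card _)

end Pool.Agent.Helper79_Real.U2
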