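import Pool.Agent.Helper79_Real.Count

/-!
Decomposition into zero loss pieces (lemma job U3, helper420).
-/

namespace Pool.Agent.Helper79_Real.U3

variable {c : ℝ} {O : Finset ℝ}

theorem getLastD_split (u : List ℝ) (a : ℝ) (v : List ℝ) (z : ℝ) :
    (u ++ a :: v).getLastD z = v.getLastD a := by
  induction u generalizing z with
  | nil => rw [List.nil_append, List.getLastD_cons]
  | cons b u ih => rw [List.cons_append, List.getLastD_cons, ih]

theorem zl_nil (M : ℕ) (z : ℝ) : ZL c O M z [] (([] : List ℝ).getLastD z) := by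
  unfold ZL
  have : pl O z [] (([] : List ℝ).getLastD z) = 0 := by
    change d O z z = 0
    exact d_self O z
  omega

/-- TARGET 1 -/
theorem dec (h : Ctx c O) (M ℓ : ℕ) {z : ℝ} (hz : z ∈ P c) {w : List ℝ} (hw : IsW c w)
    (hl : pl O z w (w.getLastD z) ≤ X c O M z w (w.getLastD z) + ℓ) :
    ∃ k, k ≤ ℓ ∧ Dec c O M k z w := by
  classical
  induction hn : w.length using Nat.strong_induction_on generalizing z ℓ w with
  | _ n ih =>
    by_cases hall : ZL c O M z w (w.getLastD z)
    · exact ⟨0, Nat.zero_le _, hall⟩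
    obtain ⟨i, hi, hi1, hi2⟩ : ∃ i < w.length, ZL c O M z (w.take i) ((w.take i).getLastD z) ∧
        ¬ ZL c O M z (w.take (i + 1)) ((w.take (i + 1)).getLastD z) := by
      by_contra hcon
      push Not at hcon
      have hstep : ∀ i ≤ w.length, ZL c O M z (w.take i) ((w.take i).getLastD z) := by
        intro i
        induction i with
        | zero => intro _; rw [List.take_zero]; exact zl_nil M z
        | succ i ih => intro hi; exact hcon i (by omega) (ih (by omega))
      have := hstep w.length le_rfl
      rw [List.take_length] at this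
      exact hall this
    obtain ⟨u1, a, u2, hwe, hu1, hu2⟩ : ∃ u1 a u2, w = u1 ++ a :: u2 ∧
        ZL c O M z u1 (u1.getLastD z) ∧ ¬ ZL c O M z (u1 ++ [a]) a := by
      refine ⟨w.take i, w[i], w.drop (i + 1), ?_, hi1, ?_⟩
      · rw [← List.drop_eq_getElem_cons hi, List.take_append_drop]
      · have htk : w.take (i + 1) = w.take i ++ [w[i]] := List.take_succ_eq_append_getElem hi
        rw [htk, getLastD_split] at hi2
        exact hi2
    clear hi2 hi1 hi i
    subst hwe
    rw [isW_append, isW_cons] at hw
    obtain ⟨hw1, ha, hw2⟩ := hw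
    have hw1' : IsW c (u1 ++ [a]) := by
      rw [isW_append, isW_cons]
      exact ⟨hw1, ha, isW_nil⟩
    rw [getLastD_split] at hl
    have hpl := pl_split (O := O) (y := z) (q := a) (y' := u2.getLastD a) u1 u2
    have hX : X c O M z (u1 ++ a :: u2) (u2.getLastD a) ≤ X c O M z (u1 ++ [a]) a +
        X c O M a u2 (u2.getLastD a) := by
      have e : u1 ++ a :: u2 = (u1 ++ [a]) ++ u2 := by simp
      rw [e]
      exact h.X_append (h.posP ha) hw1' hw2
    have hlastP : u2.getLastD a ∈ P c := by
      have key : ∀ (v : List ℝ) (b : ℝ), b ∈ P c → IsW c v → v.getLastD b ∈ P c := by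
        intro v
        induction v with
        | nil => intro b hb _; exact hb
        | cons q v ih =>
          intro b _ hv
          rw [List.getLastD_cons]
          rw [isW_cons] at hv
          exact ih q hv.1 hv.2
      exact key _ _ ha hw2
    have hX2 := h.X_le_pl (m := M) (h.posP ha) (h.posP hlastP) hw2
    unfold ZL at hu2
    have hlen : u2.length < n := by
      rw [List.length_append, List.length_cons] at hn
      omega
    obtain ⟨k, hk, hD⟩ := ih _ hlen (ℓ - 1) ha hw2 (by omega) rfl
    exact ⟨k + 1, by omega, _, _, _, rfl, hu1, hD⟩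

open Classical in
theorem exists_finset (hf : Hyp c) (M K : ℕ) (hp : PB c O M K) (k : ℕ) :
    ∀ z ∈ P c, ∀ n : ℕ, ∃ F : Finset (Equiv.Perm (List Bool)), DD c O M k z n ⊆ (F : Set _) ∧
      F.card ≤ (K * ((Pf c).card + 1)) ^ (k + 1) * Nat.choose (n + k + 1) (k + 1) := by
  induction k with
  | zero =>
    intro z hz n
    have hfin := fun s => (hp z hz s).1
    refine ⟨(Finset.range (n + 1)).biUnion fun s => (hfin s).toFinset, ?_, ?_⟩
    · rintro g ⟨u, h1, h2, h3, h4, h5⟩
      rw [Finset.mem_coe, Finset.mem_biUnion]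
      refine ⟨u.count c, Finset.mem_range.2 (by omega), ?_⟩
      rw [Set.Finite.mem_toFinset]
      exact ⟨u, h1, h2, h3, rfl, h5⟩
    · refine Finset.card_biUnion_le.trans ?_
      have hK : ∀ s ∈ Finset.range (n + 1), (hfin s).toFinset.card ≤ K := by
        intro s _
        rw [← Set.ncard_eq_toFinset_card _ (hfin s)]
        exact (hp z hz s).2
      refine (Finset.sum_le_sum hK).trans ?_
      rw [Finset.sum_const, Finset.card_range, smul_eq_mul, Nat.zero_add, pow_one, Nat.add_zero,
        Nat.choose_one_right]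
      have : K ≤ K * ((Pf c).card + 1) := Nat.le_mul_of_pos_right _ (by omega)
      nlinarith
  | succ k ih =>
    intro z hz n
    have hfin := fun s => (hp z hz s).1
    choose! G hG1 hG2 using ih
    refine ⟨(Finset.range (n + 1)).biUnion fun s => (Pf c).biUnion fun a =>
      Finset.image₂ (fun g1 g2 => g2 * gen c a * g1) (hfin s).toFinset (G a (n - s)), ?_, ?_⟩
    · rintro g ⟨u, h1, h2, ⟨u1, a, u2, rfl, h3, h4⟩, h5, rfl⟩
      rw [List.count_append, List.count_cons] at h5
      rw [isW_append, isW_cons] at h1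
      obtain ⟨hw1, ha, hw2⟩ := h1
      have hch1 : (z :: u1).IsChain (· ≠ ·) := by
        rw [← List.cons_append] at h2
        exact h2.left_of_append
      have hch2 : (a :: u2).IsChain (· ≠ ·) := by
        rw [← List.cons_append] at h2
        exact h2.right_of_append
      rw [Finset.mem_coe, Finset.mem_biUnion]
      refine ⟨u1.count c, Finset.mem_range.2 (by omega), ?_⟩
      rw [Finset.mem_biUnion]
      refine ⟨a, (mem_Pf hf).2 ha, ?_⟩
      rw [Finset.mem_image₂]
      refine ⟨val c u1, ?_, val c u2, ?_, ?_⟩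
      · rw [Set.Finite.mem_toFinset]
        exact ⟨u1, hw1, hch1, h3, rfl, rfl⟩
      · rw [← Finset.mem_coe]
        exact hG1 a ha (n - u1.count c) ⟨u2, hw2, hch2, h4, by omega, rfl⟩
      · rw [val_append, val_cons]
    · refine Finset.card_biUnion_le.trans ?_
      have hK : ∀ s ∈ Finset.range (n + 1), ((Pf c).biUnion fun a =>
          Finset.image₂ (fun g1 g2 => g2 * gen c a * g1) (hfin s).toFinset (G a (n - s))).card ≤
          (K * ((Pf c).card + 1)) ^ (k + 2) * Nat.choose (n - s + (k + 1)) (k + 1) := by
        intro s _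
        refine Finset.card_biUnion_le.trans ?_
        have h1 : ∀ a ∈ Pf c, (Finset.image₂ (fun g1 g2 => g2 * gen c a * g1) (hfin s).toFinset
            (G a (n - s))).card ≤ K * ((K * ((Pf c).card + 1)) ^ (k + 1) *
              Nat.choose (n - s + k + 1) (k + 1)) := by
          intro a ha
          refine (Finset.card_image₂_le _ _ _).trans (Nat.mul_le_mul ?_ ?_)
          · rw [← Set.ncard_eq_toFinset_card _ (hfin s)]
            exact (hp z hz s).2
          · exact hG2 a ((mem_Pf hf).1 ha) (n - s)
        refine (Finset.sum_le_sum h1).trans ?_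
        rw [Finset.sum_const, smul_eq_mul, pow_succ (K * ((Pf c).card + 1)) (k + 1)]
        have e1 : n - s + k + 1 = n - s + (k + 1) := by ring
        rw [e1]
        generalize (K * ((Pf c).card + 1)) ^ (k + 1) = A
        generalize Nat.choose (n - s + (k + 1)) (k + 1) = B
        have : (Pf c).card * (K * (A * B)) = A * (K * (Pf c).card) * B := by ring
        rw [this]
        exact Nat.mul_le_mul_right _ (Nat.mul_le_mul_left _ (Nat.mul_le_mul_left _ (by omega)))
      refine (Finset.sum_le_sum hK).trans ?_
      rw [← Finset.mul_sum]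
      refine Nat.mul_le_mul_left _ (le_of_eq ?_)
      have e2 := Finset.sum_range_reflect (fun s => Nat.choose (s + (k + 1)) (k + 1)) (n + 1)
      have e3 : ∑ s ∈ Finset.range (n + 1), Nat.choose (n - s + (k + 1)) (k + 1) =
          ∑ s ∈ Finset.range (n + 1), Nat.choose (s + (k + 1)) (k + 1) := by
        rw [← e2]
        refine Finset.sum_congr rfl fun s _ => ?_
        congr 2
      rw [e3, Nat.sum_range_add_choose]

/-- TARGET 2 -/
theorem count_dec (hf : Hyp c) (M K : ℕ) (hp : PB c O M K) (k : ℕ) {z : ℝ} (hz : z ∈ P c) (n : ℕ) :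
    (DD c O M k z n).Finite ∧ (DD c O M k z n).ncard ≤
      (K * ((Pf c).card + 1)) ^ (k + 1) * Nat.choose (n + k + 1) (k + 1) := by
  obtain ⟨F, h1, h2⟩ := exists_finset hf M K hp k z hz n
  refine ⟨F.finite_toSet.subset h1, ?_⟩
  refine (Set.ncard_le_ncard h1 F.finite_toSet).trans ?_
  rw [Set.ncard_coe_finset]
  exact h2

end Pool.Agent.Helper79_Real.U3
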