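import Pool.Agent.Helper79_Real.D1
import Pool.Agent.Helper79_Real.T9
import Pool.Agent.Helper79_Real.U1
import Pool.Agent.Helper79_Real.U2
import Pool.Agent.Helper79_Real.U3

/-!
Lemma job U4 (the recursion for the growth function).  Definitions: Pool/Agent/Helper79_Real/{Defs,Base,Path,Facts,Blocks,
Count}.lean on origin/main (copy the folder to your working tree and `lake build Pool.Agent.Helper79_Real.Count`).

Plain-words proof.  Take `M, K0` from `pieces`.  `Qs c M` is finite (induction on the level; `P c` is finite) and contained in `[c, c^2+c]` (as in `Ctx.pos_lam`: for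
`c ≤ z ≤ c^2+c`, `c ≤ lam c b z ≤ c^2+c`, since `√(z-c) ≤ -c` because `c^2 + c - c = c^2`).  `exists_orb` for `Q` = the finset of `Qs c M` (`hmap` = `Hyp.maps`,
`hex` = `Hyp.ex`) gives `O` with `Ctx c O` (`Hyp.ctx`) and `Sep c O M`; so `Sep c O 0` (`Qs` is increasing) and `PB c O M K0`.
Take `B, C, q` from `case1`, `A = |Pf c| + 1` (`NN_finite`), `K' = K0 * (|Pf c| + 1) + 1`, `K = 2 * K'`, `E = 1`.  Write `N n = (NN c O n).ncard`.
Let `ℓ ≤ n`, `g ∈ NN c O n`; by `red` `g = val c w`, `w` a chain over `P c`, `pl O c w c ≤ n`.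
 * if `X c O M c w c ≤ n - ℓ` then `g ∈ XX c O M c c (n - ℓ)`: at most `B * S N q (n - ℓ + C)` such elements.
 * otherwise `X c O M c w c > n - ℓ`, so `pl O c w c ≤ n ≤ X c O M c w c + ℓ`.  Let `w' = w` if `c :: w` is a chain; otherwise `w = c :: w'` and `c :: w'` is a chain,
   `pl O c w c = pl O c w' c`, `X c O M c w c ≤ X c O M c [c] c + X c O M c w' c` (`Ctx.X_append`), `X c O M c [c] c ≤ pl O c [c] c = 0` (`Ctx.X_le_pl`), so
   in both cases `pl O c w' c ≤ n` and `pl O c w' c ≤ X c O M c w' c + ℓ`.  Let `last = w'.getLastD c ∈ P c`.  `pl O c w' c = pl O c w' last + d O last c` (`pl_snoc`,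
   or trivial if `w' = []`) and `X c O M c w' c ≤ X c O M c w' last + X c O M last [] c ≤ X c O M c w' last + d O last c` (`Ctx.X_append` with `w' ++ []`, `Ctx.X_le_pl`).
   So `dec` applies: `Dec c O M k c w'`, `k ≤ ℓ`.  `w'.count c ≤ w'.length ≤ pl O c w' c ≤ n` (`len_le`).  Hence `val c w' ∈ DD c O M k c n`, and
   `g = val c w'` or `g = val c w' * gen c c`.  The number of such `g` is at most
   `2 * ∑ k ≤ ℓ, (K')^(k+1) * choose (n+k+1) (k+1) ≤ 2 * (ℓ+1) * K'^(ℓ+1) * choose (n+ℓ+1) (ℓ+1) ≤ (ℓ+1) * K^(ℓ+1) * choose (n+ℓ+1) (ℓ+1)`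
   (`choose (n+k+1) (k+1) = choose (n+k+1) n` is monotone in `k`).
-/

namespace Pool.Agent.Helper79_Real.U4

open D1 (exists_orb)

open T9 (pieces)

open U1 (case1)

open U2 (red len_le NN_finite)

open U3 (dec count_dec)

variable {c : ℝ}

namespace RecAux

theorem lam_bd (h : Hyp c) {z : ℝ} (h1 : c ≤ z) (h2 : z ≤ c ^ 2 + c) (b : Bool) :
    c ≤ lam c b z ∧ lam c b z ≤ c ^ 2 + c := by
  have hneg := h.neg
  have hc2 := h.c2pos
  cases b
  · constructor
    · have := lamB_nonneg (c := c) hc2.le z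
      linarith
    · simp only [lam, Bool.false_eq_true, if_false]
      exact min_le_right _ _
  · constructor
    · simp only [lam, if_true]
      have : √(z - c) ≤ -c := by
        rw [Real.sqrt_le_left (by linarith)]; nlinarith
      linarith
    · have := lamA_nonpos (c := c) z
      linarith

theorem Qs_finite (h : Hyp c) (m : ℕ) : (Qs c m).Finite := by
  induction m with
  | zero => exact h.fin
  | succ m ih => exact (ih.union (ih.image _)).union (ih.image _)

theorem Qs_bd (h : Hyp c) (m : ℕ) : ∀ q ∈ Qs c m, c ≤ q ∧ q ≤ c ^ 2 + c := by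
  induction m with
  | zero => intro q hq; exact h.Pbd hq
  | succ m ih =>
    rintro q ((hq | ⟨z, hz, rfl⟩) | ⟨z, hz, rfl⟩)
    · exact ih q hq
    · exact lam_bd h (ih z hz).1 (ih z hz).2 true
    · exact lam_bd h (ih z hz).1 (ih z hz).2 false

theorem P_sub_Qs (m : ℕ) : P c ⊆ Qs c m := by
  induction m with
  | zero => exact le_refl _
  | succ m ih => intro q hq; exact Or.inl (Or.inl (ih hq))

theorem sum_bound (K K' n ℓ : ℕ) (hK : K ≤ K') (hK1 : 1 ≤ K') :
    ∑ k ∈ Finset.range (ℓ + 1), K ^ (k + 1) * Nat.choose (n + k + 1) (k + 1) ≤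
      (ℓ + 1) * (K' ^ (ℓ + 1) * Nat.choose (n + ℓ + 1) (ℓ + 1)) := by
  have h1 : ∀ k ∈ Finset.range (ℓ + 1), K ^ (k + 1) * Nat.choose (n + k + 1) (k + 1) ≤
      K' ^ (ℓ + 1) * Nat.choose (n + ℓ + 1) (ℓ + 1) := by
    intro k hk
    rw [Finset.mem_range] at hk
    apply Nat.mul_le_mul
    · exact (Nat.pow_le_pow_left hK _).trans (Nat.pow_le_pow_right hK1 (by omega))
    · have e1 : Nat.choose (n + k + 1) (k + 1) = Nat.choose (n + k + 1) n :=
        (Nat.choose_symm_of_eq_add (by omega)).symm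
      have e2 : Nat.choose (n + ℓ + 1) (ℓ + 1) = Nat.choose (n + ℓ + 1) n :=
        (Nat.choose_symm_of_eq_add (by omega)).symm
      rw [e1, e2]
      exact Nat.choose_le_choose n (by omega)
  refine (Finset.sum_le_sum h1).trans ?_
  rw [Finset.sum_const, Finset.card_range, smul_eq_mul]

/-- passing to the last letter -/
theorem to_last {O : Finset ℝ} (h : Ctx c O) (M ℓ : ℕ) {w : List ℝ} (hw : IsW c w)
    (hl : pl O c w c ≤ X c O M c w c + ℓ) :
    pl O c w (w.getLastD c) ≤ X c O M c w (w.getLastD c) + ℓ := by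
  have hc : Pos c O c := h.posP c_mem
  rcases List.eq_nil_or_concat w with rfl | ⟨u, q, rfl⟩
  · exact hl
  · have hu := (isW_append.1 (List.concat_eq_append ▸ hw : IsW c (u ++ [q])))
    rw [List.concat_eq_append] at *
    have hlast : (u ++ [q]).getLastD c = q := by simp
    rw [hlast]
    have hq : q ∈ P c := hu.2 q (by simp)
    have h1 : pl O c (u ++ [q]) c = pl O c (u ++ [q]) q + d O q c := by
      rw [pl_snoc, pl_snoc, d_self]; omega
    have h2 : X c O M c (u ++ [q]) c ≤ X c O M c (u ++ [q]) q + d O q c := by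
      have h3 := h.X_append (m := M) (y := c) (z := q) (y' := c) (u := u ++ [q]) (v := [])
        (h.posP hq) hw isW_nil
      rw [List.append_nil] at h3
      have h4 := h.X_le_pl (m := M) (y := q) (y' := c) (u := []) (h.posP hq) hc isW_nil
      simp only [pl] at h4
      omega
    omega

/-- the alternative for an element of the ball -/
theorem split {O : Finset ℝ} (h : Ctx c O) (hs : Sep c O 0) (M n ℓ : ℕ) :
    NN c O n ⊆ XX c O M c c (n - ℓ) ∪ ((⋃ k ∈ Finset.range (ℓ + 1), DD c O M k c n) ∪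
      (fun g => g * gen c c) '' (⋃ k ∈ Finset.range (ℓ + 1), DD c O M k c n)) := by
  rintro g ⟨w0, hw0, rfl, hpl0⟩
  obtain ⟨w, hw, hval, hpl, hch⟩ := red h w0 hw0 c c
  rw [← hval]
  have hpn : pl O c w c ≤ n := hpl.trans hpl0
  by_cases hX : X c O M c w c ≤ n - ℓ
  · exact Or.inl ⟨w, hw, rfl, hX⟩
  · right
    have hl : pl O c w c ≤ X c O M c w c + ℓ := by omega
    have main : ∀ v : List ℝ, IsW c v → (c :: v).IsChain (· ≠ ·) → pl O c v c ≤ n →
        pl O c v c ≤ X c O M c v c + ℓ →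
        val c v ∈ ⋃ k ∈ Finset.range (ℓ + 1), DD c O M k c n := by
      intro v hv hcv hp hlv
      obtain ⟨k, hk, hdec⟩ := dec h M ℓ c_mem hv (to_last h M ℓ hv hlv)
      rw [Set.mem_iUnion₂]
      refine ⟨k, Finset.mem_range.2 (by omega), v, hv, hcv, hdec, ?_, rfl⟩
      exact List.count_le_length.trans ((len_le hs c_mem hv hcv c).trans hp)
    by_cases hc : (c :: w).IsChain (· ≠ ·)
    · exact Or.inl (main w hw hc hpn hl)
    · right
      cases w with
      | nil => exact absurd (List.isChain_singleton c) hc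
      | cons a v =>
        have hac : a = c := by
          by_contra hne
          apply hc
          rw [List.isChain_cons_cons]
          exact ⟨fun h => hne h.symm, hch⟩
        subst hac
        have hv := (isW_cons.1 hw).2
        have hca : IsW a [a] := by
          intro q hq
          rw [List.mem_singleton] at hq
          rw [hq]; exact c_mem
        have hp1 : pl O a (a :: v) a = pl O a v a := by simp [pl]
        have hX1 : X a O M a (a :: v) a ≤ X a O M a v a := by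
          have h3 := h.X_append (m := M) (y := a) (z := a) (y' := a) (u := [a]) (v := v)
            (h.posP c_mem) hca hv
          have h4 := h.X_le_pl (m := M) (y := a) (y' := a) (u := [a]) (h.posP c_mem)
            (h.posP c_mem) hca
          have h5 : pl O a [a] a = 0 := by simp [pl]
          rw [List.singleton_append] at h3
          omega
        refine ⟨val a v, main v hv hch (by omega) (by omega), ?_⟩
        rfl

end RecAux

/-- TARGET -/
theorem recursion (h : Hyp c) : ∃ O : Finset ℝ, Ctx c O ∧ (∀ n, (NN c O n).Finite) ∧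
    ∃ A B C E K q : ℕ, (∀ n, (NN c O n).ncard ≤ A ^ (n + 1)) ∧
      ∀ n ℓ : ℕ, ℓ ≤ n → (NN c O n).ncard ≤ B * S (fun n => (NN c O n).ncard) q (n - ℓ + C)
        + (ℓ + 1) * K ^ (ℓ + 1) * Nat.choose (n + ℓ + E) (ℓ + 1) := by
  obtain ⟨M, K0, hMK⟩ := pieces h
  have hQf := RecAux.Qs_finite h M
  obtain ⟨O, hO, hPO, hsep⟩ := exists_orb c h.fin (fun x h1 h2 => h.maps h1 h2) h.ex hQf.toFinset
    (fun q hq => RecAux.Qs_bd h M q (hQf.mem_toFinset.1 hq))
  have hctx : Ctx c O := h.ctx hO hPO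
  have hSep : Sep c O M := fun a ha b hb hab =>
    hsep a (hQf.mem_toFinset.2 ha) b (hQf.mem_toFinset.2 hb) hab
  have hSep0 : Sep c O 0 := fun a ha b hb hab =>
    hSep a (RecAux.P_sub_Qs M ha) b (RecAux.P_sub_Qs M hb) hab
  have hPB : PB c O M K0 := hMK O hctx hSep
  have hNN := fun n => NN_finite h hctx hSep0 n
  obtain ⟨B, C, q, hcase⟩ := case1 hctx (fun n => (hNN n).1) M
  refine ⟨O, hctx, fun n => (hNN n).1, (Pf c).card + 1, B, C, 1,
    2 * (K0 * ((Pf c).card + 1) + 1), q, fun n => (hNN n).2, ?_⟩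
  intro n ℓ _
  have hcc := hcase (n - ℓ) c c (hctx.posP c_mem) (hctx.posP c_mem)
  obtain ⟨K, hK⟩ : ∃ K, K = K0 * ((Pf c).card + 1) := ⟨_, rfl⟩
  have hD : ∀ k, (DD c O M k c n).Finite ∧ (DD c O M k c n).ncard ≤
      K ^ (k + 1) * Nat.choose (n + k + 1) (k + 1) := by
    intro k
    rw [hK]
    exact count_dec h M K0 hPB k c_mem n
  have hUf : (⋃ k ∈ Finset.range (ℓ + 1), DD c O M k c n).Finite :=
    (Finset.range (ℓ + 1)).finite_toSet.biUnion (fun k _ => (hD k).1)
  have hUc : (⋃ k ∈ Finset.range (ℓ + 1), DD c O M k c n).ncard ≤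
      (ℓ + 1) * ((K + 1) ^ (ℓ + 1) * Nat.choose (n + ℓ + 1) (ℓ + 1)) := by
    refine (Finset.set_ncard_biUnion_le _ _).trans ?_
    refine (Finset.sum_le_sum (fun k _ => (hD k).2)).trans ?_
    exact RecAux.sum_bound K (K + 1) n ℓ (by omega) (by omega)
  have h1 := Set.ncard_le_ncard (RecAux.split hctx hSep0 M n ℓ)
    (hcc.1.union (hUf.union (hUf.image _)))
  have h2 := Set.ncard_union_le (XX c O M c c (n - ℓ))
    ((⋃ k ∈ Finset.range (ℓ + 1), DD c O M k c n) ∪
      (fun g => g * gen c c) '' (⋃ k ∈ Finset.range (ℓ + 1), DD c O M k c n))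
  have h3 := Set.ncard_union_le (⋃ k ∈ Finset.range (ℓ + 1), DD c O M k c n)
      ((fun g => g * gen c c) '' (⋃ k ∈ Finset.range (ℓ + 1), DD c O M k c n))
  have h4 := Set.ncard_image_le (f := fun g : Equiv.Perm (List Bool) => g * gen c c) hUf
  rw [← hK]
  have h5 : 2 * ((ℓ + 1) * ((K + 1) ^ (ℓ + 1) * Nat.choose (n + ℓ + 1) (ℓ + 1))) ≤
      (ℓ + 1) * (2 * (K + 1)) ^ (ℓ + 1) * Nat.choose (n + ℓ + 1) (ℓ + 1) := by
    rw [mul_pow]
    have h6 : 2 ≤ 2 ^ (ℓ + 1) := by
      calc 2 = 2 ^ 1 := by norm_num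
        _ ≤ 2 ^ (ℓ + 1) := Nat.pow_le_pow_right (by norm_num) (by omega)
    calc 2 * ((ℓ + 1) * ((K + 1) ^ (ℓ + 1) * Nat.choose (n + ℓ + 1) (ℓ + 1)))
        ≤ 2 ^ (ℓ + 1) * ((ℓ + 1) * ((K + 1) ^ (ℓ + 1) * Nat.choose (n + ℓ + 1) (ℓ + 1))) :=
          Nat.mul_le_mul_right _ h6
      _ = _ := by ring
  have h7 := hcc.2
  omega

end Pool.Agent.Helper79_Real.U4
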