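import Pool.Agent.Helper79_Real.HBase

/-!
Lemma job V1 (the principal square root `R w = w ^ (1/2 : ℂ)`).  Definitions: Pool/Agent/Helper79_Real/{HDefs,HBase}.lean on
origin/main (copy the folder to your working tree and `lake build Pool.Agent.Helper79_Real.HBase`).

Plain-words proof.  `R w = exp (log w / 2)` for `w ≠ 0` and `R 0 = 0`; `arg w ∈ (-π, π)` on the slit plane, so the argument of `R w` is
`arg w / 2 ∈ (-π/2, π/2)`: positive real part, and the imaginary part has the sign of `arg w`, i.e. of `w.im`.  For a real `x ≥ 0`,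
`R x = √x`.  Continuity on the slit plane: `continuousAt_cpow_const`.  If `u ^ 2 = w` then `u = R w` or `u = - R w`.
-/

namespace Pool.Agent.Helper79_Real.V1

theorem R_exp {w : ℂ} (hw : w ≠ 0) : R w = Complex.exp (Complex.log w * (1 / 2)) := by
  unfold R
  rw [Complex.cpow_def_of_ne_zero hw]

theorem R_log_im (w : ℂ) : (Complex.log w * (1 / 2)).im = w.arg / 2 := by
  simp [Complex.mul_im, Complex.log_im]
  ring

/-- TARGET 1 -/
theorem R_sq (w : ℂ) : R w ^ 2 = w := by
  unfold R
  have h := Complex.cpow_nat_inv_pow w (n := 2) (by norm_num)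
  rw [show (1 / 2 : ℂ) = ((2 : ℕ) : ℂ)⁻¹ by norm_num]
  exact h

/-- TARGET 2 -/
theorem R_re {w : ℂ} (hw : w ∈ Complex.slitPlane) : 0 < (R w).re := by
  have hne : w ≠ 0 := Complex.slitPlane_ne_zero hw
  rw [R_exp hne, Complex.exp_re, R_log_im]
  apply mul_pos (Real.exp_pos _)
  have h1 := Complex.neg_pi_lt_arg w
  have h2 : w.arg < Real.pi := lt_of_le_of_ne (Complex.arg_le_pi w)
    (Complex.mem_slitPlane_iff_arg.1 hw).1
  exact Real.cos_pos_of_mem_Ioo ⟨by linarith, by linarith⟩

/-- TARGET 3 -/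
theorem R_im_pos {w : ℂ} (hw : 0 < w.im) : 0 < (R w).im := by
  have hne : w ≠ 0 := by rintro rfl; simp at hw
  rw [R_exp hne, Complex.exp_im, R_log_im]
  apply mul_pos (Real.exp_pos _)
  have h1 : 0 ≤ w.arg := Complex.arg_nonneg_iff.2 hw.le
  have h3 : w.arg ≠ 0 := by
    intro h
    rw [Complex.arg_eq_zero_iff] at h
    exact hw.ne' h.2
  have h2 : w.arg ≤ Real.pi := Complex.arg_le_pi w
  have h4 : 0 < w.arg := lt_of_le_of_ne h1 (Ne.symm h3)
  exact Real.sin_pos_of_pos_of_lt_pi (by linarith) (by linarith [Real.pi_pos])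

/-- TARGET 4 -/
theorem R_im_neg {w : ℂ} (hw : w.im < 0) : (R w).im < 0 := by
  have hne : w ≠ 0 := by rintro rfl; simp at hw
  rw [R_exp hne, Complex.exp_im, R_log_im]
  apply mul_neg_of_pos_of_neg (Real.exp_pos _)
  have h1 : w.arg < 0 := Complex.arg_neg_iff.2 hw
  have h2 := Complex.neg_pi_lt_arg w
  exact Real.sin_neg_of_neg_of_neg_pi_lt (by linarith) (by linarith [Real.pi_pos])

/-- TARGET 5 -/
theorem R_cont : ContinuousOn R Complex.slitPlane := by
  intro w hw
  exact (continuousAt_cpow_const hw).continuousWithinAt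

/-- TARGET 6 (prove all) -/
theorem R_real {x : ℝ} (hx : 0 ≤ x) : R (x : ℂ) = ((√x : ℝ) : ℂ) := by
  unfold R
  rw [Real.sqrt_eq_rpow, Complex.ofReal_cpow hx]
  norm_num

end Pool.Agent.Helper79_Real.V1
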