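import Pool.Agent.Helper79_Real.V2
import Pool.Agent.Helper79_Real.V4

/-!
Lemma job V10 (moving a real base point off the real axis).  Definitions: Pool/Agent/Helper79_Real/{HDefs,HBase}.lean on
origin/main (copy the folder to your working tree and `lake build Pool.Agent.Helper79_Real.HBase`).

Plain-words proof.  Let `t = x` be real, `x ∉ P c`, `t' = t + I`.  The vertical path `V s = t + s I` stays in `Om c x` (and so does the reversed one), so by `lift_exists` every `z` over `t` is the start of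
a lift of `V`, and every `z'` over `t'` is the start of a lift of the reversed path; by `lift_unique` the ends are unique and these two maps are inverse to each other: a level preserving
bijection `B : Vert c t ≃ Vert c t'`, `B v` = end of the lift of `V` from `v`.  (`Om c x` avoids `PC c` by `PC_iff`.)
If `g` is induced by a loop `γ` at `t`, then `B ∘ g ∘ B⁻¹` is induced by the loop `V⁻¹ γ V` at `t'` (glue the lifts), and conversely with `V` replaced by its reverse.  So conjugation by `B`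
(`Equiv.permCongr` or similar, as a `MulEquiv` of the groups of permutations) maps the generating set of `IMG c t` onto that of `IMG c t'`, and the closures onto each other.
(For the converse inclusion: if `g'` is induced by a loop `γ'` at `t'` then `B⁻¹ ∘ g' ∘ B` is induced by `V γ' V⁻¹`.)
-/

namespace Pool.Agent.Helper79_Real.V10

open V2 (lift_exists)

open V4 (lift_unique PC_iff)

open Set

variable {c : ℝ}

/-! ### auxiliary lemmas -/

theorem bc_trans {c : ℂ} {n : ℕ} {a b d z z' z'' : ℂ} (p : Path a b) (q : Path b d)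
    (h1 : IsLift c n (p : C(unitInterval, ℂ)) z z') (h2 : IsLift c n (q : C(unitInterval, ℂ)) z' z'') :
    IsLift c n ((p.trans q : Path a d) : C(unitInterval, ℂ)) z z'' := by
  obtain ⟨Γ, g0, g1, hG⟩ := h1
  obtain ⟨Δ, d0, d1, hD⟩ := h2
  let G : Path z z' := ⟨Γ, g0, g1⟩
  let D : Path z' z'' := ⟨Δ, d0, d1⟩
  refine ⟨(G.trans D).toContinuousMap, (G.trans D).source, (G.trans D).target, fun s => ?_⟩
  show (fC c)^[n] ((G.trans D) s) = (p.trans q) s
  rw [Path.trans_apply, Path.trans_apply]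
  split_ifs with h
  · exact hG _
  · exact hD _

theorem bc_symm {c : ℂ} {n : ℕ} {a b z z' : ℂ} (p : Path a b)
    (h1 : IsLift c n (p : C(unitInterval, ℂ)) z z') :
    IsLift c n ((p.symm : Path b a) : C(unitInterval, ℂ)) z' z := by
  obtain ⟨Γ, g0, g1, hG⟩ := h1
  let G : Path z z' := ⟨Γ, g0, g1⟩
  refine ⟨G.symm.toContinuousMap, G.symm.source, G.symm.target, fun s => ?_⟩
  exact hG _

theorem bc_unique {c : ℂ} {n : ℕ} {γ : C(unitInterval, ℂ)} (hP : ∀ s, γ s ∉ PC c)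
    {z1 z1' z2 z2' : ℂ} (h1 : IsLift c n γ z1 z1') (h2 : IsLift c n γ z2 z2') :
    z1 = z2 ↔ z1' = z2' := by
  obtain ⟨Γ, g0, g1, hG⟩ := h1
  obtain ⟨Δ, d0, d1, hD⟩ := h2
  have hproj : ∀ s : ℝ, ∀ hs : s ∈ Icc (0:ℝ) 1, projIcc (0:ℝ) 1 zero_le_one s = ⟨s, hs⟩ :=
    fun s hs => projIcc_of_mem zero_le_one hs
  have key := fun (s0 : ℝ) (hs0 : s0 ∈ Icc (0:ℝ) 1)
      (h : Γ (projIcc 0 1 zero_le_one s0) = Δ (projIcc 0 1 zero_le_one s0)) =>
    lift_unique c n (fun s => γ (projIcc 0 1 zero_le_one s))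
      (fun s => Γ (projIcc 0 1 zero_le_one s)) (fun s => Δ (projIcc 0 1 zero_le_one s))
      (a := 0) (b := 1)
      (fun s _ => hP _)
      ((Γ.continuous.comp continuous_projIcc).continuousOn)
      ((Δ.continuous.comp continuous_projIcc).continuousOn)
      (fun s _ => hG _) (fun s _ => hD _) hs0 h
  have e0 : projIcc (0:ℝ) 1 zero_le_one 0 = (0 : unitInterval) := projIcc_left zero_le_one
  have e1 : projIcc (0:ℝ) 1 zero_le_one 1 = (1 : unitInterval) := projIcc_right zero_le_one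
  constructor
  · intro h
    have := key 0 ⟨le_rfl, zero_le_one⟩ (by rw [e0, g0, d0, h]) 1 ⟨zero_le_one, le_rfl⟩
    simp only [e1] at this
    rw [← g1, ← d1, this]
  · intro h
    have := key 1 ⟨zero_le_one, le_rfl⟩ (by rw [e1, g1, d1, h]) 0 ⟨le_rfl, zero_le_one⟩
    simp only [e0] at this
    rw [← g0, ← d0, this]

theorem bc_conj {c t t' : ℂ} (V : Path t t') (hV : ∀ s, V s ∉ PC c)
    (B : Vert c t ≃ Vert c t') (hB1 : ∀ v, (B v).1 = v.1)
    (hB2 : ∀ v, IsLift c v.1 (V : C(unitInterval, ℂ)) v.2 (B v).2)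
    (g : Equiv.Perm (Vert c t)) (γ : C(unitInterval, ℂ)) (h0 : γ 0 = t) (h1 : γ 1 = t)
    (hP : ∀ s, γ s ∉ PC c) (hg : Induces c t γ g) :
    ∃ γ' : C(unitInterval, ℂ), γ' 0 = t' ∧ γ' 1 = t' ∧ (∀ s, γ' s ∉ PC c) ∧
      Induces c t' γ' (B.permCongr g) := by
  let p : Path t t := ⟨γ, h0, h1⟩
  refine ⟨((V.symm.trans (p.trans V) : Path t' t') : C(unitInterval, ℂ)),
    (V.symm.trans (p.trans V)).source, (V.symm.trans (p.trans V)).target, ?_, ?_⟩
  · intro s
    show (V.symm.trans (p.trans V)) s ∉ PC c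
    rw [Path.trans_apply]
    split_ifs with h
    · exact hV _
    · rw [Path.trans_apply]
      split_ifs with h'
      · exact hP _
      · exact hV _
  · intro v'
    obtain ⟨v, rfl⟩ := B.surjective v'
    have e : B.permCongr g (B v) = B (g v) := by
      simp [Equiv.permCongr_apply]
    rw [e]
    refine ⟨by rw [hB1, (hg v).1, hB1], ?_⟩
    suffices h : ∀ (m : ℕ) (_ : m = v.1), IsLift c m
        ((V.symm.trans (p.trans V) : Path t' t') : C(unitInterval, ℂ)) ((B v).2 : ℂ)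
        ((B (g v)).2 : ℂ) from h _ (hB1 v)
    rintro m rfl
    refine bc_trans (z' := (v.2 : ℂ)) V.symm (p.trans V) (bc_symm V (hB2 v)) ?_
    refine bc_trans (z' := ((g v).2 : ℂ)) p V (hg v).2 ?_
    have aux : ∀ (m : ℕ) (_ : m = (g v).1), IsLift c m (V : C(unitInterval, ℂ)) ((g v).2 : ℂ)
        ((B (g v)).2 : ℂ) := by
      rintro m rfl
      exact hB2 (g v)
    exact aux _ (hg v).1.symm

/-- TARGET -/
theorem base_change {x : ℝ} (hx : x ∉ P c) :
    Nonempty (IMG (c : ℂ) (x : ℂ) ≃* IMG (c : ℂ) ((x : ℂ) + Complex.I)) := by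
  have hPC : ∀ s : ℝ, ((x : ℂ) + s * Complex.I) ∉ PC (c : ℂ) := by
    intro s hs
    obtain ⟨y, hy, hxy⟩ := (PC_iff c _).1 hs
    have : x = y := by
      have := congrArg Complex.re hxy
      simpa using this
    exact hx (this ▸ hy)
  have hOm : ∀ s : ℝ, ((x : ℂ) + s * Complex.I) ∈ Om c x := by
    intro s
    right
    intro p hp
    have hre : ((x : ℂ) + s * Complex.I).re = x := by simp
    rw [hre]
    exact ⟨fun h => hx (h ▸ hp), Iff.rfl⟩
  let V : Path (x : ℂ) ((x : ℂ) + Complex.I) :=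
    ⟨⟨fun s => (x : ℂ) + ((s : ℝ) : ℂ) * Complex.I, by fun_prop⟩, by simp, by simp⟩
  have hVs : ∀ s : unitInterval, V s = (x : ℂ) + ((s : ℝ) : ℂ) * Complex.I := fun s => rfl
  have hV : ∀ s, V s ∉ PC (c : ℂ) := fun s => by rw [hVs]; exact hPC _
  -- existence of lifts
  have toLift : ∀ (n : ℕ) (γ : ℝ → ℂ) (δ : C(unitInterval, ℂ)) (z z' : ℂ),
      (∀ s : unitInterval, δ s = γ s) → Lf c n γ 0 1 z z' → IsLift c n δ z z' := by
    intro n γ δ z z' hδ ⟨Γ, hc, h0, h1, hl⟩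
    refine ⟨⟨fun s => Γ s, ?_⟩, ?_, ?_, ?_⟩
    · exact continuousOn_iff_continuous_domRestrict.1 hc
    · simpa using h0
    · simpa using h1
    · intro s
      rw [hδ]
      exact hl s s.2
  have ex1 : ∀ v : Vert (c : ℂ) (x : ℂ), ∃ z', IsLift c v.1 (V : C(unitInterval, ℂ)) v.2 z' := by
    intro v
    obtain ⟨z', hz'⟩ := lift_exists hx v.1 (fun s : ℝ => (x : ℂ) + (s : ℂ) * Complex.I)
      (a := 0) (b := 1) zero_le_one (by fun_prop) (fun s _ => hOm s) (z := (v.2 : ℂ))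
      (by rw [v.2.2]; simp)
    exact ⟨z', toLift _ _ _ _ _ (fun s => hVs s) hz'⟩
  have ex2 : ∀ v : Vert (c : ℂ) ((x : ℂ) + Complex.I),
      ∃ z', IsLift c v.1 (V.symm : C(unitInterval, ℂ)) v.2 z' := by
    intro v
    obtain ⟨z', hz'⟩ := lift_exists hx v.1
      (fun s : ℝ => (x : ℂ) + (((1 - s : ℝ)) : ℂ) * Complex.I)
      (a := 0) (b := 1) zero_le_one (by fun_prop) (fun s _ => hOm (1 - s)) (z := (v.2 : ℂ))
      (by rw [v.2.2]; simp)
    refine ⟨z', toLift _ _ _ _ _ (fun s => ?_) hz'⟩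
    show (x : ℂ) + ((unitInterval.symm s : ℝ) : ℂ) * Complex.I = _
    rw [unitInterval.coe_symm_eq]
  have end1 : ∀ (t t' : ℂ) (W : Path t t') (n : ℕ) (z z' : ℂ),
      IsLift c n (W : C(unitInterval, ℂ)) z z' → (fC c)^[n] z' = t' := by
    intro t t' W n z z' ⟨Γ, _, h1, hl⟩
    rw [← h1, hl 1]
    exact W.target
  choose f hf using ex1
  choose f' hf' using ex2
  let B : Vert (c : ℂ) (x : ℂ) ≃ Vert (c : ℂ) ((x : ℂ) + Complex.I) :=
    { toFun := fun v => ⟨v.1, ⟨f v, end1 _ _ V _ _ _ (hf v)⟩⟩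
      invFun := fun v => ⟨v.1, ⟨f' v, end1 _ _ V.symm _ _ _ (hf' v)⟩⟩
      left_inv := by
        rintro ⟨n, z, hz⟩
        refine Sigma.ext rfl (heq_of_eq (Subtype.ext ?_))
        show f' _ = z
        have h1 := hf ⟨n, z, hz⟩
        have h2 := bc_symm V.symm (hf' ⟨n, ⟨f ⟨n, z, hz⟩, end1 _ _ V _ _ _ (hf ⟨n, z, hz⟩)⟩⟩)
        rw [Path.symm_symm] at h2
        exact (bc_unique hV h2 h1).2 rfl
      right_inv := by
        rintro ⟨n, z, hz⟩
        refine Sigma.ext rfl (heq_of_eq (Subtype.ext ?_))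
        show f _ = z
        have h1 := bc_symm V.symm (hf' ⟨n, z, hz⟩)
        have h2 := (hf ⟨n, ⟨f' ⟨n, z, hz⟩, end1 _ _ V.symm _ _ _ (hf' ⟨n, z, hz⟩)⟩⟩)
        rw [Path.symm_symm] at h1
        exact (bc_unique hV h2 h1).1 rfl }
  have hB1 : ∀ v, (B v).1 = v.1 := fun v => rfl
  have hB2 : ∀ v, IsLift c v.1 (V : C(unitInterval, ℂ)) v.2 (B v).2 := fun v => hf v
  have hB1' : ∀ v, (B.symm v).1 = v.1 := fun v => rfl
  have hB2' : ∀ v, IsLift c v.1 (V.symm : C(unitInterval, ℂ)) v.2 (B.symm v).2 := fun v => hf' v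
  have hVsymm : ∀ s, V.symm s ∉ PC (c : ℂ) := fun s => hV _
  have himg : (B.permCongrHom : Equiv.Perm (Vert (c : ℂ) (x : ℂ)) ≃* _).toMonoidHom ''
      {g | ∃ γ : C(unitInterval, ℂ), γ 0 = (x : ℂ) ∧ γ 1 = (x : ℂ) ∧ (∀ s, γ s ∉ PC (c : ℂ)) ∧
        Induces (c : ℂ) (x : ℂ) γ g} =
      {g | ∃ γ : C(unitInterval, ℂ), γ 0 = (x : ℂ) + Complex.I ∧ γ 1 = (x : ℂ) + Complex.I ∧
        (∀ s, γ s ∉ PC (c : ℂ)) ∧ Induces (c : ℂ) ((x : ℂ) + Complex.I) γ g} := by
    apply Set.eq_of_subset_of_subset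
    · rintro _ ⟨g, ⟨γ, h0, h1, hP, hg⟩, rfl⟩
      exact bc_conj V hV B hB1 hB2 g γ h0 h1 hP hg
    · rintro g ⟨γ, h0, h1, hP, hg⟩
      refine ⟨B.symm.permCongr g, ?_, ?_⟩
      · exact bc_conj V.symm hVsymm B.symm hB1' hB2' g γ h0 h1 hP hg
      · show B.permCongr (B.symm.permCongr g) = g
        ext1 v
        simp [Equiv.permCongr_apply]
  have hmap : (IMG (c : ℂ) (x : ℂ)).map (B.permCongrHom : Equiv.Perm (Vert (c : ℂ) (x : ℂ)) ≃* _).toMonoidHom
      = IMG (c : ℂ) ((x : ℂ) + Complex.I) := by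
    unfold IMG
    rw [MonoidHom.map_closure, himg]
  exact ⟨((B.permCongrHom : Equiv.Perm (Vert (c : ℂ) (x : ℂ)) ≃* _).subgroupMap _).trans
    (MulEquiv.subgroupCongr hmap)⟩

end Pool.Agent.Helper79_Real.V10
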