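import Pool.Agent.Helper79_Real.V1

/-!
Lemma job V2 (lifting a path which stays in the plane cut along the real axis outside one gap).  Definitions:
Pool/Agent/Helper79_Real/{HDefs,HBase}.lean on origin/main (copy the folder to your working tree and
`lake build Pool.Agent.Helper79_Real.HBase`).

Plain-words proof.  `P c` is mapped into itself by `f c` and contains `c`.  `R` is the principal square root.
`lift_exists`: induction on `n` (generalizing `x, γ, z`).  `n = 0`: `Γ = γ`.  Step: `(fC c)^[n+1] z = fC c (u)` with `u = (fC c)^[n] z`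
(`Function.iterate_succ_apply'`), so `u ^ 2 = γ a - c`.
 * `c < x` (`x ≠ c` as `c ∈ P c`): a real `γ s` is in the gap of `x`, so `(γ s).re > c`; hence `γ s - c ∈ slitPlane` for all `s` and
   `δ s = R (γ s - c)` and `-δ` are two continuous lifts of `γ` by `fC c`; `u = δ a` or `u = -δ a`.  Let `δ'` be the one with `δ' a = u`, of sign `b`
   (`true` for minus).  `δ' s ∈ Om c (pre c b x)`: if `δ' s` is not real fine; if it is real, then `γ s = (δ' s)^2 + c` is real, in the gap of `x`, and
   `δ' s = pre c b (γ s).re` (`R_real`); if a point `p ∈ P c` were equal to `pre c b y` or between `pre c b x` and `pre c b y`, `y = (γ s).re`, then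
   `f c p ∈ P c` would be equal to `y` or between `x` and `y` (`t ↦ √(t - c)` is increasing), impossible.  `pre c b x ∉ P c`.  Apply the induction hypothesis to
   `δ'` and `z`: a lift `Γ` of `δ'` by `(fC c)^[n]`; then `(fC c)^[n+1] (Γ s) = fC c (δ' s) = γ s`.
 * `x < c`: a real `γ s` satisfies `(γ s).re < c`; so `-(γ s - c) ∈ slitPlane` and `δ s = I * R (-(γ s - c))`, `-δ` are the two continuous lifts; they are never
   real (`Re R > 0`), hence lie in `Om c x`.  Same conclusion.
`lift_label`: induction on `l` (generalizing everything).  `l = b :: l'`: use the explicit lift `δ'` of `γ` by `fC c` with `δ' a = pb c b (γ a)`.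
 * `c < x`: `δ' s = pb c b (γ s)` for all `s`; `δ' ` in `Om c (pre c b x)`; `(δ' a).im`, `(δ' b).im` are nonzero and their product has the sign of
   `(γ a).im * (γ b).im` (`R_im_pos`, `R_im_neg`); induction hypothesis for `l'`, and `kap c x (b :: l') = b :: kap c (pre c b x) l'`.
 * `x < c`: `δ' = ± I * R (-(γ - c))` stays in the open upper or in the open lower half plane, so the product of its imaginary parts at the ends is positive;
   `δ' a = pb c b (γ a)`; `δ' b = pb c b' (γ b)` with `b' = b` if `γ a`, `γ b` are on the same side of the real axis and `b' = !b` otherwise (compare imaginary parts: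
   the two square roots of `γ b - c` have opposite imaginary parts).  Induction hypothesis for `δ'`, `l'` with the same `x`, and `kap c x (b :: l') = (!b) :: l'`.
-/

namespace Pool.Agent.Helper79_Real.V2

open V1 (R_sq R_re R_im_pos R_im_neg R_cont R_real)

open Set

variable {c : ℝ}

theorem v2_pb_sq (b : Bool) (w : ℂ) : pb c b w ^ 2 = w - c := by
  unfold pb
  cases b
  · simp [R_sq]
  · simp [R_sq]

theorem v2_fC_pb (b : Bool) (w : ℂ) : fC c (pb c b w) = w := by
  unfold fC
  rw [v2_pb_sq]
  ring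

theorem v2_pb_not (b : Bool) (w : ℂ) : pb c (!b) w = -pb c b w := by
  cases b <;> simp [pb]

theorem v2_pre_sq {x : ℝ} (hcx : c < x) (b : Bool) : f c (pre c b x) = x := by
  have h : 0 ≤ x - c := by linarith
  unfold f pre
  cases b
  · simp only [Bool.false_eq_true, if_false]
    rw [Real.sq_sqrt h]
    ring
  · simp only [if_true]
    rw [neg_sq, Real.sq_sqrt h]
    ring

theorem v2_pre_notMem {x : ℝ} (hx : x ∉ P c) (hcx : c < x) (b : Bool) : pre c b x ∉ P c := by
  intro h
  have h1 := P_f h
  rw [v2_pre_sq hcx] at h1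
  exact hx h1

theorem v2_slitA {x : ℝ} (hcx : c < x) {z : ℂ} (hz : z ∈ Om c x) : z - c ∈ Complex.slitPlane := by
  rw [Complex.mem_slitPlane_iff]
  by_cases h : z.im = 0
  · left
    rcases hz with hz | hz
    · exact absurd h hz
    · have h1 := hz c c_mem
      have h2 := h1.2.1 hcx
      simpa using h2
  · right
    simpa using h

theorem v2_slitB {x : ℝ} (hxc : x < c) {z : ℂ} (hz : z ∈ Om c x) : -(z - c) ∈ Complex.slitPlane := by
  rw [Complex.mem_slitPlane_iff]
  by_cases h : z.im = 0
  · left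
    rcases hz with hz | hz
    · exact absurd h hz
    · have h1 := hz c c_mem
      have h2 : ¬ c < z.re := fun h => absurd (h1.2.2 h) (not_lt.2 hxc.le)
      have h3 : z.re < c := lt_of_le_of_ne (not_lt.1 h2) (Ne.symm h1.1)
      simpa using h3
  · right
    simpa using h

theorem v2_pb_mem {x : ℝ} (hx : x ∉ P c) (hcx : c < x) (b : Bool) {z : ℂ} (hz : z ∈ Om c x) :
    pb c b z ∈ Om c (pre c b x) := by
  by_cases him : (pb c b z).im = 0
  · right
    have hzim : z.im = 0 := by
      have h1 := congrArg Complex.im (v2_pb_sq (c := c) b z)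
      rw [sq, Complex.mul_im, him] at h1
      simpa using h1.symm
    rcases hz with hz | hz
    · exact absurd hzim hz
    have hy : c < z.re := (hz c c_mem).2.1 hcx
    have hzz : z - (c : ℂ) = ((z.re - c : ℝ) : ℂ) := by
      apply Complex.ext <;> simp [hzim]
    have hre : (pb c b z).re = pre c b z.re := by
      unfold pb pre
      rw [hzz, R_real (by linarith)]
      cases b
      · simp only [Bool.false_eq_true, if_false, Complex.ofReal_re]
      · simp only [if_true, Complex.neg_re, Complex.ofReal_re]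
    rw [hre]
    intro p hp
    have hq := hz (f c p) (P_f hp)
    have hqx : f c p ≠ x := fun h => hx (h ▸ P_f hp)
    refine ⟨?_, ?_⟩
    · intro h
      apply hq.1
      rw [h, v2_pre_sq hy]
    · unfold f at hq hqx
      cases b
      · simp only [pre, Bool.false_eq_true, if_false]
        by_cases hp0 : p < 0
        · exact ⟨fun _ => lt_of_lt_of_le hp0 (Real.sqrt_nonneg _),
            fun _ => lt_of_lt_of_le hp0 (Real.sqrt_nonneg _)⟩
        · rw [not_lt] at hp0
          rw [Real.lt_sqrt hp0, Real.lt_sqrt hp0]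
          constructor
          · intro h
            have := hq.2.1 (by linarith)
            linarith
          · intro h
            have := hq.2.2 (by linarith)
            linarith
      · simp only [pre, if_true]
        by_cases hp0 : p < 0
        · have e : ∀ y : ℝ, p < -√(y - c) ↔ y - c < p ^ 2 := fun y => by
            rw [lt_neg, Real.sqrt_lt' (by linarith), neg_sq]
          rw [e, e]
          constructor
          · intro h
            by_contra hcon
            rw [not_lt] at hcon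
            have h1 : p ^ 2 + c < z.re := lt_of_le_of_ne (by linarith) hq.1
            have := hq.2.2 h1
            linarith
          · intro h
            by_contra hcon
            rw [not_lt] at hcon
            have h1 : p ^ 2 + c < x := lt_of_le_of_ne (by linarith) hqx
            have := hq.2.1 h1
            linarith
        · rw [not_lt] at hp0
          have h1 := Real.sqrt_nonneg (x - c)
          have h2 := Real.sqrt_nonneg (z.re - c)
          exact ⟨fun h => absurd h (not_lt.2 (by linarith)), fun h => absurd h (not_lt.2 (by linarith))⟩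
  · exact Or.inl him

theorem v2_contA {x : ℝ} (hcx : c < x) (b : Bool) {γ : ℝ → ℂ} {a b' : ℝ}
    (hγ : ContinuousOn γ (Icc a b')) (hO : ∀ s ∈ Icc a b', γ s ∈ Om c x) :
    ContinuousOn (fun s => pb c b (γ s)) (Icc a b') := by
  have h1 : ContinuousOn (fun s => R (γ s - c)) (Icc a b') :=
    R_cont.comp (hγ.sub continuousOn_const) fun s hs => v2_slitA hcx (hO s hs)
  unfold pb
  cases b
  · simp only [Bool.false_eq_true, if_false]
    exact h1
  · simp only [if_true]
    exact h1.neg

theorem v2_contB {x : ℝ} (hxc : x < c) (σ : ℂ) {γ : ℝ → ℂ} {a b' : ℝ}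
    (hγ : ContinuousOn γ (Icc a b')) (hO : ∀ s ∈ Icc a b', γ s ∈ Om c x) :
    ContinuousOn (fun s => σ * (Complex.I * R (-(γ s - c)))) (Icc a b') := by
  have h1 : ContinuousOn (fun s => R (-(γ s - c))) (Icc a b') :=
    R_cont.comp (hγ.sub continuousOn_const).neg fun s hs => v2_slitB hxc (hO s hs)
  exact continuousOn_const.mul (continuousOn_const.mul h1)

theorem v2_lift {n : ℕ} {γ δ : ℝ → ℂ} {a b : ℝ} {z z' : ℂ} (h : Lf c n δ a b z z')
    (hδ : ∀ s ∈ Icc a b, fC c (δ s) = γ s) : Lf c (n + 1) γ a b z z' := by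
  obtain ⟨Γ, h1, h2, h3, h4⟩ := h
  refine ⟨Γ, h1, h2, h3, fun s hs => ?_⟩
  rw [Function.iterate_succ_apply', h4 s hs, hδ s hs]

theorem v2_im {x : ℝ} (hxc : x < c) {z : ℂ} (hz : z ∈ Om c x) :
    0 < (Complex.I * R (-(z - c))).im := by
  have h := R_re (v2_slitB hxc hz)
  simpa using h

theorem v2_sqB (z : ℂ) : (Complex.I * R (-(z - c))) ^ 2 = z - c := by
  rw [mul_pow, Complex.I_sq, R_sq]
  ring

theorem v2_sign {x : ℝ} (_hxc : x < c) {u w : ℂ} (hu : u ^ 2 = w - c) :
    ∃ σ : ℂ, (σ = 1 ∨ σ = -1) ∧ u = σ * (Complex.I * R (-(w - c))) := by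
  have h1 : u ^ 2 = (Complex.I * R (-(w - c))) ^ 2 := by rw [hu, v2_sqB]
  rcases sq_eq_sq_iff_eq_or_eq_neg.1 h1 with h2 | h2
  · exact ⟨1, Or.inl rfl, by rw [one_mul]; exact h2⟩
  · exact ⟨-1, Or.inr rfl, by rw [neg_one_mul]; exact h2⟩

theorem v2_signsq {σ : ℂ} (hσ : σ = 1 ∨ σ = -1) (w : ℂ) :
    fC c (σ * (Complex.I * R (-(w - c)))) = w := by
  have h : σ ^ 2 = 1 := by rcases hσ with rfl | rfl <;> norm_num
  unfold fC
  rw [mul_pow, v2_sqB, h]
  ring

theorem v2_signim {x : ℝ} (hxc : x < c) {σ : ℂ} (hσ : σ = 1 ∨ σ = -1) {z : ℂ} (hz : z ∈ Om c x) :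
    (σ * (Complex.I * R (-(z - c)))).im ≠ 0 := by
  have h := v2_im hxc hz
  rcases hσ with rfl | rfl
  · rw [one_mul]
    exact h.ne'
  · rw [neg_one_mul, Complex.neg_im]
    exact neg_ne_zero.2 h.ne'

theorem v2_signmul {x : ℝ} (hxc : x < c) {σ : ℂ} (hσ : σ = 1 ∨ σ = -1) {z w : ℂ} (hz : z ∈ Om c x)
    (hw : w ∈ Om c x) : 0 < (σ * (Complex.I * R (-(z - c)))).im *
      (σ * (Complex.I * R (-(w - c)))).im := by
  have h := v2_im hxc hz
  have h' := v2_im hxc hw
  rcases hσ with rfl | rfl
  · rw [one_mul, one_mul]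
    exact mul_pos h h'
  · rw [neg_one_mul, neg_one_mul, Complex.neg_im, Complex.neg_im, neg_mul_neg]
    exact mul_pos h h'

theorem v2_pbim (b : Bool) (v w : ℂ) :
    (pb c b v).im * (pb c b w).im = (R (v - c)).im * (R (w - c)).im := by
  unfold pb
  cases b
  · simp
  · simp

theorem v2_Rim {v w : ℂ} : (0 < v.im * w.im → 0 < (R (v - c)).im * (R (w - c)).im) ∧
    (v.im * w.im < 0 → (R (v - c)).im * (R (w - c)).im < 0) := by
  have hp : ∀ {z : ℂ}, 0 < z.im → 0 < (R (z - c)).im := fun {z} h => R_im_pos (by simpa using h)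
  have hn : ∀ {z : ℂ}, z.im < 0 → (R (z - c)).im < 0 := fun {z} h => R_im_neg (by simpa using h)
  constructor
  · intro h
    rcases mul_pos_iff.1 h with ⟨h1, h2⟩ | ⟨h1, h2⟩
    · exact mul_pos (hp h1) (hp h2)
    · exact mul_pos_of_neg_of_neg (hn h1) (hn h2)
  · intro h
    rcases mul_neg_iff.1 h with ⟨h1, h2⟩ | ⟨h1, h2⟩
    · exact mul_neg_of_pos_of_neg (hp h1) (hn h2)
    · exact mul_neg_of_neg_of_pos (hn h1) (hp h2)

theorem v2_pbim_ne (b : Bool) {v : ℂ} (hv : v.im ≠ 0) : (pb c b v).im ≠ 0 := by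
  have h1 : 0 < v.im * v.im := mul_self_pos.2 hv
  have h2 := v2_Rim (c := c).1 h1
  rw [← v2_pbim b] at h2
  intro h
  rw [h] at h2
  simp at h2

/-- one step of the lifting -/
theorem v2_step {x : ℝ} (hx : x ∉ P c) (γ : ℝ → ℂ) {a b : ℝ} (hab : a ≤ b)
    (hγ : ContinuousOn γ (Icc a b)) (hO : ∀ s ∈ Icc a b, γ s ∈ Om c x) {u : ℂ}
    (hu : fC c u = γ a) : ∃ x' : ℝ, x' ∉ P c ∧ ∃ δ : ℝ → ℂ, ContinuousOn δ (Icc a b) ∧
      (∀ s ∈ Icc a b, δ s ∈ Om c x') ∧ δ a = u ∧ ∀ s ∈ Icc a b, fC c (δ s) = γ s := by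
  have hu2 : u ^ 2 = γ a - c := by
    rw [← hu]
    unfold fC
    ring
  have hxc : x ≠ c := fun h => hx (h ▸ c_mem)
  rcases lt_or_gt_of_ne hxc with hlt | hlt
  · obtain ⟨σ, hσ, h1⟩ := v2_sign hlt hu2
    exact ⟨x, hx, fun s => σ * (Complex.I * R (-(γ s - c))), v2_contB hlt σ hγ hO,
      fun s hs => Or.inl (v2_signim hlt hσ (hO s hs)), h1.symm,
      fun s _ => v2_signsq hσ _⟩
  · have h1 : u ^ 2 = (pb c false (γ a)) ^ 2 := by rw [hu2, v2_pb_sq]
    rcases sq_eq_sq_iff_eq_or_eq_neg.1 h1 with h2 | h2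
    · exact ⟨pre c false x, v2_pre_notMem hx hlt false, fun s => pb c false (γ s),
        v2_contA hlt false hγ hO, fun s hs => v2_pb_mem hx hlt false (hO s hs), h2.symm,
        fun s _ => v2_fC_pb false _⟩
    · refine ⟨pre c true x, v2_pre_notMem hx hlt true, fun s => pb c true (γ s),
        v2_contA hlt true hγ hO, fun s hs => v2_pb_mem hx hlt true (hO s hs), ?_,
        fun s _ => v2_fC_pb true _⟩
      show pb c true (γ a) = u
      rw [h2, ← v2_pb_not]
      rfl

/-- TARGET 1 -/
theorem lift_exists {x : ℝ} (hx : x ∉ P c) (n : ℕ) (γ : ℝ → ℂ) {a b : ℝ} (hab : a ≤ b)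
    (hγ : ContinuousOn γ (Icc a b)) (hO : ∀ s ∈ Icc a b, γ s ∈ Om c x) {z : ℂ}
    (hz : (fC c)^[n] z = γ a) : ∃ z', Lf c n γ a b z z' := by
  induction n generalizing x γ z with
  | zero => exact ⟨γ b, γ, hγ, hz.symm, rfl, fun s _ => rfl⟩
  | succ n ih =>
    rw [Function.iterate_succ_apply'] at hz
    obtain ⟨x', hx', δ, h1, h2, h3, h4⟩ := v2_step hx γ hab hγ hO hz
    obtain ⟨z', hz'⟩ := ih hx' δ h1 h2 h3.symm
    exact ⟨z', v2_lift hz' h4⟩

/-- TARGET 2 (prove both) -/
theorem lift_label {x : ℝ} (hx : x ∉ P c) (l : List Bool) (γ : ℝ → ℂ) {a b : ℝ} (hab : a ≤ b)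
    (hγ : ContinuousOn γ (Icc a b)) (hO : ∀ s ∈ Icc a b, γ s ∈ Om c x) (ha : (γ a).im ≠ 0)
    (hb : (γ b).im ≠ 0) :
    (0 < (γ a).im * (γ b).im → Lf c l.length γ a b (phi c (γ a) l) (phi c (γ b) l)) ∧
    ((γ a).im * (γ b).im < 0 → Lf c l.length γ a b (phi c (γ a) l) (phi c (γ b) (kap c x l))) := by
  induction l generalizing x γ with
  | nil => exact ⟨fun _ => ⟨γ, hγ, rfl, rfl, fun s _ => rfl⟩, fun _ => ⟨γ, hγ, rfl, rfl, fun s _ => rfl⟩⟩
  | cons e l ih =>
    have haI : a ∈ Icc a b := ⟨le_rfl, hab⟩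
    have hbI : b ∈ Icc a b := ⟨hab, le_rfl⟩
    have hxc : x ≠ c := fun h => hx (h ▸ c_mem)
    rcases lt_or_gt_of_ne hxc with hlt | hlt
    · obtain ⟨σ, hσ, h1⟩ := v2_sign hlt (v2_pb_sq (c := c) e (γ a))
      have key := (ih hx (fun s => σ * (Complex.I * R (-(γ s - c)))) (v2_contB hlt σ hγ hO)
        (fun s hs => Or.inl (v2_signim hlt hσ (hO s hs))) (v2_signim hlt hσ (hO a haI))
        (v2_signim hlt hσ (hO b hbI))).1 (v2_signmul hlt hσ (hO a haI) (hO b hbI))
      simp only [← h1] at key
      have hpos := v2_signmul hlt hσ (hO a haI) (hO b hbI)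
      rw [← h1] at hpos
      have hL := v2_lift key fun s _ => v2_signsq hσ (γ s)
      have hsq : (pb c e (γ b)) ^ 2 = (σ * (Complex.I * R (-(γ b - c)))) ^ 2 := by
        have h2 := v2_signsq (c := c) hσ (γ b)
        unfold fC at h2
        rw [v2_pb_sq]
        linear_combination -h2
      have him := v2_pbim (c := c) e (γ a) (γ b)
      constructor
      · intro h
        have h3 := v2_Rim (c := c).1 h
        rw [← him] at h3
        have h4 : pb c e (γ b) = σ * (Complex.I * R (-(γ b - c))) := by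
          rcases sq_eq_sq_iff_eq_or_eq_neg.1 hsq with h5 | h5
          · exact h5
          · exfalso
            rw [h5, Complex.neg_im] at h3
            linarith
        rw [← h4] at hL
        exact hL
      · intro h
        have h3 := v2_Rim (c := c).2 h
        rw [← him] at h3
        have h4 : pb c (!e) (γ b) = σ * (Complex.I * R (-(γ b - c))) := by
          rw [v2_pb_not]
          rcases sq_eq_sq_iff_eq_or_eq_neg.1 hsq with h5 | h5
          · exfalso
            rw [h5] at h3
            linarith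
          · rw [h5, neg_neg]
        rw [← h4] at hL
        have hk : kap c x (e :: l) = (!e) :: l := by simp [kap, hlt]
        rw [hk]
        exact hL
    · have hnlt : ¬ x < c := not_lt.2 hlt.le
      obtain ⟨k1, k2⟩ := ih (v2_pre_notMem hx hlt e) (fun s => pb c e (γ s))
        (v2_contA hlt e hγ hO) (fun s hs => v2_pb_mem hx hlt e (hO s hs))
        (v2_pbim_ne e ha) (v2_pbim_ne e hb)
      have him := v2_pbim (c := c) e (γ a) (γ b)
      constructor
      · intro h
        have h3 := v2_Rim (c := c).1 h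
        rw [← him] at h3
        exact v2_lift (k1 h3) fun s _ => v2_fC_pb e (γ s)
      · intro h
        have h3 := v2_Rim (c := c).2 h
        rw [← him] at h3
        have hk : kap c x (e :: l) = e :: kap c (pre c e x) l := by simp [kap, hnlt]
        rw [hk]
        exact v2_lift (k2 h3) fun s _ => v2_fC_pb e (γ s)

end Pool.Agent.Helper79_Real.V2
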